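import Pool.Agent.Helper38.EQ.InvFun

/-!
# EQ-P8 (base change of automorphisms)

Put `y i = ext K L (τ (X i))`.  As `τ` is an automorphism of a local ring, `span (range (τ ∘ X))`
is the maximal ideal; so `span (range y)` is the maximal ideal (use `linear_of_span_eq`, the
determinant is mapped to the determinant, and `span_eq_of_linear`; or: the span is
`map (ext K L) maximalIdeal = span (X i)`).  `exists_algEquiv` gives `τ'` with `τ' (X i) = y i`,
and `ringHom_ext_of_X` shows that the ring homomorphisms `τ' ∘ ext` and `ext ∘ τ` agree.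
-/

namespace Pool.Agent.Helper38.EQ

open MvPowerSeries

theorem BaseChange_max (n : ℕ) (F : Type) [Field F] :
    IsLocalRing.maximalIdeal (MvPowerSeries (Fin n) F) =
      Ideal.span (Set.range fun i => (X i : MvPowerSeries (Fin n) F)) := by
  rw [maximalIdeal_eq_coordIdeal, coordIdeal, Finset.coe_univ, Set.image_univ]

theorem BaseChange_span {n : ℕ} {K L : Type} [Field K] [Field L] [Algebra K L]
    (τ : MvPowerSeries (Fin n) K ≃ₐ[K] MvPowerSeries (Fin n) K) :
    Ideal.span (Set.range fun i => ext K L (τ (X i))) =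
      IsLocalRing.maximalIdeal (MvPowerSeries (Fin n) L) := by
  have h1 : Ideal.map τ (IsLocalRing.maximalIdeal (MvPowerSeries (Fin n) K)) =
      IsLocalRing.maximalIdeal (MvPowerSeries (Fin n) K) :=
    IsLocalRing.eq_maximalIdeal (Ideal.map_isMaximal_of_equiv τ)
  have h2 : Ideal.map (ext K L) (IsLocalRing.maximalIdeal (MvPowerSeries (Fin n) K)) =
      IsLocalRing.maximalIdeal (MvPowerSeries (Fin n) L) := by
    rw [BaseChange_max n K, BaseChange_max n L, Ideal.map_span, ← Set.range_comp]
    congr 2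
    funext i
    exact map_X _ i
  rw [← h2]
  conv_rhs => rw [← h1, BaseChange_max n K, Ideal.map_span, Ideal.map_span]
  rw [← Set.range_comp, ← Set.range_comp]
  rfl

theorem exists_baseChange {n : ℕ} {K L : Type} [Field K] [Field L] [Algebra K L]
    (τ : MvPowerSeries (Fin n) K ≃ₐ[K] MvPowerSeries (Fin n) K) :
    ∃ τ' : MvPowerSeries (Fin n) L ≃ₐ[L] MvPowerSeries (Fin n) L,
      ∀ h, τ' (ext K L h) = ext K L (τ h) := by
  obtain ⟨τ', hτ'⟩ := exists_algEquiv (fun i => ext K L (τ (X i))) (BaseChange_span τ)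
  refine ⟨τ', ?_⟩
  have hC : ∀ (F : Type) [Field F] (e : MvPowerSeries (Fin n) F ≃ₐ[F] MvPowerSeries (Fin n) F)
      (a : F), e (C a) = C a := by
    intro F _ e a
    exact e.commutes a
  have key : ((τ' : MvPowerSeries (Fin n) L →+* MvPowerSeries (Fin n) L).comp (ext K L)) =
      (ext K L).comp (τ : MvPowerSeries (Fin n) K →+* MvPowerSeries (Fin n) K) := by
    apply ringHom_ext_of_X
    · intro a
      show τ' (ext K L (C a)) = ext K L (τ (C a))
      rw [hC K τ a, map_C, hC L τ']
    · intro i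
      show τ' (ext K L (X i)) = ext K L (τ (X i))
      rw [map_X, hτ']
    · intro i
      show τ' (ext K L (X i)) ∈ _
      rw [map_X, hτ', ← BaseChange_span (L := L) τ]
      exact Ideal.subset_span ⟨i, rfl⟩
  intro h
  exact DFunLike.congr_fun key h

theorem BaseChange_fin {n : ℕ} {K L : Type} [Field K] [Field L] [Algebra K L]
    (p : MvPowerSeries (Fin (n + 1)) K) :
    finSuccEquiv L n (ext K L p) = PowerSeries.map (ext K L) (finSuccEquiv K n p) := by
  ext k x
  rw [coeff_coeff_finSuccEquiv, PowerSeries.coeff_map, coeff_map, coeff_map,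
    coeff_coeff_finSuccEquiv]

/-- The same for an isomorphism onto `L⟦y⟧⟦z⟧`. -/
theorem exists_baseChange' {n : ℕ} {K L : Type} [Field K] [Field L] [Algebra K L]
    (σ : MvPowerSeries (Fin (n + 1)) K ≃ₐ[K] PowerSeries (MvPowerSeries (Fin n) K)) :
    ∃ σ' : MvPowerSeries (Fin (n + 1)) L ≃ₐ[L] PowerSeries (MvPowerSeries (Fin n) L),
      ∀ h, σ' (ext K L h) = PowerSeries.map (ext K L) (σ h) := by
  obtain ⟨τ', hτ'⟩ := exists_baseChange (L := L) (σ.trans (finSuccEquiv K n).symm)
  refine ⟨τ'.trans (finSuccEquiv L n), fun h => ?_⟩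
  rw [AlgEquiv.trans_apply, hτ', BaseChange_fin, AlgEquiv.trans_apply, AlgEquiv.apply_symm_apply]

end Pool.Agent.Helper38.EQ
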