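import Mathlib

/-!
# EQ-P13a

If `t ∈ L` is fixed by all `K`-automorphisms of `L` then `t ∈ K` (`K`, `L` algebraically closed,
characteristic 0).  If `t ∉ K` then `t` is transcendental over `K` (`K` is algebraically closed).
Take a transcendence basis of `L/K` containing `t`; `L` is an algebraic closure of `K(S)`; the
`K`-automorphism of `K(S)` with `t ↦ t + 1` and fixing `S ∖ {t}` extends to the algebraic closure
`L` (see `Mathlib/FieldTheory/IsAlgClosed/Classification.lean`,
`IsAlgClosed.equivOfTranscendenceBasis`, `IsAlgClosure.equivOfEquiv`): for instance both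
`S` and `S` with `t` replaced by `t + 1` are transcendence bases.
-/

namespace Pool.Agent.Helper38.EQ

/-- The shift of one variable. -/
private noncomputable def shiftVar (K : Type) [Field K] {ι : Type} (i₀ : ι) :
    MvPolynomial ι K ≃ₐ[K] MvPolynomial ι K := by
  classical
  exact AlgEquiv.ofAlgHom
    (MvPolynomial.aeval fun i => MvPolynomial.X i + if i = i₀ then 1 else 0)
    (MvPolynomial.aeval fun i => MvPolynomial.X i - if i = i₀ then 1 else 0)
    (by
      ext i
      by_cases h : i = i₀ <;> simp [h])
    (by
      ext i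
      by_cases h : i = i₀ <;> simp [h])

private lemma shiftVar_X (K : Type) [Field K] {ι : Type} (i₀ : ι) :
    shiftVar K i₀ (MvPolynomial.X i₀) = MvPolynomial.X i₀ + 1 := by
  classical
  simp [shiftVar]

theorem mem_range_of_fixed {K L : Type} [Field K] [IsAlgClosed K] [Field L] [IsAlgClosed L]
    [CharZero K] [Algebra K L] (t : L) (ht : ∀ θ : L ≃ₐ[K] L, θ t = t) :
    t ∈ Set.range (algebraMap K L) := by
  by_cases h : IsAlgebraic K t
  · have hi : IsIntegral K t := h.isIntegral
    have hd := IsAlgClosed.degree_eq_one_of_irreducible K (minpoly.irreducible hi)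
    exact minpoly.mem_range_of_degree_eq_one K t hd
  · exfalso
    have htr : Transcendental K t := h
    have hs : AlgebraicIndepOn K id ({t} : Set L) := by
      refine (algebraicIndependent_unique_type_iff (ι := ({t} : Set L))).mpr ?_
      exact htr
    obtain ⟨S, hS, hb⟩ := exists_isTranscendenceBasis_superset hs
    have htS : t ∈ S := hS (Set.mem_singleton t)
    set x : S → L := ((↑) : S → L) with hx
    letI := IsAlgClosed.isAlgClosure_of_transcendence_basis x hb
    let i₀ : S := ⟨t, htS⟩
    let E : Algebra.adjoin K (Set.range x) ≃ₐ[K] Algebra.adjoin K (Set.range x) :=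
      (hb.1.aevalEquiv.symm.trans (shiftVar K i₀)).trans hb.1.aevalEquiv
    let θ : L ≃+* L := IsAlgClosure.equivOfEquiv L L E.toRingEquiv
    have h1 : ∀ a : Algebra.adjoin K (Set.range x),
        θ (algebraMap _ L a) = algebraMap _ L (E a) := fun a =>
      IsAlgClosure.equivOfEquiv_algebraMap L L E.toRingEquiv a
    have h2 : ∀ c : K, θ (algebraMap K L c) = algebraMap K L c := by
      intro c
      have e1 : algebraMap K L c = algebraMap (Algebra.adjoin K (Set.range x)) L
          (algebraMap K _ c) := rfl
      rw [e1, h1, AlgEquiv.commutes]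
    let θ' : L ≃ₐ[K] L := AlgEquiv.ofRingEquiv (f := θ) h2
    have h3 : θ' t = θ t := rfl
    have h4 : θ t = t + 1 := by
      have e0 : algebraMap (Algebra.adjoin K (Set.range x)) L
          (hb.1.aevalEquiv (MvPolynomial.X i₀)) = t := by
        rw [AlgebraicIndependent.algebraMap_aevalEquiv]
        simp [hx, i₀]
      have e1 : E (hb.1.aevalEquiv (MvPolynomial.X i₀))
          = hb.1.aevalEquiv (MvPolynomial.X i₀ + 1) := by
        show hb.1.aevalEquiv (shiftVar K i₀ (hb.1.aevalEquiv.symm
          (hb.1.aevalEquiv (MvPolynomial.X i₀)))) = _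
        rw [AlgEquiv.symm_apply_apply, shiftVar_X]
      have e2 := h1 (hb.1.aevalEquiv (MvPolynomial.X i₀))
      rw [e0, e1, map_add, map_one, map_add, map_one, e0] at e2
      exact e2
    have h5 := ht θ'
    rw [h3, h4] at h5
    have h6 : (1 : L) = 0 := by
      have := congrArg (fun z => z - t) h5
      simpa using this
    exact one_ne_zero h6

end Pool.Agent.Helper38.EQ
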