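import Pool.Agent.Helper38.EQ.Orders

/-!
# EQ-P7 (coordinate changes)

`ringHom_ext_of_X`: `φ` and `ψ` agree on polynomials and map the maximal ideal into the maximal
ideal (`φ (X i)` is in it, and `h` with zero constant coefficient is `∑ X i * h_i`).  For every `N`
write `h = P + r` with `P` a polynomial (`truncTotal`) and `r ∈ maximalIdeal^N`; so
`φ h - ψ h ∈ maximalIdeal^N` for all `N`, hence it is `0` by `mem_maximalIdeal_pow_iff`.

`linear_of_span_eq`: `y i` is in the maximal ideal; `X j = ∑ c_{ji} y_i`; taking linear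
coefficients, (constant coefficients of `c`) * (linear part of `y`) = 1.

`span_eq_of_linear`: invert the matrix: some `K`-linear combinations `y'_j` of the `y_i` are
`X j + (order ≥ 2)`, so `maximalIdeal ≤ span(y) + maximalIdeal^2`; Nakayama
(`Submodule.le_of_le_smul_of_le_jacobson_bot` or similar; the ring is Noetherian local).

`exists_algEquiv`: by `linear_of_span_eq` the constant coefficients vanish, so
`T = MvPowerSeries.substAlgHom` gives an algebra endomorphism with `T (X i) = y i`.
Compose with the linear automorphism inverse to the linear part to reduce to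
`y i = X i + (order ≥ 2)` (a linear substitution with invertible matrix is an automorphism: its
inverse is the substitution by the inverse matrix, by `ringHom_ext_of_X`).  Then
`T h - h ∈ maximalIdeal^(m+1)` for `h ∈ maximalIdeal^m`.  Injective: `T h = 0` gives
`h ∈ maximalIdeal^m → h ∈ maximalIdeal^(m+1)`.  Surjective: successive approximation, the
solution being defined coefficientwise (the sequence `h_{k+1} = h_k + (g - T h_k)` has
`g - T h_k ∈ maximalIdeal^k`, so coefficients stabilise).  Alternatively: surjectivity follows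
because `span(y) = maximalIdeal` and completeness, and injectivity because a surjective
endomorphism of a Noetherian ring is injective (Mathlib: `IsNoetherian.injective_of_surjective_endomorphism`
is for modules; for rings use `IsNoetherianRing` and
`RingHom` version if available).
-/

namespace Pool.Agent.Helper38.EQ

open MvPowerSeries

private theorem InvFun_sub_trunc {n : ℕ} {K : Type} [Field K] (N : ℕ)
    (h : MvPowerSeries (Fin n) K) :
    ∃ P : MvPolynomial (Fin n) K,
      h - (P : MvPowerSeries (Fin n) K) ∈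
        IsLocalRing.maximalIdeal (MvPowerSeries (Fin n) K) ^ N := by
  classical
  refine ⟨trunc' K (Finsupp.equivFunOnFinite.symm fun _ => N) h, ?_⟩
  rw [mem_maximalIdeal_pow_iff]
  intro α hα
  have hle : α ≤ (Finsupp.equivFunOnFinite.symm fun _ => N : Fin n →₀ ℕ) := by
    intro i
    have h1 : α i ≤ ∑ j, α j := Finset.single_le_sum (f := fun j => α j)
      (fun _ _ => Nat.zero_le _) (Finset.mem_univ i)
    change α i ≤ N
    omega
  rw [map_sub, MvPolynomial.coeff_coe, coeff_trunc', if_pos hle, sub_self]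

private theorem InvFun_eq_of_forall {n : ℕ} {K : Type} [Field K] (g : MvPowerSeries (Fin n) K)
    (h : ∀ N, g ∈ IsLocalRing.maximalIdeal (MvPowerSeries (Fin n) K) ^ N) : g = 0 := by
  ext α
  rw [map_zero]
  exact (mem_maximalIdeal_pow_iff (∑ i, α i + 1) g).mp (h _) α (Nat.lt_succ_self _)

private theorem InvFun_max_eq_span {n : ℕ} {K : Type} [Field K] :
    IsLocalRing.maximalIdeal (MvPowerSeries (Fin n) K) =
      Ideal.span (Set.range fun i => (X i : MvPowerSeries (Fin n) K)) := by
  rw [maximalIdeal_eq_coordIdeal, coordIdeal, Finset.coe_univ, Set.image_univ]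

private theorem InvFun_map_pow {n m : ℕ} {K L : Type} [Field K] [Field L]
    (φ : MvPowerSeries (Fin n) K →+* MvPowerSeries (Fin m) L)
    (hm : ∀ i, φ (X i) ∈ IsLocalRing.maximalIdeal (MvPowerSeries (Fin m) L)) (N : ℕ)
    (h : MvPowerSeries (Fin n) K)
    (hh : h ∈ IsLocalRing.maximalIdeal (MvPowerSeries (Fin n) K) ^ N) :
    φ h ∈ IsLocalRing.maximalIdeal (MvPowerSeries (Fin m) L) ^ N := by
  have h1 : Ideal.map φ (IsLocalRing.maximalIdeal (MvPowerSeries (Fin n) K)) ≤
      IsLocalRing.maximalIdeal (MvPowerSeries (Fin m) L) := by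
    rw [InvFun_max_eq_span, Ideal.map_span, Ideal.span_le]
    rintro _ ⟨_, ⟨i, rfl⟩, rfl⟩
    exact hm i
  have h2 : Ideal.map φ (IsLocalRing.maximalIdeal (MvPowerSeries (Fin n) K) ^ N) ≤
      IsLocalRing.maximalIdeal (MvPowerSeries (Fin m) L) ^ N := by
    rw [Ideal.map_pow]
    exact Ideal.pow_right_mono h1 N
  exact h2 (Ideal.mem_map_of_mem φ hh)

private theorem InvFun_poly {n m : ℕ} {K L : Type} [Field K] [Field L]
    (φ ψ : MvPowerSeries (Fin n) K →+* MvPowerSeries (Fin m) L)
    (hC : ∀ a : K, φ (C a) = ψ (C a)) (hX : ∀ i, φ (X i) = ψ (X i))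
    (P : MvPolynomial (Fin n) K) :
    φ (P : MvPowerSeries (Fin n) K) = ψ (P : MvPowerSeries (Fin n) K) := by
  induction P using MvPolynomial.induction_on with
  | C a =>
    rw [MvPolynomial.coe_C]
    exact hC a
  | add p q hp hq =>
    rw [MvPolynomial.coe_add, map_add, map_add, hp, hq]
  | mul_X p i hp =>
    rw [MvPolynomial.coe_mul, MvPolynomial.coe_X, map_mul, map_mul, hp, hX]

theorem ringHom_ext_of_X {n m : ℕ} {K L : Type} [Field K] [Field L]
    (φ ψ : MvPowerSeries (Fin n) K →+* MvPowerSeries (Fin m) L)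
    (hC : ∀ a : K, φ (C a) = ψ (C a)) (hX : ∀ i, φ (X i) = ψ (X i))
    (hm : ∀ i, φ (X i) ∈ IsLocalRing.maximalIdeal (MvPowerSeries (Fin m) L)) : φ = ψ := by
  refine RingHom.ext fun h => ?_
  rw [← sub_eq_zero]
  refine InvFun_eq_of_forall _ fun N => ?_
  obtain ⟨P, hP⟩ := InvFun_sub_trunc N h
  have h1 := InvFun_map_pow φ hm N _ hP
  have h2 := InvFun_map_pow ψ (fun i => (hX i) ▸ hm i) N _ hP
  have h3 : φ h - ψ h = φ (h - (P : MvPowerSeries (Fin n) K)) -
      ψ (h - (P : MvPowerSeries (Fin n) K)) := by
    rw [map_sub, map_sub, InvFun_poly φ ψ hC hX P]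
    ring
  rw [h3]
  exact Ideal.sub_mem _ h1 h2

private theorem InvFun_const {n : ℕ} {K : Type} [Field K] (g : MvPowerSeries (Fin n) K) :
    g ∈ IsLocalRing.maximalIdeal (MvPowerSeries (Fin n) K) ↔ constantCoeff g = 0 := by
  rw [IsLocalRing.mem_maximalIdeal, mem_nonunits_iff, isUnit_iff_constantCoeff,
    isUnit_iff_ne_zero, not_not]

private theorem InvFun_coeff_single {n : ℕ} {K : Type} [Field K] (k : Fin n)
    (c g : MvPowerSeries (Fin n) K) (hg : constantCoeff g = 0) :
    coeff (Finsupp.single k 1) (c * g) = constantCoeff c * coeff (Finsupp.single k 1) g := by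
  classical
  have h1 : (C (constantCoeff c) : MvPowerSeries (Fin n) K) * g +
      (c - C (constantCoeff c)) * g = c * g := by ring
  have h2 : (c - C (constantCoeff c)) * g ∈
      IsLocalRing.maximalIdeal (MvPowerSeries (Fin n) K) ^ 2 := by
    rw [pow_two]
    refine Ideal.mul_mem_mul ?_ ?_
    · rw [InvFun_const, map_sub, constantCoeff_C, sub_self]
    · rw [InvFun_const, hg]
  rw [mem_maximalIdeal_pow_iff] at h2
  rw [← h1, map_add, coeff_C_mul, h2, add_zero]
  have h3 : ∑ i, (Finsupp.single k 1 : Fin n →₀ ℕ) i = 1 := by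
    rw [Finset.sum_eq_single_of_mem k (Finset.mem_univ k)]
    · exact Finsupp.single_eq_same
    · intro j _ hj
      exact Finsupp.single_eq_of_ne hj
  omega

private theorem InvFun_coeff_sum {n : ℕ} {K : Type} [Field K] (k : Fin n)
    (c y : Fin n → MvPowerSeries (Fin n) K) (hy : ∀ i, constantCoeff (y i) = 0) :
    coeff (Finsupp.single k 1) (∑ i, c i * y i) =
      ∑ i, constantCoeff (c i) * coeff (Finsupp.single k 1) (y i) := by
  rw [map_sum]
  exact Finset.sum_congr rfl fun i _ => InvFun_coeff_single k (c i) (y i) (hy i)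

theorem linear_of_span_eq {n : ℕ} {K : Type} [Field K] (y : Fin n → MvPowerSeries (Fin n) K)
    (hy : Ideal.span (Set.range y) = IsLocalRing.maximalIdeal (MvPowerSeries (Fin n) K)) :
    (∀ i, constantCoeff (y i) = 0) ∧
      (Matrix.of fun i j => coeff (Finsupp.single j 1) (y i)).det ≠ 0 := by
  classical
  have h0 : ∀ i, constantCoeff (y i) = 0 := by
    intro i
    rw [← InvFun_const, ← hy]
    exact Ideal.subset_span ⟨i, rfl⟩
  refine ⟨h0, ?_⟩
  have h1 : ∀ j : Fin n, ∃ c : Fin n → MvPowerSeries (Fin n) K, ∑ i, c i * y i = X j := by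
    intro j
    have h2 : (X j : MvPowerSeries (Fin n) K) ∈ Ideal.span (Set.range y) := by
      rw [hy, InvFun_max_eq_span]
      exact Ideal.subset_span ⟨j, rfl⟩
    rw [Ideal.mem_span_range_iff_exists_fun] at h2
    exact h2
  choose c hc using h1
  have h3 : (Matrix.of fun j i => constantCoeff (c j i)) *
      (Matrix.of fun i j => coeff (Finsupp.single j 1) (y i)) = (1 : Matrix (Fin n) (Fin n) K) := by
    ext j k
    rw [Matrix.mul_apply]
    have h4 := InvFun_coeff_sum k (c j) y h0
    rw [hc j, coeff_X] at h4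
    change ∑ i, constantCoeff (c j i) * coeff (Finsupp.single k 1) (y i) = _
    rw [← h4, Matrix.one_apply]
    by_cases hjk : j = k
    · rw [hjk, if_pos rfl, if_pos rfl]
    · rw [if_neg, if_neg hjk]
      intro h5
      exact hjk ((Finsupp.single_left_inj one_ne_zero).mp h5).symm
  intro hdet
  have h5 := congrArg Matrix.det h3
  rw [Matrix.det_mul, hdet, mul_zero, Matrix.det_one] at h5
  exact zero_ne_one h5

theorem span_eq_of_linear {n : ℕ} {K : Type} [Field K] (y : Fin n → MvPowerSeries (Fin n) K)
    (h0 : ∀ i, constantCoeff (y i) = 0)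
    (hdet : (Matrix.of fun i j => coeff (Finsupp.single j 1) (y i)).det ≠ 0) :
    Ideal.span (Set.range y) = IsLocalRing.maximalIdeal (MvPowerSeries (Fin n) K) := by
  classical
  refine le_antisymm ?_ ?_
  · rw [Ideal.span_le]
    rintro _ ⟨i, rfl⟩
    exact (InvFun_const _).mpr (h0 i)
  · set A : Matrix (Fin n) (Fin n) K := Matrix.of fun i j => coeff (Finsupp.single j 1) (y i)
      with hA
    have hinv : A⁻¹ * A = 1 := Matrix.nonsing_inv_mul A (Ne.isUnit hdet)
    refine Submodule.le_of_le_smul_of_le_jacobson_bot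
      (I := IsLocalRing.maximalIdeal (MvPowerSeries (Fin n) K)) (IsNoetherian.noetherian _)
      (IsLocalRing.maximalIdeal_le_jacobson ⊥) ?_
    rw [InvFun_max_eq_span, Ideal.span_le]
    rintro _ ⟨j, rfl⟩
    have h1 : (∑ i, C (A⁻¹ j i) * y i : MvPowerSeries (Fin n) K) ∈ Ideal.span (Set.range y) :=
      Ideal.sum_mem _ fun i _ => Ideal.mul_mem_left _ _ (Ideal.subset_span ⟨i, rfl⟩)
    have h2 : (X j : MvPowerSeries (Fin n) K) - ∑ i, C (A⁻¹ j i) * y i ∈
        IsLocalRing.maximalIdeal (MvPowerSeries (Fin n) K) ^ 2 := by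
      rw [mem_maximalIdeal_pow_iff]
      intro α hα
      by_cases hα0 : α = 0
      · rw [hα0, map_sub, map_sum]
        have h3 : ∀ i ∈ Finset.univ, coeff 0 (C (A⁻¹ j i) * y i : MvPowerSeries (Fin n) K) = 0 := by
          intro i _
          rw [coeff_C_mul]
          have := h0 i
          rw [← coeff_zero_eq_constantCoeff_apply] at this
          rw [this, mul_zero]
        rw [Finset.sum_eq_zero h3, sub_zero, coeff_X, if_neg]
        intro h4
        have := DFunLike.congr_fun h4 j
        rw [Finsupp.single_eq_same] at this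
        exact zero_ne_one this
      · have h4 : ∃ k, α k ≠ 0 := by
          by_contra hcon
          push Not at hcon
          exact hα0 (Finsupp.ext hcon)
        obtain ⟨k, hk⟩ := h4
        have h5 : α = Finsupp.single k 1 := by
          have h6 : ∑ i, α i = α k + ∑ i ∈ Finset.univ.erase k, α i :=
            (Finset.add_sum_erase Finset.univ (fun i => α i) (Finset.mem_univ k)).symm
          have h7 : ∑ i ∈ Finset.univ.erase k, α i = 0 := by omega
          have h8 : α k = 1 := by omega
          ext i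
          by_cases hik : i = k
          · rw [hik, h8, Finsupp.single_eq_same]
          · rw [Finsupp.single_eq_of_ne hik]
            exact (Finset.sum_eq_zero_iff.mp h7) i (Finset.mem_erase.mpr ⟨hik, Finset.mem_univ i⟩)
        rw [h5, map_sub, InvFun_coeff_sum k (fun i => C (A⁻¹ j i)) y h0]
        have h9 : ∑ i, constantCoeff (C (A⁻¹ j i) : MvPowerSeries (Fin n) K) *
            coeff (Finsupp.single k 1) (y i) = (A⁻¹ * A) j k := by
          rw [Matrix.mul_apply]
          refine Finset.sum_congr rfl fun i _ => ?_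
          rw [constantCoeff_C]
          rfl
        rw [h9, hinv, Matrix.one_apply, coeff_X]
        by_cases hjk : j = k
        · rw [hjk, if_pos rfl, if_pos rfl, sub_self]
        · rw [if_neg, if_neg hjk, sub_self]
          intro h10
          exact hjk ((Finsupp.single_left_inj one_ne_zero).mp h10).symm
    have h3 : (X j : MvPowerSeries (Fin n) K) =
        (∑ i, C (A⁻¹ j i) * y i) + (X j - ∑ i, C (A⁻¹ j i) * y i) := by ring
    rw [SetLike.mem_coe]
    change (X j : MvPowerSeries (Fin n) K) ∈ _
    rw [h3]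
    refine Submodule.add_mem_sup h1 ?_
    rw [← InvFun_max_eq_span, smul_eq_mul, ← pow_two]
    exact h2

private theorem InvFun_step {n : ℕ} {K : Type} [Field K] (y : Fin n → MvPowerSeries (Fin n) K)
    (hy : Ideal.span (Set.range y) = IsLocalRing.maximalIdeal (MvPowerSeries (Fin n) K))
    (T : MvPowerSeries (Fin n) K →ₐ[K] MvPowerSeries (Fin n) K) (hT : ∀ i, T (X i) = y i)
    (k : ℕ) :
    ∀ g ∈ IsLocalRing.maximalIdeal (MvPowerSeries (Fin n) K) ^ k,
      ∃ h ∈ IsLocalRing.maximalIdeal (MvPowerSeries (Fin n) K) ^ k,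
        g - T h ∈ IsLocalRing.maximalIdeal (MvPowerSeries (Fin n) K) ^ (k + 1) := by
  have hTm : ∀ i, (T : MvPowerSeries (Fin n) K →+* MvPowerSeries (Fin n) K) (X i) ∈
      IsLocalRing.maximalIdeal (MvPowerSeries (Fin n) K) := by
    intro i
    change T (X i) ∈ _
    rw [hT, ← hy]
    exact Ideal.subset_span ⟨i, rfl⟩
  have hTp : ∀ (N : ℕ) (h : MvPowerSeries (Fin n) K),
      h ∈ IsLocalRing.maximalIdeal (MvPowerSeries (Fin n) K) ^ N →
        T h ∈ IsLocalRing.maximalIdeal (MvPowerSeries (Fin n) K) ^ N := fun N h hh =>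
    InvFun_map_pow (T : MvPowerSeries (Fin n) K →+* MvPowerSeries (Fin n) K) hTm N h hh
  have hTC : ∀ a : K, T (C a) = C a := fun a => T.commutes a
  induction k with
  | zero =>
    intro g _
    refine ⟨C (constantCoeff g), by simp, ?_⟩
    rw [hTC, zero_add, pow_one, InvFun_const, map_sub, constantCoeff_C, sub_self]
  | succ k ih =>
    intro g hg
    rw [pow_succ] at hg
    refine Submodule.mul_induction_on hg ?_ ?_
    · intro a ha b hb
      obtain ⟨h, hh, hh'⟩ := ih a ha
      have hb2 := hb
      rw [← hy, Ideal.mem_span_range_iff_exists_fun] at hb2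
      obtain ⟨c, hc⟩ := hb2
      set l : MvPowerSeries (Fin n) K := ∑ i, C (constantCoeff (c i)) * X i with hl
      have hl1 : l ∈ IsLocalRing.maximalIdeal (MvPowerSeries (Fin n) K) := by
        rw [InvFun_max_eq_span]
        exact Ideal.sum_mem _ fun i _ => Ideal.mul_mem_left _ _ (Ideal.subset_span ⟨i, rfl⟩)
      have hl2 : b - T l ∈ IsLocalRing.maximalIdeal (MvPowerSeries (Fin n) K) ^ 2 := by
        have h1 : b - T l = ∑ i, (c i - C (constantCoeff (c i))) * y i := by
          rw [← hc, hl, map_sum, ← Finset.sum_sub_distrib]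
          refine Finset.sum_congr rfl fun i _ => ?_
          rw [map_mul, hTC, hT]
          ring
        rw [h1, pow_two]
        refine Ideal.sum_mem _ fun i _ => Ideal.mul_mem_mul ?_ ?_
        · rw [InvFun_const, map_sub, constantCoeff_C, sub_self]
        · rw [← hy]
          exact Ideal.subset_span ⟨i, rfl⟩
      refine ⟨h * l, ?_, ?_⟩
      · rw [pow_succ]
        exact Ideal.mul_mem_mul hh hl1
      · have h2 : a * b - T (h * l) = (a - T h) * b + T h * (b - T l) := by
          rw [map_mul]
          ring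
        rw [h2]
        refine Ideal.add_mem _ ?_ ?_
        · rw [pow_succ]
          exact Ideal.mul_mem_mul hh' hb
        · have h3 : k + 1 + 1 = k + 2 := rfl
          rw [h3, pow_add]
          exact Ideal.mul_mem_mul (hTp k h hh) hl2
    · intro a b ha hb
      obtain ⟨h, hh, hh'⟩ := ha
      obtain ⟨l, hl, hl'⟩ := hb
      refine ⟨h + l, Ideal.add_mem _ hh hl, ?_⟩
      have h2 : a + b - T (h + l) = (a - T h) + (b - T l) := by
        rw [map_add]
        ring
      rw [h2]
      exact Ideal.add_mem _ hh' hl'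

private theorem InvFun_surj {n : ℕ} {K : Type} [Field K] (y : Fin n → MvPowerSeries (Fin n) K)
    (hy : Ideal.span (Set.range y) = IsLocalRing.maximalIdeal (MvPowerSeries (Fin n) K))
    (T : MvPowerSeries (Fin n) K →ₐ[K] MvPowerSeries (Fin n) K) (hT : ∀ i, T (X i) = y i) :
    Function.Surjective T := by
  classical
  intro g
  have hTm : ∀ i, (T : MvPowerSeries (Fin n) K →+* MvPowerSeries (Fin n) K) (X i) ∈
      IsLocalRing.maximalIdeal (MvPowerSeries (Fin n) K) := by
    intro i
    change T (X i) ∈ _
    rw [hT, ← hy]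
    exact Ideal.subset_span ⟨i, rfl⟩
  have hstep : ∀ (k : ℕ) (g : MvPowerSeries (Fin n) K), ∃ h : MvPowerSeries (Fin n) K,
      g ∈ IsLocalRing.maximalIdeal (MvPowerSeries (Fin n) K) ^ k →
      h ∈ IsLocalRing.maximalIdeal (MvPowerSeries (Fin n) K) ^ k ∧
        g - T h ∈ IsLocalRing.maximalIdeal (MvPowerSeries (Fin n) K) ^ (k + 1) := by
    intro k g
    by_cases hg : g ∈ IsLocalRing.maximalIdeal (MvPowerSeries (Fin n) K) ^ k
    · obtain ⟨h, h1, h2⟩ := InvFun_step y hy T hT k g hg
      exact ⟨h, fun _ => ⟨h1, h2⟩⟩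
    · exact ⟨0, fun h => absurd h hg⟩
  choose F hF using hstep
  let G : ℕ → MvPowerSeries (Fin n) K := fun k => Nat.rec g (fun k r => r - T (F k r)) k
  have hG0 : G 0 = g := rfl
  have hGs : ∀ k, G (k + 1) = G k - T (F k (G k)) := fun k => rfl
  have hGm : ∀ k, G k ∈ IsLocalRing.maximalIdeal (MvPowerSeries (Fin n) K) ^ k := by
    intro k
    induction k with
    | zero => simp
    | succ k ih =>
      rw [hGs]
      exact (hF k (G k) ih).2
  have hHm : ∀ k, F k (G k) ∈ IsLocalRing.maximalIdeal (MvPowerSeries (Fin n) K) ^ k :=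
    fun k => (hF k (G k) (hGm k)).1
  have hsum : ∀ N, g - T (∑ k ∈ Finset.range N, F k (G k)) = G N := by
    intro N
    induction N with
    | zero => rw [Finset.sum_range_zero, map_zero, sub_zero, hG0]
    | succ N ih => rw [Finset.sum_range_succ, map_add, ← sub_sub, ih, hGs]
  let h : MvPowerSeries (Fin n) K := fun α =>
    coeff α (∑ k ∈ Finset.range (∑ i, α i + 1), F k (G k))
  have hcoeff : ∀ α, coeff α h = coeff α (∑ k ∈ Finset.range (∑ i, α i + 1), F k (G k)) :=
    fun α => rfl
  have hh : ∀ N, h - ∑ k ∈ Finset.range N, F k (G k) ∈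
      IsLocalRing.maximalIdeal (MvPowerSeries (Fin n) K) ^ N := by
    intro N
    rw [mem_maximalIdeal_pow_iff]
    intro α hα
    rw [map_sub, hcoeff, sub_eq_zero, map_sum, map_sum]
    refine Finset.sum_subset ?_ ?_
    · intro k hk
      rw [Finset.mem_range] at hk ⊢
      omega
    · intro k _ hk2
      rw [Finset.mem_range] at hk2
      exact (mem_maximalIdeal_pow_iff k (F k (G k))).mp (hHm k) α (by omega)
  refine ⟨h, ?_⟩
  rw [← sub_eq_zero]
  refine InvFun_eq_of_forall _ fun N => ?_
  have h1 : T h - g = T (h - ∑ k ∈ Finset.range N, F k (G k)) - G N := by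
    rw [← hsum N, map_sub]
    ring
  rw [h1]
  exact Ideal.sub_mem _ (InvFun_map_pow
    (T : MvPowerSeries (Fin n) K →+* MvPowerSeries (Fin n) K) hTm N _ (hh N)) (hGm N)

private theorem InvFun_exists {n : ℕ} {K : Type} [Field K] (y : Fin n → MvPowerSeries (Fin n) K)
    (hy : Ideal.span (Set.range y) = IsLocalRing.maximalIdeal (MvPowerSeries (Fin n) K)) :
    ∃ T : MvPowerSeries (Fin n) K →ₐ[K] MvPowerSeries (Fin n) K, ∀ i, T (X i) = y i := by
  have hs : HasSubst y := hasSubst_of_constantCoeff_zero (linear_of_span_eq y hy).1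
  refine ⟨substAlgHom hs, fun i => ?_⟩
  rw [substAlgHom_X]

private theorem InvFun_coeff_T {n : ℕ} {K : Type} [Field K]
    (y : Fin n → MvPowerSeries (Fin n) K)
    (hy : Ideal.span (Set.range y) = IsLocalRing.maximalIdeal (MvPowerSeries (Fin n) K))
    (T : MvPowerSeries (Fin n) K →ₐ[K] MvPowerSeries (Fin n) K) (hT : ∀ i, T (X i) = y i)
    (z : Fin n → MvPowerSeries (Fin n) K) (hz : ∀ i, T (z i) = X i) :
    Ideal.span (Set.range z) = IsLocalRing.maximalIdeal (MvPowerSeries (Fin n) K) := by
  classical
  have h0 := (linear_of_span_eq y hy).1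
  have hTm : ∀ i, (T : MvPowerSeries (Fin n) K →+* MvPowerSeries (Fin n) K) (X i) ∈
      IsLocalRing.maximalIdeal (MvPowerSeries (Fin n) K) := by
    intro i
    change T (X i) ∈ _
    rw [hT, ← hy]
    exact Ideal.subset_span ⟨i, rfl⟩
  have hTC : ∀ a : K, T (C a) = C a := fun a => T.commutes a
  have hz0 : ∀ i, constantCoeff (z i) = 0 := by
    intro i
    have h1 : z i - C (constantCoeff (z i)) ∈
        IsLocalRing.maximalIdeal (MvPowerSeries (Fin n) K) ^ 1 := by
      rw [pow_one, InvFun_const, map_sub, constantCoeff_C, sub_self]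
    have h2 := InvFun_map_pow (T : MvPowerSeries (Fin n) K →+* MvPowerSeries (Fin n) K) hTm 1 _ h1
    change T (z i - C (constantCoeff (z i))) ∈ _ at h2
    rw [pow_one, InvFun_const, map_sub, hz, hTC, map_sub, constantCoeff_C, constantCoeff_X,
      zero_sub, neg_eq_zero] at h2
    exact h2
  refine span_eq_of_linear z hz0 ?_
  have h3 : (Matrix.of fun i j => coeff (Finsupp.single j 1) (z i)) *
      (Matrix.of fun i j => coeff (Finsupp.single j 1) (y i)) = (1 : Matrix (Fin n) (Fin n) K) := by
    ext i k
    rw [Matrix.mul_apply]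
    change ∑ j, coeff (Finsupp.single j 1) (z i) * coeff (Finsupp.single k 1) (y j) = _
    set l : MvPowerSeries (Fin n) K := ∑ j, C (coeff (Finsupp.single j 1) (z i)) * X j with hl
    have h4 : z i - l ∈ IsLocalRing.maximalIdeal (MvPowerSeries (Fin n) K) ^ 2 := by
      rw [mem_maximalIdeal_pow_iff]
      intro α hα
      by_cases hα0 : α = 0
      · rw [hα0, map_sub, hl, map_sum]
        have h5 : ∀ j ∈ Finset.univ, coeff 0 (C (coeff (Finsupp.single j 1) (z i)) * X j :
            MvPowerSeries (Fin n) K) = 0 := by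
          intro j _
          rw [coeff_C_mul, coeff_zero_X, mul_zero]
        have h6 := hz0 i
        rw [← coeff_zero_eq_constantCoeff_apply] at h6
        rw [Finset.sum_eq_zero h5, h6, sub_zero]
      · have h4 : ∃ k, α k ≠ 0 := by
          by_contra hcon
          push Not at hcon
          exact hα0 (Finsupp.ext hcon)
        obtain ⟨k, hk⟩ := h4
        have h5 : α = Finsupp.single k 1 := by
          have h6 : ∑ i, α i = α k + ∑ i ∈ Finset.univ.erase k, α i :=
            (Finset.add_sum_erase Finset.univ (fun i => α i) (Finset.mem_univ k)).symm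
          have h7 : ∑ i ∈ Finset.univ.erase k, α i = 0 := by omega
          have h8 : α k = 1 := by omega
          ext i
          by_cases hik : i = k
          · rw [hik, h8, Finsupp.single_eq_same]
          · rw [Finsupp.single_eq_of_ne hik]
            exact (Finset.sum_eq_zero_iff.mp h7) i (Finset.mem_erase.mpr ⟨hik, Finset.mem_univ i⟩)
        rw [h5, map_sub, hl, map_sum, Finset.sum_eq_single_of_mem k (Finset.mem_univ k)]
        · rw [coeff_C_mul, coeff_X, if_pos rfl, mul_one, sub_self]
        · intro j _ hjk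
          rw [coeff_C_mul, coeff_X, if_neg, mul_zero]
          intro h6
          exact hjk ((Finsupp.single_left_inj one_ne_zero).mp h6).symm
    have h7 := InvFun_map_pow (T : MvPowerSeries (Fin n) K →+* MvPowerSeries (Fin n) K) hTm 2 _ h4
    change T (z i - l) ∈ _ at h7
    rw [map_sub, hz, mem_maximalIdeal_pow_iff] at h7
    have h8 : ∑ i, (Finsupp.single k 1 : Fin n →₀ ℕ) i = 1 := by
      rw [Finset.sum_eq_single_of_mem k (Finset.mem_univ k)]
      · exact Finsupp.single_eq_same
      · intro j _ hj
        exact Finsupp.single_eq_of_ne hj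
    have h9 := h7 (Finsupp.single k 1) (by omega)
    have h10 : T l = ∑ j, C (coeff (Finsupp.single j 1) (z i)) * y j := by
      rw [hl, map_sum]
      refine Finset.sum_congr rfl fun j _ => ?_
      rw [map_mul, hTC, hT]
    rw [map_sub, h10, map_sum, sub_eq_zero] at h9
    simp only [coeff_C_mul] at h9
    rw [← h9, coeff_X, Matrix.one_apply]
    by_cases hik : i = k
    · rw [hik, if_pos rfl, if_pos rfl]
    · rw [if_neg, if_neg hik]
      intro h11
      exact hik ((Finsupp.single_left_inj one_ne_zero).mp h11).symm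
  intro hdet
  have h5 := congrArg Matrix.det h3
  rw [Matrix.det_mul, hdet, zero_mul, Matrix.det_one] at h5
  exact zero_ne_one h5

/-- Formal inverse function theorem. -/
theorem exists_algEquiv {n : ℕ} {K : Type} [Field K] (y : Fin n → MvPowerSeries (Fin n) K)
    (hy : Ideal.span (Set.range y) = IsLocalRing.maximalIdeal (MvPowerSeries (Fin n) K)) :
    ∃ τ : MvPowerSeries (Fin n) K ≃ₐ[K] MvPowerSeries (Fin n) K, ∀ i, τ (X i) = y i := by
  obtain ⟨T, hT⟩ := InvFun_exists y hy
  have hsT := InvFun_surj y hy T hT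
  choose z hz using fun i : Fin n => hsT (X i)
  have hzs := InvFun_coeff_T y hy T hT z hz
  obtain ⟨S, hS⟩ := InvFun_exists z hzs
  have hsS := InvFun_surj z hzs S hS
  have hTS : ((T : MvPowerSeries (Fin n) K →+* MvPowerSeries (Fin n) K).comp
      (S : MvPowerSeries (Fin n) K →+* MvPowerSeries (Fin n) K)) = RingHom.id _ := by
    refine ringHom_ext_of_X _ _ ?_ ?_ ?_
    · intro a
      change T (S (C a)) = C a
      have h1 : S (C a) = C a := S.commutes a
      rw [h1]
      exact T.commutes a
    · intro i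
      change T (S (X i)) = X i
      rw [hS, hz]
    · intro i
      change T (S (X i)) ∈ _
      rw [hS, hz, InvFun_max_eq_span]
      exact Ideal.subset_span ⟨i, rfl⟩
  have hTS' : ∀ g, T (S g) = g := fun g => RingHom.congr_fun hTS g
  have hinj : Function.Injective T := by
    intro a b hab
    obtain ⟨a', rfl⟩ := hsS a
    obtain ⟨b', rfl⟩ := hsS b
    rw [hTS', hTS'] at hab
    rw [hab]
  exact ⟨AlgEquiv.ofBijective T ⟨hinj, hsT⟩, hT⟩

end Pool.Agent.Helper38.EQ
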