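import Pool.Agent.Helper38.EQ.Smooth
import Pool.Agent.Helper38.EQ.InvFun
import Pool.Agent.Helper38.EQ.BaseChange
import Pool.Agent.Helper38.EQ.FixedField

/-!
# EQ-P13 (smooth germs stable under automorphisms of the field descend)

Let `b = τ(coordIdeal A)`, `y_a = τ (X a)`: by `linear_of_span_eq` the linear parts of all `y_i`
are independent.  So the matrix (linear part of `y_a`)_{a ∈ A} has rank `|A|` and there is
`J : Finset (Fin n)` with `|J| = |A|` such that the columns in `J` are independent; choose a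
bijection `J ≃ A`.  The family `y'` with `y'_j = y_{a(j)}` for `j ∈ J`, `y'_c = X c` for `c ∉ J`
has invertible linear part, so there is an automorphism `τ'` of `L⟦X⟧` with `τ' (X i) = y'_i`
(`span_eq_of_linear`, `exists_algEquiv`); then `b = τ'(coordIdeal J)`, and `τ'` fixes the series in
the variables outside `J`.
Normal form: for `j ∈ J` there is a unique `φ_j ∈ L⟦X⟧` involving only the variables outside `J`
(i.e. `coeff α φ_j = 0` unless `α` vanishes on `J`) with `X_j - φ_j ∈ b`: indeed modulo
`coordIdeal J` every series is congruent to a unique series in the variables outside `J`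
(drop the terms divisible by a variable of `J`); apply this to `τ'⁻¹ (X_j)` and apply `τ'`.
For `θ ∈ Aut(L/K)` the ideal `b` is stable under `θ`, so `θ(φ_j)` has the same property
and `θ(φ_j) = φ_j` by uniqueness; so the coefficients of `φ_j` are in `K` by
`mem_range_of_fixed`: `φ_j = ext φ⁰_j`.
Put `y⁰_j = X_j - φ⁰_j` for `j ∈ J` (`φ⁰_j` has zero constant term since `b` is in the maximal
ideal; the `φ_j` may have linear terms, in the variables outside `J`) and `y⁰_c = X_c` for
`c ∉ J`: invertible (unipotent) linear part, so `b₀ := span {y⁰_j : j ∈ J}` is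
`SmoothIdeal J b₀`.
Finally `b = b₀.map ext`: `⊇` is clear; `⊆`: a series `h ∈ b` is congruent modulo
`b₀.map ext = τ⁰'(coordIdeal J)` (`exists_baseChange`) to a series `r` in the variables outside
`J`, and `r ∈ b` gives `r = 0` by uniqueness (`τ'⁻¹ r = r ∈ coordIdeal J`).
-/

namespace Pool.Agent.Helper38.EQ

open MvPowerSeries

/-- the retraction that sets the variables in `J` to zero -/
noncomputable def AutDescent_pi {n : ℕ} {L : Type} [Field L] (J : Finset (Fin n)) :
    MvPowerSeries (Fin n) L →+* MvPowerSeries (Fin n) L where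
  toFun h := fun α => if ∑ j ∈ J, α j = 0 then coeff α h else 0
  map_one' := by
    classical
    ext α
    show (if ∑ j ∈ J, α j = 0 then coeff α (1 : MvPowerSeries (Fin n) L) else 0) = _
    split_ifs with h
    · rfl
    · rw [coeff_one, if_neg]
      rintro rfl
      exact h (by simp)
  map_zero' := by
    ext α
    show (if ∑ j ∈ J, α j = 0 then coeff α (0 : MvPowerSeries (Fin n) L) else 0) = _
    split_ifs with h <;> simp
  map_add' := by
    intro a b
    ext α
    show (if ∑ j ∈ J, α j = 0 then coeff α (a + b) else 0) =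
      (if ∑ j ∈ J, α j = 0 then coeff α a else 0) + (if ∑ j ∈ J, α j = 0 then coeff α b else 0)
    split_ifs with h <;> simp
  map_mul' := by
    classical
    intro a b
    ext α
    rw [coeff_mul]
    show (if ∑ j ∈ J, α j = 0 then coeff α (a * b) else 0) =
      ∑ p ∈ Finset.HasAntidiagonal.antidiagonal α,
      (if ∑ j ∈ J, p.1 j = 0 then coeff p.1 a else 0) *
        (if ∑ j ∈ J, p.2 j = 0 then coeff p.2 b else 0)
    have hs : ∀ p ∈ Finset.HasAntidiagonal.antidiagonal α,
        (∑ j ∈ J, α j) = (∑ j ∈ J, p.1 j) + ∑ j ∈ J, p.2 j := by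
      intro p hp
      rw [Finset.HasAntidiagonal.mem_antidiagonal] at hp
      rw [← Finset.sum_add_distrib]
      refine Finset.sum_congr rfl fun i _ => ?_
      rw [← hp, Finsupp.add_apply]
    split_ifs with h
    · rw [coeff_mul]
      refine Finset.sum_congr rfl fun p hp => ?_
      have h1 := hs p hp
      rw [if_pos (by omega), if_pos (by omega)]
    · symm
      refine Finset.sum_eq_zero fun p hp => ?_
      have h1 := hs p hp
      by_cases h2 : ∑ j ∈ J, p.1 j = 0
      · rw [if_neg (c := ∑ j ∈ J, p.2 j = 0) (by omega), mul_zero]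
      · rw [if_neg h2, zero_mul]

theorem AutDescent_coeff_pi {n : ℕ} {L : Type} [Field L] (J : Finset (Fin n))
    (h : MvPowerSeries (Fin n) L) (α : Fin n →₀ ℕ) :
    coeff α (AutDescent_pi J h) = if ∑ j ∈ J, α j = 0 then coeff α h else 0 := rfl

theorem AutDescent_pi_eq_zero {n : ℕ} {L : Type} [Field L] (J : Finset (Fin n))
    (h : MvPowerSeries (Fin n) L) : AutDescent_pi J h = 0 ↔ h ∈ coordIdeal L J := by
  rw [← pow_one (coordIdeal L J), mem_coordIdeal_pow_iff]
  constructor
  · intro h1 α hα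
    have h2 := AutDescent_coeff_pi J h α
    rw [h1, if_pos (by omega)] at h2
    rw [← h2]
    simp
  · intro h1
    ext α
    rw [AutDescent_coeff_pi]
    split_ifs with h2
    · rw [h1 α (by omega)]
      simp
    · simp

theorem AutDescent_pi_pi {n : ℕ} {L : Type} [Field L] (J : Finset (Fin n))
    (h : MvPowerSeries (Fin n) L) : AutDescent_pi J (AutDescent_pi J h) = AutDescent_pi J h := by
  ext α
  rw [AutDescent_coeff_pi, AutDescent_coeff_pi]
  split_ifs with h1 <;> rfl

theorem AutDescent_pi_C {n : ℕ} {L : Type} [Field L] (J : Finset (Fin n)) (a : L) :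
    AutDescent_pi J (C a : MvPowerSeries (Fin n) L) = C a := by
  classical
  ext α
  rw [AutDescent_coeff_pi]
  split_ifs with h1
  · rfl
  · rw [coeff_C, if_neg]
    rintro rfl
    exact h1 (by simp)

theorem AutDescent_pi_X_mem {n : ℕ} {L : Type} [Field L] (J : Finset (Fin n)) {i : Fin n}
    (hi : i ∈ J) : AutDescent_pi J (X i : MvPowerSeries (Fin n) L) = 0 := by
  rw [AutDescent_pi_eq_zero]
  exact Ideal.subset_span ⟨i, hi, rfl⟩

theorem AutDescent_pi_X_notMem {n : ℕ} {L : Type} [Field L] (J : Finset (Fin n)) {i : Fin n}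
    (hi : i ∉ J) : AutDescent_pi J (X i : MvPowerSeries (Fin n) L) = X i := by
  classical
  ext α
  rw [AutDescent_coeff_pi]
  split_ifs with h1
  · rfl
  · rw [coeff_X, if_neg]
    rintro rfl
    apply h1
    refine Finset.sum_eq_zero fun j hj => ?_
    rw [Finsupp.single_apply, if_neg]
    rintro rfl
    exact hi hj

/-- an automorphism fixing the variables outside `J` fixes the series in these variables -/
theorem AutDescent_fix {n : ℕ} {L : Type} [Field L] (J : Finset (Fin n))
    (τ : MvPowerSeries (Fin n) L ≃ₐ[L] MvPowerSeries (Fin n) L)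
    (hτ : ∀ i, i ∉ J → τ (X i) = X i) (h : MvPowerSeries (Fin n) L) :
    τ (AutDescent_pi J h) = AutDescent_pi J h := by
  have key : ((τ : MvPowerSeries (Fin n) L →+* MvPowerSeries (Fin n) L).comp
      (AutDescent_pi J)) = AutDescent_pi J := by
    apply ringHom_ext_of_X
    · intro a
      show τ (AutDescent_pi J (C a)) = _
      rw [AutDescent_pi_C]
      exact τ.commutes a
    · intro i
      show τ (AutDescent_pi J (X i)) = _
      by_cases hi : i ∈ J
      · rw [AutDescent_pi_X_mem J hi, map_zero]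
      · rw [AutDescent_pi_X_notMem J hi, hτ i hi]
    · intro i
      show τ (AutDescent_pi J (X i)) ∈ _
      by_cases hi : i ∈ J
      · rw [AutDescent_pi_X_mem J hi, map_zero]
        exact Ideal.zero_mem _
      · rw [AutDescent_pi_X_notMem J hi, hτ i hi, maximalIdeal_eq_coordIdeal]
        exact Ideal.subset_span ⟨i, by simp, rfl⟩
  exact DFunLike.congr_fun key h

/-- exchange: a germ is graph-like over a set of coordinates -/
theorem AutDescent_exchange {n : ℕ} {L : Type} [Field L] (A : Finset (Fin n))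
    (b : Ideal (MvPowerSeries (Fin n) L)) (hb : SmoothIdeal A b) :
    ∃ (J : Finset (Fin n)) (τ : MvPowerSeries (Fin n) L ≃ₐ[L] MvPowerSeries (Fin n) L),
      J.card = A.card ∧ (∀ i, i ∉ J → τ (X i) = X i) ∧ b = (coordIdeal L J).map τ := by
  classical
  obtain ⟨τ, rfl⟩ := hb
  let y : Fin n → MvPowerSeries (Fin n) L := fun i => τ (X i)
  have hy : Ideal.span (Set.range y) =
      IsLocalRing.maximalIdeal (MvPowerSeries (Fin n) L) := by
    have h1 : Ideal.map τ (IsLocalRing.maximalIdeal (MvPowerSeries (Fin n) L)) =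
        IsLocalRing.maximalIdeal (MvPowerSeries (Fin n) L) :=
      IsLocalRing.eq_maximalIdeal (Ideal.map_isMaximal_of_equiv τ)
    rw [← h1]
    conv_rhs => rw [BaseChange_max n L, Ideal.map_span]
    rw [← Set.range_comp]
    rfl
  obtain ⟨hy0, hydet⟩ := linear_of_span_eq y hy
  let v : Fin n ⊕ Fin n → (Fin n → L) :=
    Sum.elim (fun i k => coeff (Finsupp.single k 1) (y i)) (fun c => Pi.single c 1)
  have hrows : LinearIndependent L (fun i : Fin n => v (Sum.inl i)) := by
    have h1 : IsUnit (Matrix.of fun i j => coeff (Finsupp.single j 1) (y i)) := by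
      rw [Matrix.isUnit_iff_isUnit_det]
      exact isUnit_iff_ne_zero.2 hydet
    exact Matrix.linearIndependent_rows_iff_isUnit.2 h1
  let s : Set (Fin n ⊕ Fin n) := Sum.inl '' (A : Set (Fin n))
  let t : Set (Fin n ⊕ Fin n) := s ∪ Set.range Sum.inr
  have hs : LinearIndepOn L v s := by
    apply LinearIndepOn.image_of_comp
    exact hrows.comp _ Subtype.val_injective
  obtain ⟨B, hBt, hsB, hspan, hli⟩ :=
    exists_linearIndepOn_extension hs (Set.subset_union_left : s ⊆ t)
  have hinl : ∀ a : Fin n, Sum.inl a ∈ B ↔ a ∈ A := by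
    intro a
    constructor
    · intro h
      rcases hBt h with h1 | h1
      · obtain ⟨c, hc, hc2⟩ := h1
        have h3 : c = a := Sum.inl_injective hc2
        rw [← h3]
        exact hc
      · obtain ⟨c, hc⟩ := h1
        exact absurd hc (by simp)
    · intro h
      exact hsB ⟨a, h, rfl⟩
  have htop : (⊤ : Submodule L (Fin n → L)) ≤ Submodule.span L (Set.range fun b : B => v b) := by
    have h1 : Set.range (fun b : B => v b) = v '' B := by
      ext w
      simp
    rw [h1]
    intro w _
    have h2 : w = ∑ c, w c • (Pi.single c (1 : L) : Fin n → L) := by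
      ext k
      rw [Finset.sum_apply, Finset.sum_eq_single k]
      · simp
      · intro c _ hc
        rw [Pi.smul_apply, Pi.single_eq_of_ne (Ne.symm hc), smul_zero]
      · intro h
        exact absurd (Finset.mem_univ k) h
    rw [h2]
    refine Submodule.sum_mem _ fun c _ => Submodule.smul_mem _ _ ?_
    exact hspan ⟨Sum.inr c, Or.inr ⟨c, rfl⟩, rfl⟩
  have hfinB : Fintype B := Fintype.ofFinite B
  let bas : Module.Basis B L (Fin n → L) := Module.Basis.mk hli htop
  have hcard : Fintype.card B = n := by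
    rw [← Module.finrank_eq_card_basis bas, Module.finrank_fin_fun]
  let J : Finset (Fin n) := Finset.univ.filter fun c => Sum.inr c ∉ B
  have hJ : ∀ c, c ∈ J ↔ Sum.inr c ∉ B := by
    intro c
    simp [J]
  have hBeq : B.toFinset = A.image Sum.inl ∪ (Finset.univ \ J).image Sum.inr := by
    ext x
    rcases x with a | c
    · simp [hinl]
    · simp [hJ]
  have hcard2 : n = A.card + (n - J.card) := by
    have h1 : B.toFinset.card = n := by
      rw [Set.toFinset_card, hcard]
    rw [hBeq, Finset.card_union_of_disjoint, Finset.card_image_of_injective _ Sum.inl_injective,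
      Finset.card_image_of_injective _ Sum.inr_injective,
      Finset.card_sdiff_of_subset (Finset.subset_univ J), Finset.card_univ, Fintype.card_fin] at h1
    · exact h1.symm
    · rw [Finset.disjoint_left]
      intro x hx hx2
      rw [Finset.mem_image] at hx hx2
      obtain ⟨a, _, ha⟩ := hx
      obtain ⟨c, _, hc⟩ := hx2
      rw [← ha] at hc
      exact absurd hc (by simp)
  have hJn : J.card ≤ n := by
    have := Finset.card_le_univ J
    rwa [Fintype.card_fin] at this
  have hJA : J.card = A.card := by omega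
  let e : J ≃ A := Finset.equivOfCardEq hJA
  let g : Fin n → B := fun i =>
    if h : i ∈ J then ⟨Sum.inl (e ⟨i, h⟩ : Fin n), (hinl _).2 (e ⟨i, h⟩).2⟩
    else ⟨Sum.inr i, by
      by_contra h2
      exact h ((hJ i).2 h2)⟩
  have hg1 : ∀ i (h : i ∈ J), (g i : Fin n ⊕ Fin n) = Sum.inl (e ⟨i, h⟩ : Fin n) := by
    intro i h
    simp only [g, dif_pos h]
  have hg2 : ∀ i, i ∉ J → (g i : Fin n ⊕ Fin n) = Sum.inr i := by
    intro i h
    simp only [g, dif_neg h]
  have hginj : Function.Injective g := by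
    intro i i' hii
    have h0 : (g i : Fin n ⊕ Fin n) = g i' := by rw [hii]
    by_cases h : i ∈ J <;> by_cases h' : i' ∈ J
    · rw [hg1 i h, hg1 i' h'] at h0
      have h3 : e ⟨i, h⟩ = e ⟨i', h'⟩ := Subtype.ext (Sum.inl_injective h0)
      have h4 := e.injective h3
      exact congrArg Subtype.val h4
    · rw [hg1 i h, hg2 i' h'] at h0
      exact absurd h0 (by simp)
    · rw [hg2 i h, hg1 i' h'] at h0
      exact absurd h0 (by simp)
    · rw [hg2 i h, hg2 i' h'] at h0
      exact Sum.inr_injective h0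
  have hli2 : LinearIndependent L (fun i : Fin n => v (g i)) :=
    LinearIndependent.comp (hli : LinearIndependent L (fun b : B => v b)) g hginj
  let y' : Fin n → MvPowerSeries (Fin n) L := fun i =>
    if h : i ∈ J then y (e ⟨i, h⟩ : Fin n) else X i
  have hy1 : ∀ i (h : i ∈ J), y' i = y (e ⟨i, h⟩ : Fin n) := by
    intro i h
    simp only [y', dif_pos h]
  have hy2 : ∀ i, i ∉ J → y' i = X i := by
    intro i h
    simp only [y', dif_neg h]
  have hrow : ∀ i : Fin n, v (g i) = fun k => coeff (Finsupp.single k 1) (y' i) := by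
    intro i
    by_cases h : i ∈ J
    · rw [hg1 i h, hy1 i h]
      rfl
    · rw [hg2 i h, hy2 i h]
      ext k
      show (Pi.single i (1 : L) : Fin n → L) k = _
      rw [coeff_X, Pi.single_apply]
      by_cases hk : k = i
      · rw [if_pos hk, hk, if_pos rfl]
      · rw [if_neg hk, if_neg]
        intro h2
        exact hk (Finsupp.single_left_injective one_ne_zero h2)
  have hdet' : (Matrix.of fun i j => coeff (Finsupp.single j 1) (y' i)).det ≠ 0 := by
    have h1 : IsUnit (Matrix.of fun i j => coeff (Finsupp.single j 1) (y' i)) := by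
      rw [← Matrix.linearIndependent_rows_iff_isUnit]
      have h2 : (Matrix.of fun i j => coeff (Finsupp.single j 1) (y' i)).row =
          fun i : Fin n => v (g i) := by
        ext i k
        rw [hrow]
        rfl
      rw [h2]
      exact hli2
    rw [Matrix.isUnit_iff_isUnit_det] at h1
    exact isUnit_iff_ne_zero.1 h1
  have h0' : ∀ i, constantCoeff (y' i) = 0 := by
    intro i
    by_cases h : i ∈ J
    · rw [hy1 i h]
      exact hy0 _
    · rw [hy2 i h]
      exact constantCoeff_X i
  obtain ⟨τ', hτ'⟩ := exists_algEquiv y' (span_eq_of_linear y' h0' hdet')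
  refine ⟨J, τ', hJA, ?_, ?_⟩
  · intro i hi
    rw [hτ', hy2 i hi]
  · rw [coordIdeal, coordIdeal, Ideal.map_span, Ideal.map_span]
    congr 1
    ext w
    constructor
    · rintro ⟨_, ⟨a, ha, rfl⟩, rfl⟩
      refine ⟨X (e.symm ⟨a, ha⟩ : Fin n), ⟨(e.symm ⟨a, ha⟩ : Fin n), (e.symm ⟨a, ha⟩).2, rfl⟩, ?_⟩
      show τ' (X (e.symm ⟨a, ha⟩ : Fin n)) = τ (X a)
      rw [hτ', hy1 _ (e.symm ⟨a, ha⟩).2]
      show y (e (e.symm ⟨a, ha⟩) : Fin n) = y a
      rw [Equiv.apply_symm_apply]
    · rintro ⟨_, ⟨i, hi, rfl⟩, rfl⟩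
      refine ⟨X (e ⟨i, hi⟩ : Fin n), ⟨(e ⟨i, hi⟩ : Fin n), (e ⟨i, hi⟩).2, rfl⟩, ?_⟩
      show τ (X (e ⟨i, hi⟩ : Fin n)) = τ' (X i)
      rw [hτ', hy1 i hi]

theorem AutDescent_mem {n : ℕ} {L : Type} [Field L] (J : Finset (Fin n))
    (τ : MvPowerSeries (Fin n) L ≃ₐ[L] MvPowerSeries (Fin n) L) (h : MvPowerSeries (Fin n) L) :
    h ∈ (coordIdeal L J).map τ ↔ AutDescent_pi J (τ.symm h) = 0 := by
  rw [AutDescent_pi_eq_zero]
  constructor
  · intro h1
    rw [Ideal.mem_map_iff_of_surjective (τ : MvPowerSeries (Fin n) L ≃ₐ[L] _) τ.surjective] at h1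
    obtain ⟨g, hg, rfl⟩ := h1
    rwa [AlgEquiv.symm_apply_apply]
  · intro h1
    have h2 := Ideal.mem_map_of_mem τ h1
    rwa [AlgEquiv.apply_symm_apply] at h2

theorem AutDescent_symm_pi {n : ℕ} {L : Type} [Field L] (J : Finset (Fin n))
    (τ : MvPowerSeries (Fin n) L ≃ₐ[L] MvPowerSeries (Fin n) L)
    (hτ : ∀ i, i ∉ J → τ (X i) = X i) (h : MvPowerSeries (Fin n) L) :
    τ.symm (AutDescent_pi J h) = AutDescent_pi J h := by
  conv_lhs => rw [← AutDescent_fix J τ hτ h]
  exact τ.symm_apply_apply _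

theorem AutDescent_sub_mem {n : ℕ} {L : Type} [Field L] (J : Finset (Fin n))
    (τ : MvPowerSeries (Fin n) L ≃ₐ[L] MvPowerSeries (Fin n) L)
    (hτ : ∀ i, i ∉ J → τ (X i) = X i) (h : MvPowerSeries (Fin n) L) :
    h - AutDescent_pi J (τ.symm h) ∈ (coordIdeal L J).map τ := by
  rw [AutDescent_mem, map_sub, AutDescent_symm_pi J τ hτ, map_sub, AutDescent_pi_pi, sub_self]

theorem AutDescent_free {n : ℕ} {L : Type} [Field L] (J : Finset (Fin n))
    (τ : MvPowerSeries (Fin n) L ≃ₐ[L] MvPowerSeries (Fin n) L)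
    (hτ : ∀ i, i ∉ J → τ (X i) = X i) (r : MvPowerSeries (Fin n) L)
    (hr : AutDescent_pi J r = r) (hrm : r ∈ (coordIdeal L J).map τ) : r = 0 := by
  rw [AutDescent_mem] at hrm
  have h1 := AutDescent_symm_pi J τ hτ r
  rw [hr] at h1
  rw [h1, hr] at hrm
  exact hrm

/-- the retraction commutes with the coefficientwise maps -/
theorem AutDescent_pi_map {n : ℕ} {L M : Type} [Field L] [Field M] (J : Finset (Fin n))
    (θ : L →+* M) (h : MvPowerSeries (Fin n) L) :
    AutDescent_pi J (MvPowerSeries.map (σ := Fin n) θ h) =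
      MvPowerSeries.map (σ := Fin n) θ (AutDescent_pi J h) := by
  ext α
  rw [AutDescent_coeff_pi, coeff_map, coeff_map, AutDescent_coeff_pi]
  split_ifs with h1
  · rfl
  · rw [map_zero]

theorem aut_descent {n : ℕ} {K L : Type} [Field K] [IsAlgClosed K] [CharZero K] [Field L]
    [IsAlgClosed L] [Algebra K L] (A : Finset (Fin n)) (b : Ideal (MvPowerSeries (Fin n) L))
    (hb : SmoothIdeal A b)
    (hst : ∀ θ : L ≃ₐ[K] L, b.map (MvPowerSeries.map (σ := Fin n) (θ : L →+* L)) ≤ b) :
    ∃ (b₀ : Ideal (MvPowerSeries (Fin n) K)) (A₀ : Finset (Fin n)), A₀.card = A.card ∧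
      SmoothIdeal A₀ b₀ ∧ b = b₀.map (ext K L) := by
  classical
  obtain ⟨J, τ, hJA, hfix, hbeq⟩ := AutDescent_exchange A b hb
  -- the normal form of the coordinates in `J`
  let φ : Fin n → MvPowerSeries (Fin n) L := fun j => AutDescent_pi J (τ.symm (X j))
  have hφb : ∀ j, X j - φ j ∈ b := by
    intro j
    rw [hbeq]
    exact AutDescent_sub_mem J τ hfix (X j)
  have hφfree : ∀ j, AutDescent_pi J (φ j) = φ j := fun j => AutDescent_pi_pi J _
  have hφ0 : ∀ j, constantCoeff (φ j) = 0 := by
    intro j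
    have h1 : constantCoeff (τ.symm (X j) : MvPowerSeries (Fin n) L) = 0 := by
      by_contra h2
      have h3 : IsUnit (τ.symm (X j) : MvPowerSeries (Fin n) L) := by
        rw [MvPowerSeries.isUnit_iff_constantCoeff]
        exact isUnit_iff_ne_zero.2 h2
      have h4 := h3.map τ
      rw [AlgEquiv.apply_symm_apply, MvPowerSeries.isUnit_iff_constantCoeff,
        constantCoeff_X] at h4
      exact not_isUnit_zero h4
    rw [← coeff_zero_eq_constantCoeff_apply] at h1 ⊢
    rw [AutDescent_coeff_pi, if_pos (by simp)]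
    exact h1
  have hφθ : ∀ (θ : L ≃ₐ[K] L) j, MvPowerSeries.map (σ := Fin n) (θ : L →+* L) (φ j) = φ j := by
    intro θ j
    have h1 : MvPowerSeries.map (σ := Fin n) (θ : L →+* L) (X j - φ j) ∈ b :=
      hst θ (Ideal.mem_map_of_mem _ (hφb j))
    rw [map_sub, map_X] at h1
    have h2 : MvPowerSeries.map (σ := Fin n) (θ : L →+* L) (φ j) - φ j ∈ b := by
      have h3 := Ideal.sub_mem _ (hφb j) h1
      have h4 : X j - φ j - (X j - MvPowerSeries.map (σ := Fin n) (θ : L →+* L) (φ j)) =
          MvPowerSeries.map (σ := Fin n) (θ : L →+* L) (φ j) - φ j := by ring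
      rwa [h4] at h3
    rw [hbeq] at h2
    have h5 := AutDescent_free J τ hfix _ (by rw [map_sub, AutDescent_pi_map, hφfree]) h2
    exact sub_eq_zero.1 h5
  have hφK : ∀ j (α : Fin n →₀ ℕ), coeff α (φ j) ∈ Set.range (algebraMap K L) := by
    intro j α
    apply mem_range_of_fixed
    intro θ
    have h1 := congrArg (coeff α) (hφθ θ j)
    rw [coeff_map] at h1
    exact h1
  choose cf hcf using hφK
  let ψ : Fin n → MvPowerSeries (Fin n) K := fun j α => cf j α
  have hψ : ∀ j, ext K L (ψ j) = φ j := by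
    intro j
    ext α
    rw [coeff_map]
    exact hcf j α
  have hψfree : ∀ j (α : Fin n →₀ ℕ), ∑ i ∈ J, α i ≠ 0 → coeff α (ψ j) = 0 := by
    intro j α hα
    have h1 := AutDescent_coeff_pi J (φ j) α
    rw [if_neg hα, hφfree, ← hψ, coeff_map] at h1
    exact (map_eq_zero_iff _ (algebraMap K L).injective).1 h1
  have hψ0 : ∀ j, constantCoeff (ψ j) = 0 := by
    intro j
    have h1 := hφ0 j
    rw [← hψ, ← coeff_zero_eq_constantCoeff_apply, coeff_map] at h1
    rw [← coeff_zero_eq_constantCoeff_apply]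
    exact (map_eq_zero_iff _ (algebraMap K L).injective).1 h1
  have hψmem : ∀ j, ψ j ∈ coordIdeal K (Finset.univ \ J) := by
    intro j
    rw [← pow_one (coordIdeal K (Finset.univ \ J)), mem_coordIdeal_pow_iff]
    intro α hα
    by_cases h1 : ∑ i ∈ J, α i = 0
    · have h2 : α = 0 := by
        ext i
        rw [Finsupp.zero_apply]
        by_cases hi : i ∈ J
        · exact Finset.sum_eq_zero_iff.1 h1 i hi
        · have h3 : ∑ i ∈ Finset.univ \ J, α i = 0 := by omega
          exact Finset.sum_eq_zero_iff.1 h3 i (by simp [hi])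
      rw [h2]
      exact hψ0 j
    · exact hψfree j α h1
  let y : Fin n → MvPowerSeries (Fin n) K := fun i => if i ∈ J then X i - ψ i else X i
  have hy1 : ∀ i, i ∈ J → y i = X i - ψ i := fun i hi => if_pos hi
  have hy2 : ∀ i, i ∉ J → y i = X i := fun i hi => if_neg hi
  have hXm : ∀ i, (X i : MvPowerSeries (Fin n) K) ∈
      IsLocalRing.maximalIdeal (MvPowerSeries (Fin n) K) := by
    intro i
    rw [maximalIdeal_eq_coordIdeal]
    exact Ideal.subset_span ⟨i, by simp, rfl⟩
  have hsub : coordIdeal K (Finset.univ \ J) ≤ Ideal.span (Set.range y) := by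
    rw [coordIdeal, Ideal.span_le]
    rintro _ ⟨i, hi, rfl⟩
    have hiJ : i ∉ J := by
      intro h
      rw [Finset.mem_coe, Finset.mem_sdiff] at hi
      exact hi.2 h
    exact Ideal.subset_span ⟨i, hy2 i hiJ⟩
  have hy : Ideal.span (Set.range y) =
      IsLocalRing.maximalIdeal (MvPowerSeries (Fin n) K) := by
    apply le_antisymm
    · rw [Ideal.span_le]
      rintro _ ⟨i, rfl⟩
      by_cases hi : i ∈ J
      · rw [hy1 i hi]
        refine Ideal.sub_mem _ (hXm i) ?_
        refine (?_ : coordIdeal K (Finset.univ \ J) ≤ _) (hψmem i)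
        rw [coordIdeal, Ideal.span_le]
        rintro _ ⟨k, _, rfl⟩
        exact hXm k
      · rw [hy2 i hi]
        exact hXm i
    · rw [BaseChange_max, Ideal.span_le]
      rintro _ ⟨i, rfl⟩
      show (X i : MvPowerSeries (Fin n) K) ∈ Ideal.span (Set.range y)
      by_cases hi : i ∈ J
      · have h1 : (X i : MvPowerSeries (Fin n) K) = y i + ψ i := by
          rw [hy1 i hi]
          ring
        rw [h1]
        exact Ideal.add_mem _ (Ideal.subset_span ⟨i, rfl⟩) (hsub (hψmem i))
      · exact Ideal.subset_span ⟨i, hy2 i hi⟩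
  obtain ⟨τ₀, hτ₀⟩ := exists_algEquiv y hy
  obtain ⟨τ₁, hτ₁⟩ := exists_baseChange (L := L) τ₀
  have hτ₁X : ∀ i, τ₁ (X i) = ext K L (y i) := by
    intro i
    have h1 := hτ₁ (X i)
    rwa [map_X, hτ₀] at h1
  have hfix₁ : ∀ i, i ∉ J → τ₁ (X i) = X i := by
    intro i hi
    rw [hτ₁X, hy2 i hi, map_X]
  have hmap : Ideal.map (ext K L) ((coordIdeal K J).map τ₀) = (coordIdeal L J).map τ₁ := by
    rw [coordIdeal, coordIdeal, Ideal.map_span, Ideal.map_span, Ideal.map_span]
    congr 1
    rw [Set.image_image, Set.image_image, Set.image_image]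
    refine Set.image_congr fun i _ => ?_
    rw [hτ₀, hτ₁X]
  refine ⟨(coordIdeal K J).map τ₀, J, hJA, ⟨τ₀, rfl⟩, ?_⟩
  have hle : Ideal.map (ext K L) ((coordIdeal K J).map τ₀) ≤ b := by
    rw [coordIdeal, Ideal.map_span, Ideal.map_span, Ideal.span_le]
    rintro _ ⟨_, ⟨_, ⟨i, hi, rfl⟩, rfl⟩, rfl⟩
    show ext K L (τ₀ (X i)) ∈ b
    rw [hτ₀, hy1 i hi, map_sub, map_X, hψ]
    exact hφb i
  refine le_antisymm ?_ hle
  intro h hh
  have h1 := AutDescent_sub_mem J τ₁ hfix₁ h
  have h2 : AutDescent_pi J (τ₁.symm h) ∈ b := by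
    have h3 := Ideal.sub_mem _ hh (hle (by rw [hmap]; exact h1))
    have h4 : h - (h - AutDescent_pi J (τ₁.symm h)) = AutDescent_pi J (τ₁.symm h) := by ring
    rwa [h4] at h3
  rw [hbeq] at h2
  have h5 := AutDescent_free J τ hfix _ (AutDescent_pi_pi J _) h2
  rw [h5, sub_zero] at h1
  rw [hmap]
  exact h1

end Pool.Agent.Helper38.EQ
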