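import Pool.Agent.Helper38.EQ.Orders

/-!
# EQ-P12 (descent along an extension of fields)

`mem_of_ext_mem`: choose a `K`-linear map `λ : L → K` with `λ 1 = 1` and apply it to the
coefficients: this gives an additive map `Λ : L⟦X⟧ → K⟦X⟧` with `Λ (ext g * c) = g * Λ c` and
`Λ (ext h) = h`.  An element of `I.map (ext K L)` is a finite sum `∑ c_j * ext g_j`, `g_j ∈ I`.
`ext_multIdeal`: `ext (iterD l f) = iterD l (ext f)`, and a derivation maps `b^(k+1)` into `b^k`
(`Derivation.leibniz_pow`, or induction).
`multIdeal_eq_top`: by `mem_maximalIdeal_pow_iff` some `coeff α f ≠ 0` with `∑ α < m`; the iterated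
derivative in which `i` occurs `α i` times has constant coefficient `α! * coeff α f ≠ 0`.
-/

namespace Pool.Agent.Helper38.EQ

open MvPowerSeries

theorem Descent_exists_lam {K L : Type} [Field K] [Field L] [Algebra K L] :
    ∃ lam : L →ₗ[K] K, ∀ a : K, lam (algebraMap K L a) = a := by
  have hinj : LinearMap.ker (Algebra.linearMap K L) = ⊥ := by
    rw [LinearMap.ker_eq_bot]
    exact (algebraMap K L).injective
  obtain ⟨g, hg⟩ := LinearMap.exists_leftInverse_of_injective (Algebra.linearMap K L) hinj
  refine ⟨g, fun a => ?_⟩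
  have := LinearMap.congr_fun hg a
  simpa using this

/-- the linear map `lam` applied to all coefficients -/
def Descent_Lam {n : ℕ} {K L : Type} [Field K] [Field L] [Algebra K L] (lam : L →ₗ[K] K)
    (F : MvPowerSeries (Fin n) L) : MvPowerSeries (Fin n) K :=
  fun α => lam (coeff α F)

theorem Descent_coeff_Lam {n : ℕ} {K L : Type} [Field K] [Field L] [Algebra K L]
    (lam : L →ₗ[K] K) (F : MvPowerSeries (Fin n) L) (α : Fin n →₀ ℕ) :
    coeff α (Descent_Lam lam F) = lam (coeff α F) := rfl

theorem Descent_Lam_mul {n : ℕ} {K L : Type} [Field K] [Field L] [Algebra K L]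
    (lam : L →ₗ[K] K) (g : MvPowerSeries (Fin n) K) (c : MvPowerSeries (Fin n) L) :
    Descent_Lam lam (c * ext K L g) = Descent_Lam lam c * g := by
  ext α
  rw [Descent_coeff_Lam, coeff_mul, coeff_mul, map_sum]
  refine Finset.sum_congr rfl fun p _ => ?_
  rw [Descent_coeff_Lam, coeff_map, mul_comm, ← Algebra.smul_def, map_smul, smul_eq_mul, mul_comm]

theorem mem_of_ext_mem {n : ℕ} {K L : Type} [Field K] [Field L] [Algebra K L]
    (I : Ideal (MvPowerSeries (Fin n) K)) (h : MvPowerSeries (Fin n) K)
    (hh : ext K L h ∈ I.map (ext K L)) : h ∈ I := by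
  obtain ⟨lam, hlam⟩ := Descent_exists_lam (K := K) (L := L)
  have key : ∀ F ∈ I.map (ext K L), ∀ c : MvPowerSeries (Fin n) L,
      Descent_Lam lam (c * F) ∈ I := by
    intro F hF
    refine Submodule.span_induction (p := fun F _ => ∀ c : MvPowerSeries (Fin n) L,
      Descent_Lam lam (c * F) ∈ I) ?_ ?_ ?_ ?_ hF
    · rintro _ ⟨g, hg, rfl⟩ c
      rw [Descent_Lam_mul]
      exact I.mul_mem_left _ hg
    · intro c
      have : Descent_Lam (n := n) lam (c * 0) = 0 := by
        ext α
        rw [Descent_coeff_Lam]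
        simp
      rw [this]
      exact I.zero_mem
    · intro x y _ _ hx hy c
      have : Descent_Lam lam (c * (x + y)) = Descent_Lam lam (c * x) + Descent_Lam lam (c * y) := by
        ext α
        rw [map_add, Descent_coeff_Lam, Descent_coeff_Lam, Descent_coeff_Lam, mul_add, map_add,
          map_add]
      rw [this]
      exact I.add_mem (hx c) (hy c)
    · intro a x _ hx c
      have : c * (a • x) = (c * a) * x := by
        rw [smul_eq_mul, mul_assoc]
      rw [this]
      exact hx _
  have h1 := key _ hh 1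
  rw [Descent_Lam_mul] at h1
  have h2 : Descent_Lam (n := n) lam (1 : MvPowerSeries (Fin n) L) = 1 := by
    ext α
    rw [Descent_coeff_Lam, coeff_one, coeff_one]
    split_ifs
    · have := hlam 1
      rwa [map_one] at this
    · exact map_zero _
  rwa [h2, one_mul] at h1

theorem Descent_pderiv_pow {n : ℕ} {L : Type} [Field L]
    (b : Ideal (MvPowerSeries (Fin n) L)) (i : Fin n) (k : ℕ) :
    ∀ x ∈ b ^ (k + 1), pderiv L i x ∈ b ^ k := by
  induction k with
  | zero =>
    intro x _
    simp
  | succ k ih =>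
    intro x hx
    rw [pow_succ] at hx
    refine Submodule.mul_induction_on hx ?_ ?_
    · intro y hy z hz
      rw [Derivation.leibniz, smul_eq_mul, smul_eq_mul]
      refine Ideal.add_mem _ (Ideal.mul_mem_right _ _ hy) ?_
      rw [pow_succ']
      exact Ideal.mul_mem_mul hz (ih y hy)
    · intro y z hy hz
      rw [map_add]
      exact Ideal.add_mem _ hy hz

theorem Descent_ext_pderiv {n : ℕ} {K L : Type} [Field K] [Field L] [Algebra K L] (i : Fin n)
    (f : MvPowerSeries (Fin n) K) : ext K L (pderiv K i f) = pderiv L i (ext K L f) := by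
  ext α
  rw [coeff_map, coeff_pderiv, coeff_pderiv, coeff_map]
  simp

theorem Descent_ext_iterD {n : ℕ} {K L : Type} [Field K] [Field L] [Algebra K L]
    (l : List (Fin n)) (f : MvPowerSeries (Fin n) K) :
    ext K L (iterD l f) = iterD l (ext K L f) := by
  induction l with
  | nil => rfl
  | cons i l ih =>
    show ext K L (pderiv K i (iterD l f)) = pderiv L i (iterD l (ext K L f))
    rw [Descent_ext_pderiv, ih]

theorem Descent_iterD_mem {n : ℕ} {L : Type} [Field L]
    (b : Ideal (MvPowerSeries (Fin n) L)) (F : MvPowerSeries (Fin n) L) (m : ℕ) (l : List (Fin n))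
    (hl : l.length ≤ m) (hF : F ∈ b ^ m) : iterD l F ∈ b ^ (m - l.length) := by
  induction l with
  | nil => simpa [iterD] using hF
  | cons i l ih =>
    have hl' : l.length + 1 ≤ m := hl
    have h1 := ih (by omega)
    have h2 : m - l.length = (m - (i :: l).length) + 1 := by
      rw [List.length_cons]
      omega
    rw [h2] at h1
    exact Descent_pderiv_pow b i _ _ h1

theorem ext_multIdeal {n : ℕ} {K L : Type} [Field K] [Field L] [Algebra K L]
    (b : Ideal (MvPowerSeries (Fin n) L)) (f : MvPowerSeries (Fin n) K) (m : ℕ)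
    (hf : ext K L f ∈ b ^ m) : (multIdeal f m).map (ext K L) ≤ b := by
  rw [Ideal.map_le_iff_le_comap]
  refine Ideal.span_le.2 ?_
  rintro g ⟨l, hl, rfl⟩
  show ext K L (iterD l f) ∈ b
  rw [Descent_ext_iterD]
  have h1 := Descent_iterD_mem b (ext K L f) m l hl.le hf
  exact Ideal.pow_le_self (by omega) h1

theorem Descent_exists_iterD {n : ℕ} {K : Type} [Field K] [CharZero K] (N : ℕ) :
    ∀ (α : Fin n →₀ ℕ), (∑ i, α i) = N → ∃ (l : List (Fin n)) (c : K), l.length = N ∧ c ≠ 0 ∧
      ∀ f : MvPowerSeries (Fin n) K, constantCoeff (iterD l f) = c * coeff α f := by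
  induction N with
  | zero =>
    intro α hα
    have h0 : α = 0 := by
      ext i
      have := (Finset.sum_eq_zero_iff.1 hα) i (Finset.mem_univ i)
      simpa using this
    refine ⟨[], 1, rfl, one_ne_zero, fun f => ?_⟩
    rw [h0, one_mul, coeff_zero_eq_constantCoeff_apply]
    rfl
  | succ N ih =>
    intro α hα
    obtain ⟨i, hi⟩ : ∃ i, α i ≠ 0 := by
      by_contra hcon
      push Not at hcon
      rw [Finset.sum_eq_zero (fun i _ => hcon i)] at hα
      omega
    obtain ⟨β, hβ⟩ : ∃ β : Fin n →₀ ℕ, α = β + Finsupp.single i 1 := by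
      refine ⟨α - Finsupp.single i 1, ?_⟩
      rw [tsub_add_cancel_of_le]
      rw [Finsupp.single_le_iff]
      omega
    have hs : (∑ j, β j) = N := by
      have h1 : (∑ j, α j) = (∑ j, β j) + 1 := by
        rw [hβ]
        simp only [Finsupp.add_apply, Finset.sum_add_distrib]
        congr 1
        rw [Finset.sum_eq_single i]
        · simp
        · intro j _ hj
          rw [Finsupp.single_apply, if_neg (Ne.symm hj)]
        · intro h
          exact absurd (Finset.mem_univ i) h
      omega
    obtain ⟨l, c, hl, hc, hlc⟩ := ih β hs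
    refine ⟨l ++ [i], c * ((β i : K) + 1), ?_, ?_, fun f => ?_⟩
    · simp [hl]
    · refine mul_ne_zero hc ?_
      exact_mod_cast Nat.succ_ne_zero (β i)
    · have h1 : iterD (l ++ [i]) f = iterD l (pderiv K i f) := by
        simp [iterD, List.foldr_append]
      rw [h1, hlc, coeff_pderiv, hβ]
      ring

theorem multIdeal_eq_top {n : ℕ} {K : Type} [Field K] [CharZero K]
    (f : MvPowerSeries (Fin n) K) (m : ℕ)
    (hf : f ∉ IsLocalRing.maximalIdeal (MvPowerSeries (Fin n) K) ^ m) :
    multIdeal f m = ⊤ := by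
  rw [mem_maximalIdeal_pow_iff] at hf
  push Not at hf
  obtain ⟨α, hα, hne⟩ := hf
  obtain ⟨l, c, hl, hc, hlc⟩ := Descent_exists_iterD (K := K) _ α rfl
  have hu : IsUnit (iterD l f) := by
    rw [MvPowerSeries.isUnit_iff_constantCoeff, hlc]
    exact isUnit_iff_ne_zero.2 (mul_ne_zero hc hne)
  refine Ideal.eq_top_of_isUnit_mem _ (Ideal.subset_span ?_) hu
  exact ⟨l, by omega, rfl⟩

end Pool.Agent.Helper38.EQ
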