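import Pool.Agent.Helper38.EQ.Smooth
import Pool.Agent.Helper38.EQ.InvFun

/-!
# EQ-P14 (smooth germs are regular)

`MvPowerSeries (Fin d) K` is a regular local ring: its maximal ideal is generated by `d` elements
and its Krull dimension is at least `d` (`ringKrullDim_succ_le_ringKrullDim_powerseries` and
`finSuccEquiv`, induction).  `MvPowerSeries (Fin n) K ⧸ coordIdeal K A` is isomorphic to the ring of
power series in the variables outside `A` (`MvPowerSeries.killCompl` with kernel `coordIdeal K A`,
`renameEquiv` to `Fin d`, `d = n - |A|`), and `b = τ(coordIdeal)`.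

`smoothIdeal_isPrime`, `smoothIdeal_height`: the quotient is a domain; the height of
`coordIdeal K A` is `|A|`: `≤` by Krull's height theorem, `≥` by the chain of the prime ideals
generated by `0, 1, 2, ...` of the variables.
-/

namespace Pool.Agent.Helper38.EQ

open MvPowerSeries

/-- the embedding of the coordinates outside `A` -/
def Regular_e {n : ℕ} (A : Finset (Fin n)) : {i : Fin n // i ∉ A} ↪ Fin n :=
  Function.Embedding.subtype _

theorem Regular_ker {n : ℕ} {K : Type} [Field K] (A : Finset (Fin n)) :
    RingHom.ker (killCompl (R := K) (Regular_e A)) = coordIdeal K A := by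
  classical
  ext p
  have h1 := mem_coordIdeal_pow_iff (K := K) A 1 p
  rw [pow_one] at h1
  rw [h1, RingHom.mem_ker]
  constructor
  · intro h α hα
    have h2 : ∀ i ∈ A, α i = 0 := by
      have h3 : (∑ i ∈ A, α i) = 0 := by omega
      exact Finset.sum_eq_zero_iff.1 h3
    have h3 : α ∈ Set.range (Finsupp.embDomain (M := ℕ) (Regular_e A)) := by
      rw [Finsupp.mem_range_embDomain_iff]
      intro i hi
      rw [Finset.mem_coe, Finsupp.mem_support_iff] at hi
      have h4 : i ∉ A := fun h5 => hi (h2 i h5)
      exact ⟨⟨i, h4⟩, rfl⟩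
    obtain ⟨x, hx⟩ := h3
    rw [← hx, ← coeff_killCompl, h, map_zero]
  · intro h
    ext x
    rw [coeff_killCompl, map_zero]
    apply h
    have h2 : (∑ i ∈ A, (Finsupp.embDomain (Regular_e A) x) i) = 0 := by
      refine Finset.sum_eq_zero fun i hi => ?_
      apply Finsupp.embDomain_of_notMem_range
      rintro ⟨j, hj⟩
      have hj' : (j : Fin n) = i := hj
      exact j.2 (by rw [hj']; exact hi)
    omega

theorem Regular_domain {σ : Type} {K : Type} [Finite σ] [Field K] :
    IsDomain (MvPowerSeries σ K) := by
  have : NoZeroDivisors (MvPowerSeries σ K) := inferInstance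
  exact NoZeroDivisors.to_isDomain _

theorem Regular_prime {n : ℕ} {K : Type} [Field K] (A : Finset (Fin n)) :
    (coordIdeal K A).IsPrime := by
  have := Regular_domain (σ := {i : Fin n // i ∉ A}) (K := K)
  rw [← Regular_ker A]
  exact RingHom.ker_isPrime _

theorem Regular_dim (d : ℕ) (K : Type) [Field K] :
    (d : WithBot ℕ∞) ≤ ringKrullDim (MvPowerSeries (Fin d) K) := by
  induction d with
  | zero =>
    rw [Nat.cast_zero]
    exact ringKrullDim_nonneg_of_nontrivial
  | succ d ih =>
    rw [ringKrullDim_eq_of_ringEquiv (finSuccEquiv K d).toRingEquiv]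
    refine le_trans ?_ ringKrullDim_succ_le_ringKrullDim_powerseries
    rw [Nat.cast_succ]
    exact add_le_add_left ih 1

theorem Regular_reg (d : ℕ) (K : Type) [Field K] :
    IsRegularLocalRing (MvPowerSeries (Fin d) K) := by
  apply IsRegularLocalRing.of_spanFinrank_maximalIdeal_le
  refine le_trans ?_ (Regular_dim d K)
  rw [maximalIdeal_eq_coordIdeal]
  have h1 := Submodule.spanFinrank_span_le_ncard_of_finite (R := MvPowerSeries (Fin d) K)
    (s := (fun i => (X i : MvPowerSeries (Fin d) K)) '' ((Finset.univ : Finset (Fin d)) : Set (Fin d)))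
    (Set.toFinite _)
  have h2 : ((fun i => (X i : MvPowerSeries (Fin d) K)) ''
      ((Finset.univ : Finset (Fin d)) : Set (Fin d))).ncard ≤ d := by
    refine le_trans (Set.ncard_image_le (Set.toFinite _)) ?_
    rw [Set.ncard_coe_finset, Finset.card_univ, Fintype.card_fin]
  exact Nat.cast_le.2 (le_trans h1 h2)

theorem Regular_quot {n : ℕ} {K : Type} [Field K] (A : Finset (Fin n)) :
    IsRegularLocalRing (MvPowerSeries (Fin n) K ⧸ coordIdeal K A) := by
  classical
  have := Regular_reg (Fintype.card {i : Fin n // i ∉ A}) K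
  let e1 : MvPowerSeries (Fin (Fintype.card {i : Fin n // i ∉ A})) K ≃+*
      MvPowerSeries {i : Fin n // i ∉ A} K :=
    (renameEquiv K (Fintype.equivFin {i : Fin n // i ∉ A}).symm).toRingEquiv
  have := IsRegularLocalRing.of_ringEquiv e1
  have hs : Function.Surjective (killCompl (R := K) (Regular_e A)) :=
    fun p => ⟨rename (Regular_e A) p, killCompl_rename_app p⟩
  let e2 : (MvPowerSeries (Fin n) K ⧸ RingHom.ker (killCompl (R := K) (Regular_e A))) ≃+*
      MvPowerSeries {i : Fin n // i ∉ A} K := (Ideal.quotientKerAlgEquivOfSurjective hs).toRingEquiv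
  rw [← Regular_ker A]
  exact IsRegularLocalRing.of_ringEquiv e2.symm

theorem regular_of_smoothIdeal {n : ℕ} {K : Type} [Field K] (A : Finset (Fin n))
    (b : Ideal (MvPowerSeries (Fin n) K)) (hb : SmoothIdeal A b) :
    IsRegularLocalRing (MvPowerSeries (Fin n) K ⧸ b) := by
  obtain ⟨τ, hτ⟩ := hb
  have := Regular_quot (K := K) A
  exact IsRegularLocalRing.of_ringEquiv
    (Ideal.quotientEquiv (coordIdeal K A) b τ.toRingEquiv hτ)

theorem smoothIdeal_isPrime {n : ℕ} {K : Type} [Field K] (A : Finset (Fin n))
    (b : Ideal (MvPowerSeries (Fin n) K)) (hb : SmoothIdeal A b) : b.IsPrime := by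
  obtain ⟨τ, hτ⟩ := hb
  have := Regular_prime (K := K) A
  rw [hτ]
  exact Ideal.map_isPrime_of_equiv τ

theorem Regular_height_ge {n : ℕ} {K : Type} [Field K] (A : Finset (Fin n)) :
    (A.card : ℕ∞) ≤ (coordIdeal K A).height := by
  classical
  induction A using Finset.induction_on with
  | empty =>
    rw [Finset.card_empty, Nat.cast_zero]
    exact bot_le
  | insert a A ha ih =>
    have := Regular_prime (K := K) A
    have := Regular_prime (K := K) (insert a A)
    have hlt : coordIdeal K A < coordIdeal K (insert a A) := by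
      refine lt_of_le_of_ne (Ideal.span_mono (Set.image_mono (by simp))) ?_
      intro h
      have h1 : (X a : MvPowerSeries (Fin n) K) ∈ coordIdeal K A := by
        rw [h]
        exact Ideal.subset_span ⟨a, by simp, rfl⟩
      have h2 := (mem_coordIdeal_pow_iff (K := K) A 1 (X a)).1 (by rw [pow_one]; exact h1)
        (Finsupp.single a 1) (by
          have h3 : (∑ i ∈ A, (Finsupp.single a 1 : Fin n →₀ ℕ) i) = 0 := by
            refine Finset.sum_eq_zero fun i hi => ?_
            exact Finsupp.single_eq_of_ne (fun h4 => ha (h4 ▸ hi))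
          omega)
      rw [coeff_X, if_pos rfl] at h2
      exact one_ne_zero h2
    rw [Finset.card_insert_of_notMem ha, Nat.cast_succ]
    exact le_trans (add_le_add_left ih 1) (Ideal.height_add_one_le_of_lt_of_isPrime hlt)

theorem Regular_height_le {n : ℕ} {K : Type} [Field K] (A : Finset (Fin n)) :
    (coordIdeal K A).height ≤ (A.card : ℕ∞) := by
  classical
  refine le_trans (Ideal.height_le_spanFinrank _ (Regular_prime (K := K) A).ne_top) ?_
  have h1 := Submodule.spanFinrank_span_le_ncard_of_finite (R := MvPowerSeries (Fin n) K)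
    (s := (fun i => (X i : MvPowerSeries (Fin n) K)) '' (A : Set (Fin n)))
    (Set.toFinite _)
  have h2 : ((fun i => (X i : MvPowerSeries (Fin n) K)) '' (A : Set (Fin n))).ncard ≤ A.card := by
    refine le_trans (Set.ncard_image_le (Set.toFinite _)) ?_
    rw [Set.ncard_coe_finset]
  exact Nat.cast_le.2 (le_trans h1 h2)

theorem smoothIdeal_height {n : ℕ} {K : Type} [Field K] (A : Finset (Fin n))
    (b : Ideal (MvPowerSeries (Fin n) K)) (hb : SmoothIdeal A b) : b.height = A.card := by
  obtain ⟨τ, hτ⟩ := hb
  have h1 : b.height = (coordIdeal K A).height := by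
    rw [hτ]
    exact RingEquiv.height_map τ.toRingEquiv (coordIdeal K A)
  rw [h1]
  exact le_antisymm (Regular_height_le A) (Regular_height_ge A)

end Pool.Agent.Helper38.EQ
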