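import Pool.Agent.Helper38.EQ.ClaimC
import Pool.Agent.Helper38.EQ.Descent
import Pool.Agent.Helper38.EQ.AutDescent
import Pool.Agent.Helper38.EQ.Regular

/-! The theorem for algebroid hypersurfaces. -/

namespace Pool.Agent.Helper38.EQ

open MvPowerSeries

section

variable {n : ℕ} {K L : Type} [Field K] [Field L] [Algebra K L]

theorem mem_of_ext_mem_radical (I : Ideal (MvPowerSeries (Fin n) K)) (hI : I.IsRadical)
    (h : MvPowerSeries (Fin n) K) (hh : ext K L h ∈ (I.map (ext K L)).radical) : h ∈ I := by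
  obtain ⟨N, hN⟩ := hh
  rw [← map_pow] at hN
  exact hI ⟨N, mem_of_ext_mem I _ hN⟩

theorem map_theta_ext (θ : L ≃ₐ[K] L) (h : MvPowerSeries (Fin n) K) :
    MvPowerSeries.map (σ := Fin n) (θ : L →+* L) (ext K L h) = ext K L h := by
  ext α
  rw [coeff_map, coeff_ext]
  exact θ.commutes _

/-- If a smooth germ `b` over `L` has the same points as an extended ideal, it is stable under
the automorphisms of the coefficients and descends. -/
theorem descend [IsAlgClosed K] [CharZero K] [IsAlgClosed L] (A : Finset (Fin n))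
    (b : Ideal (MvPowerSeries (Fin n) L)) (hb : SmoothIdeal A b)
    (I : Ideal (MvPowerSeries (Fin n) K)) (h1 : b ≤ (I.map (ext K L)).radical)
    (h2 : I.map (ext K L) ≤ b) :
    ∃ A₀ : Finset (Fin n), A₀.card = A.card ∧ SmoothIdeal A₀ (I.radical) ∧
      b = (I.radical).map (ext K L) := by
  have hp : b.IsPrime := smoothIdeal_isPrime A b hb
  have hst : ∀ θ : L ≃ₐ[K] L, b.map (MvPowerSeries.map (σ := Fin n) (θ : L →+* L)) ≤ b := by
    intro θ
    rw [Ideal.map_le_iff_le_comap]
    intro h hh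
    obtain ⟨N, hN⟩ := h1 hh
    rw [Ideal.mem_comap]
    apply hp.mem_of_pow_mem N
    rw [← map_pow]
    have h3 : I.map (ext K L) ≤ Ideal.comap (MvPowerSeries.map (σ := Fin n) (θ : L →+* L))
        (I.map (ext K L)) := by
      rw [Ideal.map_le_iff_le_comap]
      intro x hx
      rw [Ideal.mem_comap, Ideal.mem_comap, map_theta_ext]
      exact Ideal.mem_map_of_mem _ hx
    exact h2 (h3 hN)
  obtain ⟨b₀, A₀, hc, hs, hbb⟩ := aut_descent A b hb hst
  have hI : I.radical = b₀ := by
    have hp0 : b₀.IsPrime := smoothIdeal_isPrime A₀ b₀ hs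
    apply le_antisymm
    · rw [hp0.radical_le_iff]
      intro x hx
      apply mem_of_ext_mem (L := L) b₀
      rw [← hbb]
      exact h2 (Ideal.mem_map_of_mem _ hx)
    · intro x hx
      have h4 : ext K L x ∈ b := by
        rw [hbb]; exact Ideal.mem_map_of_mem _ hx
      obtain ⟨N, hN⟩ := h1 h4
      rw [← map_pow] at hN
      exact ⟨N, mem_of_ext_mem I _ hN⟩
  rw [hI]
  exact ⟨A₀, hc, hs, hbb⟩

end

theorem formal {B : BasisClass} {n : ℕ} {K : Type} [Field K] [IsAlgClosed K] [CharZero K]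
    (f : MvPowerSeries (Fin n) K) (I : Ideal (MvPowerSeries (Fin n) K))
    (hI : I.IsRadical) (hI1 : I ≠ ⊤) (hfI : f ∈ I) (h : Equisingular B n K f I) :
    (∀ m, f ∈ IsLocalRing.maximalIdeal (MvPowerSeries (Fin n) K) ^ m → multIdeal f m ≤ I) ∧
    (∀ μ, (∀ p ∈ I.minimalPrimes, p ∈ (multIdeal f μ).minimalPrimes) →
      IsRegularLocalRing (MvPowerSeries (Fin n) K ⧸ I)) := by
  obtain ⟨k, hk⟩ := h
  obtain ⟨L, iF, iC, iA, A, b, hA, hs, hb, hf⟩ := claimC hk inferInstance inferInstance hfI hI1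
  refine ⟨?_, ?_⟩
  · intro m hm x hx
    apply mem_of_ext_mem_radical (L := L) I hI
    exact hb (ext_multIdeal b f m (hf m hm) (Ideal.mem_map_of_mem _ hx))
  · intro μ hμ
    obtain ⟨p, hp⟩ := Ideal.nonempty_minimalPrimes hI1
    have hpμ := hμ p hp
    have hfμ : f ∈ IsLocalRing.maximalIdeal (MvPowerSeries (Fin n) K) ^ μ := by
      by_contra hcon
      rw [multIdeal_eq_top f μ hcon] at hpμ
      have := hpμ.1.2
      exact hpμ.1.1.ne_top (top_le_iff.mp this)
    have hbp : b.IsPrime := smoothIdeal_isPrime A b hs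
    have hle : Ideal.comap (ext K L) b ≤ I := by
      intro x hx
      exact mem_of_ext_mem_radical (L := L) I hI x (hb hx)
    have hmu : multIdeal f μ ≤ Ideal.comap (ext K L) b := by
      rw [← Ideal.map_le_iff_le_comap]
      exact ext_multIdeal b f μ (hf μ hfμ)
    have hpI : p ≤ Ideal.comap (ext K L) b :=
      hpμ.2 ⟨Ideal.comap_isPrime _ _, hmu⟩ (hle.trans hp.1.2)
    have hIb : I.map (ext K L) ≤ b := by
      rw [Ideal.map_le_iff_le_comap]
      exact hp.1.2.trans hpI
    obtain ⟨A₀, -, hsm, -⟩ := descend A b hs I hb hIb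
    rw [hI.radical] at hsm
    exact regular_of_smoothIdeal A₀ I hsm

end Pool.Agent.Helper38.EQ
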