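import Pool.Agent.Helper38.EQ.StepA

/-! Coordinates adapted to a section over a smooth germ. -/

namespace Pool.Agent.Helper38.EQ

open MvPowerSeries

theorem maximalIdeal_eq_span_X {n : ℕ} {K : Type} [Field K] :
    IsLocalRing.maximalIdeal (MvPowerSeries (Fin n) K) =
      Ideal.span (Set.range fun i => (X i : MvPowerSeries (Fin n) K)) := by
  rw [maximalIdeal_eq_coordIdeal]
  simp [coordIdeal]

theorem mem_maximalIdeal_iff_constantCoeff {n : ℕ} {K : Type} [Field K]
    (h : MvPowerSeries (Fin n) K) :
    h ∈ IsLocalRing.maximalIdeal (MvPowerSeries (Fin n) K) ↔ constantCoeff h = 0 := by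
  rw [IsLocalRing.mem_maximalIdeal, mem_nonunits_iff, MvPowerSeries.isUnit_iff_constantCoeff,
    isUnit_iff_ne_zero, not_not]

theorem C_mem_of_mem {n : ℕ} {K : Type} [Field K]
    (τ : MvPowerSeries (Fin n) K ≃ₐ[K] MvPowerSeries (Fin n) K)
    (J : Ideal (PowerSeries (MvPowerSeries (Fin n) K)))
    (hJ : ∀ i, PowerSeries.C (τ (X i)) ∈ J) (h : MvPowerSeries (Fin n) K)
    (hh : h ∈ IsLocalRing.maximalIdeal (MvPowerSeries (Fin n) K)) : PowerSeries.C h ∈ J := by
  have h1 : τ.symm h ∈ IsLocalRing.maximalIdeal (MvPowerSeries (Fin n) K) := by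
    have := (algEquiv_mem_maximalIdeal_pow τ.symm.toRingEquiv 1 h).mpr (by simpa using hh)
    simpa using this
  rw [maximalIdeal_eq_span_X] at h1
  have h2 : Ideal.span (Set.range fun i => (X i : MvPowerSeries (Fin n) K)) ≤
      Ideal.comap ((PowerSeries.C (R := MvPowerSeries (Fin n) K)).comp
        (τ : MvPowerSeries (Fin n) K →+* MvPowerSeries (Fin n) K)) J := by
    rw [Ideal.span_le]
    rintro _ ⟨i, rfl⟩
    exact hJ i
  have h3 := h2 h1
  rw [Ideal.mem_comap] at h3
  simpa using h3

theorem exists_psi {n : ℕ} {K : Type} [Field K]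
    (τ : MvPowerSeries (Fin n) K ≃ₐ[K] MvPowerSeries (Fin n) K) (r : MvPowerSeries (Fin n) K)
    (hr : r ∈ IsLocalRing.maximalIdeal (MvPowerSeries (Fin n) K)) :
    ∃ Ψ : MvPowerSeries (Fin (n + 1)) K ≃ₐ[K] PowerSeries (MvPowerSeries (Fin n) K),
      Ψ (X 0) = PowerSeries.X - PowerSeries.C r ∧
      ∀ i : Fin n, Ψ (X i.succ) = PowerSeries.C (τ (X i)) := by
  set e := finSuccEquiv K n with he
  set y : Fin (n + 1) → MvPowerSeries (Fin (n + 1)) K :=
    Fin.cons (e.symm (PowerSeries.X - PowerSeries.C r))
      (fun i => e.symm (PowerSeries.C (τ (X i)))) with hy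
  have hy0 : y 0 = e.symm (PowerSeries.X - PowerSeries.C r) := by simp [hy]
  have hys : ∀ i : Fin n, y i.succ = e.symm (PowerSeries.C (τ (X i))) := fun i => by simp [hy]
  -- every element of the maximal ideal of the base is in the span
  have hCmem : ∀ h ∈ IsLocalRing.maximalIdeal (MvPowerSeries (Fin n) K),
      e.symm (PowerSeries.C h) ∈ Ideal.span (Set.range y) := by
    intro h hh
    have h1 := C_mem_of_mem τ (Ideal.comap (e.symm : PowerSeries (MvPowerSeries (Fin n) K) →+*
      MvPowerSeries (Fin (n + 1)) K) (Ideal.span (Set.range y))) (fun i => by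
        rw [Ideal.mem_comap]
        have : (e.symm : PowerSeries (MvPowerSeries (Fin n) K) →+*
          MvPowerSeries (Fin (n + 1)) K) (PowerSeries.C (τ (X i))) = y i.succ := by
          rw [hys]; rfl
        rw [this]
        exact Ideal.subset_span ⟨_, rfl⟩) h hh
    rw [Ideal.mem_comap] at h1
    exact h1
  have hspan : Ideal.span (Set.range y) =
      IsLocalRing.maximalIdeal (MvPowerSeries (Fin (n + 1)) K) := by
    apply le_antisymm
    · rw [Ideal.span_le]
      rintro _ ⟨i, rfl⟩
      have hτ0 : ∀ i : Fin n, constantCoeff (τ (X i)) = 0 := by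
        intro i
        have h1 := (algEquiv_mem_maximalIdeal_pow τ.toRingEquiv 1 (X i)).mpr (by
          rw [pow_one, mem_maximalIdeal_iff_constantCoeff]; simp)
        rw [pow_one, mem_maximalIdeal_iff_constantCoeff] at h1
        exact h1
      have hnu : ∀ z : PowerSeries (MvPowerSeries (Fin n) K),
          constantCoeff (PowerSeries.constantCoeff z) = 0 →
          e.symm z ∈ IsLocalRing.maximalIdeal (MvPowerSeries (Fin (n + 1)) K) := by
        intro z hz
        rw [IsLocalRing.mem_maximalIdeal, mem_nonunits_iff]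
        intro hu
        have hu2 : IsUnit z := by
          have := hu.map e
          simpa using this
        have hu3 := (hu2.map PowerSeries.constantCoeff).map
          (constantCoeff (σ := Fin n) (R := K))
        rw [hz] at hu3
        exact not_isUnit_zero hu3
      refine Fin.cases ?_ (fun i => ?_) i
      · rw [hy0]
        apply hnu
        have := (mem_maximalIdeal_iff_constantCoeff r).mp hr
        simp [this]
      · rw [hys]
        apply hnu
        simpa using hτ0 i
    · rw [maximalIdeal_eq_span_X, Ideal.span_le]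
      rintro _ ⟨i, rfl⟩
      refine Fin.cases ?_ (fun i => ?_) i
      · have h1 : (X 0 : MvPowerSeries (Fin (n + 1)) K) =
            y 0 + e.symm (PowerSeries.C r) := by
          rw [hy0, ← map_add, sub_add_cancel, he]
          rw [AlgEquiv.eq_symm_apply]
          exact finSuccEquiv_X_zero
        show (X 0 : MvPowerSeries (Fin (n + 1)) K) ∈ Ideal.span (Set.range y)
        rw [h1]
        exact Ideal.add_mem _ (Ideal.subset_span ⟨_, rfl⟩) (hCmem r hr)
      · have h1 : (X i.succ : MvPowerSeries (Fin (n + 1)) K) =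
            e.symm (PowerSeries.C (X i)) := by
          rw [he, AlgEquiv.eq_symm_apply]
          exact finSuccEquiv_X_succ i
        show (X i.succ : MvPowerSeries (Fin (n + 1)) K) ∈ Ideal.span (Set.range y)
        rw [h1]
        exact hCmem _ (by rw [mem_maximalIdeal_iff_constantCoeff]; simp)
  obtain ⟨T, hT⟩ := exists_algEquiv y hspan
  refine ⟨T.trans e, ?_, fun i => ?_⟩
  · rw [AlgEquiv.trans_apply, hT, hy0]; simp
  · rw [AlgEquiv.trans_apply, hT, hys]; simp

end Pool.Agent.Helper38.EQ
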