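import Pool.Agent.Helper38.EQ.Defs

/-!
# EQ-P4 (orders)

`mem_coordIdeal_pow_iff`: the ideal of all `h` with `coeff α h = 0` for `∑_{i∈A} α i < e` is an
ideal containing all products of `e` variables from `A`; conversely such an `h` is a combination
of the monomials of degree `e` in the variables of `A`: induction on `e` (an `h` whose
coefficients vanish when `α i = 0` for all `i ∈ A` is `∑_{i ∈ A} X i * h_i`: split the exponents
according to the least `i ∈ A` with `α i > 0`, `h_i` again having coefficients vanishing below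
`e - 1`), or use `MvPowerSeries.weightedOrder`.
`maximalIdeal_eq_coordIdeal`: `h` is a nonunit iff its constant coefficient is zero.
-/

namespace Pool.Agent.Helper38.EQ

open MvPowerSeries

/-- The ideal generated by the coordinates in `A`. -/
noncomputable abbrev coordIdeal {n : ℕ} (K : Type) [Field K] (A : Finset (Fin n)) :
    Ideal (MvPowerSeries (Fin n) K) :=
  Ideal.span ((fun i => (X i : MvPowerSeries (Fin n) K)) '' (A : Set (Fin n)))

/-- The ideal of the series whose coefficients vanish below `e` in the coordinates of `A`. -/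
def Orders_J {n : ℕ} (K : Type) [Field K] (A : Finset (Fin n)) (e : ℕ) :
    Ideal (MvPowerSeries (Fin n) K) where
  carrier := {h | ∀ α : Fin n →₀ ℕ, (∑ i ∈ A, α i) < e → coeff α h = 0}
  add_mem' := by
    intro a b ha hb α hα
    rw [map_add, ha α hα, hb α hα, add_zero]
  zero_mem' := by
    intro α _
    exact map_zero _
  smul_mem' := by
    intro r h hh α hα
    rw [smul_eq_mul, coeff_mul]
    refine Finset.sum_eq_zero fun p hp => ?_
    rw [Finset.HasAntidiagonal.mem_antidiagonal] at hp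
    have h1 : (∑ i ∈ A, p.2 i) < e := by
      refine lt_of_le_of_lt (Finset.sum_le_sum fun i _ => ?_) hα
      rw [← hp, Finsupp.add_apply]
      exact Nat.le_add_left _ _
    rw [hh p.2 h1, mul_zero]

theorem Orders_mem {n : ℕ} {K : Type} [Field K] {A : Finset (Fin n)} {e : ℕ}
    {h : MvPowerSeries (Fin n) K} :
    h ∈ Orders_J K A e ↔ ∀ α : Fin n →₀ ℕ, (∑ i ∈ A, α i) < e → coeff α h = 0 := Iff.rfl

theorem Orders_one {n : ℕ} {K : Type} [Field K] (A : Finset (Fin n)) :
    coordIdeal K A ≤ Orders_J K A 1 := by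
  classical
  rw [Ideal.span_le]
  rintro _ ⟨i, hi, rfl⟩
  intro α hα
  rw [coeff_X, if_neg]
  rintro rfl
  have h1 : (Finsupp.single i 1 : Fin n →₀ ℕ) i ≤ ∑ j ∈ A, (Finsupp.single i 1 : Fin n →₀ ℕ) j :=
    Finset.single_le_sum (f := fun j => (Finsupp.single i 1 : Fin n →₀ ℕ) j)
      (fun j _ => Nat.zero_le _) (Finset.mem_coe.1 hi)
  rw [Finsupp.single_eq_same] at h1
  omega

theorem Orders_pow_le {n : ℕ} {K : Type} [Field K] (A : Finset (Fin n)) (e : ℕ) :
    coordIdeal K A ^ e ≤ Orders_J K A e := by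
  induction e with
  | zero =>
    intro h _ α hα
    exact absurd hα (Nat.not_lt_zero _)
  | succ e ih =>
    rw [pow_succ, Ideal.mul_le]
    intro r hr s hs α hα
    have hr' := ih hr
    have hs' := Orders_one A hs
    rw [coeff_mul]
    refine Finset.sum_eq_zero fun p hp => ?_
    rw [Finset.HasAntidiagonal.mem_antidiagonal] at hp
    have h1 : (∑ i ∈ A, α i) = (∑ i ∈ A, p.1 i) + ∑ i ∈ A, p.2 i := by
      rw [← Finset.sum_add_distrib]
      refine Finset.sum_congr rfl fun i _ => ?_
      rw [← hp, Finsupp.add_apply]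
    by_cases h2 : (∑ i ∈ A, p.1 i) < e
    · rw [hr' p.1 h2, zero_mul]
    · rw [hs' p.2 (by omega), mul_zero]

/-- `i` is the first coordinate in `A` that occurs in `α` -/
def Orders_P {n : ℕ} (A : Finset (Fin n)) (i : Fin n) (α : Fin n →₀ ℕ) : Prop :=
  i ∈ A ∧ α i ≠ 0 ∧ ∀ j ∈ A, j < i → α j = 0

open Classical in
/-- the part of `h` divided by the coordinate `i` -/
noncomputable def Orders_q {n : ℕ} {K : Type} [Field K] (A : Finset (Fin n))
    (h : MvPowerSeries (Fin n) K) (i : Fin n) : MvPowerSeries (Fin n) K :=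
  fun β => if Orders_P A i (β + Finsupp.single i 1) then coeff (β + Finsupp.single i 1) h else 0

open Classical in
theorem Orders_coeff_q {n : ℕ} {K : Type} [Field K] (A : Finset (Fin n))
    (h : MvPowerSeries (Fin n) K) (i : Fin n) (β : Fin n →₀ ℕ) :
    coeff β (Orders_q A h i) = if Orders_P A i (β + Finsupp.single i 1) then
      coeff (β + Finsupp.single i 1) h else 0 := rfl

open Classical in
theorem Orders_coeff_Xq {n : ℕ} {K : Type} [Field K] (A : Finset (Fin n))
    (h : MvPowerSeries (Fin n) K) (i : Fin n) (α : Fin n →₀ ℕ) :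
    coeff α (X i * Orders_q A h i) = if Orders_P A i α then coeff α h else 0 := by
  rw [X_def, coeff_monomial_mul]
  by_cases h1 : Finsupp.single i 1 ≤ α
  · rw [if_pos h1, one_mul, Orders_coeff_q, tsub_add_cancel_of_le h1]
  · rw [if_neg h1, if_neg]
    rintro ⟨_, h2, _⟩
    apply h1
    rw [Finsupp.single_le_iff]
    omega

theorem Orders_decomp {n : ℕ} {K : Type} [Field K] (A : Finset (Fin n))
    (h : MvPowerSeries (Fin n) K) (h0 : ∀ α : Fin n →₀ ℕ, (∑ i ∈ A, α i) = 0 → coeff α h = 0) :
    h = ∑ i ∈ A, X i * Orders_q A h i := by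
  classical
  ext α
  rw [map_sum]
  simp only [Orders_coeff_Xq]
  by_cases h1 : ∃ i ∈ A, α i ≠ 0
  · -- the least one
    have hne : (A.filter fun i => α i ≠ 0).Nonempty := by
      obtain ⟨i, hi, hi'⟩ := h1
      exact ⟨i, Finset.mem_filter.2 ⟨hi, hi'⟩⟩
    let m := (A.filter fun i => α i ≠ 0).min' hne
    have hm := Finset.mem_filter.1 ((A.filter fun i => α i ≠ 0).min'_mem hne)
    have hP : Orders_P A m α := by
      refine ⟨hm.1, hm.2, ?_⟩
      intro j hj hjm
      by_contra hcon
      have h2 := (A.filter fun i => α i ≠ 0).min'_le j (Finset.mem_filter.2 ⟨hj, hcon⟩)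
      exact absurd hjm (not_lt.2 h2)
    rw [Finset.sum_eq_single_of_mem m hm.1, if_pos hP]
    intro b hb hbm
    rw [if_neg]
    rintro ⟨hb1, hb2, hb3⟩
    rcases lt_or_gt_of_ne hbm with h2 | h2
    · exact hb2 (hP.2.2 b hb1 h2)
    · exact hP.2.1 (hb3 m hm.1 h2)
  · push Not at h1
    rw [h0 α (Finset.sum_eq_zero h1)]
    symm
    refine Finset.sum_eq_zero fun i hi => ?_
    rw [if_neg]
    rintro ⟨_, h2, _⟩
    exact h2 (h1 i hi)

theorem Orders_le_pow {n : ℕ} {K : Type} [Field K] (A : Finset (Fin n)) (e : ℕ)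
    (h : MvPowerSeries (Fin n) K) (hh : h ∈ Orders_J K A e) : h ∈ coordIdeal K A ^ e := by
  classical
  induction e generalizing h with
  | zero => rw [pow_zero, Ideal.one_eq_top]; exact Submodule.mem_top
  | succ e ih =>
    rw [Orders_decomp A h (fun α hα => hh α (by omega))]
    refine Ideal.sum_mem _ fun i hi => ?_
    rw [pow_succ']
    refine Ideal.mul_mem_mul (Ideal.subset_span ⟨i, Finset.mem_coe.2 hi, rfl⟩) (ih _ ?_)
    intro β hβ
    rw [Orders_coeff_q]
    split_ifs
    · apply hh
      have h1 : ∑ j ∈ A, (β + Finsupp.single i 1 : Fin n →₀ ℕ) j =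
          (∑ j ∈ A, β j) + ∑ j ∈ A, (Finsupp.single i 1 : Fin n →₀ ℕ) j := by
        rw [← Finset.sum_add_distrib]
        rfl
      have h2 : ∑ j ∈ A, (Finsupp.single i 1 : Fin n →₀ ℕ) j = 1 := by
        rw [Finset.sum_eq_single_of_mem i hi]
        · exact Finsupp.single_eq_same
        · intro j _ hj
          exact Finsupp.single_eq_of_ne hj
      omega
    · rfl

theorem mem_coordIdeal_pow_iff {n : ℕ} {K : Type} [Field K] (A : Finset (Fin n)) (e : ℕ)
    (h : MvPowerSeries (Fin n) K) :
    h ∈ coordIdeal K A ^ e ↔ ∀ α : Fin n →₀ ℕ, (∑ i ∈ A, α i) < e → coeff α h = 0 :=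
  ⟨fun hh => Orders_pow_le A e hh, fun hh => Orders_le_pow A e h hh⟩

theorem maximalIdeal_eq_coordIdeal {n : ℕ} {K : Type} [Field K] :
    IsLocalRing.maximalIdeal (MvPowerSeries (Fin n) K) = coordIdeal K Finset.univ := by
  ext h
  have h1 := mem_coordIdeal_pow_iff (K := K) (Finset.univ : Finset (Fin n)) 1 h
  rw [pow_one] at h1
  rw [h1, IsLocalRing.mem_maximalIdeal, mem_nonunits_iff, isUnit_iff_constantCoeff,
    isUnit_iff_ne_zero, not_not]
  constructor
  · intro h2 α hα
    have h3 : α = 0 := by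
      ext i
      have h4 : (∑ i, α i) = 0 := by omega
      exact (Finset.sum_eq_zero_iff.1 h4) i (Finset.mem_univ i)
    rw [h3]
    exact h2
  · intro h2
    exact h2 0 (by simp)

theorem mem_maximalIdeal_pow_iff {n : ℕ} {K : Type} [Field K] (e : ℕ)
    (h : MvPowerSeries (Fin n) K) :
    h ∈ IsLocalRing.maximalIdeal (MvPowerSeries (Fin n) K) ^ e ↔
      ∀ α : Fin n →₀ ℕ, (∑ i, α i) < e → coeff α h = 0 := by
  rw [maximalIdeal_eq_coordIdeal]
  exact mem_coordIdeal_pow_iff Finset.univ e h

end Pool.Agent.Helper38.EQ
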