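import Mathlib

/-! Discriminants of monic polynomials: ring homomorphisms and translations. -/

namespace Pool.Agent.Helper38.EQ

open Polynomial

theorem discr_resultant {R : Type} [CommRing R] (F : Polynomial R) (hF : F.Monic)
    (h : 0 < F.natDegree) :
    F.discr = (-1) ^ (F.natDegree * (F.natDegree - 1) / 2) *
      resultant F F.derivative F.natDegree (F.natDegree - 1) := by
  have h2 := resultant_deriv (f := F) (natDegree_pos_iff_degree_pos.mp h)
  rw [h2, hF.leadingCoeff, mul_one, ← mul_assoc, ← pow_add, ← two_mul, pow_mul]
  simp

theorem discr_map {R S : Type} [CommRing R] [CommRing S] [Nontrivial S] (φ : R →+* S)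
    (F : Polynomial R) (hF : F.Monic) (h : 0 < F.natDegree) :
    (F.map φ).discr = φ F.discr := by
  have hd : (F.map φ).natDegree = F.natDegree := hF.natDegree_map φ
  rw [discr_resultant _ (hF.map φ) (by rw [hd]; exact h), discr_resultant _ hF h, hd,
    derivative_map, resultant_map_map]
  simp

theorem discr_taylor {R : Type} [CommRing R] [IsDomain R] [CharZero R]
    (F : Polynomial R) (hF : F.Monic) (h : 0 < F.natDegree) (r : R) :
    (taylor r F).discr = F.discr := by
  have hT : (taylor r F).Monic := by
    rw [Polynomial.Monic, leadingCoeff_taylor]; exact hF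
  have hnd : (taylor r F).natDegree = F.natDegree := natDegree_taylor F r
  rw [discr_resultant _ hT (by rw [hnd]; exact h), discr_resultant _ hF h, hnd]
  congr 1
  have h3 : F.derivative.natDegree = F.natDegree - 1 := natDegree_derivative F
  have h4 : (taylor r F).derivative = taylor r F.derivative := by
    simp [taylor_apply, derivative_comp]
  have h5 := resultant_taylor F F.derivative r
  rw [natDegree_taylor, natDegree_taylor, h3] at h5
  rw [h4]; exact h5

end Pool.Agent.Helper38.EQ
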