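import Pool.Agent.Helper38.EQ.TwoSpec

/-!
# EQ-P3

Proof.  Let `m = F.natDegree` (`m = 0` contradicts `h1`) and `a_j = F.coeff (m - j)`, `a_1 = 0`.
Suppose the conclusion fails.  Put `N = m!` and
`p = min over j ∈ [1,m] with a_j ≠ 0 of (m!/j) * ord(a_j)`, where `ord` is `PowerSeries.order`
over `κ`; some `j` has `ord a_j < j`, so `p < N`.  Since `N ord(a_j) ≥ p j`, we can write
`a_j(η^N) = η^(p j) b_j` with `b_j ∈ κ⟦η⟧`, and `b_j` has non zero constant coefficient for some
`j` (the one where the minimum is attained).  Let `G = w^m + ∑_{j ≥ 1} b_j w^(m-j)` (monic of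
degree `m`, `b_1 = 0`).  Then `F(η^N; η^p w) = η^(p m) G(η; w)`, i.e. `F.map (expand N)` is
`G.scaleRoots (η^p)`, and for the discriminants: `discr (F.map expand) = η^(p m (m-1)) discr G`
(via `resultant_deriv` and `resultant_scaleRoots`, or by comparing determinants; for `m = 1`
everything is trivial).  Hence `η^(p m (m-1)) discr G = η^(N e) U(η^N)`, and as `U(0) ≠ 0`
(because `ρ(U(0)) ≠ 0`) and `κ` is a domain: `p m (m-1) ≤ N e` and
`discr G = η^(e') U(η^N)`, `e' = N e - p m (m-1)`.
Over `K`: `η^(N j)` divides `ρ(a_j)(η^N) = η^(p j) ρ(b_j)`, so `η^((N-p) j)` divides `ρ(b_j)`, and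
`(N - p) j ≥ 1`: `ρ(b_j)` has zero constant coefficient for all `j ≥ 1`.  So
`ρ(G)(0; w) = w^m`.  Apply `two_spec` with `Ω = AlgebraicClosure (FractionRing κ)` (`κ` has
characteristic 0 because `K` has, so `Ω` is a `CharZero` field) to `G`:
`G^ι(0; w) = (w - c)^m`.  The coefficient of `w^(m-1)` is `-m c = ι(b_1(0)) = 0`, so `c = 0` and
`ι(b_j(0)) = 0` for all `j ≥ 1`, contradiction.
-/

namespace Pool.Agent.Helper38.EQ

section Jung_aux

open Polynomial

/-- the slope -/
private theorem Jung_slope {k : Type} [CommRing k] [Nontrivial k] {F : Polynomial (PowerSeries k)}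
    (hF : F.Monic) (h1 : ∃ i < F.natDegree, F.coeff i ≠ 0) :
    ∃ (N : ℕ) (hN : N ≠ 0) (p : ℕ) (G : Polynomial (PowerSeries k)), G.Monic ∧
      G.natDegree = F.natDegree ∧
      G.scaleRoots (PowerSeries.X ^ p) =
        F.map (PowerSeries.expand N hN : PowerSeries k →ₐ[k] PowerSeries k).toRingHom ∧
      (∀ i, F.coeff i = 0 → G.coeff i = 0) ∧
      (∀ i < F.natDegree, F.coeff i ≠ 0 →
        p * (F.natDegree - i) ≤ N * (F.coeff i).order.toNat) ∧
      ∃ i < F.natDegree, PowerSeries.constantCoeff (G.coeff i) ≠ 0 := by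
  classical
  set m := F.natDegree with hm
  obtain ⟨i₀, hi₀, hmin⟩ := Finset.exists_min_image
    ((Finset.range m).filter fun i => F.coeff i ≠ 0)
    (fun i => ((F.coeff i).order.toNat : ℚ) / ((m - i : ℕ) : ℚ))
    (by
      obtain ⟨i, hi, hc⟩ := h1
      exact ⟨i, Finset.mem_filter.2 ⟨Finset.mem_range.2 hi, hc⟩⟩)
  obtain ⟨hi1, hi2⟩ := Finset.mem_filter.1 hi₀
  rw [Finset.mem_range] at hi1
  have hN : m - i₀ ≠ 0 := by omega
  set N := m - i₀ with hNd
  set p := (F.coeff i₀).order.toNat with hp
  have hmin2 : ∀ i < m, F.coeff i ≠ 0 → p * (m - i) ≤ N * (F.coeff i).order.toNat := by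
    intro i hi hc
    have h2 := hmin i (Finset.mem_filter.2 ⟨Finset.mem_range.2 hi, hc⟩)
    have h3 : (0 : ℚ) < ((m - i : ℕ) : ℚ) := by
      exact_mod_cast Nat.sub_pos_of_lt hi
    have h4 : (0 : ℚ) < ((m - i₀ : ℕ) : ℚ) := by
      exact_mod_cast Nat.sub_pos_of_lt hi1
    rw [div_le_div_iff₀ h4 h3] at h2
    have h5 : p * (m - i) ≤ (F.coeff i).order.toNat * (m - i₀) := by exact_mod_cast h2
    rw [mul_comm N]
    exact h5
  have hord : ∀ i, F.coeff i ≠ 0 →
      (PowerSeries.expand N hN (F.coeff i)).order = ((N * (F.coeff i).order.toNat : ℕ) : ℕ∞) := by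
    intro i hc
    rw [PowerSeries.order_expand]
    have h2 : (F.coeff i).order = ((F.coeff i).order.toNat : ℕ∞) :=
      (ENat.natCast_toNat (PowerSeries.order_finite_iff_ne_zero.2 hc).ne).symm
    rw [h2]
    simp
  have hdvd : ∀ i, i ≤ m → ∃ b : PowerSeries k,
      PowerSeries.expand N hN (F.coeff i) = b * (PowerSeries.X ^ p) ^ (m - i) ∧
      (F.coeff i = 0 → b = 0) := by
    intro i hi
    by_cases hc : F.coeff i = 0
    · exact ⟨0, by rw [hc, map_zero, zero_mul], fun _ => rfl⟩
    rcases hi.lt_or_eq with hi | rfl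
    · have h2 : (PowerSeries.X : PowerSeries k) ^ (p * (m - i)) ∣
          PowerSeries.expand N hN (F.coeff i) := by
        rw [PowerSeries.X_pow_dvd_iff]
        intro j hj
        apply PowerSeries.coeff_of_lt_order
        rw [hord i hc]
        exact_mod_cast lt_of_lt_of_le hj (hmin2 i hi hc)
      obtain ⟨b, hb⟩ := h2
      refine ⟨b, ?_, fun h => absurd h hc⟩
      rw [hb, pow_mul, mul_comm]
    · exact ⟨PowerSeries.expand N hN (F.coeff m), by simp, fun h => absurd h hc⟩
  choose! b hb hb0 using hdvd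
  have hbm : b m = 1 := by
    have h2 := hb m le_rfl
    rw [Nat.sub_self, pow_zero, mul_one] at h2
    rw [← h2, hm, coeff_natDegree, hF.leadingCoeff, map_one]
  set G : Polynomial (PowerSeries k) := ∑ i ∈ Finset.range (m + 1), monomial i (b i) with hGd
  have hGc : ∀ i, G.coeff i = if i ≤ m then b i else 0 := by
    intro i
    rw [hGd, finsetSum_coeff]
    simp only [coeff_monomial]
    rw [Finset.sum_ite_eq']
    simp only [Finset.mem_range, Nat.lt_succ_iff]
  have hGle : G.natDegree ≤ m := by
    rw [natDegree_le_iff_coeff_eq_zero]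
    intro i hi
    rw [hGc, if_neg (by omega)]
  have hGm : G.coeff m = 1 := by rw [hGc, if_pos le_rfl, hbm]
  have hGdeg : G.natDegree = m := by
    refine le_antisymm hGle (le_natDegree_of_ne_zero ?_)
    rw [hGm]
    exact one_ne_zero
  have hGmon : G.Monic := monic_of_natDegree_le_of_coeff_eq_one m hGle hGm
  refine ⟨N, hN, p, G, hGmon, hGdeg, ?_, ?_, hmin2, i₀, hi1, ?_⟩
  · ext1 i
    rw [coeff_scaleRoots, hGdeg, coeff_map, hGc]
    by_cases hi : i ≤ m
    · rw [if_pos hi]
      exact (hb i hi).symm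
    · rw [if_neg hi, zero_mul, coeff_eq_zero_of_natDegree_lt (by omega), map_zero]
  · intro i hi
    rw [hGc]
    split_ifs with h2
    · exact hb0 i h2 hi
    · rfl
  · rw [hGc, if_pos hi1.le]
    intro h2
    have h3 := hb i₀ hi1.le
    have h4 := hord i₀ hi2
    rw [h3, ← pow_mul] at h4
    have h5 : (PowerSeries.X : PowerSeries k) ^ (p * (m - i₀) + 1) ∣
        b i₀ * PowerSeries.X ^ (p * (m - i₀)) := by
      rw [pow_succ, mul_comm (b i₀)]
      exact mul_dvd_mul_left _ (PowerSeries.X_dvd_iff.2 h2)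
    have h6 : PowerSeries.coeff (p * (m - i₀)) (b i₀ * PowerSeries.X ^ (p * (m - i₀))) = 0 :=
      PowerSeries.X_pow_dvd_iff.1 h5 _ (Nat.lt_succ_self _)
    have h7 : (b i₀ * PowerSeries.X ^ (p * (m - i₀)) : PowerSeries k) ≠ 0 := by
      intro h
      rw [h, PowerSeries.order_zero] at h4
      exact ENat.top_ne_natCast _ h4
    have h8 := PowerSeries.coeff_order h7
    rw [h4] at h8
    apply h8
    have e : (((N * (F.coeff i₀).order.toNat : ℕ) : ℕ∞)).toNat = p * (m - i₀) := by
      rw [ENat.toNat_natCast, mul_comm]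
    rw [e]
    exact h6

private theorem Jung_discr_map {A B : Type} [CommRing A] [CommRing B] [Nontrivial B] (φ : A →+* B)
    {f : Polynomial A} (hf : f.Monic) (hm : 0 < f.natDegree) :
    (f.map φ).discr = φ f.discr := by
  have hm' : (f.map φ).natDegree = f.natDegree := hf.natDegree_map φ
  have h1 := resultant_deriv (natDegree_pos_iff_degree_pos.1 hm)
  have h2 := resultant_deriv (f := f.map φ) (natDegree_pos_iff_degree_pos.1 (by rw [hm']; exact hm))
  rw [(hf.map φ).leadingCoeff, hm', derivative_map, resultant_map_map, h1, hf.leadingCoeff,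
    map_mul, map_mul, map_one, map_pow, map_neg, map_one, mul_one] at h2
  have hu : IsUnit ((-1 : B) ^ (f.natDegree * (f.natDegree - 1) / 2)) :=
    (isUnit_one.neg).pow _
  exact (hu.mul_left_cancel h2).symm

private theorem Jung_discr_scaleRoots {A : Type} [CommRing A] [IsDomain A] [CharZero A]
    {f : Polynomial A} (hf : f.Monic) (hm : 0 < f.natDegree) (s : A) :
    (f.scaleRoots s).discr = s ^ (f.natDegree * (f.natDegree - 1)) * f.discr := by
  have hd : (f.scaleRoots s).derivative = f.derivative.scaleRoots s := by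
    ext i
    rw [coeff_derivative, coeff_scaleRoots, coeff_scaleRoots, coeff_derivative,
      natDegree_derivative]
    have e : f.natDegree - (i + 1) = f.natDegree - 1 - i := by omega
    rw [e]
    ring
  have hs : (f.scaleRoots s).Monic := (monic_scaleRoots_iff s).2 hf
  have h1 := resultant_deriv (natDegree_pos_iff_degree_pos.1 hm)
  have h2 := resultant_deriv (f := f.scaleRoots s)
    (natDegree_pos_iff_degree_pos.1 (by rw [natDegree_scaleRoots]; exact hm))
  have h3 := resultant_scaleRoots f f.derivative s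
  rw [natDegree_scaleRoots, natDegree_scaleRoots, natDegree_derivative] at h3
  rw [hs.leadingCoeff, natDegree_scaleRoots, hd, h3, h1, hf.leadingCoeff, mul_one] at h2
  have hu : IsUnit ((-1 : A) ^ (f.natDegree * (f.natDegree - 1) / 2)) :=
    (isUnit_one.neg).pow _
  apply hu.mul_left_cancel
  rw [← h2]
  ring

end Jung_aux

/-- Orders of the coefficients when the discriminant is a power of `ξ` times a unit. -/
theorem jung_order {κ K : Type} [CommRing κ] [IsDomain κ] [Field K] [IsAlgClosed K] [CharZero K]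
    (ρ : κ →+* K) (F : Polynomial (PowerSeries κ)) (hF : F.Monic)
    (h1 : F.coeff (F.natDegree - 1) = 0)
    (e : ℕ) (U : PowerSeries κ) (hD : F.discr = PowerSeries.X ^ e * U)
    (hU : ρ (PowerSeries.constantCoeff U) ≠ 0)
    (h0 : ∀ j ≤ F.natDegree, (PowerSeries.X : PowerSeries K) ^ j ∣
      PowerSeries.map ρ (F.coeff (F.natDegree - j))) :
    ∀ j ≤ F.natDegree, (PowerSeries.X : PowerSeries κ) ^ j ∣ F.coeff (F.natDegree - j) := by
  classical
  have hcz : CharZero κ := by
    refine ⟨fun a b h => ?_⟩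
    have h2 := congrArg ρ h
    rw [map_natCast, map_natCast] at h2
    exact_mod_cast h2
  by_contra hcon
  push Not at hcon
  obtain ⟨j, hj, hjn⟩ := hcon
  have hj0 : j ≠ 0 := by
    rintro rfl
    exact hjn (by rw [pow_zero]; exact one_dvd _)
  set m := F.natDegree with hm
  have hmj : m - (m - j) = j := by omega
  have hcj : F.coeff (m - j) ≠ 0 := fun h => hjn (by rw [h]; exact dvd_zero _)
  obtain ⟨N, hN, p, G, hG, hGdeg, hGs, hG0, hGp, i₀, hi₀, hic⟩ :=
    Jung_slope hF ⟨m - j, by omega, hcj⟩
  rw [← hm] at hGdeg hGp hi₀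
  -- p < N
  have hpN : p < N := by
    have h2 : (F.coeff (m - j)).order.toNat < j := by
      by_contra hge
      push Not at hge
      apply hjn
      rw [PowerSeries.X_pow_dvd_iff]
      intro i hi
      apply PowerSeries.coeff_of_lt_order
      rw [← ENat.natCast_toNat (PowerSeries.order_finite_iff_ne_zero.2 hcj).ne]
      exact_mod_cast lt_of_lt_of_le hi hge
    have h3 := hGp (m - j) (by omega) hcj
    rw [hmj] at h3
    have h4 : p * j < N * j :=
      lt_of_le_of_lt h3 (Nat.mul_lt_mul_of_pos_left h2 (Nat.pos_of_ne_zero hN))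
    exact Nat.lt_of_mul_lt_mul_right h4
  have hGcoeff : ∀ i, PowerSeries.expand N hN (F.coeff i) =
      G.coeff i * (PowerSeries.X ^ p) ^ (m - i) := by
    intro i
    have h2 := congrArg (fun P => Polynomial.coeff P i) hGs
    simp only [Polynomial.coeff_scaleRoots, Polynomial.coeff_map, hGdeg] at h2
    exact h2.symm
  have hmpos : 0 < m := by omega
  -- over `K`
  have hρG : ∀ i < m, PowerSeries.constantCoeff (PowerSeries.map ρ (G.coeff i)) = 0 := by
    intro i hi
    have h2 := h0 (m - i) (by omega)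
    have e : m - (m - i) = i := by omega
    rw [e] at h2
    obtain ⟨q, hq⟩ := h2
    have h3 := congrArg (PowerSeries.map ρ) (hGcoeff i)
    rw [PowerSeries.map_expand, hq, map_mul, map_pow, PowerSeries.expand_X, map_mul, map_pow,
      map_pow, PowerSeries.map_X, ← pow_mul, ← pow_mul] at h3
    have h4 : (PowerSeries.X : PowerSeries K) ^ (p * (m - i) + 1) ∣
        PowerSeries.map ρ (G.coeff i) * PowerSeries.X ^ (p * (m - i)) := by
      rw [← h3]
      refine Dvd.dvd.mul_right (pow_dvd_pow _ ?_) _
      have h5 : p * (m - i) < N * (m - i) := Nat.mul_lt_mul_of_pos_right hpN (by omega)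
      omega
    rw [pow_succ, mul_comm (PowerSeries.map ρ (G.coeff i))] at h4
    rw [← PowerSeries.X_dvd_iff]
    exact (mul_dvd_mul_iff_left (pow_ne_zero _ PowerSeries.X_ne_zero)).1 h4
  have hmapρ : (G.map (PowerSeries.map ρ)).map (PowerSeries.constantCoeff (R := K)) =
      Polynomial.X ^ G.natDegree := by
    ext i
    rw [Polynomial.coeff_map, Polynomial.coeff_map, Polynomial.coeff_X_pow, hGdeg]
    by_cases hi : i = m
    · rw [if_pos hi, hi, ← hGdeg, Polynomial.coeff_natDegree, hG.leadingCoeff, map_one, map_one]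
    · rw [if_neg hi]
      rcases lt_or_gt_of_ne hi with h | h
      · exact hρG i h
      · rw [Polynomial.coeff_eq_zero_of_natDegree_lt (by omega), map_zero, map_zero]
  -- the discriminant
  have hU0 : PowerSeries.constantCoeff U ≠ 0 := fun h => hU (by rw [h, map_zero])
  have hcp : CharZero (PowerSeries κ) := by
    refine ⟨fun a b h => ?_⟩
    have h2 := congrArg (PowerSeries.constantCoeff (R := κ)) h
    rw [map_natCast, map_natCast] at h2
    exact_mod_cast h2
  have hd : (PowerSeries.X : PowerSeries κ) ^ (p * (m * (m - 1))) * G.discr =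
      PowerSeries.X ^ (N * e) * PowerSeries.expand N hN U := by
    have h2 := Jung_discr_scaleRoots hG (by rw [hGdeg]; exact hmpos)
      ((PowerSeries.X : PowerSeries κ) ^ p)
    rw [hGs, Jung_discr_map _ hF (by rw [← hm]; exact hmpos), hD, hGdeg, ← pow_mul] at h2
    rw [← h2]
    change PowerSeries.expand N hN (PowerSeries.X ^ e * U) =
      PowerSeries.X ^ (N * e) * PowerSeries.expand N hN U
    rw [map_mul, map_pow, PowerSeries.expand_X, ← pow_mul]
  have hle : p * (m * (m - 1)) ≤ N * e := by
    by_contra hlt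
    push Not at hlt
    have h2 : (PowerSeries.X : PowerSeries κ) ^ (N * e + 1) ∣
        PowerSeries.X ^ (N * e) * PowerSeries.expand N hN U := by
      rw [← hd]
      exact Dvd.dvd.mul_right (pow_dvd_pow _ hlt) _
    rw [pow_succ] at h2
    have h3 := (mul_dvd_mul_iff_left (pow_ne_zero _ PowerSeries.X_ne_zero)).1 h2
    rw [PowerSeries.X_dvd_iff, PowerSeries.constantCoeff_expand] at h3
    exact hU0 h3
  have hDG : G.discr = PowerSeries.X ^ (N * e - p * (m * (m - 1))) *
      PowerSeries.expand N hN U := by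
    apply mul_left_cancel₀ (pow_ne_zero (p * (m * (m - 1)))
      (PowerSeries.X_ne_zero (R := κ)))
    rw [hd, ← mul_assoc, ← pow_add, Nat.add_sub_cancel' hle]
  -- the generic specialisation
  have hι : Function.Injective
      ((algebraMap (FractionRing κ) (AlgebraicClosure (FractionRing κ))).comp
        (algebraMap κ (FractionRing κ))) := by
    rw [RingHom.coe_comp]
    exact (RingHom.injective _).comp (IsFractionRing.injective κ (FractionRing κ))
  have hcF : CharZero (FractionRing κ) := by
    refine ⟨fun a b h => ?_⟩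
    have h2 : algebraMap κ (FractionRing κ) (a : κ) = algebraMap κ (FractionRing κ) (b : κ) := by
      rw [map_natCast, map_natCast]; exact h
    exact_mod_cast IsFractionRing.injective κ (FractionRing κ) h2
  have hcΩ : CharZero (AlgebraicClosure (FractionRing κ)) := by
    refine ⟨fun a b h => ?_⟩
    have h2 : algebraMap (FractionRing κ) (AlgebraicClosure (FractionRing κ))
        (a : FractionRing κ) = algebraMap _ _ (b : FractionRing κ) := by
      rw [map_natCast, map_natCast]; exact h
    exact_mod_cast RingHom.injective _ h2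
  obtain ⟨c, hc⟩ := two_spec ρ _ hι G hG _ _ hDG
    (by rw [PowerSeries.constantCoeff_expand]; exact hU) hmapρ
  set ι := (algebraMap (FractionRing κ) (AlgebraicClosure (FractionRing κ))).comp
        (algebraMap κ (FractionRing κ)) with hιd
  have hcoef : ∀ i, ι (PowerSeries.constantCoeff (G.coeff i)) =
      ((Polynomial.X - Polynomial.C c) ^ m).coeff i := by
    intro i
    rw [← hGdeg, ← hc, Polynomial.coeff_map, Polynomial.coeff_map]
    rfl
  have hc0 : c = 0 := by
    have h2 := hcoef (m - 1)
    rw [hG0 (m - 1) h1, map_zero, map_zero, sub_eq_add_neg, ← Polynomial.C_neg,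
      Polynomial.coeff_X_add_C_pow] at h2
    have e1 : m - (m - 1) = 1 := by omega
    have e2 : m.choose (m - 1) = m := by
      rw [Nat.choose_symm_of_eq_add (show m = (m - 1) + 1 by omega), Nat.choose_one_right]
    rw [e1, e2, pow_one] at h2
    have h3 : ((m : ℕ) : AlgebraicClosure (FractionRing κ)) ≠ 0 := by
      exact_mod_cast hmpos.ne'
    rcases mul_eq_zero.1 h2.symm with h | h
    · exact neg_eq_zero.1 h
    · exact absurd h h3
  apply hic
  have h2 := hcoef i₀
  rw [hc0, Polynomial.C_0, sub_zero, Polynomial.coeff_X_pow, if_neg (by omega)] at h2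
  exact (map_eq_zero_iff ι hι).1 h2

end Pool.Agent.Helper38.EQ
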