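import Pool.Agent.Helper38.EQ.Slice
import Pool.Agent.Helper38.EQ.Orders
import Pool.Agent.Helper38.EQ.Jung

/-!
# EQ-P6 (key lemma in coordinates)

Proof.  Let `D = F.discr ∈ coordIdeal^e`, `D ∉ maximalIdeal^(e+1)`.
For `v : Fin n → K` let `ε_v` be the slice homomorphism of `exists_slice`.
(i) `h ∈ coordIdeal^l` implies `ξ^l ∣ ε_v h` (by the coefficient formula and
`mem_coordIdeal_pow_iff`).
(ii) `ε_v D = ξ^e * U_v`, and `constantCoeff (constantCoeff U_v) = p(v)`, where
`p(v) = ∑_{γ ∈ A.finsuppAntidiag e} coeff γ D * ∏ v^γ` is a polynomial in `v`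
(`MvPolynomial (Fin n) K`), not the zero polynomial: since `D ∉ maximalIdeal^(e+1)` some
coefficient `coeff γ D ≠ 0` with `∑ γ ≤ e`, and `D ∈ coordIdeal^e` gives `∑_{i∈A} γ i ≥ e`, so `γ`
is supported in `A` with sum `e`.
(iii) `h ∈ maximalIdeal^j` implies `ξ^j ∣ map ρ (ε_v h)` with `ρ = constantCoeff` (coefficients
with `β = 0`).
(iv) Fix `v` with `p(v) ≠ 0`.  `jung_order` with `κ = MvPowerSeries (Fin n) K`,
`ρ = constantCoeff`, applied to `F.map ε_v` (the discriminant commutes with ring homomorphisms on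
monic polynomials: prove it from `resultant_deriv` or from the definition by determinants, or for
`natDegree ≥ 1` via resultants) gives `ξ^j ∣ ε_v (F.coeff (m - j))`.
(v) Let `h = F.coeff (m-j)`; for `l < j` and `β` vanishing on `A` the polynomial
`q(v) = ∑_{γ ∈ A.finsuppAntidiag l} coeff (β+γ) h * ∏ v^γ` vanishes at all `v` with `p(v) ≠ 0`,
so `p q = 0` (`K` infinite, `MvPolynomial.funext`), `q = 0`, and all `coeff (β+γ) h = 0`.  Hence
`h ∈ coordIdeal^j` by `mem_coordIdeal_pow_iff`.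
-/

namespace Pool.Agent.Helper38.EQ

open MvPowerSeries

private theorem kc_discr_map {R S : Type} [CommRing R] [CommRing S] [Nontrivial S] (φ : R →+* S)
    (F : Polynomial R) (hF : F.Monic) (h0 : 0 < F.natDegree) :
    (F.map φ).discr = φ F.discr := by
  have hm : (F.map φ).natDegree = F.natDegree := hF.natDegree_map φ
  have h1 := Polynomial.resultant_deriv (f := F) (Polynomial.natDegree_pos_iff_degree_pos.1 h0)
  have h2 := Polynomial.resultant_deriv (f := F.map φ)
    (Polynomial.natDegree_pos_iff_degree_pos.1 (by rw [hm]; exact h0))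
  rw [hm, Polynomial.derivative_map, Polynomial.resultant_map_map, h1,
    (hF.map φ).leadingCoeff, hF.leadingCoeff, mul_one, mul_one, map_mul, map_pow, map_neg,
    map_one] at h2
  have h3 : IsUnit ((-1 : S) ^ (F.natDegree * (F.natDegree - 1) / 2)) :=
    (IsUnit.neg isUnit_one).pow _
  exact (h3.mul_left_cancel h2).symm

/-- the generic slice coefficient -/
private noncomputable def kcQ {n : ℕ} {K : Type} [Field K] (A : Finset (Fin n))
    (h : MvPowerSeries (Fin n) K) (β : Fin n →₀ ℕ) (l : ℕ) : MvPolynomial (Fin n) K :=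
  ∑ γ ∈ A.finsuppAntidiag l, MvPolynomial.monomial γ (coeff (β + γ) h)

private theorem kcQ_eval {n : ℕ} {K : Type} [Field K] (A : Finset (Fin n))
    (h : MvPowerSeries (Fin n) K) (β : Fin n →₀ ℕ) (l : ℕ) (v : Fin n → K) :
    MvPolynomial.eval v (kcQ A h β l) =
      ∑ γ ∈ A.finsuppAntidiag l, coeff (β + γ) h * ∏ i ∈ A, v i ^ γ i := by
  rw [kcQ, map_sum]
  refine Finset.sum_congr rfl fun γ hγ => ?_
  rw [MvPolynomial.eval_monomial]
  rw [Finset.mem_finsuppAntidiag] at hγ
  rw [Finsupp.prod_of_support_subset γ hγ.2 _ (fun i _ => pow_zero _)]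

private theorem kcQ_coeff {n : ℕ} {K : Type} [Field K] (A : Finset (Fin n))
    (h : MvPowerSeries (Fin n) K) (β : Fin n →₀ ℕ) (l : ℕ) (γ : Fin n →₀ ℕ)
    (hγ : γ ∈ A.finsuppAntidiag l) :
    MvPolynomial.coeff γ (kcQ A h β l) = coeff (β + γ) h := by
  classical
  rw [kcQ, MvPolynomial.coeff_sum, Finset.sum_eq_single_of_mem γ hγ]
  · rw [MvPolynomial.coeff_monomial, if_pos rfl]
  · intro b _ hb
    rw [MvPolynomial.coeff_monomial, if_neg hb]

private theorem kc_dvd {n : ℕ} {K : Type} [Field K] (A : Finset (Fin n)) (v : Fin n → K)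
    (ε : MvPowerSeries (Fin n) K →+* PowerSeries (MvPowerSeries (Fin n) K))
    (hε : ∀ (h : MvPowerSeries (Fin n) K) (l : ℕ) (β : Fin n →₀ ℕ),
        coeff β (PowerSeries.coeff l (ε h)) =
          if ∀ i ∈ A, β i = 0 then
            ∑ γ ∈ A.finsuppAntidiag l, coeff (β + γ) h * ∏ i ∈ A, v i ^ γ i
          else 0) (e : ℕ) (h : MvPowerSeries (Fin n) K) (hh : h ∈ coordIdeal K A ^ e) :
    PowerSeries.X ^ e ∣ ε h := by
  rw [PowerSeries.X_pow_dvd_iff]
  intro l hl
  ext β
  rw [hε, map_zero]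
  split_ifs with hβ
  · refine Finset.sum_eq_zero fun γ hγ => ?_
    rw [Finset.mem_finsuppAntidiag] at hγ
    rw [(mem_coordIdeal_pow_iff A e h).1 hh, zero_mul]
    have h1 : ∑ i ∈ A, (β + γ) i = ∑ i ∈ A, γ i := by
      refine Finset.sum_congr rfl fun i hi => ?_
      rw [Finsupp.add_apply, hβ i hi, zero_add]
    rw [h1, hγ.1]
    exact hl
  · rfl

private theorem kc_dvd_map {n : ℕ} {K : Type} [Field K] (A : Finset (Fin n)) (v : Fin n → K)
    (ε : MvPowerSeries (Fin n) K →+* PowerSeries (MvPowerSeries (Fin n) K))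
    (hε : ∀ (h : MvPowerSeries (Fin n) K) (l : ℕ) (β : Fin n →₀ ℕ),
        coeff β (PowerSeries.coeff l (ε h)) =
          if ∀ i ∈ A, β i = 0 then
            ∑ γ ∈ A.finsuppAntidiag l, coeff (β + γ) h * ∏ i ∈ A, v i ^ γ i
          else 0) (j : ℕ) (h : MvPowerSeries (Fin n) K)
    (hh : h ∈ IsLocalRing.maximalIdeal (MvPowerSeries (Fin n) K) ^ j) :
    (PowerSeries.X : PowerSeries K) ^ j ∣
      PowerSeries.map (MvPowerSeries.constantCoeff (σ := Fin n) (R := K)) (ε h) := by
  rw [PowerSeries.X_pow_dvd_iff]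
  intro l hl
  rw [PowerSeries.coeff_map, ← MvPowerSeries.coeff_zero_eq_constantCoeff_apply, hε]
  rw [if_pos (fun i _ => Finsupp.zero_apply)]
  refine Finset.sum_eq_zero fun γ hγ => ?_
  rw [Finset.mem_finsuppAntidiag] at hγ
  rw [(mem_maximalIdeal_pow_iff j h).1 hh, zero_mul]
  rw [zero_add, ← Finset.sum_subset (Finset.subset_univ A) (fun i _ hi => ?_), hγ.1]
  · exact hl
  · by_contra hne
    exact hi (hγ.2 (Finsupp.mem_support_iff.2 hne))

private theorem kc_p_ne {n : ℕ} {K : Type} [Field K] (A : Finset (Fin n))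
    (D : MvPowerSeries (Fin n) K) (e : ℕ) (hD : D ∈ coordIdeal K A ^ e)
    (hD' : D ∉ IsLocalRing.maximalIdeal (MvPowerSeries (Fin n) K) ^ (e + 1)) :
    kcQ A D 0 e ≠ 0 := by
  intro hp
  apply hD'
  rw [mem_maximalIdeal_pow_iff]
  intro α hα
  by_cases h1 : ∑ i ∈ A, α i < e
  · exact (mem_coordIdeal_pow_iff A e D).1 hD α h1
  · have h2 : (∑ i, α i) = (∑ i ∈ A, α i) + ∑ i ∈ Finset.univ \ A, α i := by
      rw [add_comm]
      exact (Finset.sum_sdiff (Finset.subset_univ A)).symm
    have h3 : ∑ i ∈ Finset.univ \ A, α i = 0 := by omega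
    have h4 : ∑ i ∈ A, α i = e := by omega
    have h5 : α ∈ A.finsuppAntidiag e := by
      rw [Finset.mem_finsuppAntidiag]
      refine ⟨h4, ?_⟩
      intro i hi
      by_contra hiA
      exact (Finsupp.mem_support_iff.1 hi) (Finset.sum_eq_zero_iff.1 h3 i
        (Finset.mem_sdiff.2 ⟨Finset.mem_univ i, hiA⟩))
    have h6 := kcQ_coeff A D 0 e α h5
    rw [hp, MvPolynomial.coeff_zero, zero_add] at h6
    exact h6.symm

theorem key_coord {n : ℕ} {K : Type} [Field K] [IsAlgClosed K] [CharZero K]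
    (A : Finset (Fin n)) (F : Polynomial (MvPowerSeries (Fin n) K)) (hF : F.Monic)
    (h1 : F.coeff (F.natDegree - 1) = 0)
    (h0 : ∀ j ≤ F.natDegree, F.coeff (F.natDegree - j) ∈
      IsLocalRing.maximalIdeal (MvPowerSeries (Fin n) K) ^ j)
    (e : ℕ) (hD : F.discr ∈ coordIdeal K A ^ e)
    (hD' : F.discr ∉ IsLocalRing.maximalIdeal (MvPowerSeries (Fin n) K) ^ (e + 1)) :
    ∀ j ≤ F.natDegree, F.coeff (F.natDegree - j) ∈ coordIdeal K A ^ j := by
  intro j hj
  have hm0 : 0 < F.natDegree := by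
    rcases Nat.eq_zero_or_pos F.natDegree with h | h
    · exfalso
      rw [h, Nat.zero_sub, ← h] at h1
      rw [Polynomial.coeff_natDegree, hF.leadingCoeff] at h1
      exact one_ne_zero h1
    · exact h
  have hp := kc_p_ne A F.discr e hD hD'
  -- step (iv)
  have key : ∀ v : Fin n → K, MvPolynomial.eval v (kcQ A F.discr 0 e) ≠ 0 →
      ∀ (l : ℕ) (β : Fin n →₀ ℕ), l < j → (∀ i ∈ A, β i = 0) →
      MvPolynomial.eval v (kcQ A (F.coeff (F.natDegree - j)) β l) = 0 := by
    intro v hv l β hl hβ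
    obtain ⟨ε, hε⟩ := exists_slice (K := K) A v
    have hmap : (F.map ε).natDegree = F.natDegree := hF.natDegree_map ε
    obtain ⟨U, hU⟩ := kc_dvd A v ε hε e F.discr hD
    have hD2 : (F.map ε).discr = PowerSeries.X ^ e * U := by
      rw [kc_discr_map ε F hF hm0, hU]
    have hU2 : (MvPowerSeries.constantCoeff (σ := Fin n) (R := K))
        (PowerSeries.constantCoeff U) ≠ 0 := by
      have h2 : PowerSeries.coeff e (ε F.discr) = PowerSeries.constantCoeff U := by
        rw [hU, ← PowerSeries.coeff_zero_eq_constantCoeff_apply]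
        have := PowerSeries.coeff_X_pow_mul U e 0
        rwa [zero_add] at this
      rw [← h2, ← MvPowerSeries.coeff_zero_eq_constantCoeff_apply, hε,
        if_pos (fun i _ => Finsupp.zero_apply),
        ← kcQ_eval]
      exact hv
    haveI : IsDomain (MvPowerSeries (Fin n) K) := NoZeroDivisors.to_isDomain _
    have hj2 := jung_order (MvPowerSeries.constantCoeff (σ := Fin n) (R := K)) (F.map ε)
      (hF.map ε) (by rw [hmap, Polynomial.coeff_map, h1, map_zero]) e U hD2 hU2
      (by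
        intro j' hj'
        rw [hmap] at hj' ⊢
        rw [Polynomial.coeff_map]
        exact kc_dvd_map A v ε hε j' _ (h0 j' hj')) j (by rw [hmap]; exact hj)
    rw [hmap, Polynomial.coeff_map, PowerSeries.X_pow_dvd_iff] at hj2
    have h3 := hj2 l hl
    have h4 := hε (F.coeff (F.natDegree - j)) l β
    rw [h3, map_zero, if_pos hβ, ← kcQ_eval] at h4
    exact h4.symm
  have key2 : ∀ (l : ℕ) (β : Fin n →₀ ℕ), l < j → (∀ i ∈ A, β i = 0) →
      kcQ A (F.coeff (F.natDegree - j)) β l = 0 := by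
    intro l β hl hβ
    have h2 : kcQ A F.discr 0 e * kcQ A (F.coeff (F.natDegree - j)) β l = 0 := by
      apply MvPolynomial.funext
      intro v
      rw [map_mul, map_zero]
      by_cases hv : MvPolynomial.eval v (kcQ A F.discr 0 e) = 0
      · rw [hv, zero_mul]
      · rw [key v hv l β hl hβ, mul_zero]
    exact (mul_eq_zero.1 h2).resolve_left hp
  rw [mem_coordIdeal_pow_iff]
  intro α hα
  classical
  have h2 := key2 (∑ i ∈ A, α i) (α.filter (fun i => ¬ i ∈ A)) hα
    (fun i hi => Finsupp.filter_apply_neg _ _ (fun h => h hi))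
  have h3 : α.filter (fun i => i ∈ A) ∈ A.finsuppAntidiag (∑ i ∈ A, α i) := by
    rw [Finset.mem_finsuppAntidiag]
    constructor
    · refine Finset.sum_congr rfl fun i hi => ?_
      exact Finsupp.filter_apply_pos _ _ hi
    · intro i hi
      rw [Finsupp.support_filter, Finset.mem_filter] at hi
      exact hi.2
  have h4 := kcQ_coeff A (F.coeff (F.natDegree - j)) (α.filter (fun i => ¬ i ∈ A)) _ _ h3
  rw [h2, MvPolynomial.coeff_zero, add_comm, Finsupp.filter_add_filter_not] at h4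
  exact h4.symm

end Pool.Agent.Helper38.EQ
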