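import Mathlib

/-! Coefficients of translated polynomials. -/

namespace Pool.Agent.Helper38.EQ

open Polynomial

theorem taylor_coeff_sum {R : Type} [CommRing R] (F : Polynomial R) (r : R) (k : ℕ) :
    (taylor r F).coeff k =
      ∑ i ∈ Finset.range (F.natDegree + 1), ((i.choose k : ℕ) : R) * F.coeff i * r ^ (i - k) := by
  rw [taylor_coeff, hasseDeriv_apply, Polynomial.sum_over_range, eval_finsetSum]
  · refine Finset.sum_congr rfl fun i _ => ?_
    rw [eval_monomial]
  · intro i; simp

theorem taylor_coeff_mem {R : Type} [CommRing R] (I : Ideal R) (F : Polynomial R) (r : R)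
    (hr : r ∈ I) (h : ∀ j ≤ F.natDegree, F.coeff (F.natDegree - j) ∈ I ^ j) :
    ∀ j ≤ F.natDegree, (taylor r F).coeff (F.natDegree - j) ∈ I ^ j := by
  intro j hj
  rw [taylor_coeff_sum]
  refine Ideal.sum_mem _ fun i hi => ?_
  have hi' : i ≤ F.natDegree := Nat.lt_succ_iff.mp (Finset.mem_range.mp hi)
  by_cases hk : i < F.natDegree - j
  · rw [Nat.choose_eq_zero_of_lt hk]; simp
  · push Not at hk
    have h1 : F.coeff i ∈ I ^ (F.natDegree - i) := by
      have := h (F.natDegree - i) (Nat.sub_le _ _)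
      rwa [Nat.sub_sub_self hi'] at this
    have h2 : r ^ (i - (F.natDegree - j)) ∈ I ^ (i - (F.natDegree - j)) :=
      Ideal.pow_mem_pow hr _
    have h3 := Ideal.mul_mem_mul h1 h2
    rw [← pow_add] at h3
    have h4 : F.natDegree - i + (i - (F.natDegree - j)) = j := by omega
    rw [h4] at h3
    rw [mul_assoc]
    exact Ideal.mul_mem_left _ _ h3

theorem taylor_coeff_pred {R : Type} [CommRing R] (F : Polynomial R) (hF : F.Monic)
    (hpos : 0 < F.natDegree) (r : R) :
    (taylor r F).coeff (F.natDegree - 1) = F.coeff (F.natDegree - 1) + (F.natDegree : R) * r := by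
  rw [taylor_coeff_sum, Finset.sum_range_succ]
  obtain ⟨m, hm⟩ : ∃ m, F.natDegree = m + 1 := ⟨F.natDegree - 1, by omega⟩
  have h1 : F.coeff (m + 1) = 1 := by rw [← hm]; exact hF.coeff_natDegree
  rw [hm, Finset.sum_range_succ, Finset.sum_eq_zero]
  · simp [h1]
  · intro i hi
    rw [Nat.choose_eq_zero_of_lt (by simpa using Finset.mem_range.mp hi)]; simp

end Pool.Agent.Helper38.EQ
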