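import Pool.Agent.Helper38.EQ.Orders

/-!
# EQ-P4d

Let `v` be the order (`MvPowerSeries.order`) and `v_A` the weighted order with weights `1` on `A`
and `0` elsewhere; both are additive (`order_mul`, `weightedOrder_mul`), `v_A ≤ v`, and by `Orders`
`h ∈ maximalIdeal ^ m ↔ m ≤ v h`, `h ∈ coordIdeal K A ^ m ↔ m ≤ v_A h`.
`hg` gives `v_A g = v g`.  Write `g^N = D * D'`; `g^N ≠ 0`, so
`v_A D + v_A D' = v_A (g^N) = v (g^N) = v D + v D'` is finite and `v_A D ≤ v D`, `v_A D' ≤ v D'`,
so `v_A D = v D`.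
-/

namespace Pool.Agent.Helper38.EQ

open MvPowerSeries

/-- The weights: `1` on `A` and `0` elsewhere. -/
private def wt {n : ℕ} (A : Finset (Fin n)) : Fin n → ℕ := fun i => if i ∈ A then 1 else 0

private theorem weight_wt {n : ℕ} (A : Finset (Fin n)) (α : Fin n →₀ ℕ) :
    Finsupp.weight (wt A) α = ∑ i ∈ A, α i := by
  classical
  rw [Finsupp.weight_apply, Finsupp.sum_fintype]
  · have : ∀ i, α i • wt A i = if i ∈ A then α i else 0 := by
      intro i
      unfold wt
      split_ifs <;> simp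
    rw [Finset.sum_congr rfl fun i _ => this i, Finset.sum_ite_mem, Finset.univ_inter]
  · intro i
    simp

private theorem le_wo_iff {n : ℕ} {K : Type} [Field K] (A : Finset (Fin n)) (e : ℕ)
    (h : MvPowerSeries (Fin n) K) :
    (e : ℕ∞) ≤ weightedOrder (wt A) h ↔
      ∀ α : Fin n →₀ ℕ, (∑ i ∈ A, α i) < e → coeff α h = 0 := by
  constructor
  · intro hle α hα
    apply coeff_eq_zero_of_lt_weightedOrder (wt A)
    rw [weight_wt]
    exact lt_of_lt_of_le (by exact_mod_cast hα) hle
  · intro hc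
    apply le_weightedOrder
    intro d hd
    rw [weight_wt] at hd
    exact hc d (by exact_mod_cast hd)

private theorem mem_coord_iff {n : ℕ} {K : Type} [Field K] (A : Finset (Fin n)) (e : ℕ)
    (h : MvPowerSeries (Fin n) K) :
    h ∈ coordIdeal K A ^ e ↔ (e : ℕ∞) ≤ weightedOrder (wt A) h :=
  (mem_coordIdeal_pow_iff A e h).trans (le_wo_iff A e h).symm

private theorem mem_max_iff {n : ℕ} {K : Type} [Field K] (e : ℕ)
    (h : MvPowerSeries (Fin n) K) :
    h ∈ IsLocalRing.maximalIdeal (MvPowerSeries (Fin n) K) ^ e ↔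
      (e : ℕ∞) ≤ weightedOrder (wt Finset.univ) h :=
  (mem_maximalIdeal_pow_iff e h).trans (le_wo_iff Finset.univ e h).symm

private theorem wo_le {n : ℕ} {K : Type} [Field K] (A : Finset (Fin n))
    (h : MvPowerSeries (Fin n) K) :
    weightedOrder (wt A) h ≤ weightedOrder (wt Finset.univ) h := by
  apply le_weightedOrder
  intro d hd
  apply coeff_eq_zero_of_lt_weightedOrder (wt A)
  refine lt_of_le_of_lt ?_ hd
  rw [weight_wt, weight_wt]
  exact_mod_cast Finset.sum_le_sum_of_subset (Finset.subset_univ A)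

/-- Equimultiplicity passes from the radical to the discriminant. -/
theorem equimult_transfer {n : ℕ} {K : Type} [Field K] (A : Finset (Fin n))
    (g D : MvPowerSeries (Fin n) K) (hg0 : g ≠ 0) (N : ℕ) (hN : D ∣ g ^ N)
    (hg : ∀ m, g ∈ IsLocalRing.maximalIdeal (MvPowerSeries (Fin n) K) ^ m →
      g ∈ coordIdeal K A ^ m) (m : ℕ)
    (hm : D ∈ IsLocalRing.maximalIdeal (MvPowerSeries (Fin n) K) ^ m) :
    D ∈ coordIdeal K A ^ m := by
  obtain ⟨D', hD'⟩ := hN
  have hgN : g ^ N ≠ 0 := pow_ne_zero N hg0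
  have hD0 : D ≠ 0 := by
    rintro rfl
    rw [zero_mul] at hD'
    exact hgN hD'
  have hD'0 : D' ≠ 0 := by
    rintro rfl
    rw [mul_zero] at hD'
    exact hgN hD'
  have key : ∀ h : MvPowerSeries (Fin n) K, h ≠ 0 → ∀ B : Finset (Fin n),
      ∃ k : ℕ, weightedOrder (wt B) h = k := by
    intro h hh B
    have := (weightedOrder_eq_top_iff (wt B) (f := h)).not.mpr hh
    exact ⟨_, (ENat.natCast_toNat this).symm⟩
  -- the orders of g agree
  have hgA : weightedOrder (wt A) g = weightedOrder (wt Finset.univ) g := by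
    obtain ⟨k, hk⟩ := key g hg0 Finset.univ
    refine le_antisymm (wo_le A g) ?_
    rw [hk]
    exact (mem_coord_iff A k g).1 (hg k ((mem_max_iff k g).2 hk.ge))
  have hpow : ∀ B : Finset (Fin n), ∀ M : ℕ,
      weightedOrder (wt B) (g ^ M) = M * weightedOrder (wt B) g := by
    intro B M
    induction M with
    | zero =>
      simp only [pow_zero, Nat.cast_zero, zero_mul]
      have h1 := weightedOrder_mul (wt B) (1 : MvPowerSeries (Fin n) K) 1
      obtain ⟨k, hk⟩ := key 1 one_ne_zero B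
      rw [one_mul, hk] at h1
      rw [hk]
      have h2 : k = k + k := by exact_mod_cast h1
      have : k = 0 := by omega
      simp [this]
    | succ M ih =>
      rw [pow_succ, weightedOrder_mul, ih]
      push_cast
      rw [add_mul, one_mul]
  have e1 : weightedOrder (wt A) (g ^ N) = weightedOrder (wt Finset.univ) (g ^ N) := by
    rw [hpow, hpow, hgA]
  rw [hD', weightedOrder_mul, weightedOrder_mul] at e1
  obtain ⟨a, ha⟩ := key D hD0 A
  obtain ⟨a', ha'⟩ := key D' hD'0 A
  obtain ⟨b, hb⟩ := key D hD0 Finset.univ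
  obtain ⟨b', hb'⟩ := key D' hD'0 Finset.univ
  have l1 := wo_le A D
  have l2 := wo_le A D'
  rw [ha, ha', hb, hb'] at e1
  rw [ha, hb] at l1
  rw [ha', hb'] at l2
  have f1 : a + a' = b + b' := by exact_mod_cast e1
  have f2 : a ≤ b := by exact_mod_cast l1
  have f3 : a' ≤ b' := by exact_mod_cast l2
  have f4 : a = b := by omega
  rw [mem_coord_iff, ha, f4, ← hb]
  exact (mem_max_iff m D).1 hm

end Pool.Agent.Helper38.EQ
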