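import Pool.Agent.Helper38.EQ.Smooth
import Pool.Agent.Helper38.EQ.KeyCoord
import Pool.Agent.Helper38.EQ.Transfer
import Pool.Agent.Helper38.EQ.Discr
import Pool.Agent.Helper38.EQ.TaylorMem

/-! The key lemma for a smooth germ in arbitrary coordinates. -/

namespace Pool.Agent.Helper38.EQ

open MvPowerSeries

theorem algEquiv_mem_maximalIdeal_pow {R S : Type} [CommRing R] [CommRing S] [IsLocalRing R]
    [IsLocalRing S] (e : R ≃+* S) (m : ℕ) (h : R) :
    e h ∈ IsLocalRing.maximalIdeal S ^ m ↔ h ∈ IsLocalRing.maximalIdeal R ^ m := by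
  have h1 : (IsLocalRing.maximalIdeal R).map (e : R →+* S) = IsLocalRing.maximalIdeal S :=
    IsLocalRing.map_ringEquiv_maximalIdeal e
  have h2 : (IsLocalRing.maximalIdeal R ^ m).map (e : R →+* S) =
      IsLocalRing.maximalIdeal S ^ m := by
    rw [Ideal.map_pow, h1]
  rw [← h2]
  constructor
  · intro hh
    have h3 := Ideal.mem_map_of_mem (e.symm : S →+* R) hh
    rw [Ideal.map_map] at h3
    simpa using h3
  · intro hh
    exact Ideal.mem_map_of_mem (e : R →+* S) hh

theorem mem_map_algEquiv {K R S : Type} [Field K] [CommRing R] [CommRing S] [Algebra K R]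
    [Algebra K S] (e : R ≃ₐ[K] S) (I : Ideal R) (h : R) :
    e h ∈ I.map e ↔ h ∈ I := by
  have h1 : I.map e = I.map (e.toRingEquiv : R →+* S) := rfl
  rw [h1]
  constructor
  · intro hh
    obtain ⟨x, hx, hxe⟩ := (Ideal.mem_map_of_equiv e.toRingEquiv _).mp hh
    have : x = h := e.injective hxe
    exact this ▸ hx
  · intro hh
    exact (Ideal.mem_map_of_equiv e.toRingEquiv _).mpr ⟨h, hh, rfl⟩

instance isDomain_mvPowerSeries {n : ℕ} {K : Type} [Field K] :
    IsDomain (MvPowerSeries (Fin n) K) := NoZeroDivisors.to_isDomain _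

instance charZero_mvPowerSeries {n : ℕ} {K : Type} [Field K] [CharZero K] :
    CharZero (MvPowerSeries (Fin n) K) :=
  ⟨fun a b h => by
    have := congrArg (constantCoeff (σ := Fin n) (R := K)) h
    rw [map_natCast, map_natCast] at this
    exact_mod_cast this⟩

theorem key_smooth {n : ℕ} {K : Type} [Field K] [IsAlgClosed K] [CharZero K]
    (A : Finset (Fin n)) (b : Ideal (MvPowerSeries (Fin n) K)) (hb : SmoothIdeal A b)
    (F : Polynomial (MvPowerSeries (Fin n) K)) (hF : F.Monic) (hpos : 0 < F.natDegree)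
    (h0 : ∀ j ≤ F.natDegree, F.coeff (F.natDegree - j) ∈
      IsLocalRing.maximalIdeal (MvPowerSeries (Fin n) K) ^ j)
    (g : MvPowerSeries (Fin n) K) (hg0 : g ≠ 0) (N : ℕ) (hN : F.discr ∣ g ^ N)
    (hg : ∀ m, g ∈ IsLocalRing.maximalIdeal (MvPowerSeries (Fin n) K) ^ m → g ∈ b ^ m)
    (r : MvPowerSeries (Fin n) K)
    (hr : (F.natDegree : MvPowerSeries (Fin n) K) * r = - F.coeff (F.natDegree - 1)) :
    ∀ j ≤ F.natDegree, (Polynomial.taylor r F).coeff (F.natDegree - j) ∈ b ^ j := by
  obtain ⟨τ, rfl⟩ := hb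
  have hrm : r ∈ IsLocalRing.maximalIdeal (MvPowerSeries (Fin n) K) := by
    have h1 := h0 1 hpos
    rw [pow_one] at h1
    have h2 : constantCoeff (F.coeff (F.natDegree - 1)) = 0 := by
      have := (mem_maximalIdeal_pow_iff 1 _).mp (by simpa using h1) 0 (by simp)
      simpa using this
    have h3 : constantCoeff r = 0 := by
      have := congrArg constantCoeff hr
      rw [map_mul, map_neg, h2, neg_zero, map_natCast] at this
      rcases mul_eq_zero.mp this with h | h
      · exact absurd h (by exact_mod_cast hpos.ne')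
      · exact h
    have := (mem_maximalIdeal_pow_iff (n := n) (K := K) 1 r).mpr (by
      intro α hα
      have : α = 0 := by
        ext i
        have : ∑ i, α i = 0 := by omega
        simpa using Finset.sum_eq_zero_iff.mp this i (Finset.mem_univ i)
      subst this
      simpa using h3)
    simpa using this
  set s : MvPowerSeries (Fin n) K →+* MvPowerSeries (Fin n) K :=
    (τ.symm : MvPowerSeries (Fin n) K →+* MvPowerSeries (Fin n) K) with hs
  have hsτ : ∀ h, s (τ h) = h := fun h => by simp [hs]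
  have hτs : ∀ h, τ (s h) = h := fun h => by simp [hs]
  set G := (Polynomial.taylor r F).map s with hG
  have hTm : (Polynomial.taylor r F).Monic := by
    rw [Polynomial.Monic, Polynomial.leadingCoeff_taylor]; exact hF
  have hGm : G.Monic := hTm.map s
  have hGd : G.natDegree = F.natDegree := by
    rw [hG, hTm.natDegree_map, Polynomial.natDegree_taylor]
  have hs𝔪 : ∀ (m : ℕ) (h : MvPowerSeries (Fin n) K),
      s h ∈ IsLocalRing.maximalIdeal (MvPowerSeries (Fin n) K) ^ m ↔
        h ∈ IsLocalRing.maximalIdeal (MvPowerSeries (Fin n) K) ^ m := fun m h =>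
    algEquiv_mem_maximalIdeal_pow (τ.symm.toRingEquiv) m h
  have hsb : ∀ (m : ℕ) (h : MvPowerSeries (Fin n) K),
      s h ∈ coordIdeal K A ^ m ↔ h ∈ ((coordIdeal K A).map τ) ^ m := by
    intro m h
    have h1 : ((coordIdeal K A).map τ) ^ m = (coordIdeal K A ^ m).map τ := by
      rw [Ideal.map_pow]
    rw [h1]
    conv_rhs => rw [← hτs h]
    rw [mem_map_algEquiv]
  have hd1 : G.discr = s F.discr := by
    rw [hG, discr_map s _ hTm (by rw [Polynomial.natDegree_taylor]; exact hpos),
      discr_taylor F hF hpos r]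
  have hD0 : G.discr ≠ 0 := by
    rw [hd1]
    intro h
    have h1 : F.discr = 0 := by
      have := congrArg τ h
      rwa [hτs, map_zero] at this
    rw [h1] at hN
    exact hg0 (eq_zero_of_pow_eq_zero (zero_dvd_iff.mp hN))
  have hsg0 : s g ≠ 0 := by
    intro h
    apply hg0
    have := congrArg τ h
    rwa [hτs, map_zero] at this
  have hdvd : G.discr ∣ (s g) ^ N := by
    rw [hd1, ← map_pow]
    exact map_dvd s hN
  have htr : ∀ m, G.discr ∈ IsLocalRing.maximalIdeal (MvPowerSeries (Fin n) K) ^ m →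
      G.discr ∈ coordIdeal K A ^ m := fun m hm =>
    equimult_transfer A (s g) G.discr hsg0 N hdvd (fun m' hm' => by
      rw [hsb]
      exact hg m' ((hs𝔪 m' g).mp hm')) m hm
  obtain ⟨e, he1, he2⟩ : ∃ e, G.discr ∈
      IsLocalRing.maximalIdeal (MvPowerSeries (Fin n) K) ^ e ∧
      G.discr ∉ IsLocalRing.maximalIdeal (MvPowerSeries (Fin n) K) ^ (e + 1) := by
    by_contra hcon
    push Not at hcon
    have hall : ∀ e, G.discr ∈ IsLocalRing.maximalIdeal (MvPowerSeries (Fin n) K) ^ e := by
      intro e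
      induction e with
      | zero => simp
      | succ e ih => exact hcon e ih
    apply hD0
    ext α
    have := (mem_maximalIdeal_pow_iff _ _).mp (hall (∑ i, α i + 1)) α (Nat.lt_succ_self _)
    simpa using this
  have hkey := key_coord A G hGm (by
      rw [hGd, hG, Polynomial.coeff_map, taylor_coeff_pred F hF hpos r, hr]
      simp) (by
      intro j hj
      rw [hGd] at hj ⊢
      rw [hG, Polynomial.coeff_map, hs𝔪]
      exact taylor_coeff_mem _ F r hrm h0 j hj) e (htr e he1) he2
  intro j hj
  have := hkey j (by rw [hGd]; exact hj)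
  rw [hGd, hG, Polynomial.coeff_map, hsb] at this
  exact this

end Pool.Agent.Helper38.EQ
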