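import Pool.Agent.Helper38.EQ.Orders

/-!
# EQ-Z1a

The maximal ideal of `MvPowerSeries (Fin d) Λ` consists of the series without constant term, and
`maximalIdeal ^ e` of those with vanishing coefficients in degrees `< e` (`mem_maximalIdeal_pow_iff`).
Hausdorff: clear.  Precomplete: define the limit coefficient by coefficient.  For
`PowerSeries (MvPowerSeries (Fin d) Λ)` transport by `finSuccEquiv Λ d` (an isomorphism of rings maps
the maximal ideal onto the maximal ideal).
-/

namespace Pool.Agent.Helper38.EQ

open MvPowerSeries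

theorem AdicComplete_smodEq {A : Type} [CommRing A] (I : Ideal A) (n : ℕ) (x y : A) :
    x ≡ y [SMOD (I ^ n • ⊤ : Submodule A A)] ↔ x - y ∈ I ^ n := by
  rw [SModEq.sub_mem, smul_eq_mul, Ideal.mul_top]

/-- The ring of power series is complete for its maximal ideal (needed for Weierstrass
preparation over it). -/
theorem isAdicComplete_mvPowerSeries (d : ℕ) (Λ : Type) [Field Λ] :
    IsAdicComplete (IsLocalRing.maximalIdeal (MvPowerSeries (Fin d) Λ))
      (MvPowerSeries (Fin d) Λ) := by
  refine { haus' := ?_, prec' := ?_ }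
  · intro x hx
    ext α
    have h1 := (AdicComplete_smodEq _ _ _ _).1 (hx ((∑ i, α i) + 1))
    rw [sub_zero, mem_maximalIdeal_pow_iff] at h1
    rw [h1 α (Nat.lt_succ_self _), map_zero]
  · intro f hf
    refine ⟨fun α => coeff α (f ((∑ i, α i) + 1)), fun n => ?_⟩
    rw [AdicComplete_smodEq, mem_maximalIdeal_pow_iff]
    intro α hα
    have h1 := (AdicComplete_smodEq _ _ _ _).1 (hf (m := (∑ i, α i) + 1) (n := n) hα)
    rw [mem_maximalIdeal_pow_iff] at h1
    have h2 := h1 α (Nat.lt_succ_self _)
    rw [map_sub, sub_eq_zero] at h2 ⊢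
    exact h2.symm

theorem AdicComplete_equiv {A B : Type} [CommRing A] [IsLocalRing A] [CommRing B] [IsLocalRing B]
    (e : A ≃+* B) (h : IsAdicComplete (IsLocalRing.maximalIdeal A) A) :
    IsAdicComplete (IsLocalRing.maximalIdeal B) B := by
  have hm : Ideal.map e (IsLocalRing.maximalIdeal A) = IsLocalRing.maximalIdeal B := by
    ext b
    rw [Ideal.mem_map_of_equiv]
    constructor
    · rintro ⟨a, ha, rfl⟩
      rw [IsLocalRing.mem_maximalIdeal, mem_nonunits_iff] at ha ⊢
      intro hu
      apply ha
      have := hu.map e.symm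
      simpa using this
    · intro hb
      refine ⟨e.symm b, ?_, by simp⟩
      rw [IsLocalRing.mem_maximalIdeal, mem_nonunits_iff] at hb ⊢
      intro hu
      apply hb
      have := hu.map e
      simpa using this
  have hp : ∀ (n : ℕ) (a : A), e a ∈ IsLocalRing.maximalIdeal B ^ n ↔
      a ∈ IsLocalRing.maximalIdeal A ^ n := by
    intro n a
    rw [← hm, ← Ideal.map_pow, Ideal.mem_map_of_equiv]
    constructor
    · rintro ⟨a', ha', h⟩
      rwa [← e.injective h]
    · intro ha
      exact ⟨a, ha, rfl⟩
  refine { haus' := ?_, prec' := ?_ }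
  · intro x hx
    have h0 : e.symm x = 0 := by
      apply h.haus'
      intro n
      rw [AdicComplete_smodEq, sub_zero, ← hp n, e.apply_symm_apply]
      have h1 := (AdicComplete_smodEq _ _ _ _).1 (hx n)
      rwa [sub_zero] at h1
    have := congrArg e h0
    rwa [e.apply_symm_apply, map_zero] at this
  · intro f hf
    obtain ⟨L, hL⟩ := h.prec' (fun n => e.symm (f n)) (by
      intro m n hmn
      rw [AdicComplete_smodEq, ← hp m, map_sub, e.apply_symm_apply, e.apply_symm_apply]
      exact (AdicComplete_smodEq _ _ _ _).1 (hf hmn))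
    refine ⟨e L, fun n => ?_⟩
    have h1 := (AdicComplete_smodEq _ _ _ _).1 (hL n)
    rw [← hp n, map_sub, e.apply_symm_apply] at h1
    exact (AdicComplete_smodEq _ _ _ _).2 h1

theorem isAdicComplete_powerSeries (d : ℕ) (Λ : Type) [Field Λ] :
    IsAdicComplete (IsLocalRing.maximalIdeal (PowerSeries (MvPowerSeries (Fin d) Λ)))
      (PowerSeries (MvPowerSeries (Fin d) Λ)) :=
  AdicComplete_equiv (finSuccEquiv Λ d).toRingEquiv (isAdicComplete_mvPowerSeries (d + 1) Λ)

end Pool.Agent.Helper38.EQ
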