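import Pool.Agent.Helper38.EQ.Stmt

/-! Equivalence of the definitions of `Stmt.lean` with those of `Defs.lean`. -/

namespace Pool.Agent.Helper38.EQ

open MvPowerSeries

theorem EqChain.toEqLen {B : BasisClass} {k n : ℕ} {K : Type} [Field K]
    {f : MvPowerSeries (Fin n) K} {I : Ideal (MvPowerSeries (Fin n) K)}
    (h : EqChain B k n K f I) : EqLen B k n K f I := by
  induction h with
  | simple n K f I hI h1 h2 => exact EqLen.simple n K f I hI h1 h2
  | step k n K f I hI x hx hB g I' hc h ih =>
    obtain ⟨σ, F, hσ, ⟨U, hF⟩, hg, rfl⟩ := hc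
    exact EqLen.step k n K f I hI x hx hB σ.equiv hσ F U hF g hg ih

theorem EqLen.toEqChain {B : BasisClass} {k n : ℕ} {K : Type} [Field K]
    {f : MvPowerSeries (Fin n) K} {I : Ideal (MvPowerSeries (Fin n) K)}
    (h : EqLen B k n K f I) : EqChain B k n K f I := by
  induction h with
  | simple n K f I hI h1 h2 => exact EqChain.simple n K f I hI h1 h2
  | step k n K f I hI x hx hB σ hσ F U hF g hg h ih =>
    exact EqChain.step k n K f I hI x hx hB g _ ⟨⟨σ⟩, F, hσ, ⟨U, hF⟩, hg, rfl⟩ ih

section

variable {n : ℕ} {K : Type} [Field K]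

theorem isSimple_iff (P : Ideal (MvPolynomial (Fin n) K)) (Q : Fin n → K) :
    IsSimple P Q ↔ IsSimplePoint P Q := Iff.rfl

theorem eqAlong_iff {B : BasisClass} {k : ℕ} {f : MvPolynomial (Fin n) K} {Q : Fin n → K}
    {P : Ideal (MvPolynomial (Fin n) K)} :
    EqAlong B k f Q P ↔ EqLen B k n K (taylorAt Q f) ((P.map (taylorAt Q)).radical) :=
  ⟨fun h => EqChain.toEqLen h, fun h => EqLen.toEqChain h⟩

theorem exists_eqAlong_iff {B : BasisClass} {f : MvPolynomial (Fin n) K} {Q : Fin n → K}
    {P : Ideal (MvPolynomial (Fin n) K)} :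
    (∃ k, EqAlong B k f Q P) ↔ EquisingularAt B f Q P :=
  exists_congr fun _ => eqAlong_iff

theorem multGe_iff [CharZero K] (f : MvPolynomial (Fin n) K) (μ : ℕ) (Q : Fin n → K) :
    MultGe f μ Q ↔ polyMultIdeal f μ ≤ pointIdeal Q := by
  constructor
  · intro h
    have h1 := (taylorAt_mem_pow Q μ f).mpr h
    have h2 := ext_multIdeal (K := K) (L := K)
      (IsLocalRing.maximalIdeal (MvPowerSeries (Fin n) K)) (taylorAt Q f) μ (by
        have : ext K K (taylorAt Q f) = taylorAt Q f := by
          ext α; rw [coeff_ext]; rfl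
        rwa [this])
    have h3 : ext (n := n) K K = RingHom.id _ := by
      apply RingHom.ext
      intro h
      ext α; rw [coeff_ext]; rfl
    rw [h3, Ideal.map_id, ← polyMultIdeal_map, Ideal.map_le_iff_le_comap] at h2
    refine h2.trans ?_
    intro g hg
    rw [Ideal.mem_comap] at hg
    have h4 := (taylorAt_mem_pow Q 1 g).mp (by rw [pow_one]; exact hg)
    rwa [pow_one] at h4
  · exact mem_pow_of_polyMultIdeal_le Q f μ

theorem zeroLocus_polyMultIdeal [CharZero K] (f : MvPolynomial (Fin n) K) (μ : ℕ) :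
    MvPolynomial.zeroLocus K (polyMultIdeal f μ) = {R | MultGe f μ R} := by
  ext R
  rw [← le_pointIdeal_iff]
  exact (multGe_iff f μ R).symm

theorem isComponent_iff [CharZero K] [IsAlgClosed K] (f : MvPolynomial (Fin n) K) (μ : ℕ)
    (P : Ideal (MvPolynomial (Fin n) K)) :
    IsComponent P {R | MultGe f μ R} ↔ P ∈ (polyMultIdeal f μ).minimalPrimes := by
  rw [IsComponent, ← zeroLocus_polyMultIdeal, idealOf,
    MvPolynomial.vanishingIdeal_zeroLocus_eq_radical, Ideal.radical_minimalPrimes]

/-- The stratification in the form of `Strata.lean`. -/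
noncomputable def Stratification.toZ {B : BasisClass} {f : MvPolynomial (Fin n) K}
    (S : Stratification B f) : ZariskiStratification B f where
  N := S.N
  E := S.E
  P := fun i => idealOf (S.E i)
  P_eq := fun _ => rfl
  E_zero := by
    rw [S.E_zero]
    ext Q
    constructor
    · rintro ⟨h1, h2⟩
      refine ⟨h1, ?_⟩
      by_contra h3
      push Not at h3
      exact h2 ⟨h1, h3⟩
    · rintro ⟨h1, j, hj⟩
      exact ⟨h1, fun h2 => hj (h2.2 j)⟩
  cover := S.cover
  disj := S.disj
  prime := S.prime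
  eqs := by
    intro i hi
    refine (S.eqs i hi).trans ?_
    ext Q
    exact and_congr Iff.rfl (exists_eqAlong_iff (B := B) (f := f) (Q := Q))
  frontier := S.frontier
  component := S.component

end

end Pool.Agent.Helper38.EQ
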