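import Pool.Agent.Helper38.EQ.Orders

/-!
# EQ-P9 (derivations)

The difference `δ' = δ - ∑ δ(X i) ∂_i` is a derivation killing constants and the `X i`, hence
polynomials.  For every `N`, `f = P + r` with `P` a polynomial and `r ∈ maximalIdeal^(N+1)`, and a
derivation maps `maximalIdeal^(N+1)` into `maximalIdeal^N`; so `δ' f` lies in all powers, hence
is `0` (`mem_maximalIdeal_pow_iff`).

Consequence: if `φ` is an automorphism, `D` a derivation, then for every `f` the element
`φ⁻¹ (D (φ (ext K L f)))` lies in the ideal generated by the images of the derivatives of `f`.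
-/

namespace Pool.Agent.Helper38.EQ

open MvPowerSeries

private theorem Deriv_pow {R A : Type*} [CommRing R] [CommRing A] [Algebra R A]
    (δ : Derivation R A A) (I : Ideal A) (k : ℕ) :
    ∀ a ∈ I ^ (k + 1), δ a ∈ I ^ k := by
  induction k with
  | zero => intro a _; simp
  | succ k ih =>
    intro a ha
    rw [pow_succ] at ha
    refine Submodule.mul_induction_on ha ?_ ?_
    · intro x hx y hy
      rw [Derivation.leibniz, smul_eq_mul, smul_eq_mul]
      refine Ideal.add_mem _ (Ideal.mul_mem_right _ _ hx) ?_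
      rw [pow_succ, mul_comm (I ^ k)]
      exact Ideal.mul_mem_mul hy (ih x hx)
    · intro x y hx hy
      rw [map_add]
      exact Ideal.add_mem _ hx hy

private theorem Deriv_poly {n : ℕ} {K : Type} [Field K]
    (δ : Derivation K (MvPowerSeries (Fin n) K) (MvPowerSeries (Fin n) K))
    (hδ : ∀ i, δ (X i) = 0) (P : MvPolynomial (Fin n) K) :
    δ (P : MvPowerSeries (Fin n) K) = 0 := by
  induction P using MvPolynomial.induction_on with
  | C a =>
    rw [MvPolynomial.coe_C]
    have h : (MvPowerSeries.C a : MvPowerSeries (Fin n) K)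
        = algebraMap K (MvPowerSeries (Fin n) K) a := rfl
    rw [h]
    exact Derivation.map_algebraMap δ a
  | add p q hp hq =>
    rw [MvPolynomial.coe_add, map_add, hp, hq, add_zero]
  | mul_X p i hp =>
    rw [MvPolynomial.coe_mul, MvPolynomial.coe_X, Derivation.leibniz, hp, hδ, smul_zero, smul_zero,
      add_zero]

private theorem Deriv_zero {n : ℕ} {K : Type} [Field K]
    (δ : Derivation K (MvPowerSeries (Fin n) K) (MvPowerSeries (Fin n) K))
    (hδ : ∀ i, δ (X i) = 0) (f : MvPowerSeries (Fin n) K) : δ f = 0 := by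
  classical
  ext d
  rw [map_zero]
  set N : ℕ := (∑ i, d i) + 1 with hN
  set m : Fin n →₀ ℕ := Finsupp.equivFunOnFinite.symm fun _ => N + 1 with hm
  have hmi : ∀ i, m i = N + 1 := fun i => rfl
  set r : MvPowerSeries (Fin n) K := f - (trunc' K m f : MvPolynomial (Fin n) K) with hr
  have hrm : r ∈ IsLocalRing.maximalIdeal (MvPowerSeries (Fin n) K) ^ (N + 1) := by
    rw [mem_maximalIdeal_pow_iff]
    intro α hα
    have hle : α ≤ m := by
      intro i
      rw [hmi]
      have h1 : α i ≤ ∑ j, α j := Finset.single_le_sum (f := fun j => α j)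
        (fun _ _ => Nat.zero_le _) (Finset.mem_univ i)
      omega
    rw [hr, map_sub, MvPolynomial.coeff_coe, coeff_trunc', if_pos hle, sub_self]
  have hδr := Deriv_pow δ (IsLocalRing.maximalIdeal (MvPowerSeries (Fin n) K)) N r hrm
  have hδf : δ f = δ r := by
    have h1 : f = r + (trunc' K m f : MvPolynomial (Fin n) K) := by
      rw [hr]
      ring
    conv_lhs => rw [h1]
    rw [map_add, Deriv_poly δ hδ, add_zero]
  rw [hδf]
  exact (mem_maximalIdeal_pow_iff N (δ r)).mp hδr d (by omega)

theorem derivation_apply {n : ℕ} {K : Type} [Field K]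
    (δ : Derivation K (MvPowerSeries (Fin n) K) (MvPowerSeries (Fin n) K))
    (f : MvPowerSeries (Fin n) K) : δ f = ∑ i, δ (X i) * pderiv K i f := by
  classical
  set δ' : Derivation K (MvPowerSeries (Fin n) K) (MvPowerSeries (Fin n) K) :=
    δ - ∑ i, δ (X i) • pderiv K i with hδ'
  have happ : ∀ g, δ' g = δ g - ∑ i, δ (X i) * pderiv K i g := by
    intro g
    rw [hδ', Derivation.sub_apply]
    congr 1
    have h1 : (∑ i, δ (X i) • pderiv K i : Derivation K (MvPowerSeries (Fin n) K)
        (MvPowerSeries (Fin n) K)) g = ∑ i, (δ (X i) • pderiv K i) g := by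
      rw [← Derivation.coeFnAddMonoidHom_apply, map_sum, Finset.sum_apply]
      rfl
    rw [h1]
    rfl
  have h0 : ∀ j, δ' (X j) = 0 := by
    intro j
    rw [happ, Finset.sum_eq_single j]
    · rw [pderiv_X_self, mul_one, sub_self]
    · intro i _ hij
      rw [pderiv_X_of_ne (Ne.symm hij), mul_zero]
    · intro h
      exact absurd (Finset.mem_univ j) h
  have h1 := Deriv_zero δ' h0 f
  rw [happ] at h1
  exact sub_eq_zero.mp h1

private theorem Deriv_ext {n : ℕ} {K L : Type} [Field K] [Field L] [Algebra K L] (i : Fin n)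
    (f : MvPowerSeries (Fin n) K) : pderiv L i (ext K L f) = ext K L (pderiv K i f) := by
  ext d
  rw [coeff_pderiv, coeff_map, coeff_map, coeff_pderiv, map_mul, map_add, map_natCast, map_one]

/-- The derivative along `z` of a series in the coordinates `(y, z)` given by `σ`. -/
theorem deriv_mem_map {n : ℕ} {K L : Type} [Field K] [Field L] [Algebra K L]
    (σ : MvPowerSeries (Fin (n + 1)) L ≃ₐ[L] PowerSeries (MvPowerSeries (Fin n) L))
    (f : MvPowerSeries (Fin (n + 1)) K) (I : Ideal (MvPowerSeries (Fin (n + 1)) K))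
    (hI : singIdeal f ≤ I) :
    PowerSeries.derivative (MvPowerSeries (Fin n) L) (σ (ext K L f)) ∈
      Ideal.map σ (Ideal.map (ext K L) I) := by
  set D := PowerSeries.derivative (MvPowerSeries (Fin n) L) with hD
  have hsmul : ∀ (c : L) (x : PowerSeries (MvPowerSeries (Fin n) L)), D (c • x) = c • D x := by
    intro c x
    rw [← algebraMap_smul (MvPowerSeries (Fin n) L) c x, Derivation.map_smul,
      algebraMap_smul (MvPowerSeries (Fin n) L) c (D x)]
  let δ₀ : MvPowerSeries (Fin (n + 1)) L →ₗ[L] MvPowerSeries (Fin (n + 1)) L :=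
    { toFun := fun g => σ.symm (D (σ g))
      map_add' := fun g h => by rw [map_add, map_add, map_add]
      map_smul' := fun c g => by
        rw [map_smul, hsmul, map_smul, RingHom.id_apply] }
  let δ : Derivation L (MvPowerSeries (Fin (n + 1)) L) (MvPowerSeries (Fin (n + 1)) L) :=
    Derivation.mk' δ₀ (fun g h => by
      show σ.symm (D (σ (g * h))) = g • σ.symm (D (σ h)) + h • σ.symm (D (σ g))
      rw [map_mul, Derivation.leibniz, map_add, smul_eq_mul, smul_eq_mul, map_mul, map_mul,
        AlgEquiv.symm_apply_apply, AlgEquiv.symm_apply_apply, smul_eq_mul, smul_eq_mul])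
  have hδ : ∀ g, δ g = σ.symm (D (σ g)) := fun g => rfl
  have h1 : D (σ (ext K L f)) = σ (δ (ext K L f)) := by
    rw [hδ, AlgEquiv.apply_symm_apply]
  rw [h1]
  refine Ideal.mem_map_of_mem σ ?_
  rw [derivation_apply δ]
  refine Ideal.sum_mem _ fun i _ => ?_
  rw [Deriv_ext]
  refine Ideal.mul_mem_left _ _ (Ideal.mem_map_of_mem _ (hI ?_))
  exact Ideal.subset_span (Or.inr ⟨i, rfl⟩)

end Pool.Agent.Helper38.EQ
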