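import Pool.Agent.Helper38.EQ.InvFun

/-!
# EQ-P10 (a generic linear projection is transversal)

Write `L = GenField n K`.  Since `span (range x)` is the maximal ideal, `f ∈ maximalIdeal^m` is a
combination of the monomials of degree `m` in the `x_j` with coefficients in the ring; replacing
the coefficients by their constant terms, `f ≡ Φ(x_0,…,x_n)` modulo `maximalIdeal^(m+1)`, where
`Φ ∈ K[T_0..T_n]` is homogeneous of degree `m`, and `Φ ≠ 0` because `f ∉ maximalIdeal^(m+1)`.
Let `r : PowerSeries (MvPowerSeries (Fin n) L) → PowerSeries L` be `PowerSeries.map constantCoeff`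
(put `y = 0`), and `ζ_j = r (σ (ext (x_j)))`.  Each `ζ_j` has zero constant coefficient; let `w_j` be
its coefficient at `z`.
(1) `w ≠ 0`: the `σ(ext x_j)` generate the maximal ideal of `L⟦y⟧⟦z⟧`, so some `L`-combination ...
(`X = ∑ c_j σ(ext x_j)`, apply `r` and take the coefficient at `z`: `1 = ∑ c_j(0) w_j`).
(2) Applying `r` to `hσ`: `∑_j u_ij w_j = 0` for all `i`.
(3) `r (σ (ext f))` has coefficients `0` below `m` and coefficient `Φ(w)` at `z^m`
(elements of `maximalIdeal^(m+1)` go to multiples of `z^(m+1)`).  On the other hand it is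
`r(F) r(U)` with `r(F) = z^(natDegree F)` (`F` is distinguished) and `r(U)` a unit.  So
`natDegree F = m` as soon as `Φ(w) ≠ 0`.
(4) `Φ(w) ≠ 0`: the matrix `u` (`n × (n+1)`, entries the indeterminates) has a non zero maximal
minor, so its kernel is one dimensional, spanned by the vector `w*` of signed maximal minors,
`w*_j = (-1)^j det (u without column j)` (`u w* = 0` by expanding a determinant with a repeated
row; useful: `Matrix.det_succ_row`, `Fin.succAbove`).  So `w = c w*`, `c ≠ 0`,
`Φ(w) = c^m Φ(w*)`.  `Φ(w*)` is the image of a polynomial in the `u_ij` over `K`, and this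
polynomial is not zero: `K` is infinite, choose `a ∈ K^(n+1)` with `Φ(a) ≠ 0`, so `a ≠ 0`, say
`a_{j0} ≠ 0`, and specialise `u` to the matrix whose rows are `e_j - (a_j/a_{j0}) e_{j0}`
(`j ≠ j0`): its minor without column `j0` is `± 1` and its kernel is spanned by `a`, so its
vector of minors is `± a / a_{j0}`, where `Φ` does not vanish.
-/

namespace Pool.Agent.Helper38.EQ

open MvPowerSeries

/-- The signed maximal minors of an `n × (n+1)` matrix. -/
private noncomputable def transversalMinor {R : Type*} [CommRing R] {n : ℕ}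
    (M : Matrix (Fin n) (Fin (n + 1)) R) (j : Fin (n + 1)) : R :=
  (-1) ^ (j : ℕ) * (M.submatrix id j.succAbove).det

private theorem transversal_sum_minor {R : Type*} [CommRing R] {n : ℕ}
    (M : Matrix (Fin n) (Fin (n + 1)) R) (i : Fin n) :
    ∑ j, M i j * transversalMinor M j = 0 := by
  have h : (Matrix.of (Fin.cons (M i) (fun k => M k) :
      Fin (n + 1) → Fin (n + 1) → R)).det = 0 := by
    exact Matrix.det_zero_of_row_eq (i := 0) (j := i.succ) (Fin.succ_ne_zero i).symm rfl
  rw [Matrix.det_succ_row_zero] at h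
  rw [← h]
  refine Finset.sum_congr rfl fun j _ => ?_
  have h2 : ((Matrix.of (Fin.cons (M i) (fun k => M k) :
      Fin (n + 1) → Fin (n + 1) → R)).submatrix Fin.succ j.succAbove) =
      M.submatrix id j.succAbove := by
    ext a b
    simp [Matrix.submatrix_apply]
  rw [h2, transversalMinor]
  simp only [Matrix.of_apply, Fin.cons_zero]
  ring

private theorem transversal_kernel {k : Type*} [Field k] {n : ℕ}
    (M : Matrix (Fin n) (Fin (n + 1)) k) (w : Fin (n + 1) → k)
    (hw : ∀ i, ∑ j, M i j * w j = 0) (h0 : transversalMinor M 0 ≠ 0) (j : Fin (n + 1)) :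
    transversalMinor M 0 * w j = w 0 * transversalMinor M j := by
  set v : Fin (n + 1) → k :=
    fun j => transversalMinor M 0 * w j - w 0 * transversalMinor M j with hv
  have hv0 : v 0 = 0 := by simp only [hv]; ring
  have hMv : ∀ i, ∑ j, M i j * v j = 0 := by
    intro i
    have : ∑ j, M i j * v j = transversalMinor M 0 * ∑ j, M i j * w j -
        w 0 * ∑ j, M i j * transversalMinor M j := by
      rw [Finset.mul_sum, Finset.mul_sum, ← Finset.sum_sub_distrib]
      refine Finset.sum_congr rfl fun j _ => ?_
      simp only [hv]; ring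
    rw [this, hw, transversal_sum_minor]; ring
  have hdet : (M.submatrix id Fin.succ).det ≠ 0 := by
    have h1 : transversalMinor M 0 = (M.submatrix id Fin.succ).det := by
      simp [transversalMinor, Fin.succAbove_zero]
    rwa [h1] at h0
  have h3 : (fun i : Fin n => v i.succ) = 0 := by
    apply Matrix.eq_zero_of_mulVec_eq_zero hdet
    funext i
    have h4 := hMv i
    rw [Fin.sum_univ_succ, hv0, mul_zero, zero_add] at h4
    simpa [Matrix.mulVec, dotProduct] using h4
  have h5 : v j = 0 := by
    refine Fin.cases hv0 (fun i => ?_) j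
    exact congrFun h3 i
  exact sub_eq_zero.mp h5

private theorem transversal_minor_map {R S : Type*} [CommRing R] [CommRing S] {n : ℕ}
    (φ : R →+* S) (M : Matrix (Fin n) (Fin (n + 1)) R) (j : Fin (n + 1)) :
    φ (transversalMinor M j) = transversalMinor (M.map φ) j := by
  simp only [transversalMinor, map_mul, map_pow, map_neg, map_one, RingHom.map_det]
  rfl

private theorem transversal_eval₂_mul {R S : Type*} [CommRing R] [CommRing S] {n m : ℕ}
    (φ : R →+* S) (p : MvPolynomial (Fin n) R) (hp : p.IsHomogeneous m) (c : S)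
    (v : Fin n → S) :
    MvPolynomial.eval₂ φ (fun j => c * v j) p = c ^ m * MvPolynomial.eval₂ φ v p := by
  rw [MvPolynomial.eval₂_eq', MvPolynomial.eval₂_eq', Finset.mul_sum]
  refine Finset.sum_congr rfl fun d hd => ?_
  have h1 : ∑ i, d i = m := by
    have h2 := hp (MvPolynomial.mem_support_iff.mp hd)
    rw [← h2, Finsupp.weight_apply, Finsupp.sum_fintype]
    · simp
    · simp
  simp only [mul_pow, Finset.prod_mul_distrib, Finset.prod_pow_eq_pow_sum, h1]
  ring

private theorem transversal_generic {n : ℕ} {K : Type} [Field K] [CharZero K] {m : ℕ}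
    (Φ : MvPolynomial (Fin (n + 1)) K) (hΦ : Φ.IsHomogeneous m) (hΦ0 : Φ ≠ 0)
    (w : Fin (n + 1) → GenField n K) (hw : w ≠ 0)
    (hu : ∀ i : Fin n, ∑ j, genU i j * w j = 0) :
    MvPolynomial.eval₂ (algebraMap K (GenField n K)) w Φ ≠ 0 := by
  intro hev
  -- the map from the polynomial ring
  let ι : MvPolynomial (Fin n × Fin (n + 1)) K →+* GenField n K :=
    (algebraMap (FractionRing (MvPolynomial (Fin n × Fin (n + 1)) K)) (GenField n K)).comp
      (algebraMap (MvPolynomial (Fin n × Fin (n + 1)) K)
        (FractionRing (MvPolynomial (Fin n × Fin (n + 1)) K)))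
  have hι : Function.Injective ι :=
    (algebraMap (FractionRing (MvPolynomial (Fin n × Fin (n + 1)) K))
      (GenField n K)).injective.comp (IsFractionRing.injective _ _)
  have hιC : ι.comp MvPolynomial.C = algebraMap K (GenField n K) := by
    rfl
  let M₀ : Matrix (Fin n) (Fin (n + 1)) (MvPolynomial (Fin n × Fin (n + 1)) K) :=
    Matrix.of fun i j => MvPolynomial.X (i, j)
  have hM₀ : ∀ i j, M₀.map ι i j = genU i j := fun i j => rfl
  -- specialisations
  have hspec : ∀ a : Fin (n + 1) → K, a 0 ≠ 0 →
      ∃ θ : MvPolynomial (Fin n × Fin (n + 1)) K →+* K, θ.comp MvPolynomial.C = RingHom.id K ∧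
        θ (transversalMinor M₀ 0) = 1 ∧ ∀ j, a j = a 0 * θ (transversalMinor M₀ j) := by
    intro a ha
    let N : Matrix (Fin n) (Fin (n + 1)) K :=
      Matrix.of fun i j => Fin.cases (-(a i.succ) / a 0) (fun j' => if i = j' then 1 else 0) j
    let θ : MvPolynomial (Fin n × Fin (n + 1)) K →+* K :=
      MvPolynomial.eval (fun p => N p.1 p.2)
    have hθ : M₀.map θ = N := by
      ext i j
      simp [M₀, θ, Matrix.map_apply]
    have h1 : transversalMinor N 0 = 1 := by
      have h2 : N.submatrix id Fin.succ = 1 := by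
        ext i j
        simp [N, Matrix.submatrix_apply, Matrix.one_apply]
      simp [transversalMinor, Fin.succAbove_zero, h2]
    have h3 : ∀ i, ∑ j, N i j * a j = 0 := by
      intro i
      rw [Fin.sum_univ_succ]
      simp only [N, Matrix.of_apply, Fin.cases_zero, Fin.cases_succ, ite_mul, one_mul, zero_mul,
        Finset.sum_ite_eq, Finset.mem_univ, if_true]
      field_simp
      ring
    refine ⟨θ, ?_, ?_, ?_⟩
    · ext c
      simp [θ]
    · rw [transversal_minor_map, hθ, h1]
    · intro j
      have h4 := transversal_kernel N a h3 (by rw [h1]; exact one_ne_zero) j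
      rw [h1, one_mul] at h4
      rw [transversal_minor_map, hθ, h4]
  have hμ0 : transversalMinor M₀ 0 ≠ 0 := by
    intro h
    obtain ⟨θ, -, h1, -⟩ := hspec (fun _ => 1) one_ne_zero
    rw [h, map_zero] at h1
    exact zero_ne_one h1
  have hιμ0 : transversalMinor (M₀.map ι) 0 ≠ 0 := by
    rw [← transversal_minor_map]
    exact fun h => hμ0 (hι (by rw [h, map_zero]))
  have hker := transversal_kernel (M₀.map ι) w hu hιμ0
  have hw0 : w 0 ≠ 0 := by
    intro h
    apply hw
    funext j
    have h1 := hker j
    rw [h, zero_mul] at h1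
    exact (mul_eq_zero.mp h1).resolve_left hιμ0
  have h1 : MvPolynomial.eval₂ (algebraMap K (GenField n K))
      (fun j => ι (transversalMinor M₀ j)) Φ = 0 := by
    have h2 := transversal_eval₂_mul (algebraMap K (GenField n K)) Φ hΦ (w 0)
      (fun j => ι (transversalMinor M₀ j))
    have h3 := transversal_eval₂_mul (algebraMap K (GenField n K)) Φ hΦ
      (transversalMinor (M₀.map ι) 0) w
    rw [hev, mul_zero] at h3
    have h4 : (fun j => w 0 * ι (transversalMinor M₀ j)) =
        fun j => transversalMinor (M₀.map ι) 0 * w j := by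
      funext j
      rw [hker j, transversal_minor_map]
    rw [h4, h3] at h2
    exact (mul_eq_zero.mp h2.symm).resolve_left (pow_ne_zero _ hw0)
  have h5 : MvPolynomial.eval₂ MvPolynomial.C (fun j => transversalMinor M₀ j) Φ = 0 := by
    apply hι
    rw [map_zero, MvPolynomial.hom_eval₂, hιC]
    exact h1
  apply hΦ0
  have h6 : Φ * MvPolynomial.X 0 = 0 := by
    apply MvPolynomial.funext
    intro a
    rw [map_mul, map_zero, MvPolynomial.eval_X]
    by_cases ha : a 0 = 0
    · rw [ha, mul_zero]
    · obtain ⟨θ, hθC, -, hθ⟩ := hspec a ha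
      have h7 : a = fun j => a 0 * θ (transversalMinor M₀ j) := funext hθ
      have h8 := congrArg θ h5
      rw [map_zero, MvPolynomial.hom_eval₂, hθC] at h8
      have h9 : MvPolynomial.eval a Φ = 0 := by
        rw [← MvPolynomial.eval₂_id, h7, transversal_eval₂_mul _ Φ hΦ]
        rw [show MvPolynomial.eval₂ (RingHom.id K) (fun j => θ (transversalMinor M₀ j)) Φ = 0
          from h8, mul_zero]
      rw [h9, zero_mul]
  exact (mul_eq_zero.mp h6).resolve_right (MvPolynomial.X_ne_zero _)

/-- A homogeneous polynomial of degree `m` with coefficients in `I`, evaluated at `x`. -/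
private theorem transversal_eval_mem {S : Type*} [CommRing S] {n m : ℕ} (I : Ideal S)
    (x : Fin n → S) (hx : Ideal.span (Set.range x) = I)
    (p : MvPolynomial (Fin n) S) (hp : p.IsHomogeneous m) (hc : ∀ d, p.coeff d ∈ I) :
    MvPolynomial.eval x p ∈ I ^ (m + 1) := by
  rw [MvPolynomial.eval_eq']
  refine Ideal.sum_mem _ fun d hd => ?_
  rw [pow_succ']
  refine Ideal.mul_mem_mul (hc d) ?_
  have h2 := hp (MvPolynomial.mem_support_iff.mp hd)
  rw [← hx, Ideal.mem_span_pow_iff_exists_isHomogeneous]
  refine ⟨MvPolynomial.monomial d 1, MvPolynomial.isHomogeneous_monomial _ ?_, ?_⟩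
  · rw [← h2, Finsupp.weight_apply]
    simp [Finsupp.degree_eq_sum, Finsupp.sum_fintype]
  · rw [MvPolynomial.eval_monomial, one_mul, Finsupp.prod_fintype]
    simp

private theorem transversal_order {L : Type} [Field L] (d m : ℕ) (G V : PowerSeries L)
    (hG : PowerSeries.constantCoeff G ≠ 0) (hV : PowerSeries.constantCoeff V ≠ 0)
    (h : PowerSeries.X ^ m * G = PowerSeries.X ^ d * V) : d = m := by
  rcases lt_trichotomy d m with hlt | heq | hgt
  · exfalso
    have h1 := congrArg (PowerSeries.coeff d) h
    rw [PowerSeries.coeff_X_pow_mul', PowerSeries.coeff_X_pow_mul', if_neg (by omega),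
      if_pos le_rfl, Nat.sub_self] at h1
    exact hV (by rw [← PowerSeries.coeff_zero_eq_constantCoeff_apply]; exact h1.symm)
  · exact heq
  · exfalso
    have h1 := congrArg (PowerSeries.coeff m) h
    rw [PowerSeries.coeff_X_pow_mul', PowerSeries.coeff_X_pow_mul', if_pos le_rfl,
      if_neg (by omega), Nat.sub_self] at h1
    exact hG (by rw [← PowerSeries.coeff_zero_eq_constantCoeff_apply]; exact h1)

private theorem transversal_core {n : ℕ} {K L : Type} [Field K] [Field L] [Algebra K L]
    (f : MvPowerSeries (Fin (n + 1)) K) (x : Fin (n + 1) → MvPowerSeries (Fin (n + 1)) K)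
    (hx : Ideal.span (Set.range x) =
      IsLocalRing.maximalIdeal (MvPowerSeries (Fin (n + 1)) K))
    (σ : MvPowerSeries (Fin (n + 1)) L ≃ₐ[L] PowerSeries (MvPowerSeries (Fin n) L))
    (u : Fin n → Fin (n + 1) → L)
    (hσ : ∀ i : Fin n, σ (∑ j, C (u i j) * ext K L (x j)) = PowerSeries.C (X i))
    (F : Polynomial (MvPowerSeries (Fin n) L))
    (U : PowerSeries (MvPowerSeries (Fin n) L))
    (hF : (σ (ext K L f)).IsWeierstrassFactorization F U)
    (m : ℕ) (hm : f ∈ IsLocalRing.maximalIdeal (MvPowerSeries (Fin (n + 1)) K) ^ m)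
    (hm' : f ∉ IsLocalRing.maximalIdeal (MvPowerSeries (Fin (n + 1)) K) ^ (m + 1)) :
    ∃ (Φ : MvPolynomial (Fin (n + 1)) K) (w : Fin (n + 1) → L), Φ.IsHomogeneous m ∧ Φ ≠ 0 ∧
      w ≠ 0 ∧ (∀ i, ∑ j, u i j * w j = 0) ∧
      (MvPolynomial.eval₂ (algebraMap K L) w Φ ≠ 0 → F.natDegree = m) := by
  have hmem : ∀ {k : ℕ} {M : Type} [Field M] (y : MvPowerSeries (Fin k) M),
      y ∈ IsLocalRing.maximalIdeal (MvPowerSeries (Fin k) M) ↔ constantCoeff y = 0 := by
    intro k M _ y
    rw [IsLocalRing.mem_maximalIdeal, mem_nonunits_iff, MvPowerSeries.isUnit_iff_constantCoeff,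
      isUnit_iff_ne_zero, not_not]
  let r : PowerSeries (MvPowerSeries (Fin n) L) →+* PowerSeries L :=
    PowerSeries.map constantCoeff
  let τ : MvPowerSeries (Fin (n + 1)) L →+* PowerSeries L :=
    r.comp (σ : MvPowerSeries (Fin (n + 1)) L →+* PowerSeries (MvPowerSeries (Fin n) L))
  let ρ : MvPowerSeries (Fin (n + 1)) K →+* PowerSeries L := τ.comp (ext K L)
  -- constants
  have hτC : ∀ a : L, τ (C a) = PowerSeries.C a := by
    intro a
    have h1 : σ (C a) = PowerSeries.C (C a) := by
      have h2 := σ.commutes a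
      rw [MvPowerSeries.algebraMap_apply, PowerSeries.algebraMap_apply,
        MvPowerSeries.algebraMap_apply] at h2
      exact h2
    show r (σ (C a)) = _
    rw [h1]
    simp [r]
  -- the maximal ideal
  have hτ0 : ∀ y : MvPowerSeries (Fin (n + 1)) L, constantCoeff y = 0 →
      PowerSeries.constantCoeff (τ y) = 0 := by
    intro y hy
    by_contra hne
    have h1 : PowerSeries.constantCoeff (τ y) =
        constantCoeff (PowerSeries.constantCoeff (σ y)) := by
      show PowerSeries.constantCoeff (PowerSeries.map constantCoeff (σ y)) = _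
      rw [← PowerSeries.coeff_zero_eq_constantCoeff_apply, PowerSeries.coeff_map,
        PowerSeries.coeff_zero_eq_constantCoeff_apply]
    rw [h1] at hne
    have h2 : IsUnit (σ y) := by
      rw [PowerSeries.isUnit_iff_constantCoeff, MvPowerSeries.isUnit_iff_constantCoeff]
      exact isUnit_iff_ne_zero.mpr hne
    have h3 : IsUnit y := by
      have h4 := h2.map σ.symm
      rwa [AlgEquiv.symm_apply_apply] at h4
    rw [MvPowerSeries.isUnit_iff_constantCoeff, hy] at h3
    exact not_isUnit_zero h3
  have hρ : ∀ y : MvPowerSeries (Fin (n + 1)) K,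
      PowerSeries.constantCoeff (ρ y) = algebraMap K L (constantCoeff y) := by
    intro y
    have h1 : PowerSeries.constantCoeff (ρ (y - C (constantCoeff y))) = 0 := by
      apply hτ0
      simp [ext]
    rw [map_sub, map_sub, sub_eq_zero] at h1
    rw [h1]
    show PowerSeries.constantCoeff (τ (ext K L (C (constantCoeff y)))) = _
    rw [show ext K L (C (constantCoeff y)) = C (algebraMap K L (constantCoeff y)) by
      simp [ext], hτC]
    simp
  have hx0 : ∀ j, constantCoeff (x j) = 0 := by
    intro j
    rw [← hmem, ← hx]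
    exact Ideal.subset_span ⟨j, rfl⟩
  have hdvd : ∀ j, (PowerSeries.X : PowerSeries L) ∣ ρ (x j) := by
    intro j
    rw [PowerSeries.X_dvd_iff, hρ, hx0, map_zero]
  choose ψ hψ using hdvd
  obtain ⟨p, hp, hpf⟩ := (Ideal.mem_span_pow_iff_exists_isHomogeneous x f).mp (by rwa [hx])
  refine ⟨MvPolynomial.map constantCoeff p, fun j => PowerSeries.constantCoeff (ψ j),
    hp.map _, ?_, ?_, ?_, ?_⟩
  · intro h0
    apply hm'
    rw [← hpf]
    apply transversal_eval_mem _ x hx p hp
    intro d
    rw [hmem]
    have h1 := congrArg (MvPolynomial.coeff d) h0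
    rwa [MvPolynomial.coeff_map, MvPolynomial.coeff_zero] at h1
  · intro hw
    have h1 : σ.symm PowerSeries.X ∈ IsLocalRing.maximalIdeal
        (MvPowerSeries (Fin (n + 1)) L) := by
      rw [IsLocalRing.mem_maximalIdeal, mem_nonunits_iff]
      intro h2
      have h3 := h2.map σ
      rw [AlgEquiv.apply_symm_apply, PowerSeries.isUnit_iff_constantCoeff] at h3
      simp at h3
    have h2 : IsLocalRing.maximalIdeal (MvPowerSeries (Fin (n + 1)) L) ≤
        (Ideal.span {(PowerSeries.X : PowerSeries L) ^ 2}).comap τ := by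
      rw [maximalIdeal_eq_coordIdeal, Ideal.span_le]
      rintro _ ⟨i, -, rfl⟩
      have h3 : (X i : MvPowerSeries (Fin (n + 1)) K) ∈ Ideal.span (Set.range x) := by
        rw [hx, hmem]
        simp
      have h4 : Ideal.span (Set.range x) ≤
          (Ideal.span {(PowerSeries.X : PowerSeries L) ^ 2}).comap ρ := by
        rw [Ideal.span_le]
        rintro _ ⟨j, rfl⟩
        show ρ (x j) ∈ Ideal.span _
        rw [Ideal.mem_span_singleton, hψ, pow_two]
        apply mul_dvd_mul_left
        rw [PowerSeries.X_dvd_iff]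
        exact congrFun hw j
      have h5 := h4 h3
      have h6 : ext K L (X i) = X i := by simp [ext]
      show τ (X i) ∈ Ideal.span _
      rw [← h6]
      exact h5
    have h3 := h2 h1
    rw [Ideal.mem_comap, Ideal.mem_span_singleton] at h3
    have h4 : τ (σ.symm PowerSeries.X) = PowerSeries.X := by
      show r (σ (σ.symm PowerSeries.X)) = _
      rw [AlgEquiv.apply_symm_apply]
      simp [r]
    rw [h4, PowerSeries.X_pow_dvd_iff] at h3
    have h5 := h3 1 (by norm_num)
    rw [PowerSeries.coeff_one_X] at h5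
    exact one_ne_zero h5
  · intro i
    have h1 := congrArg r (hσ i)
    have h2 : r (σ (∑ j, C (u i j) * ext K L (x j))) =
        PowerSeries.X * ∑ j, PowerSeries.C (u i j) * ψ j := by
      show τ (∑ j, C (u i j) * ext K L (x j)) = _
      rw [map_sum, Finset.mul_sum]
      refine Finset.sum_congr rfl fun j _ => ?_
      rw [map_mul, hτC]
      show PowerSeries.C (u i j) * ρ (x j) = _
      rw [hψ]
      ring
    rw [h2] at h1
    have h3 : r (PowerSeries.C (X i)) = 0 := by
      simp [r]
    rw [h3] at h1
    have h4 := (mul_eq_zero.mp h1).resolve_left PowerSeries.X_ne_zero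
    have h5 := congrArg PowerSeries.constantCoeff h4
    rw [map_sum, map_zero] at h5
    rw [← h5]
    refine Finset.sum_congr rfl fun j _ => ?_
    simp
  · intro hne
    have h1 : ρ f = PowerSeries.X ^ m * MvPolynomial.eval₂ ρ ψ p := by
      rw [← transversal_eval₂_mul ρ p hp, ← hpf]
      have h2 : (fun j => PowerSeries.X * ψ j) = ρ ∘ x := by
        funext j
        exact (hψ j).symm
      rw [h2, ← MvPolynomial.eval₂_id, MvPolynomial.hom_eval₂]
      rfl
    have h2 : PowerSeries.constantCoeff (MvPolynomial.eval₂ ρ ψ p) =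
        MvPolynomial.eval₂ (algebraMap K L) (fun j => PowerSeries.constantCoeff (ψ j))
          (MvPolynomial.map constantCoeff p) := by
      rw [MvPolynomial.eval₂_map, MvPolynomial.hom_eval₂]
      congr 1
      ext y
      exact hρ y
    have h3 : ρ f = PowerSeries.X ^ F.natDegree * r U := by
      show r (σ (ext K L f)) = _
      rw [hF.eq_mul, map_mul]
      congr 1
      have h4 : F.map constantCoeff = Polynomial.X ^ F.natDegree := by
        ext i
        rw [Polynomial.coeff_map, Polynomial.coeff_X_pow]
        by_cases hi : i = F.natDegree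
        · rw [if_pos hi, hi, Polynomial.coeff_natDegree, hF.isDistinguishedAt.monic.leadingCoeff,
            map_one]
        · rw [if_neg hi]
          rcases lt_or_gt_of_ne hi with lt | gt
          · rw [← hmem]
            exact hF.isDistinguishedAt.mem lt
          · rw [Polynomial.coeff_eq_zero_of_natDegree_lt gt, map_zero]
      show PowerSeries.map constantCoeff (F : PowerSeries (MvPowerSeries (Fin n) L)) = _
      rw [← Polynomial.polynomial_map_coe, h4]
      simp
    have h5 : PowerSeries.constantCoeff (r U) ≠ 0 := by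
      have h6 : IsUnit (r U) := hF.isUnit.map r
      rw [PowerSeries.isUnit_iff_constantCoeff] at h6
      exact h6.ne_zero
    exact transversal_order _ _ _ _ (by rw [h2]; exact hne) h5 (h1.symm.trans h3)

theorem natDegree_eq_order {n : ℕ} {K : Type} [Field K] [CharZero K]
    (f : MvPowerSeries (Fin (n + 1)) K) (x : Fin (n + 1) → MvPowerSeries (Fin (n + 1)) K)
    (hx : Ideal.span (Set.range x) =
      IsLocalRing.maximalIdeal (MvPowerSeries (Fin (n + 1)) K))
    (σ : MvPowerSeries (Fin (n + 1)) (GenField n K) ≃ₐ[GenField n K]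
        PowerSeries (MvPowerSeries (Fin n) (GenField n K)))
    (hσ : ∀ i : Fin n, σ (∑ j, C (genU i j) * ext K (GenField n K) (x j)) =
        PowerSeries.C (X i))
    (F : Polynomial (MvPowerSeries (Fin n) (GenField n K)))
    (U : PowerSeries (MvPowerSeries (Fin n) (GenField n K)))
    (hF : (σ (ext K (GenField n K) f)).IsWeierstrassFactorization F U)
    (m : ℕ) (hm : f ∈ IsLocalRing.maximalIdeal (MvPowerSeries (Fin (n + 1)) K) ^ m)
    (hm' : f ∉ IsLocalRing.maximalIdeal (MvPowerSeries (Fin (n + 1)) K) ^ (m + 1)) :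
    F.natDegree = m := by
  obtain ⟨Φ, w, hΦ, hΦ0, hw, hu, himp⟩ :=
    transversal_core f x hx σ genU hσ F U hF m hm hm'
  exact himp (transversal_generic Φ hΦ hΦ0 w hw hu)

end Pool.Agent.Helper38.EQ
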