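import Pool.Agent.Helper38.EQ.Refined

/-! Chains of length two: the data. -/

namespace Pool.Agent.Helper38.EQ

open MvPowerSeries

theorem C_mem_lift_iff {n : ℕ} {M : Type} [Field M] (b' : Ideal (MvPowerSeries (Fin n) M))
    (r : MvPowerSeries (Fin n) M)
    (hr : r ∈ IsLocalRing.maximalIdeal (MvPowerSeries (Fin n) M))
    (h : MvPowerSeries (Fin n) M) :
    PowerSeries.C h ∈ Ideal.span {PowerSeries.X - PowerSeries.C r} ⊔ b'.map PowerSeries.C ↔
      h ∈ b' := by
  constructor
  · intro hh
    obtain ⟨Ψ, hΨ0, hΨs⟩ := exists_psi (AlgEquiv.refl (R := M) (A₁ := MvPowerSeries (Fin n) M)) r hr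
    let ε : PowerSeries (MvPowerSeries (Fin n) M) →+* MvPowerSeries (Fin n) M :=
      (PowerSeries.constantCoeff (R := MvPowerSeries (Fin n) M)).comp
        (((finSuccEquiv M n).toRingEquiv : MvPowerSeries (Fin (n + 1)) M →+*
          PowerSeries (MvPowerSeries (Fin n) M)).comp
          (Ψ.symm.toRingEquiv : PowerSeries (MvPowerSeries (Fin n) M) →+*
            MvPowerSeries (Fin (n + 1)) M))
    have hεdef : ∀ z, ε z = PowerSeries.constantCoeff (finSuccEquiv M n (Ψ.symm z)) := fun z => rfl
    have hεX : ε (PowerSeries.X - PowerSeries.C r) = 0 := by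
      rw [hεdef, ← hΨ0, AlgEquiv.symm_apply_apply, finSuccEquiv_X_zero]
      simp
    have hεC : ε.comp (PowerSeries.C (R := MvPowerSeries (Fin n) M)) = RingHom.id _ := by
      have hXi : ∀ i : Fin n, ε (PowerSeries.C (X i)) = X i := by
        intro i
        have h1 := hΨs i
        rw [AlgEquiv.coe_refl, id] at h1
        rw [hεdef, ← h1, AlgEquiv.symm_apply_apply, finSuccEquiv_X_succ]
        simp
      apply ringHom_ext_of_X
      · intro a
        have h1 : PowerSeries.C (C (σ := Fin n) a) =
            algebraMap M (PowerSeries (MvPowerSeries (Fin n) M)) a := by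
          rw [PowerSeries.algebraMap_apply, MvPowerSeries.algebraMap_apply]
          rfl
        show ε (PowerSeries.C (C a)) = C a
        rw [hεdef, h1, AlgEquiv.commutes, AlgEquiv.commutes]
        rfl
      · intro i
        exact hXi i
      · intro i
        show ε (PowerSeries.C (X i)) ∈ _
        rw [hXi, mem_maximalIdeal_iff_constantCoeff]
        simp
    have hle : Ideal.span {PowerSeries.X - PowerSeries.C r} ⊔ b'.map PowerSeries.C ≤
        b'.comap ε := by
      apply sup_le
      · rw [Ideal.span_le]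
        rintro _ rfl
        show ε _ ∈ b'
        rw [hεX]
        exact b'.zero_mem
      · rw [Ideal.map_le_iff_le_comap]
        intro x hx
        show ε (PowerSeries.C x) ∈ b'
        have h1 := congrArg (fun φ : MvPowerSeries (Fin n) M →+* MvPowerSeries (Fin n) M => φ x) hεC
        have h2 : ε (PowerSeries.C x) = x := h1
        rw [h2]
        exact hx
    have h3 : ε (PowerSeries.C h) ∈ b' := hle hh
    have h1 := congrArg (fun φ : MvPowerSeries (Fin n) M →+* MvPowerSeries (Fin n) M => φ h) hεC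
    have h2 : ε (PowerSeries.C h) = h := h1
    rwa [h2] at h3
  · intro hh
    exact Ideal.mem_sup_right (Ideal.mem_map_of_mem _ hh)

/-- The ideal generated by a power series and its derivatives, after extension of the field. -/
theorem singIdeal_ext {n : ℕ} {K L : Type} [Field K] [Field L] [Algebra K L]
    (g : MvPowerSeries (Fin n) K) :
    singIdeal (ext K L g) = (singIdeal g).map (ext K L) := by
  have hp : ∀ i, pderiv L i (ext K L g) = ext K L (pderiv K i g) := by
    intro i
    ext α
    rw [coeff_pderiv, coeff_ext, coeff_ext, coeff_pderiv]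
    simp
  rw [singIdeal, singIdeal, Ideal.map_span]
  congr 1
  ext h
  constructor
  · rintro (rfl | ⟨i, rfl⟩)
    · exact ⟨g, Set.mem_union_left _ rfl, rfl⟩
    · exact ⟨pderiv K i g, Set.mem_union_right _ ⟨i, rfl⟩, (hp i).symm⟩
  · rintro ⟨x, (rfl | ⟨i, rfl⟩), rfl⟩
    · exact Set.mem_union_left _ rfl
    · exact Set.mem_union_right _ ⟨i, hp i⟩

theorem singIdeal_le_of_mem_sq {n : ℕ} {K : Type} [Field K] (b : Ideal (MvPowerSeries (Fin n) K))
    (g : MvPowerSeries (Fin n) K) (hg : g ∈ b ^ 2) : singIdeal g ≤ b := by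
  rw [singIdeal_eq]
  have h1 := ext_multIdeal (K := K) (L := K) b g 2 (by
    have : ext K K g = g := by
      ext α; rw [coeff_ext]; rfl
    rwa [this])
  have h2 : (multIdeal g 2).map (ext (n := n) K K) = multIdeal g 2 := by
    have h3 : ext (n := n) K K = RingHom.id _ := by
      apply RingHom.ext
      intro h
      ext α; rw [coeff_ext]; rfl
    rw [h3, Ideal.map_id]
  rwa [h2] at h1

theorem EqLen.singIdeal_le {B : BasisClass} {k n : ℕ} {K : Type} [Field K]
    {f : MvPowerSeries (Fin n) K} {I : Ideal (MvPowerSeries (Fin n) K)}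
    (h : EqLen B (k + 1) n K f I) : singIdeal f ≤ I := by
  cases h with
  | step k n K f I hI x hx hB σ hσ F U hF g hg h => exact hI

theorem EqLen.one_transfer {n : ℕ} {K : Type} [Field K] {B : BasisClass} [CharZero K]
    {f : MvPowerSeries (Fin n) K}
    {I J : Ideal (MvPowerSeries (Fin n) K)} (h : EqLen B 1 n K f I) (hJ : singIdeal f ≤ J)
    (hJ1 : J ≠ ⊤) : EqLen B 1 n K f J := by
  cases h with
  | step k n K f I hI x hx hB σ hσ F U hF g hg h =>
    refine EqLen.step 0 n K f J hJ x hx hB σ hσ F U hF g hg ?_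
    have hC' : CharZero (GenField n K) :=
      charZero_of_injective_algebraMap (algebraMap K (GenField n K)).injective
    generalize hI' : (Ideal.comap (PowerSeries.C (R := MvPowerSeries (Fin n) (GenField n K)))
          (Ideal.map σ (Ideal.map (ext K (GenField n K)) I).radical)) = I' at h
    have h12 : g ∈ IsLocalRing.maximalIdeal (MvPowerSeries (Fin n) (GenField n K)) ∧
        g ∉ IsLocalRing.maximalIdeal (MvPowerSeries (Fin n) (GenField n K)) ^ 2 := by
      clear hF hg hB hx hσ
      cases h with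
      | simple n K f I hI h1 h2 => exact ⟨h1, h2⟩
    refine EqLen.simple n (GenField n K) g _ ?_ h12.1 h12.2
    rw [singIdeal_eq, multIdeal_eq_top g 2 h12.2, top_le_iff]
    intro h3
    rw [Ideal.eq_top_iff_one, Ideal.mem_comap, map_one] at h3
    have h4 : (1 : MvPowerSeries (Fin (n + 1)) (GenField n K)) ∈
        (Ideal.map (ext K (GenField n K)) J).radical := by
      rw [← mem_map_algEquiv σ, map_one]; exact h3
    have h5 := (Ideal.eq_top_iff_one _).mpr h4
    rw [Ideal.radical_eq_top] at h5
    exact ext_ne_top J hJ1 h5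

theorem comap_ne_top {n : ℕ} {K L : Type} [Field K] [Field L] [Algebra K L]
    (σ : MvPowerSeries (Fin (n + 1)) L ≃ₐ[L] PowerSeries (MvPowerSeries (Fin n) L))
    (J : Ideal (MvPowerSeries (Fin (n + 1)) K)) (hJ : J ≠ ⊤) :
    (Ideal.comap (PowerSeries.C (R := MvPowerSeries (Fin n) L))
          (Ideal.map σ (Ideal.map (ext K L) J).radical)) ≠ ⊤ := by
  intro h3
  rw [Ideal.eq_top_iff_one, Ideal.mem_comap, map_one] at h3
  have h4 : (1 : MvPowerSeries (Fin (n + 1)) L) ∈ (Ideal.map (ext K L) J).radical := by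
    rw [← mem_map_algEquiv σ, map_one]; exact h3
  have h5 := (Ideal.eq_top_iff_one _).mpr h4
  rw [Ideal.radical_eq_top] at h5
  exact ext_ne_top J hJ h5

theorem len_two_data {B : BasisClass} {n : ℕ} {K : Type} [Field K] [IsAlgClosed K] [CharZero K]
    (f : MvPowerSeries (Fin (n + 1)) K) (I : Ideal (MvPowerSeries (Fin (n + 1)) K))
    (h : EqLen B 2 (n + 1) K f I) (hI1 : I ≠ ⊤) :
    ∃ (L : Type) (_ : Field L) (_ : IsAlgClosed L) (_ : Algebra K L)
      (σ : MvPowerSeries (Fin (n + 1)) L ≃ₐ[L] PowerSeries (MvPowerSeries (Fin n) L))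
      (F : Polynomial (MvPowerSeries (Fin n) L)) (U : PowerSeries (MvPowerSeries (Fin n) L))
      (g : MvPowerSeries (Fin n) L) (N : ℕ) (r : MvPowerSeries (Fin n) L)
      (A' : Finset (Fin n)) (b' : Ideal (MvPowerSeries (Fin n) L))
      (A : Finset (Fin (n + 1))) (b : Ideal (MvPowerSeries (Fin (n + 1)) L)),
      (σ (ext K L f)).IsWeierstrassFactorization F U ∧
      (∀ m, f ∈ IsLocalRing.maximalIdeal (MvPowerSeries (Fin (n + 1)) K) ^ m →
        f ∉ IsLocalRing.maximalIdeal (MvPowerSeries (Fin (n + 1)) K) ^ (m + 1) →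
        F.natDegree = m) ∧
      F.discr ∣ g ^ N ∧ F.discr ∈ Ideal.span {g} ∧
      r ∈ IsLocalRing.maximalIdeal (MvPowerSeries (Fin n) L) ∧
      A'.card = 2 ∧ SmoothIdeal A' b' ∧ singIdeal g ≤ b' ∧ b' ≤ (singIdeal g).radical ∧
      A.card = 3 ∧ SmoothIdeal A b ∧
      b.map σ = Ideal.span {PowerSeries.X - PowerSeries.C r} ⊔ b'.map PowerSeries.C ∧
      (∀ j ≤ F.natDegree, (Polynomial.taylor r F).coeff (F.natDegree - j) ∈ b' ^ j) ∧
      b ≤ (I.map (ext K L)).radical ∧
      (∀ m, f ∈ IsLocalRing.maximalIdeal (MvPowerSeries (Fin (n + 1)) K) ^ m →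
        ext K L f ∈ b ^ m) ∧
      (∀ J : Ideal (MvPowerSeries (Fin (n + 1)) K), singIdeal f ≤ J → J ≠ ⊤ →
        b ≤ (J.map (ext K L)).radical → EqLen B 2 (n + 1) K f J) := by
  cases h with
  | step k n K f I hI x hx hB σ hσ F U hF g hg h =>
    have hC' : CharZero (GenField n K) :=
      charZero_of_injective_algebraMap (algebraMap K (GenField n K)).injective
    have hg0 : g ≠ 0 := h.ne_zero
    have hsg := h.singIdeal_le
    have hI'ne := comap_ne_top σ I hI1
    have hsne : singIdeal g ≠ ⊤ := fun h1 => hI'ne (top_le_iff.mp (h1 ▸ hsg))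
    have hgs : g ∈ singIdeal g := Ideal.subset_span (Set.mem_union_left _ rfl)
    have h1 : EqLen B 1 n (GenField n K) g (singIdeal g) := h.one_transfer le_rfl hsne
    obtain ⟨L, iF, iC, iA, A', b', hA', hs', hb', hm'⟩ := claimC h1 inferInstance hC' hgs hsne
    let iKL : Algebra K L := ((algebraMap (GenField n K) L).comp
      (algebraMap K (GenField n K))).toAlgebra
    obtain ⟨σ2, U2, r, A, b, N, hσ2, hF2, hpos, hd1, hd2, hr, hA, hs, hbmap, htay, hbI, hmul⟩ :=
      refined_step (K := K) (L1 := GenField n K) (L2 := L) rfl f I hI σ F U hF g hg hg0 hI1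
        (fun m hm hm' => natDegree_eq_order f x hx σ hσ F U hF m hm hm') A' b' hs'
        (hb'.trans (Ideal.radical_mono (Ideal.map_mono hsg))) hm'
    have hFm : F.Monic := hF.isDistinguishedAt.monic
    have hdeg : (F.map (ext (n := n) (GenField n K) L)).natDegree = F.natDegree :=
      hFm.natDegree_map _
    have hg2 : g ∈ IsLocalRing.maximalIdeal (MvPowerSeries (Fin n) (GenField n K)) ^ 2 := by
      by_contra hn
      apply hsne
      rw [singIdeal_eq, multIdeal_eq_top g 2 hn]
    have hsle : singIdeal (ext (GenField n K) L g) ≤ b' :=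
      singIdeal_le_of_mem_sq _ _ (hm' 2 hg2)
    refine ⟨L, iF, iC, iKL, σ2, F.map (ext (n := n) (GenField n K) L), U2,
      ext (GenField n K) L g, N, r, A', b', A, b, hF2, ?_, hd1, hd2, hr, hA', hs', hsle, ?_,
      ?_, hs, hbmap, ?_, hbI, hmul, ?_⟩
    · intro m hm hm'
      rw [hdeg]
      exact natDegree_eq_order f x hx σ hσ F U hF m hm hm'
    · rw [singIdeal_ext]; exact hb'
    · rw [hA, hA']
    · rw [hdeg]; exact htay
    · intro J hJ hJ1 hbJ
      refine EqLen.step 1 n K f J hJ x hx hB σ hσ F U hF g hg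
        (h.one_transfer ?_ (comap_ne_top σ J hJ1))
      intro h0 hh0
      rw [Ideal.mem_comap]
      have h2 : σ.symm (PowerSeries.C h0) ∈ (Ideal.map (ext K (GenField n K)) J).radical := by
        have h3 : ext (GenField n K) L (σ.symm (PowerSeries.C h0)) ∈ b := by
          rw [← mem_map_algEquiv σ2, hσ2, AlgEquiv.apply_symm_apply, PowerSeries.map_C, hbmap]
          apply Ideal.mem_sup_right
          apply Ideal.mem_map_of_mem
          apply hsle
          rw [singIdeal_ext]
          exact Ideal.mem_map_of_mem _ hh0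
        obtain ⟨k, hk⟩ := hbJ h3
        refine ⟨k, ?_⟩
        apply mem_of_ext_mem (L := L)
        rw [map_pow]
        have h4 : (Ideal.map (ext K (GenField n K)) J).map (ext (GenField n K) L) =
            J.map (ext K L) := by
          rw [Ideal.map_map]
          congr 1
        rw [h4]
        exact hk
      rw [← AlgEquiv.apply_symm_apply σ (PowerSeries.C h0)]
      rw [mem_map_algEquiv]
      exact h2

end Pool.Agent.Helper38.EQ
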