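import Pool.Agent.Helper38.EQ.AlgBasic

/-!
# EQ-A2 (contraction of extended primes)

Let `taylorAt Q h ^ N = ∑ taylorAt Q p_i * s_i` with `p_i ∈ P`.  For every `k` approximate the `s_i`
by polynomials modulo `maximalIdeal^k` (`exists_approx`): `h^N - ∑ p_i h_i ∈ pointIdeal Q ^ k` by
`taylorAt_mem_pow`.  So the class of `h^N` in the Noetherian domain `R/P` lies in all powers of the
proper ideal `(pointIdeal Q)/P`, hence is `0` (`Ideal.iInf_pow_eq_bot_of_isDomain`).
-/

namespace Pool.Agent.Helper38.EQ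

open MvPowerSeries

private theorem ct_approx {n : ℕ} {K : Type} [Field K] (Q : Fin n → K)
    (I : Ideal (MvPolynomial (Fin n) K)) (k : ℕ) (z : MvPowerSeries (Fin n) K)
    (hz : z ∈ I.map (taylorAt Q)) :
    ∃ p ∈ I, z - taylorAt Q p ∈ IsLocalRing.maximalIdeal (MvPowerSeries (Fin n) K) ^ k := by
  refine Submodule.span_induction (p := fun z _ => ∃ p ∈ I, z - taylorAt Q p ∈
    IsLocalRing.maximalIdeal (MvPowerSeries (Fin n) K) ^ k) ?_ ?_ ?_ ?_ hz
  · rintro _ ⟨x, hx, rfl⟩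
    refine ⟨x, hx, ?_⟩
    have h1 : (taylorAt Q) x - taylorAt Q x = 0 := sub_self _
    exact h1 ▸ Submodule.zero_mem _
  · refine ⟨0, I.zero_mem, ?_⟩
    rw [map_zero, sub_zero]
    exact Submodule.zero_mem _
  · rintro x y _ _ ⟨p, hp, hp'⟩ ⟨q, hq, hq'⟩
    refine ⟨p + q, I.add_mem hp hq, ?_⟩
    have h1 : x + y - taylorAt Q (p + q) = (x - taylorAt Q p) + (y - taylorAt Q q) := by
      rw [map_add]; ring
    rw [h1]
    exact Ideal.add_mem _ hp' hq'
  · rintro s x _ ⟨p, hp, hp'⟩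
    obtain ⟨g, hg⟩ := exists_approx Q k s
    refine ⟨g * p, I.mul_mem_left _ hp, ?_⟩
    have h1 : s • x - taylorAt Q (g * p) =
        s * (x - taylorAt Q p) + (s - taylorAt Q g) * taylorAt Q p := by
      rw [map_mul, smul_eq_mul]; ring
    rw [h1]
    exact Ideal.add_mem _ (Ideal.mul_mem_left _ _ hp') (Ideal.mul_mem_right _ _ hg)

private theorem ct_exists_mul_mem {n : ℕ} {K : Type} [Field K] (Q : Fin n → K)
    (I : Ideal (MvPolynomial (Fin n) K)) (h : MvPolynomial (Fin n) K)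
    (hh : taylorAt Q h ∈ I.map (taylorAt Q)) : ∃ u, u ∉ pointIdeal Q ∧ u * h ∈ I := by
  have h1 : (Ideal.Quotient.mk I h : MvPolynomial (Fin n) K ⧸ I) ∈
      (⨅ k : ℕ, pointIdeal Q ^ k • ⊤ :
        Submodule (MvPolynomial (Fin n) K) (MvPolynomial (Fin n) K ⧸ I)) := by
    rw [Submodule.mem_iInf]
    intro k
    obtain ⟨p, hp, hp'⟩ := ct_approx Q I k _ hh
    have h2 : h - p ∈ pointIdeal Q ^ k := by
      rw [← taylorAt_mem_pow, map_sub]
      exact hp'
    have h3 : (Ideal.Quotient.mk I h : MvPolynomial (Fin n) K ⧸ I) =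
        (h - p) • (Ideal.Quotient.mk I 1 : MvPolynomial (Fin n) K ⧸ I) := by
      have h5 : (h - p) • (Ideal.Quotient.mk I 1 : MvPolynomial (Fin n) K ⧸ I) =
          Ideal.Quotient.mk I ((h - p) * 1) := rfl
      rw [h5, Ideal.Quotient.eq]
      have h4 : h - (h - p) * 1 = p := by ring
      rw [h4]
      exact hp
    rw [h3]
    exact Submodule.smul_mem_smul h2 Submodule.mem_top
  rw [Ideal.mem_iInf_smul_pow_eq_bot_iff] at h1
  obtain ⟨r, hr⟩ := h1
  refine ⟨1 - (r : MvPolynomial (Fin n) K), ?_, ?_⟩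
  · intro h2
    have h3 : (1 : MvPolynomial (Fin n) K) ∈ pointIdeal Q := by
      have h4 := Ideal.add_mem _ h2 r.2
      rwa [sub_add_cancel] at h4
    exact (pointIdeal_isMaximal Q).ne_top ((Ideal.eq_top_iff_one _).2 h3)
  · rw [← Ideal.Quotient.eq_zero_iff_mem, sub_mul, one_mul, map_sub]
    have h5 : (r : MvPolynomial (Fin n) K) • (Ideal.Quotient.mk I h : MvPolynomial (Fin n) K ⧸ I) =
        Ideal.Quotient.mk I ((r : MvPolynomial (Fin n) K) * h) := rfl
    rw [← h5, hr, sub_self]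

theorem mem_of_taylorAt_mem {n : ℕ} {K : Type} [Field K] (Q : Fin n → K)
    (P : Ideal (MvPolynomial (Fin n) K)) [P.IsPrime] (hP : P ≤ pointIdeal Q)
    (h : MvPolynomial (Fin n) K)
    (hh : taylorAt Q h ∈ (P.map (taylorAt Q)).radical) : h ∈ P := by
  obtain ⟨N, hN⟩ := hh
  rw [← map_pow] at hN
  obtain ⟨u, hu, hu'⟩ := ct_exists_mul_mem Q P _ hN
  rcases (inferInstance : P.IsPrime).mem_or_mem hu' with h1 | h1
  · exact absurd (hP h1) hu
  · exact (inferInstance : P.IsPrime).mem_of_pow_mem N h1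

/-- The same for the contraction of a finitely generated (not nec. prime) ideal to the local
ring: some element not vanishing at `Q` multiplies `h` into `I`.  (Krull intersection theorem,
`Ideal.mem_iInf_smul_pow_eq_bot_iff`: in `R/I`, an element of all `(pointIdeal Q)^k` is killed by
some `1 - r`, `r ∈ pointIdeal Q`.) -/
theorem exists_mul_mem_of_taylorAt_mem {n : ℕ} {K : Type} [Field K] (Q : Fin n → K)
    (I : Ideal (MvPolynomial (Fin n) K)) (h : MvPolynomial (Fin n) K)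
    (hh : taylorAt Q h ∈ I.map (taylorAt Q)) : ∃ u, u ∉ pointIdeal Q ∧ u * h ∈ I :=
  ct_exists_mul_mem Q I h hh

end Pool.Agent.Helper38.EQ
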