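import Pool.Agent.Helper38.EQ.Psi

/-! The main induction. -/

namespace Pool.Agent.Helper38.EQ

open MvPowerSeries

theorem map_algEquiv_radical {K R S : Type} [Field K] [CommRing R] [CommRing S] [Algebra K R]
    [Algebra K S] (e : R ≃ₐ[K] S) (I : Ideal R) (z : S) (k : ℕ)
    (hz : z ^ k ∈ I.radical.map e) : z ∈ I.radical.map e := by
  obtain ⟨w, rfl⟩ := e.surjective z
  rw [← map_pow, mem_map_algEquiv] at hz
  rw [mem_map_algEquiv]
  exact I.radical_isRadical ⟨k, hz⟩

theorem exists_order {n : ℕ} {K : Type} [Field K] (f : MvPowerSeries (Fin n) K) (hf : f ≠ 0) :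
    ∃ e, f ∈ IsLocalRing.maximalIdeal (MvPowerSeries (Fin n) K) ^ e ∧
      f ∉ IsLocalRing.maximalIdeal (MvPowerSeries (Fin n) K) ^ (e + 1) := by
  by_contra hcon
  push Not at hcon
  have hall : ∀ e, f ∈ IsLocalRing.maximalIdeal (MvPowerSeries (Fin n) K) ^ e := by
    intro e
    induction e with
    | zero => simp
    | succ e ih => exact hcon e ih
  apply hf
  ext α
  have := (mem_maximalIdeal_pow_iff _ _).mp (hall (∑ i, α i + 1)) α (Nat.lt_succ_self _)
  simpa using this

section Step

variable {n : ℕ} {K L M : Type} [Field K] [Field L] [Field M] [Algebra K L] [Algebra L M]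
  [Algebra K M]

/-- The lift of a smooth germ `b'` of the base to the section `z = r` over it. -/
theorem lift_smooth (A' : Finset (Fin n)) (b' : Ideal (MvPowerSeries (Fin n) M))
    (hb' : SmoothIdeal A' b') (r : MvPowerSeries (Fin n) M)
    (hr : r ∈ IsLocalRing.maximalIdeal (MvPowerSeries (Fin n) M))
    (σ : MvPowerSeries (Fin (n + 1)) M ≃ₐ[M] PowerSeries (MvPowerSeries (Fin n) M)) :
    ∃ (A : Finset (Fin (n + 1))) (b : Ideal (MvPowerSeries (Fin (n + 1)) M)),
      A.card = A'.card + 1 ∧ SmoothIdeal A b ∧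
      b.map σ = Ideal.span {PowerSeries.X - PowerSeries.C r} ⊔ b'.map PowerSeries.C := by
  obtain ⟨τ, rfl⟩ := hb'
  obtain ⟨Ψ, hΨ0, hΨs⟩ := exists_psi τ r hr
  refine ⟨insert 0 (A'.map ⟨Fin.succ, Fin.succ_injective n⟩),
    (coordIdeal M (insert 0 (A'.map ⟨Fin.succ, Fin.succ_injective n⟩))).map (Ψ.trans σ.symm),
    ?_, ⟨Ψ.trans σ.symm, rfl⟩, ?_⟩
  · rw [Finset.card_insert_of_notMem, Finset.card_map]
    simp [Fin.succ_ne_zero]
  · have h1 : Ideal.map σ (Ideal.map (Ψ.trans σ.symm)
        (coordIdeal M (insert 0 (A'.map ⟨Fin.succ, Fin.succ_injective n⟩)))) =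
        Ideal.map Ψ (coordIdeal M (insert 0 (A'.map ⟨Fin.succ, Fin.succ_injective n⟩))) := by
      have h2 : Ideal.map σ (Ideal.map (Ψ.trans σ.symm)
        (coordIdeal M (insert 0 (A'.map ⟨Fin.succ, Fin.succ_injective n⟩)))) =
        Ideal.map (σ : MvPowerSeries (Fin (n + 1)) M →+* PowerSeries (MvPowerSeries (Fin n) M))
        (Ideal.map ((Ψ.trans σ.symm : MvPowerSeries (Fin (n + 1)) M ≃ₐ[M]
          MvPowerSeries (Fin (n + 1)) M) : MvPowerSeries (Fin (n + 1)) M →+*
          MvPowerSeries (Fin (n + 1)) M)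
        (coordIdeal M (insert 0 (A'.map ⟨Fin.succ, Fin.succ_injective n⟩)))) := rfl
      rw [h2, Ideal.map_map]
      have h3 : (σ : MvPowerSeries (Fin (n + 1)) M →+* PowerSeries (MvPowerSeries (Fin n) M)).comp
        ((Ψ.trans σ.symm : MvPowerSeries (Fin (n + 1)) M ≃ₐ[M]
          MvPowerSeries (Fin (n + 1)) M) : MvPowerSeries (Fin (n + 1)) M →+*
          MvPowerSeries (Fin (n + 1)) M) =
          (Ψ : MvPowerSeries (Fin (n + 1)) M →+* PowerSeries (MvPowerSeries (Fin n) M)) := by
        apply RingHom.ext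
        intro z
        simp
      rw [h3]
      rfl
    rw [h1]
    apply le_antisymm
    · rw [Ideal.map_le_iff_le_comap, Ideal.span_le]
      rintro _ ⟨i, hi, rfl⟩
      rw [Finset.mem_coe, Finset.mem_insert] at hi
      rw [SetLike.mem_coe, Ideal.mem_comap]
      show Ψ (X i) ∈ Ideal.span {PowerSeries.X - PowerSeries.C r} ⊔
        (Ideal.map τ (coordIdeal M A')).map PowerSeries.C
      rcases hi with rfl | hi
      · rw [hΨ0]
        exact Ideal.mem_sup_left (Ideal.subset_span rfl)
      · obtain ⟨a, ha, rfl⟩ := Finset.mem_map.mp hi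
        show Ψ (X a.succ) ∈ Ideal.span {PowerSeries.X - PowerSeries.C r} ⊔
          (Ideal.map τ (coordIdeal M A')).map PowerSeries.C
        rw [hΨs]
        refine Ideal.mem_sup_right (Ideal.mem_map_of_mem _ ?_)
        rw [mem_map_algEquiv]
        exact Ideal.subset_span ⟨a, ha, rfl⟩
    · apply sup_le
      · rw [Ideal.span_le]
        rintro _ rfl
        show PowerSeries.X - PowerSeries.C r ∈ Ideal.map Ψ (coordIdeal M
          (insert 0 (A'.map ⟨Fin.succ, Fin.succ_injective n⟩)))
        rw [← hΨ0, mem_map_algEquiv]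
        exact Ideal.subset_span ⟨0, by simp, rfl⟩
      · rw [Ideal.map_le_iff_le_comap]
        have h4 : Ideal.map τ (coordIdeal M A') = Ideal.map
          (τ : MvPowerSeries (Fin n) M →+* MvPowerSeries (Fin n) M) (coordIdeal M A') := rfl
        rw [h4, Ideal.map_le_iff_le_comap, Ideal.span_le]
        rintro _ ⟨a, ha, rfl⟩
        show PowerSeries.C (τ (X a)) ∈ Ideal.map Ψ (coordIdeal M
          (insert 0 (A'.map ⟨Fin.succ, Fin.succ_injective n⟩)))
        rw [← hΨs, mem_map_algEquiv]
        refine Ideal.subset_span ⟨a.succ, ?_, rfl⟩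
        rw [Finset.mem_coe, Finset.mem_insert]
        right
        exact Finset.mem_map.mpr ⟨a, ha, rfl⟩

/-- Membership of `F` in the `m`-th power of the ideal of the section. -/
theorem coe_mem_pow_of_taylor {R : Type} [CommRing R] (F : Polynomial R)
    (r : R) (b' : Ideal R) (𝔟 : Ideal (PowerSeries R))
    (hb : b'.map PowerSeries.C ≤ 𝔟) (hr : PowerSeries.X - PowerSeries.C r ∈ 𝔟)
    (h : ∀ j ≤ F.natDegree, (Polynomial.taylor r F).coeff (F.natDegree - j) ∈ b' ^ j) :
    (F : PowerSeries R) ∈ 𝔟 ^ F.natDegree := by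
  have h1 := Polynomial.sum_taylor_eq F r
  rw [Polynomial.sum_over_range _ (by simp), Polynomial.natDegree_taylor] at h1
  have h2 : (F : PowerSeries R) =
      ∑ i ∈ Finset.range (F.natDegree + 1), PowerSeries.C ((Polynomial.taylor r F).coeff i) *
        (PowerSeries.X - PowerSeries.C r) ^ i := by
    conv_lhs => rw [← h1]
    have h3 := map_sum (Polynomial.coeToPowerSeries.ringHom
      (R := R)) (fun i => Polynomial.C ((Polynomial.taylor r F).coeff i) *
        (Polynomial.X - Polynomial.C r) ^ i) (Finset.range (F.natDegree + 1))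
    rw [Polynomial.coeToPowerSeries.ringHom_apply] at h3
    rw [h3]
    refine Finset.sum_congr rfl fun i _ => ?_
    rw [map_mul, map_pow, map_sub]
    simp [Polynomial.coeToPowerSeries.ringHom_apply]
  rw [h2]
  refine Ideal.sum_mem _ fun i hi => ?_
  have hi' : i ≤ F.natDegree := Nat.lt_succ_iff.mp (Finset.mem_range.mp hi)
  have h3 := h (F.natDegree - i) (Nat.sub_le _ _)
  rw [Nat.sub_sub_self hi'] at h3
  have h4 : PowerSeries.C ((Polynomial.taylor r F).coeff i) ∈ 𝔟 ^ (F.natDegree - i) := by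
    have h5 : (b' ^ (F.natDegree - i)).map PowerSeries.C ≤ 𝔟 ^ (F.natDegree - i) := by
      rw [Ideal.map_pow]
      exact Ideal.pow_right_mono hb _
    exact h5 (Ideal.mem_map_of_mem _ h3)
  have h6 : (PowerSeries.X - PowerSeries.C r) ^ i ∈ 𝔟 ^ i :=
    Ideal.pow_mem_pow hr _
  have h7 := Ideal.mul_mem_mul h4 h6
  rw [← pow_add, Nat.sub_add_cancel hi'] at h7
  exact h7

end Step


theorem claimC_step {n : ℕ} {K L1 : Type} [Field K] [CharZero K] [Field L1]
    [Algebra K L1] (k : ℕ)
    (f : MvPowerSeries (Fin (n + 1)) K) (I : Ideal (MvPowerSeries (Fin (n + 1)) K))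
    (hI : singIdeal f ≤ I)
    (σ : MvPowerSeries (Fin (n + 1)) L1 ≃ₐ[L1]
      PowerSeries (MvPowerSeries (Fin n) L1))
    (F : Polynomial (MvPowerSeries (Fin n) L1))
    (U : PowerSeries (MvPowerSeries (Fin n) L1))
    (hF : (σ (ext K L1 f)).IsWeierstrassFactorization F U)
    (g : MvPowerSeries (Fin n) L1)
    (hg : Ideal.span {g} = (Ideal.span {F.discr}).radical) (hg0 : g ≠ 0)
    (hI1 : I ≠ ⊤)
    (hdegree : ∀ m, f ∈ IsLocalRing.maximalIdeal (MvPowerSeries (Fin (n + 1)) K) ^ m →
      f ∉ IsLocalRing.maximalIdeal (MvPowerSeries (Fin (n + 1)) K) ^ (m + 1) → F.natDegree = m)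
    (ih : g ∈ (Ideal.comap (PowerSeries.C (R := MvPowerSeries (Fin n) L1))
          (Ideal.map σ (Ideal.map (ext K L1) I).radical)) →
        (Ideal.comap (PowerSeries.C (R := MvPowerSeries (Fin n) L1))
          (Ideal.map σ (Ideal.map (ext K L1) I).radical)) ≠ ⊤ →
      ∃ (L : Type) (_ : Field L) (_ : IsAlgClosed L) (_ : Algebra L1 L)
        (A : Finset (Fin n)) (b : Ideal (MvPowerSeries (Fin n) L)), A.card = k + 1 ∧
        SmoothIdeal A b ∧
        b ≤ ((Ideal.comap (PowerSeries.C (R := MvPowerSeries (Fin n) L1))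
          (Ideal.map σ (Ideal.map (ext K L1) I).radical)).map
            (ext L1 L)).radical ∧
        ∀ m, g ∈ IsLocalRing.maximalIdeal (MvPowerSeries (Fin n) L1) ^ m →
          ext L1 L g ∈ b ^ m) :
    ∃ (L : Type) (_ : Field L) (_ : IsAlgClosed L) (_ : Algebra K L)
      (A : Finset (Fin (n + 1))) (b : Ideal (MvPowerSeries (Fin (n + 1)) L)),
      A.card = k + 1 + 1 ∧ SmoothIdeal A b ∧ b ≤ (I.map (ext K L)).radical ∧
      ∀ m, f ∈ IsLocalRing.maximalIdeal (MvPowerSeries (Fin (n + 1)) K) ^ m →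
        ext K L f ∈ b ^ m := by
  set J1 := Ideal.map σ (Ideal.map (ext K L1) I).radical with hJ1
  have hJ1rad : ∀ z k, z ^ k ∈ J1 → z ∈ J1 := fun z k hz => map_algEquiv_radical σ _ z k hz
  have hfI : f ∈ I := hI (Ideal.subset_span (Set.mem_union_left _ rfl))
  have hIle : ∀ z, z ∈ Ideal.map (ext K L1) I → σ z ∈ J1 := fun z hz => by
    rw [hJ1, mem_map_algEquiv]; exact Ideal.le_radical hz
  have hJ1ne : J1 ≠ ⊤ := by
    intro h
    have h1 : (1 : MvPowerSeries (Fin (n + 1)) L1) ∈ (Ideal.map (ext K L1) I).radical := by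
      rw [← mem_map_algEquiv σ, ← hJ1, h]; trivial
    have h2 := (Ideal.eq_top_iff_one _).mpr h1
    rw [Ideal.radical_eq_top] at h2
    exact ext_ne_top I hI1 h2
  have heq : σ (ext K L1 f) = F * U := hF.eq_mul
  have hU : IsUnit U := hF.isUnit
  have hFmonic : F.Monic := hF.isDistinguishedAt.monic
  -- `F ∈ J1`
  have hFJ : (F : PowerSeries (MvPowerSeries (Fin n) L1)) ∈ J1 := by
    have h1 := hIle _ (Ideal.mem_map_of_mem (ext K L1) hfI)
    rw [heq] at h1
    exact (Ideal.mul_unit_mem_iff_mem _ hU).mp h1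
  -- its derivative as well
  have hF'J : (F.derivative : PowerSeries (MvPowerSeries (Fin n) L1)) ∈ J1 := by
    have h1 := deriv_mem_map σ f I hI
    have h2 : Ideal.map σ (Ideal.map (ext K L1) I) ≤ J1 :=
      Ideal.map_mono Ideal.le_radical
    have h3 := h2 h1
    rw [heq, Derivation.leibniz, smul_eq_mul, smul_eq_mul] at h3
    have h4 : U * PowerSeries.derivative (MvPowerSeries (Fin n) L1)
        (F : PowerSeries (MvPowerSeries (Fin n) L1)) ∈ J1 := by
      have h5 := J1.sub_mem h3 (J1.mul_mem_right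
        (PowerSeries.derivative (MvPowerSeries (Fin n) L1) U) hFJ)
      rwa [add_sub_cancel_left] at h5
    have h6 := (Ideal.unit_mul_mem_iff_mem _ hU).mp h4
    rwa [PowerSeries.derivative_coe] at h6
  have hpos : 0 < F.natDegree := by
    rcases Nat.eq_zero_or_pos F.natDegree with h | h
    · exfalso
      have h1 : F = 1 := hFmonic.natDegree_eq_zero.mp h
      rw [h1, Polynomial.coe_one] at hFJ
      exact hJ1ne ((Ideal.eq_top_iff_one _).mpr hFJ)
    · exact h
  have hDJ : PowerSeries.C F.discr ∈ J1 := C_discr_mem F hFmonic hpos J1 hFJ hF'J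
  have hgrad : g ∈ (Ideal.span {F.discr}).radical := by
    rw [← hg]; exact Ideal.mem_span_singleton_self g
  obtain ⟨N, hN⟩ := hgrad
  rw [Ideal.mem_span_singleton] at hN
  have hgI : g ∈ Ideal.comap (PowerSeries.C (R := MvPowerSeries (Fin n) L1)) J1 := by
    rw [Ideal.mem_comap]
    apply hJ1rad _ N
    rw [← map_pow]
    obtain ⟨c, hc⟩ := hN
    rw [hc, map_mul]
    exact J1.mul_mem_right _ hDJ
  have hI'ne : Ideal.comap (PowerSeries.C (R := MvPowerSeries (Fin n) L1)) J1 ≠ ⊤ := by
    intro h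
    apply hJ1ne
    rw [Ideal.eq_top_iff_one] at h ⊢
    rw [Ideal.mem_comap, map_one] at h
    exact h
  obtain ⟨L2, iF, iC, iA, A', b', hcard, hsm, hble, hmul⟩ := ih hgI hI'ne
  let _ : Algebra K L2 := ((algebraMap L1 L2).comp (algebraMap K L1)).toAlgebra
  have hKM : algebraMap K L2 = (algebraMap L1 L2).comp (algebraMap K L1) := rfl
  have : CharZero L2 := charZero_of_injective_algebraMap (algebraMap K L2).injective
  have hcomp : ∀ h : MvPowerSeries (Fin (n + 1)) K, ext K L2 h = ext L1 L2 (ext K L1 h) :=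
    fun h => ext_comp hKM h
  obtain ⟨σ2, hσ2⟩ := exists_baseChange' (L := L2) σ
  set F2 := F.map (ext (n := n) L1 L2) with hF2
  have hF2m : F2.Monic := hFmonic.map _
  have hF2d : F2.natDegree = F.natDegree := hFmonic.natDegree_map _
  have hσ2f : σ2 (ext K L2 f) = (F2 : PowerSeries (MvPowerSeries (Fin n) L2)) *
      PowerSeries.map (ext (n := n) L1 L2) U := by
    rw [hcomp, hσ2, heq, map_mul]
    congr 1
    rw [hF2]
    ext i
    simp
  have hU2 : IsUnit (PowerSeries.map (ext (n := n) L1 L2) U) := hU.map _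
  -- orders
  have hf0 : f ≠ 0 := by
    rintro rfl
    rw [map_zero, map_zero] at heq
    have h2 : (F : PowerSeries (MvPowerSeries (Fin n) L1)) = 0 :=
      (hU.mul_left_eq_zero).mp heq.symm
    exact hFmonic.ne_zero (by exact_mod_cast h2)
  obtain ⟨m, hm1, hm2⟩ := exists_order f hf0
  have hdeg : F.natDegree = m := hdegree m hm1 hm2
  have hco : ∀ j ≤ F.natDegree, F.coeff (F.natDegree - j) ∈
      IsLocalRing.maximalIdeal (MvPowerSeries (Fin n) L1) ^ j := by
    apply coeff_mem_pow F U hU
    rw [← heq, hdeg]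
    exact (algEquiv_mem_maximalIdeal_pow (σ.trans (finSuccEquiv L1 n).symm).toRingEquiv m
      (ext K L1 f)).mpr ((ext_mem_pow f m).mpr hm1)
  have hco2 : ∀ j ≤ F2.natDegree, F2.coeff (F2.natDegree - j) ∈
      IsLocalRing.maximalIdeal (MvPowerSeries (Fin n) L2) ^ j := by
    intro j hj
    rw [hF2d] at hj ⊢
    rw [hF2, Polynomial.coeff_map]
    exact (ext_mem_pow _ j).mpr (hco j hj)
  have hg2 : ext L1 L2 g ≠ 0 := by
    intro h
    apply hg0
    ext α
    have := congrArg (coeff α) h
    rw [coeff_ext] at this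
    simpa using this
  have hdisc2 : F2.discr = ext L1 L2 F.discr := by
    rw [hF2, discr_map _ F hFmonic hpos]
  have hN2 : F2.discr ∣ (ext L1 L2 g) ^ N := by
    rw [hdisc2, ← map_pow]
    exact map_dvd _ hN
  have hmul2 : ∀ m', ext L1 L2 g ∈ IsLocalRing.maximalIdeal (MvPowerSeries (Fin n) L2) ^ m' →
      ext L1 L2 g ∈ b' ^ m' := fun m' hm' => hmul m' ((ext_mem_pow g m').mp hm')
  -- the Tschirnhausen shift
  obtain ⟨r, hr⟩ : ∃ r : MvPowerSeries (Fin n) L2,
      (F2.natDegree : MvPowerSeries (Fin n) L2) * r = - F2.coeff (F2.natDegree - 1) := by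
    have hc : (F2.natDegree : L2) ≠ 0 := by
      rw [hF2d]; exact_mod_cast hpos.ne'
    refine ⟨C ((F2.natDegree : L2)⁻¹) * (- F2.coeff (F2.natDegree - 1)), ?_⟩
    rw [← mul_assoc, ← map_natCast (C (σ := Fin n) (R := L2)), ← map_mul, mul_inv_cancel₀ hc,
      map_one, one_mul]
  have hrm : r ∈ IsLocalRing.maximalIdeal (MvPowerSeries (Fin n) L2) := by
    have h1 := hco2 1 (by rw [hF2d]; exact hpos)
    rw [pow_one, mem_maximalIdeal_iff_constantCoeff] at h1
    rw [mem_maximalIdeal_iff_constantCoeff]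
    have := congrArg (constantCoeff (σ := Fin n) (R := L2)) hr
    rw [map_mul, map_neg, h1, neg_zero, map_natCast] at this
    rcases mul_eq_zero.mp this with h | h
    · exact absurd h (by rw [hF2d]; exact_mod_cast hpos.ne')
    · exact h
  have hkey := key_smooth A' b' hsm F2 hF2m (by rw [hF2d]; exact hpos) hco2
    (ext L1 L2 g) hg2 N hN2 hmul2 r hr
  obtain ⟨A, b, hAc, hAs, hbσ⟩ := lift_smooth A' b' hsm r hrm σ2
  -- the section lies in `J2`
  set J2 := Ideal.map σ2 (Ideal.map (ext K L2) I).radical with hJ2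
  have hJ2rad : ∀ z k, z ^ k ∈ J2 → z ∈ J2 := fun z k hz => map_algEquiv_radical σ2 _ z k hz
  have hJ12 : ∀ z ∈ J1, PowerSeries.map (ext (n := n) L1 L2) z ∈ J2 := by
    intro z hz
    obtain ⟨w, rfl⟩ := σ.surjective z
    rw [hJ1, mem_map_algEquiv] at hz
    obtain ⟨e, he⟩ := hz
    rw [← hσ2, hJ2, mem_map_algEquiv]
    refine ⟨e, ?_⟩
    rw [← map_pow]
    have h1 := Ideal.mem_map_of_mem (ext L1 L2) he
    rw [Ideal.map_map] at h1
    have h2 : (ext (n := n + 1) L1 L2).comp (ext K L1) = ext K L2 := by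
      apply RingHom.ext
      intro h
      exact (hcomp h).symm
    rw [h2] at h1
    exact h1
  have hb'J2 : b'.map (PowerSeries.C (R := MvPowerSeries (Fin n) L2)) ≤ J2 := by
    rw [Ideal.map_le_iff_le_comap]
    intro h hh
    obtain ⟨e, he⟩ := hble hh
    rw [Ideal.mem_comap]
    apply hJ2rad _ e
    rw [← map_pow]
    have h1 : Ideal.map (ext L1 L2) (Ideal.comap
        (PowerSeries.C (R := MvPowerSeries (Fin n) L1)) J1) ≤
        Ideal.comap (PowerSeries.C (R := MvPowerSeries (Fin n) L2)) J2 := by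
      rw [Ideal.map_le_iff_le_comap]
      intro w hw
      rw [Ideal.mem_comap] at hw
      rw [Ideal.mem_comap, Ideal.mem_comap]
      have := hJ12 _ hw
      rwa [PowerSeries.map_C] at this
    exact h1 he
  have hF2J2 : (F2 : PowerSeries (MvPowerSeries (Fin n) L2)) ∈ J2 := by
    have h1 : σ2 (ext K L2 f) ∈ J2 := by
      rw [hJ2, mem_map_algEquiv]
      exact Ideal.le_radical (Ideal.mem_map_of_mem _ hfI)
    rw [hσ2f] at h1
    exact (Ideal.mul_unit_mem_iff_mem _ hU2).mp h1
  have hζ : PowerSeries.X - PowerSeries.C r ∈ J2 := by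
    apply hJ2rad _ F2.natDegree
    have h1 := Polynomial.sum_taylor_eq F2 r
    rw [Polynomial.sum_over_range _ (by simp), Polynomial.natDegree_taylor,
      Finset.sum_range_succ] at h1
    have hlead : (Polynomial.taylor r F2).coeff F2.natDegree = 1 := by
      rw [Polynomial.coeff_taylor_natDegree]; exact hF2m
    rw [hlead, Polynomial.C_1, one_mul] at h1
    have h2 := congrArg (fun P : Polynomial (MvPowerSeries (Fin n) L2) =>
      Polynomial.coeToPowerSeries.ringHom P) h1
    simp only [map_add, map_sum, map_mul, map_pow, map_sub,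
      Polynomial.coeToPowerSeries.ringHom_apply, Polynomial.coe_C, Polynomial.coe_X] at h2
    have h3 : (PowerSeries.X - PowerSeries.C r) ^ F2.natDegree =
        (F2 : PowerSeries (MvPowerSeries (Fin n) L2)) -
        ∑ i ∈ Finset.range F2.natDegree, PowerSeries.C ((Polynomial.taylor r F2).coeff i) *
          (PowerSeries.X - PowerSeries.C r) ^ i := by
      rw [← h2]; ring
    rw [h3]
    refine J2.sub_mem hF2J2 (Ideal.sum_mem _ fun i hi => J2.mul_mem_right _ ?_)
    have hi' : i < F2.natDegree := Finset.mem_range.mp hi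
    have h4 := hkey (F2.natDegree - i) (Nat.sub_le _ _)
    rw [Nat.sub_sub_self hi'.le] at h4
    exact hb'J2 (Ideal.mem_map_of_mem _ (Ideal.pow_le_self (by omega) h4))
  refine ⟨L2, iF, iC, inferInstance, A, b, by rw [hAc, hcard], hAs, ?_, ?_⟩
  · intro h hh
    have h1 : σ2 h ∈ J2 := by
      have h2 := Ideal.mem_map_of_mem σ2 hh
      rw [hbσ] at h2
      exact (sup_le (by
        rw [Ideal.span_le]
        rintro _ rfl
        exact hζ) hb'J2) h2
    rw [hJ2, mem_map_algEquiv] at h1
    exact h1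
  · intro m' hm'
    have hmm : m' ≤ m := by
      by_contra hcon
      push Not at hcon
      exact hm2 (Ideal.pow_le_pow_right hcon hm')
    have h1 : ext K L2 f ∈ b ^ m := by
      rw [← mem_map_algEquiv σ2]
      have h2 : Ideal.map σ2 (b ^ m) = (Ideal.map σ2 b) ^ m := Ideal.map_pow _ _ _
      rw [h2, hσ2f]
      refine Ideal.mul_mem_right _ _ ?_
      have h3 := coe_mem_pow_of_taylor F2 r b' (Ideal.map σ2 b)
        (by rw [hbσ]; exact le_sup_right)
        (by rw [hbσ]; exact Ideal.mem_sup_left (Ideal.subset_span rfl)) hkey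
      rw [hF2d, hdeg] at h3
      exact h3
    exact Ideal.pow_le_pow_right hmm h1

theorem claimC_simple {n : ℕ} {K : Type} [Field K] [IsAlgClosed K]
    (f : MvPowerSeries (Fin n) K) (I : Ideal (MvPowerSeries (Fin n) K)) (hfI : f ∈ I)
    (h1 : f ∈ IsLocalRing.maximalIdeal (MvPowerSeries (Fin n) K))
    (h2 : f ∉ IsLocalRing.maximalIdeal (MvPowerSeries (Fin n) K) ^ 2) :
    ∃ (L : Type) (_ : Field L) (_ : IsAlgClosed L) (_ : Algebra K L)
      (A : Finset (Fin n)) (b : Ideal (MvPowerSeries (Fin n) L)),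
      A.card = 0 + 1 ∧ SmoothIdeal A b ∧ b ≤ (I.map (ext K L)).radical ∧
      ∀ m, f ∈ IsLocalRing.maximalIdeal (MvPowerSeries (Fin n) K) ^ m →
        ext K L f ∈ b ^ m := by
  have hid : ∀ h : MvPowerSeries (Fin n) K, ext K K h = h := by
    intro h
    ext α
    rw [coeff_ext]; rfl
  -- a non zero linear coefficient
  obtain ⟨i₀, hi₀⟩ : ∃ i₀ : Fin n, coeff (Finsupp.single i₀ 1) f ≠ 0 := by
    by_contra hcon
    push Not at hcon
    apply h2
    rw [mem_maximalIdeal_pow_iff]
    intro α hα
    have hc : (∑ i, α i) = 0 ∨ (∑ i, α i) = 1 := by omega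
    rcases hc with hc | hc
    · have : α = 0 := by
        ext i
        simpa using Finset.sum_eq_zero_iff.mp hc i (Finset.mem_univ i)
      subst this
      have := (mem_maximalIdeal_iff_constantCoeff f).mp h1
      simpa using this
    · obtain ⟨i, hi⟩ : ∃ i, α i ≠ 0 := by
        by_contra hall
        push Not at hall
        rw [Finset.sum_eq_zero (fun i _ => hall i)] at hc
        omega
      have h3 : α = Finsupp.single i 1 := by
        ext j
        by_cases hj : j = i
        · subst hj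
          have := Finset.single_le_sum (f := fun i => α i) (fun i _ => Nat.zero_le _)
            (Finset.mem_univ j)
          rw [Finsupp.single_eq_same]
          omega
        · have h4 := Finset.sum_le_sum_of_subset (f := fun i => α i)
            (Finset.subset_univ ({i, j} : Finset (Fin n)))
          rw [Finset.sum_pair (Ne.symm hj)] at h4
          rw [Finsupp.single_eq_of_ne hj]
          omega
      rw [h3]
      exact hcon i
  set y : Fin n → MvPowerSeries (Fin n) K := Function.update (fun i => X i) i₀ f with hy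
  have hspan : Ideal.span (Set.range y) =
      IsLocalRing.maximalIdeal (MvPowerSeries (Fin n) K) := by
    apply span_eq_of_linear
    · intro i
      by_cases hi : i = i₀
      · subst hi
        simpa [hy] using (mem_maximalIdeal_iff_constantCoeff f).mp h1
      · simp [hy, Function.update_of_ne hi]
    · have h3 : (Matrix.of fun i j => coeff (Finsupp.single j 1) (y i)) =
          (1 : Matrix (Fin n) (Fin n) K).updateRow i₀
            (fun j => coeff (Finsupp.single j 1) f) := by
        ext i j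
        by_cases hi : i = i₀
        · subst hi
          simp [hy]
        · rw [Matrix.updateRow_ne hi]
          simp only [hy, Matrix.of_apply, Function.update_of_ne hi, Matrix.one_apply]
          rw [coeff_X]
          by_cases hij : i = j
          · subst hij; simp
          · rw [if_neg hij, if_neg]
            intro h
            exact hij ((Finsupp.single_left_inj one_ne_zero).mp h).symm
      rw [h3]
      have h4 := Matrix.det_updateRow_sum (1 : Matrix (Fin n) (Fin n) K) i₀
        (fun j => coeff (Finsupp.single j 1) f)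
      have h5 : (∑ k, coeff (Finsupp.single k 1) f • (1 : Matrix (Fin n) (Fin n) K) k) =
          fun j => coeff (Finsupp.single j 1) f := by
        funext j
        simp [Finset.sum_apply, Matrix.one_apply]
      rw [h5] at h4
      rw [h4]
      simpa using hi₀
  obtain ⟨τ, hτ⟩ := exists_algEquiv y hspan
  refine ⟨K, inferInstance, inferInstance, Algebra.id K, {i₀}, Ideal.span {f},
    by simp, ⟨τ, ?_⟩, ?_, ?_⟩
  · have h5 : coordIdeal K {i₀} = Ideal.span {(X i₀ : MvPowerSeries (Fin n) K)} := by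
      simp [coordIdeal]
    have h6 : Ideal.map τ (Ideal.span {(X i₀ : MvPowerSeries (Fin n) K)}) =
        Ideal.span {τ (X i₀)} := by
      rw [Ideal.map_span, Set.image_singleton]
    rw [h5, h6, hτ]
    simp [hy]
  · rw [Ideal.span_le]
    rintro _ rfl
    have := Ideal.mem_map_of_mem (ext K K) hfI
    rw [hid] at this
    exact Ideal.le_radical this
  · intro m hm
    rw [hid]
    match m with
    | 0 => simp
    | 1 => rw [pow_one]; exact Ideal.mem_span_singleton_self f
    | m + 2 => exact absurd (Ideal.pow_le_pow_right (by omega) hm) h2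

theorem claimC {B : BasisClass} {k n : ℕ} {K : Type} [Field K]
    {f : MvPowerSeries (Fin n) K} {I : Ideal (MvPowerSeries (Fin n) K)}
    (h : EqLen B k n K f I) : IsAlgClosed K → CharZero K → f ∈ I → I ≠ ⊤ →
    ∃ (L : Type) (_ : Field L) (_ : IsAlgClosed L) (_ : Algebra K L)
      (A : Finset (Fin n)) (b : Ideal (MvPowerSeries (Fin n) L)),
      A.card = k + 1 ∧ SmoothIdeal A b ∧ b ≤ (I.map (ext K L)).radical ∧
      ∀ m, f ∈ IsLocalRing.maximalIdeal (MvPowerSeries (Fin n) K) ^ m →
        ext K L f ∈ b ^ m := by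
  induction h with
  | simple n K f I hI h1 h2 =>
    intro _ _ hfI hI1
    exact claimC_simple f I hfI h1 h2
  | step k n K f I hI x hx hB σ hσ F U hF g hg h ih =>
    intro hA hC hfI hI1
    have hC' : CharZero (GenField n K) :=
      charZero_of_injective_algebraMap (algebraMap K (GenField n K)).injective
    exact claimC_step k f I hI σ F U hF g hg h.ne_zero hI1
      (fun m hm hm' => natDegree_eq_order f x hx σ hσ F U hF m hm hm')
      (fun hgI hne => ih inferInstance hC' hgI hne)

end Pool.Agent.Helper38.EQ
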