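import Pool.Agent.Helper38.EQ.AlgDefs
import Pool.Agent.Helper38.EQ.Orders

/-!
# EQ-A1 (basic facts on the expansion at a point)

`taylorAt Q` is the composite of the automorphism `X i ↦ X i + C (Q i)` of the polynomial ring and
of the inclusion of polynomials into power series; `pointIdeal Q` is the inverse image of
`idealOfVars` (generated by the `X i - C (Q i)`).
`taylorAt_mem_pow`: for `Q = 0` compare `MvPolynomial` and `MvPowerSeries` coefficients: a
polynomial all of whose monomials have degree `≥ m` is in the `m`-th power of the ideal of the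
variables.
`exists_approx`: truncate (`MvPowerSeries.truncTotal`) and translate.
-/

namespace Pool.Agent.Helper38.EQ

open MvPowerSeries

/-- translation of the polynomial ring -/
noncomputable def AlgBasic_shift {n : ℕ} {K : Type} [Field K] (Q : Fin n → K) :
    MvPolynomial (Fin n) K →ₐ[K] MvPolynomial (Fin n) K :=
  MvPolynomial.aeval fun i => MvPolynomial.X i + MvPolynomial.C (Q i)

theorem AlgBasic_coe {n : ℕ} {K : Type} [Field K] (Q : Fin n → K)
    (h : MvPolynomial (Fin n) K) :
    ((AlgBasic_shift Q h : MvPolynomial (Fin n) K) : MvPowerSeries (Fin n) K) = taylorAt Q h := by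
  induction h using MvPolynomial.induction_on with
  | C a => simp [AlgBasic_shift, taylorAt, ← MvPolynomial.algebraMap_eq,
      MvPowerSeries.algebraMap_apply]
  | add p q hp hq => rw [map_add, map_add, MvPolynomial.coe_add, hp, hq]
  | mul_X p i hp =>
    rw [map_mul, map_mul, MvPolynomial.coe_mul, hp]
    congr 1
    simp [AlgBasic_shift, taylorAt]

theorem AlgBasic_inv {n : ℕ} {K : Type} [Field K] (Q : Fin n → K)
    (h : MvPolynomial (Fin n) K) :
    AlgBasic_shift (fun i => -Q i) (AlgBasic_shift Q h) = h := by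
  induction h using MvPolynomial.induction_on with
  | C a => simp [AlgBasic_shift, ← MvPolynomial.algebraMap_eq]
  | add p q hp hq => rw [map_add, map_add, hp, hq]
  | mul_X p i hp =>
    rw [map_mul, map_mul, hp]
    congr 1
    simp [AlgBasic_shift]

theorem AlgBasic_inv' {n : ℕ} {K : Type} [Field K] (Q : Fin n → K)
    (h : MvPolynomial (Fin n) K) :
    AlgBasic_shift Q (AlgBasic_shift (fun i => -Q i) h) = h := by
  have := AlgBasic_inv (fun i => -Q i) h
  simpa using this

theorem AlgBasic_X {n : ℕ} {K : Type} [Field K] (Q : Fin n → K) (i : Fin n) :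
    taylorAt Q (MvPolynomial.X i - MvPolynomial.C (Q i)) = X i := by
  simp [taylorAt, ← MvPolynomial.algebraMap_eq, MvPowerSeries.algebraMap_apply]

theorem AlgBasic_mem {n : ℕ} {K : Type} [Field K] (Q : Fin n → K) (i : Fin n) :
    MvPolynomial.X i - MvPolynomial.C (Q i) ∈ pointIdeal Q := by
  simp [pointIdeal, RingHom.mem_ker]

theorem taylorAt_pderiv {n : ℕ} {K : Type} [Field K] (Q : Fin n → K) (i : Fin n)
    (h : MvPolynomial (Fin n) K) :
    taylorAt Q (MvPolynomial.pderiv i h) = pderiv K i (taylorAt Q h) := by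
  classical
  induction h using MvPolynomial.induction_on with
  | C a =>
    have h1 : taylorAt Q (MvPolynomial.C a) = C a := by
      simp [taylorAt, ← MvPolynomial.algebraMap_eq, MvPowerSeries.algebraMap_apply]
    rw [h1]
    simp
  | add p q hp hq => rw [map_add, map_add, map_add, map_add, hp, hq]
  | mul_X p j hp =>
    have h1 : taylorAt Q (MvPolynomial.X j) = X j + C (Q j) := by
      simp [taylorAt]
    have h2 : pderiv K i (X j + C (Q j)) = C ((Pi.single i (1 : K) : Fin n → K) j) := by
      rw [map_add, pderiv_C, add_zero, pderiv_X]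
      by_cases hij : i = j
      · subst hij; simp
      · simp [Pi.single_apply, hij, Ne.symm hij]
    rw [Derivation.leibniz, map_mul, h1, Derivation.leibniz, h2, map_add, smul_eq_mul, smul_eq_mul,
      smul_eq_mul, smul_eq_mul, map_mul, map_mul, h1, hp, MvPolynomial.pderiv_X]
    congr 2
    by_cases hij : i = j
    · subst hij; simp
    · simp [Pi.single_apply, hij, Ne.symm hij]

theorem taylorAt_polyD {n : ℕ} {K : Type} [Field K] (Q : Fin n → K) (l : List (Fin n))
    (h : MvPolynomial (Fin n) K) : taylorAt Q (polyD l h) = iterD l (taylorAt Q h) := by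
  induction l with
  | nil => rfl
  | cons i l ih =>
    change taylorAt Q (MvPolynomial.pderiv i (polyD l h)) = pderiv K i (iterD l (taylorAt Q h))
    rw [taylorAt_pderiv, ih]

theorem constantCoeff_taylorAt {n : ℕ} {K : Type} [Field K] (Q : Fin n → K)
    (h : MvPolynomial (Fin n) K) :
    constantCoeff (taylorAt Q h) = MvPolynomial.eval Q h := by
  induction h using MvPolynomial.induction_on with
  | C a => simp [taylorAt, ← MvPolynomial.algebraMap_eq, MvPowerSeries.algebraMap_apply]
  | add p q hp hq => rw [map_add, map_add, map_add, hp, hq]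
  | mul_X p j hp =>
    rw [map_mul, map_mul, map_mul, hp]
    congr 1
    simp [taylorAt]

theorem AlgBasic_map_le {n : ℕ} {K : Type} [Field K] (Q : Fin n → K) :
    (pointIdeal Q).map (taylorAt Q) ≤ IsLocalRing.maximalIdeal (MvPowerSeries (Fin n) K) := by
  rw [Ideal.map_le_iff_le_comap]
  intro h hh
  rw [Ideal.mem_comap, IsLocalRing.mem_maximalIdeal, mem_nonunits_iff,
    isUnit_iff_constantCoeff, constantCoeff_taylorAt]
  rw [pointIdeal, RingHom.mem_ker] at hh
  rw [hh]
  exact not_isUnit_zero

theorem taylorAt_mem_pow {n : ℕ} {K : Type} [Field K] (Q : Fin n → K) (m : ℕ)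
    (h : MvPolynomial (Fin n) K) :
    taylorAt Q h ∈ IsLocalRing.maximalIdeal (MvPowerSeries (Fin n) K) ^ m ↔
      h ∈ pointIdeal Q ^ m := by
  constructor
  · intro hh
    rw [mem_maximalIdeal_pow_iff] at hh
    have h1 : AlgBasic_shift Q h ∈ MvPolynomial.idealOfVars (Fin n) K ^ m := by
      rw [MvPolynomial.mem_pow_idealOfVars_iff']
      intro x hx
      rw [← MvPolynomial.coeff_coe, AlgBasic_coe]
      apply hh
      rwa [Finsupp.degree_eq_sum] at hx
    have h2 : (MvPolynomial.idealOfVars (Fin n) K).map (AlgBasic_shift fun i => -Q i) ≤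
        pointIdeal Q := by
      rw [MvPolynomial.idealOfVars, Ideal.map_span, Ideal.span_le]
      rintro _ ⟨_, ⟨i, rfl⟩, rfl⟩
      have : AlgBasic_shift (fun i => -Q i) (MvPolynomial.X i) =
          MvPolynomial.X i - MvPolynomial.C (Q i) := by
        simp [AlgBasic_shift, sub_eq_add_neg]
      rw [SetLike.mem_coe]
      exact this ▸ AlgBasic_mem Q i
    have h3 := Ideal.mem_map_of_mem (AlgBasic_shift fun i => -Q i) h1
    rw [Ideal.map_pow, AlgBasic_inv] at h3
    exact Ideal.pow_right_mono h2 m h3
  · intro hh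
    have h3 := Ideal.mem_map_of_mem (taylorAt Q) hh
    rw [Ideal.map_pow] at h3
    exact Ideal.pow_right_mono (AlgBasic_map_le Q) m h3

theorem map_pointIdeal {n : ℕ} {K : Type} [Field K] (Q : Fin n → K) :
    (pointIdeal Q).map (taylorAt Q) = IsLocalRing.maximalIdeal (MvPowerSeries (Fin n) K) := by
  apply le_antisymm (AlgBasic_map_le Q)
  rw [maximalIdeal_eq_coordIdeal, Ideal.span_le]
  rintro _ ⟨i, _, rfl⟩
  rw [SetLike.mem_coe]
  change (X i : MvPowerSeries (Fin n) K) ∈ _
  rw [← AlgBasic_X Q i]
  exact Ideal.mem_map_of_mem _ (AlgBasic_mem Q i)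

theorem exists_approx {n : ℕ} {K : Type} [Field K] (Q : Fin n → K) (m : ℕ)
    (s : MvPowerSeries (Fin n) K) : ∃ h : MvPolynomial (Fin n) K,
      s - taylorAt Q h ∈ IsLocalRing.maximalIdeal (MvPowerSeries (Fin n) K) ^ m := by
  refine ⟨AlgBasic_shift (fun i => -Q i) (truncTotal m s), ?_⟩
  rw [← AlgBasic_coe, AlgBasic_inv', mem_maximalIdeal_pow_iff]
  intro α hα
  rw [map_sub, MvPolynomial.coeff_coe, coeff_truncTotal, sub_self]
  rwa [Finsupp.degree_eq_sum]

theorem polyMultIdeal_map {n : ℕ} {K : Type} [Field K] (Q : Fin n → K)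
    (f : MvPolynomial (Fin n) K) (μ : ℕ) :
    (polyMultIdeal f μ).map (taylorAt Q) = multIdeal (taylorAt Q f) μ := by
  rw [polyMultIdeal, multIdeal, Ideal.map_span]
  congr 1
  ext g
  constructor
  · rintro ⟨_, ⟨l, hl, rfl⟩, rfl⟩
    exact ⟨l, hl, taylorAt_polyD Q l f⟩
  · rintro ⟨l, hl, rfl⟩
    exact ⟨polyD l f, ⟨l, hl, rfl⟩, taylorAt_polyD Q l f⟩

end Pool.Agent.Helper38.EQ
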