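import Pool.Agent.Helper38.EQ.Defs

/-! Affine hypersurfaces: points, completed local rings, equisingularity at a point. -/

namespace Pool.Agent.Helper38.EQ

open MvPowerSeries

/-- Expansion of a polynomial at the point `Q`: the map from the coordinate ring of affine space
to the completed local ring at `Q`. -/
noncomputable def taylorAt {n : ℕ} {K : Type} [Field K] (Q : Fin n → K) :
    MvPolynomial (Fin n) K →ₐ[K] MvPowerSeries (Fin n) K :=
  MvPolynomial.aeval fun i => X i + C (Q i)

/-- The maximal ideal of the point `Q`. -/
noncomputable def pointIdeal {n : ℕ} {K : Type} [Field K] (Q : Fin n → K) :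
    Ideal (MvPolynomial (Fin n) K) :=
  RingHom.ker (MvPolynomial.eval Q)

instance pointIdeal_isMaximal {n : ℕ} {K : Type} [Field K] (Q : Fin n → K) :
    (pointIdeal Q).IsMaximal :=
  RingHom.ker_isMaximal_of_surjective _ fun a => ⟨MvPolynomial.C a, by simp⟩

/-- Iterated derivatives of a polynomial. -/
noncomputable def polyD {n : ℕ} {K : Type} [Field K] (l : List (Fin n))
    (f : MvPolynomial (Fin n) K) : MvPolynomial (Fin n) K :=
  l.foldr (fun i g => MvPolynomial.pderiv i g) f

/-- The ideal generated by the derivatives of `f` of order `< μ`: its zeros are the points of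
multiplicity `≥ μ` of the hypersurface `f = 0`. -/
noncomputable def polyMultIdeal {n : ℕ} {K : Type} [Field K] (f : MvPolynomial (Fin n) K)
    (μ : ℕ) : Ideal (MvPolynomial (Fin n) K) :=
  Ideal.span {g | ∃ l : List (Fin n), l.length < μ ∧ g = polyD l f}

/-- `V : f = 0` is equisingular at `Q` along `M = V(P)`. -/
def EquisingularAt (B : BasisClass) {n : ℕ} {K : Type} [Field K] (f : MvPolynomial (Fin n) K)
    (Q : Fin n → K) (P : Ideal (MvPolynomial (Fin n) K)) : Prop :=
  Equisingular B n K (taylorAt Q f) ((P.map (taylorAt Q)).radical)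

/-- `Q` is a simple point of `M = V(P)`: the local ring of `M` at `Q` is regular. -/
def IsSimplePoint {n : ℕ} {K : Type} [Field K] (P : Ideal (MvPolynomial (Fin n) K))
    (Q : Fin n → K) : Prop :=
  IsRegularLocalRing (Localization.AtPrime (pointIdeal Q) ⧸
    P.map (algebraMap (MvPolynomial (Fin n) K) (Localization.AtPrime (pointIdeal Q))))

end Pool.Agent.Helper38.EQ
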