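import Pool.Agent.Helper38.EQ.AlgDefs

/-!
# EQ-A3a (flatness)

`K[X] → L[X]` is flat (base change of `K → L`; `MvPolynomial (Fin n) L` is a localisation-free base
change: `MvPolynomial.algebraTensorAlgEquiv`), the translation by `Q` is an automorphism of the
polynomial ring, and `L[X] → L⟦X⟧` is flat: `MvPowerSeries.toAdicCompletionAlgEquiv` and
`AdicCompletion.flat_of_isNoetherian`.
-/

namespace Pool.Agent.Helper38.EQ

open MvPowerSeries

private theorem Flatness_coe (n : ℕ) (L : Type) [Field L] :
    (algebraMap (MvPolynomial (Fin n) L) (MvPowerSeries (Fin n) L)).Flat := by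
  rw [RingHom.flat_algebraMap_iff]
  have : Module.Flat (MvPolynomial (Fin n) L)
      (AdicCompletion (MvPolynomial.idealOfVars (Fin n) L) (MvPolynomial (Fin n) L)) :=
    AdicCompletion.flat_of_isNoetherian _
  exact Module.Flat.of_linearEquiv
    (MvPowerSeries.toAdicCompletionAlgEquiv (Fin n) L).toLinearEquiv

attribute [local instance] MvPolynomial.algebraMvPolynomial in
private theorem Flatness_map (n : ℕ) (K L : Type) [Field K] [Field L] [Algebra K L] :
    (MvPolynomial.map (algebraMap K L) :
      MvPolynomial (Fin n) K →+* MvPolynomial (Fin n) L).Flat := by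
  have h : (algebraMap K L).Flat := by
    rw [RingHom.flat_algebraMap_iff]
    infer_instance
  have h2 := RingHom.Flat.isStableUnderBaseChange K L (MvPolynomial (Fin n) K)
    (MvPolynomial (Fin n) L) h
  rw [MvPolynomial.algebraMap_def] at h2
  exact h2

private theorem Flatness_alg_C {n : ℕ} {K : Type} [Field K] (a : K) :
    algebraMap (MvPolynomial (Fin n) K) (MvPowerSeries (Fin n) K) (MvPolynomial.C a) = C a := by
  rw [MvPowerSeries.algebraMap_apply', Algebra.algebraMap_self, MvPowerSeries.map_id,
    MvPolynomial.coe_C]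
  rfl

private theorem Flatness_alg_X {n : ℕ} {K : Type} [Field K] (i : Fin n) :
    algebraMap (MvPolynomial (Fin n) K) (MvPowerSeries (Fin n) K) (MvPolynomial.X i) = X i := by
  rw [MvPowerSeries.algebraMap_apply', Algebra.algebraMap_self, MvPowerSeries.map_id,
    MvPolynomial.coe_X]
  rfl

private theorem Flatness_alg {n : ℕ} {K : Type} [Field K] (a : K) :
    algebraMap K (MvPowerSeries (Fin n) K) a = C a := by
  rw [MvPowerSeries.algebraMap_apply, Algebra.algebraMap_self, RingHom.id_apply]

/-- The translation by `Q`. -/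
private noncomputable def Flatness_tr {n : ℕ} {K : Type} [Field K] (Q : Fin n → K) :
    MvPolynomial (Fin n) K →ₐ[K] MvPolynomial (Fin n) K :=
  MvPolynomial.aeval fun i => MvPolynomial.X i + MvPolynomial.C (Q i)

private theorem Flatness_tr_comp {n : ℕ} {K : Type} [Field K] (Q R : Fin n → K)
    (h : ∀ i, Q i + R i = 0) : (Flatness_tr Q).comp (Flatness_tr R) = AlgHom.id K _ := by
  apply MvPolynomial.algHom_ext
  intro i
  have h1 : (MvPolynomial.C (Q i) + MvPolynomial.C (R i) : MvPolynomial (Fin n) K) = 0 := by
    rw [← map_add, h i, map_zero]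
  simp only [Flatness_tr, AlgHom.comp_apply, MvPolynomial.aeval_X, map_add, AlgHom.id_apply,
    MvPolynomial.algHom_C, MvPolynomial.algebraMap_eq]
  rw [add_assoc, h1, add_zero]

private theorem Flatness_tr_flat {n : ℕ} {K : Type} [Field K] (Q : Fin n → K) :
    (Flatness_tr Q : MvPolynomial (Fin n) K →+* MvPolynomial (Fin n) K).Flat := by
  apply RingHom.Flat.of_bijective
  have h1 := Flatness_tr_comp Q (-Q) (by simp)
  have h2 := Flatness_tr_comp (-Q) Q (by simp)
  refine Function.bijective_iff_has_inverse.2 ⟨Flatness_tr (-Q), fun x => ?_, fun x => ?_⟩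
  · exact congrArg (fun g => g x) h2
  · exact congrArg (fun g => g x) h1

private theorem Flatness_eq {n : ℕ} {K : Type} [Field K] (Q : Fin n → K) :
    (taylorAt Q : MvPolynomial (Fin n) K →+* MvPowerSeries (Fin n) K) =
      (algebraMap (MvPolynomial (Fin n) K) (MvPowerSeries (Fin n) K)).comp
        (Flatness_tr Q : MvPolynomial (Fin n) K →+* MvPolynomial (Fin n) K) := by
  apply MvPolynomial.ringHom_ext
  · intro r
    simp [taylorAt, Flatness_tr, Flatness_alg_C, Flatness_alg]
  · intro i
    simp [taylorAt, Flatness_tr, Flatness_alg_C, Flatness_alg_X]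

theorem taylorAt_flat' {n : ℕ} {K : Type} [Field K] (Q : Fin n → K) :
    (taylorAt Q : MvPolynomial (Fin n) K →+* MvPowerSeries (Fin n) K).Flat := by
  rw [Flatness_eq]
  exact (Flatness_tr_flat Q).comp (Flatness_coe n K)

theorem taylorAt_flat {n : ℕ} {K L : Type} [Field K] [Field L] [Algebra K L] (Q : Fin n → K) :
    ((ext (n := n) K L).comp (taylorAt Q : MvPolynomial (Fin n) K →+* MvPowerSeries (Fin n) K)).Flat
    := by
  have h : (ext (n := n) K L).comp
      (taylorAt Q : MvPolynomial (Fin n) K →+* MvPowerSeries (Fin n) K) =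
      ((algebraMap (MvPolynomial (Fin n) L) (MvPowerSeries (Fin n) L)).comp
        (MvPolynomial.map (algebraMap K L))).comp
        (Flatness_tr Q : MvPolynomial (Fin n) K →+* MvPolynomial (Fin n) K) := by
    apply MvPolynomial.ringHom_ext
    · intro r
      simp [taylorAt, Flatness_tr, Flatness_alg_C, Flatness_alg]
    · intro i
      simp [taylorAt, Flatness_tr, Flatness_alg_C, Flatness_alg_X]
  rw [h]
  exact (Flatness_tr_flat Q).comp ((Flatness_map n K L).comp (Flatness_coe n L))

end Pool.Agent.Helper38.EQ
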