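import Pool.Agent.Helper38.EQ.Flatness
import Pool.Agent.Helper38.EQ.Contract
import Pool.Agent.Helper38.EQ.Descent

/-!
# EQ-A3 (heights of extended primes)

Let `S = MvPowerSeries (Fin n) L` with the algebra structure over `R = MvPolynomial (Fin n) K`
given by `(ext K L).comp (taylorAt Q)` (flat by `taylorAt_flat`, so `Algebra.HasGoingDown R S`).
Every minimal prime `q` of `P S` lies over `P` (going down: there is a prime `q' ≤ q` over `P`, and
`q' ⊇ P S`, so `q' = q` by minimality).
`Ideal.height_eq_height_add_of_liesOver_of_hasGoingDown`: `q.height = P.height + (height of the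
image of q in S/PS)`, and this image is a minimal prime, of height `0`.
-/

namespace Pool.Agent.Helper38.EQ

open MvPowerSeries

private theorem Heights_general {R S : Type*} [CommRing R] [CommRing S] [Algebra R S]
    [IsNoetherianRing R] [IsNoetherianRing S] [Module.Flat R S] (P : Ideal R) [hPp : P.IsPrime]
    (q : Ideal S) (hq : q ∈ (P.map (algebraMap R S)).minimalPrimes) :
    q.height = P.height := by
  have hqp : q.IsPrime := hq.1.1
  have hPq : P ≤ q.under R := by
    rw [Ideal.under_def, ← Ideal.map_le_iff_le_comap]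
    exact hq.1.2
  have : (q.under R).IsPrime := inferInstance
  have : q.LiesOver (q.under R) := ⟨rfl⟩
  obtain ⟨q', hq'q, hq'p, hq'o⟩ :=
    Ideal.exists_ideal_le_liesOver_of_le (p := P) (q := q.under R) q hPq
  have h1 : P.map (algebraMap R S) ≤ q' := by
    rw [Ideal.map_le_iff_le_comap]
    exact le_of_eq hq'o.over
  have h2 : q' = q := le_antisymm hq'q (hq.2 ⟨hq'p, h1⟩ hq'q)
  subst h2
  rw [Ideal.height_eq_height_add_of_liesOver_of_hasGoingDown P q']
  have h3 : (q'.map (Ideal.Quotient.mk (P.map (algebraMap R S)))) ∈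
      minimalPrimes (S ⧸ P.map (algebraMap R S)) := by
    have hsurj : Function.Surjective (Ideal.Quotient.mk (P.map (algebraMap R S))) :=
      Ideal.Quotient.mk_surjective
    have hker : RingHom.ker (Ideal.Quotient.mk (P.map (algebraMap R S))) ≤ q' := by
      rw [Ideal.mk_ker]
      exact h1
    have hpr : (q'.map (Ideal.Quotient.mk (P.map (algebraMap R S)))).IsPrime :=
      Ideal.map_isPrime_of_surjective hsurj hker
    refine ⟨⟨hpr, bot_le⟩, ?_⟩
    rintro r ⟨hr, -⟩ hrq
    have h4 : r.comap (Ideal.Quotient.mk (P.map (algebraMap R S))) ≤ q' := by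
      have := Ideal.comap_mono (f := Ideal.Quotient.mk (P.map (algebraMap R S))) hrq
      rw [Ideal.comap_map_of_surjective _ hsurj] at this
      refine this.trans ?_
      rw [sup_le_iff]
      exact ⟨le_rfl, hker⟩
    have h5 : P.map (algebraMap R S) ≤ r.comap (Ideal.Quotient.mk (P.map (algebraMap R S))) := by
      intro x hx
      rw [Ideal.mem_comap, Ideal.Quotient.eq_zero_iff_mem.2 hx]
      exact r.zero_mem
    have : r.IsPrime := hr
    have h6 := hq.2 ⟨Ideal.comap_isPrime _ r, h5⟩ h4
    rw [Ideal.map_le_iff_le_comap]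
    exact h6
  have := h3.1.1
  rw [Ideal.height_eq_zero_iff.2 h3, add_zero]

theorem height_minimalPrimes {n : ℕ} {K L : Type} [Field K] [Field L] [Algebra K L]
    (Q : Fin n → K) (P : Ideal (MvPolynomial (Fin n) K)) [P.IsPrime] (hP : P ≤ pointIdeal Q)
    (q : Ideal (MvPowerSeries (Fin n) L))
    (hq : q ∈ (P.map ((ext (n := n) K L).comp
      (taylorAt Q : MvPolynomial (Fin n) K →+* MvPowerSeries (Fin n) K))).minimalPrimes) :
    q.height = P.height := by
  have _ := hP
  let _ := ((ext (n := n) K L).comp
      (taylorAt Q : MvPolynomial (Fin n) K →+* MvPowerSeries (Fin n) K)).toAlgebra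
  have hfl : Module.Flat (MvPolynomial (Fin n) K) (MvPowerSeries (Fin n) L) :=
    taylorAt_flat (L := L) Q
  exact Heights_general P q hq

end Pool.Agent.Helper38.EQ
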