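import Pool.Agent.Helper38.EQ.Smooth
import Pool.Agent.Helper38.EQ.InvFun
import Pool.Agent.Helper38.EQ.Contract
import Pool.Agent.Helper38.EQ.Flatness
import Pool.Agent.Helper38.EQ.Regular
import Pool.Agent.Helper38.EQ.Heights

/-!
# EQ-F6 (regularity of the local ring from smoothness of the completion)

`R = MvPolynomial (Fin n) K`, `R_Q` its localisation at `pointIdeal Q`, `S = MvPowerSeries (Fin n) K`.

`AlgRegular_choose`: over a Noetherian local ring, a generating set of an ideal contains a
generating family of minimal length (Nakayama).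

`AlgRegular_descent`: let `α : R → A`, `β : R → B` be ring homomorphisms, `B` Noetherian local, such
that `β h ∈ I B` implies `α h ∈ I A`; then the number of generators of `I A` is at most the one
of `I B`.  It is applied to `R → R_Q` and `R → S` (with `I = P`), and to
`R → R_Q / P R_Q` and `R → S / P S` (with `I = pointIdeal Q`); the hypothesis holds by
`exists_mul_mem_of_taylorAt_mem`.

Since `P S = τ(coordIdeal A)`, `P S` has at most `|A|` generators and the maximal ideal of `S / P S`
has at most `n - |A|` generators.  So `P R_Q` has at most `|A|` generators, the maximal ideal of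
`R_Q / P R_Q` has at most `n - |A|` generators and `dim R_Q / P R_Q ≥ n - |A|`.
-/

namespace Pool.Agent.Helper38.EQ

open MvPowerSeries

private theorem AlgRegular_choose {B : Type*} [CommRing B] [IsLocalRing B] [IsNoetherianRing B]
    (s : Set B) : ∃ f : Fin (Ideal.span s).spanFinrank → B, (∀ i, f i ∈ s) ∧
      Ideal.span (Set.range f) = Ideal.span s := by
  classical
  have hN : (Ideal.span s).FG := IsNoetherian.noetherian _
  let N : Submodule B B := Ideal.span s
  let m := IsLocalRing.maximalIdeal B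
  let V := N ⧸ (m • (⊤ : Submodule B N))
  let k := B ⧸ m
  let _ : Field k := Ideal.Quotient.field m
  let π : N →ₗ[B] V := Submodule.mkQ _
  have hfin : Module.Finite B N := inferInstance
  have hVB : Module.Finite B V := Module.Finite.quotient B _
  have hVk : Module.Finite k V := Module.Finite.of_restrictScalars_finite B k V
  let s' : Set V := π '' (((↑) : N → B) ⁻¹' s)
  have hs1 : Submodule.span B (((↑) : N → B) ⁻¹' s) = ⊤ := Submodule.span_span_coe_preimage
  have hs2 : Submodule.span B s' = ⊤ := by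
    have h1 : Submodule.span B s' = Submodule.map π (Submodule.span B (((↑) : N → B) ⁻¹' s)) :=
      (Submodule.map_span π _).symm
    rw [h1, hs1, Submodule.map_top]
    exact Submodule.range_mkQ _
  have hs3 : Submodule.span k s' = ⊤ := by
    rw [← Submodule.restrictScalars_eq_top_iff B,
      Submodule.restrictScalars_span B k Ideal.Quotient.mk_surjective, hs2]
  have hN' : (Ideal.span s).spanFinrank = Module.finrank k V :=
    IsLocalRing.spanFinrank_eq_finrank_quotient N hN
  have hrk : (Ideal.span s).spanFinrank = Module.finrank k (Submodule.span k s') := by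
    rw [hs3, finrank_top]
    exact hN'
  rw [hrk]
  obtain ⟨f', hf1, hf2, -⟩ := Submodule.exists_fun_fin_finrank_span_eq k s'
  choose g hg1 hg2 using hf1
  refine ⟨fun i => (g i : B), fun i => hg1 i, ?_⟩
  have h3 : Submodule.span B (Set.range g) = ⊤ := by
    rw [← IsLocalRing.map_mkQ_eq_top (N := Submodule.span B (Set.range g))]
    have h4 : Submodule.map π (Submodule.span B (Set.range g)) = Submodule.span B (Set.range f') := by
      rw [Submodule.map_span, ← Set.range_comp]
      congr 2
      funext i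
      exact hg2 i
    have h5 : Submodule.span B (Set.range f') = ⊤ := by
      rw [← Submodule.restrictScalars_span B k Ideal.Quotient.mk_surjective, hf2, hs3]
      rfl
    exact h4.trans h5
  have h6 : Submodule.map N.subtype (Submodule.span B (Set.range g)) =
      Submodule.map N.subtype ⊤ := by rw [h3]
  rw [Submodule.map_span, Submodule.map_top, Submodule.range_subtype, ← Set.range_comp] at h6
  exact h6

private theorem AlgRegular_descent {R A B : Type*} [CommRing R] [CommRing A] [CommRing B]
    [IsLocalRing B] [IsNoetherianRing B] (α : R →+* A) (β : R →+* B)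
    (hab : ∀ (I : Ideal R) (h : R), β h ∈ I.map β → α h ∈ I.map α) (I : Ideal R) :
    (I.map α).spanFinrank ≤ (I.map β).spanFinrank := by
  classical
  obtain ⟨f, hf1, hf2⟩ := AlgRegular_choose (β '' (I : Set R))
  have hI : Ideal.span (β '' (I : Set R)) = I.map β := rfl
  rw [← hI]
  choose g hg1 hg2 using hf1
  have h1 : I.map α = Ideal.span (Set.range fun i => α (g i)) := by
    apply le_antisymm
    · rw [Ideal.map_le_iff_le_comap]
      intro h hh
      rw [Ideal.mem_comap]
      have h2 : β h ∈ (Ideal.span (Set.range g)).map β := by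
        rw [Ideal.map_span, ← Set.range_comp]
        have h3 : (β ∘ g) = f := funext hg2
        rw [h3, hf2]
        exact Ideal.mem_map_of_mem β hh
      have h4 := hab _ h h2
      rw [Ideal.map_span, ← Set.range_comp] at h4
      exact h4
    · rw [Ideal.span_le]
      rintro _ ⟨i, rfl⟩
      exact Ideal.mem_map_of_mem α (hg1 i)
  rw [h1]
  refine le_trans (Submodule.spanFinrank_span_le_ncard_of_finite (Set.finite_range _)) ?_
  rw [← Set.image_univ]
  refine le_trans (Set.ncard_image_le (Set.toFinite (Set.univ : Set _))) ?_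
  rw [Set.ncard_univ, Nat.card_eq_fintype_card, Fintype.card_fin]

private theorem AlgRegular_max {B : Type*} [CommRing B] [IsLocalRing B] (I : Ideal B)
    (hI : I ≤ IsLocalRing.maximalIdeal B) [IsLocalRing (B ⧸ I)] :
    (IsLocalRing.maximalIdeal B).map (Ideal.Quotient.mk I) = IsLocalRing.maximalIdeal (B ⧸ I) := by
  have h1 : ((IsLocalRing.maximalIdeal B).map (Ideal.Quotient.mk I)).IsMaximal := by
    refine Ideal.IsMaximal.map_of_surjective_of_ker_le Ideal.Quotient.mk_surjective ?_
    rw [Ideal.mk_ker]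
    exact hI
  exact IsLocalRing.eq_maximalIdeal h1

theorem height_pointIdeal {n : ℕ} {K : Type} [Field K] (Q : Fin n → K) :
    (pointIdeal Q).height = n := by
  have hid : (ext (n := n) K K) = RingHom.id _ := by
    have : algebraMap K K = RingHom.id K := rfl
    rw [ext, this]
    exact MvPowerSeries.map_id
  have h1 : (pointIdeal Q).map ((ext (n := n) K K).comp
      (taylorAt Q : MvPolynomial (Fin n) K →+* MvPowerSeries (Fin n) K)) =
        IsLocalRing.maximalIdeal (MvPowerSeries (Fin n) K) := by
    rw [hid, RingHom.id_comp]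
    exact map_pointIdeal Q
  have h2 := height_minimalPrimes (L := K) Q (pointIdeal Q) le_rfl
    (IsLocalRing.maximalIdeal (MvPowerSeries (Fin n) K)) (by
      rw [h1]
      have : (IsLocalRing.maximalIdeal (MvPowerSeries (Fin n) K)).IsPrime := inferInstance
      rw [Ideal.minimalPrimes_eq_subsingleton_self]
      rfl)
  rw [← h2]
  have h3 : SmoothIdeal Finset.univ (IsLocalRing.maximalIdeal (MvPowerSeries (Fin n) K)) := by
    refine ⟨AlgEquiv.refl, ?_⟩
    rw [maximalIdeal_eq_coordIdeal]
    exact (Ideal.map_id _).symm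
  rw [smoothIdeal_height _ _ h3, Finset.card_univ, Fintype.card_fin]

private theorem AlgRegular_quot {R A B : Type*} [CommRing R] [CommRing A] [CommRing B]
    [IsLocalRing A] [IsLocalRing B] [IsNoetherianRing B] (ι : R →+* A) (φ : R →+* B)
    (hloc : ∀ (I : Ideal R) (h : R), φ h ∈ I.map φ → ι h ∈ I.map ι)
    (M P : Ideal R) (hPM : P ≤ M) (hmB : M.map φ = IsLocalRing.maximalIdeal B)
    (hmA : M.map ι = IsLocalRing.maximalIdeal A)
    [IsLocalRing (A ⧸ P.map ι)] [IsLocalRing (B ⧸ P.map φ)] :
    (IsLocalRing.maximalIdeal (A ⧸ P.map ι)).spanFinrank ≤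
      (IsLocalRing.maximalIdeal (B ⧸ P.map φ)).spanFinrank := by
  have hPφ : P.map φ ≤ IsLocalRing.maximalIdeal B := hmB ▸ Ideal.map_mono hPM
  have hPι : P.map ι ≤ IsLocalRing.maximalIdeal A := hmA ▸ Ideal.map_mono hPM
  rw [← AlgRegular_max _ hPφ, ← AlgRegular_max _ hPι, ← hmA, ← hmB, Ideal.map_map, Ideal.map_map]
  refine AlgRegular_descent _ _ ?_ M
  intro I h hh
  rw [← Ideal.map_map] at hh
  have h1 : φ h ∈ (I ⊔ P).map φ := by
    rw [Ideal.map_sup]
    have h2 : φ h ∈ ((I.map φ).map (Ideal.Quotient.mk (P.map φ))).comap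
      (Ideal.Quotient.mk (P.map φ)) := hh
    rw [Ideal.comap_map_of_surjective _ Ideal.Quotient.mk_surjective] at h2
    have h3 : Ideal.comap (Ideal.Quotient.mk (P.map φ)) ⊥ = P.map φ := Ideal.mk_ker
    rw [h3] at h2
    exact h2
  have h4 := hloc _ _ h1
  rw [← Ideal.map_map]
  have h5 := Ideal.mem_map_of_mem (Ideal.Quotient.mk (P.map ι)) h4
  rw [Ideal.map_sup, Ideal.map_sup, Ideal.map_quotient_self, sup_bot_eq] at h5
  exact h5

private theorem AlgRegular_gen {n : ℕ} {K : Type} [Field K] (A : Finset (Fin n))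
    (b : Ideal (MvPowerSeries (Fin n) K)) (hb : SmoothIdeal A b) : b.spanFinrank ≤ A.card := by
  obtain ⟨τ, hτ⟩ := hb
  rw [hτ, Ideal.map_span, ← Set.image_comp]
  refine le_trans (Submodule.spanFinrank_span_le_ncard_of_finite (Set.toFinite _)) ?_
  refine le_trans (Set.ncard_image_le (Set.toFinite _)) ?_
  rw [Set.ncard_coe_finset]

private theorem AlgRegular_genQuot {n : ℕ} {K : Type} [Field K] (A : Finset (Fin n))
    (b : Ideal (MvPowerSeries (Fin n) K)) (hb : SmoothIdeal A b)
    (hbm : b ≤ IsLocalRing.maximalIdeal (MvPowerSeries (Fin n) K))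
    [IsLocalRing (MvPowerSeries (Fin n) K ⧸ b)] :
    (IsLocalRing.maximalIdeal (MvPowerSeries (Fin n) K ⧸ b)).spanFinrank ≤ n - A.card := by
  classical
  obtain ⟨τ, hτ⟩ := hb
  have h0 : n - A.card = Aᶜ.card := by rw [Finset.card_compl, Fintype.card_fin]
  have h1 : (IsLocalRing.maximalIdeal (MvPowerSeries (Fin n) K)).map τ =
      IsLocalRing.maximalIdeal (MvPowerSeries (Fin n) K) :=
    IsLocalRing.map_ringEquiv_maximalIdeal τ.toRingEquiv
  have h2 : IsLocalRing.maximalIdeal (MvPowerSeries (Fin n) K) =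
      Ideal.span (Set.range fun i => τ (X i)) := by
    rw [← h1, maximalIdeal_eq_coordIdeal, Ideal.map_span, ← Set.image_comp, Finset.coe_univ,
      Set.image_univ]
    rfl
  have h3 : IsLocalRing.maximalIdeal (MvPowerSeries (Fin n) K ⧸ b) =
      Ideal.span ((fun i => Ideal.Quotient.mk b (τ (X i))) '' (Aᶜ : Finset (Fin n))) := by
    rw [← AlgRegular_max b hbm, h2, Ideal.map_span, ← Set.range_comp]
    apply le_antisymm
    · rw [Ideal.span_le]
      rintro _ ⟨i, rfl⟩
      by_cases hi : i ∈ A
      · have h3 : τ (X i) ∈ b := by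
          rw [hτ]
          exact Ideal.mem_map_of_mem τ (Ideal.subset_span ⟨i, hi, rfl⟩)
        have h4 : Ideal.Quotient.mk b (τ (X i)) = 0 := Ideal.Quotient.eq_zero_iff_mem.2 h3
        rw [Function.comp_apply, h4]
        exact Ideal.zero_mem _
      · exact Ideal.subset_span ⟨i, by simpa using hi, rfl⟩
    · rw [Ideal.span_le]
      rintro _ ⟨i, -, rfl⟩
      exact Ideal.subset_span ⟨i, rfl⟩
  rw [h0, h3]
  refine le_trans (Submodule.spanFinrank_span_le_ncard_of_finite (Set.toFinite _)) ?_
  refine le_trans (Set.ncard_image_le (Set.toFinite _)) ?_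
  rw [Set.ncard_coe_finset]

private theorem AlgRegular_loc {n : ℕ} {K : Type} [Field K] (Q : Fin n → K)
    (I : Ideal (MvPolynomial (Fin n) K)) (h : MvPolynomial (Fin n) K)
    (hh : (taylorAt Q : MvPolynomial (Fin n) K →+* MvPowerSeries (Fin n) K) h ∈
      I.map (taylorAt Q : MvPolynomial (Fin n) K →+* MvPowerSeries (Fin n) K)) :
    algebraMap (MvPolynomial (Fin n) K) (Localization.AtPrime (pointIdeal Q)) h ∈
      I.map (algebraMap (MvPolynomial (Fin n) K) (Localization.AtPrime (pointIdeal Q))) := by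
  obtain ⟨u, hu, hu2⟩ := exists_mul_mem_of_taylorAt_mem Q I h hh
  have h1 : IsUnit (algebraMap (MvPolynomial (Fin n) K) (Localization.AtPrime (pointIdeal Q)) u) :=
    IsLocalization.map_units _ (⟨u, hu⟩ : (pointIdeal Q).primeCompl)
  have h2 := Ideal.mem_map_of_mem
    (algebraMap (MvPolynomial (Fin n) K) (Localization.AtPrime (pointIdeal Q))) hu2
  rw [map_mul] at h2
  exact (Ideal.unit_mul_mem_iff_mem _ h1).1 h2

private theorem AlgRegular_dim {B : Type*} [CommRing B] [IsLocalRing B] [IsNoetherianRing B]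
    (I : Ideal B) (hI : I ≤ IsLocalRing.maximalIdeal B) (n a : ℕ) (ha : I.spanFinrank ≤ a)
    (han : a ≤ n) (hn : (n : ℕ∞) ≤ (IsLocalRing.maximalIdeal B).height)
    [IsLocalRing (B ⧸ I)] (hq : (IsLocalRing.maximalIdeal (B ⧸ I)).spanFinrank ≤ n - a) :
    IsRegularLocalRing (B ⧸ I) := by
  refine IsRegularLocalRing.of_spanFinrank_maximalIdeal_le (B ⧸ I) ?_
  have h1 : ((n : ℕ∞) : WithBot ℕ∞) ≤ ringKrullDim (B ⧸ I) + (a : ℕ∞) := by
    refine le_trans (WithBot.coe_le_coe.2 hn) ?_
    refine le_trans (height_le_ringKrullDim_quotient_add_spanFinrank hI) ?_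
    gcongr
    exact_mod_cast ha
  have h2 : ((IsLocalRing.maximalIdeal (B ⧸ I)).spanFinrank : WithBot ℕ∞) ≤
      (((n - a : ℕ) : ℕ∞) : WithBot ℕ∞) := by
    exact_mod_cast hq
  refine le_trans h2 ?_
  have h3 : (0 : WithBot ℕ∞) ≤ ringKrullDim (B ⧸ I) := ringKrullDim_nonneg_of_nontrivial
  obtain ⟨x, hx⟩ := WithBot.ne_bot_iff_exists.1 (ne_bot_of_le_ne_bot WithBot.zero_ne_bot h3)
  rw [← hx] at h1 ⊢
  have h4 : (n : ℕ∞) ≤ x + (a : ℕ∞) := by
    exact_mod_cast h1
  have h5 : ((n - a : ℕ) : ℕ∞) ≤ x := by
    have h6 : ((n - a : ℕ) : ℕ∞) + (a : ℕ∞) ≤ x + (a : ℕ∞) := by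
      rw [← Nat.cast_add, Nat.sub_add_cancel han]
      exact h4
    exact (ENat.add_le_add_iff_right (ENat.natCast_ne_top a)).1 h6
  exact_mod_cast h5

theorem isSimplePoint_of_smooth {n : ℕ} {K : Type} [Field K] (Q : Fin n → K)
    (P : Ideal (MvPolynomial (Fin n) K)) [P.IsPrime] (hP : P ≤ pointIdeal Q)
    (A : Finset (Fin n)) (hs : SmoothIdeal A (P.map (taylorAt Q))) : IsSimplePoint P Q := by
  have hmQ : (pointIdeal Q).map (taylorAt Q : MvPolynomial (Fin n) K →+* MvPowerSeries (Fin n) K) =
      IsLocalRing.maximalIdeal (MvPowerSeries (Fin n) K) := map_pointIdeal Q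
  have hmι : (pointIdeal Q).map (algebraMap (MvPolynomial (Fin n) K)
      (Localization.AtPrime (pointIdeal Q))) =
        IsLocalRing.maximalIdeal (Localization.AtPrime (pointIdeal Q)) :=
    Localization.AtPrime.map_eq_maximalIdeal
  have hPφ : P.map (taylorAt Q : MvPolynomial (Fin n) K →+* MvPowerSeries (Fin n) K) ≤
      IsLocalRing.maximalIdeal (MvPowerSeries (Fin n) K) := hmQ ▸ Ideal.map_mono hP
  have hPι : P.map (algebraMap (MvPolynomial (Fin n) K)
      (Localization.AtPrime (pointIdeal Q))) ≤
        IsLocalRing.maximalIdeal (Localization.AtPrime (pointIdeal Q)) :=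
    hmι ▸ Ideal.map_mono hP
  have hs' : SmoothIdeal A
      (P.map (taylorAt Q : MvPolynomial (Fin n) K →+* MvPowerSeries (Fin n) K)) := hs
  have hlS : IsLocalRing (MvPowerSeries (Fin n) K ⧸
      P.map (taylorAt Q : MvPolynomial (Fin n) K →+* MvPowerSeries (Fin n) K)) := by
    have : Nontrivial (MvPowerSeries (Fin n) K ⧸
      P.map (taylorAt Q : MvPolynomial (Fin n) K →+* MvPowerSeries (Fin n) K)) := by
      rw [Ideal.Quotient.nontrivial_iff]
      exact ne_top_of_le_ne_top (IsLocalRing.maximalIdeal.isMaximal _).ne_top hPφ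
    exact IsLocalRing.of_surjective' (Ideal.Quotient.mk _) Ideal.Quotient.mk_surjective
  have hlR : IsLocalRing (Localization.AtPrime (pointIdeal Q) ⧸
      P.map (algebraMap (MvPolynomial (Fin n) K) (Localization.AtPrime (pointIdeal Q)))) := by
    have : Nontrivial (Localization.AtPrime (pointIdeal Q) ⧸
      P.map (algebraMap (MvPolynomial (Fin n) K) (Localization.AtPrime (pointIdeal Q)))) := by
      rw [Ideal.Quotient.nontrivial_iff]
      exact ne_top_of_le_ne_top (IsLocalRing.maximalIdeal.isMaximal _).ne_top hPι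
    exact IsLocalRing.of_surjective' (Ideal.Quotient.mk _) Ideal.Quotient.mk_surjective
  have hNR : IsNoetherianRing (Localization.AtPrime (pointIdeal Q)) :=
    IsLocalization.isNoetherianRing (pointIdeal Q).primeCompl _ inferInstance
  have hh : (n : ℕ∞) ≤
      (IsLocalRing.maximalIdeal (Localization.AtPrime (pointIdeal Q))).height := by
    have h2 := IsLocalization.AtPrime.ringKrullDim_eq_height (pointIdeal Q)
      (Localization.AtPrime (pointIdeal Q))
    rw [← IsLocalRing.maximalIdeal_height_eq_ringKrullDim, height_pointIdeal] at h2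
    exact le_of_eq (WithBot.coe_injective h2).symm
  refine AlgRegular_dim _ hPι n A.card ?_ (by simpa using Finset.card_le_univ A) hh ?_
  · exact le_trans (AlgRegular_descent _ _ (AlgRegular_loc Q) P) (AlgRegular_gen A _ hs')
  · exact le_trans (AlgRegular_quot _ _ (AlgRegular_loc Q) (pointIdeal Q) P hP hmQ hmι)
      (AlgRegular_genQuot A _ hs' hPφ)

end Pool.Agent.Helper38.EQ
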