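import Pool.Agent.Helper38.EQ.Flatness
import Pool.Agent.Helper38.EQ.Contract

/-!
# EQ-U (affine varieties in characteristic zero are analytically unramified)

Let `R = MvPolynomial (Fin n) K`, `S = MvPowerSeries (Fin n) K`, `φ = taylorAt Q : R → S`,
`O = R ⧸ P` (a domain, finitely generated over `K`), `m` the image of `pointIdeal Q` in `O`.
1. Noether normalisation (`exists_integral_inj_algHom_of_fg`): an injective integral (hence finite)
   `g : B = MvPolynomial (Fin e) K → O`.  Let `Q' i` be the value at `Q` of (a polynomial lift of)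
   `g (X i)`, `B̂ = MvPowerSeries (Fin e) K`, a flat `B`-algebra by `taylorAt Q'`
   (`taylorAt_flat'`).
2. `Ω = B̂ ⊗[B] O` is reduced: `Ω → B̂ ⊗[B] Frac O` is injective (flatness of `B̂`), and
   `B̂ ⊗[B] Frac O = (B̂ ⊗[B] Frac B) ⊗[Frac B] Frac O` embeds in
   `Frac B̂ ⊗[Frac B] Frac O`, which is reduced because `Frac O / Frac B` is finite separable
   (characteristic 0): by the primitive element theorem it is
   `Frac B̂ [w] / (Θ)` with `Θ` a separable polynomial.  (Alternatively multiply by an element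
   `δ ≠ 0` of `B` with `δ O ⊆ B[θ]` and use `B̂[w]/(Θ)`.)
3. `S/PS` is a quotient of `Ω`: lift `g (X i)` to `G i ∈ R`; the substitution
   `X i ↦ φ (G i) - C (Q' i)` gives `B̂ → S → S/PS`, compatible with `B → O → S/PS`, so there is
   `γ : Ω → S/PS`.  It is surjective: `S/(PS + n S)` (`n` = maximal ideal of `B̂`) is the quotient
   of `O` by an ideal that contains a power of `m` (`O/nO` is a finite dimensional algebra), so
   `O → S/(PS + n S)` is surjective, and one concludes by completeness of `B̂` and separatedness of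
   `S/PS` (`surjective_of_mk_map_comp_surjective`, or finite generation by a finite set of
   generators of `O` over `B` and `surjective_of_mkQ_comp_surjective`).
4. If `γ ω = 0` then `v ω = 0` for some `v ∈ Ω` with `γ v` a unit.  Let `M = ker (Ω → S/PS → K)`,
   generated by `m`.  For every `k` the map `Ω/M^k → (S/PS)/(max ideal)^k` is injective: both
   sides are `O/m^k` (`Ω/M^k` is a quotient of `O` because `B̂ = B + n^k B̂` and `n^k ⊆ M^k`; and
   `O/m^k → S/(PS + max^k)` is injective by `taylorAt_mem_pow`).  So `ω ∈ ⋂ M^k` and Krull's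
   intersection theorem in the Noetherian ring `Ω` (`Ideal.mem_iInf_smul_pow_eq_bot_iff`) gives
   `(1 - r) ω = 0` with `r ∈ M`; `γ (1 - r)` is a unit of the local ring `S/PS`.
5. Let `s ∈ S`, `s^N ∈ PS`.  Choose `ω` with `γ ω = s mod PS`.  `γ(ω^N) = 0`, so `v ω^N = 0`, so
   `(v ω)^N = 0`, so `v ω = 0` (`Ω` reduced) and `γ ω = 0`.
-/

namespace Pool.Agent.Helper38.EQ

open MvPowerSeries TensorProduct

/-- reducedness of the base change -/
private theorem unr_reduced {B B' O : Type} [CommRing B] [IsDomain B] [CharZero B] [CommRing B']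
    [IsDomain B'] [CommRing O] [IsDomain O] [Algebra B B'] [Algebra B O] [Module.Flat B B']
    [Module.Finite B O]
    (h2 : Function.Injective (algebraMap B O)) : IsReduced (B' ⊗[B] O) := by
  have : FaithfulSMul B O := (faithfulSMul_iff_algebraMap_injective B O).2 h2
  let F := FractionRing B
  let L := FractionRing O
  let F' := FractionRing B'
  have t1 : IsScalarTower B O L := inferInstance
  have : FaithfulSMul B L := (faithfulSMul_iff_algebraMap_injective B L).2 (by
    rw [IsScalarTower.algebraMap_eq B O L]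
    exact (IsFractionRing.injective O L).comp h2)
  let : Algebra F L := FractionRing.liftAlgebra B L
  have t2 : IsScalarTower B F L := FractionRing.isScalarTower_liftAlgebra B L
  have : CharZero F := charZero_of_injective_algebraMap (IsFractionRing.injective B F)
  have e1 : Algebra.EssFiniteType O L := Algebra.EssFiniteType.of_isLocalization L (nonZeroDivisors O)
  have e2 : Algebra.EssFiniteType B L := Algebra.EssFiniteType.comp B O L
  have a1 : Algebra.IsAlgebraic F L := by
    exact Algebra.IsAlgebraic.of_finite F L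
  have s1 : Algebra.IsSeparable F L := inferInstance
  have u1 : Algebra.FormallyUnramified F L := Algebra.FormallyUnramified.of_isSeparable F L
  have u2 : Algebra.FormallyUnramified B F :=
    Algebra.FormallyUnramified.of_isLocalization (nonZeroDivisors B)
  have u3 : Algebra.FormallyUnramified B L := Algebra.FormallyUnramified.comp B F L
  have f1 : Module.Flat B F := IsLocalization.flat F (nonZeroDivisors B)
  have f2 : Module.Flat B L := Module.Flat.trans B F L
  have r1 : IsReduced (F' ⊗[B] L) := Algebra.FormallyUnramified.isReduced_of_field F' (F' ⊗[B] L)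
  let φ : B' ⊗[B] O →ₐ[B] F' ⊗[B] L :=
    Algebra.TensorProduct.map (IsScalarTower.toAlgHom B B' F') (IsScalarTower.toAlgHom B O L)
  have hφ : Function.Injective φ := by
    have h3 : Function.Injective ((IsScalarTower.toAlgHom B O L).toLinearMap.lTensor B') :=
      Module.Flat.lTensor_preserves_injective_linearMap _ (IsFractionRing.injective O L)
    have h4 : Function.Injective ((IsScalarTower.toAlgHom B B' F').toLinearMap.rTensor L) :=
      Module.Flat.rTensor_preserves_injective_linearMap _ (IsFractionRing.injective B' F')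
    have h5 : (φ : B' ⊗[B] O → F' ⊗[B] L) =
        ((IsScalarTower.toAlgHom B B' F').toLinearMap.rTensor L) ∘
          ((IsScalarTower.toAlgHom B O L).toLinearMap.lTensor B') := by
      rw [← LinearMap.coe_comp, LinearMap.rTensor_comp_lTensor]
      rfl
    rw [h5]
    exact h4.comp h3
  exact isReduced_of_injective φ hφ

/-- Descent of reducedness to a completed quotient. -/
private theorem unr_descend {B O Ω A : Type} [CommRing B] [CommRing O] [CommRing Ω] [CommRing A]
    [Algebra B Ω] [IsNoetherianRing Ω] [IsReduced Ω] (j : O →+* Ω) (γ : Ω →+* A)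
    (I : Ideal B) (m : Ideal O) (n : Ideal A)
    (c1 : ∀ k : ℕ, ∀ ω : Ω, ∃ o : O, ω - j o ∈ (I ^ k • ⊤ : Submodule B Ω))
    (c2 : ∀ b ∈ I, γ (algebraMap B Ω b) ∈ n)
    (c3 : ∀ o ∈ m, γ (j o) ∈ n)
    (c4 : ∀ k : ℕ, ∀ o : O, γ (j o) ∈ n ^ k → o ∈ m ^ k)
    (c6 : Function.Surjective γ)
    (c7 : ∀ x ∈ n, IsUnit (1 - x)) : IsReduced A := by
  set M : Ideal Ω := n.comap γ with hM
  have hIM : I.map (algebraMap B Ω) ≤ M := by
    rw [Ideal.map_le_iff_le_comap]
    intro b hb
    exact c2 b hb
  have hjM : m.map j ≤ M := by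
    rw [Ideal.map_le_iff_le_comap]
    intro o ho
    exact c3 o ho
  have hIk : ∀ k : ℕ, ∀ ω : Ω, ω ∈ (I ^ k • ⊤ : Submodule B Ω) → ω ∈ M ^ k := by
    intro k ω hω
    have h1 : (I ^ k • ⊤ : Submodule B Ω) = ((I ^ k).map (algebraMap B Ω)).restrictScalars B :=
      Ideal.smul_top_eq_map (I ^ k)
    rw [h1, Submodule.restrictScalars_mem, Ideal.map_pow] at hω
    exact Ideal.pow_right_mono hIM k hω
  have hMk : ∀ k : ℕ, ∀ ω ∈ M ^ k, γ ω ∈ n ^ k := by
    intro k ω hω
    have h1 : (M ^ k).map γ ≤ n ^ k := by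
      rw [Ideal.map_pow]
      exact Ideal.pow_right_mono (Ideal.map_comap_le) k
    exact h1 (Ideal.mem_map_of_mem γ hω)
  have key : ∀ k : ℕ, ∀ ω : Ω, γ ω ∈ n ^ k → ω ∈ M ^ k := by
    intro k ω hω
    obtain ⟨o, ho⟩ := c1 k ω
    have h1 := hIk k _ ho
    have h2 : γ (j o) ∈ n ^ k := by
      have h3 := Ideal.sub_mem _ hω (hMk k _ h1)
      rwa [map_sub, sub_sub_cancel] at h3
    have h4 : j o ∈ M ^ k := by
      have h5 := Ideal.mem_map_of_mem j (c4 k o h2)
      rw [Ideal.map_pow] at h5
      exact Ideal.pow_right_mono hjM k h5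
    have h6 := Ideal.add_mem _ h1 h4
    rwa [sub_add_cancel] at h6
  constructor
  rintro a ⟨N, hN⟩
  obtain ⟨ω, rfl⟩ := c6 a
  rw [← map_pow] at hN
  have h1 : ω ^ N ∈ (⨅ k : ℕ, M ^ k • ⊤ : Submodule Ω Ω) := by
    rw [Submodule.mem_iInf]
    intro k
    have h2 := key k (ω ^ N) (by rw [hN]; exact Ideal.zero_mem _)
    simpa using h2
  rw [Ideal.mem_iInf_smul_pow_eq_bot_iff] at h1
  obtain ⟨r, hr⟩ := h1
  have h3 : ((1 - (r : Ω)) * ω) ^ (N + 1) = 0 := by
    have h4 : (1 - (r : Ω)) * ω ^ N = 0 := by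
      rw [sub_mul, one_mul]
      rw [smul_eq_mul] at hr
      rw [hr, sub_self]
    rw [mul_pow, pow_succ (1 - (r : Ω)), pow_succ ω]
    have : (1 - (r : Ω)) ^ N * (1 - (r : Ω)) * (ω ^ N * ω) =
        (1 - (r : Ω)) ^ N * ((1 - (r : Ω)) * ω ^ N) * ω := by ring
    rw [this, h4, mul_zero, zero_mul]
  have h5 : (1 - (r : Ω)) * ω = 0 := pow_eq_zero_iff (Nat.succ_ne_zero N) |>.1 h3
  have h6 : (1 - γ (r : Ω)) * γ ω = 0 := by
    rw [← map_one γ, ← map_sub, ← map_mul, h5, map_zero]
  exact (c7 _ r.2).mul_right_eq_zero.1 h6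

private theorem unr_main {B O A : Type} [CommRing B] [IsNoetherianRing B] [IsDomain B] [CommRing O]
    [CommRing A] [IsLocalRing A] [IsNoetherianRing A] [Algebra B O] [Algebra B A] [Algebra O A]
    [IsScalarTower B O A] [Module.Finite B O] (I : Ideal B) [I.IsMaximal]
    [IsNoetherianRing (AdicCompletion I B)] [IsReduced (AdicCompletion I B ⊗[B] O)]
    (σ : AdicCompletion I B →ₐ[B] A) (m : Ideal O) [m.IsMaximal]
    (h1 : m.map (algebraMap O A) = IsLocalRing.maximalIdeal A)
    (h4 : ∀ k : ℕ, ∀ o : O, algebraMap O A o ∈ IsLocalRing.maximalIdeal A ^ k → o ∈ m ^ k)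
    (happ : ∀ k : ℕ, ∀ a : A, ∃ o : O, a - algebraMap O A o ∈ IsLocalRing.maximalIdeal A ^ k)
    (hI : I.map (algebraMap B A) ≤ IsLocalRing.maximalIdeal A) : IsReduced A := by
  set Ω := AdicCompletion I B ⊗[B] O with hΩ
  set n := IsLocalRing.maximalIdeal A with hn
  let γ : Ω →ₐ[B] A := Algebra.TensorProduct.productMap σ (IsScalarTower.toAlgHom B O A)
  let j : O →ₐ[B] Ω := Algebra.TensorProduct.includeRight
  have hγj : ∀ o : O, γ (j o) = algebraMap O A o := by
    intro o
    have : γ (j o) = γ ((1 : AdicCompletion I B) ⊗ₜ[B] o) := rfl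
    rw [this]
    change Algebra.TensorProduct.productMap σ (IsScalarTower.toAlgHom B O A)
      ((1 : AdicCompletion I B) ⊗ₜ[B] o) = _
    rw [Algebra.TensorProduct.productMap_apply_tmul, map_one, one_mul]
    rfl
  have hNΩ : IsNoetherianRing Ω := Algebra.FiniteType.isNoetherianRing (AdicCompletion I B) Ω
  let ε : Ω ≃ₗ[B] AdicCompletion I O :=
    (AdicCompletion.ofTensorProductEquivOfFiniteNoetherian I O).restrictScalars B
  have hε : ∀ o : O, ε.symm (AdicCompletion.of I O o) = j o := by
    intro o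
    exact AdicCompletion.ofTensorProductEquivOfFiniteNoetherian_symm_of I O o
  have hfg : I.FG := IsNoetherian.noetherian I
  have hcomp : IsAdicComplete I (AdicCompletion I O) := AdicCompletion.isAdicComplete hfg
  -- the ideal generated by `I`
  have hrad : n ≤ (I.map (algebraMap B A)).radical := by
    rw [Ideal.radical_eq_sInf]
    refine le_sInf ?_
    rintro p ⟨hp1, hp2⟩
    have hp3 : p ≤ n := IsLocalRing.le_maximalIdeal hp2.ne_top
    have hpO : (p.comap (algebraMap O A)).IsPrime := hp2.comap _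
    have hpB : (p.comap (algebraMap O A)).comap (algebraMap B O) = I := by
      rw [Ideal.comap_comap, ← IsScalarTower.algebraMap_eq]
      have h5 : I ≤ p.comap (algebraMap B A) := Ideal.map_le_iff_le_comap.1 hp1
      have h6 : (p.comap (algebraMap B A)).IsPrime := hp2.comap _
      exact ((inferInstance : I.IsMaximal).eq_of_le h6.ne_top h5).symm
    have hmax : (p.comap (algebraMap O A)).IsMaximal := by
      apply Ideal.isMaximal_of_isIntegral_of_isMaximal_comap (R := B)
      rw [hpB]
      infer_instance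
    have hle : p.comap (algebraMap O A) ≤ m := by
      intro o ho
      have h7 : algebraMap O A o ∈ n ^ 1 := by
        rw [pow_one]
        exact hp3 ho
      simpa using h4 1 o h7
    have heq : p.comap (algebraMap O A) = m :=
      hmax.eq_of_le (inferInstance : m.IsMaximal).ne_top hle
    rw [← h1, Ideal.map_le_iff_le_comap, heq]
  obtain ⟨k, hk⟩ := Ideal.exists_pow_le_of_le_radical_of_fg hrad (IsNoetherian.noetherian n)
  have hsurj : Function.Surjective γ := by
    have hHaus : IsHausdorff I A := by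
      rw [← IsHausdorff.map_algebraMap_iff (S := A)]
      have hne : I.map (algebraMap B A) ≠ ⊤ := by
        intro h
        rw [h] at hI
        exact (IsLocalRing.maximalIdeal.isMaximal A).ne_top (top_le_iff.1 hI)
      exact IsHausdorff.of_isLocalRing _ _ hne
    let f : AdicCompletion I O →ₗ[B] A := γ.toLinearMap ∘ₗ ε.symm.toLinearMap
    have hf : Function.Surjective f := by
      apply surjective_of_mkQ_comp_surjective (I := I)
      intro q
      obtain ⟨a, rfl⟩ := Submodule.mkQ_surjective _ q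
      obtain ⟨o, ho⟩ := happ k a
      refine ⟨AdicCompletion.of I O o, ?_⟩
      have h8 : f (AdicCompletion.of I O o) = algebraMap O A o := by
        change γ (ε.symm (AdicCompletion.of I O o)) = _
        rw [hε, hγj]
      rw [LinearMap.comp_apply, h8, ← sub_eq_zero, ← map_sub, Submodule.mkQ_apply,
        Submodule.Quotient.mk_eq_zero, Ideal.smul_top_eq_map, Submodule.restrictScalars_mem]
      have h9 := hk ho
      rw [← neg_sub]
      exact Ideal.neg_mem_iff _ |>.2 h9
    intro a
    obtain ⟨x, hx⟩ := hf a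
    exact ⟨ε.symm x, hx⟩
  refine unr_descend (j : O →+* Ω) (γ : Ω →+* A) I m n ?_ ?_ ?_ ?_ hsurj ?_
  · intro k ω
    obtain ⟨o, ho⟩ := Submodule.mkQ_surjective _ (AdicCompletion.eval I O k (ε ω))
    refine ⟨o, ?_⟩
    have h10 : ε ω - AdicCompletion.of I O o ∈ (I ^ k • ⊤ : Submodule B (AdicCompletion I O)) := by
      rw [AdicCompletion.pow_smul_top_eq_ker_eval hfg, LinearMap.mem_ker, map_sub, ← ho,
        AdicCompletion.eval_of, sub_self]
    have h11 := Submodule.mem_map_of_mem (f := ε.symm.toLinearMap) h10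
    rw [Submodule.map_smul''] at h11
    have h12 : (ε.symm.toLinearMap : AdicCompletion I O →ₗ[B] Ω) (ε ω - AdicCompletion.of I O o) =
        ω - j o := by
      change ε.symm (ε ω - AdicCompletion.of I O o) = _
      rw [map_sub, hε, LinearEquiv.symm_apply_apply]
    rw [h12] at h11
    exact Submodule.smul_mono le_rfl le_top h11
  · intro b hb
    have : (γ : Ω →+* A) (algebraMap B Ω b) = algebraMap B A b := γ.commutes b
    rw [this]
    exact hI (Ideal.mem_map_of_mem _ hb)
  · intro o ho
    have : (γ : Ω →+* A) ((j : O →+* Ω) o) = algebraMap O A o := hγj o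
    rw [this, ← h1]
    exact Ideal.mem_map_of_mem _ ho
  · intro k o ho
    have : (γ : Ω →+* A) ((j : O →+* Ω) o) = algebraMap O A o := hγj o
    rw [this] at ho
    exact h4 k o ho
  · intro x hx
    by_contra hcon
    have h1' : (1 : A) - x ∈ n := hcon
    have h2' := Ideal.add_mem _ h1' hx
    rw [sub_add_cancel] at h2'
    exact (IsLocalRing.maximalIdeal.isMaximal A).ne_top ((Ideal.eq_top_iff_one _).2 h2')

private theorem unr_approx {n : ℕ} {K : Type} [Field K] (Q : Fin n → K)
    (I : Ideal (MvPolynomial (Fin n) K)) (k : ℕ) (z : MvPowerSeries (Fin n) K)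
    (hz : z ∈ I.map (taylorAt Q)) :
    ∃ p ∈ I, z - taylorAt Q p ∈ IsLocalRing.maximalIdeal (MvPowerSeries (Fin n) K) ^ k := by
  refine Submodule.span_induction (p := fun z _ => ∃ p ∈ I, z - taylorAt Q p ∈
    IsLocalRing.maximalIdeal (MvPowerSeries (Fin n) K) ^ k) ?_ ?_ ?_ ?_ hz
  · rintro _ ⟨x, hx, rfl⟩
    refine ⟨x, hx, ?_⟩
    have h1 : (taylorAt Q) x - taylorAt Q x = 0 := sub_self _
    exact h1 ▸ Submodule.zero_mem _
  · refine ⟨0, I.zero_mem, ?_⟩
    rw [map_zero, sub_zero]
    exact Submodule.zero_mem _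
  · rintro x y _ _ ⟨p, hp, hp'⟩ ⟨q, hq, hq'⟩
    refine ⟨p + q, I.add_mem hp hq, ?_⟩
    have h1 : x + y - taylorAt Q (p + q) = (x - taylorAt Q p) + (y - taylorAt Q q) := by
      rw [map_add]; ring
    rw [h1]
    exact Ideal.add_mem _ hp' hq'
  · rintro s x _ ⟨p, hp, hp'⟩
    obtain ⟨g, hg⟩ := exists_approx Q k s
    refine ⟨g * p, I.mul_mem_left _ hp, ?_⟩
    have h1 : s • x - taylorAt Q (g * p) =
        s * (x - taylorAt Q p) + (s - taylorAt Q g) * taylorAt Q p := by
      rw [map_mul, smul_eq_mul]; ring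
    rw [h1]
    exact Ideal.add_mem _ (Ideal.mul_mem_left _ _ hp') (Ideal.mul_mem_right _ _ hg)

private theorem unr_vars_maximal (e : ℕ) (K : Type) [Field K] :
    (MvPolynomial.idealOfVars (Fin e) K).IsMaximal := by
  have h : MvPolynomial.idealOfVars (Fin e) K =
      RingHom.ker (MvPolynomial.constantCoeff : MvPolynomial (Fin e) K →+* K) := by
    ext p
    have h1 := MvPolynomial.mem_pow_idealOfVars_iff' (σ := Fin e) (R := K) 1 p
    rw [pow_one] at h1
    rw [h1, RingHom.mem_ker, MvPolynomial.constantCoeff_eq]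
    constructor
    · intro h
      exact h 0 (by simp)
    · intro h x hx
      have hx0 : x = 0 := by
        rw [Nat.lt_one_iff, Finsupp.degree_eq_zero_iff] at hx
        exact hx
      rw [hx0]
      exact h
  rw [h]
  exact RingHom.ker_isMaximal_of_surjective _ fun a => ⟨MvPolynomial.C a, by simp⟩

/-- Noether normalisation with the origin at the point. -/
private theorem unr_noether {n : ℕ} {K : Type} [Field K] (Q : Fin n → K)
    (P : Ideal (MvPolynomial (Fin n) K)) [P.IsPrime] :
    ∃ (e : ℕ) (g : MvPolynomial (Fin e) K →ₐ[K] MvPolynomial (Fin n) K ⧸ P)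
      (G : Fin e → MvPolynomial (Fin n) K), Function.Injective g ∧
      (g : MvPolynomial (Fin e) K →+* MvPolynomial (Fin n) K ⧸ P).Finite ∧
      (∀ i, G i ∈ pointIdeal Q) ∧ ∀ i, g (MvPolynomial.X i) = Ideal.Quotient.mk P (G i) := by
  obtain ⟨e, g, hg1, hg2⟩ := exists_integral_inj_algHom_of_fg K (MvPolynomial (Fin n) K ⧸ P)
  choose G hG using fun i => Ideal.Quotient.mk_surjective (I := P) (g (MvPolynomial.X i))
  let q : Fin e → K := fun i => MvPolynomial.eval Q (G i)
  let τ : MvPolynomial (Fin e) K →ₐ[K] MvPolynomial (Fin e) K :=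
    MvPolynomial.aeval fun i => MvPolynomial.X i - MvPolynomial.C (q i)
  let τ' : MvPolynomial (Fin e) K →ₐ[K] MvPolynomial (Fin e) K :=
    MvPolynomial.aeval fun i => MvPolynomial.X i + MvPolynomial.C (q i)
  have h1 : τ'.comp τ = AlgHom.id K _ := by
    apply MvPolynomial.algHom_ext
    intro i
    simp [τ, τ', MvPolynomial.algHom_C, MvPolynomial.algebraMap_eq]
  have h2 : τ.comp τ' = AlgHom.id K _ := by
    apply MvPolynomial.algHom_ext
    intro i
    simp [τ, τ', MvPolynomial.algHom_C, MvPolynomial.algebraMap_eq]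
  have h1' : ∀ x, τ' (τ x) = x := fun x => congrArg (fun f => f x) h1
  have h2' : ∀ x, τ (τ' x) = x := fun x => congrArg (fun f => f x) h2
  have hτi : Function.Injective τ := fun x y h => by rw [← h1' x, ← h1' y, h]
  have hτs : Function.Surjective τ := fun x => ⟨τ' x, h2' x⟩
  refine ⟨e, g.comp τ, fun i => G i - MvPolynomial.C (q i), hg1.comp hτi, ?_, ?_, ?_⟩
  · have hi : ((g : MvPolynomial (Fin e) K →+* MvPolynomial (Fin n) K ⧸ P).comp
        (τ : MvPolynomial (Fin e) K →+* MvPolynomial (Fin e) K)).IsIntegral :=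
      RingHom.IsIntegral.trans _ _ (RingHom.isIntegral_of_surjective _ hτs) hg2
    have hf : ((g.comp τ : MvPolynomial (Fin e) K →ₐ[K] _) :
        MvPolynomial (Fin e) K →+* MvPolynomial (Fin n) K ⧸ P).FiniteType := by
      refine RingHom.FiniteType.of_comp_finiteType (f := algebraMap K (MvPolynomial (Fin e) K)) ?_
      have h3 : ((g.comp τ : MvPolynomial (Fin e) K →ₐ[K] _) :
          MvPolynomial (Fin e) K →+* MvPolynomial (Fin n) K ⧸ P).comp
          (algebraMap K (MvPolynomial (Fin e) K)) =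
          algebraMap K (MvPolynomial (Fin n) K ⧸ P) := (g.comp τ).comp_algebraMap
      rw [h3]
      exact RingHom.finiteType_algebraMap.mpr inferInstance
    exact RingHom.IsIntegral.to_finite hi hf
  · intro i
    rw [pointIdeal, RingHom.mem_ker, map_sub, MvPolynomial.eval_C, sub_self]
  · intro i
    rw [map_sub, hG]
    simp [τ, MvPolynomial.algHom_C]
    rfl

private theorem unr_abs {B O A B' : Type} [CommRing B] [IsNoetherianRing B] [IsDomain B]
    [CharZero B] [CommRing O] [IsDomain O] [CommRing A] [IsLocalRing A] [IsNoetherianRing A]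
    [CommRing B'] [Algebra B B'] [IsNoetherianRing B'] [IsDomain B'] (g : B →+* O) (ρ : O →+* A)
    (hg1 : Function.Injective g) (hg2 : g.Finite) (I : Ideal B) (hI : I.IsMaximal)
    (E : B' ≃ₐ[B] AdicCompletion I B) (σ0 : B' →+* A)
    (hσ0 : ∀ b : B, σ0 (algebraMap B B' b) = ρ (g b)) (m : Ideal O) (hm : m.IsMaximal)
    (h1 : m.map ρ = IsLocalRing.maximalIdeal A)
    (h4 : ∀ k : ℕ, ∀ o : O, ρ o ∈ IsLocalRing.maximalIdeal A ^ k → o ∈ m ^ k)
    (happ : ∀ k : ℕ, ∀ a : A, ∃ o : O, a - ρ o ∈ IsLocalRing.maximalIdeal A ^ k)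
    (hIA : ∀ b ∈ I, ρ (g b) ∈ IsLocalRing.maximalIdeal A) : IsReduced A := by
  let : Algebra B O := g.toAlgebra
  let : Algebra O A := ρ.toAlgebra
  let : Algebra B A := (ρ.comp g).toAlgebra
  have hst : IsScalarTower B O A := IsScalarTower.of_algebraMap_eq fun _ => rfl
  have hfin : Module.Finite B O := hg2
  have hNoeth : IsNoetherianRing (AdicCompletion I B) :=
    isNoetherianRing_of_ringEquiv _ E.toRingEquiv
  have hdom : IsDomain (AdicCompletion I B) := E.symm.toRingEquiv.toMulEquiv.isDomain _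
  have hflat : Module.Flat B (AdicCompletion I B) := AdicCompletion.flat_of_isNoetherian _
  have hred : IsReduced (AdicCompletion I B ⊗[B] O) := unr_reduced hg1
  let σ : AdicCompletion I B →ₐ[B] A :=
    { toRingHom := σ0.comp (E.symm.toRingEquiv : AdicCompletion I B →+* B')
      commutes' := by
        intro b
        change σ0 (E.symm (algebraMap B (AdicCompletion I B) b)) = _
        rw [E.symm.commutes, hσ0]
        rfl }
  have hIA' : I.map (algebraMap B A) ≤ IsLocalRing.maximalIdeal A := by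
    rw [Ideal.map_le_iff_le_comap]
    intro b hb
    exact hIA b hb
  exact unr_main I σ m h1 h4 happ hIA'

private theorem unr_alg_C {e : ℕ} {K : Type} [Field K] (a : K) :
    algebraMap (MvPolynomial (Fin e) K) (MvPowerSeries (Fin e) K) (MvPolynomial.C a) = C a := by
  rw [MvPowerSeries.algebraMap_apply', Algebra.algebraMap_self, MvPowerSeries.map_id,
    MvPolynomial.coe_C]
  rfl

private theorem unr_alg_X {e : ℕ} {K : Type} [Field K] (i : Fin e) :
    algebraMap (MvPolynomial (Fin e) K) (MvPowerSeries (Fin e) K) (MvPolynomial.X i) = X i := by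
  rw [MvPowerSeries.algebraMap_apply', Algebra.algebraMap_self, MvPowerSeries.map_id,
    MvPolynomial.coe_X]
  rfl

theorem map_isRadical {n : ℕ} {K : Type} [Field K] [IsAlgClosed K] [CharZero K] (Q : Fin n → K)
    (P : Ideal (MvPolynomial (Fin n) K)) [P.IsPrime] (hP : P ≤ pointIdeal Q) :
    (P.map (taylorAt Q)).IsRadical := by
  obtain ⟨e, g, G, hg1, hg2, hG1, hG2⟩ := unr_noether Q P
  set S := MvPowerSeries (Fin n) K with hS
  set O := MvPolynomial (Fin n) K ⧸ P with hO
  set B := MvPolynomial (Fin e) K with hB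
  set J : Ideal S := P.map (taylorAt Q) with hJ
  set nS := IsLocalRing.maximalIdeal S with hnS
  have hmapP : (pointIdeal Q).map (taylorAt Q) = nS := map_pointIdeal Q
  have hJn : J ≤ nS := by
    rw [← hmapP]
    exact Ideal.map_mono hP
  have hJt : J ≠ ⊤ := fun h => (IsLocalRing.maximalIdeal.isMaximal S).ne_top
    (top_le_iff.1 (h ▸ hJn))
  have : Nontrivial (S ⧸ J) := Ideal.Quotient.nontrivial_iff.2 hJt
  have hloc : IsLocalRing (S ⧸ J) :=
    IsLocalRing.of_surjective' (Ideal.Quotient.mk J) Ideal.Quotient.mk_surjective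
  have hmapn : nS.map (Ideal.Quotient.mk J) = IsLocalRing.maximalIdeal (S ⧸ J) :=
    IsLocalRing.map_maximalIdeal_of_surjective _ Ideal.Quotient.mk_surjective
  let ρ : O →+* S ⧸ J := Ideal.quotientMap J (taylorAt Q : MvPolynomial (Fin n) K →+* S)
    Ideal.le_comap_map
  have hρ : ∀ r : MvPolynomial (Fin n) K, ρ (Ideal.Quotient.mk P r) =
      Ideal.Quotient.mk J (taylorAt Q r) := fun r => rfl
  let m : Ideal O := (pointIdeal Q).map (Ideal.Quotient.mk P)
  have hcomapm : m.comap (Ideal.Quotient.mk P) = pointIdeal Q := by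
    rw [Ideal.comap_map_of_surjective _ Ideal.Quotient.mk_surjective]
    have h1 : (⊥ : Ideal O).comap (Ideal.Quotient.mk P) = P := by
      rw [← RingHom.ker_eq_comap_bot, Ideal.mk_ker]
    rw [h1]
    exact sup_eq_left.2 hP
  have hmmax : m.IsMaximal := by
    rcases Ideal.map_eq_top_or_isMaximal_of_surjective (Ideal.Quotient.mk P)
      Ideal.Quotient.mk_surjective (pointIdeal_isMaximal Q) with h1 | h1
    · exfalso
      have h2 := hcomapm
      have h3 : m = ⊤ := h1
      rw [h3, Ideal.comap_top] at h2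
      exact (pointIdeal_isMaximal Q).ne_top h2.symm
    · exact h1
  have h1 : m.map ρ = IsLocalRing.maximalIdeal (S ⧸ J) := by
    rw [← hmapn, ← hmapP]
    change ((pointIdeal Q).map (Ideal.Quotient.mk P)).map ρ = _
    rw [Ideal.map_map]
    have h2 : (pointIdeal Q).map (taylorAt Q) =
        (pointIdeal Q).map (taylorAt Q : MvPolynomial (Fin n) K →+* S) := rfl
    rw [h2, Ideal.map_map]
    rfl
  have h4 : ∀ k : ℕ, ∀ o : O, ρ o ∈ IsLocalRing.maximalIdeal (S ⧸ J) ^ k → o ∈ m ^ k := by
    intro k o ho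
    obtain ⟨r, rfl⟩ := Ideal.Quotient.mk_surjective o
    rw [hρ, ← hmapn, ← Ideal.map_pow] at ho
    obtain ⟨s, hs, hs'⟩ := (Ideal.mem_map_iff_of_surjective _ Ideal.Quotient.mk_surjective).1 ho
    rw [Ideal.Quotient.eq] at hs'
    obtain ⟨p, hp, hp'⟩ := unr_approx Q P k _ hs'
    have h5 : taylorAt Q (r + p) ∈ nS ^ k := by
      have h6 : taylorAt Q (r + p) = s - (s - taylorAt Q r - taylorAt Q p) := by
        rw [map_add]; ring
      rw [h6]
      exact Ideal.sub_mem _ hs hp'
    have h7 := (taylorAt_mem_pow Q k _).1 h5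
    have h8 : (Ideal.Quotient.mk P r : O) = Ideal.Quotient.mk P (r + p) := by
      rw [Ideal.Quotient.eq, sub_add_cancel_left]
      exact P.neg_mem hp
    rw [h8]
    have h9 := Ideal.mem_map_of_mem (Ideal.Quotient.mk P) h7
    rwa [Ideal.map_pow] at h9
  have happ : ∀ k : ℕ, ∀ a : S ⧸ J, ∃ o : O,
      a - ρ o ∈ IsLocalRing.maximalIdeal (S ⧸ J) ^ k := by
    intro k a
    obtain ⟨s, rfl⟩ := Ideal.Quotient.mk_surjective a
    obtain ⟨r, hr⟩ := exists_approx Q k s
    refine ⟨Ideal.Quotient.mk P r, ?_⟩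
    rw [hρ, ← map_sub, ← hmapn, ← Ideal.map_pow]
    exact Ideal.mem_map_of_mem _ hr
  have hdomE : IsDomain (MvPowerSeries (Fin e) K) := NoZeroDivisors.to_isDomain _
  let a : Fin e → S := fun i => taylorAt Q (G i)
  have hat : ∀ i, a i ∈ nS := by
    intro i
    rw [← hmapP]
    exact Ideal.mem_map_of_mem _ (hG1 i)
  have ha : HasSubst a := by
    apply hasSubst_of_constantCoeff_zero
    intro i
    rw [constantCoeff_taylorAt]
    exact hG1 i
  let σ0 : MvPowerSeries (Fin e) K →+* S ⧸ J :=
    (Ideal.Quotient.mk J).comp (substAlgHom ha : MvPowerSeries (Fin e) K →ₐ[K] S).toRingHom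
  have hσ0 : ∀ b : B, σ0 (algebraMap B (MvPowerSeries (Fin e) K) b) =
      ρ ((g : B →+* O) b) := by
    intro b
    have h2 : σ0.comp (algebraMap B (MvPowerSeries (Fin e) K)) = ρ.comp (g : B →+* O) := by
      apply MvPolynomial.ringHom_ext
      · intro r
        change σ0 (algebraMap B (MvPowerSeries (Fin e) K) (MvPolynomial.C r)) =
          ρ (g (MvPolynomial.C r))
        rw [unr_alg_C]
        have h3 : g (MvPolynomial.C r) = Ideal.Quotient.mk P (MvPolynomial.C r) :=
          g.commutes r
        rw [h3, hρ]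
        change Ideal.Quotient.mk J (substAlgHom ha (C r)) = _
        have h5 : (substAlgHom ha : MvPowerSeries (Fin e) K →ₐ[K] S) (C r) = C r := by
          have h6 := (substAlgHom ha : MvPowerSeries (Fin e) K →ₐ[K] S).commutes r
          exact h6
        have h7 : taylorAt Q (MvPolynomial.C r) = (C r : S) := (taylorAt Q).commutes r
        rw [h5, h7]
      · intro i
        change σ0 (algebraMap B (MvPowerSeries (Fin e) K) (MvPolynomial.X i)) =
          ρ (g (MvPolynomial.X i))
        rw [unr_alg_X, hG2, hρ]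
        change Ideal.Quotient.mk J (substAlgHom ha (X i)) = _
        rw [substAlgHom_X]
    exact congrArg (fun f => f b) h2
  rw [Ideal.isRadical_iff_quotient_reduced]
  refine unr_abs (g : B →+* O) ρ hg1 hg2 (MvPolynomial.idealOfVars (Fin e) K)
    (unr_vars_maximal e K) (MvPowerSeries.toAdicCompletionAlgEquiv (Fin e) K) σ0 hσ0 m hmmax h1 h4
    happ ?_
  intro b hb
  have hb' : MvPolynomial.idealOfVars (Fin e) K ≤
      (IsLocalRing.maximalIdeal (S ⧸ J)).comap (ρ.comp (g : B →+* O)) := by
    rw [Ideal.span_le]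
    rintro _ ⟨i, rfl⟩
    change ρ (g (MvPolynomial.X i)) ∈ IsLocalRing.maximalIdeal (S ⧸ J)
    rw [hG2, hρ, ← hmapn]
    exact Ideal.mem_map_of_mem _ (hat i)
  exact hb' hb

end Pool.Agent.Helper38.EQ
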