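import Pool.Agent.Helper38.EQ.Formal
import Pool.Agent.Helper38.EQ.Heights
import Pool.Agent.Helper38.EQ.Unramified
import Pool.Agent.Helper38.EQ.AlgRegular

/-! The theorems for affine hypersurfaces. -/

namespace Pool.Agent.Helper38.EQ

open MvPowerSeries

section

variable {n : ℕ} {K : Type} [Field K]

/-- The ring homomorphism from polynomials to power series over the extension `L`. -/
noncomputable abbrev extAt (L : Type) [Field L] [Algebra K L] (Q : Fin n → K) :
    MvPolynomial (Fin n) K →+* MvPowerSeries (Fin n) L :=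
  (ext (n := n) K L).comp (taylorAt Q : MvPolynomial (Fin n) K →+* MvPowerSeries (Fin n) K)

theorem map_extAt {L : Type} [Field L] [Algebra K L] (Q : Fin n → K)
    (P : Ideal (MvPolynomial (Fin n) K)) :
    P.map (extAt L Q) = (P.map (taylorAt Q)).map (ext K L) := by
  rw [extAt, ← Ideal.map_map]; rfl

theorem taylorAt_mem_radical {Q : Fin n → K} {f : MvPolynomial (Fin n) K}
    {P : Ideal (MvPolynomial (Fin n) K)} (hf : f ∈ P) :
    taylorAt Q f ∈ (P.map (taylorAt Q)).radical :=
  Ideal.le_radical (Ideal.mem_map_of_mem _ hf)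

theorem radical_map_ne_top {Q : Fin n → K} {P : Ideal (MvPolynomial (Fin n) K)}
    (hP : P ≤ pointIdeal Q) : (P.map (taylorAt Q)).radical ≠ ⊤ := by
  intro h
  rw [Ideal.radical_eq_top] at h
  have h1 : P.map (taylorAt Q) ≤ IsLocalRing.maximalIdeal (MvPowerSeries (Fin n) K) := by
    rw [← map_pointIdeal Q]
    exact Ideal.map_mono hP
  rw [h, top_le_iff] at h1
  exact (Ideal.IsPrime.ne_top inferInstance) h1

theorem alg_claimC [IsAlgClosed K] [CharZero K] {B : BasisClass} {k : ℕ}
    {f : MvPolynomial (Fin n) K} {Q : Fin n → K} {P : Ideal (MvPolynomial (Fin n) K)}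
    (hP : P ≤ pointIdeal Q) (hf : f ∈ P)
    (h : EqLen B k n K (taylorAt Q f) ((P.map (taylorAt Q)).radical)) :
    ∃ (L : Type) (_ : Field L) (_ : IsAlgClosed L) (_ : Algebra K L)
      (A : Finset (Fin n)) (b : Ideal (MvPowerSeries (Fin n) L)),
      A.card = k + 1 ∧ SmoothIdeal A b ∧ b ≤ (P.map (extAt L Q)).radical ∧
      ∀ m, f ∈ pointIdeal Q ^ m → ext K L (taylorAt Q f) ∈ b ^ m := by
  obtain ⟨L, iF, iC, iA, A, b, hA, hs, hb, hm⟩ :=
    claimC h inferInstance inferInstance (taylorAt_mem_radical hf) (radical_map_ne_top hP)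
  refine ⟨L, iF, iC, iA, A, b, hA, hs, ?_, fun m hm' => hm m ((taylorAt_mem_pow Q m f).mpr hm')⟩
  refine hb.trans ?_
  rw [map_extAt]
  have h1 := Ideal.map_radical_le (f := ext (n := n) K L) (I := P.map (taylorAt Q))
  exact (Ideal.radical_mono h1).trans (by rw [Ideal.radical_idem])

theorem alg_contract {L : Type} [Field L] [Algebra K L] {Q : Fin n → K}
    {P : Ideal (MvPolynomial (Fin n) K)} [P.IsPrime] (hP : P ≤ pointIdeal Q)
    (b : Ideal (MvPowerSeries (Fin n) L)) (hb : b ≤ (P.map (extAt L Q)).radical) :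
    b.comap (extAt L Q) ≤ P := by
  intro h hh
  rw [Ideal.mem_comap] at hh
  obtain ⟨N, hN⟩ := hb hh
  rw [map_extAt] at hN
  have h1 : ext K L (taylorAt Q (h ^ N)) ∈ (P.map (taylorAt Q)).map (ext K L) := by
    have : extAt L Q h ^ N = ext K L (taylorAt Q (h ^ N)) := by
      rw [map_pow, map_pow]; rfl
    rwa [← this]
  have h2 := mem_of_ext_mem _ _ h1
  have h3 := mem_of_taylorAt_mem Q P hP (h ^ N) (Ideal.le_radical h2)
  exact Ideal.IsPrime.mem_of_pow_mem inferInstance N h3

theorem alg_finish [IsAlgClosed K] [CharZero K] {L : Type} [Field L] [IsAlgClosed L]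
    [Algebra K L] {Q : Fin n → K} {P : Ideal (MvPolynomial (Fin n) K)} [P.IsPrime]
    (hP : P ≤ pointIdeal Q) (A : Finset (Fin n)) (b : Ideal (MvPowerSeries (Fin n) L))
    (hs : SmoothIdeal A b) (hb : b ≤ (P.map (extAt L Q)).radical)
    (hb' : P.map (extAt L Q) ≤ b) : IsSimplePoint P Q := by
  rw [map_extAt] at hb hb'
  obtain ⟨A₀, -, hs₀, -⟩ := descend A b hs (P.map (taylorAt Q)) hb hb'
  rw [(map_isRadical Q P hP).radical] at hs₀
  exact isSimplePoint_of_smooth Q P hP A₀ hs₀

/-- Equimultiplicity along `M`, and simplicity of `Q` on `M` if `M` is an irreducible component of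
the locus of points of multiplicity `≥ μ`. -/
theorem alg_main [IsAlgClosed K] [CharZero K] {B : BasisClass}
    {f : MvPolynomial (Fin n) K} {Q : Fin n → K} {P : Ideal (MvPolynomial (Fin n) K)}
    [P.IsPrime] (hP : P ≤ pointIdeal Q) (hf : f ∈ P) (h : EquisingularAt B f Q P) :
    (∀ m, f ∈ pointIdeal Q ^ m → polyMultIdeal f m ≤ P) ∧
    (∀ μ, P ∈ (polyMultIdeal f μ).minimalPrimes → IsSimplePoint P Q) := by
  obtain ⟨k, hk⟩ := h
  obtain ⟨L, iF, iC, iA, A, b, hA, hs, hb, hm⟩ := alg_claimC hP hf hk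
  have hmul : ∀ m, f ∈ pointIdeal Q ^ m → polyMultIdeal f m ≤ b.comap (extAt L Q) := by
    intro m hm'
    rw [← Ideal.map_le_iff_le_comap, map_extAt, polyMultIdeal_map]
    exact ext_multIdeal b _ m (hm m hm')
  refine ⟨fun m hm' => (hmul m hm').trans (alg_contract hP b hb), fun μ hμ => ?_⟩
  have hfμ : f ∈ pointIdeal Q ^ μ := by
    by_contra hcon
    rw [← taylorAt_mem_pow] at hcon
    have h1 := multIdeal_eq_top _ μ hcon
    rw [← polyMultIdeal_map] at h1
    have h2 : (polyMultIdeal f μ).map (taylorAt Q) ≤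
        IsLocalRing.maximalIdeal (MvPowerSeries (Fin n) K) := by
      rw [← map_pointIdeal Q]
      exact Ideal.map_mono (hμ.1.2.trans hP)
    rw [h1, top_le_iff] at h2
    exact (Ideal.IsPrime.ne_top inferInstance) h2
  have hbp : b.IsPrime := smoothIdeal_isPrime A b hs
  have hPb : P ≤ b.comap (extAt L Q) :=
    hμ.2 ⟨Ideal.comap_isPrime _ _, hmul μ hfμ⟩ (alg_contract hP b hb)
  exact alg_finish hP A b hs hb (Ideal.map_le_iff_le_comap.mpr hPb)

end

end Pool.Agent.Helper38.EQ
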