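import Mathlib

/-!
# EQ-Z4a (amalgamation of fields)

`Λ₁ ⊗[F] Λ₂` is a nontrivial ring (`F` is a field); take the quotient by a maximal ideal and its
algebraic closure.
-/

namespace Pool.Agent.Helper38.EQ

theorem exists_amalgam {F Λ₁ Λ₂ : Type} [Field F] [Field Λ₁] [Field Λ₂]
    (i₁ : F →+* Λ₁) (i₂ : F →+* Λ₂) :
    ∃ (Λ : Type) (_ : Field Λ) (_ : IsAlgClosed Λ) (j₁ : Λ₁ →+* Λ) (j₂ : Λ₂ →+* Λ),
      j₁.comp i₁ = j₂.comp i₂ := by
  letI : Algebra F Λ₁ := i₁.toAlgebra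
  letI : Algebra F Λ₂ := i₂.toAlgebra
  have hinj : Function.Injective
      (Algebra.TensorProduct.includeLeft : Λ₁ →ₐ[F] TensorProduct F Λ₁ Λ₂) :=
    Algebra.TensorProduct.includeLeft_injective (algebraMap F Λ₂).injective
  haveI : Nontrivial (TensorProduct F Λ₁ Λ₂) := hinj.nontrivial
  obtain ⟨M, hM⟩ := Ideal.exists_maximal (TensorProduct F Λ₁ Λ₂)
  haveI := hM
  letI : Field (TensorProduct F Λ₁ Λ₂ ⧸ M) := Ideal.Quotient.field M
  refine ⟨AlgebraicClosure (TensorProduct F Λ₁ Λ₂ ⧸ M), inferInstance, inferInstance,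
    (algebraMap (TensorProduct F Λ₁ Λ₂ ⧸ M) (AlgebraicClosure (TensorProduct F Λ₁ Λ₂ ⧸ M))).comp
      ((Ideal.Quotient.mk M).comp
        (Algebra.TensorProduct.includeLeft : Λ₁ →ₐ[F] TensorProduct F Λ₁ Λ₂).toRingHom),
    (algebraMap (TensorProduct F Λ₁ Λ₂ ⧸ M) (AlgebraicClosure (TensorProduct F Λ₁ Λ₂ ⧸ M))).comp
      ((Ideal.Quotient.mk M).comp
        (Algebra.TensorProduct.includeRight : Λ₂ →ₐ[F] TensorProduct F Λ₁ Λ₂).toRingHom), ?_⟩
  ext x
  have h1 : (Algebra.TensorProduct.includeLeft : Λ₁ →ₐ[F] TensorProduct F Λ₁ Λ₂) (i₁ x) =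
      (Algebra.TensorProduct.includeRight : Λ₂ →ₐ[F] TensorProduct F Λ₁ Λ₂) (i₂ x) := by
    have h2 := AlgHom.commutes
      (Algebra.TensorProduct.includeLeft : Λ₁ →ₐ[F] TensorProduct F Λ₁ Λ₂) x
    have h3 := AlgHom.commutes
      (Algebra.TensorProduct.includeRight : Λ₂ →ₐ[F] TensorProduct F Λ₁ Λ₂) x
    exact h2.trans h3.symm
  change (algebraMap _ _) ((Ideal.Quotient.mk M)
      ((Algebra.TensorProduct.includeLeft : Λ₁ →ₐ[F] TensorProduct F Λ₁ Λ₂) (i₁ x))) =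
    (algebraMap _ _) ((Ideal.Quotient.mk M)
      ((Algebra.TensorProduct.includeRight : Λ₂ →ₐ[F] TensorProduct F Λ₁ Λ₂) (i₂ x)))
  rw [h1]

/-- The map from the fraction field of `R` modulo a contracted prime. -/
private theorem am_frac {R S : Type} [CommRing R] [CommRing S] (q : Ideal S) [q.IsPrime]
    (a : R →+* S) (p : Ideal R) [p.IsPrime] (h : p = q.comap a) :
    ∃ i : FractionRing (R ⧸ p) →+* FractionRing (S ⧸ q), ∀ r : R,
      i (algebraMap (R ⧸ p) _ (Ideal.Quotient.mk p r)) =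
        algebraMap (S ⧸ q) _ (Ideal.Quotient.mk q (a r)) := by
  have hle : p ≤ q.comap a := h.le
  have hinj : Function.Injective
      ((algebraMap (S ⧸ q) (FractionRing (S ⧸ q))).comp (Ideal.quotientMap q a hle)) := by
    rw [RingHom.coe_comp]
    refine (IsFractionRing.injective (S ⧸ q) (FractionRing (S ⧸ q))).comp ?_
    exact Ideal.quotientMap_injective' h.ge
  refine ⟨IsFractionRing.lift hinj, fun r => ?_⟩
  rw [IsFractionRing.lift_algebraMap]
  rfl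

/-- Two ring homomorphisms from a ring to domains with the same kernel: the domains embed in a
common algebraically closed field compatibly (embed both in their fraction fields; both contain
the fraction field of `R` modulo the kernel). -/
theorem exists_common_field {R S₁ S₂ : Type} [CommRing R] [CommRing S₁] [CommRing S₂]
    (q₁ : Ideal S₁) (q₂ : Ideal S₂) [q₁.IsPrime] [q₂.IsPrime] (a₁ : R →+* S₁) (a₂ : R →+* S₂)
    (h : q₁.comap a₁ = q₂.comap a₂) :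
    ∃ (Λ : Type) (_ : Field Λ) (_ : IsAlgClosed Λ) (e₁ : S₁ →+* Λ) (e₂ : S₂ →+* Λ),
      RingHom.ker e₁ = q₁ ∧ RingHom.ker e₂ = q₂ ∧ e₁.comp a₁ = e₂.comp a₂ := by
  obtain ⟨p, hp⟩ : ∃ p : Ideal R, p = q₁.comap a₁ := ⟨_, rfl⟩
  haveI : p.IsPrime := by
    rw [hp]
    exact Ideal.comap_isPrime a₁ q₁
  obtain ⟨i₁, hi₁⟩ := am_frac q₁ a₁ p hp
  obtain ⟨i₂, hi₂⟩ := am_frac q₂ a₂ p (hp.trans h)
  obtain ⟨Λ, hΛ, hac, j₁, j₂, hj⟩ := exists_amalgam i₁ i₂
  refine ⟨Λ, hΛ, hac,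
    j₁.comp ((algebraMap (S₁ ⧸ q₁) (FractionRing (S₁ ⧸ q₁))).comp (Ideal.Quotient.mk q₁)),
    j₂.comp ((algebraMap (S₂ ⧸ q₂) (FractionRing (S₂ ⧸ q₂))).comp (Ideal.Quotient.mk q₂)),
    ?_, ?_, ?_⟩
  · ext x
    rw [RingHom.mem_ker, RingHom.comp_apply, map_eq_zero_iff j₁ j₁.injective,
      RingHom.comp_apply, map_eq_zero_iff _ (IsFractionRing.injective (S₁ ⧸ q₁) _),
      Ideal.Quotient.eq_zero_iff_mem]
  · ext x
    rw [RingHom.mem_ker, RingHom.comp_apply, map_eq_zero_iff j₂ j₂.injective,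
      RingHom.comp_apply, map_eq_zero_iff _ (IsFractionRing.injective (S₂ ⧸ q₂) _),
      Ideal.Quotient.eq_zero_iff_mem]
  · ext r
    have h1 := RingHom.congr_fun hj (algebraMap (R ⧸ p) _ (Ideal.Quotient.mk p r))
    rw [RingHom.comp_apply, RingHom.comp_apply, hi₁, hi₂] at h1
    exact h1

end Pool.Agent.Helper38.EQ
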