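import Pool.Agent.Helper38.EQ.Polar
import Pool.Agent.Helper38.EQ.KeySmooth
import Pool.Agent.Helper38.EQ.ClaimC

/-!
# EQ-Z2c (smoothness of the discriminant does not depend on the transversal projection)

`S_n = MvPowerSeries (Fin n) Λ`.  `n ≥ 1` because `ξ ∈ max \ max²`.
1. `F₂.coeff (m-j) ∈ max^j` (`coeff_mem_pow`).  Translate: `r` with `m r = - F₂.coeff (m-1)`,
   `G = taylor r F₂`; `G.coeff (m-j) ∈ max^j` (`taylor_coeff_mem`), second coefficient zero, same
   discriminant.
2. Choose an isomorphism `ψ : S_n ≃ₐ PowerSeries (MvPowerSeries (Fin d) Λ)`, `n = d+1`, with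
   `ψ ξ = X` (an automorphism of `S_n` taking `ξ` to `X 0`, by `span_eq_of_linear`,
   `exists_algEquiv` as in `claimC_simple`, followed by `finSuccEquiv`).
   `ψ (discr G)` divides a power of `X`, a prime element, so `ψ (discr G) = X^e * U`, `U` a unit.
   `jung_order` (with `ρ = constantCoeff`) applied to `G.map ψ` gives `X^j ∣ ψ (G.coeff (m-j))`:
   hypothesis `h0` of `jung_order` because `G.coeff (m-j) ∈ max^j`.
3. Put `Ψ : S_{n+1} ≃ₐ PowerSeries (PowerSeries (MvPowerSeries (Fin d) Λ))`: the composite of `σ₂`, of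
   the translation `z ↦ z + r` and of `PowerSeries.map ψ` (an automorphism; use `exists_psi` or build
   it), so that `Ψ f = (G.map ψ) * unit`.
   `δ₁ = σ₁⁻¹ ∘ ∂_z ∘ σ₁`, `δ = Ψ ∘ δ₁ ∘ Ψ⁻¹`, `γ = (PowerSeries.map constantCoeff) ∘ σ₁ ∘ Ψ⁻¹`:
   then `γ ∘ δ = derivative ∘ γ`, and `γ (G.map ψ)` is (a unit) times `γ (Ψ f)`, which is
   `z^m * unit` because `F₁` is distinguished of degree `m`.
   `polar_radical`: `C X ∈ radical (span {G.map ψ, δ (G.map ψ)})`, and this span equals
   `span {Ψ f, δ (Ψ f)}` (product rule).  Since `G.map ψ ≡ z^m` modulo `C X`, also `z` is in the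
   radical.  Pull back by `Ψ`: `h_ξ = Ψ⁻¹ (C X)`, `h_z = Ψ⁻¹ (X)` are in
   `radical (span {f, δ₁ f})`; and `f ∈ (h_ξ, h_z)^m`.
4. In system 1: `𝔷 = σ₁ (h_ξ, h_z) ⊆ radical (span {F₁, ∂_z F₁})`, `F₁ ∈ 𝔷^m`.  With
   `r₀ = PowerSeries.map constantCoeff`: if `r₀ 𝔷 ⊆ (z²)` then `r₀ F₁ ∈ (z^(2m))`, but it is `z^m`;
   so one of the two generators, say `h₁`, has `r₀ h₁ = z * unit`; Weierstrass preparation
   (`isAdicComplete_mvPowerSeries`): `h₁ = (z - c) * unit`.  Let `ξ'` be the value at `z = c` of the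
   other generator `h₂` (divide by `z - c`: `h₂ = (z - c) q + C ξ'`).  The linear parts of `h₁, h₂` are
   independent (images of two coordinates by an automorphism), so those of `z - c, ξ'` are, and
   `ξ' ∈ max \ max²`.
5. `C ξ' ∈ 𝔷 ⊆ radical (span {F₁, F₁'})`: `C ξ'^k = a F₁ + b F₁'` in `S_n⟦z⟧`.  Dividing by the monic
   distinguished `F₁` (Weierstrass division) `b ≡` a polynomial modulo `F₁`, and
   `ξ'^k ≡ b F₁'` in the free `S_n`-algebra `S_n[z]/(F₁)` (uniqueness of the division).  Taking norms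
   (or resultants: `Res(F₁, b F₁') = Res(F₁, b) Res(F₁, F₁')`) gives
   `ξ'^(k m) = ± N(b) discr F₁`.
-/

namespace Pool.Agent.Helper38.EQ

open MvPowerSeries

/-! ### Step 5 -/

private theorem CZ_discr_dvd {A : Type} [CommRing A] [IsLocalRing A]
    [IsAdicComplete (IsLocalRing.maximalIdeal A) A]
    (F : Polynomial A) (hF : F.IsDistinguishedAt (IsLocalRing.maximalIdeal A))
    (hpos : 0 < F.natDegree) (x : A)
    (hx : PowerSeries.C x ∈
      (Ideal.span {(F : PowerSeries A), (F.derivative : PowerSeries A)}).radical) :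
    ∃ N, F.discr ∣ x ^ N := by
  obtain ⟨k, hk⟩ := hx
  rw [Ideal.mem_span_pair] at hk
  obtain ⟨a, b, hab⟩ := hk
  have hmon : F.Monic := hF.monic
  let e := hF.algEquivQuotient
  obtain ⟨b₀, hb₀⟩ : ∃ b₀ : Polynomial A,
      e (Ideal.Quotient.mk _ b₀) = Ideal.Quotient.mk _ b := by
    obtain ⟨y, hy⟩ := e.surjective (Ideal.Quotient.mk _ b)
    obtain ⟨b₀, rfl⟩ := Ideal.Quotient.mk_surjective y
    exact ⟨b₀, hy⟩
  have he : ∀ p : Polynomial A, e (Ideal.Quotient.mk _ p) =
      Ideal.Quotient.mk _ (p : PowerSeries A) := fun p => rfl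
  have h1 : e (Ideal.Quotient.mk _ (Polynomial.C (x ^ k))) =
      e (Ideal.Quotient.mk _ (b₀ * F.derivative)) := by
    rw [he, map_mul (Ideal.Quotient.mk _), map_mul e, hb₀, he, ← map_mul, Polynomial.coe_C]
    rw [Ideal.Quotient.mk_eq_mk_iff_sub_mem, Ideal.mem_span_singleton']
    refine ⟨a, ?_⟩
    rw [map_pow, ← hab]
    ring
  have h2 := e.injective h1
  rw [Ideal.Quotient.mk_eq_mk_iff_sub_mem, Ideal.mem_span_singleton'] at h2
  obtain ⟨p, hp⟩ := h2
  set m := F.natDegree with hm
  set n := b₀.natDegree + F.derivative.natDegree with hn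
  have hco : F.coeff m = 1 := hmon.coeff_natDegree
  have h3 : Polynomial.resultant F (b₀ * F.derivative) m (n + m) =
      Polynomial.resultant F b₀ m * Polynomial.resultant F F.derivative m := by
    rw [Polynomial.resultant_add_right_deg _ _ _ _ _ Polynomial.natDegree_mul_le, hco, one_pow,
      one_mul, Polynomial.resultant_mul_right _ _ _ m le_rfl]
  have hpn : (-p).natDegree ≤ n := by
    rw [Polynomial.natDegree_neg]
    by_cases hp0 : p = 0
    · rw [hp0]; simp
    · have h5 : (p * F).natDegree = p.natDegree + m := by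
        rw [mul_comm, hmon.natDegree_mul' hp0, add_comm]
      have h6 : (p * F).natDegree ≤ n := by
        rw [hp]
        refine le_trans (Polynomial.natDegree_sub_le _ _) ?_
        rw [Polynomial.natDegree_C]
        exact max_le (Nat.zero_le _) Polynomial.natDegree_mul_le
      omega
  have h4 : Polynomial.resultant F (b₀ * F.derivative) m (n + m) = (x ^ k) ^ m := by
    have h5 : b₀ * F.derivative = Polynomial.C (x ^ k) + F * (-p) := by
      linear_combination hp
    rw [h5, Polynomial.resultant_add_mul_right _ _ _ _ _ (by omega) le_rfl,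
      Polynomial.resultant_C_right, hco, one_pow, one_mul]
  have h5 : Polynomial.resultant F F.derivative m (m - 1) =
      Polynomial.resultant F F.derivative m := by
    have h6 : m - 1 = F.derivative.natDegree + ((m - 1) - F.derivative.natDegree) := by
      have := Polynomial.natDegree_derivative_le F
      omega
    rw [h6, Polynomial.resultant_add_right_deg _ _ _ _ _ le_rfl, hco, one_pow, one_mul]
  refine ⟨k * m, ?_⟩
  rw [discr_resultant F hmon hpos, ← hm, h5, pow_mul, ← h4, h3]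
  refine ⟨(-1) ^ (m * (m - 1) / 2) * Polynomial.resultant F b₀ m, ?_⟩
  have h7 : ((-1 : A) ^ (m * (m - 1) / 2)) * (-1) ^ (m * (m - 1) / 2) = 1 := by
    rw [← mul_pow]; simp
  linear_combination (-(Polynomial.resultant F b₀ m * Polynomial.resultant F F.derivative m)) * h7

/-! ### Division by a series of order one -/

private theorem CZ_div {A : Type} [CommRing A] [IsLocalRing A]
    [IsAdicComplete (IsLocalRing.maximalIdeal A) A] (h₁ h₂ : PowerSeries A)
    (h0 : PowerSeries.coeff 0 h₁ ∈ IsLocalRing.maximalIdeal A)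
    (h1 : PowerSeries.coeff 1 h₁ ∉ IsLocalRing.maximalIdeal A) :
    ∃ (q : PowerSeries A) (x : A), h₂ = h₁ * q + PowerSeries.C x := by
  have hne : h₁.map (IsLocalRing.residue A) ≠ 0 := by
    intro h
    have h3 := congrArg (PowerSeries.coeff 1) h
    rw [PowerSeries.coeff_map, map_zero, IsLocalRing.residue_eq_zero_iff] at h3
    exact h1 h3
  obtain ⟨q, r, hqr⟩ := PowerSeries.exists_isWeierstrassDivision h₂ hne
  have ho : (h₁.map (Ideal.Quotient.mk (IsLocalRing.maximalIdeal A))).order.toNat = 1 := by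
    have h4 : (h₁.map (Ideal.Quotient.mk (IsLocalRing.maximalIdeal A))).order = 1 := by
      have h5 := (PowerSeries.order_eq_nat
        (φ := h₁.map (Ideal.Quotient.mk (IsLocalRing.maximalIdeal A))) (n := 1)).2 ⟨?_, ?_⟩
      · exact_mod_cast h5
      · rw [PowerSeries.coeff_map]
        intro h6
        exact h1 (Ideal.Quotient.eq_zero_iff_mem.1 h6)
      · intro i hi
        have hi0 : i = 0 := by omega
        rw [hi0, PowerSeries.coeff_map]
        exact Ideal.Quotient.eq_zero_iff_mem.2 h0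
    rw [h4]
    rfl
  have hr := hqr.degree_lt
  rw [ho] at hr
  have hr2 : r = Polynomial.C (r.coeff 0) :=
    Polynomial.eq_C_of_degree_le_zero (Order.lt_succ_iff.1 (by exact_mod_cast hr))
  refine ⟨q, r.coeff 0, ?_⟩
  rw [hqr.eq_mul_add]
  conv_lhs => rw [hr2]
  rw [Polynomial.coe_C]

/-! ### Coordinates -/

private theorem CZ_exists_tau {n : ℕ} {K : Type} [Field K] (f : MvPowerSeries (Fin (n + 1)) K)
    (h1 : f ∈ IsLocalRing.maximalIdeal (MvPowerSeries (Fin (n + 1)) K))
    (h2 : f ∉ IsLocalRing.maximalIdeal (MvPowerSeries (Fin (n + 1)) K) ^ 2) :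
    ∃ τ : MvPowerSeries (Fin (n + 1)) K ≃ₐ[K] MvPowerSeries (Fin (n + 1)) K, τ (X 0) = f := by
  classical
  obtain ⟨i₀, hi₀⟩ : ∃ i₀ : Fin (n + 1), coeff (Finsupp.single i₀ 1) f ≠ 0 := by
    by_contra hcon
    push Not at hcon
    apply h2
    rw [mem_maximalIdeal_pow_iff]
    intro α hα
    have hc : (∑ i, α i) = 0 ∨ (∑ i, α i) = 1 := by omega
    rcases hc with hc | hc
    · have : α = 0 := by
        ext i
        simpa using Finset.sum_eq_zero_iff.mp hc i (Finset.mem_univ i)
      subst this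
      have := (mem_maximalIdeal_iff_constantCoeff f).mp h1
      simpa using this
    · obtain ⟨i, hi⟩ : ∃ i, α i ≠ 0 := by
        by_contra hall
        push Not at hall
        rw [Finset.sum_eq_zero (fun i _ => hall i)] at hc
        omega
      have h3 : α = Finsupp.single i 1 := by
        ext j
        by_cases hj : j = i
        · subst hj
          have := Finset.single_le_sum (f := fun i => α i) (fun i _ => Nat.zero_le _)
            (Finset.mem_univ j)
          rw [Finsupp.single_eq_same]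
          omega
        · have h4 := Finset.sum_le_sum_of_subset (f := fun i => α i)
            (Finset.subset_univ ({i, j} : Finset (Fin (n + 1))))
          rw [Finset.sum_pair (Ne.symm hj)] at h4
          rw [Finsupp.single_eq_of_ne hj]
          omega
      rw [h3]
      exact hcon i
  set y : Fin (n + 1) → MvPowerSeries (Fin (n + 1)) K :=
    Function.update (fun i => X i) i₀ f with hy
  have hspan : Ideal.span (Set.range y) =
      IsLocalRing.maximalIdeal (MvPowerSeries (Fin (n + 1)) K) := by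
    apply span_eq_of_linear
    · intro i
      by_cases hi : i = i₀
      · subst hi
        simpa [hy] using (mem_maximalIdeal_iff_constantCoeff f).mp h1
      · simp [hy, Function.update_of_ne hi]
    · have h3 : (Matrix.of fun i j => coeff (Finsupp.single j 1) (y i)) =
          (1 : Matrix (Fin (n + 1)) (Fin (n + 1)) K).updateRow i₀
            (fun j => coeff (Finsupp.single j 1) f) := by
        ext i j
        by_cases hi : i = i₀
        · subst hi
          simp [hy]
        · rw [Matrix.updateRow_ne hi]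
          simp only [hy, Matrix.of_apply, Function.update_of_ne hi, Matrix.one_apply]
          rw [coeff_X]
          by_cases hij : i = j
          · subst hij; simp
          · rw [if_neg hij, if_neg]
            intro h
            exact hij ((Finsupp.single_left_inj one_ne_zero).mp h).symm
      rw [h3]
      have h4 := Matrix.det_updateRow_sum (1 : Matrix (Fin (n + 1)) (Fin (n + 1)) K) i₀
        (fun j => coeff (Finsupp.single j 1) f)
      have h5 : (∑ k, coeff (Finsupp.single k 1) f •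
          (1 : Matrix (Fin (n + 1)) (Fin (n + 1)) K) k) =
          fun j => coeff (Finsupp.single j 1) f := by
        funext j
        simp [Finset.sum_apply, Matrix.one_apply]
      rw [h5] at h4
      rw [h4]
      simpa using hi₀
  have hspan2 : Ideal.span (Set.range (y ∘ Equiv.swap 0 i₀)) =
      IsLocalRing.maximalIdeal (MvPowerSeries (Fin (n + 1)) K) := by
    rw [EquivLike.range_comp]
    exact hspan
  obtain ⟨τ, hτ⟩ := exists_algEquiv _ hspan2
  refine ⟨τ, ?_⟩
  rw [hτ, Function.comp_apply, Equiv.swap_apply_left]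
  simp [hy]

private theorem CZ_shift {n : ℕ} {K : Type} [Field K]
    (τ : MvPowerSeries (Fin n) K ≃ₐ[K] MvPowerSeries (Fin n) K) (r : MvPowerSeries (Fin n) K)
    (hr : r ∈ IsLocalRing.maximalIdeal (MvPowerSeries (Fin n) K)) :
    ∃ Ω : PowerSeries (MvPowerSeries (Fin n) K) ≃ₐ[K] PowerSeries (MvPowerSeries (Fin n) K),
      ∀ P : Polynomial (MvPowerSeries (Fin n) K), Ω (P : PowerSeries (MvPowerSeries (Fin n) K)) =
        ((Polynomial.taylor r P).map (τ.symm : MvPowerSeries (Fin n) K →+*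
          MvPowerSeries (Fin n) K) : Polynomial (MvPowerSeries (Fin n) K)) := by
  obtain ⟨Ψ, hΨ0, hΨs⟩ := exists_psi τ r hr
  let e := finSuccEquiv K n
  refine ⟨Ψ.symm.trans e, ?_⟩
  -- constants
  have hC : ∀ a : MvPowerSeries (Fin n) K,
      Ψ.symm (PowerSeries.C a) = e.symm (PowerSeries.C (τ.symm a)) := by
    have h1 : ((Ψ.symm : PowerSeries (MvPowerSeries (Fin n) K) →+*
        MvPowerSeries (Fin (n + 1)) K).comp ((PowerSeries.C).comp
          (τ : MvPowerSeries (Fin n) K →+* MvPowerSeries (Fin n) K))) =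
        (e.symm : PowerSeries (MvPowerSeries (Fin n) K) →+*
        MvPowerSeries (Fin (n + 1)) K).comp PowerSeries.C := by
      apply ringHom_ext_of_X
      · intro a
        have ha : τ (C a) = C a := τ.commutes a
        show Ψ.symm (PowerSeries.C (τ (C a))) = e.symm (PowerSeries.C (C a))
        rw [ha]
        have h2 := Ψ.symm.commutes a
        have h3 := e.symm.commutes a
        rw [PowerSeries.algebraMap_apply] at h2 h3
        exact h2.trans h3.symm
      · intro i
        show Ψ.symm (PowerSeries.C (τ (X i))) = e.symm (PowerSeries.C (X i))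
        rw [← hΨs, AlgEquiv.symm_apply_apply, AlgEquiv.eq_symm_apply]
        exact finSuccEquiv_X_succ i
      · intro i
        show Ψ.symm (PowerSeries.C (τ (X i))) ∈ _
        rw [← hΨs, AlgEquiv.symm_apply_apply, mem_maximalIdeal_iff_constantCoeff]
        simp
    intro a
    have h2 := DFunLike.congr_fun h1 (τ.symm a)
    simpa using h2
  have hX : Ψ.symm PowerSeries.X = e.symm (PowerSeries.X + PowerSeries.C (τ.symm r)) := by
    have h1 : (PowerSeries.X : PowerSeries (MvPowerSeries (Fin n) K)) =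
        Ψ (X 0) + PowerSeries.C r := by rw [hΨ0, sub_add_cancel]
    rw [h1, map_add, AlgEquiv.symm_apply_apply, hC, map_add]
    congr 1
    rw [← h1, AlgEquiv.eq_symm_apply]
    exact finSuccEquiv_X_zero
  have key : (((Ψ.symm.trans e : PowerSeries (MvPowerSeries (Fin n) K) ≃ₐ[K]
      PowerSeries (MvPowerSeries (Fin n) K)) : PowerSeries (MvPowerSeries (Fin n) K) →+*
      PowerSeries (MvPowerSeries (Fin n) K)).comp
      (Polynomial.coeToPowerSeries.ringHom (R := MvPowerSeries (Fin n) K))) =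
      (Polynomial.coeToPowerSeries.ringHom (R := MvPowerSeries (Fin n) K)).comp
        ((Polynomial.mapRingHom (τ.symm : MvPowerSeries (Fin n) K →+*
          MvPowerSeries (Fin n) K)).comp
          (Polynomial.taylorAlgHom r : Polynomial (MvPowerSeries (Fin n) K) →+* _)) := by
    apply Polynomial.ringHom_ext
    · intro a
      show e (Ψ.symm ((Polynomial.C a : Polynomial (MvPowerSeries (Fin n) K)) :
        PowerSeries (MvPowerSeries (Fin n) K))) = (((Polynomial.taylor r (Polynomial.C a)).map _ :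
          Polynomial (MvPowerSeries (Fin n) K)) : PowerSeries (MvPowerSeries (Fin n) K))
      rw [Polynomial.coe_C, hC, AlgEquiv.apply_symm_apply, Polynomial.taylor_C, Polynomial.map_C,
        Polynomial.coe_C]
      rfl
    · show e (Ψ.symm ((Polynomial.X : Polynomial (MvPowerSeries (Fin n) K)) :
        PowerSeries (MvPowerSeries (Fin n) K))) = (((Polynomial.taylor r Polynomial.X).map _ :
          Polynomial (MvPowerSeries (Fin n) K)) : PowerSeries (MvPowerSeries (Fin n) K))
      rw [Polynomial.coe_X, hX, AlgEquiv.apply_symm_apply, Polynomial.taylor_X,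
        Polynomial.map_add, Polynomial.map_X, Polynomial.map_C, Polynomial.coe_add,
        Polynomial.coe_X, Polynomial.coe_C]
      rfl
  intro P
  exact DFunLike.congr_fun key P


/-! ### Small facts on orders -/

private theorem CZ_map_pow_dvd {R : Type} [CommRing R] {K : Type} [Field K]
    (θ : R →+* PowerSeries K) (I : Ideal R) (l : ℕ)
    (hθ : ∀ a ∈ I, (PowerSeries.X : PowerSeries K) ^ l ∣ θ a) (j : ℕ) (a : R) (ha : a ∈ I ^ j) :
    (PowerSeries.X : PowerSeries K) ^ (l * j) ∣ θ a := by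
  have h1 : I.map θ ≤ Ideal.span {(PowerSeries.X : PowerSeries K) ^ l} := by
    rw [Ideal.map_le_iff_le_comap]
    intro b hb
    rw [Ideal.mem_comap, Ideal.mem_span_singleton]
    exact hθ b hb
  have h2 : θ a ∈ (I.map θ) ^ j := by
    rw [← Ideal.map_pow]
    exact Ideal.mem_map_of_mem θ ha
  have h3 := Ideal.pow_right_mono h1 j h2
  rw [Ideal.span_singleton_pow, Ideal.mem_span_singleton, ← pow_mul] at h3
  exact h3

private theorem CZ_const_mem {A : Type} [CommRing A] [IsLocalRing A] (w : PowerSeries A)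
    (hw : w ∈ IsLocalRing.maximalIdeal (PowerSeries A)) :
    PowerSeries.constantCoeff w ∈ IsLocalRing.maximalIdeal A := by
  rw [IsLocalRing.mem_maximalIdeal, mem_nonunits_iff] at hw ⊢
  intro h
  exact hw (PowerSeries.isUnit_iff_constantCoeff.2 h)

private theorem CZ_X_dvd {K : Type} [Field K] (w : PowerSeries K)
    (hw : PowerSeries.constantCoeff w = 0) : (PowerSeries.X : PowerSeries K) ^ 1 ∣ w := by
  rw [pow_one]
  exact PowerSeries.X_dvd_iff.2 hw

private theorem CZ_distinguished {n : ℕ} {K : Type} [Field K]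
    (F : Polynomial (MvPowerSeries (Fin n) K))
    (hF : F.IsDistinguishedAt (IsLocalRing.maximalIdeal (MvPowerSeries (Fin n) K))) :
    PowerSeries.map (constantCoeff (σ := Fin n) (R := K))
      (F : PowerSeries (MvPowerSeries (Fin n) K)) = PowerSeries.X ^ F.natDegree := by
  have h4 : F.map (constantCoeff (σ := Fin n) (R := K)) = Polynomial.X ^ F.natDegree := by
    ext i
    rw [Polynomial.coeff_map, Polynomial.coeff_X_pow]
    by_cases hi : i = F.natDegree
    · rw [if_pos hi, hi, Polynomial.coeff_natDegree, hF.monic.leadingCoeff,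
        map_one]
    · rw [if_neg hi]
      rcases lt_or_gt_of_ne hi with lt | gt
      · rw [← mem_maximalIdeal_iff_constantCoeff]
        exact hF.mem lt
      · rw [Polynomial.coeff_eq_zero_of_natDegree_lt gt, map_zero]
  rw [← Polynomial.polynomial_map_coe, h4]
  simp

/-! ### Steps 4 and 5 -/

private theorem CZ_finish {n : ℕ} {Λ : Type} [Field Λ]
    (F : Polynomial (MvPowerSeries (Fin n) Λ))
    (hF : F.IsDistinguishedAt (IsLocalRing.maximalIdeal (MvPowerSeries (Fin n) Λ)))
    (hpos : 0 < F.natDegree)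
    (h₁ h₂ : PowerSeries (MvPowerSeries (Fin n) Λ))
    (hm₁ : h₁ ∈ IsLocalRing.maximalIdeal (PowerSeries (MvPowerSeries (Fin n) Λ)))
    (hm₂ : h₂ ∈ IsLocalRing.maximalIdeal (PowerSeries (MvPowerSeries (Fin n) Λ)))
    (hc : constantCoeff (PowerSeries.coeff 1 h₁) ≠ 0)
    (hind : ∀ q, h₂ - h₁ * q ∉ IsLocalRing.maximalIdeal (PowerSeries (MvPowerSeries (Fin n) Λ)) ^ 2)
    (hr₁ : h₁ ∈ (Ideal.span {(F : PowerSeries (MvPowerSeries (Fin n) Λ)),
      (F.derivative : PowerSeries (MvPowerSeries (Fin n) Λ))}).radical)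
    (hr₂ : h₂ ∈ (Ideal.span {(F : PowerSeries (MvPowerSeries (Fin n) Λ)),
      (F.derivative : PowerSeries (MvPowerSeries (Fin n) Λ))}).radical) :
    ∃ ξ' ∈ IsLocalRing.maximalIdeal (MvPowerSeries (Fin n) Λ),
      ξ' ∉ IsLocalRing.maximalIdeal (MvPowerSeries (Fin n) Λ) ^ 2 ∧ ∃ N, F.discr ∣ ξ' ^ N := by
  have hcomp := isAdicComplete_mvPowerSeries n Λ
  obtain ⟨q, x, hqx⟩ := CZ_div h₁ h₂ (by
      rw [PowerSeries.coeff_zero_eq_constantCoeff_apply]
      exact CZ_const_mem h₁ hm₁) (by
      rw [mem_maximalIdeal_iff_constantCoeff]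
      exact hc)
  have hCx : PowerSeries.C x = h₂ - h₁ * q := by rw [hqx]; ring
  refine ⟨x, ?_, ?_, ?_⟩
  · have h1 : PowerSeries.C x ∈
        IsLocalRing.maximalIdeal (PowerSeries (MvPowerSeries (Fin n) Λ)) := by
      rw [hCx]
      exact Ideal.sub_mem _ hm₂ (Ideal.mul_mem_right _ _ hm₁)
    have h2 := CZ_const_mem _ h1
    rwa [PowerSeries.constantCoeff_C] at h2
  · intro hx
    apply hind q
    rw [← hCx]
    have h1 : (IsLocalRing.maximalIdeal (MvPowerSeries (Fin n) Λ)).map PowerSeries.C ≤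
        IsLocalRing.maximalIdeal (PowerSeries (MvPowerSeries (Fin n) Λ)) := by
      rw [Ideal.map_le_iff_le_comap]
      intro a ha
      rw [Ideal.mem_comap, IsLocalRing.mem_maximalIdeal, mem_nonunits_iff]
      intro h
      rw [PowerSeries.isUnit_iff_constantCoeff, PowerSeries.constantCoeff_C] at h
      exact (IsLocalRing.mem_maximalIdeal a).1 ha h
    have h2 := Ideal.mem_map_of_mem PowerSeries.C hx
    rw [Ideal.map_pow] at h2
    exact Ideal.pow_right_mono h1 2 h2
  · apply CZ_discr_dvd F hF hpos x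
    rw [hCx]
    exact Ideal.sub_mem _ hr₂ (Ideal.mul_mem_right _ _ hr₁)


private theorem CZ_ind {T : Type} [CommRing T] [IsLocalRing T] {K : Type} [Field K]
    (θ : T →+* PowerSeries K)
    (hθ : ∀ a ∈ IsLocalRing.maximalIdeal T, PowerSeries.constantCoeff (θ a) = 0)
    (w : T) (hw : w ∈ IsLocalRing.maximalIdeal T ^ 2) (hθw : θ w = PowerSeries.X) : False := by
  have h1 := CZ_map_pow_dvd θ (IsLocalRing.maximalIdeal T) 1
    (fun a ha => CZ_X_dvd _ (hθ a ha)) 2 w hw
  rw [hθw, PowerSeries.X_pow_dvd_iff] at h1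
  have h2 := h1 1 (by norm_num)
  rw [PowerSeries.coeff_one_X] at h2
  exact one_ne_zero h2

private theorem CZ_core2 {d : ℕ} {Λ : Type} [Field Λ]
    (f : MvPowerSeries (Fin (d + 1 + 1)) Λ) (m : ℕ) (hm : 0 < m)
    (σ₁ : MvPowerSeries (Fin (d + 1 + 1)) Λ ≃ₐ[Λ] PowerSeries (MvPowerSeries (Fin (d + 1)) Λ))
    (F₁ : Polynomial (MvPowerSeries (Fin (d + 1)) Λ))
    (U₁ : PowerSeries (MvPowerSeries (Fin (d + 1)) Λ))
    (hF₁ : (σ₁ f).IsWeierstrassFactorization F₁ U₁) (hd₁ : F₁.natDegree = m)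
    (Ψ : MvPowerSeries (Fin (d + 1 + 1)) Λ ≃ₐ[Λ]
      PowerSeries (PowerSeries (MvPowerSeries (Fin d) Λ)))
    (hΨ : Ψ f ∈ Ideal.span {PowerSeries.C PowerSeries.X, PowerSeries.X} ^ m)
    (hr1 : PowerSeries.C PowerSeries.X ∈ (Ideal.span {Ψ f,
      Ψ (σ₁.symm (PowerSeries.derivative _ (σ₁ f)))}).radical)
    (hr2 : PowerSeries.X ∈ (Ideal.span {Ψ f,
      Ψ (σ₁.symm (PowerSeries.derivative _ (σ₁ f)))}).radical) :
    ∃ ξ' ∈ IsLocalRing.maximalIdeal (MvPowerSeries (Fin (d + 1)) Λ),
      ξ' ∉ IsLocalRing.maximalIdeal (MvPowerSeries (Fin (d + 1)) Λ) ^ 2 ∧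
      ∃ N, F₁.discr ∣ ξ' ^ N := by
  let ω : PowerSeries (PowerSeries (MvPowerSeries (Fin d) Λ)) ≃ₐ[Λ]
    PowerSeries (MvPowerSeries (Fin (d + 1)) Λ) := Ψ.symm.trans σ₁
  have hωf : ω (Ψ f) = F₁ * U₁ := by
    show σ₁ (Ψ.symm (Ψ f)) = _
    rw [AlgEquiv.symm_apply_apply]
    exact hF₁.eq_mul
  set J' : Ideal (PowerSeries (MvPowerSeries (Fin (d + 1)) Λ)) :=
    Ideal.span {(F₁ : PowerSeries (MvPowerSeries (Fin (d + 1)) Λ)),
      (F₁.derivative : PowerSeries (MvPowerSeries (Fin (d + 1)) Λ))} with hJ'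
  have hFJ : (F₁ : PowerSeries (MvPowerSeries (Fin (d + 1)) Λ)) ∈ J' :=
    Ideal.subset_span (Set.mem_insert _ _)
  have hF'J : (F₁.derivative : PowerSeries (MvPowerSeries (Fin (d + 1)) Λ)) ∈ J' :=
    Ideal.subset_span (Set.mem_insert_of_mem _ rfl)
  have hJ : ∀ t ∈ (Ideal.span {Ψ f,
      Ψ (σ₁.symm (PowerSeries.derivative _ (σ₁ f)))}).radical, ω t ∈ J'.radical := by
    rintro t ⟨k, hk⟩
    refine ⟨k, ?_⟩
    have h1 : Ideal.span {Ψ f, Ψ (σ₁.symm (PowerSeries.derivative _ (σ₁ f)))} ≤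
        J'.comap (ω : PowerSeries (PowerSeries (MvPowerSeries (Fin d) Λ)) →+*
          PowerSeries (MvPowerSeries (Fin (d + 1)) Λ)) := by
      rw [Ideal.span_le]
      rintro _ (rfl | rfl)
      · show ω (Ψ f) ∈ J'
        rw [hωf]
        exact Ideal.mul_mem_right _ _ hFJ
      · show σ₁ (Ψ.symm (Ψ (σ₁.symm (PowerSeries.derivative _ (σ₁ f))))) ∈ J'
        rw [AlgEquiv.symm_apply_apply, AlgEquiv.apply_symm_apply, hF₁.eq_mul, Derivation.leibniz,
          smul_eq_mul, smul_eq_mul, PowerSeries.derivative_coe]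
        exact Ideal.add_mem _ (Ideal.mul_mem_right _ _ hFJ) (Ideal.mul_mem_left _ _ hF'J)
    have h2 := h1 hk
    rw [Ideal.mem_comap] at h2
    rw [← map_pow]
    exact h2
  -- the coordinates are in the maximal ideal
  have hCX : (PowerSeries.C (PowerSeries.X : PowerSeries (MvPowerSeries (Fin d) Λ)) :
      PowerSeries (PowerSeries (MvPowerSeries (Fin d) Λ))) ∈
      IsLocalRing.maximalIdeal (PowerSeries (PowerSeries (MvPowerSeries (Fin d) Λ))) := by
    rw [IsLocalRing.mem_maximalIdeal, mem_nonunits_iff]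
    intro h
    rw [PowerSeries.isUnit_iff_constantCoeff, PowerSeries.constantCoeff_C,
      PowerSeries.isUnit_iff_constantCoeff, PowerSeries.constantCoeff_X] at h
    exact not_isUnit_zero h
  have hXm : (PowerSeries.X : PowerSeries (PowerSeries (MvPowerSeries (Fin d) Λ))) ∈
      IsLocalRing.maximalIdeal (PowerSeries (PowerSeries (MvPowerSeries (Fin d) Λ))) := by
    rw [IsLocalRing.mem_maximalIdeal, mem_nonunits_iff]
    intro h
    rw [PowerSeries.isUnit_iff_constantCoeff, PowerSeries.constantCoeff_X] at h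
    exact not_isUnit_zero h
  have hωm : ∀ (k : ℕ) (t : PowerSeries (PowerSeries (MvPowerSeries (Fin d) Λ))),
      ω t ∈ IsLocalRing.maximalIdeal (PowerSeries (MvPowerSeries (Fin (d + 1)) Λ)) ^ k ↔
      t ∈ IsLocalRing.maximalIdeal (PowerSeries (PowerSeries (MvPowerSeries (Fin d) Λ))) ^ k :=
    fun k t => algEquiv_mem_maximalIdeal_pow ω.toRingEquiv k t
  have hu : ω (PowerSeries.C PowerSeries.X) ∈
      IsLocalRing.maximalIdeal (PowerSeries (MvPowerSeries (Fin (d + 1)) Λ)) := by
    have := (hωm 1 (PowerSeries.C PowerSeries.X)).2 (by rw [pow_one]; exact hCX)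
    rwa [pow_one] at this
  have hv : ω PowerSeries.X ∈
      IsLocalRing.maximalIdeal (PowerSeries (MvPowerSeries (Fin (d + 1)) Λ)) := by
    have := (hωm 1 PowerSeries.X).2 (by rw [pow_one]; exact hXm)
    rwa [pow_one] at this
  have hind1 : ∀ q, ω PowerSeries.X - ω (PowerSeries.C PowerSeries.X) * q ∉
      IsLocalRing.maximalIdeal (PowerSeries (MvPowerSeries (Fin (d + 1)) Λ)) ^ 2 := by
    intro q hq
    obtain ⟨q', rfl⟩ := ω.surjective q
    rw [← map_mul, ← map_sub, hωm] at hq
    refine CZ_ind (PowerSeries.map ((constantCoeff (σ := Fin d) (R := Λ)).comp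
      PowerSeries.constantCoeff)) ?_ _ hq ?_
    · intro a ha
      have h1 := CZ_const_mem _ (CZ_const_mem a ha)
      rw [mem_maximalIdeal_iff_constantCoeff] at h1
      rw [← PowerSeries.coeff_zero_eq_constantCoeff_apply, PowerSeries.coeff_map,
        PowerSeries.coeff_zero_eq_constantCoeff_apply]
      exact h1
    · rw [map_sub, map_mul, PowerSeries.map_X, PowerSeries.map_C, RingHom.comp_apply,
        PowerSeries.constantCoeff_X, map_zero, map_zero, zero_mul, sub_zero]
  have hind2 : ∀ q, ω (PowerSeries.C PowerSeries.X) - ω PowerSeries.X * q ∉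
      IsLocalRing.maximalIdeal (PowerSeries (MvPowerSeries (Fin (d + 1)) Λ)) ^ 2 := by
    intro q hq
    obtain ⟨q', rfl⟩ := ω.surjective q
    rw [← map_mul, ← map_sub, hωm] at hq
    refine CZ_ind ((PowerSeries.map (constantCoeff (σ := Fin d) (R := Λ))).comp
      PowerSeries.constantCoeff) ?_ _ hq ?_
    · intro a ha
      have h1 := CZ_const_mem _ (CZ_const_mem a ha)
      rw [mem_maximalIdeal_iff_constantCoeff] at h1
      rw [RingHom.comp_apply, ← PowerSeries.coeff_zero_eq_constantCoeff_apply,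
        PowerSeries.coeff_map, PowerSeries.coeff_zero_eq_constantCoeff_apply]
      exact h1
    · rw [RingHom.comp_apply, map_sub, map_mul, PowerSeries.constantCoeff_C,
        PowerSeries.constantCoeff_X, zero_mul, sub_zero, PowerSeries.map_X]
  have hpos : 0 < F₁.natDegree := by rw [hd₁]; exact hm
  by_cases hcu : constantCoeff (PowerSeries.coeff 1 (ω (PowerSeries.C PowerSeries.X))) = 0
  · by_cases hcv : constantCoeff (PowerSeries.coeff 1 (ω PowerSeries.X)) = 0
    · exfalso
      let r₀ := PowerSeries.map (constantCoeff (σ := Fin (d + 1)) (R := Λ))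
      have h2 : ∀ w ∈ IsLocalRing.maximalIdeal (PowerSeries (MvPowerSeries (Fin (d + 1)) Λ)),
          constantCoeff (PowerSeries.coeff 1 w) = 0 → (PowerSeries.X : PowerSeries Λ) ^ 2 ∣ r₀ w := by
        intro w hw hw1
        rw [PowerSeries.X_pow_dvd_iff]
        intro i hi
        have hi2 : i = 0 ∨ i = 1 := by omega
        rcases hi2 with rfl | rfl
        · have h1 := CZ_const_mem w hw
          rw [mem_maximalIdeal_iff_constantCoeff] at h1
          rw [PowerSeries.coeff_map, PowerSeries.coeff_zero_eq_constantCoeff_apply]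
          exact h1
        · rw [PowerSeries.coeff_map]
          exact hw1
      have h3 := CZ_map_pow_dvd (r₀.comp (ω : PowerSeries (PowerSeries (MvPowerSeries (Fin d) Λ))
        →+* PowerSeries (MvPowerSeries (Fin (d + 1)) Λ)))
        (Ideal.span {PowerSeries.C PowerSeries.X, PowerSeries.X}) 2 (by
          have h4 : Ideal.span {PowerSeries.C PowerSeries.X, PowerSeries.X} ≤
            (Ideal.span {(PowerSeries.X : PowerSeries Λ) ^ 2}).comap (r₀.comp
            (ω : PowerSeries (PowerSeries (MvPowerSeries (Fin d) Λ))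
              →+* PowerSeries (MvPowerSeries (Fin (d + 1)) Λ))) := by
            rw [Ideal.span_le]
            rintro _ (rfl | rfl)
            · show r₀ (ω (PowerSeries.C PowerSeries.X)) ∈
                Ideal.span {(PowerSeries.X : PowerSeries Λ) ^ 2}
              rw [Ideal.mem_span_singleton]
              exact h2 _ hu hcu
            · show r₀ (ω PowerSeries.X) ∈ Ideal.span {(PowerSeries.X : PowerSeries Λ) ^ 2}
              rw [Ideal.mem_span_singleton]
              exact h2 _ hv hcv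
          intro a ha
          exact Ideal.mem_span_singleton.1 (h4 ha)) m (Ψ f) hΨ
      have h4 : (r₀.comp (ω : PowerSeries (PowerSeries (MvPowerSeries (Fin d) Λ))
        →+* PowerSeries (MvPowerSeries (Fin (d + 1)) Λ))) (Ψ f) =
          PowerSeries.X ^ m * r₀ U₁ := by
        show r₀ (ω (Ψ f)) = _
        rw [hωf, map_mul]
        congr 1
        rw [← hd₁]
        exact CZ_distinguished F₁ hF₁.isDistinguishedAt
      rw [h4, PowerSeries.X_pow_dvd_iff] at h3
      have h5 := h3 m (by omega)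
      have h6 := PowerSeries.coeff_X_pow_mul (r₀ U₁) m 0
      rw [zero_add] at h6
      rw [h6] at h5
      have h7 : IsUnit (r₀ U₁) := hF₁.isUnit.map r₀
      rw [PowerSeries.isUnit_iff_constantCoeff] at h7
      exact h7.ne_zero (by rw [← PowerSeries.coeff_zero_eq_constantCoeff_apply]; exact h5)
    · exact CZ_finish F₁ hF₁.isDistinguishedAt hpos _ _ hv hu hcv hind2 (hJ _ hr2) (hJ _ hr1)
  · exact CZ_finish F₁ hF₁.isDistinguishedAt hpos _ _ hu hv hcu hind1 (hJ _ hr1) (hJ _ hr2)


/-! ### Steps 1 to 3 -/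

private noncomputable def CZ_mapEquiv {K A B : Type} [Field K] [CommRing A] [CommRing B]
    [Algebra K A] [Algebra K B] (e : A ≃ₐ[K] B) : PowerSeries A ≃ₐ[K] PowerSeries B :=
  AlgEquiv.ofAlgHom (PowerSeries.mapAlgHom (e : A →ₐ[K] B))
    (PowerSeries.mapAlgHom (e.symm : B →ₐ[K] A))
    (by
      apply AlgHom.ext
      intro w
      ext n
      simp [PowerSeries.mapAlgHom_apply])
    (by
      apply AlgHom.ext
      intro w
      ext n
      simp [PowerSeries.mapAlgHom_apply])

private theorem CZ_mapEquiv_apply {K A B : Type} [Field K] [CommRing A] [CommRing B]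
    [Algebra K A] [Algebra K B] (e : A ≃ₐ[K] B) (w : PowerSeries A) :
    CZ_mapEquiv e w = PowerSeries.map (e : A →+* B) w := by
  show PowerSeries.mapAlgHom (e : A →ₐ[K] B) w = _
  rw [PowerSeries.mapAlgHom_apply]
  rfl

/-- the constant coefficient as a homomorphism of algebras -/
private noncomputable def CZ_cc (n : ℕ) (Λ : Type) [Field Λ] :
    MvPowerSeries (Fin n) Λ →ₐ[Λ] Λ :=
  { (constantCoeff (σ := Fin n) (R := Λ)) with
    commutes' := fun a => by
      show constantCoeff (C a) = a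
      simp }

private theorem CZ_deriv_map {A B : Type} [CommRing A] [CommRing B] (φ : A →+* B)
    (w : PowerSeries A) :
    PowerSeries.map φ (PowerSeries.derivative A w) =
      PowerSeries.derivative B (PowerSeries.map φ w) := by
  ext n
  rw [PowerSeries.coeff_map, PowerSeries.coeff_derivative, PowerSeries.coeff_derivative,
    PowerSeries.coeff_map, map_mul, map_add, map_natCast, map_one]

/-- the derivation along `z` in another system of coordinates -/
private noncomputable def CZ_delta {K A T : Type} [Field K] [CommRing A] [CommRing T]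
    [Algebra K A] [Algebra K T] (ω : T ≃ₐ[K] PowerSeries A) : Derivation K T T :=
  Derivation.mk'
    { toFun := fun g => ω.symm (PowerSeries.derivative A (ω g))
      map_add' := fun g h => by rw [map_add, map_add, map_add]
      map_smul' := fun c g => by
        have hsmul : ∀ (x : PowerSeries A),
            PowerSeries.derivative A (c • x) = c • PowerSeries.derivative A x := by
          intro x
          rw [← algebraMap_smul A c x, Derivation.map_smul, algebraMap_smul]
        rw [map_smul, hsmul, map_smul, RingHom.id_apply] }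
    (fun g h => by
      show ω.symm (PowerSeries.derivative A (ω (g * h))) =
        g • ω.symm (PowerSeries.derivative A (ω h)) + h • ω.symm (PowerSeries.derivative A (ω g))
      rw [map_mul, Derivation.leibniz, map_add, smul_eq_mul, smul_eq_mul, map_mul, map_mul,
        AlgEquiv.symm_apply_apply, AlgEquiv.symm_apply_apply, smul_eq_mul, smul_eq_mul])

private theorem CZ_delta_apply {K A T : Type} [Field K] [CommRing A] [CommRing T]
    [Algebra K A] [Algebra K T] (ω : T ≃ₐ[K] PowerSeries A) (g : T) :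
    CZ_delta ω g = ω.symm (PowerSeries.derivative A (ω g)) := rfl

private theorem CZ_core1 {d : ℕ} {Λ : Type} [Field Λ] [IsAlgClosed Λ] [CharZero Λ]
    (f : MvPowerSeries (Fin (d + 1 + 1)) Λ) (m : ℕ) (hm : 2 ≤ m)
    (hf : f ∈ IsLocalRing.maximalIdeal (MvPowerSeries (Fin (d + 1 + 1)) Λ) ^ m)
    (σ₁ σ₂ : MvPowerSeries (Fin (d + 1 + 1)) Λ ≃ₐ[Λ] PowerSeries (MvPowerSeries (Fin (d + 1)) Λ))
    (F₁ F₂ : Polynomial (MvPowerSeries (Fin (d + 1)) Λ))
    (U₁ U₂ : PowerSeries (MvPowerSeries (Fin (d + 1)) Λ))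
    (hF₁ : (σ₁ f).IsWeierstrassFactorization F₁ U₁)
    (hF₂ : (σ₂ f).IsWeierstrassFactorization F₂ U₂)
    (hd₁ : F₁.natDegree = m) (hd₂ : F₂.natDegree = m)
    (ξ : MvPowerSeries (Fin (d + 1)) Λ)
    (hξ : ξ ∈ IsLocalRing.maximalIdeal (MvPowerSeries (Fin (d + 1)) Λ))
    (hξ' : ξ ∉ IsLocalRing.maximalIdeal (MvPowerSeries (Fin (d + 1)) Λ) ^ 2)
    (hD : ∃ N, F₂.discr ∣ ξ ^ N) :
    ∃ Ψ : MvPowerSeries (Fin (d + 1 + 1)) Λ ≃ₐ[Λ]
        PowerSeries (PowerSeries (MvPowerSeries (Fin d) Λ)),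
      Ψ f ∈ Ideal.span {PowerSeries.C PowerSeries.X, PowerSeries.X} ^ m ∧
      PowerSeries.C PowerSeries.X ∈ (Ideal.span {Ψ f,
        Ψ (σ₁.symm (PowerSeries.derivative _ (σ₁ f)))}).radical ∧
      PowerSeries.X ∈ (Ideal.span {Ψ f,
        Ψ (σ₁.symm (PowerSeries.derivative _ (σ₁ f)))}).radical := by
  obtain ⟨τ, hτ⟩ := CZ_exists_tau ξ hξ hξ'
  have hpos : 0 < F₂.natDegree := by omega
  have hmon₂ : F₂.Monic := hF₂.isDistinguishedAt.monic
  have hm0 : (m : Λ) ≠ 0 := by
    have : m ≠ 0 := by omega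
    exact_mod_cast this
  -- the coefficients of F₂
  have hco₂ : ∀ j ≤ F₂.natDegree, F₂.coeff (F₂.natDegree - j) ∈
      IsLocalRing.maximalIdeal (MvPowerSeries (Fin (d + 1)) Λ) ^ j := by
    apply coeff_mem_pow F₂ U₂ hF₂.isUnit
    rw [← hF₂.eq_mul, hd₂]
    exact (algEquiv_mem_maximalIdeal_pow (σ₂.trans (finSuccEquiv Λ (d + 1)).symm).toRingEquiv
      m f).2 hf
  -- the translation
  set r : MvPowerSeries (Fin (d + 1)) Λ := - (C (m : Λ)⁻¹ * F₂.coeff (m - 1)) with hr
  have hrm : r ∈ IsLocalRing.maximalIdeal (MvPowerSeries (Fin (d + 1)) Λ) := by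
    have h1 := hco₂ 1 hpos
    rw [pow_one, hd₂] at h1
    exact neg_mem (Ideal.mul_mem_left _ _ h1)
  have hmr : (m : MvPowerSeries (Fin (d + 1)) Λ) * r = - F₂.coeff (m - 1) := by
    have h1 : (m : MvPowerSeries (Fin (d + 1)) Λ) = C (m : Λ) := (map_natCast C m).symm
    rw [hr, h1, mul_neg, ← mul_assoc, ← map_mul, mul_inv_cancel₀ hm0, map_one, one_mul]
  obtain ⟨Ω, hΩ⟩ := CZ_shift τ r hrm
  let ψ : MvPowerSeries (Fin (d + 1)) Λ ≃ₐ[Λ] PowerSeries (MvPowerSeries (Fin d) Λ) :=
    τ.symm.trans (finSuccEquiv Λ d)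
  let Ψ : MvPowerSeries (Fin (d + 1 + 1)) Λ ≃ₐ[Λ]
      PowerSeries (PowerSeries (MvPowerSeries (Fin d) Λ)) :=
    σ₂.trans (Ω.trans (CZ_mapEquiv (finSuccEquiv Λ d)))
  set P := Polynomial.taylor r F₂ with hP
  have hPm : P.Monic := by
    rw [Polynomial.Monic, hP, Polynomial.leadingCoeff_taylor]; exact hmon₂
  have hPd : P.natDegree = m := by rw [hP, Polynomial.natDegree_taylor, hd₂]
  set ψr : MvPowerSeries (Fin (d + 1)) Λ →+* PowerSeries (MvPowerSeries (Fin d) Λ) :=
    (ψ : MvPowerSeries (Fin (d + 1)) Λ →+* PowerSeries (MvPowerSeries (Fin d) Λ)) with hψr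
  set G := P.map ψr with hG
  have hGm : G.Monic := hPm.map ψr
  have hGd : G.natDegree = m := by rw [hG, hPm.natDegree_map, hPd]
  -- the image of f
  have hΨf : Ψ f = (G : PowerSeries (PowerSeries (MvPowerSeries (Fin d) Λ))) *
      CZ_mapEquiv (finSuccEquiv Λ d) (Ω U₂) := by
    show CZ_mapEquiv (finSuccEquiv Λ d) (Ω (σ₂ f)) = _
    rw [hF₂.eq_mul, map_mul, map_mul]
    congr 1
    rw [hΩ, CZ_mapEquiv_apply, ← Polynomial.polynomial_map_coe, Polynomial.map_map]
    rfl
  have hV : IsUnit (CZ_mapEquiv (finSuccEquiv Λ d) (Ω U₂)) :=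
    (hF₂.isUnit.map Ω).map (CZ_mapEquiv (finSuccEquiv Λ d))
  set V := CZ_mapEquiv (finSuccEquiv Λ d) (Ω U₂) with hVdef
  -- the discriminant
  have hdG : G.discr = ψr F₂.discr := by
    rw [hG, discr_map ψr P hPm (by omega), hP, discr_taylor F₂ hmon₂ hpos r]
  have hψξ : ψr ξ = PowerSeries.X := by
    show finSuccEquiv Λ d (τ.symm ξ) = _
    rw [← hτ, AlgEquiv.symm_apply_apply]
    exact finSuccEquiv_X_zero
  obtain ⟨e, U, hU, hDG⟩ : ∃ (e : ℕ) (U : PowerSeries (MvPowerSeries (Fin d) Λ)), IsUnit U ∧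
      G.discr = PowerSeries.X ^ e * U := by
    obtain ⟨N, hN⟩ := hD
    have h1 : G.discr ∣ PowerSeries.X ^ N := by
      rw [hdG, ← hψξ, ← map_pow]
      exact map_dvd ψr hN
    obtain ⟨e, -, u, hu⟩ := (dvd_prime_pow PowerSeries.X_prime N).1 h1
    refine ⟨e, ((u⁻¹ : (PowerSeries (MvPowerSeries (Fin d) Λ))ˣ) :
      PowerSeries (MvPowerSeries (Fin d) Λ)), Units.isUnit _, ?_⟩
    rw [← hu, mul_assoc, Units.mul_inv, mul_one]
  -- the coefficients
  have hGco : ∀ j ≤ G.natDegree, (PowerSeries.X : PowerSeries (MvPowerSeries (Fin d) Λ)) ^ j ∣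
      G.coeff (G.natDegree - j) := by
    refine jung_order (constantCoeff (σ := Fin d) (R := Λ)) G hGm ?_ e U hDG ?_ ?_
    · rw [hGd, hG, Polynomial.coeff_map]
      have h1 := taylor_coeff_pred F₂ hmon₂ hpos r
      rw [hd₂, hmr, add_neg_cancel] at h1
      rw [hP, h1, map_zero]
    · have h1 := (PowerSeries.isUnit_iff_constantCoeff.1 hU).map
        (constantCoeff (σ := Fin d) (R := Λ))
      exact h1.ne_zero
    · intro j hj
      rw [hGd] at hj ⊢
      rw [hG, Polynomial.coeff_map]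
      have h1 := taylor_coeff_mem _ F₂ r hrm hco₂ j (by rw [hd₂]; exact hj)
      rw [hd₂] at h1
      have h2 := CZ_map_pow_dvd ((PowerSeries.map (constantCoeff (σ := Fin d) (R := Λ))).comp ψr)
        (IsLocalRing.maximalIdeal (MvPowerSeries (Fin (d + 1)) Λ)) 1 (by
          intro a ha
          apply CZ_X_dvd
          have h3 := (algEquiv_mem_maximalIdeal_pow ψ.toRingEquiv 1 a).2
            (by rw [pow_one]; exact ha)
          rw [pow_one] at h3
          have h4 := CZ_const_mem _ h3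
          rw [mem_maximalIdeal_iff_constantCoeff] at h4
          rw [RingHom.comp_apply, ← PowerSeries.coeff_zero_eq_constantCoeff_apply,
            PowerSeries.coeff_map, PowerSeries.coeff_zero_eq_constantCoeff_apply]
          exact h4) j _ h1
      rw [one_mul] at h2
      exact h2
  -- the derivation and the arc
  let ω : PowerSeries (PowerSeries (MvPowerSeries (Fin d) Λ)) ≃ₐ[Λ]
    PowerSeries (MvPowerSeries (Fin (d + 1)) Λ) := Ψ.symm.trans σ₁
  let γ : PowerSeries (PowerSeries (MvPowerSeries (Fin d) Λ)) →ₐ[Λ] PowerSeries Λ :=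
    (PowerSeries.mapAlgHom (CZ_cc (d + 1) Λ)).comp (ω : _ →ₐ[Λ] _)
  have hγ : ∀ h, γ h = PowerSeries.map (constantCoeff (σ := Fin (d + 1)) (R := Λ)) (ω h) := by
    intro h
    show PowerSeries.mapAlgHom (CZ_cc (d + 1) Λ) (ω h) = _
    rw [PowerSeries.mapAlgHom_apply]
    rfl
  have hωf : ω (Ψ f) = F₁ * U₁ := by
    show σ₁ (Ψ.symm (Ψ f)) = _
    rw [AlgEquiv.symm_apply_apply]
    exact hF₁.eq_mul
  have hpol := polar_radical G hGm (by omega) e U hDG hU hGco (CZ_delta ω) γ (by
      intro h hh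
      have h3 := (algEquiv_mem_maximalIdeal_pow ω.toRingEquiv 1 h).2
            (by rw [pow_one]; exact hh)
      rw [pow_one] at h3
      have h4 := CZ_const_mem _ h3
      rw [mem_maximalIdeal_iff_constantCoeff] at h4
      rw [hγ, IsLocalRing.mem_maximalIdeal, mem_nonunits_iff, PowerSeries.isUnit_iff_constantCoeff,
        ← PowerSeries.coeff_zero_eq_constantCoeff_apply, PowerSeries.coeff_map,
        PowerSeries.coeff_zero_eq_constantCoeff_apply]
      intro h5
      exact h5.ne_zero h4) (by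
      intro h
      rw [hγ, CZ_delta_apply, AlgEquiv.apply_symm_apply, hγ, CZ_deriv_map]) (by
      rw [hGd]
      obtain ⟨W, hW⟩ := (hV.map γ).exists_right_inv
      have h1 : γ (Ψ f) = PowerSeries.X ^ m *
          PowerSeries.map (constantCoeff (σ := Fin (d + 1)) (R := Λ)) U₁ := by
        rw [hγ, hωf, map_mul]
        congr 1
        rw [← hd₁]
        exact CZ_distinguished F₁ hF₁.isDistinguishedAt
      have h2 : γ (G : PowerSeries (PowerSeries (MvPowerSeries (Fin d) Λ))) =
          PowerSeries.X ^ m *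
          (PowerSeries.map (constantCoeff (σ := Fin (d + 1)) (R := Λ)) U₁ * W) := by
        rw [← mul_assoc, ← h1, hΨf, map_mul, mul_assoc, hW, mul_one]
      rw [h2]
      have h3 := PowerSeries.coeff_X_pow_mul
        (PowerSeries.map (constantCoeff (σ := Fin (d + 1)) (R := Λ)) U₁ * W) m 0
      rw [zero_add] at h3
      rw [h3]
      have h4 : IsUnit (PowerSeries.map (constantCoeff (σ := Fin (d + 1)) (R := Λ)) U₁ * W) :=
        (hF₁.isUnit.map _).mul (IsUnit.of_mul_eq_one _ (by rw [mul_comm]; exact hW))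
      rw [PowerSeries.isUnit_iff_constantCoeff] at h4
      rw [PowerSeries.coeff_zero_eq_constantCoeff_apply]
      exact h4.ne_zero)
  -- the ideal generated by f and its derivative
  set J : Ideal (PowerSeries (PowerSeries (MvPowerSeries (Fin d) Λ))) :=
    Ideal.span {Ψ f, Ψ (σ₁.symm (PowerSeries.derivative _ (σ₁ f)))} with hJ
  obtain ⟨W, hW⟩ := hV.exists_right_inv
  have hfJ : Ψ f ∈ J := Ideal.subset_span (Set.mem_insert _ _)
  have hδf : CZ_delta ω (Ψ f) = Ψ (σ₁.symm (PowerSeries.derivative _ (σ₁ f))) := by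
    have h1 : ω (Ψ f) = σ₁ f := by
      show σ₁ (Ψ.symm (Ψ f)) = _
      rw [AlgEquiv.symm_apply_apply]
    rw [CZ_delta_apply, h1]
    rfl
  have hδfJ : CZ_delta ω (Ψ f) ∈ J := by
    rw [hδf]
    exact Ideal.subset_span (Set.mem_insert_of_mem _ rfl)
  have hGJ : (G : PowerSeries (PowerSeries (MvPowerSeries (Fin d) Λ))) ∈ J := by
    have h1 : (G : PowerSeries (PowerSeries (MvPowerSeries (Fin d) Λ))) = Ψ f * W := by
      rw [hΨf, mul_assoc, hW, mul_one]
    rw [h1]
    exact Ideal.mul_mem_right _ _ hfJ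
  have hδGJ : CZ_delta ω (G : PowerSeries (PowerSeries (MvPowerSeries (Fin d) Λ))) ∈ J := by
    have h1 : V * CZ_delta ω (G : PowerSeries (PowerSeries (MvPowerSeries (Fin d) Λ))) =
        CZ_delta ω (Ψ f) - (G : PowerSeries (PowerSeries (MvPowerSeries (Fin d) Λ))) *
          CZ_delta ω V := by
      rw [hΨf, Derivation.leibniz, smul_eq_mul, smul_eq_mul]
      ring
    have h2 : V * CZ_delta ω (G : PowerSeries (PowerSeries (MvPowerSeries (Fin d) Λ))) ∈ J := by
      rw [h1]
      exact Ideal.sub_mem _ hδfJ (Ideal.mul_mem_right _ _ hGJ)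
    exact (Ideal.unit_mul_mem_iff_mem _ hV).1 h2
  have hCX : PowerSeries.C PowerSeries.X ∈ J.radical := by
    refine Ideal.radical_mono ?_ hpol
    rw [Ideal.span_le]
    rintro _ (rfl | rfl)
    · exact hGJ
    · exact hδGJ
  have hX : PowerSeries.X ∈ J.radical := by
    have h1 : (G : PowerSeries (PowerSeries (MvPowerSeries (Fin d) Λ))) =
        PowerSeries.X ^ m + ∑ i ∈ Finset.range m, PowerSeries.C (G.coeff i) *
          PowerSeries.X ^ i := by
      have h2 := congrArg (Polynomial.coeToPowerSeries.ringHom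
        (R := PowerSeries (MvPowerSeries (Fin d) Λ))) hGm.as_sum
      rw [hGd, map_add, map_pow, map_sum] at h2
      simp only [map_mul, map_pow, Polynomial.coeToPowerSeries.ringHom_apply, Polynomial.coe_X,
        Polynomial.coe_C] at h2
      exact h2
    have h2 : (∑ i ∈ Finset.range m, PowerSeries.C (G.coeff i) * PowerSeries.X ^ i :
        PowerSeries (PowerSeries (MvPowerSeries (Fin d) Λ))) ∈ J.radical := by
      refine Ideal.sum_mem _ fun i hi => Ideal.mul_mem_right _ _ ?_
      have hi' : i < m := Finset.mem_range.1 hi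
      obtain ⟨a, ha⟩ := hGco (m - i) (by omega)
      rw [hGd, show m - (m - i) = i by omega] at ha
      obtain ⟨k, hk⟩ : ∃ k, m - i = k + 1 := ⟨m - i - 1, by omega⟩
      rw [ha, hk, pow_succ, map_mul, map_mul]
      exact Ideal.mul_mem_right _ _ (Ideal.mul_mem_left _ _ hCX)
    have h3 : (PowerSeries.X : PowerSeries (PowerSeries (MvPowerSeries (Fin d) Λ))) ^ m ∈
        J.radical := by
      have h4 := Ideal.sub_mem _ (Ideal.le_radical hGJ) h2
      rwa [h1, add_sub_cancel_right] at h4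
    exact J.radical_isRadical ⟨m, h3⟩
  refine ⟨Ψ, ?_, hCX, hX⟩
  rw [hΨf]
  refine Ideal.mul_mem_right _ _ ?_
  have h1 := coe_mem_pow_of_taylor G 0
    (Ideal.span {(PowerSeries.X : PowerSeries (MvPowerSeries (Fin d) Λ))})
    (Ideal.span {PowerSeries.C (PowerSeries.X : PowerSeries (MvPowerSeries (Fin d) Λ)),
      PowerSeries.X}) (by
      rw [Ideal.map_span, Ideal.span_le]
      rintro _ ⟨_, rfl, rfl⟩
      exact Ideal.subset_span (Set.mem_insert _ _)) (by
      rw [map_zero, sub_zero]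
      exact Ideal.subset_span (Set.mem_insert_of_mem _ rfl)) (by
      intro j hj
      rw [Polynomial.taylor_zero, Ideal.span_singleton_pow, Ideal.mem_span_singleton]
      exact hGco j hj)
  rw [hGd] at h1
  exact h1

theorem cz {n : ℕ} {Λ : Type} [Field Λ] [IsAlgClosed Λ] [CharZero Λ]
    (f : MvPowerSeries (Fin (n + 1)) Λ) (m : ℕ) (hm : 2 ≤ m)
    (hf : f ∈ IsLocalRing.maximalIdeal (MvPowerSeries (Fin (n + 1)) Λ) ^ m)
    (σ₁ σ₂ : MvPowerSeries (Fin (n + 1)) Λ ≃ₐ[Λ] PowerSeries (MvPowerSeries (Fin n) Λ))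
    (F₁ F₂ : Polynomial (MvPowerSeries (Fin n) Λ)) (U₁ U₂ : PowerSeries (MvPowerSeries (Fin n) Λ))
    (hF₁ : (σ₁ f).IsWeierstrassFactorization F₁ U₁)
    (hF₂ : (σ₂ f).IsWeierstrassFactorization F₂ U₂)
    (hd₁ : F₁.natDegree = m) (hd₂ : F₂.natDegree = m)
    (ξ : MvPowerSeries (Fin n) Λ)
    (hξ : ξ ∈ IsLocalRing.maximalIdeal (MvPowerSeries (Fin n) Λ))
    (hξ' : ξ ∉ IsLocalRing.maximalIdeal (MvPowerSeries (Fin n) Λ) ^ 2)
    (hD : ∃ N, F₂.discr ∣ ξ ^ N) :
    ∃ ξ' ∈ IsLocalRing.maximalIdeal (MvPowerSeries (Fin n) Λ),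
      ξ' ∉ IsLocalRing.maximalIdeal (MvPowerSeries (Fin n) Λ) ^ 2 ∧ ∃ N, F₁.discr ∣ ξ' ^ N := by
  cases n with
  | zero =>
    exfalso
    apply hξ'
    rw [mem_maximalIdeal_pow_iff]
    intro α _
    have h1 : α = 0 := Subsingleton.elim _ _
    rw [mem_maximalIdeal_iff_constantCoeff] at hξ
    rw [h1]
    exact hξ
  | succ d =>
    obtain ⟨Ψ, h1, h2, h3⟩ := CZ_core1 f m hm hf σ₁ σ₂ F₁ F₂ U₁ U₂ hF₁ hF₂ hd₁ hd₂ ξ hξ hξ' hD
    exact CZ_core2 f m (by omega) σ₁ F₁ U₁ hF₁ hd₁ Ψ h1 h2 h3

end Pool.Agent.Helper38.EQ
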