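import Pool.Agent.Helper38.EQ.AtPoint
import Pool.Agent.Helper38.EQ.Amalgam
import Pool.Agent.Helper38.EQ.CZ
import Pool.Agent.Helper38.EQ.AlgMain

/-! Comparison of the discriminants at two points with the same algebraic closure. -/

namespace Pool.Agent.Helper38.EQ

open MvPowerSeries

theorem pderiv_ext {n : ℕ} {K L : Type} [Field K] [Field L] [Algebra K L] (i : Fin n)
    (h : MvPowerSeries (Fin n) K) : pderiv L i (ext K L h) = ext K L (pderiv K i h) := by
  ext α
  rw [coeff_pderiv, coeff_ext, coeff_ext, coeff_pderiv]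
  simp

theorem iterD_ext {n : ℕ} {K L : Type} [Field K] [Field L] [Algebra K L] (l : List (Fin n))
    (h : MvPowerSeries (Fin n) K) : iterD l (ext K L h) = ext K L (iterD l h) := by
  induction l with
  | nil => rfl
  | cons i l ih =>
    show pderiv L i (iterD l (ext K L h)) = ext K L (pderiv K i (iterD l h))
    rw [ih, pderiv_ext]

theorem iterD_extAt {n : ℕ} {K L : Type} [Field K] [Field L] [Algebra K L] (Q : Fin n → K)
    (l : List (Fin n)) (f : MvPolynomial (Fin n) K) :
    iterD l (extAt L Q f) = extAt L Q (polyD l f) := by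
  show iterD l (ext K L (taylorAt Q f)) = ext K L (taylorAt Q (polyD l f))
  rw [iterD_ext, taylorAt_polyD]

theorem map_iterD {n : ℕ} {L Λ : Type} [Field L] [Field Λ]
    (E : MvPowerSeries (Fin n) L →+* MvPowerSeries (Fin n) Λ)
    (hE' : ∀ i h, E (pderiv L i h) = pderiv Λ i (E h)) (l : List (Fin n))
    (h : MvPowerSeries (Fin n) L) : iterD l (E h) = E (iterD l h) := by
  induction l with
  | nil => rfl
  | cons i l ih =>
    show pderiv Λ i (iterD l (E h)) = E (pderiv L i (iterD l h))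
    rw [ih, hE']

theorem discr_X_pow {Λ : Type} [Field Λ] (m : ℕ) (hm : 2 ≤ m) :
    (Polynomial.X ^ m : Polynomial Λ).discr = 0 := by
  have h1 : (Polynomial.X ^ m : Polynomial Λ).Monic := Polynomial.monic_X_pow m
  have hnd : (Polynomial.X ^ m : Polynomial Λ).natDegree = m := Polynomial.natDegree_X_pow m
  rw [discr_resultant _ h1 (by rw [hnd]; omega)]
  have h2 := Polynomial.resultant_eq_prod_eval (Polynomial.X ^ m : Polynomial Λ)
    (Polynomial.X ^ m : Polynomial Λ).derivative (m - 1)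
    (by
      have := Polynomial.natDegree_derivative_le (Polynomial.X ^ m : Polynomial Λ)
      rwa [hnd] at this)
    (Polynomial.Splits.X_pow m)
  rw [hnd] at h2 ⊢
  rw [h2]
  have h3 : (0 : Λ) ∈ (Multiset.map (fun x => Polynomial.eval x
      (Polynomial.X ^ m : Polynomial Λ).derivative) (Polynomial.X ^ m : Polynomial Λ).roots) := by
    rw [Multiset.mem_map]
    refine ⟨0, ?_, ?_⟩
    · rw [Polynomial.mem_roots h1.ne_zero]
      simp [Polynomial.IsRoot]; omega
    · rw [Polynomial.derivative_X_pow]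
      simp; right; omega
  rw [Multiset.prod_eq_zero h3]
  simp

theorem discr_mem_of_distinguished {n : ℕ} {Λ : Type} [Field Λ]
    (F : Polynomial (MvPowerSeries (Fin n) Λ))
    (hF : F.IsDistinguishedAt (IsLocalRing.maximalIdeal (MvPowerSeries (Fin n) Λ)))
    (hd : 2 ≤ F.natDegree) :
    F.discr ∈ IsLocalRing.maximalIdeal (MvPowerSeries (Fin n) Λ) := by
  rw [mem_maximalIdeal_iff_constantCoeff, ← discr_map (constantCoeff (σ := Fin n) (R := Λ)) F
    hF.monic (by omega)]
  have h1 : F.map (constantCoeff (σ := Fin n) (R := Λ)) = Polynomial.X ^ F.natDegree := by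
    ext i
    rw [Polynomial.coeff_map, Polynomial.coeff_X_pow]
    rcases lt_trichotomy i F.natDegree with h | h | h
    · rw [if_neg h.ne]
      exact (mem_maximalIdeal_iff_constantCoeff _).mp (hF.mem h)
    · rw [if_pos h, h, hF.monic.coeff_natDegree, map_one]
    · rw [if_neg h.ne', Polynomial.coeff_eq_zero_of_natDegree_lt h, map_zero]
  rw [h1]
  exact discr_X_pow _ hd

theorem constantCoeff_pderiv {n : ℕ} {Λ : Type} [Field Λ] (i : Fin n)
    (h : MvPowerSeries (Fin n) Λ) :
    constantCoeff (pderiv Λ i h) = coeff (Finsupp.single i 1) h := by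
  rw [← coeff_zero_eq_constantCoeff_apply, coeff_pderiv]
  simp

theorem am {n : ℕ} {K : Type} [Field K] [CharZero K] (f : MvPolynomial (Fin (n + 1)) K)
    (m : ℕ) (hm : 2 ≤ m) (Q R : Fin (n + 1) → K) {L M : Type} [Field L] [Field M]
    [Algebra K L] [Algebra K M]
    (σ : MvPowerSeries (Fin (n + 1)) L ≃ₐ[L] PowerSeries (MvPowerSeries (Fin n) L))
    (F : Polynomial (MvPowerSeries (Fin n) L)) (U : PowerSeries (MvPowerSeries (Fin n) L))
    (hF : (σ (extAt L Q f)).IsWeierstrassFactorization F U) (hd : F.natDegree = m)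
    (q : Ideal (MvPowerSeries (Fin (n + 1)) L)) [q.IsPrime]
    (hq : multIdeal (extAt L Q f) m ≤ q)
    (σ' : MvPowerSeries (Fin (n + 1)) M ≃ₐ[M] PowerSeries (MvPowerSeries (Fin n) M))
    (F' : Polynomial (MvPowerSeries (Fin n) M)) (U' : PowerSeries (MvPowerSeries (Fin n) M))
    (hF' : (σ' (extAt M R f)).IsWeierstrassFactorization F' U') (hd' : F'.natDegree = m)
    (r : Ideal (MvPowerSeries (Fin (n + 1)) M)) [r.IsPrime]
    (hr : multIdeal (extAt M R f) m ≤ r)
    (hcontr : q.comap (extAt L Q) = r.comap (extAt M R))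
    (g' : MvPowerSeries (Fin n) M) (N' : ℕ) (hg' : F'.discr ∣ g' ^ N')
    (hsd : ¬ singIdeal g' ≤ (r.map σ').comap (PowerSeries.C (R := MvPowerSeries (Fin n) M))) :
    ∃ (Λ : Type) (_ : Field Λ) (_ : CharZero Λ)
      (Ey : MvPowerSeries (Fin n) L →+* MvPowerSeries (Fin n) Λ),
      (∀ i h, Ey (pderiv L i h) = pderiv Λ i (Ey h)) ∧
      (∀ h, constantCoeff (Ey h) = 0 ↔
        h ∈ (q.map σ).comap (PowerSeries.C (R := MvPowerSeries (Fin n) L))) ∧
      ∃ ξ ∈ IsLocalRing.maximalIdeal (MvPowerSeries (Fin n) Λ),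
        ξ ∉ IsLocalRing.maximalIdeal (MvPowerSeries (Fin n) Λ) ^ 2 ∧
        ∃ N, Ey F.discr ∣ ξ ^ N := by
  obtain ⟨Λ, iF, iC, e₁, e₂, hk₁, hk₂, hcomp⟩ :=
    exists_common_field q r (extAt L Q) (extAt M R) hcontr
  have hL0 : CharZero L := charZero_of_injective_algebraMap (algebraMap K L).injective
  have hM0 : CharZero M := charZero_of_injective_algebraMap (algebraMap K M).injective
  have hΛ0 : CharZero Λ :=
    charZero_of_injective_ringHom (f := e₁.comp (C (σ := Fin (n + 1)) (R := L)))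
      (RingHom.injective _)
  obtain ⟨E₁, hE₁, hE₁'⟩ := exists_taylor e₁
  obtain ⟨E₂, hE₂, hE₂'⟩ := exists_taylor e₂
  have hEE : E₁ (extAt L Q f) = E₂ (extAt M R f) := by
    apply eq_of_iterD
    intro l
    rw [map_iterD E₁ hE₁', map_iterD E₂ hE₂', hE₁, hE₂, iterD_extAt, iterD_extAt]
    exact congrArg (fun φ : MvPolynomial (Fin (n + 1)) K →+* Λ => φ (polyD l f)) hcomp
  have hm1 : ∀ h ∈ multIdeal (extAt L Q f) m, e₁ h = 0 := fun h hh => by
    have := hq hh
    rw [← hk₁] at this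
    exact this
  have hm2 : ∀ h ∈ multIdeal (extAt M R f) m, e₂ h = 0 := fun h hh => by
    have := hr hh
    rw [← hk₂] at this
    exact this
  obtain ⟨hmem, σP, Ey, FP, UP, hEy, hEy', hFP, hdP, hdisc⟩ :=
    at_point e₁ E₁ hE₁ hE₁' (extAt L Q f) m (by omega) hm1 σ F U hF hd
  obtain ⟨hmem', σP', Ey', FP', UP', hEy₂, hEy₂', hFP', hdP', hdisc'⟩ :=
    at_point e₂ E₂ hE₂ hE₂' (extAt M R f) m (by omega) hm2 σ' F' U' hF' hd'
  have hker : ∀ h, constantCoeff (Ey h) = 0 ↔
      h ∈ (q.map σ).comap (PowerSeries.C (R := MvPowerSeries (Fin n) L)) := by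
    intro h
    rw [hEy, Ideal.mem_comap]
    constructor
    · intro h1
      have h2 : σ.symm (PowerSeries.C h) ∈ q := by
        rw [← hk₁]; exact h1
      have h3 := Ideal.mem_map_of_mem σ h2
      simpa using h3
    · intro h1
      have h2 : σ (σ.symm (PowerSeries.C h)) ∈ q.map σ := by simpa using h1
      rw [mem_map_algEquiv, ← hk₁] at h2
      exact h2
  have hker' : ∀ h, constantCoeff (Ey' h) = 0 ↔
      h ∈ (r.map σ').comap (PowerSeries.C (R := MvPowerSeries (Fin n) M)) := by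
    intro h
    rw [hEy₂, Ideal.mem_comap]
    constructor
    · intro h1
      have h2 : σ'.symm (PowerSeries.C h) ∈ r := by
        rw [← hk₂]; exact h1
      have h3 := Ideal.mem_map_of_mem σ' h2
      simpa using h3
    · intro h1
      have h2 : σ' (σ'.symm (PowerSeries.C h)) ∈ r.map σ' := by simpa using h1
      rw [mem_map_algEquiv, ← hk₂] at h2
      exact h2
  -- the discriminant of the second system is a power of a smooth germ
  have hdvd : FP'.discr ∣ (Ey' g') ^ N' := by
    rw [hdisc', ← map_pow]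
    exact map_dvd _ hg'
  have hξ0 : constantCoeff (Ey' g') = 0 := by
    have h1 := discr_mem_of_distinguished FP' hFP'.isDistinguishedAt (by omega)
    rw [mem_maximalIdeal_iff_constantCoeff] at h1
    obtain ⟨c, hc⟩ := hdvd
    have h2 := congrArg (constantCoeff (σ := Fin n) (R := Λ)) hc
    rw [map_mul, h1, zero_mul, map_pow] at h2
    exact eq_zero_of_pow_eq_zero h2
  have hξ2 : Ey' g' ∉ IsLocalRing.maximalIdeal (MvPowerSeries (Fin n) Λ) ^ 2 := by
    intro hcon
    apply hsd
    rw [singIdeal, Ideal.span_le]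
    rintro h (rfl | ⟨i, rfl⟩)
    · exact (hker' _).mp hξ0
    · refine (hker' _).mp ?_
      rw [hEy₂', constantCoeff_pderiv]
      exact (mem_maximalIdeal_pow_iff 2 _).mp hcon _ (by simp)
  rw [← hEE] at hFP'
  obtain ⟨ξ, hξ, hξ', N, hN⟩ := cz (E₁ (extAt L Q f)) m hm hmem σP σP' FP FP' UP UP' hFP hFP'
    hdP hdP' (Ey' g') ((mem_maximalIdeal_iff_constantCoeff _).mpr hξ0) hξ2 ⟨N', hdvd⟩
  refine ⟨Λ, iF, hΛ0, Ey, hEy', hker, ξ, hξ, hξ', N, ?_⟩
  rw [← hdisc]
  exact hN

end Pool.Agent.Helper38.EQ
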