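import Pool.Agent.Helper38.EQ.Orders

/-!
# EQ-P11

`U` is a unit, so `(finSuccEquiv K n).symm F ∈ maximalIdeal ^ m` with `m = F.natDegree`.  By
`coeff_coeff_finSuccEquiv` the coefficient of `F.coeff (m-j)` at `x` is the coefficient of
`(finSuccEquiv K n).symm F` at `Finsupp.cons (m-j) x`, of total degree `m - j + |x|`; it vanishes
when `|x| < j` (`mem_maximalIdeal_pow_iff`).
-/

namespace Pool.Agent.Helper38.EQ

open MvPowerSeries

theorem coeff_mem_pow {n : ℕ} {K : Type} [Field K]
    (F : Polynomial (MvPowerSeries (Fin n) K))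
    (U : PowerSeries (MvPowerSeries (Fin n) K)) (hU : IsUnit U)
    (hm : (finSuccEquiv K n).symm (F * U) ∈
      IsLocalRing.maximalIdeal (MvPowerSeries (Fin (n + 1)) K) ^ F.natDegree) :
    ∀ j ≤ F.natDegree, F.coeff (F.natDegree - j) ∈
      IsLocalRing.maximalIdeal (MvPowerSeries (Fin n) K) ^ j := by
  intro j hj
  obtain ⟨V, hV⟩ := hU.exists_right_inv
  have hF : (finSuccEquiv K n).symm (F : PowerSeries (MvPowerSeries (Fin n) K)) ∈
      IsLocalRing.maximalIdeal (MvPowerSeries (Fin (n + 1)) K) ^ F.natDegree := by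
    have h1 : (F : PowerSeries (MvPowerSeries (Fin n) K)) = F * U * V := by
      rw [mul_assoc, hV, mul_one]
    rw [h1, map_mul]
    exact Ideal.mul_mem_right _ _ hm
  rw [mem_maximalIdeal_pow_iff] at hF ⊢
  intro x hx
  have h2 := hF (x.cons (F.natDegree - j)) (by
    rw [Fin.sum_univ_succ]
    simp only [Finsupp.cons_zero, Finsupp.cons_succ]
    omega)
  rw [← coeff_coeff_finSuccEquiv] at h2
  simpa using h2

end Pool.Agent.Helper38.EQ
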