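import Pool.Agent.Helper38.EQ.ExpandSystem
import Pool.Agent.Helper38.EQ.KeySmooth
import Pool.Agent.Helper38.EQ.WeiOrder

/-!
# EQ-Z3c (expansion of the data of a projection at a point of multiplicity m)

`E (iterD l f) = iterD l (E f)` by `hE'`, so `hmult` and `mem_pow_of_iterD` give
`E f ∈ maximalIdeal^m`.  Take `σP, Ey, z₀` from `exists_system`, `F_P = taylor (C z₀) (F.map Ey)`,
`U_P = σP (E (σ.symm U))` (a unit).  `σP (E f) = F_P * U_P` since `f = σ.symm (F * U)`.
`F_P` is monic of degree `m`; `coeff_mem_pow` (with `algEquiv_mem_maximalIdeal_pow`) gives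
`F_P.coeff (m - j) ∈ maximalIdeal^j`, so `F_P` is distinguished.  The discriminant:
`discr_taylor`, `discr_map` (`m ≥ 1`).
-/

namespace Pool.Agent.Helper38.EQ

open MvPowerSeries

private theorem AtPoint_iterD {N : ℕ} {L Λ : Type} [Field L] [Field Λ]
    (E : MvPowerSeries (Fin N) L →+* MvPowerSeries (Fin N) Λ)
    (hE' : ∀ i h, E (pderiv L i h) = pderiv Λ i (E h)) (l : List (Fin N))
    (f : MvPowerSeries (Fin N) L) : iterD l (E f) = E (iterD l f) := by
  induction l with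
  | nil => rfl
  | cons i l ih =>
    show pderiv Λ i (iterD l (E f)) = E (pderiv L i (iterD l f))
    rw [ih, hE']

theorem at_point {n : ℕ} {L Λ : Type} [Field L] [Field Λ] [CharZero L] [CharZero Λ]
    (ev : MvPowerSeries (Fin (n + 1)) L →+* Λ)
    (E : MvPowerSeries (Fin (n + 1)) L →+* MvPowerSeries (Fin (n + 1)) Λ)
    (hE : ∀ h, constantCoeff (E h) = ev h)
    (hE' : ∀ i h, E (pderiv L i h) = pderiv Λ i (E h))
    (f : MvPowerSeries (Fin (n + 1)) L) (m : ℕ) (hm : 1 ≤ m)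
    (hmult : ∀ h ∈ multIdeal f m, ev h = 0)
    (σ : MvPowerSeries (Fin (n + 1)) L ≃ₐ[L] PowerSeries (MvPowerSeries (Fin n) L))
    (F : Polynomial (MvPowerSeries (Fin n) L)) (U : PowerSeries (MvPowerSeries (Fin n) L))
    (hF : (σ f).IsWeierstrassFactorization F U) (hd : F.natDegree = m) :
    E f ∈ IsLocalRing.maximalIdeal (MvPowerSeries (Fin (n + 1)) Λ) ^ m ∧
    ∃ (σP : MvPowerSeries (Fin (n + 1)) Λ ≃ₐ[Λ] PowerSeries (MvPowerSeries (Fin n) Λ))
      (Ey : MvPowerSeries (Fin n) L →+* MvPowerSeries (Fin n) Λ)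
      (FP : Polynomial (MvPowerSeries (Fin n) Λ)) (UP : PowerSeries (MvPowerSeries (Fin n) Λ)),
      (∀ h, constantCoeff (Ey h) = ev (σ.symm (PowerSeries.C h))) ∧
      (∀ i h, Ey (pderiv L i h) = pderiv Λ i (Ey h)) ∧
      (σP (E f)).IsWeierstrassFactorization FP UP ∧ FP.natDegree = m ∧
      FP.discr = Ey F.discr := by
  have hEf : E f ∈ IsLocalRing.maximalIdeal (MvPowerSeries (Fin (n + 1)) Λ) ^ m := by
    refine mem_pow_of_iterD _ _ fun l hl => ?_
    rw [AtPoint_iterD E hE', hE]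
    exact hmult _ (Ideal.subset_span ⟨l, hl, rfl⟩)
  refine ⟨hEf, ?_⟩
  obtain ⟨σP, Ey, z₀, h1, h2, h3⟩ := exists_system ev E hE hE' σ
  set FP : Polynomial (MvPowerSeries (Fin n) Λ) := Polynomial.taylor (C z₀) (F.map Ey) with hFP
  set UP : PowerSeries (MvPowerSeries (Fin n) Λ) := σP (E (σ.symm U)) with hUP
  have hFm : F.Monic := hF.isDistinguishedAt.monic
  have hmap : (F.map Ey).Monic := hFm.map Ey
  have hmapd : (F.map Ey).natDegree = m := by rw [hFm.natDegree_map, hd]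
  have hFPm : FP.Monic := by
    rw [hFP, Polynomial.Monic, Polynomial.leadingCoeff_taylor]
    exact hmap
  have hFPd : FP.natDegree = m := by rw [hFP, Polynomial.natDegree_taylor, hmapd]
  have hUPu : IsUnit UP :=
    ((hF.isUnit.map (σ.symm : PowerSeries (MvPowerSeries (Fin n) L) →+*
      MvPowerSeries (Fin (n + 1)) L)).map E).map
      (σP : MvPowerSeries (Fin (n + 1)) Λ →+* PowerSeries (MvPowerSeries (Fin n) Λ))
  have heq : σP (E f) = FP * UP := by
    have h4 : f = σ.symm (F : PowerSeries (MvPowerSeries (Fin n) L)) * σ.symm U := by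
      rw [← map_mul, ← hF.eq_mul, AlgEquiv.symm_apply_apply]
    have h5 : σP (E f) = σP (E (σ.symm (F : PowerSeries (MvPowerSeries (Fin n) L)))) *
        σP (E (σ.symm U)) := by
      rw [← map_mul, ← map_mul, ← h4]
    rw [h5, h3]
  have hco : ∀ j ≤ FP.natDegree, FP.coeff (FP.natDegree - j) ∈
      IsLocalRing.maximalIdeal (MvPowerSeries (Fin n) Λ) ^ j := by
    refine coeff_mem_pow FP UP hUPu ?_
    rw [← heq, hFPd]
    exact (algEquiv_mem_maximalIdeal_pow
      (σP.trans (finSuccEquiv Λ n).symm).toRingEquiv m (E f)).2 hEf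
  refine ⟨σP, Ey, FP, UP, h1, h2, ⟨⟨⟨fun {i} hi => ?_⟩, hFPm⟩, hUPu, heq⟩, hFPd, ?_⟩
  · have h4 := hco (FP.natDegree - i) (by omega)
    have h5 : FP.natDegree - (FP.natDegree - i) = i := by omega
    rw [h5] at h4
    exact Ideal.pow_le_self (by omega) h4
  · rw [hFP, discr_taylor _ hmap (by omega), discr_map Ey F hFm (by omega)]

end Pool.Agent.Helper38.EQ
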