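import Mathlib

/-!
Equisingularity of algebroid hypersurfaces in the sense of Zariski (1971),
by generic linear projections in some basis.
-/

namespace Pool.Agent.Helper38.EQ

open MvPowerSeries

/-- `iterD [i₁,…,iₖ] f` is the iterated derivative `∂_{i₁}⋯∂_{iₖ} f`. -/
noncomputable def iterD {n : ℕ} {K : Type} [Field K] (l : List (Fin n))
    (f : MvPowerSeries (Fin n) K) : MvPowerSeries (Fin n) K :=
  l.foldr (fun i g => pderiv K i g) f

/-- The ideal generated by `f` and its first derivatives: it defines the singular locus of the
(reduced) hypersurface germ `f = 0`. -/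
noncomputable def singIdeal {n : ℕ} {K : Type} [Field K] (f : MvPowerSeries (Fin n) K) :
    Ideal (MvPowerSeries (Fin n) K) :=
  Ideal.span ({f} ∪ Set.range fun i => pderiv K i f)

/-- The ideal generated by all derivatives of `f` of order `< μ`: in characteristic zero it
defines the locus of the points of multiplicity `≥ μ` of the hypersurface germ `f = 0`. -/
noncomputable def multIdeal {n : ℕ} {K : Type} [Field K] (f : MvPowerSeries (Fin n) K) (μ : ℕ) :
    Ideal (MvPowerSeries (Fin n) K) :=
  Ideal.span {g | ∃ l : List (Fin n), l.length < μ ∧ g = iterD l f}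

/-- The algebraic closure of `K(u)`, where `u = (u_{ij})` is an `n × (n+1)` matrix of
indeterminates over `K`. -/
abbrev GenField (n : ℕ) (K : Type) [Field K] : Type :=
  AlgebraicClosure (FractionRing (MvPolynomial (Fin n × Fin (n + 1)) K))

/-- The indeterminate `u_{ij}`, in the algebraic closure of `K(u)`. -/
noncomputable def genU {n : ℕ} {K : Type} [Field K] (i : Fin n) (j : Fin (n + 1)) :
    GenField n K :=
  algebraMap (FractionRing (MvPolynomial (Fin n × Fin (n + 1)) K)) (GenField n K)
    (algebraMap (MvPolynomial (Fin n × Fin (n + 1)) K) _ (MvPolynomial.X (i, j)))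

/-- Extension of the field of coefficients of formal power series. -/
noncomputable abbrev ext {n : ℕ} (K L : Type) [Field K] [Field L] [Algebra K L] :
    MvPowerSeries (Fin n) K →+* MvPowerSeries (Fin n) L :=
  MvPowerSeries.map (algebraMap K L)

/-- A class of admissible bases: for every germ `f` over every field, a set of
`n`-tuples `x` of power series. -/
abbrev BasisClass : Type 1 :=
  ∀ (n : ℕ) (K : Type) [Field K], MvPowerSeries (Fin n) K →
    (Fin n → MvPowerSeries (Fin n) K) → Prop

/-- Zariski equisingularity of the hypersurface germ `V : f = 0` at the origin `Q` along the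
subvariety `M` with (radical) ideal `I`, by a recursion that runs through `k` critical varieties.

* `simple`: `M` is not contained in the singular locus of `V`, and `Q` is a simple point of `V`.
* `step`: `M` is contained in the singular locus; `x` is a basis (a system of `n + 1` generators of
  the maximal ideal, in the admissible class `B`), `x_i^u = ∑ u_{ij} x_j` (`i < n`) are the local
  parameters of the generic projection, over the algebraic closure of `K(u)`; `σ` is a system of
  coordinates `(y, z)` with `y_i = x_i^u`; `f` is a unit times the Weierstrass polynomial `F` in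
  `z`; the critical variety `Δ : g = 0` is the (reduced) zero locus of the discriminant of `F`; and
  `Δ` is equisingular at the image of `Q` along the image of `M`. -/
inductive EqLen (B : BasisClass) :
    ℕ → ∀ (n : ℕ) (K : Type) [Field K], MvPowerSeries (Fin n) K →
      Ideal (MvPowerSeries (Fin n) K) → Prop
  | simple (n : ℕ) (K : Type) [Field K] (f : MvPowerSeries (Fin n) K)
      (I : Ideal (MvPowerSeries (Fin n) K))
      (hI : ¬ singIdeal f ≤ I)
      (h1 : f ∈ IsLocalRing.maximalIdeal (MvPowerSeries (Fin n) K))
      (h2 : f ∉ IsLocalRing.maximalIdeal (MvPowerSeries (Fin n) K) ^ 2) :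
      EqLen B 0 n K f I
  | step (k : ℕ) (n : ℕ) (K : Type) [Field K] (f : MvPowerSeries (Fin (n + 1)) K)
      (I : Ideal (MvPowerSeries (Fin (n + 1)) K))
      (hI : singIdeal f ≤ I)
      (x : Fin (n + 1) → MvPowerSeries (Fin (n + 1)) K)
      (hx : Ideal.span (Set.range x) =
        IsLocalRing.maximalIdeal (MvPowerSeries (Fin (n + 1)) K))
      (hB : B (n + 1) K f x)
      (σ : MvPowerSeries (Fin (n + 1)) (GenField n K) ≃ₐ[GenField n K]
        PowerSeries (MvPowerSeries (Fin n) (GenField n K)))
      (hσ : ∀ i : Fin n, σ (∑ j, C (genU i j) * ext K (GenField n K) (x j)) =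
        PowerSeries.C (X i))
      (F : Polynomial (MvPowerSeries (Fin n) (GenField n K)))
      (U : PowerSeries (MvPowerSeries (Fin n) (GenField n K)))
      (hF : (σ (ext K (GenField n K) f)).IsWeierstrassFactorization F U)
      (g : MvPowerSeries (Fin n) (GenField n K))
      (hg : Ideal.span {g} = (Ideal.span {F.discr}).radical)
      (h : EqLen B k n (GenField n K) g
        (Ideal.comap (PowerSeries.C (R := MvPowerSeries (Fin n) (GenField n K)))
          (Ideal.map σ (Ideal.map (ext K (GenField n K)) I).radical))) :
      EqLen B (k + 1) (n + 1) K f I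

/-- Zariski equisingularity. -/
def Equisingular (B : BasisClass) (n : ℕ) (K : Type) [Field K] (f : MvPowerSeries (Fin n) K)
    (I : Ideal (MvPowerSeries (Fin n) K)) : Prop := ∃ k, EqLen B k n K f I

end Pool.Agent.Helper38.EQ
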