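import Pool.Agent.Helper38.EQ.Taylor

/-!
# EQ-Z3b (systems of coordinates at a point with values in a field)

`exists_system`: let `e = finSuccEquiv L n` and `s = σ.trans e.symm`, `ev' = ev ∘ s⁻¹`,
`E'` the Taylor expansion for `ev'`.  Put `y_i = E' (s (X i)) - C (ev (X i))`: constant coefficient
`0`, and the linear coefficient at `j` is `ev' (∂_j (s (X i)))`, so the determinant of the linear part
is `ev'` of the Jacobian determinant of `s`, a unit of `L⟦X⟧` (it is a unit because its constant
coefficient is the determinant of the linear part of `s`, `linear_of_span_eq`).  Let `s_P` be the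
automorphism of `Λ⟦X⟧` with `s_P (X i) = y_i`.  Then `s_P ∘ E = E' ∘ s`: let
`Δ h = s_P (E h) - E' (s h)`.  Its constant coefficient is `ev h - ev' (s h) = 0`.  Write
`∂_i ∘ s = s ∘ ∑_j d_ij ∂_j` (`derivation_apply` for the derivation `s⁻¹ ∂_i s`,
`d_ij = s⁻¹ (∂_i (s (X j)))`), similarly `∂_i ∘ s_P = s_P ∘ ∑_j c_ij ∂_j`; since `Δ (X j) = 0`,
`s_P (c_ij) = ∂_i (s_P (X j)) = ∂_i (E' (s (X j))) = E' (s (d_ij))`; so
`∂_i (Δ h) = ∑_j E' (s (d_ij)) Δ (∂_j h)`, and the induction above gives `Δ = 0`.
Finally `e ∘ E' ∘ e⁻¹` restricted to constants `C h`, `h ∈ L⟦y⟧`, is `C (E_y h)` with `E_y` the Taylor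
expansion for `h ↦ ev' (e⁻¹ (C h))` (`taylor_unique`-type argument), and it maps `X` to
`X + C (C z₀)`, `z₀ = ev' (X 0)`.  `σ_P = s_P.trans (finSuccEquiv Λ n)`.
-/

namespace Pool.Agent.Helper38.EQ

open MvPowerSeries

/-- uniqueness: a family of series stable under derivatives, up to coefficients, without constant
coefficients is zero -/
private theorem ExpandSystem_zero {N : ℕ} {H Λ : Type} [Field Λ] [CharZero Λ]
    (Δ : H → MvPowerSeries (Fin N) Λ) (D : Fin N → H → H)
    (c : Fin N → Fin N → MvPowerSeries (Fin N) Λ)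
    (h0 : ∀ h, constantCoeff (Δ h) = 0)
    (hd : ∀ i h, pderiv Λ i (Δ h) = ∑ j, c i j * Δ (D j h)) (h : H) : Δ h = 0 := by
  classical
  have key : ∀ e : ℕ, ∀ h, Δ h ∈ IsLocalRing.maximalIdeal (MvPowerSeries (Fin N) Λ) ^ e := by
    intro e
    induction e with
    | zero => intro h; simp
    | succ e ih =>
      intro h
      rw [mem_maximalIdeal_pow_iff]
      intro α hα
      by_cases hα0 : α = 0
      · rw [hα0]
        exact h0 h
      · obtain ⟨i, hi⟩ : ∃ i, α i ≠ 0 := by
          by_contra hcon
          push Not at hcon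
          exact hα0 (Finsupp.ext hcon)
        obtain ⟨β, hβ⟩ : ∃ β : Fin N →₀ ℕ, β + Finsupp.single i 1 = α :=
          ⟨α - Finsupp.single i 1, tsub_add_cancel_of_le (by rw [Finsupp.single_le_iff]; omega)⟩
        have hsum : (∑ j, β j) + 1 = ∑ j, α j := by
          rw [← hβ]
          simp only [Finsupp.add_apply, Finset.sum_add_distrib]
          congr 1
          rw [Finset.sum_eq_single_of_mem i (Finset.mem_univ i)]
          · rw [Finsupp.single_eq_same]
          · intro j _ hj
            exact Finsupp.single_eq_of_ne hj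
        have h1 : coeff β (pderiv Λ i (Δ h)) = 0 := by
          rw [hd]
          exact (mem_maximalIdeal_pow_iff e _).mp
            (Ideal.sum_mem _ fun j _ => Ideal.mul_mem_left _ _ (ih _)) β (by omega)
        rw [coeff_pderiv, hβ] at h1
        rcases mul_eq_zero.mp h1 with h2 | h2
        · exact h2
        · exact absurd h2 (by exact_mod_cast Nat.succ_ne_zero (β i))
  ext d
  rw [map_zero]
  exact (mem_maximalIdeal_pow_iff _ _).mp (key ((∑ i, d i) + 1) h) d (by omega)

/-- the chain rule for an automorphism -/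
private theorem ExpandSystem_chain {N : ℕ} {L : Type} [Field L]
    (s : MvPowerSeries (Fin N) L ≃ₐ[L] MvPowerSeries (Fin N) L) (i : Fin N)
    (h : MvPowerSeries (Fin N) L) :
    pderiv L i (s h) = ∑ j, pderiv L i (s (X j)) * s (pderiv L j h) := by
  let δ₀ : MvPowerSeries (Fin N) L →ₗ[L] MvPowerSeries (Fin N) L :=
    { toFun := fun g => s.symm (pderiv L i (s g))
      map_add' := fun g h => by rw [map_add, map_add, map_add]
      map_smul' := fun c g => by
        rw [map_smul, Derivation.map_smul, map_smul, RingHom.id_apply] }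
  let δ : Derivation L (MvPowerSeries (Fin N) L) (MvPowerSeries (Fin N) L) :=
    Derivation.mk' δ₀ (fun g h => by
      show s.symm (pderiv L i (s (g * h))) =
        g • s.symm (pderiv L i (s h)) + h • s.symm (pderiv L i (s g))
      rw [map_mul, Derivation.leibniz, map_add, smul_eq_mul, smul_eq_mul, map_mul, map_mul,
        AlgEquiv.symm_apply_apply, AlgEquiv.symm_apply_apply, smul_eq_mul, smul_eq_mul])
  have hδ : ∀ g, δ g = s.symm (pderiv L i (s g)) := fun g => rfl
  have h1 := congrArg s (derivation_apply δ h)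
  rw [map_sum] at h1
  simp only [hδ, map_mul, AlgEquiv.apply_symm_apply] at h1
  exact h1

private theorem ExpandSystem_const {N : ℕ} {L : Type} [Field L]
    (s : MvPowerSeries (Fin N) L ≃ₐ[L] MvPowerSeries (Fin N) L) (h : MvPowerSeries (Fin N) L) :
    constantCoeff (s h) = constantCoeff h := by
  have h1 : ¬ IsUnit (h - C (constantCoeff h)) := by
    rw [isUnit_iff_constantCoeff, map_sub, constantCoeff_C, sub_self]
    exact not_isUnit_zero
  have h2 : s (C (constantCoeff h)) = C (constantCoeff h) := s.commutes (constantCoeff h)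
  have h3 : ¬ IsUnit (s h - C (constantCoeff h)) := by
    intro h4
    rw [← h2, ← map_sub] at h4
    apply h1
    have h5 := h4.map s.symm
    rwa [AlgEquiv.symm_apply_apply] at h5
  rw [isUnit_iff_constantCoeff, map_sub, constantCoeff_C, isUnit_iff_ne_zero, not_not] at h3
  exact sub_eq_zero.mp h3

private theorem ExpandSystem_succ {n : ℕ} {L : Type} [Field L] (k : ℕ) (i : Fin n)
    (g : MvPowerSeries (Fin (n + 1)) L) :
    PowerSeries.coeff k (finSuccEquiv L n (pderiv L i.succ g)) =
      pderiv L i (PowerSeries.coeff k (finSuccEquiv L n g)) := by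
  ext x
  rw [coeff_coeff_finSuccEquiv, coeff_pderiv, coeff_pderiv, coeff_coeff_finSuccEquiv]
  have h1 : (x.cons k + Finsupp.single i.succ 1 : Fin (n + 1) →₀ ℕ) =
      (x + Finsupp.single i 1).cons k := by
    ext j
    refine Fin.cases ?_ (fun j => ?_) j
    · rw [Finsupp.add_apply, Finsupp.cons_zero, Finsupp.cons_zero,
        Finsupp.single_eq_of_ne (Fin.succ_ne_zero i).symm, add_zero]
    · rw [Finsupp.add_apply, Finsupp.cons_succ, Finsupp.cons_succ, Finsupp.add_apply]
      congr 1
      by_cases hij : j = i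
      · rw [hij, Finsupp.single_eq_same, Finsupp.single_eq_same]
      · rw [Finsupp.single_eq_of_ne hij,
          Finsupp.single_eq_of_ne (fun h => hij (Fin.succ_injective n h))]
  rw [h1, Finsupp.cons_succ]

private theorem ExpandSystem_z {n : ℕ} {L : Type} [Field L] (k : ℕ)
    (g : MvPowerSeries (Fin (n + 1)) L) (x : Fin n →₀ ℕ) :
    coeff x (PowerSeries.coeff k (finSuccEquiv L n (pderiv L 0 g))) =
      coeff x (PowerSeries.coeff (k + 1) (finSuccEquiv L n g)) * ((k : L) + 1) := by
  rw [coeff_coeff_finSuccEquiv, coeff_pderiv, coeff_coeff_finSuccEquiv]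
  have h1 : (x.cons k + Finsupp.single 0 1 : Fin (n + 1) →₀ ℕ) = x.cons (k + 1) := by
    ext j
    refine Fin.cases ?_ (fun j => ?_) j
    · rw [Finsupp.add_apply, Finsupp.cons_zero, Finsupp.cons_zero, Finsupp.single_eq_same]
    · rw [Finsupp.add_apply, Finsupp.cons_succ, Finsupp.cons_succ,
        Finsupp.single_eq_of_ne (Fin.succ_ne_zero j), add_zero]
  rw [h1, Finsupp.cons_zero]

private theorem ExpandSystem_symm_C {n : ℕ} {L : Type} [Field L] (i : Fin n)
    (h : MvPowerSeries (Fin n) L) :
    (finSuccEquiv L n).symm (PowerSeries.C (pderiv L i h)) =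
      pderiv L i.succ ((finSuccEquiv L n).symm (PowerSeries.C h)) := by
  apply (finSuccEquiv L n).injective
  rw [AlgEquiv.apply_symm_apply]
  ext1 k
  rw [ExpandSystem_succ, AlgEquiv.apply_symm_apply, PowerSeries.coeff_C, PowerSeries.coeff_C]
  split_ifs
  · rfl
  · rw [map_zero]

private theorem ExpandSystem_symm_C_zero {n : ℕ} {L : Type} [Field L]
    (h : MvPowerSeries (Fin n) L) :
    pderiv L 0 ((finSuccEquiv L n).symm (PowerSeries.C h)) = 0 := by
  apply (finSuccEquiv L n).injective
  rw [map_zero]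
  ext k x
  rw [ExpandSystem_z, AlgEquiv.apply_symm_apply, PowerSeries.coeff_C, if_neg (Nat.succ_ne_zero k)]
  simp

/-- EQ-Z3b -/
theorem exists_system {n : ℕ} {L Λ : Type} [Field L] [Field Λ] [CharZero L] [CharZero Λ]
    (ev : MvPowerSeries (Fin (n + 1)) L →+* Λ)
    (E : MvPowerSeries (Fin (n + 1)) L →+* MvPowerSeries (Fin (n + 1)) Λ)
    (hE : ∀ h, constantCoeff (E h) = ev h)
    (hE' : ∀ i h, E (pderiv L i h) = pderiv Λ i (E h))
    (σ : MvPowerSeries (Fin (n + 1)) L ≃ₐ[L] PowerSeries (MvPowerSeries (Fin n) L)) :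
    ∃ (σP : MvPowerSeries (Fin (n + 1)) Λ ≃ₐ[Λ] PowerSeries (MvPowerSeries (Fin n) Λ))
      (Ey : MvPowerSeries (Fin n) L →+* MvPowerSeries (Fin n) Λ) (z₀ : Λ),
      (∀ h, constantCoeff (Ey h) = ev (σ.symm (PowerSeries.C h))) ∧
      (∀ i h, Ey (pderiv L i h) = pderiv Λ i (Ey h)) ∧
      (∀ P : Polynomial (MvPowerSeries (Fin n) L),
        σP (E (σ.symm (P : PowerSeries (MvPowerSeries (Fin n) L)))) =
          (Polynomial.taylor (C z₀) (P.map Ey) : Polynomial (MvPowerSeries (Fin n) Λ))) := by
  classical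
  set e := finSuccEquiv L n with he
  set eΛ := finSuccEquiv Λ n with heΛ
  set s : MvPowerSeries (Fin (n + 1)) L ≃ₐ[L] MvPowerSeries (Fin (n + 1)) L :=
    σ.trans e.symm with hs
  have hσs : ∀ h, σ.symm h = s.symm (e.symm h) := by
    intro h
    rw [hs]
    simp
  obtain ⟨E', hE1, hE2⟩ := exists_taylor (ev.comp (s.symm : MvPowerSeries (Fin (n + 1)) L →+*
    MvPowerSeries (Fin (n + 1)) L))
  have hE1' : ∀ h, constantCoeff (E' h) = ev (s.symm h) := hE1
  -- the new coordinates
  set y : Fin (n + 1) → MvPowerSeries (Fin (n + 1)) Λ :=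
    fun i => E' (s (X i)) - C (ev (X i)) with hy
  have hy0 : ∀ i, constantCoeff (y i) = 0 := by
    intro i
    rw [hy]
    simp only [map_sub, hE1', AlgEquiv.symm_apply_apply, constantCoeff_C, sub_self]
  have hyd : ∀ i j, pderiv Λ j (y i) = E' (pderiv L j (s (X i))) := by
    intro i j
    rw [hy]
    simp only [map_sub, pderiv_C, sub_zero, hE2]
  have hlin : ∀ i j, coeff (Finsupp.single j 1) (y i) = ev (s.symm (pderiv L j (s (X i)))) := by
    intro i j
    rw [← hE1', ← hyd, ← coeff_zero_eq_constantCoeff_apply, coeff_pderiv]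
    simp
  have hdet : (Matrix.of fun i j => coeff (Finsupp.single j 1) (y i)).det ≠ 0 := by
    set J : Matrix (Fin (n + 1)) (Fin (n + 1)) (MvPowerSeries (Fin (n + 1)) L) :=
      Matrix.of fun i j => pderiv L j (s (X i)) with hJ
    set K : Matrix (Fin (n + 1)) (Fin (n + 1)) (MvPowerSeries (Fin (n + 1)) L) :=
      Matrix.of fun i j => s (pderiv L j (s.symm (X i))) with hK
    have hKJ : K * J = 1 := by
      ext1 k i
      rw [Matrix.mul_apply]
      have h1 := ExpandSystem_chain s i (s.symm (X k))
      rw [AlgEquiv.apply_symm_apply] at h1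
      have h2 : ∑ j, K k j * J j i = pderiv L i (X k) := by
        rw [h1]
        refine Finset.sum_congr rfl fun j _ => ?_
        rw [mul_comm]
        rfl
      rw [h2, pderiv_X, Matrix.one_apply]
      by_cases h3 : k = i
      · subst h3
        simp
      · rw [if_neg h3]
        simp [h3]
    have h4 : (K.det * J.det) = 1 := by
      rw [← Matrix.det_mul, hKJ, Matrix.det_one]
    set ev' : MvPowerSeries (Fin (n + 1)) L →+* Λ := ev.comp
      (s.symm : MvPowerSeries (Fin (n + 1)) L →+* MvPowerSeries (Fin (n + 1)) L) with hev'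
    have h5 : (Matrix.of fun i j => coeff (Finsupp.single j 1) (y i)) = ev'.mapMatrix J := by
      ext1 i j
      exact hlin i j
    rw [h5, ← RingHom.map_det]
    intro h6
    have h7 := congrArg ev' h4
    rw [map_mul, h6, mul_zero, map_one] at h7
    exact zero_ne_one h7
  obtain ⟨sP, hsP⟩ := exists_algEquiv y (span_eq_of_linear y hy0 hdet)
  -- compatibility
  have hmain : ∀ h, sP (E h) = E' (s h) := by
    intro h
    refine sub_eq_zero.mp ?_
    refine ExpandSystem_zero (fun h => sP (E h) - E' (s h)) (fun j h => pderiv L j h)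
      (fun i j => E' (pderiv L i (s (X j)))) ?_ ?_ h
    · intro h
      show constantCoeff (sP (E h) - E' (s h)) = 0
      rw [map_sub, ExpandSystem_const, hE, hE1', AlgEquiv.symm_apply_apply, sub_self]
    · intro i h
      show pderiv Λ i (sP (E h) - E' (s h)) =
        ∑ j, E' (pderiv L i (s (X j))) * (sP (E (pderiv L j h)) - E' (s (pderiv L j h)))
      rw [map_sub, ExpandSystem_chain sP i (E h), ← hE2, ExpandSystem_chain s i h, map_sum,
        ← Finset.sum_sub_distrib]
      refine Finset.sum_congr rfl fun j _ => ?_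
      rw [hsP, hyd, map_mul, mul_sub, hE']
  -- the expansion in the coordinates y, z
  set G : PowerSeries (MvPowerSeries (Fin n) L) →+* PowerSeries (MvPowerSeries (Fin n) Λ) :=
    (eΛ : MvPowerSeries (Fin (n + 1)) Λ →+* PowerSeries (MvPowerSeries (Fin n) Λ)).comp
      (E'.comp (e.symm : PowerSeries (MvPowerSeries (Fin n) L) →+* MvPowerSeries (Fin (n + 1)) L))
    with hG
  have hGa : ∀ h, G h = eΛ (E' (e.symm h)) := fun h => rfl
  set Ey : MvPowerSeries (Fin n) L →+* MvPowerSeries (Fin n) Λ :=
    (PowerSeries.constantCoeff (R := MvPowerSeries (Fin n) Λ)).comp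
      (G.comp (PowerSeries.C (R := MvPowerSeries (Fin n) L))) with hEy
  have hEya : ∀ h, Ey h = PowerSeries.constantCoeff (eΛ (E' (e.symm (PowerSeries.C h)))) :=
    fun h => rfl
  have hGC : ∀ h, G (PowerSeries.C h) = PowerSeries.C (Ey h) := by
    intro h
    ext k x
    rw [PowerSeries.coeff_C]
    rcases k with _ | k
    · rw [if_pos rfl, hEya, hGa, PowerSeries.coeff_zero_eq_constantCoeff_apply]
    · rw [if_neg (Nat.succ_ne_zero k), hGa]
      have h1 := ExpandSystem_z k (E' (e.symm (PowerSeries.C h))) x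
      rw [← hE2, he, ExpandSystem_symm_C_zero, map_zero, map_zero] at h1
      have h2 : ((k : Λ) + 1) ≠ 0 := by exact_mod_cast Nat.succ_ne_zero k
      rw [map_zero, map_zero] at h1
      rcases mul_eq_zero.mp h1.symm with h3 | h3
      · rw [map_zero]
        exact h3
      · exact absurd h3 h2
  have hX0 : E' (X 0) = X 0 + C (ev (σ.symm PowerSeries.X)) := by
    have hz : ev (σ.symm PowerSeries.X) = ev (s.symm (X 0)) := by
      rw [hσs]
      congr 2
      rw [AlgEquiv.symm_apply_eq, he, finSuccEquiv_X_zero]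
    rw [hz]
    have h1 := ExpandSystem_zero (fun _ : Unit => E' (X 0) - (X 0 + C (ev (s.symm (X 0)))))
      (fun _ u => u) (fun _ _ => 0) ?_ ?_ ()
    · exact sub_eq_zero.mp h1
    · intro _
      rw [map_sub, map_add, hE1', constantCoeff_X, constantCoeff_C, zero_add, sub_self]
    · intro i _
      rw [map_sub, map_add, ← hE2, pderiv_C, add_zero]
      simp only [zero_mul, Finset.sum_const_zero]
      by_cases hi : i = 0
      · rw [hi, pderiv_X_self, pderiv_X_self, map_one, sub_self]
      · rw [pderiv_X_of_ne (Ne.symm hi), pderiv_X_of_ne (Ne.symm hi), map_zero, sub_self]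
  refine ⟨sP.trans eΛ, Ey, ev (σ.symm PowerSeries.X), ?_, ?_, ?_⟩
  · intro h
    rw [hEya, hσs, ← hE1', ← PowerSeries.coeff_zero_eq_constantCoeff_apply,
      ← coeff_zero_eq_constantCoeff_apply, heΛ, coeff_coeff_finSuccEquiv,
      ← coeff_zero_eq_constantCoeff_apply]
    congr 2
    ext j
    refine Fin.cases ?_ (fun j => ?_) j
    · rw [Finsupp.cons_zero]; rfl
    · rw [Finsupp.cons_succ]; rfl
  · intro i h
    rw [hEya, hEya, he, ExpandSystem_symm_C, hE2, ← PowerSeries.coeff_zero_eq_constantCoeff_apply,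
      ← PowerSeries.coeff_zero_eq_constantCoeff_apply, heΛ, ExpandSystem_succ]
  · have hcomp : G.comp (Polynomial.coeToPowerSeries.ringHom (R := MvPowerSeries (Fin n) L)) =
        (Polynomial.coeToPowerSeries.ringHom (R := MvPowerSeries (Fin n) Λ)).comp
          ((Polynomial.taylorAlgHom (C (ev (σ.symm PowerSeries.X)))).toRingHom.comp
            (Polynomial.mapRingHom Ey)) := by
      refine Polynomial.ringHom_ext ?_ ?_
      · intro a
        have h1 : (Polynomial.taylorAlgHom
            (C (ev (σ.symm PowerSeries.X)) : MvPowerSeries (Fin n) Λ)).toRingHom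
            (Polynomial.C (Ey a)) = Polynomial.C (Ey a) := Polynomial.taylor_C _ _
        have h3 : G ((Polynomial.C a : Polynomial (MvPowerSeries (Fin n) L)) :
            PowerSeries (MvPowerSeries (Fin n) L)) = ((Polynomial.C (Ey a) :
            Polynomial (MvPowerSeries (Fin n) Λ)) : PowerSeries (MvPowerSeries (Fin n) Λ)) := by
          rw [Polynomial.coe_C, Polynomial.coe_C, hGC]
        rw [← h1] at h3
        have h4 : Polynomial.mapRingHom Ey (Polynomial.C a) = Polynomial.C (Ey a) := by
          rw [Polynomial.coe_mapRingHom, Polynomial.map_C]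
        rw [← h4] at h3
        exact h3
      · have h1 : (Polynomial.taylorAlgHom
            (C (ev (σ.symm PowerSeries.X)) : MvPowerSeries (Fin n) Λ)).toRingHom
            Polynomial.X = Polynomial.X + Polynomial.C (C (ev (σ.symm PowerSeries.X))) :=
          Polynomial.taylor_X _
        have h2 : e.symm PowerSeries.X = X 0 := by
          rw [AlgEquiv.symm_apply_eq, he, finSuccEquiv_X_zero]
        have h3 : G ((Polynomial.X : Polynomial (MvPowerSeries (Fin n) L)) :
            PowerSeries (MvPowerSeries (Fin n) L)) = (((Polynomial.X +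
              Polynomial.C (C (ev (σ.symm PowerSeries.X)))) :
            Polynomial (MvPowerSeries (Fin n) Λ)) : PowerSeries (MvPowerSeries (Fin n) Λ)) := by
          rw [Polynomial.coe_X, Polynomial.coe_add, Polynomial.coe_X, Polynomial.coe_C, hGa, h2,
            hX0, map_add, heΛ, finSuccEquiv_X_zero, finSuccEquiv_C]
        rw [← h1] at h3
        have h4 : Polynomial.mapRingHom Ey Polynomial.X = Polynomial.X := by
          rw [Polynomial.coe_mapRingHom, Polynomial.map_X]
        rw [← h4] at h3
        exact h3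
    intro P
    have h1 : G P = ((Polynomial.taylor (C (ev (σ.symm PowerSeries.X))) (P.map Ey) :
      Polynomial (MvPowerSeries (Fin n) Λ)) : PowerSeries (MvPowerSeries (Fin n) Λ)) :=
      RingHom.congr_fun hcomp P
    rw [AlgEquiv.trans_apply, hmain, ← h1, hGa]
    congr 2
    rw [hσs, AlgEquiv.apply_symm_apply]

end Pool.Agent.Helper38.EQ
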