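import Pool.Agent.Helper38.EQ.Jung
import Pool.Agent.Helper38.EQ.Psi
import Pool.Agent.Helper38.EQ.AdicComplete
import Pool.Agent.Helper38.EQ.Discr

/-!
# EQ-Z1 (Jung's theorem for a smooth branch divisor)

`κ = Λ⟦t_1..t_d⟧`, `A = κ⟦ξ⟧`, `F` monic over `A` with discriminant `ξ^e * unit`: then `F` splits
over `κ⟦ξ^(1/N)⟧`.  Induction on `m = F.natDegree`; `m ≤ 1` clear.  Let `m ≥ 2`.
Translate so that `a_1 = 0` (`discr_taylor`).  Let `ρ = constantCoeff : κ → Λ`.  `F^ρ` has discriminant
`ξ^e * unit ≠ 0`, so some `ρ(a_j) ≠ 0`.  `N = m!`, `p = min_j (m!/j) ord(ρ(a_j))` (over `Λ⟦ξ⟧`,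
i.e. at `t = 0`).  Then `η^(p j) ∣ ρ(a_j)(η^N)` for all `j`, with non zero quotient at `η = 0` for
some `j ≥ 2`.
Claim: `η^(p j) ∣ a_j(η^N)` in `κ⟦η⟧`.  By induction on `p' ≤ p`: if `η^(p' j)` divides all
`a_j(η^N)` and `p' < p`, the polynomial with coefficients `a_j(η^N)/η^(p' j)` is monic, with zero
second coefficient, its discriminant is `η^(e')` times a unit, and `ρ` of its `j`-th coefficient is
divisible by `η^((p-p') j)`, so by `η^j`: `jung_order` gives that `η^j` divides
`a_j(η^N)/η^(p' j)`.
So `F(η^N; η^p w) = η^(p m) G(η; w)`, `G` monic over `κ⟦η⟧` with discriminant `η^(e'') * unit`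
(the private lemmas `Jung_discr_scaleRoots`, `Jung_discr_map` in Jung.lean can be copied), and
`G^ρ(0; w) ∈ Λ[w]` has second coefficient zero and is not `w^m`: it has a root `c` of multiplicity
`m'`, `0 < m' < m`.  The ring `κ⟦η⟧` is a complete local ring with residue field `Λ`, so by
Weierstrass preparation or Hensel `G = G_1 G_2` with `G_1, G_2` monic of smaller degree (compare
Puiseux.lean, where this is done over `k⟦σ⟧`).
`discr(G_1 G_2) = discr G_1 * discr G_2 * Res(G_1,G_2)^2` up to sign; so `discr G_i` divides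
`η^(e'') * unit` in the domain `κ⟦η⟧` in which `η` is prime: it is a power of `η` times a unit.
By induction `G_1, G_2` split after `η = σ^M`, hence so does `F`.
-/

namespace Pool.Agent.Helper38.EQ

section JungRoots_aux

open Polynomial

private theorem JungRoots_charZero {A B : Type} [CommRing A] [CommRing B] [CharZero B]
    (φ : A →+* B) : CharZero A := by
  refine ⟨fun a b h => ?_⟩
  have h2 := congrArg φ h
  rw [map_natCast, map_natCast] at h2
  exact_mod_cast h2

section generic

variable {κ : Type} [CommRing κ]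

/-- splitting after a ramified base change -/
private def JungRoots_PS (F : Polynomial (PowerSeries κ)) : Prop :=
  ∃ (N : ℕ) (hN : N ≠ 0),
    (F.map (PowerSeries.expand N hN : PowerSeries κ →ₐ[κ] PowerSeries κ).toRingHom).Splits

private theorem JungRoots_of_splits {F : Polynomial (PowerSeries κ)} (h : F.Splits) :
    JungRoots_PS F :=
  ⟨1, one_ne_zero, h.map _⟩

private theorem JungRoots_of_expand {F : Polynomial (PowerSeries κ)} (N : ℕ) (hN : N ≠ 0)
    (h : JungRoots_PS
      (F.map (PowerSeries.expand N hN : PowerSeries κ →ₐ[κ] PowerSeries κ).toRingHom)) :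
    JungRoots_PS F := by
  obtain ⟨M, hM, h⟩ := h
  refine ⟨M * N, Nat.mul_ne_zero hM hN, ?_⟩
  rw [Polynomial.map_map] at h
  convert! h using 2
  ext1 φ
  exact PowerSeries.expand_mul M hM N hN φ

private theorem JungRoots_expand_splits {F : Polynomial (PowerSeries κ)} (N : ℕ) (hN : N ≠ 0)
    (M : ℕ) (hM : M ≠ 0)
    (h : (F.map (PowerSeries.expand N hN : PowerSeries κ →ₐ[κ] PowerSeries κ).toRingHom).Splits) :
    (F.map (PowerSeries.expand (M * N) (Nat.mul_ne_zero hM hN) :
      PowerSeries κ →ₐ[κ] PowerSeries κ).toRingHom).Splits := by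
  have h1 := h.map (PowerSeries.expand M hM : PowerSeries κ →ₐ[κ] PowerSeries κ).toRingHom
  rw [Polynomial.map_map] at h1
  convert! h1 using 2
  ext1 φ
  exact PowerSeries.expand_mul M hM N hN φ

private theorem JungRoots_congr {F : Polynomial (PowerSeries κ)} {N M : ℕ} (e : N = M)
    (hN : N ≠ 0)
    (h : (F.map (PowerSeries.expand N hN : PowerSeries κ →ₐ[κ] PowerSeries κ).toRingHom).Splits) :
    (F.map (PowerSeries.expand M (e ▸ hN) :
      PowerSeries κ →ₐ[κ] PowerSeries κ).toRingHom).Splits := by
  subst e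
  exact h

private theorem JungRoots_mul {F G : Polynomial (PowerSeries κ)} (hF : JungRoots_PS F)
    (hG : JungRoots_PS G) : JungRoots_PS (F * G) := by
  obtain ⟨N, hN, h1⟩ := hF
  obtain ⟨M, hM, h2⟩ := hG
  refine ⟨M * N, Nat.mul_ne_zero hM hN, ?_⟩
  rw [Polynomial.map_mul]
  refine (JungRoots_expand_splits N hN M hM h1).mul ?_
  exact JungRoots_congr (mul_comm N M) _ (JungRoots_expand_splits M hM N hN h2)

private theorem JungRoots_of_comp {F : Polynomial (PowerSeries κ)} (a : PowerSeries κ)
    (h : JungRoots_PS (F.comp (X + C a))) : JungRoots_PS F := by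
  obtain ⟨N, hN, h⟩ := h
  refine ⟨N, hN, ?_⟩
  rw [Polynomial.map_comp, Polynomial.map_add, map_X, map_C] at h
  have h1 := h.comp_X_sub_C
    ((PowerSeries.expand N hN : PowerSeries κ →ₐ[κ] PowerSeries κ).toRingHom a)
  rw [comp_assoc] at h1
  simpa using h1

private theorem JungRoots_of_scale [Nontrivial κ] {G : Polynomial (PowerSeries κ)} (hG : G.Monic)
    (s : PowerSeries κ) (h : JungRoots_PS G) : JungRoots_PS (G.scaleRoots s) := by
  obtain ⟨N, hN, h⟩ := h
  refine ⟨N, hN, ?_⟩
  rw [map_scaleRoots _ _ _ (by rw [hG.leadingCoeff, map_one]; exact one_ne_zero)]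
  exact h.scaleRoots _

end generic

/-- factorisation by Weierstrass preparation -/
private theorem JungRoots_factor {R : Type} [CommRing R] [IsLocalRing R]
    [IsAdicComplete (IsLocalRing.maximalIdeal R) R] {G : Polynomial R} (hG : G.Monic)
    (h0 : G.coeff 0 ∈ IsLocalRing.maximalIdeal R)
    (h1 : ∃ i < G.natDegree, G.coeff i ∉ IsLocalRing.maximalIdeal R) :
    ∃ H Q : Polynomial R, H.Monic ∧ Q.Monic ∧ G = H * Q ∧
      H.natDegree < G.natDegree ∧ Q.natDegree < G.natDegree := by
  have hne : ((G : PowerSeries R).map (IsLocalRing.residue R)) ≠ 0 := by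
    intro h
    have h2 := congrArg (PowerSeries.coeff G.natDegree) h
    rw [PowerSeries.coeff_map, Polynomial.coeff_coe, coeff_natDegree, hG.leadingCoeff, map_one,
      map_zero] at h2
    exact one_ne_zero h2
  obtain ⟨H, u, hW⟩ := PowerSeries.exists_isWeierstrassFactorization hne
  have hH := hW.isDistinguishedAt.monic
  set Q := G /ₘ H with hQ
  set R' := G %ₘ H with hR
  have hdiv : R' + H * Q = G := modByMonic_add_div G H
  have hRdeg : R'.degree < H.degree := degree_modByMonic_lt G hH
  have hI : IsLocalRing.maximalIdeal R ≠ ⊤ := Ideal.IsMaximal.ne_top inferInstance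
  have hnat : H.natDegree = ((H : PowerSeries R).map
      (Ideal.Quotient.mk (IsLocalRing.maximalIdeal R))).order.toNat := by
    have h2 := hW.isDistinguishedAt.coe_natDegree_eq_order_map
      (H : PowerSeries R) 1
      (by rwa [PowerSeries.constantCoeff_one, ← Ideal.ne_top_iff_one]) (by simp)
    rw [← h2]
    simp
  have hR0 : R' = 0 := by
    have hw := hW.isDistinguishedAt.isWeierstrassDivisorAt hI
    refine (hw.eq_zero_of_mul_eq (q := u - (Q : PowerSeries R)) (r := R') ?_ ?_).2
    · rw [← hnat]
      rwa [degree_eq_natDegree hH.ne_zero] at hRdeg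
    · have h2 := hW.eq_mul
      rw [← hdiv, Polynomial.coe_add, Polynomial.coe_mul] at h2
      rw [mul_sub, ← h2]
      ring
  have hGQ : G = H * Q := by rw [← hdiv, hR0, zero_add]
  have hQm : Q.Monic := hH.of_mul_monic_left (hGQ ▸ hG)
  have hdeg : G.natDegree = H.natDegree + Q.natDegree := by
    rw [hGQ]
    exact hH.natDegree_mul hQm
  refine ⟨H, Q, hH, hQm, hGQ, ?_, ?_⟩
  · by_contra hlt
    have hQ0 : Q.natDegree = 0 := by omega
    have hQ1 : Q = 1 := hQm.natDegree_eq_zero.1 hQ0
    rw [hQ1, mul_one] at hGQ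
    obtain ⟨i, hi, hic⟩ := h1
    apply hic
    rw [hGQ]
    exact hW.isDistinguishedAt.mem (by rwa [← hGQ])
  · by_contra hlt
    have hH0 : H.natDegree = 0 := by omega
    have hH1 : H = 1 := hH.natDegree_eq_zero.1 hH0
    have h2 := hW.eq_mul
    rw [hH1, Polynomial.coe_one, one_mul] at h2
    have h3 := PowerSeries.isUnit_iff_constantCoeff.1 hW.isUnit
    rw [← h2, ← PowerSeries.coeff_zero_eq_constantCoeff, Polynomial.coeff_coe] at h3
    exact (IsLocalRing.mem_maximalIdeal _).1 h0 h3

/-- the slope -/
private theorem JungRoots_slope {K : Type} [Field K] {f : Polynomial (PowerSeries K)} {m : ℕ}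
    (h1 : ∃ i < m, f.coeff i ≠ 0) :
    ∃ (N : ℕ) (hN : N ≠ 0) (p : ℕ),
      (∀ i ≤ m, (PowerSeries.X : PowerSeries K) ^ (p * (m - i)) ∣
        PowerSeries.expand N hN (f.coeff i)) ∧
      ∃ i < m, ∀ b : PowerSeries K,
        PowerSeries.expand N hN (f.coeff i) = b * PowerSeries.X ^ (p * (m - i)) →
          PowerSeries.constantCoeff b ≠ 0 := by
  classical
  obtain ⟨i₀, hi₀, hmin⟩ := Finset.exists_min_image
    ((Finset.range m).filter fun i => f.coeff i ≠ 0)
    (fun i => ((f.coeff i).order.toNat : ℚ) / ((m - i : ℕ) : ℚ))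
    (by
      obtain ⟨i, hi, hc⟩ := h1
      exact ⟨i, Finset.mem_filter.2 ⟨Finset.mem_range.2 hi, hc⟩⟩)
  obtain ⟨hi1, hi2⟩ := Finset.mem_filter.1 hi₀
  rw [Finset.mem_range] at hi1
  have hN : m - i₀ ≠ 0 := by omega
  set N := m - i₀ with hNd
  set p := (f.coeff i₀).order.toNat with hp
  have hmin2 : ∀ i < m, f.coeff i ≠ 0 → p * (m - i) ≤ N * (f.coeff i).order.toNat := by
    intro i hi hc
    have h2 := hmin i (Finset.mem_filter.2 ⟨Finset.mem_range.2 hi, hc⟩)
    have h3 : (0 : ℚ) < ((m - i : ℕ) : ℚ) := by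
      exact_mod_cast Nat.sub_pos_of_lt hi
    have h4 : (0 : ℚ) < ((m - i₀ : ℕ) : ℚ) := by
      exact_mod_cast Nat.sub_pos_of_lt hi1
    rw [div_le_div_iff₀ h4 h3] at h2
    have h5 : p * (m - i) ≤ (f.coeff i).order.toNat * (m - i₀) := by exact_mod_cast h2
    rw [mul_comm N]
    exact h5
  have hord : ∀ i, f.coeff i ≠ 0 →
      (PowerSeries.expand N hN (f.coeff i)).order = ((N * (f.coeff i).order.toNat : ℕ) : ℕ∞) := by
    intro i hc
    rw [PowerSeries.order_expand]
    have h2 : (f.coeff i).order = ((f.coeff i).order.toNat : ℕ∞) :=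
      (ENat.natCast_toNat (PowerSeries.order_finite_iff_ne_zero.2 hc).ne).symm
    rw [h2]
    simp
  refine ⟨N, hN, p, ?_, i₀, hi1, ?_⟩
  · intro i hi
    by_cases hc : f.coeff i = 0
    · rw [hc, map_zero]
      exact dvd_zero _
    rcases hi.lt_or_eq with hi | rfl
    · rw [PowerSeries.X_pow_dvd_iff]
      intro j hj
      apply PowerSeries.coeff_of_lt_order
      rw [hord i hc]
      exact_mod_cast lt_of_lt_of_le hj (hmin2 i hi hc)
    · rw [Nat.sub_self, mul_zero, pow_zero]
      exact one_dvd _
  · intro b h3 h2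
    have h4 := hord i₀ hi2
    rw [h3] at h4
    have h5 : (PowerSeries.X : PowerSeries K) ^ (p * (m - i₀) + 1) ∣
        b * PowerSeries.X ^ (p * (m - i₀)) := by
      rw [pow_succ, mul_comm b]
      exact mul_dvd_mul_left _ (PowerSeries.X_dvd_iff.2 h2)
    have h6 : PowerSeries.coeff (p * (m - i₀)) (b * PowerSeries.X ^ (p * (m - i₀))) = 0 :=
      PowerSeries.X_pow_dvd_iff.1 h5 _ (Nat.lt_succ_self _)
    have h7 : (b * PowerSeries.X ^ (p * (m - i₀)) : PowerSeries K) ≠ 0 := by
      intro h
      rw [h, PowerSeries.order_zero] at h4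
      exact ENat.top_ne_natCast _ h4
    have h8 := PowerSeries.coeff_order h7
    rw [h4] at h8
    apply h8
    have e : (((N * (f.coeff i₀).order.toNat : ℕ) : ℕ∞)).toNat = p * (m - i₀) := by
      rw [ENat.toNat_natCast, mul_comm]
    rw [e]
    exact h6

/-- the coefficient after the leading one of a translate -/
private theorem JungRoots_next {R : Type} [CommRing R] {F : Polynomial R} (hF : F.Monic)
    (hm : F.natDegree ≠ 0) (r : R) :
    (F.comp (X + C r)).coeff (F.natDegree - 1) = F.coeff (F.natDegree - 1) +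
      (F.natDegree : R) * r := by
  set m := F.natDegree with hmd
  have h1 : (F.comp (X + C r)).coeff (m - 1) = (hasseDeriv (m - 1) F).eval r := by
    rw [← taylor_coeff, taylor_apply]
  have h2 : (hasseDeriv (m - 1) F).natDegree < 2 := by
    have h3 := natDegree_hasseDeriv_le F (m - 1)
    omega
  rw [h1, eval_eq_sum_range' h2, Finset.sum_range_succ, Finset.sum_range_one, hasseDeriv_coeff,
    hasseDeriv_coeff]
  have e1 : 1 + (m - 1) = m := by omega
  have e2 : m.choose (m - 1) = m := by
    rw [Nat.choose_symm_of_eq_add (show m = (m - 1) + 1 by omega), Nat.choose_one_right]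
  rw [zero_add, Nat.choose_self, e1, e2, hmd, coeff_natDegree, hF.leadingCoeff]
  simp

private theorem JungRoots_discr_scaleRoots {A : Type} [CommRing A] [IsDomain A] [CharZero A]
    {f : Polynomial A} (hf : f.Monic) (hm : 0 < f.natDegree) (s : A) :
    (f.scaleRoots s).discr = s ^ (f.natDegree * (f.natDegree - 1)) * f.discr := by
  have hd : (f.scaleRoots s).derivative = f.derivative.scaleRoots s := by
    ext i
    rw [coeff_derivative, coeff_scaleRoots, coeff_scaleRoots, coeff_derivative,
      natDegree_derivative]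
    have e : f.natDegree - (i + 1) = f.natDegree - 1 - i := by omega
    rw [e]
    ring
  have hs : (f.scaleRoots s).Monic := (monic_scaleRoots_iff s).2 hf
  have h1 := resultant_deriv (natDegree_pos_iff_degree_pos.1 hm)
  have h2 := resultant_deriv (f := f.scaleRoots s)
    (natDegree_pos_iff_degree_pos.1 (by rw [natDegree_scaleRoots]; exact hm))
  have h3 := resultant_scaleRoots f f.derivative s
  rw [natDegree_scaleRoots, natDegree_scaleRoots, natDegree_derivative] at h3
  rw [hs.leadingCoeff, natDegree_scaleRoots, hd, h3, h1, hf.leadingCoeff, mul_one] at h2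
  have hu : IsUnit ((-1 : A) ^ (f.natDegree * (f.natDegree - 1) / 2)) :=
    (isUnit_one.neg).pow _
  apply hu.mul_left_cancel
  rw [← h2]
  ring

/-- The discriminant of a factor divides the discriminant. -/
private theorem JungRoots_discr_dvd {A : Type} [CommRing A] [IsDomain A] [CharZero A]
    {H Q : Polynomial A} (hH : H.Monic) (hQ : Q.Monic) (h1 : 0 < H.natDegree)
    (h2 : 0 < Q.natDegree) : H.discr ∣ (H * Q).discr := by
  have hd : (H * Q).natDegree = H.natDegree + Q.natDegree := hH.natDegree_mul hQ
  have h3 : resultant H (H * Q).derivative H.natDegree (H.natDegree + Q.natDegree - 1) =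
      resultant H H.derivative H.natDegree (H.natDegree - 1) *
        resultant H Q H.natDegree Q.natDegree := by
    have e1 : (H * Q).derivative = H.derivative * Q + H * Q.derivative := derivative_mul
    have e2 : H.natDegree + Q.natDegree - 1 = H.derivative.natDegree + Q.natDegree := by
      rw [natDegree_derivative]
      omega
    rw [e1, resultant_add_mul_right _ _ _ _ _ (by rw [natDegree_derivative]; omega) le_rfl, e2,
      resultant_mul_right _ _ _ _ le_rfl, natDegree_derivative]
  have h4 : resultant (H * Q) (H * Q).derivative (H * Q).natDegree ((H * Q).natDegree - 1) =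
      resultant H (H * Q).derivative H.natDegree (H.natDegree + Q.natDegree - 1) *
        resultant Q (H * Q).derivative Q.natDegree (H.natDegree + Q.natDegree - 1) := by
    rw [hd]
    exact resultant_mul_left _ _ _ _ (by rw [natDegree_derivative, hd])
  rw [discr_resultant _ (hH.mul hQ) (by omega), h4, h3, discr_resultant _ hH h1]
  refine Dvd.dvd.mul_left ?_ _
  refine Dvd.dvd.mul_right ?_ _
  refine Dvd.dvd.mul_right ?_ _
  exact ((((isUnit_one (M := A)).neg).pow _).mul_left_dvd).2 dvd_rfl

/-- A power of `X` taken out of the coefficients. -/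
private theorem JungRoots_unscale {κ : Type} [CommRing κ] [Nontrivial κ]
    {G : Polynomial (PowerSeries κ)} (hG : G.Monic)
    (h : ∀ i ≤ G.natDegree, (PowerSeries.X : PowerSeries κ) ^ (G.natDegree - i) ∣ G.coeff i) :
    ∃ G' : Polynomial (PowerSeries κ), G'.Monic ∧ G'.natDegree = G.natDegree ∧
      G'.scaleRoots PowerSeries.X = G ∧ ∀ i, G.coeff i = 0 → G'.coeff i = 0 := by
  classical
  set m := G.natDegree with hm
  have hdvd : ∀ i, i ≤ m → ∃ b : PowerSeries κ,
      G.coeff i = b * PowerSeries.X ^ (m - i) ∧ (G.coeff i = 0 → b = 0) := by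
    intro i hi
    by_cases hc : G.coeff i = 0
    · exact ⟨0, by rw [hc, zero_mul], fun _ => rfl⟩
    · obtain ⟨b, hb⟩ := h i hi
      exact ⟨b, by rw [hb, mul_comm], fun h => absurd h hc⟩
  choose! b hb hb0 using hdvd
  have hbm : b m = 1 := by
    have h2 := hb m le_rfl
    rw [Nat.sub_self, pow_zero, mul_one] at h2
    rw [← h2, hm, coeff_natDegree, hG.leadingCoeff]
  set G' : Polynomial (PowerSeries κ) := ∑ i ∈ Finset.range (m + 1), monomial i (b i) with hGd
  have hGc : ∀ i, G'.coeff i = if i ≤ m then b i else 0 := by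
    intro i
    rw [hGd, finsetSum_coeff]
    simp only [coeff_monomial]
    rw [Finset.sum_ite_eq']
    simp only [Finset.mem_range, Nat.lt_succ_iff]
  have hGle : G'.natDegree ≤ m := by
    rw [natDegree_le_iff_coeff_eq_zero]
    intro i hi
    rw [hGc, if_neg (by omega)]
  have hGm : G'.coeff m = 1 := by rw [hGc, if_pos le_rfl, hbm]
  have hGdeg : G'.natDegree = m := by
    refine le_antisymm hGle (le_natDegree_of_ne_zero ?_)
    rw [hGm]
    exact one_ne_zero
  have hGmon : G'.Monic := monic_of_natDegree_le_of_coeff_eq_one m hGle hGm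
  refine ⟨G', hGmon, hGdeg, ?_, ?_⟩
  · ext1 i
    rw [coeff_scaleRoots, hGdeg, hGc]
    by_cases hi : i ≤ m
    · rw [if_pos hi]
      exact (hb i hi).symm
    · rw [if_neg hi, zero_mul, coeff_eq_zero_of_natDegree_lt (by omega)]
  · intro i hi
    rw [hGc]
    split_ifs with h2
    · exact hb0 i h2 hi
    · rfl

/-- Cancelling powers of `X`. -/
private theorem JungRoots_cancel {κ : Type} [CommRing κ] [IsDomain κ] {a b : ℕ}
    {D U : PowerSeries κ} (hU : PowerSeries.constantCoeff U ≠ 0)
    (h : PowerSeries.X ^ a * D = PowerSeries.X ^ b * U) :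
    D = PowerSeries.X ^ (b - a) * U := by
  have hle : a ≤ b := by
    by_contra hlt
    push Not at hlt
    have h2 : (PowerSeries.X : PowerSeries κ) ^ (b + 1) ∣ PowerSeries.X ^ b * U := by
      rw [← h]
      exact Dvd.dvd.mul_right (pow_dvd_pow _ hlt) _
    rw [pow_succ] at h2
    have h3 := (mul_dvd_mul_iff_left (pow_ne_zero _ PowerSeries.X_ne_zero)).1 h2
    rw [PowerSeries.X_dvd_iff] at h3
    exact hU h3
  apply mul_left_cancel₀ (pow_ne_zero a (PowerSeries.X_ne_zero (R := κ)))
  rw [h, ← mul_assoc, ← pow_add, Nat.add_sub_cancel' hle]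

/-- Repeated use of `jung_order`. -/
private theorem JungRoots_descend {κ K : Type} [CommRing κ] [IsDomain κ] [Field K]
    [IsAlgClosed K] [CharZero K] (ρ : κ →+* K) (F : Polynomial (PowerSeries κ)) (hF : F.Monic)
    (hm : 0 < F.natDegree) (h1 : F.coeff (F.natDegree - 1) = 0)
    (e : ℕ) (U : PowerSeries κ) (hD : F.discr = PowerSeries.X ^ e * U)
    (hU : ρ (PowerSeries.constantCoeff U) ≠ 0) (p : ℕ)
    (h0 : ∀ i ≤ F.natDegree, (PowerSeries.X : PowerSeries K) ^ (p * (F.natDegree - i)) ∣
      PowerSeries.map ρ (F.coeff i)) :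
    ∃ G : Polynomial (PowerSeries κ), G.Monic ∧ G.natDegree = F.natDegree ∧
      G.scaleRoots (PowerSeries.X ^ p) = F ∧ G.coeff (F.natDegree - 1) = 0 ∧
      ∃ e' : ℕ, G.discr = PowerSeries.X ^ e' * U := by
  have hcκ : CharZero κ := JungRoots_charZero ρ
  have hcP : CharZero (PowerSeries κ) := JungRoots_charZero (PowerSeries.constantCoeff (R := κ))
  have hU0 : PowerSeries.constantCoeff U ≠ 0 := fun h => hU (by rw [h, map_zero])
  induction p with
  | zero =>
    refine ⟨F, hF, rfl, ?_, h1, e, hD⟩
    rw [pow_zero, scaleRoots_one]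
  | succ p ih =>
    obtain ⟨G, hG, hGd, hGs, hG1, e', hDG⟩ := ih (by
      intro i hi
      exact (pow_dvd_pow _ (Nat.mul_le_mul_right _ (Nat.le_succ p))).trans (h0 i hi))
    have hGo : ∀ j ≤ G.natDegree, (PowerSeries.X : PowerSeries κ) ^ j ∣
        G.coeff (G.natDegree - j) := by
      refine jung_order ρ G hG (by rw [hGd]; exact hG1) e' U hDG hU ?_
      intro j hj
      rw [hGd] at hj ⊢
      have h2 := h0 (F.natDegree - j) (by omega)
      have e1 : F.natDegree - (F.natDegree - j) = j := by omega
      rw [e1] at h2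
      have h3 : F.coeff (F.natDegree - j) =
          G.coeff (F.natDegree - j) * (PowerSeries.X ^ p) ^ j := by
        have h4 := congrArg (fun P => Polynomial.coeff P (F.natDegree - j)) hGs
        simp only [Polynomial.coeff_scaleRoots, hGd, e1] at h4
        exact h4.symm
      rw [h3, map_mul, map_pow, map_pow, PowerSeries.map_X, ← pow_mul,
        mul_comm (PowerSeries.map ρ (G.coeff (F.natDegree - j)))] at h2
      have e2 : (p + 1) * j = p * j + j := by ring
      rw [e2, pow_add] at h2
      exact (mul_dvd_mul_iff_left (pow_ne_zero _ PowerSeries.X_ne_zero)).1 h2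
    obtain ⟨G', hG', hGd', hGs', hGz'⟩ := JungRoots_unscale hG (by
      intro i hi
      have h2 := hGo (G.natDegree - i) (by omega)
      have e1 : G.natDegree - (G.natDegree - i) = i := by omega
      rwa [e1] at h2)
    refine ⟨G', hG', hGd'.trans hGd, ?_, hGz' _ hG1, ?_⟩
    · rw [pow_succ', scaleRoots_mul, hGs', hGs]
    · refine ⟨e' - G'.natDegree * (G'.natDegree - 1), ?_⟩
      apply JungRoots_cancel hU0
      rw [← hDG, ← hGs', JungRoots_discr_scaleRoots hG' (by rw [hGd', hGd]; exact hm)]

end JungRoots_aux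

open MvPowerSeries

theorem jung_splits {d : ℕ} {Λ : Type} [Field Λ] [IsAlgClosed Λ] [CharZero Λ]
    (F : Polynomial (PowerSeries (MvPowerSeries (Fin d) Λ))) (hF : F.Monic)
    (e : ℕ) (U : PowerSeries (MvPowerSeries (Fin d) Λ)) (hD : F.discr = PowerSeries.X ^ e * U)
    (hU : IsUnit U) :
    ∃ (N : ℕ) (hN : N ≠ 0),
      (F.map (PowerSeries.expand N hN : PowerSeries (MvPowerSeries (Fin d) Λ) →ₐ[_]
        PowerSeries (MvPowerSeries (Fin d) Λ)).toRingHom).Splits := by
  change JungRoots_PS F
  have hcκ : CharZero (MvPowerSeries (Fin d) Λ) :=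
    JungRoots_charZero (MvPowerSeries.constantCoeff (σ := Fin d) (R := Λ))
  have hcP : CharZero (PowerSeries (MvPowerSeries (Fin d) Λ)) :=
    JungRoots_charZero (PowerSeries.constantCoeff (R := MvPowerSeries (Fin d) Λ))
  have hcomp := isAdicComplete_powerSeries d Λ
  set ρ : MvPowerSeries (Fin d) Λ →+* Λ := MvPowerSeries.constantCoeff with hρ
  have hmem : ∀ a : PowerSeries (MvPowerSeries (Fin d) Λ),
      a ∈ IsLocalRing.maximalIdeal (PowerSeries (MvPowerSeries (Fin d) Λ)) ↔
        ρ (PowerSeries.constantCoeff a) = 0 := by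
    intro a
    rw [IsLocalRing.mem_maximalIdeal, mem_nonunits_iff, PowerSeries.isUnit_iff_constantCoeff,
      MvPowerSeries.isUnit_iff_constantCoeff, isUnit_iff_ne_zero, not_not]
  induction hn : F.natDegree using Nat.strong_induction_on generalizing F e U with
  | _ m ih =>
    by_cases hm : m ≤ 1
    · exact JungRoots_of_splits (Polynomial.Splits.of_natDegree_le_one_of_monic (hn ▸ hm) hF)
    push Not at hm
    have hmΛ : (m : Λ) ≠ 0 := by exact_mod_cast (by omega : m ≠ 0)
    -- translation
    set c₁ : PowerSeries (MvPowerSeries (Fin d) Λ) :=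
      PowerSeries.C (MvPowerSeries.C ((m : Λ)⁻¹)) with hc₁
    have hc₁m : (m : PowerSeries (MvPowerSeries (Fin d) Λ)) * c₁ = 1 := by
      have h2 : (m : PowerSeries (MvPowerSeries (Fin d) Λ)) =
          PowerSeries.C (MvPowerSeries.C (m : Λ)) := by
        rw [map_natCast, map_natCast]
      rw [h2, hc₁, ← map_mul, ← map_mul, mul_inv_cancel₀ hmΛ, map_one, map_one]
    set b : PowerSeries (MvPowerSeries (Fin d) Λ) := -(c₁ * F.coeff (m - 1)) with hb
    apply JungRoots_of_comp b
    set F' := F.comp (Polynomial.X + Polynomial.C b) with hF'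
    have hF'm : F'.Monic := hF.comp (Polynomial.monic_X_add_C b)
      (by rw [Polynomial.natDegree_X_add_C]; exact one_ne_zero)
    have hF'd : F'.natDegree = m := by
      rw [hF', Polynomial.natDegree_comp, Polynomial.natDegree_X_add_C, mul_one, hn]
    have hF'c : F'.coeff (m - 1) = 0 := by
      have h1 := JungRoots_next hF (by omega) b
      rw [hn] at h1
      rw [hF', h1, hb, mul_neg, ← mul_assoc, hc₁m, one_mul, add_neg_cancel]
    have hDF' : F'.discr = PowerSeries.X ^ e * U := by
      rw [← hD, hF', ← Polynomial.taylor_apply]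
      exact discr_taylor F hF (by omega) b
    have hρU : ρ (PowerSeries.constantCoeff U) ≠ 0 := by
      have h1 := (hU.map (PowerSeries.constantCoeff (R := MvPowerSeries (Fin d) Λ))).map ρ
      exact h1.ne_zero
    -- the special fibre is not a power of the variable
    have hsp : ∃ i < m, (F'.map (PowerSeries.map ρ)).coeff i ≠ 0 := by
      by_contra hcon
      push Not at hcon
      have h1 : F'.map (PowerSeries.map ρ) = Polynomial.X ^ m := by
        ext1 i
        rw [Polynomial.coeff_X_pow]
        split_ifs with hi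
        · rw [hi, Polynomial.coeff_map, ← hF'd, Polynomial.coeff_natDegree, hF'm.leadingCoeff,
            map_one]
        · rcases lt_or_gt_of_ne hi with hi | hi
          · exact hcon i hi
          · rw [Polynomial.coeff_map, Polynomial.coeff_eq_zero_of_natDegree_lt (by omega),
              map_zero]
      have h2 := discr_map (PowerSeries.map ρ) F' hF'm (by omega)
      have h3 : ((Polynomial.X : Polynomial (PowerSeries Λ)) ^ m).discr = 0 := by
        have hcL : CharZero (PowerSeries Λ) :=
          JungRoots_charZero (PowerSeries.constantCoeff (R := Λ))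
        obtain ⟨k, rfl⟩ : ∃ k, m = k + 2 := ⟨m - 2, by omega⟩
        rw [discr_resultant _ (Polynomial.monic_X_pow _) (by
          rw [Polynomial.natDegree_X_pow]; omega), Polynomial.natDegree_X_pow]
        have h5 : Polynomial.derivative ((Polynomial.X : Polynomial (PowerSeries Λ)) ^ (k + 2)) =
            Polynomial.C ((k + 2 : ℕ) : PowerSeries Λ) * Polynomial.X ^ (k + 1) := by
          rw [Polynomial.derivative_X_pow]
          rfl
        have h6 : Polynomial.resultant ((Polynomial.X : Polynomial (PowerSeries Λ)) ^ (k + 2))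
            (Polynomial.C ((k + 2 : ℕ) : PowerSeries Λ) * Polynomial.X ^ (k + 1))
            (k + 2) (k + 2 - 1) = 0 := by
          rw [Polynomial.resultant_X_pow_left _ _ _ (by
            refine (Polynomial.natDegree_C_mul_le _ _).trans ?_
            rw [Polynomial.natDegree_X_pow]
            omega)]
          simp
        rw [h5, h6, mul_zero]
      rw [h1, h3, hDF', map_mul, map_pow, PowerSeries.map_X] at h2
      have h4 : PowerSeries.map ρ U = 0 := by
        rcases mul_eq_zero.1 h2.symm with h | h
        · exact absurd h (pow_ne_zero _ PowerSeries.X_ne_zero)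
        · exact h
      have h5 := congrArg (PowerSeries.constantCoeff (R := Λ)) h4
      rw [map_zero, ← PowerSeries.coeff_zero_eq_constantCoeff, PowerSeries.coeff_map,
        PowerSeries.coeff_zero_eq_constantCoeff] at h5
      exact hρU h5
    obtain ⟨N, hN, p, hdv, i₀, hi₀, hne⟩ := JungRoots_slope hsp
    apply JungRoots_of_expand N hN
    set E : PowerSeries (MvPowerSeries (Fin d) Λ) →+* PowerSeries (MvPowerSeries (Fin d) Λ) :=
      (PowerSeries.expand N hN : PowerSeries (MvPowerSeries (Fin d) Λ) →ₐ[_]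
        PowerSeries (MvPowerSeries (Fin d) Λ)).toRingHom with hE
    have hEa : ∀ a, E a = PowerSeries.expand N hN a := fun a => rfl
    have hFE : (F'.map E).Monic := hF'm.map _
    have hFEd : (F'.map E).natDegree = m := by rw [hF'm.natDegree_map, hF'd]
    have hcoefE : ∀ i, PowerSeries.map ρ ((F'.map E).coeff i) =
        PowerSeries.expand N hN ((F'.map (PowerSeries.map ρ)).coeff i) := by
      intro i
      rw [Polynomial.coeff_map, Polynomial.coeff_map, hEa, PowerSeries.map_expand]
    obtain ⟨G, hGm, hGd, hGs, hGz, e', hDG⟩ := JungRoots_descend ρ (F'.map E) hFE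
      (by rw [hFEd]; omega)
      (by rw [hFEd, Polynomial.coeff_map, hF'c, map_zero]) (N * e) (PowerSeries.expand N hN U)
      (by
        rw [discr_map E F' hF'm (by omega), hDF', map_mul, map_pow, hEa, hEa,
          PowerSeries.expand_X, ← pow_mul])
      (by rw [PowerSeries.constantCoeff_expand]; exact hρU) p
      (by
        intro i hi
        rw [hFEd] at hi ⊢
        rw [hcoefE]
        exact hdv i hi)
    rw [hFEd] at hGd hGz
    rw [← hGs]
    apply JungRoots_of_scale hGm
    -- the coefficient number `i₀` of the special fibre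
    have hG₀ne : ρ (PowerSeries.constantCoeff (G.coeff i₀)) ≠ 0 := by
      have h1 := hne (PowerSeries.map ρ (G.coeff i₀)) (by
        rw [← hcoefE, ← hGs, Polynomial.coeff_scaleRoots, hGd, map_mul, map_pow, map_pow,
          PowerSeries.map_X, ← pow_mul])
      rw [← PowerSeries.coeff_zero_eq_constantCoeff, PowerSeries.coeff_map,
        PowerSeries.coeff_zero_eq_constantCoeff] at h1
      exact h1
    set G₀ : Polynomial Λ := G.map (ρ.comp (PowerSeries.constantCoeff
      (R := MvPowerSeries (Fin d) Λ))) with hG₀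
    have hG₀m : G₀.Monic := hGm.map _
    have hG₀d : G₀.natDegree = m := by rw [hG₀, hGm.natDegree_map, hGd]
    have hG₀c : G₀.coeff (m - 1) = 0 := by
      rw [hG₀, Polynomial.coeff_map, hGz, map_zero]
    obtain ⟨c, hc⟩ := IsAlgClosed.exists_root G₀ (by
      rw [Polynomial.degree_eq_natDegree hG₀m.ne_zero, hG₀d]
      exact_mod_cast (by omega : m ≠ 0))
    set c' : PowerSeries (MvPowerSeries (Fin d) Λ) := PowerSeries.C (MvPowerSeries.C c) with hc'
    apply JungRoots_of_comp c'
    set G' := G.comp (Polynomial.X + Polynomial.C c') with hG'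
    have hG'm : G'.Monic := hGm.comp (Polynomial.monic_X_add_C _)
      (by rw [Polynomial.natDegree_X_add_C]; exact one_ne_zero)
    have hG'd : G'.natDegree = m := by
      rw [hG', Polynomial.natDegree_comp, Polynomial.natDegree_X_add_C, mul_one, hGd]
    have hDG' : G'.discr = PowerSeries.X ^ e' * PowerSeries.expand N hN U := by
      rw [← hDG, hG', ← Polynomial.taylor_apply]
      exact discr_taylor G hGm (by omega) c'
    have hmap : G'.map (ρ.comp (PowerSeries.constantCoeff (R := MvPowerSeries (Fin d) Λ))) =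
        G₀.comp (Polynomial.X + Polynomial.C c) := by
      rw [hG', Polynomial.map_comp, Polynomial.map_add, Polynomial.map_X, Polynomial.map_C,
        RingHom.comp_apply, hc', PowerSeries.constantCoeff_C, hρ, MvPowerSeries.constantCoeff_C]
    have hcoef : ∀ i, ρ (PowerSeries.constantCoeff (G'.coeff i)) =
        (G₀.comp (Polynomial.X + Polynomial.C c)).coeff i := by
      intro i
      rw [← hmap, Polynomial.coeff_map, RingHom.comp_apply]
    obtain ⟨H, Q, hHm, hQm, hHQ, hHd, hQd⟩ := JungRoots_factor hG'm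
      (by
        rw [hmem, hcoef, Polynomial.coeff_zero_eq_eval_zero, Polynomial.eval_comp]
        simpa using hc)
      (by
        rw [hG'd]
        by_contra hcon
        push Not at hcon
        have h1 : G₀.comp (Polynomial.X + Polynomial.C c) = Polynomial.X ^ m := by
          ext i
          rw [← hcoef, Polynomial.coeff_X_pow]
          split_ifs with hi
          · rw [hi, ← hG'd, Polynomial.coeff_natDegree, hG'm.leadingCoeff, map_one, map_one]
          · rcases lt_or_gt_of_ne hi with hi | hi
            · exact (hmem _).1 (hcon i hi)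
            · rw [Polynomial.coeff_eq_zero_of_natDegree_lt (by omega), map_zero, map_zero]
        have h2 := JungRoots_next hG₀m (by omega) c
        rw [hG₀d, h1, Polynomial.coeff_X_pow, if_neg (by omega), hG₀c, zero_add] at h2
        have hc0 : c = 0 := by
          rcases mul_eq_zero.1 h2.symm with h3 | h3
          · exact absurd h3 hmΛ
          · exact h3
        rw [hc0, Polynomial.C_0, add_zero, Polynomial.comp_X] at h1
        apply hG₀ne
        have h3 : G₀.coeff i₀ = ρ (PowerSeries.constantCoeff (G.coeff i₀)) := by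
          rw [hG₀, Polynomial.coeff_map, RingHom.comp_apply]
        rw [← h3, h1, Polynomial.coeff_X_pow, if_neg (by omega)])
    rw [hG'd] at hHd hQd
    have hsum : m = H.natDegree + Q.natDegree := by
      rw [← hG'd, hHQ]
      exact hHm.natDegree_mul hQm
    have hUE : IsUnit (PowerSeries.expand N hN U) := hU.map (PowerSeries.expand N hN)
    -- the discriminants of the factors
    have hfac : ∀ D : PowerSeries (MvPowerSeries (Fin d) Λ), D ∣ G'.discr →
        ∃ (a : ℕ) (V : PowerSeries (MvPowerSeries (Fin d) Λ)),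
          D = PowerSeries.X ^ a * V ∧ IsUnit V := by
      intro D hDv
      rw [hDG'] at hDv
      have h1 : D ∣ PowerSeries.X ^ e' := (hUE.dvd_mul_right).1 hDv
      obtain ⟨a, _, h2⟩ := (dvd_prime_pow PowerSeries.X_prime _).1 h1
      obtain ⟨v, hv⟩ := h2.symm
      exact ⟨a, v, hv.symm, v.isUnit⟩
    obtain ⟨a₁, V₁, hD₁, hV₁⟩ := hfac H.discr (by
      rw [hHQ]
      exact JungRoots_discr_dvd hHm hQm (by omega) (by omega))
    obtain ⟨a₂, V₂, hD₂, hV₂⟩ := hfac Q.discr (by
      rw [hHQ, mul_comm]
      exact JungRoots_discr_dvd hQm hHm (by omega) (by omega))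
    rw [hHQ]
    exact JungRoots_mul (ih _ hHd H hHm a₁ V₁ hD₁ hV₁ rfl) (ih _ hQd Q hQm a₂ V₂ hD₂ hV₂ rfl)

end Pool.Agent.Helper38.EQ
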