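import Pool.Agent.Helper38.EQ.KeySmooth

/-! Equisingularity with the length of the chain of discriminants. -/

namespace Pool.Agent.Helper38.EQ

open MvPowerSeries

theorem EqLen.ne_zero {B : BasisClass} {k n : ℕ} {K : Type} [Field K]
    {f : MvPowerSeries (Fin n) K} {I : Ideal (MvPowerSeries (Fin n) K)}
    (h : EqLen B k n K f I) : f ≠ 0 := by
  cases h with
  | simple n K f I hI h1 h2 =>
    rintro rfl
    exact h2 (Ideal.zero_mem _)
  | step k n K f I hI x hx hB σ hσ F U hF g hg h =>
    rintro rfl
    have h1 := hF.eq_mul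
    rw [map_zero, map_zero] at h1
    have h2 : (F : PowerSeries (MvPowerSeries (Fin n) (GenField n K))) = 0 := by
      have h3 := hF.isUnit
      exact (h3.mul_left_eq_zero).mp h1.symm
    have h4 : F = 0 := by
      exact_mod_cast h2
    exact hF.isDistinguishedAt.monic.ne_zero h4

end Pool.Agent.Helper38.EQ
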