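import Pool.Agent.Helper38.EQ.ClaimC
import Pool.Agent.Helper38.EQ.Regular

/-!
# EQ-Z4b

`S = MvPowerSeries (Fin n) L`, `S' = MvPowerSeries (Fin n) Λ`.  `g` divides `D` up to nothing:
`D ∈ span {g}` by `hg`, so `Ey g ∣ Ey D ∣ ξ^N`.  The ideal `(ξ)` is prime: `ξ` is a coordinate
(as in `claimC_simple`: `SmoothIdeal {i₀} (span {ξ})`, `smoothIdeal_isPrime`), so `ξ` is a prime
element and `Ey g` is associated to `ξ^a` (`dvd_prime_pow`).
`g` and its derivatives are in `b' = ker (constantCoeff ∘ Ey)` (`hsing`, `hker`), so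
`Ey g ∈ maximalIdeal²` (constant and linear coefficients vanish) and `a ≥ 2` (`ξ ∉ max²`).  Hence the
derivatives of `Ey g = ξ^a u` are divisible by `ξ`: `Ey (singIdeal g) ⊆ (ξ)`, and as
`b' ≤ radical (singIdeal g)` and `(ξ)` is prime, `Ey b' ⊆ (ξ)`.
`b' = (coordIdeal A).map τ`; let `a₁ ≠ a₂ ∈ A`, `h_i = τ (X a_i)`: `Ey h_i = ξ c_i`, so
`constantCoeff (∂_j (Ey h_i)) = constantCoeff c_i * constantCoeff (∂_j ξ)` (`ξ` has zero constant
coefficient), i.e. the two rows `(constantCoeff (Ey (∂_j (τ (X a_i)))))_j`, `i = 1, 2`, of the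
Jacobian matrix of `τ` at the point are proportional to one vector: two rows of a matrix
linearly dependent, so its determinant is zero.  But the Jacobian determinant of `τ` is a unit of `S`
(its constant coefficient is the determinant of the linear part, `linear_of_span_eq`), and
`constantCoeff ∘ Ey` is a ring homomorphism: contradiction.
-/

namespace Pool.Agent.Helper38.EQ

open MvPowerSeries

/-- a series of order one generates the ideal of a smooth hypersurface, so it is prime -/
private theorem NonSD_prime {n : ℕ} {K : Type} [Field K] (f : MvPowerSeries (Fin n) K)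
    (h1 : f ∈ IsLocalRing.maximalIdeal (MvPowerSeries (Fin n) K))
    (h2 : f ∉ IsLocalRing.maximalIdeal (MvPowerSeries (Fin n) K) ^ 2) :
    (Ideal.span {f}).IsPrime := by
  classical
  -- a non zero linear coefficient
  obtain ⟨i₀, hi₀⟩ : ∃ i₀ : Fin n, coeff (Finsupp.single i₀ 1) f ≠ 0 := by
    by_contra hcon
    push Not at hcon
    apply h2
    rw [mem_maximalIdeal_pow_iff]
    intro α hα
    have hc : (∑ i, α i) = 0 ∨ (∑ i, α i) = 1 := by omega
    rcases hc with hc | hc
    · have : α = 0 := by
        ext i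
        simpa using Finset.sum_eq_zero_iff.mp hc i (Finset.mem_univ i)
      subst this
      have := (mem_maximalIdeal_iff_constantCoeff f).mp h1
      simpa using this
    · obtain ⟨i, hi⟩ : ∃ i, α i ≠ 0 := by
        by_contra hall
        push Not at hall
        rw [Finset.sum_eq_zero (fun i _ => hall i)] at hc
        omega
      have h3 : α = Finsupp.single i 1 := by
        ext j
        by_cases hj : j = i
        · subst hj
          have := Finset.single_le_sum (f := fun i => α i) (fun i _ => Nat.zero_le _)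
            (Finset.mem_univ j)
          rw [Finsupp.single_eq_same]
          omega
        · have h4 := Finset.sum_le_sum_of_subset (f := fun i => α i)
            (Finset.subset_univ ({i, j} : Finset (Fin n)))
          rw [Finset.sum_pair (Ne.symm hj)] at h4
          rw [Finsupp.single_eq_of_ne hj]
          omega
      rw [h3]
      exact hcon i
  set y : Fin n → MvPowerSeries (Fin n) K := Function.update (fun i => X i) i₀ f with hy
  have hspan : Ideal.span (Set.range y) =
      IsLocalRing.maximalIdeal (MvPowerSeries (Fin n) K) := by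
    apply span_eq_of_linear
    · intro i
      by_cases hi : i = i₀
      · subst hi
        simpa [hy] using (mem_maximalIdeal_iff_constantCoeff f).mp h1
      · simp [hy, Function.update_of_ne hi]
    · have h3 : (Matrix.of fun i j => coeff (Finsupp.single j 1) (y i)) =
          (1 : Matrix (Fin n) (Fin n) K).updateRow i₀
            (fun j => coeff (Finsupp.single j 1) f) := by
        ext i j
        by_cases hi : i = i₀
        · subst hi
          simp [hy]
        · rw [Matrix.updateRow_ne hi]
          simp only [hy, Matrix.of_apply, Function.update_of_ne hi, Matrix.one_apply]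
          rw [coeff_X]
          by_cases hij : i = j
          · subst hij; simp
          · rw [if_neg hij, if_neg]
            intro h
            exact hij ((Finsupp.single_left_inj one_ne_zero).mp h).symm
      rw [h3]
      have h4 := Matrix.det_updateRow_sum (1 : Matrix (Fin n) (Fin n) K) i₀
        (fun j => coeff (Finsupp.single j 1) f)
      have h5 : (∑ k, coeff (Finsupp.single k 1) f • (1 : Matrix (Fin n) (Fin n) K) k) =
          fun j => coeff (Finsupp.single j 1) f := by
        funext j
        simp [Finset.sum_apply, Matrix.one_apply]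
      rw [h5] at h4
      rw [h4]
      simpa using hi₀
  obtain ⟨τ, hτ⟩ := exists_algEquiv y hspan
  refine smoothIdeal_isPrime {i₀} (Ideal.span {f}) ⟨τ, ?_⟩
  have h5 : coordIdeal K {i₀} = Ideal.span {(X i₀ : MvPowerSeries (Fin n) K)} := by
    simp [coordIdeal]
  have h6 : Ideal.map τ (Ideal.span {(X i₀ : MvPowerSeries (Fin n) K)}) =
      Ideal.span {τ (X i₀)} := by
    rw [Ideal.map_span, Set.image_singleton]
  rw [h5, h6, hτ]
  simp [hy]

/-- the linear coefficients are the values of the derivatives -/
private theorem NonSD_coeff {n : ℕ} {K : Type} [Field K] (f : MvPowerSeries (Fin n) K)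
    (j : Fin n) : constantCoeff (pderiv K j f) = coeff (Finsupp.single j 1) f := by
  rw [← coeff_zero_eq_constantCoeff_apply, coeff_pderiv, zero_add, Finsupp.zero_apply,
    Nat.cast_zero, zero_add, mul_one]

/-- a series which vanishes together with its derivatives has order at least two -/
private theorem NonSD_sq {n : ℕ} {K : Type} [Field K] (f : MvPowerSeries (Fin n) K)
    (h0 : constantCoeff f = 0) (h1 : ∀ j, constantCoeff (pderiv K j f) = 0) :
    f ∈ IsLocalRing.maximalIdeal (MvPowerSeries (Fin n) K) ^ 2 := by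
  classical
  rw [mem_maximalIdeal_pow_iff]
  intro α hα
  have hc : (∑ i, α i) = 0 ∨ (∑ i, α i) = 1 := by omega
  rcases hc with hc | hc
  · have : α = 0 := by
      ext i
      simpa using Finset.sum_eq_zero_iff.mp hc i (Finset.mem_univ i)
    subst this
    simpa using h0
  · obtain ⟨i, hi⟩ : ∃ i, α i ≠ 0 := by
      by_contra hall
      push Not at hall
      rw [Finset.sum_eq_zero (fun i _ => hall i)] at hc
      omega
    have h3 : α = Finsupp.single i 1 := by
      ext j
      by_cases hj : j = i
      · subst hj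
        have := Finset.single_le_sum (f := fun i => α i) (fun i _ => Nat.zero_le _)
          (Finset.mem_univ j)
        rw [Finsupp.single_eq_same]
        omega
      · have h4 := Finset.sum_le_sum_of_subset (f := fun i => α i)
          (Finset.subset_univ ({i, j} : Finset (Fin n)))
        rw [Finset.sum_pair (Ne.symm hj)] at h4
        rw [Finsupp.single_eq_of_ne hj]
        omega
    rw [h3, ← NonSD_coeff]
    exact h1 i

/-- two rows proportional to one vector -/
private theorem NonSD_det {n : ℕ} {K : Type} [Field K] (M : Matrix (Fin n) (Fin n) K)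
    {a b : Fin n} (hab : a ≠ b) (v : Fin n → K) (c d : K) (ha : ∀ j, M a j = c * v j)
    (hb : ∀ j, M b j = d * v j) : M.det = 0 := by
  classical
  by_cases hc : c = 0
  · exact Matrix.det_eq_zero_of_row_eq_zero a fun j => by rw [ha, hc, zero_mul]
  · rw [← Matrix.det_updateRow_add_smul_self M hab.symm (-(d / c))]
    refine Matrix.det_eq_zero_of_row_eq_zero b fun j => ?_
    rw [Matrix.updateRow_self, Pi.add_apply, Pi.smul_apply, smul_eq_mul, ha, hb]
    field_simp
    ring

theorem non_sd {n : ℕ} {L Λ : Type} [Field L] [Field Λ] [CharZero L] [CharZero Λ]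
    (Ey : MvPowerSeries (Fin n) L →+* MvPowerSeries (Fin n) Λ)
    (hEy : ∀ i h, Ey (pderiv L i h) = pderiv Λ i (Ey h))
    (A : Finset (Fin n)) (hA : 2 ≤ A.card) (b' : Ideal (MvPowerSeries (Fin n) L))
    (hb : SmoothIdeal A b') (hker : ∀ h, constantCoeff (Ey h) = 0 ↔ h ∈ b')
    (g D : MvPowerSeries (Fin n) L) (hg : D ∈ Ideal.span {g})
    (hsing : singIdeal g ≤ b') (hrad : b' ≤ (singIdeal g).radical)
    (ξ : MvPowerSeries (Fin n) Λ)
    (hξ : ξ ∈ IsLocalRing.maximalIdeal (MvPowerSeries (Fin n) Λ))
    (hξ' : ξ ∉ IsLocalRing.maximalIdeal (MvPowerSeries (Fin n) Λ) ^ 2)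
    (hD : ∃ N, Ey D ∣ ξ ^ N) : False := by
  classical
  have hdom : IsDomain (MvPowerSeries (Fin n) Λ) := Regular_domain
  have hξP := NonSD_prime ξ hξ hξ'
  have hξ0 : ξ ≠ 0 := by
    rintro rfl
    exact hξ' (Ideal.zero_mem _)
  have hprime : Prime ξ := (Ideal.span_singleton_prime hξ0).1 hξP
  -- the order of `Ey g`
  have hgmem : g ∈ singIdeal g := Ideal.subset_span (Or.inl rfl)
  have hdmem : ∀ j, pderiv L j g ∈ singIdeal g := fun j => Ideal.subset_span (Or.inr ⟨j, rfl⟩)
  have hg2 : Ey g ∈ IsLocalRing.maximalIdeal (MvPowerSeries (Fin n) Λ) ^ 2 := by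
    refine NonSD_sq _ ((hker g).2 (hsing hgmem)) fun j => ?_
    rw [← hEy]
    exact (hker _).2 (hsing (hdmem j))
  obtain ⟨N, hN⟩ := hD
  obtain ⟨c, hc⟩ := Ideal.mem_span_singleton.1 hg
  have hdvd : Ey g ∣ ξ ^ N := by
    refine dvd_trans ?_ hN
    rw [hc, map_mul]
    exact dvd_mul_right _ _
  obtain ⟨a, -, hassoc⟩ := (dvd_prime_pow hprime N).1 hdvd
  obtain ⟨u, hu⟩ := hassoc.symm
  have hg1 : Ey g ∈ IsLocalRing.maximalIdeal (MvPowerSeries (Fin n) Λ) :=
    Ideal.pow_le_self two_ne_zero hg2
  have ha2 : 2 ≤ a := by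
    rcases Nat.lt_or_ge a 2 with h | h
    · exfalso
      interval_cases a
      · rw [pow_zero, one_mul] at hu
        rw [← hu, IsLocalRing.mem_maximalIdeal, mem_nonunits_iff] at hg1
        exact hg1 u.isUnit
      · rw [pow_one] at hu
        apply hξ'
        have h3 : ξ = Ey g * (↑(u⁻¹) : MvPowerSeries (Fin n) Λ) := by
          rw [← hu, mul_assoc, Units.mul_inv, mul_one]
        rw [h3]
        exact Ideal.mul_mem_right _ _ hg2
    · exact h
  obtain ⟨w, hw⟩ : ∃ w, Ey g = ξ * (ξ * w) := by
    refine ⟨ξ ^ (a - 2) * u, ?_⟩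
    rw [← hu]
    have h3 : ξ ^ a = ξ * (ξ * ξ ^ (a - 2)) := by
      rw [← pow_succ', ← pow_succ']
      congr 1
      omega
    rw [h3]
    ring
  -- the singular locus of `g` goes into `(ξ)`
  have hle : singIdeal g ≤ Ideal.comap Ey (Ideal.span {ξ}) := by
    unfold singIdeal
    rw [Ideal.span_le]
    rintro z (hz | ⟨j, rfl⟩)
    · rw [Set.mem_singleton_iff] at hz
      rw [hz, SetLike.mem_coe, Ideal.mem_comap, Ideal.mem_span_singleton, hw]
      exact dvd_mul_right _ _
    · show pderiv L j g ∈ Ideal.comap Ey (Ideal.span {ξ})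
      rw [Ideal.mem_comap, Ideal.mem_span_singleton, hEy, hw, Derivation.leibniz, smul_eq_mul,
        smul_eq_mul]
      refine dvd_add (dvd_mul_right _ _) ?_
      rw [mul_assoc]
      exact dvd_mul_right _ _
  have hbP : b' ≤ Ideal.comap Ey (Ideal.span {ξ}) := by
    have h3 : (Ideal.comap Ey (Ideal.span {ξ})).IsPrime := Ideal.comap_isPrime Ey _
    exact hrad.trans (h3.radical_le_iff.2 hle)
  -- the Jacobian matrix
  obtain ⟨τ, hτ⟩ := hb
  have hspan : Ideal.span (Set.range fun i => τ (X i)) =
      IsLocalRing.maximalIdeal (MvPowerSeries (Fin n) L) := by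
    have h3 : IsLocalRing.maximalIdeal (MvPowerSeries (Fin n) L) =
        Ideal.map τ (IsLocalRing.maximalIdeal (MvPowerSeries (Fin n) L)) := by
      ext z
      obtain ⟨z, rfl⟩ := τ.surjective z
      rw [mem_map_algEquiv]
      have h4 := algEquiv_mem_maximalIdeal_pow τ.toRingEquiv 1 z
      rw [pow_one] at h4
      constructor
      · intro h5
        exact h4.1 (by simpa using h5)
      · intro h5
        simpa using h4.2 h5
    rw [h3, maximalIdeal_eq_span_X, Ideal.map_span, ← Set.range_comp]
    rfl
  obtain ⟨-, hdet⟩ := linear_of_span_eq _ hspan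
  set J : Matrix (Fin n) (Fin n) (MvPowerSeries (Fin n) L) :=
    Matrix.of fun i j => pderiv L j (τ (X i)) with hJ
  have hJu : IsUnit J.det := by
    rw [MvPowerSeries.isUnit_iff_constantCoeff, isUnit_iff_ne_zero, RingHom.map_det]
    have h3 : (constantCoeff (σ := Fin n) (R := L)).mapMatrix J =
        Matrix.of fun i j => coeff (Finsupp.single j 1) (τ (X i)) := by
      ext i j
      rw [RingHom.mapMatrix_apply, Matrix.map_apply, hJ, Matrix.of_apply, Matrix.of_apply,
        NonSD_coeff]
    rw [h3]
    exact hdet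
  have hJv : IsUnit (constantCoeff (Ey J.det)) := (hJu.map Ey).map _
  have hJz : constantCoeff (Ey J.det) = 0 := by
    have h3 : constantCoeff (Ey J.det) =
        (((constantCoeff (σ := Fin n) (R := Λ)).comp Ey).mapMatrix J).det := by
      rw [← RingHom.map_det]
      rfl
    rw [h3]
    obtain ⟨a₁, h1, a₂, h2, hne⟩ := Finset.one_lt_card.1 (show 1 < A.card by omega)
    have hrow : ∀ i ∈ A, ∃ c : Λ, ∀ j,
        (((constantCoeff (σ := Fin n) (R := Λ)).comp Ey).mapMatrix J) i j =
          c * constantCoeff (pderiv Λ j ξ) := by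
      intro i hi
      have h4 : τ (X i) ∈ b' := by
        rw [hτ]
        exact Ideal.mem_map_of_mem τ (Ideal.subset_span ⟨i, hi, rfl⟩)
      obtain ⟨e, he⟩ := Ideal.mem_span_singleton.1 (Ideal.mem_comap.1 (hbP h4))
      refine ⟨constantCoeff e, fun j => ?_⟩
      rw [RingHom.mapMatrix_apply, Matrix.map_apply, hJ, Matrix.of_apply, RingHom.comp_apply,
        hEy, he, Derivation.leibniz, smul_eq_mul, smul_eq_mul, map_add, map_mul, map_mul,
        (mem_maximalIdeal_iff_constantCoeff ξ).1 hξ, zero_mul, zero_add]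
    obtain ⟨c₁, hc₁⟩ := hrow a₁ h1
    obtain ⟨c₂, hc₂⟩ := hrow a₂ h2
    exact NonSD_det _ hne _ c₁ c₂ hc₁ hc₂
  rw [hJz] at hJv
  exact not_isUnit_zero hJv

end Pool.Agent.Helper38.EQ
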