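import Pool.Agent.Helper38.EQ.JungRoots
import Pool.Agent.Helper38.EQ.Deriv

/-!
# EQ-Z2b (polar locus of an arbitrary transversal direction)

`T = PowerSeries (PowerSeries κ) = κ⟦ξ⟧⟦z⟧`, `κ = Λ⟦t_1..t_d⟧`; `m = F.natDegree ≥ 1`.
Let `N`, `η` be as in `jung_splits` and `T' = κ⟦η⟧⟦z⟧`, `T → T'` the map `ξ ↦ η^N`
(`PowerSeries.map (expand N)`), which is finite free with basis `1, η, .., η^(N-1)`, so integral:
lying over holds.  Over `κ⟦η⟧`, `F' = ∏_{j<m} (z - ζ_j)`.
`hco` says that `ξ^j` divides the coefficient `a_j` of `z^(m-j)`: write `a_j = ξ^j α_j`.  So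
`G(w) = w^m + ∑ α_j w^(m-j)` satisfies `F(ξ w) = ξ^m G(w)`, and `ζ_j = η^N ω_j` with `ω_j` the roots
of `G'` (`κ⟦η⟧` is a domain and `G'` splits as well: if `ζ` is a root of `F'` then
`η^N ∣ ζ` because `κ⟦η⟧` is integrally closed, or because by comparing orders at the prime `η`).
Transversality: let `a, b ∈ Λ` be the coefficients of `s` in `γ z` and `γ ξ` (`γ` is the arc).
The coefficient of `s^m` in `γ F = (γ z)^m + ∑ γ(α_j) (γ ξ)^j (γ z)^(m-j)` is
`a^m + ∑ α_j(0) b^j a^(m-j) = ∏_j (a - ω_j(0) b)`, non zero by `hγF`.  So `a - ω_j(0) b ≠ 0`.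
Derivation: by `derivation_apply` (transported to `T` by `finSuccEquiv` twice) `δ` is
`v_z ∂_z + v_ξ ∂_ξ + ∑ v_i ∂_{t_i}` with `v_z = δ z`, `v_ξ = δ ξ`; from `γ (δ h) = (γ h)'` the constant
coefficients of `v_z`, `v_ξ` are `a`, `b`.
In `T'` (images denoted by a prime): `(∂_z F)' = ∂_z F'`, `(∂_t F)' = ∂_t F'`,
`N η^(N-1) (∂_ξ F)' = ∂_η F'`; and modulo `z - ζ_j`, with `Π_j = ∏_{k≠j} (ζ_j - ζ_k)`:
`∂_z F' ≡ Π_j`, `∂_η F' ≡ - (∂_η ζ_j) Π_j`, `∂_t F' ≡ - (∂_t ζ_j) Π_j`.  Hence
`N η^N (δF)' ≡ Π_j η^N W_j`,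
`W_j = N v_z' - v_ξ' (N ω_j + η ∂_η ω_j) - N ∑ v_i' η^N ∂_{t_i} ω_j`, whose constant coefficient is
`N (a - ω_j(0) b) ≠ 0`: `W_j` is a unit.
Let `q ⊇ {F, δF}` be a prime of `T` and `q'` a prime of `T'` over it.  `∏ (z - ζ_j) ∈ q'`, so
`z - ζ_j ∈ q'` for some `j`, so `Π_j η^N W_j ∈ q'`: `η ∈ q'` or `Π_j ∈ q'`; in the second case
`discr F' = ± ∏_k Π_k ∈ q'` and it is `η^(N e)` times a unit, so `η ∈ q'` again.  So
`ξ = η^N ∈ q' ∩ T = q`.  As `q` is arbitrary, `ξ` is in the radical.
-/

namespace Pool.Agent.Helper38.EQ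

open MvPowerSeries

section PolarAux

variable {d : ℕ} {Λ : Type} [Field Λ]

/-- the derivations along the variables of `κ⟦ξ⟧` -/
private noncomputable def Polar_D (i : Fin (d + 1)) :
    Derivation Λ (PowerSeries (MvPowerSeries (Fin d) Λ)) (PowerSeries (MvPowerSeries (Fin d) Λ)) :=
  Derivation.mk'
    { toFun := fun a => finSuccEquiv Λ d (pderiv Λ i ((finSuccEquiv Λ d).symm a))
      map_add' := fun a b => by rw [map_add, map_add, map_add]
      map_smul' := fun c a => by
        rw [map_smul, Derivation.map_smul, map_smul, RingHom.id_apply] }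
    (fun a b => by
      show finSuccEquiv Λ d (pderiv Λ i ((finSuccEquiv Λ d).symm (a * b))) =
        a • finSuccEquiv Λ d (pderiv Λ i ((finSuccEquiv Λ d).symm b)) +
        b • finSuccEquiv Λ d (pderiv Λ i ((finSuccEquiv Λ d).symm a))
      rw [map_mul, Derivation.leibniz, map_add, smul_eq_mul, smul_eq_mul, map_mul, map_mul,
        AlgEquiv.apply_symm_apply, AlgEquiv.apply_symm_apply, smul_eq_mul, smul_eq_mul])

private theorem Polar_D_apply (i : Fin (d + 1)) (a : PowerSeries (MvPowerSeries (Fin d) Λ)) :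
    Polar_D i a = finSuccEquiv Λ d (pderiv Λ i ((finSuccEquiv Λ d).symm a)) := rfl

private theorem Polar_D_zero (a : PowerSeries (MvPowerSeries (Fin d) Λ)) :
    Polar_D 0 a = PowerSeries.derivative (MvPowerSeries (Fin d) Λ) a := by
  classical
  obtain ⟨p, rfl⟩ := (finSuccEquiv Λ d).surjective a
  rw [Polar_D_apply, AlgEquiv.symm_apply_apply]
  ext k x
  rw [coeff_coeff_finSuccEquiv, coeff_pderiv, PowerSeries.coeff_derivative]
  have h1 : x.cons k + Finsupp.single 0 1 = (x.cons (k + 1) : Fin (d + 1) →₀ ℕ) := by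
    ext j
    refine Fin.cases ?_ (fun j => ?_) j
    · simp
    · simp
  rw [h1, ← coeff_coeff_finSuccEquiv]
  have h2 : ((k : MvPowerSeries (Fin d) Λ) + 1) = C ((k : Λ) + 1) := by simp
  rw [h2, MvPowerSeries.coeff_mul_C]
  simp

private theorem Polar_D_succ (i : Fin d) (a : PowerSeries (MvPowerSeries (Fin d) Λ)) (k : ℕ) :
    PowerSeries.coeff k (Polar_D i.succ a) = pderiv Λ i (PowerSeries.coeff k a) := by
  classical
  obtain ⟨p, rfl⟩ := (finSuccEquiv Λ d).surjective a
  rw [Polar_D_apply, AlgEquiv.symm_apply_apply]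
  ext x
  rw [coeff_coeff_finSuccEquiv, coeff_pderiv, coeff_pderiv, coeff_coeff_finSuccEquiv]
  have h1 : x.cons k + Finsupp.single i.succ 1 =
      ((x + Finsupp.single i 1).cons k : Fin (d + 1) →₀ ℕ) := by
    ext j
    refine Fin.cases ?_ (fun j => ?_) j
    · simp
    · simp [Finsupp.single_apply]
  rw [h1]
  simp

/-- a derivation on constants -/
private theorem Polar_formula
    (δ : Derivation Λ (PowerSeries (PowerSeries (MvPowerSeries (Fin d) Λ)))
      (PowerSeries (PowerSeries (MvPowerSeries (Fin d) Λ))))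
    (a : PowerSeries (MvPowerSeries (Fin d) Λ)) :
    δ (PowerSeries.C a) = ∑ i, PowerSeries.C (Polar_D i a) *
      δ (PowerSeries.C (finSuccEquiv Λ d (X i))) := by
  classical
  obtain ⟨p, rfl⟩ := (finSuccEquiv Λ d).surjective a
  ext1 k
  let δk : Derivation Λ (MvPowerSeries (Fin (d + 1)) Λ) (MvPowerSeries (Fin (d + 1)) Λ) :=
    Derivation.mk'
      { toFun := fun f => (finSuccEquiv Λ d).symm
          (PowerSeries.coeff k (δ (PowerSeries.C (finSuccEquiv Λ d f))))
        map_add' := fun f g => by rw [map_add, map_add, map_add, map_add, map_add]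
        map_smul' := fun c f => by
          rw [map_smul, RingHom.id_apply]
          have h1 : PowerSeries.C (c • finSuccEquiv Λ d f) =
              c • PowerSeries.C (finSuccEquiv Λ d f) := by
            ext n
            rw [PowerSeries.coeff_smul, PowerSeries.coeff_C, PowerSeries.coeff_C]
            split_ifs
            · rfl
            · rw [smul_zero]
          rw [h1, Derivation.map_smul, PowerSeries.coeff_smul, map_smul] }
      (fun f g => by
        show (finSuccEquiv Λ d).symm
            (PowerSeries.coeff k (δ (PowerSeries.C (finSuccEquiv Λ d (f * g))))) =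
          f • (finSuccEquiv Λ d).symm
            (PowerSeries.coeff k (δ (PowerSeries.C (finSuccEquiv Λ d g)))) +
          g • (finSuccEquiv Λ d).symm
            (PowerSeries.coeff k (δ (PowerSeries.C (finSuccEquiv Λ d f))))
        rw [map_mul, map_mul, Derivation.leibniz, smul_eq_mul, smul_eq_mul, map_add,
          PowerSeries.coeff_C_mul, PowerSeries.coeff_C_mul, map_add, map_mul, map_mul,
          AlgEquiv.symm_apply_apply, AlgEquiv.symm_apply_apply, smul_eq_mul, smul_eq_mul])
  have hδk : ∀ f, δk f = (finSuccEquiv Λ d).symm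
          (PowerSeries.coeff k (δ (PowerSeries.C (finSuccEquiv Λ d f)))) := fun f => rfl
  have h1 := congrArg (finSuccEquiv Λ d) (derivation_apply δk p)
  rw [hδk, AlgEquiv.apply_symm_apply] at h1
  rw [h1, map_sum, map_sum]
  refine Finset.sum_congr rfl fun i _ => ?_
  rw [map_mul, hδk, AlgEquiv.apply_symm_apply, PowerSeries.coeff_C_mul, Polar_D_apply,
    AlgEquiv.symm_apply_apply, mul_comm]

/-- the multiples of the derivations used after the base change -/
private noncomputable def Polar_E (N : ℕ) (i : Fin (d + 1)) :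
    Derivation Λ (PowerSeries (MvPowerSeries (Fin d) Λ)) (PowerSeries (MvPowerSeries (Fin d) Λ)) :=
  (Fin.cases (PowerSeries.X : PowerSeries (MvPowerSeries (Fin d) Λ))
    (fun _ => (N : PowerSeries (MvPowerSeries (Fin d) Λ)) * PowerSeries.X ^ N) i :
    PowerSeries (MvPowerSeries (Fin d) Λ)) • Polar_D i

private theorem Polar_E_zero (N : ℕ) (a : PowerSeries (MvPowerSeries (Fin d) Λ)) :
    Polar_E N 0 a = PowerSeries.X * PowerSeries.derivative (MvPowerSeries (Fin d) Λ) a := by
  unfold Polar_E
  rw [Derivation.smul_apply, Polar_D_zero, smul_eq_mul]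
  rfl

private theorem Polar_E_succ (N : ℕ) (i : Fin d) (a : PowerSeries (MvPowerSeries (Fin d) Λ)) :
    Polar_E N i.succ a = (N : PowerSeries (MvPowerSeries (Fin d) Λ)) * PowerSeries.X ^ N *
      Polar_D i.succ a := by
  unfold Polar_E
  rw [Derivation.smul_apply, smul_eq_mul]
  rfl

private theorem Polar_E_expand (N : ℕ) (hN : N ≠ 0) (i : Fin (d + 1))
    (a : PowerSeries (MvPowerSeries (Fin d) Λ)) :
    Polar_E N i (PowerSeries.expand N hN a) =
      (N : PowerSeries (MvPowerSeries (Fin d) Λ)) * PowerSeries.X ^ N *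
        PowerSeries.expand N hN (Polar_D i a) := by
  classical
  refine Fin.cases ?_ (fun i => ?_) i
  · rw [Polar_E_zero, Polar_D_zero]
    have h1 : PowerSeries.derivative (MvPowerSeries (Fin d) Λ) (PowerSeries.expand N hN a) =
        PowerSeries.expand N hN (PowerSeries.derivative (MvPowerSeries (Fin d) Λ) a) *
          PowerSeries.derivative (MvPowerSeries (Fin d) Λ) (PowerSeries.X ^ N) := by
      rw [PowerSeries.expand_apply, PowerSeries.expand_apply, PowerSeries.derivative_subst]
      exact PowerSeries.HasSubst.X_pow hN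
    rw [h1, PowerSeries.derivative_pow, PowerSeries.derivative_X]
    have h2 : (PowerSeries.X : PowerSeries (MvPowerSeries (Fin d) Λ)) ^ N =
        PowerSeries.X * PowerSeries.X ^ (N - 1) := by
      rw [← pow_succ']
      congr 1
      omega
    rw [h2]
    ring
  · rw [Polar_E_succ]
    congr 1
    ext1 k
    rw [Polar_D_succ, PowerSeries.coeff_expand, PowerSeries.coeff_expand]
    split_ifs
    · rw [Polar_D_succ]
    · rw [map_zero]

end PolarAux

/-- differentiating a polynomial identity -/
private theorem Polar_eval {A : Type} [CommRing A] {R : Type} [CommRing R] [Algebra R A]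
    (D : Derivation R A A) (P : Polynomial A) (x : A) (m : ℕ) (hm : P.natDegree ≤ m) :
    D (P.eval x) = (∑ k ∈ Finset.range (m + 1), Polynomial.monomial k (D (P.coeff k))).eval x +
      P.derivative.eval x * D x := by
  have h1 : P.eval x = ∑ k ∈ Finset.range (m + 1), P.coeff k * x ^ k :=
    Polynomial.eval_eq_sum_range' (Nat.lt_succ_of_le hm) x
  have h2 : P.derivative.eval x = ∑ k ∈ Finset.range (m + 1), P.coeff k * (k * x ^ (k - 1)) := by
    rw [Polynomial.derivative_eval, Polynomial.sum_over_range' _ _ _ (Nat.lt_succ_of_le hm)]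
    · refine Finset.sum_congr rfl fun k _ => ?_
      ring
    · intro n
      ring
  rw [h1, h2, map_sum, Polynomial.eval_finsetSum, Finset.sum_mul, ← Finset.sum_add_distrib]
  refine Finset.sum_congr rfl fun k _ => ?_
  rw [Polynomial.eval_monomial, Derivation.leibniz, Derivation.leibniz_pow, smul_eq_mul,
    smul_eq_mul, nsmul_eq_mul, smul_eq_mul]
  ring

/-- roots are divisible -/
private theorem Polar_root_dvd {κ : Type} [CommRing κ] [IsDomain κ] (P : Polynomial (PowerSeries κ))
    (hP : P.Monic) (N : ℕ)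
    (hco : ∀ i < P.natDegree, (PowerSeries.X : PowerSeries κ) ^ (N * (P.natDegree - i)) ∣ P.coeff i)
    (ζ : PowerSeries κ) (hζ : P.eval ζ = 0) :
    (PowerSeries.X : PowerSeries κ) ^ N ∣ ζ := by
  set m := P.natDegree with hm
  have h0 : ζ ^ m = - ∑ i ∈ Finset.range m, P.coeff i * ζ ^ i := by
    rw [Polynomial.eval_eq_sum_range, Finset.sum_range_succ, ← hm] at hζ
    have h1 : P.coeff m = 1 := by rw [hm, Polynomial.coeff_natDegree, hP.leadingCoeff]
    rw [h1, one_mul] at hζ
    exact eq_neg_of_add_eq_zero_right hζ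
  have key : ∀ k ≤ N, (PowerSeries.X : PowerSeries κ) ^ k ∣ ζ := by
    intro k
    induction k with
    | zero => intro _; rw [pow_zero]; exact one_dvd _
    | succ k ih =>
      intro hk
      obtain ⟨u, hu⟩ := ih (by omega)
      have h1 : (PowerSeries.X : PowerSeries κ) ^ (k * m + 1) ∣ ζ ^ m := by
        rw [h0]
        refine (Dvd.dvd.neg_right (Finset.dvd_sum fun i hi => ?_))
        rw [Finset.mem_range] at hi
        have h2 : (PowerSeries.X : PowerSeries κ) ^ (N * (m - i) + k * i) ∣
            P.coeff i * ζ ^ i := by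
          rw [pow_add]
          refine mul_dvd_mul (hco i hi) ?_
          rw [pow_mul]
          exact pow_dvd_pow_of_dvd ⟨u, hu⟩ i
        refine dvd_trans (pow_dvd_pow _ ?_) h2
        obtain ⟨j, hj⟩ : ∃ j, m = i + j := ⟨m - i, by omega⟩
        have hj0 : 0 < j := by omega
        have e1 : m - i = j := by omega
        rw [e1, hj]
        have e2 : (k + 1) * j ≤ N * j := Nat.mul_le_mul_right _ hk
        nlinarith
      rw [hu, mul_pow, ← pow_mul, pow_succ] at h1
      have h2 := (mul_dvd_mul_iff_left (pow_ne_zero _ PowerSeries.X_ne_zero)).1 h1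
      have h3 := PowerSeries.X_prime.dvd_of_dvd_pow h2
      rw [hu, pow_succ]
      exact mul_dvd_mul_left _ h3
  exact key N le_rfl

/-- the retraction of the base change, first level -/
private noncomputable def Polar_r0 {κ : Type} [CommRing κ] (N : ℕ) (g : PowerSeries κ) :
    PowerSeries κ := PowerSeries.mk fun n => PowerSeries.coeff (N * n) g

private theorem Polar_r0_add {κ : Type} [CommRing κ] (N : ℕ) (g h : PowerSeries κ) :
    Polar_r0 N (g + h) = Polar_r0 N g + Polar_r0 N h := by
  ext n
  simp [Polar_r0]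

private theorem Polar_r0_mul {κ : Type} [CommRing κ] (N : ℕ) (hN : N ≠ 0) (a g : PowerSeries κ) :
    Polar_r0 N (PowerSeries.expand N hN a * g) = a * Polar_r0 N g := by
  classical
  ext n
  rw [Polar_r0, PowerSeries.coeff_mk, PowerSeries.coeff_mul, PowerSeries.coeff_mul]
  symm
  apply Finset.sum_of_injOn (fun p : ℕ × ℕ => (N * p.1, N * p.2))
  · intro p _ q _ h
    have h1 : N * p.1 = N * q.1 := congrArg Prod.fst h
    have h2 : N * p.2 = N * q.2 := congrArg Prod.snd h
    exact Prod.ext (Nat.eq_of_mul_eq_mul_left (Nat.pos_of_ne_zero hN) h1)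
      (Nat.eq_of_mul_eq_mul_left (Nat.pos_of_ne_zero hN) h2)
  · intro p hp
    rw [Finset.mem_coe, Finset.HasAntidiagonal.mem_antidiagonal] at hp ⊢
    rw [← hp]
    ring
  · intro p hp hn
    rw [Finset.HasAntidiagonal.mem_antidiagonal] at hp
    rw [PowerSeries.coeff_expand_of_not_dvd, zero_mul]
    intro hd
    apply hn
    obtain ⟨u, hu⟩ := hd
    have hv : N ∣ p.2 := by
      have h1 : N ∣ p.1 + p.2 := by rw [hp]; exact dvd_mul_right _ _
      exact (Nat.dvd_add_right ⟨u, hu⟩).mp h1
    obtain ⟨v, hv⟩ := hv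
    refine ⟨(u, v), ?_, Prod.ext hu.symm hv.symm⟩
    rw [Finset.mem_coe, Finset.HasAntidiagonal.mem_antidiagonal]
    rw [hu, hv, ← mul_add] at hp
    exact Nat.eq_of_mul_eq_mul_left (Nat.pos_of_ne_zero hN) hp
  · intro p _
    rw [PowerSeries.coeff_expand_mul, Polar_r0, PowerSeries.coeff_mk]

/-- the retraction of the base change -/
private noncomputable def Polar_r {κ : Type} [CommRing κ] (N : ℕ)
    (g : PowerSeries (PowerSeries κ)) : PowerSeries (PowerSeries κ) :=
  PowerSeries.mk fun n => Polar_r0 N (PowerSeries.coeff n g)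

private theorem Polar_r_add {κ : Type} [CommRing κ] (N : ℕ) (g h : PowerSeries (PowerSeries κ)) :
    Polar_r N (g + h) = Polar_r N g + Polar_r N h := by
  ext1 n
  rw [map_add, Polar_r, Polar_r, Polar_r, PowerSeries.coeff_mk, PowerSeries.coeff_mk,
    PowerSeries.coeff_mk, map_add, Polar_r0_add]

private theorem Polar_r_mul {κ : Type} [CommRing κ] (N : ℕ) (hN : N ≠ 0)
    (a g : PowerSeries (PowerSeries κ)) :
    Polar_r N (PowerSeries.map (PowerSeries.expand N hN : PowerSeries κ →ₐ[κ] _).toRingHom a * g) =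
      a * Polar_r N g := by
  classical
  ext1 n
  rw [Polar_r, PowerSeries.coeff_mk, PowerSeries.coeff_mul, PowerSeries.coeff_mul]
  have hs : ∀ (s : Finset (ℕ × ℕ)) (f : ℕ × ℕ → PowerSeries κ),
      Polar_r0 N (∑ p ∈ s, f p) = ∑ p ∈ s, Polar_r0 N (f p) := by
    intro s f
    refine Finset.induction_on s ?_ ?_
    · rw [Finset.sum_empty, Finset.sum_empty]
      ext n
      simp [Polar_r0]
    · intro p s hp ih
      rw [Finset.sum_insert hp, Finset.sum_insert hp, Polar_r0_add, ih]
  rw [hs]
  refine Finset.sum_congr rfl fun p _ => ?_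
  rw [PowerSeries.coeff_map, Polar_r, PowerSeries.coeff_mk]
  exact Polar_r0_mul N hN _ _

private theorem Polar_r_map {κ : Type} [CommRing κ] (N : ℕ) (hN : N ≠ 0)
    (a : PowerSeries (PowerSeries κ)) :
    Polar_r N (PowerSeries.map (PowerSeries.expand N hN : PowerSeries κ →ₐ[κ] _).toRingHom a) =
      a := by
  have h := Polar_r_mul N hN a 1
  rw [mul_one] at h
  rw [h]
  have h1 : Polar_r N (1 : PowerSeries (PowerSeries κ)) = 1 := by
    ext n k
    rw [Polar_r, PowerSeries.coeff_mk, Polar_r0, PowerSeries.coeff_mk, PowerSeries.coeff_one]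
    split_ifs with h2
    · rw [PowerSeries.coeff_one, PowerSeries.coeff_one]
      have h3 : N * k = 0 ↔ k = 0 := by
        rw [Nat.mul_eq_zero]
        exact ⟨fun h => h.resolve_left hN, fun h => Or.inr h⟩
      simp only [h3]
    · simp
  rw [h1, mul_one]

/-- contraction of ideals generated by two elements -/
private theorem Polar_contract {κ : Type} [CommRing κ] (N : ℕ) (hN : N ≠ 0)
    (a b g : PowerSeries (PowerSeries κ))
    (h : PowerSeries.map (PowerSeries.expand N hN : PowerSeries κ →ₐ[κ] _).toRingHom g ∈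
      Ideal.span {PowerSeries.map (PowerSeries.expand N hN : PowerSeries κ →ₐ[κ] _).toRingHom a,
        PowerSeries.map (PowerSeries.expand N hN : PowerSeries κ →ₐ[κ] _).toRingHom b}) :
    g ∈ Ideal.span {a, b} := by
  rw [Ideal.mem_span_pair] at h ⊢
  obtain ⟨x, y, hxy⟩ := h
  refine ⟨Polar_r N x, Polar_r N y, ?_⟩
  have h1 := congrArg (Polar_r N) hxy
  rw [Polar_r_map, mul_comm x, mul_comm y, Polar_r_add, Polar_r_mul, Polar_r_mul] at h1
  rw [← h1]
  ring


private theorem Polar_coe {R : Type} [CommRing R] (P : Polynomial R) (m : ℕ)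
    (hm : P.natDegree ≤ m) :
    (P : PowerSeries R) = ∑ k ∈ Finset.range (m + 1),
      PowerSeries.C (P.coeff k) * PowerSeries.X ^ k := by
  classical
  ext n
  rw [Polynomial.coeff_coe, map_sum]
  simp only [PowerSeries.coeff_C_mul, PowerSeries.coeff_X_pow, mul_ite, mul_one, mul_zero]
  rw [Finset.sum_ite_eq]
  split_ifs with h
  · rfl
  · rw [Finset.mem_range, Nat.lt_succ_iff, not_le] at h
    exact Polynomial.coeff_eq_zero_of_natDegree_lt (lt_of_le_of_lt hm h)

private theorem Polar_coe_deriv {R : Type} [CommRing R] (P : Polynomial R) (m : ℕ)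
    (hm : P.natDegree ≤ m) :
    (P.derivative : PowerSeries R) = ∑ k ∈ Finset.range (m + 1),
      PowerSeries.C (P.coeff k) * ((k : PowerSeries R) * PowerSeries.X ^ (k - 1)) := by
  rw [← PowerSeries.derivative_coe, Polar_coe P m hm, map_sum]
  refine Finset.sum_congr rfl fun k _ => ?_
  rw [Derivation.leibniz, PowerSeries.derivative_C, smul_zero, add_zero, smul_eq_mul,
    PowerSeries.derivative_pow, PowerSeries.derivative_X, mul_one]

private theorem Polar_mod {R : Type} [CommRing R] (P : Polynomial R) (x : R)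
    (q : Ideal (PowerSeries R)) (hq : (PowerSeries.X : PowerSeries R) - PowerSeries.C x ∈ q) :
    (P : PowerSeries R) - PowerSeries.C (P.eval x) ∈ q := by
  obtain ⟨Q, hQ⟩ := Polynomial.X_sub_C_dvd_sub_C_eval (a := x) (p := P)
  have h1 := congrArg (Polynomial.coeToPowerSeries.ringHom (R := R)) hQ
  rw [map_sub, map_mul, map_sub] at h1
  simp only [Polynomial.coeToPowerSeries.ringHom_apply, Polynomial.coe_C, Polynomial.coe_X] at h1
  rw [h1]
  exact Ideal.mul_mem_right _ _ hq

/-- the constant coefficient of the whole ring -/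
private noncomputable def Polar_cc (d : ℕ) (Λ : Type) [Field Λ] :
    PowerSeries (PowerSeries (MvPowerSeries (Fin d) Λ)) →+* Λ :=
  (MvPowerSeries.constantCoeff (σ := Fin d) (R := Λ)).comp
    ((PowerSeries.constantCoeff (R := MvPowerSeries (Fin d) Λ)).comp
      (PowerSeries.constantCoeff (R := PowerSeries (MvPowerSeries (Fin d) Λ))))

private theorem Polar_cc_apply {d : ℕ} {Λ : Type} [Field Λ]
    (t : PowerSeries (PowerSeries (MvPowerSeries (Fin d) Λ))) :
    Polar_cc d Λ t = MvPowerSeries.constantCoeff (PowerSeries.constantCoeff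
      (PowerSeries.constantCoeff t)) := rfl

private theorem Polar_isUnit {d : ℕ} {Λ : Type} [Field Λ]
    (t : PowerSeries (PowerSeries (MvPowerSeries (Fin d) Λ))) (h : Polar_cc d Λ t ≠ 0) :
    IsUnit t := by
  rw [PowerSeries.isUnit_iff_constantCoeff, PowerSeries.isUnit_iff_constantCoeff,
    MvPowerSeries.isUnit_iff_constantCoeff]
  exact isUnit_iff_ne_zero.mpr h

private theorem Polar_gamma {d : ℕ} {Λ : Type} [Field Λ]
    (γ : PowerSeries (PowerSeries (MvPowerSeries (Fin d) Λ)) →ₐ[Λ] PowerSeries Λ)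
    (hγ : ∀ h ∈ IsLocalRing.maximalIdeal (PowerSeries (PowerSeries (MvPowerSeries (Fin d) Λ))),
      γ h ∈ IsLocalRing.maximalIdeal (PowerSeries Λ))
    (t : PowerSeries (PowerSeries (MvPowerSeries (Fin d) Λ))) :
    PowerSeries.constantCoeff (γ t) = Polar_cc d Λ t := by
  have hcc : ∀ c : Λ, Polar_cc d Λ (algebraMap Λ _ c) = c := by
    intro c
    rw [Polar_cc_apply]
    have h1 : (algebraMap Λ (PowerSeries (PowerSeries (MvPowerSeries (Fin d) Λ))) c) =
      PowerSeries.C (PowerSeries.C (MvPowerSeries.C c)) := by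
      rw [PowerSeries.algebraMap_apply, PowerSeries.algebraMap_apply,
        MvPowerSeries.algebraMap_apply]
      rfl
    rw [h1, PowerSeries.constantCoeff_C, PowerSeries.constantCoeff_C,
      MvPowerSeries.constantCoeff_C]
  have h1 : t - algebraMap Λ _ (Polar_cc d Λ t) ∈
      IsLocalRing.maximalIdeal (PowerSeries (PowerSeries (MvPowerSeries (Fin d) Λ))) := by
    rw [IsLocalRing.mem_maximalIdeal, mem_nonunits_iff]
    intro hu
    have h2 := hu.map (Polar_cc d Λ)
    rw [map_sub, hcc, sub_self] at h2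
    exact not_isUnit_zero h2
  have h2 := hγ _ h1
  rw [IsLocalRing.mem_maximalIdeal, mem_nonunits_iff, PowerSeries.isUnit_iff_constantCoeff,
    isUnit_iff_ne_zero, not_not, map_sub, map_sub, AlgHom.commutes] at h2
  have h3 : PowerSeries.constantCoeff (algebraMap Λ (PowerSeries Λ) (Polar_cc d Λ t)) =
      Polar_cc d Λ t := PowerSeries.constantCoeff_C _
  rw [h3] at h2
  exact sub_eq_zero.mp h2

/-- transversality -/
private theorem Polar_trans {d : ℕ} {Λ : Type} [Field Λ]
    (F : Polynomial (PowerSeries (MvPowerSeries (Fin d) Λ))) (m : ℕ) (hm : F.natDegree = m)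
    (β : ℕ → PowerSeries (MvPowerSeries (Fin d) Λ))
    (hβ : ∀ i ≤ m, F.coeff i = PowerSeries.X ^ (m - i) * β i)
    (γ : PowerSeries (PowerSeries (MvPowerSeries (Fin d) Λ)) →ₐ[Λ] PowerSeries Λ)
    (hγ : ∀ h ∈ IsLocalRing.maximalIdeal (PowerSeries (PowerSeries (MvPowerSeries (Fin d) Λ))),
      γ h ∈ IsLocalRing.maximalIdeal (PowerSeries Λ))
    (hγF : PowerSeries.coeff m (γ (F : PowerSeries (PowerSeries
      (MvPowerSeries (Fin d) Λ)))) ≠ 0) :
    ∑ i ∈ Finset.range (m + 1),
      PowerSeries.coeff 1 (γ (PowerSeries.C PowerSeries.X)) ^ (m - i) *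
      MvPowerSeries.constantCoeff (PowerSeries.constantCoeff (β i)) *
      PowerSeries.coeff 1 (γ PowerSeries.X) ^ i ≠ 0 := by
  have hX : ∃ p, γ PowerSeries.X = PowerSeries.X * p ∧
      PowerSeries.constantCoeff p = PowerSeries.coeff 1 (γ PowerSeries.X) := by
    have h1 : (PowerSeries.X : PowerSeries Λ) ∣ γ PowerSeries.X := by
      rw [PowerSeries.X_dvd_iff, Polar_gamma γ hγ, Polar_cc_apply]
      simp
    obtain ⟨p, hp⟩ := h1
    refine ⟨p, hp, ?_⟩
    rw [hp, show (1 : ℕ) = 0 + 1 from rfl, PowerSeries.coeff_succ_X_mul,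
      PowerSeries.coeff_zero_eq_constantCoeff_apply]
  have hξ : ∃ p, γ (PowerSeries.C PowerSeries.X) = PowerSeries.X * p ∧
      PowerSeries.constantCoeff p = PowerSeries.coeff 1 (γ (PowerSeries.C PowerSeries.X)) := by
    have h1 : (PowerSeries.X : PowerSeries Λ) ∣ γ (PowerSeries.C PowerSeries.X) := by
      rw [PowerSeries.X_dvd_iff, Polar_gamma γ hγ, Polar_cc_apply]
      simp
    obtain ⟨p, hp⟩ := h1
    refine ⟨p, hp, ?_⟩
    rw [hp, show (1 : ℕ) = 0 + 1 from rfl, PowerSeries.coeff_succ_X_mul,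
      PowerSeries.coeff_zero_eq_constantCoeff_apply]
  obtain ⟨p, hp, hp0⟩ := hX
  obtain ⟨r, hr, hr0⟩ := hξ
  have h1 : γ (F : PowerSeries (PowerSeries (MvPowerSeries (Fin d) Λ))) =
      PowerSeries.X ^ m * ∑ i ∈ Finset.range (m + 1), r ^ (m - i) *
        γ (PowerSeries.C (β i)) * p ^ i := by
    rw [Polar_coe F m hm.le, map_sum, Finset.mul_sum]
    refine Finset.sum_congr rfl fun i hi => ?_
    have hi' : i ≤ m := by
      rw [Finset.mem_range] at hi
      omega
    rw [map_mul, map_pow, hp, hβ i hi', map_mul, map_pow, map_mul, map_pow, hr, mul_pow, mul_pow]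
    have h2 : (PowerSeries.X : PowerSeries Λ) ^ m = PowerSeries.X ^ (m - i) * PowerSeries.X ^ i := by
      rw [← pow_add]
      congr 1
      omega
    rw [h2]
    ring
  rw [h1] at hγF
  intro h0
  apply hγF
  have h3 := PowerSeries.coeff_X_pow_mul (∑ i ∈ Finset.range (m + 1), r ^ (m - i) *
        γ (PowerSeries.C (β i)) * p ^ i) m 0
  rw [zero_add] at h3
  rw [h3, PowerSeries.coeff_zero_eq_constantCoeff_apply, map_sum, ← h0]
  refine Finset.sum_congr rfl fun i _ => ?_
  rw [map_mul, map_mul, map_pow, map_pow, hp0, hr0, Polar_gamma γ hγ, Polar_cc_apply,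
    PowerSeries.constantCoeff_C]

/-- the main identity -/
private theorem Polar_identity {d : ℕ} {Λ : Type} [Field Λ]
    (F : Polynomial (PowerSeries (MvPowerSeries (Fin d) Λ))) (m : ℕ) (hm : F.natDegree ≤ m)
    (N : ℕ) (hN : N ≠ 0)
    (δ : Derivation Λ (PowerSeries (PowerSeries (MvPowerSeries (Fin d) Λ)))
      (PowerSeries (PowerSeries (MvPowerSeries (Fin d) Λ)))) :
    PowerSeries.C ((N : PowerSeries (MvPowerSeries (Fin d) Λ)) * PowerSeries.X ^ N) *
      PowerSeries.map (PowerSeries.expand N hN : PowerSeries (MvPowerSeries (Fin d) Λ) →ₐ[_]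
        PowerSeries (MvPowerSeries (Fin d) Λ)).toRingHom
        (δ (F : PowerSeries (PowerSeries (MvPowerSeries (Fin d) Λ)))) =
    PowerSeries.C ((N : PowerSeries (MvPowerSeries (Fin d) Λ)) * PowerSeries.X ^ N) *
      PowerSeries.map (PowerSeries.expand N hN : PowerSeries (MvPowerSeries (Fin d) Λ) →ₐ[_]
        PowerSeries (MvPowerSeries (Fin d) Λ)).toRingHom (δ PowerSeries.X) *
      ((F.map (PowerSeries.expand N hN : PowerSeries (MvPowerSeries (Fin d) Λ) →ₐ[_]
        PowerSeries (MvPowerSeries (Fin d) Λ)).toRingHom).derivative :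
        PowerSeries (PowerSeries (MvPowerSeries (Fin d) Λ))) +
    ∑ i, PowerSeries.map (PowerSeries.expand N hN : PowerSeries (MvPowerSeries (Fin d) Λ) →ₐ[_]
        PowerSeries (MvPowerSeries (Fin d) Λ)).toRingHom
        (δ (PowerSeries.C (finSuccEquiv Λ d (X i)))) *
      ((∑ k ∈ Finset.range (m + 1), Polynomial.monomial k (Polar_E N i
        ((F.map (PowerSeries.expand N hN : PowerSeries (MvPowerSeries (Fin d) Λ) →ₐ[_]
        PowerSeries (MvPowerSeries (Fin d) Λ)).toRingHom).coeff k)) :
        Polynomial (PowerSeries (MvPowerSeries (Fin d) Λ))) :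
        PowerSeries (PowerSeries (MvPowerSeries (Fin d) Λ))) := by
  classical
  set φ := (PowerSeries.expand N hN : PowerSeries (MvPowerSeries (Fin d) Λ) →ₐ[_]
        PowerSeries (MvPowerSeries (Fin d) Λ)).toRingHom with hφ
  have hφa : ∀ a, φ a = PowerSeries.expand N hN a := fun a => rfl
  have hder : ((F.map φ).derivative : PowerSeries (PowerSeries (MvPowerSeries (Fin d) Λ))) =
      ∑ k ∈ Finset.range (m + 1), PowerSeries.C (φ (F.coeff k)) *
        ((k : PowerSeries (PowerSeries (MvPowerSeries (Fin d) Λ))) *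
          PowerSeries.X ^ (k - 1)) := by
    rw [Polar_coe_deriv (F.map φ) m ((Polynomial.natDegree_map_le).trans hm)]
    refine Finset.sum_congr rfl fun k _ => ?_
    rw [Polynomial.coeff_map]
  have hmono : ∀ i, ((∑ k ∈ Finset.range (m + 1), Polynomial.monomial k (Polar_E N i
        ((F.map φ).coeff k)) : Polynomial (PowerSeries (MvPowerSeries (Fin d) Λ))) :
        PowerSeries (PowerSeries (MvPowerSeries (Fin d) Λ))) =
      ∑ k ∈ Finset.range (m + 1), PowerSeries.C (Polar_E N i (φ (F.coeff k))) *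
        PowerSeries.X ^ k := by
    intro i
    have h1 := map_sum (Polynomial.coeToPowerSeries.ringHom
      (R := PowerSeries (MvPowerSeries (Fin d) Λ)))
      (fun k => Polynomial.monomial k (Polar_E N i ((F.map φ).coeff k))) (Finset.range (m + 1))
    simp only [Polynomial.coeToPowerSeries.ringHom_apply] at h1
    rw [h1]
    refine Finset.sum_congr rfl fun k _ => ?_
    rw [Polynomial.coe_monomial, Polynomial.coeff_map, PowerSeries.monomial_eq_mk]
    ext1 n
    rw [PowerSeries.coeff_C_mul_X_pow, PowerSeries.coeff_mk]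
  rw [hder]
  simp only [hmono]
  have hδF : PowerSeries.map φ (δ (F : PowerSeries (PowerSeries (MvPowerSeries (Fin d) Λ)))) =
      ∑ k ∈ Finset.range (m + 1), (PowerSeries.C (φ (F.coeff k)) *
        ((k : PowerSeries (PowerSeries (MvPowerSeries (Fin d) Λ))) *
          PowerSeries.X ^ (k - 1)) * PowerSeries.map φ (δ PowerSeries.X) +
        ∑ i, PowerSeries.map φ (δ (PowerSeries.C (finSuccEquiv Λ d (X i)))) *
          (PowerSeries.C (φ (Polar_D i (F.coeff k))) * PowerSeries.X ^ k)) := by
    rw [Polar_coe F m hm, map_sum, map_sum]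
    refine Finset.sum_congr rfl fun k _ => ?_
    rw [Derivation.leibniz, Derivation.leibniz_pow, Polar_formula, smul_eq_mul, smul_eq_mul,
      nsmul_eq_mul, smul_eq_mul, map_add, map_mul, map_mul, map_mul, map_mul, map_sum, map_pow,
      map_pow, PowerSeries.map_C, PowerSeries.map_X, map_natCast, Finset.mul_sum]
    congr 1
    · ring
    · refine Finset.sum_congr rfl fun i _ => ?_
      rw [map_mul, PowerSeries.map_C]
      ring
  rw [hδF, Finset.mul_sum, Finset.mul_sum]
  simp only [Finset.mul_sum]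
  rw [Finset.sum_comm (s := Finset.univ), ← Finset.sum_add_distrib]
  refine Finset.sum_congr rfl fun k _ => ?_
  rw [mul_add, Finset.mul_sum]
  congr 1
  · ring
  · refine Finset.sum_congr rfl fun i _ => ?_
    rw [hφa (F.coeff k), Polar_E_expand, ← hφa]
    have e := map_mul (PowerSeries.C (R := PowerSeries (MvPowerSeries (Fin d) Λ)))
      ((N : PowerSeries (MvPowerSeries (Fin d) Λ)) * PowerSeries.X ^ N)
      (φ (Polar_D i (F.coeff k)))
    rw [e]
    ring


/-- the values of the derivations at a root -/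
private theorem Polar_w {d : ℕ} {Λ : Type} [Field Λ] (N : ℕ) (hN : N ≠ 0)
    (ω : PowerSeries (MvPowerSeries (Fin d) Λ)) :
    ∃ w : Fin (d + 1) → PowerSeries (MvPowerSeries (Fin d) Λ),
      (∀ i, Polar_E N i (PowerSeries.X ^ N * ω) = PowerSeries.X ^ N * w i) ∧
      MvPowerSeries.constantCoeff (PowerSeries.constantCoeff (w 0)) =
        N * MvPowerSeries.constantCoeff (PowerSeries.constantCoeff ω) ∧
      ∀ i : Fin d, MvPowerSeries.constantCoeff (PowerSeries.constantCoeff (w i.succ)) = 0 := by
  refine ⟨Fin.cases (PowerSeries.X * PowerSeries.derivative (MvPowerSeries (Fin d) Λ) ω +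
      (N : PowerSeries (MvPowerSeries (Fin d) Λ)) * ω)
    (fun i => (N : PowerSeries (MvPowerSeries (Fin d) Λ)) *
      Polar_D i.succ (PowerSeries.X ^ N * ω)), ?_, ?_, ?_⟩
  · intro i
    refine Fin.cases ?_ (fun i => ?_) i
    · rw [Polar_E_zero, Derivation.leibniz, PowerSeries.derivative_pow, PowerSeries.derivative_X,
        smul_eq_mul, smul_eq_mul]
      show _ = PowerSeries.X ^ N * (PowerSeries.X *
        PowerSeries.derivative (MvPowerSeries (Fin d) Λ) ω +
          (N : PowerSeries (MvPowerSeries (Fin d) Λ)) * ω)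
      have h2 : (PowerSeries.X : PowerSeries (MvPowerSeries (Fin d) Λ)) ^ N =
          PowerSeries.X * PowerSeries.X ^ (N - 1) := by
        rw [← pow_succ']
        congr 1
        omega
      rw [h2]
      ring
    · rw [Polar_E_succ]
      show _ = PowerSeries.X ^ N * ((N : PowerSeries (MvPowerSeries (Fin d) Λ)) *
        Polar_D i.succ (PowerSeries.X ^ N * ω))
      ring
  · show MvPowerSeries.constantCoeff (PowerSeries.constantCoeff (PowerSeries.X *
        PowerSeries.derivative (MvPowerSeries (Fin d) Λ) ω +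
          (N : PowerSeries (MvPowerSeries (Fin d) Λ)) * ω)) = _
    rw [map_add, map_mul, map_mul, PowerSeries.constantCoeff_X, zero_mul,
      zero_add, map_natCast, map_mul, map_natCast]
  · intro i
    show MvPowerSeries.constantCoeff (PowerSeries.constantCoeff
      ((N : PowerSeries (MvPowerSeries (Fin d) Λ)) *
        Polar_D i.succ (PowerSeries.X ^ N * ω))) = 0
    rw [map_mul, map_mul]
    have h1 : PowerSeries.constantCoeff (Polar_D i.succ (PowerSeries.X ^ N * ω)) = 0 := by
      rw [← PowerSeries.coeff_zero_eq_constantCoeff_apply, Polar_D_succ,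
        PowerSeries.coeff_zero_eq_constantCoeff_apply, map_mul, map_pow,
        PowerSeries.constantCoeff_X, zero_pow hN, zero_mul, map_zero]
    rw [h1, map_zero, mul_zero]

theorem polar_radical {d : ℕ} {Λ : Type} [Field Λ] [IsAlgClosed Λ] [CharZero Λ]
    (F : Polynomial (PowerSeries (MvPowerSeries (Fin d) Λ))) (hF : F.Monic)
    (hpos : 0 < F.natDegree)
    (e : ℕ) (U : PowerSeries (MvPowerSeries (Fin d) Λ)) (hD : F.discr = PowerSeries.X ^ e * U)
    (hU : IsUnit U)
    (hco : ∀ j ≤ F.natDegree,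
      (PowerSeries.X : PowerSeries (MvPowerSeries (Fin d) Λ)) ^ j ∣ F.coeff (F.natDegree - j))
    (δ : Derivation Λ (PowerSeries (PowerSeries (MvPowerSeries (Fin d) Λ)))
      (PowerSeries (PowerSeries (MvPowerSeries (Fin d) Λ))))
    (γ : PowerSeries (PowerSeries (MvPowerSeries (Fin d) Λ)) →ₐ[Λ] PowerSeries Λ)
    (hγ : ∀ h ∈ IsLocalRing.maximalIdeal (PowerSeries (PowerSeries (MvPowerSeries (Fin d) Λ))),
      γ h ∈ IsLocalRing.maximalIdeal (PowerSeries Λ))
    (hγδ : ∀ h, γ (δ h) = PowerSeries.derivative Λ (γ h))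
    (hγF : PowerSeries.coeff F.natDegree (γ (F : PowerSeries (PowerSeries
      (MvPowerSeries (Fin d) Λ)))) ≠ 0) :
    PowerSeries.C (PowerSeries.X : PowerSeries (MvPowerSeries (Fin d) Λ)) ∈
      (Ideal.span {(F : PowerSeries (PowerSeries (MvPowerSeries (Fin d) Λ))),
        δ (F : PowerSeries (PowerSeries (MvPowerSeries (Fin d) Λ)))}).radical := by
  classical
  obtain ⟨N, hN, hsplit⟩ := jung_splits F hF e U hD hU
  obtain ⟨m, hm⟩ : ∃ m, m = F.natDegree := ⟨_, rfl⟩
  rw [← hm] at hco hγF hpos
  obtain ⟨φ, hφ⟩ : ∃ φ : PowerSeries (MvPowerSeries (Fin d) Λ) →+*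
      PowerSeries (MvPowerSeries (Fin d) Λ),
      φ = (PowerSeries.expand N hN : PowerSeries (MvPowerSeries (Fin d) Λ) →ₐ[_]
        PowerSeries (MvPowerSeries (Fin d) Λ)).toRingHom := ⟨_, rfl⟩
  have hφa : ∀ a, φ a = PowerSeries.expand N hN a := fun a => by rw [hφ]; rfl
  have hφX : φ PowerSeries.X = PowerSeries.X ^ N := by rw [hφa, PowerSeries.expand_X]
  have hφcc : ∀ a, PowerSeries.constantCoeff (φ a) = PowerSeries.constantCoeff a := by
    intro a
    rw [hφa, PowerSeries.constantCoeff_expand]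
  rw [← hφ] at hsplit
  obtain ⟨F', hF'⟩ : ∃ F', F' = F.map φ := ⟨_, rfl⟩
  rw [← hF'] at hsplit
  have hF'm : F'.Monic := by rw [hF']; exact hF.map φ
  have hF'd : F'.natDegree = m := by rw [hF', hF.natDegree_map, hm]
  have hF'c : ∀ i, F'.coeff i = φ (F.coeff i) := fun i => by rw [hF', Polynomial.coeff_map]
  -- the coefficients
  have hβ0 : ∀ i, ∃ b, i ≤ m → F.coeff i = PowerSeries.X ^ (m - i) * b := by
    intro i
    by_cases hi : i ≤ m
    · obtain ⟨b, hb⟩ := hco (m - i) (by omega)
      refine ⟨b, fun _ => ?_⟩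
      rw [← hb]
      congr 1
      omega
    · exact ⟨0, fun h => absurd h hi⟩
  choose β hβ using hβ0
  have hne := Polar_trans F m hm.symm β hβ γ hγ hγF
  obtain ⟨a, ha⟩ : ∃ a, a = PowerSeries.coeff 1 (γ PowerSeries.X) := ⟨_, rfl⟩
  obtain ⟨b, hb⟩ : ∃ b, b = PowerSeries.coeff 1 (γ (PowerSeries.C PowerSeries.X)) := ⟨_, rfl⟩
  rw [← ha, ← hb] at hne
  have hδcc : ∀ h, Polar_cc d Λ (δ h) = PowerSeries.coeff 1 (γ h) := by
    intro h
    rw [← Polar_gamma γ hγ, hγδ, ← PowerSeries.coeff_zero_eq_constantCoeff_apply,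
      PowerSeries.coeff_derivative]
    simp
  -- the radical upstairs
  have hrad : PowerSeries.C (PowerSeries.X : PowerSeries (MvPowerSeries (Fin d) Λ)) ∈
      (Ideal.span {PowerSeries.map φ (F : PowerSeries (PowerSeries (MvPowerSeries (Fin d) Λ))),
        PowerSeries.map φ
          (δ (F : PowerSeries (PowerSeries (MvPowerSeries (Fin d) Λ))))}).radical := by
    rw [Ideal.radical_eq_sInf, Submodule.mem_sInf]
    rintro q ⟨hq, hqp⟩
    have hq1 : PowerSeries.map φ (F : PowerSeries (PowerSeries (MvPowerSeries (Fin d) Λ))) ∈ q :=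
      hq (Ideal.subset_span (Set.mem_insert _ _))
    have hq2 : PowerSeries.map φ
        (δ (F : PowerSeries (PowerSeries (MvPowerSeries (Fin d) Λ)))) ∈ q :=
      hq (Ideal.subset_span (Set.mem_insert_of_mem _ (Set.mem_singleton _)))
    have hmapF : PowerSeries.map φ (F : PowerSeries (PowerSeries (MvPowerSeries (Fin d) Λ))) =
        (F' : PowerSeries (PowerSeries (MvPowerSeries (Fin d) Λ))) := by
      rw [hF', Polynomial.polynomial_map_coe]
    rw [hmapF, hsplit.eq_prod_roots_of_monic hF'm] at hq1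
    have hq3 : (Multiset.map (fun x => Polynomial.coeToPowerSeries.ringHom
        (Polynomial.X - Polynomial.C x)) F'.roots).prod ∈ q := by
      have h1 := map_multiset_prod (Polynomial.coeToPowerSeries.ringHom
        (R := PowerSeries (MvPowerSeries (Fin d) Λ)))
        (F'.roots.map fun x => Polynomial.X - Polynomial.C x)
      rw [Polynomial.coeToPowerSeries.ringHom_apply, Multiset.map_map] at h1
      rw [h1] at hq1
      exact hq1
    rw [hqp.multiset_prod_mem_iff_exists_mem] at hq3
    obtain ⟨y, hy, hyq⟩ := hq3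
    obtain ⟨ζ, hζ, rfl⟩ := Multiset.mem_map.mp hy
    have hζ0 : F'.eval ζ = 0 := (Polynomial.mem_roots'.mp hζ).2
    rw [Polynomial.coeToPowerSeries.ringHom_apply, Polynomial.coe_sub, Polynomial.coe_X,
      Polynomial.coe_C] at hyq
    -- the root is divisible
    obtain ⟨ω, hω⟩ := Polar_root_dvd F' hF'm N (by
      intro i hi
      rw [hF'd] at hi ⊢
      rw [hF'c, hβ i hi.le, map_mul, map_pow, hφX, ← pow_mul]
      exact dvd_mul_right _ _) ζ hζ0
    obtain ⟨w, hw, hw0, hw1⟩ := Polar_w N hN ω
    -- the residual equation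
    have hres : ∑ i ∈ Finset.range (m + 1),
        MvPowerSeries.constantCoeff (PowerSeries.constantCoeff (β i)) *
        MvPowerSeries.constantCoeff (PowerSeries.constantCoeff ω) ^ i = 0 := by
      have h1 : F'.eval ζ = (PowerSeries.X ^ N) ^ m * ∑ i ∈ Finset.range (m + 1),
          φ (β i) * ω ^ i := by
        rw [Polynomial.eval_eq_sum_range, hF'd, Finset.mul_sum]
        refine Finset.sum_congr rfl fun i hi => ?_
        have hi' : i ≤ m := by
          rw [Finset.mem_range] at hi
          omega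
        rw [hF'c, hβ i hi', map_mul, map_pow, hφX, hω, mul_pow]
        have h2 : ((PowerSeries.X : PowerSeries (MvPowerSeries (Fin d) Λ)) ^ N) ^ m =
            (PowerSeries.X ^ N) ^ (m - i) * (PowerSeries.X ^ N) ^ i := by
          rw [← pow_add]
          congr 1
          omega
        rw [h2]
        ring
      rw [h1] at hζ0
      have h2 := (mul_eq_zero.mp hζ0).resolve_left
        (pow_ne_zero _ (pow_ne_zero _ PowerSeries.X_ne_zero))
      have h3 := congrArg (fun t => MvPowerSeries.constantCoeff (PowerSeries.constantCoeff t)) h2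
      simp only [map_sum, map_mul, map_pow, hφcc, map_zero] at h3
      exact h3
    have hab : a - MvPowerSeries.constantCoeff (PowerSeries.constantCoeff ω) * b ≠ 0 := by
      intro h0
      apply hne
      have h1 : a = MvPowerSeries.constantCoeff (PowerSeries.constantCoeff ω) * b :=
        sub_eq_zero.mp h0
      have h2 : ∑ i ∈ Finset.range (m + 1), b ^ (m - i) *
          MvPowerSeries.constantCoeff (PowerSeries.constantCoeff (β i)) * a ^ i =
          b ^ m * ∑ i ∈ Finset.range (m + 1),
            MvPowerSeries.constantCoeff (PowerSeries.constantCoeff (β i)) *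
            MvPowerSeries.constantCoeff (PowerSeries.constantCoeff ω) ^ i := by
        rw [Finset.mul_sum]
        refine Finset.sum_congr rfl fun i hi => ?_
        have hi' : i ≤ m := by
          rw [Finset.mem_range] at hi
          omega
        have h3 : b ^ m = b ^ (m - i) * b ^ i := by
          rw [← pow_add]
          congr 1
          omega
        rw [h3, h1, mul_pow]
        ring
      rw [h2, hres, mul_zero]
    -- the unit
    obtain ⟨W, hW⟩ : ∃ W, W = PowerSeries.C (N : PowerSeries (MvPowerSeries (Fin d) Λ)) *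
        PowerSeries.map φ (δ PowerSeries.X) - ∑ i, PowerSeries.map φ
        (δ (PowerSeries.C (MvPowerSeries.finSuccEquiv Λ d (X i)))) * PowerSeries.C (w i) :=
      ⟨_, rfl⟩
    have hccφ : ∀ t, Polar_cc d Λ (PowerSeries.map φ t) = Polar_cc d Λ t := by
      intro t
      rw [Polar_cc_apply, Polar_cc_apply, ← PowerSeries.coeff_zero_eq_constantCoeff_apply
        (PowerSeries.map φ t), PowerSeries.coeff_map, hφcc,
        PowerSeries.coeff_zero_eq_constantCoeff_apply]
    have hccC : ∀ t, Polar_cc d Λ (PowerSeries.C t) =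
        MvPowerSeries.constantCoeff (PowerSeries.constantCoeff t) := by
      intro t
      rw [Polar_cc_apply, PowerSeries.constantCoeff_C]
    have hWu : IsUnit W := by
      apply Polar_isUnit
      have h1 : Polar_cc d Λ W = N * (a -
          MvPowerSeries.constantCoeff (PowerSeries.constantCoeff ω) * b) := by
        rw [hW, map_sub, map_mul, map_sum, hccφ, hδcc, ← ha, Fin.sum_univ_succ, map_mul, hccφ,
          hδcc, hccC, hccC, MvPowerSeries.finSuccEquiv_X_zero, ← hb, hw0, map_natCast,
          map_natCast]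
        have h2 : ∑ i : Fin d, Polar_cc d Λ (PowerSeries.map φ
            (δ (PowerSeries.C (MvPowerSeries.finSuccEquiv Λ d (X i.succ)))) *
            PowerSeries.C (w i.succ)) = 0 := by
          refine Finset.sum_eq_zero fun i _ => ?_
          rw [map_mul, hccC, hw1, mul_zero]
        rw [h2]
        ring
      rw [h1]
      exact mul_ne_zero (Nat.cast_ne_zero.mpr hN) hab
    -- the congruence
    obtain ⟨Q0, hQz⟩ : ∃ Q0, Q0 = F'.derivative.eval ζ := ⟨_, rfl⟩
    have hid := Polar_identity F m hm.symm.le N hN δ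
    rw [← hφ, ← hF'] at hid
    have hPi : ∀ i, (∑ k ∈ Finset.range (m + 1), Polynomial.monomial k
        (Polar_E N i (F'.coeff k))).eval ζ = - (Q0 * (PowerSeries.X ^ N * w i)) := by
      intro i
      have h1 := Polar_eval (Polar_E N i) F' ζ m hF'd.le
      rw [hζ0, map_zero, ← hQz, hω, hw i, ← hω] at h1
      exact eq_neg_of_add_eq_zero_left h1.symm
    have hmem : PowerSeries.C Q0 * PowerSeries.C (PowerSeries.X ^ N) * W ∈ q := by
      have h1 : PowerSeries.C Q0 * PowerSeries.C (PowerSeries.X ^ N) * W =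
          PowerSeries.C ((N : PowerSeries (MvPowerSeries (Fin d) Λ)) * PowerSeries.X ^ N) *
            PowerSeries.map φ
              (δ (F : PowerSeries (PowerSeries (MvPowerSeries (Fin d) Λ)))) -
          (PowerSeries.C ((N : PowerSeries (MvPowerSeries (Fin d) Λ)) * PowerSeries.X ^ N) *
            PowerSeries.map φ (δ PowerSeries.X) *
            ((F'.derivative : PowerSeries (PowerSeries (MvPowerSeries (Fin d) Λ))) -
              PowerSeries.C (F'.derivative.eval ζ)) +
          ∑ i, PowerSeries.map φ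
            (δ (PowerSeries.C (MvPowerSeries.finSuccEquiv Λ d (X i)))) *
            (((∑ k ∈ Finset.range (m + 1), Polynomial.monomial k
              (Polar_E N i (F'.coeff k)) : Polynomial (PowerSeries (MvPowerSeries (Fin d) Λ))) :
                PowerSeries (PowerSeries (MvPowerSeries (Fin d) Λ))) -
              PowerSeries.C ((∑ k ∈ Finset.range (m + 1), Polynomial.monomial k
                (Polar_E N i (F'.coeff k))).eval ζ))) := by
        rw [hid, hW]
        simp only [hPi, mul_sub, Finset.sum_sub_distrib, ← hQz, map_neg, mul_neg,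
          Finset.sum_neg_distrib, Finset.mul_sum]
        rw [map_mul PowerSeries.C (N : PowerSeries (MvPowerSeries (Fin d) Λ))]
        have h2 : ∀ i, PowerSeries.C Q0 * PowerSeries.C (PowerSeries.X ^ N) *
            (PowerSeries.map φ (δ (PowerSeries.C (MvPowerSeries.finSuccEquiv Λ d (X i)))) *
              PowerSeries.C (w i)) =
            PowerSeries.map φ (δ (PowerSeries.C (MvPowerSeries.finSuccEquiv Λ d (X i)))) *
              PowerSeries.C (Q0 * (PowerSeries.X ^ N * w i)) := by
          intro i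
          rw [map_mul, map_mul]
          ring
        simp only [h2]
        ring
      rw [h1]
      refine Ideal.sub_mem q (Ideal.mul_mem_left q _ hq2) (Ideal.add_mem q
        (Ideal.mul_mem_left q _ (Polar_mod _ _ q hyq))
        (Ideal.sum_mem q fun i _ => Ideal.mul_mem_left q _ (Polar_mod _ _ q hyq)))
    have hXN : ∀ n : ℕ, PowerSeries.C ((PowerSeries.X : PowerSeries (MvPowerSeries (Fin d) Λ)) ^ n) ∈
        q → PowerSeries.C (PowerSeries.X : PowerSeries (MvPowerSeries (Fin d) Λ)) ∈ q := by
      intro n hn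
      rw [map_pow] at hn
      exact hqp.mem_of_pow_mem n hn
    rcases hqp.mem_or_mem hmem with h | h
    · rcases hqp.mem_or_mem h with h | h
      · -- the discriminant
        obtain ⟨P, Q, -, -, hPQ⟩ := Polynomial.exists_mul_add_mul_eq_C_resultant (m := m)
          (n := m - 1) F' F'.derivative hF'd.le
          ((Polynomial.natDegree_derivative_le _).trans (by rw [hF'd])) (Or.inl hpos.ne')
        have h1 := congrArg (Polynomial.eval ζ) hPQ
        rw [Polynomial.eval_add, Polynomial.eval_mul, Polynomial.eval_mul, hζ0, zero_mul, zero_add,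
          Polynomial.eval_C, ← hQz] at h1
        have h2 : F'.discr = (-1) ^ (m * (m - 1) / 2) *
            Polynomial.resultant F' F'.derivative m (m - 1) := by
          have := discr_resultant F' hF'm (by rw [hF'd]; exact hpos)
          rw [hF'd] at this
          exact this
        have h3 : F'.discr = PowerSeries.X ^ (N * e) * φ U := by
          rw [hF', discr_map φ F hF (by rw [← hm]; exact hpos), hD, map_mul, map_pow, hφX,
            ← pow_mul]
        have h4 : PowerSeries.C (F'.discr) ∈ q := by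
          rw [h2, ← h1, map_mul, map_mul]
          exact Ideal.mul_mem_left q _ (Ideal.mul_mem_right _ q h)
        rw [h3, map_mul] at h4
        rcases hqp.mem_or_mem h4 with h5 | h5
        · exact hXN _ h5
        · exact absurd (Ideal.eq_top_of_isUnit_mem q h5 ((hU.map φ).map PowerSeries.C)) hqp.ne_top
      · exact hXN _ h
    · exact absurd (Ideal.eq_top_of_isUnit_mem q h hWu) hqp.ne_top
  -- down
  obtain ⟨M, hM⟩ := hrad
  refine ⟨M, ?_⟩
  apply Polar_contract N hN
  rw [hφ] at hM hφX
  rw [map_pow, PowerSeries.map_C, hφX, map_pow, ← pow_mul, mul_comm, pow_mul]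
  exact Ideal.pow_mem_of_mem _ hM N (Nat.pos_of_ne_zero hN)

end Pool.Agent.Helper38.EQ
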