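import Pool.Agent.Helper38.EQ.Defs

/-!
# EQ-P1 (Newton-Puiseux)

Proof. Strong induction on the degree `m` of the monic polynomial `F` over `k⟦η⟧`.
`m ≤ 1` is clear (`N = 1`).  Let `m ≥ 2`.  Replacing `F(w)` by `F(w - a₁/m)` we may assume that
the coefficient of `w^(m-1)` is `0` (char 0).  If all lower coefficients vanish, `F = w^m` splits.
Otherwise choose `i < m` with `a_i ≠ 0` and `ord(a_i) / (m - i)` minimal, put `N = m - i` and
`p = ord(a_i)`.  Then `a_j(σ^N) = σ^(p (m-j)) b_j` with `b_j ∈ k⟦σ⟧` and `b_i(0) ≠ 0`, so that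
`F(σ^N; σ^p w) = σ^(p m) G(σ; w)`, `G = w^m + ∑ b_j w^j`.  The polynomial `G(0; w)` has zero
coefficient at `w^(m-1)` and is not `w^m`, so it is not of the form `(w-c)^m`; as `k` is
algebraically closed it has a root `c` of multiplicity `m'` with `1 ≤ m' < m`.
After `w → w + c`, Weierstrass preparation gives a factorisation
`G(w + c) = H Q` with `H` distinguished of degree `m'` and `Q` monic of degree `m - m'`.
By induction `H(σ^M; w)` and `Q(σ^M; w)` split for a common `M` (a product of the two exponents),
hence so do `G(σ^M; w)` and `F(σ^(N M); w)`.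
-/

set_option autoImplicit false

namespace Pool.Agent.Helper38.EQ

open Polynomial

section puiseux

variable {k : Type} [Field k]

/-- splitting after a ramified base change -/
private def puiseux_PS (F : Polynomial (PowerSeries k)) : Prop :=
  ∃ (N : ℕ) (hN : N ≠ 0),
    (F.map (PowerSeries.expand N hN : PowerSeries k →ₐ[k] PowerSeries k).toRingHom).Splits

private theorem puiseux_of_splits {F : Polynomial (PowerSeries k)} (h : F.Splits) :
    puiseux_PS F :=
  ⟨1, one_ne_zero, h.map _⟩

private theorem puiseux_of_expand {F : Polynomial (PowerSeries k)} (N : ℕ) (hN : N ≠ 0)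
    (h : puiseux_PS
      (F.map (PowerSeries.expand N hN : PowerSeries k →ₐ[k] PowerSeries k).toRingHom)) :
    puiseux_PS F := by
  obtain ⟨M, hM, h⟩ := h
  refine ⟨M * N, Nat.mul_ne_zero hM hN, ?_⟩
  rw [Polynomial.map_map] at h
  convert! h using 2
  ext1 φ
  exact PowerSeries.expand_mul M hM N hN φ

private theorem puiseux_expand_splits {F : Polynomial (PowerSeries k)} (N : ℕ) (hN : N ≠ 0)
    (M : ℕ) (hM : M ≠ 0)
    (h : (F.map (PowerSeries.expand N hN : PowerSeries k →ₐ[k] PowerSeries k).toRingHom).Splits) :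
    (F.map (PowerSeries.expand (M * N) (Nat.mul_ne_zero hM hN) :
      PowerSeries k →ₐ[k] PowerSeries k).toRingHom).Splits := by
  have h1 := h.map (PowerSeries.expand M hM : PowerSeries k →ₐ[k] PowerSeries k).toRingHom
  rw [Polynomial.map_map] at h1
  convert! h1 using 2
  ext1 φ
  exact PowerSeries.expand_mul M hM N hN φ

private theorem puiseux_congr {F : Polynomial (PowerSeries k)} {N M : ℕ} (e : N = M)
    (hN : N ≠ 0)
    (h : (F.map (PowerSeries.expand N hN : PowerSeries k →ₐ[k] PowerSeries k).toRingHom).Splits) :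
    (F.map (PowerSeries.expand M (e ▸ hN) :
      PowerSeries k →ₐ[k] PowerSeries k).toRingHom).Splits := by
  subst e
  exact h

private theorem puiseux_mul {F G : Polynomial (PowerSeries k)} (hF : puiseux_PS F)
    (hG : puiseux_PS G) : puiseux_PS (F * G) := by
  obtain ⟨N, hN, h1⟩ := hF
  obtain ⟨M, hM, h2⟩ := hG
  refine ⟨M * N, Nat.mul_ne_zero hM hN, ?_⟩
  rw [Polynomial.map_mul]
  refine (puiseux_expand_splits N hN M hM h1).mul ?_
  exact puiseux_congr (mul_comm N M) _ (puiseux_expand_splits M hM N hN h2)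

private theorem puiseux_of_comp {F : Polynomial (PowerSeries k)} (a : PowerSeries k)
    (h : puiseux_PS (F.comp (X + C a))) : puiseux_PS F := by
  obtain ⟨N, hN, h⟩ := h
  refine ⟨N, hN, ?_⟩
  rw [Polynomial.map_comp, Polynomial.map_add, map_X, map_C] at h
  have h1 := h.comp_X_sub_C
    ((PowerSeries.expand N hN : PowerSeries k →ₐ[k] PowerSeries k).toRingHom a)
  rw [comp_assoc] at h1
  simpa using h1

private theorem puiseux_of_scale {G : Polynomial (PowerSeries k)} (hG : G.Monic)
    (s : PowerSeries k) (h : puiseux_PS G) : puiseux_PS (G.scaleRoots s) := by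
  obtain ⟨N, hN, h⟩ := h
  refine ⟨N, hN, ?_⟩
  rw [map_scaleRoots _ _ _ (by rw [hG.leadingCoeff, map_one]; exact one_ne_zero)]
  exact h.scaleRoots _

/-- factorisation by Weierstrass preparation -/
private theorem puiseux_factor {G : Polynomial (PowerSeries k)} (hG : G.Monic)
    (h0 : PowerSeries.constantCoeff (G.coeff 0) = 0)
    (h1 : ∃ i < G.natDegree, PowerSeries.constantCoeff (G.coeff i) ≠ 0) :
    ∃ H Q : Polynomial (PowerSeries k), H.Monic ∧ Q.Monic ∧ G = H * Q ∧
      H.natDegree < G.natDegree ∧ Q.natDegree < G.natDegree := by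
  have hmem : ∀ a : PowerSeries k, a ∈ IsLocalRing.maximalIdeal (PowerSeries k) ↔
      PowerSeries.constantCoeff a = 0 := by
    intro a
    rw [PowerSeries.maximalIdeal_eq_span_X, Ideal.mem_span_singleton, PowerSeries.X_dvd_iff]
  have hcomp : IsAdicComplete (IsLocalRing.maximalIdeal (PowerSeries k)) (PowerSeries k) := by
    rw [PowerSeries.maximalIdeal_eq_span_X]
    infer_instance
  have hne : ((G : PowerSeries (PowerSeries k)).map
      (IsLocalRing.residue (PowerSeries k))) ≠ 0 := by
    intro h
    have h2 := congrArg (PowerSeries.coeff G.natDegree) h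
    rw [PowerSeries.coeff_map, Polynomial.coeff_coe, coeff_natDegree, hG.leadingCoeff, map_one,
      map_zero] at h2
    exact one_ne_zero h2
  obtain ⟨H, u, hW⟩ := PowerSeries.exists_isWeierstrassFactorization hne
  have hH := hW.isDistinguishedAt.monic
  set Q := G /ₘ H with hQ
  set R := G %ₘ H with hR
  have hdiv : R + H * Q = G := modByMonic_add_div G H
  have hRdeg : R.degree < H.degree := degree_modByMonic_lt G hH
  have hI : IsLocalRing.maximalIdeal (PowerSeries k) ≠ ⊤ := Ideal.IsMaximal.ne_top inferInstance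
  have hnat : H.natDegree = ((H : PowerSeries (PowerSeries k)).map
      (Ideal.Quotient.mk (IsLocalRing.maximalIdeal (PowerSeries k)))).order.toNat := by
    have h2 := hW.isDistinguishedAt.coe_natDegree_eq_order_map
      (H : PowerSeries (PowerSeries k)) 1
      (by rwa [PowerSeries.constantCoeff_one, ← Ideal.ne_top_iff_one]) (by simp)
    rw [← h2]
    simp
  have hR0 : R = 0 := by
    have hw := hW.isDistinguishedAt.isWeierstrassDivisorAt hI
    refine (hw.eq_zero_of_mul_eq (q := u - (Q : PowerSeries (PowerSeries k))) (r := R) ?_ ?_).2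
    · rw [← hnat]
      rwa [degree_eq_natDegree hH.ne_zero] at hRdeg
    · have h2 := hW.eq_mul
      rw [← hdiv, Polynomial.coe_add, Polynomial.coe_mul] at h2
      rw [mul_sub, ← h2]
      ring
  have hGQ : G = H * Q := by rw [← hdiv, hR0, zero_add]
  have hQm : Q.Monic := hH.of_mul_monic_left (hGQ ▸ hG)
  have hdeg : G.natDegree = H.natDegree + Q.natDegree := by
    rw [hGQ]
    exact hH.natDegree_mul hQm
  refine ⟨H, Q, hH, hQm, hGQ, ?_, ?_⟩
  · by_contra hlt
    have hQ0 : Q.natDegree = 0 := by omega
    have hQ1 : Q = 1 := hQm.natDegree_eq_zero.1 hQ0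
    rw [hQ1, mul_one] at hGQ
    obtain ⟨i, hi, hic⟩ := h1
    apply hic
    rw [← hmem, hGQ]
    exact hW.isDistinguishedAt.mem (by rwa [← hGQ])
  · by_contra hlt
    have hH0 : H.natDegree = 0 := by omega
    have hH1 : H = 1 := hH.natDegree_eq_zero.1 hH0
    have h2 := hW.eq_mul
    rw [hH1, Polynomial.coe_one, one_mul] at h2
    have h3 := PowerSeries.isUnit_iff_constantCoeff.1 hW.isUnit
    rw [← h2, ← PowerSeries.coeff_zero_eq_constantCoeff, Polynomial.coeff_coe] at h3
    exact (IsLocalRing.mem_maximalIdeal _).1 ((hmem _).2 h0) h3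

/-- the slope -/
private theorem puiseux_slope {F : Polynomial (PowerSeries k)} (hF : F.Monic)
    (h1 : ∃ i < F.natDegree, F.coeff i ≠ 0) :
    ∃ (N : ℕ) (hN : N ≠ 0) (p : ℕ) (G : Polynomial (PowerSeries k)), G.Monic ∧
      G.natDegree = F.natDegree ∧
      G.scaleRoots (PowerSeries.X ^ p) =
        F.map (PowerSeries.expand N hN : PowerSeries k →ₐ[k] PowerSeries k).toRingHom ∧
      (∀ i, F.coeff i = 0 → G.coeff i = 0) ∧
      ∃ i < F.natDegree, PowerSeries.constantCoeff (G.coeff i) ≠ 0 := by
  classical
  set m := F.natDegree with hm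
  obtain ⟨i₀, hi₀, hmin⟩ := Finset.exists_min_image
    ((Finset.range m).filter fun i => F.coeff i ≠ 0)
    (fun i => ((F.coeff i).order.toNat : ℚ) / ((m - i : ℕ) : ℚ))
    (by
      obtain ⟨i, hi, hc⟩ := h1
      exact ⟨i, Finset.mem_filter.2 ⟨Finset.mem_range.2 hi, hc⟩⟩)
  obtain ⟨hi1, hi2⟩ := Finset.mem_filter.1 hi₀
  rw [Finset.mem_range] at hi1
  have hN : m - i₀ ≠ 0 := by omega
  set N := m - i₀ with hNd
  set p := (F.coeff i₀).order.toNat with hp
  have hmin2 : ∀ i < m, F.coeff i ≠ 0 → p * (m - i) ≤ N * (F.coeff i).order.toNat := by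
    intro i hi hc
    have h2 := hmin i (Finset.mem_filter.2 ⟨Finset.mem_range.2 hi, hc⟩)
    have h3 : (0 : ℚ) < ((m - i : ℕ) : ℚ) := by
      exact_mod_cast Nat.sub_pos_of_lt hi
    have h4 : (0 : ℚ) < ((m - i₀ : ℕ) : ℚ) := by
      exact_mod_cast Nat.sub_pos_of_lt hi1
    rw [div_le_div_iff₀ h4 h3] at h2
    have h5 : p * (m - i) ≤ (F.coeff i).order.toNat * (m - i₀) := by exact_mod_cast h2
    rw [mul_comm N]
    exact h5
  have hord : ∀ i, F.coeff i ≠ 0 →
      (PowerSeries.expand N hN (F.coeff i)).order = ((N * (F.coeff i).order.toNat : ℕ) : ℕ∞) := by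
    intro i hc
    rw [PowerSeries.order_expand]
    have h2 : (F.coeff i).order = ((F.coeff i).order.toNat : ℕ∞) :=
      (ENat.natCast_toNat (PowerSeries.order_finite_iff_ne_zero.2 hc).ne).symm
    rw [h2]
    simp
  have hdvd : ∀ i, i ≤ m → ∃ b : PowerSeries k,
      PowerSeries.expand N hN (F.coeff i) = b * (PowerSeries.X ^ p) ^ (m - i) ∧
      (F.coeff i = 0 → b = 0) := by
    intro i hi
    by_cases hc : F.coeff i = 0
    · exact ⟨0, by rw [hc, map_zero, zero_mul], fun _ => rfl⟩
    rcases hi.lt_or_eq with hi | rfl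
    · have h2 : (PowerSeries.X : PowerSeries k) ^ (p * (m - i)) ∣
          PowerSeries.expand N hN (F.coeff i) := by
        rw [PowerSeries.X_pow_dvd_iff]
        intro j hj
        apply PowerSeries.coeff_of_lt_order
        rw [hord i hc]
        exact_mod_cast lt_of_lt_of_le hj (hmin2 i hi hc)
      obtain ⟨b, hb⟩ := h2
      refine ⟨b, ?_, fun h => absurd h hc⟩
      rw [hb, pow_mul, mul_comm]
    · exact ⟨PowerSeries.expand N hN (F.coeff m), by simp, fun h => absurd h hc⟩
  choose! b hb hb0 using hdvd
  have hbm : b m = 1 := by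
    have h2 := hb m le_rfl
    rw [Nat.sub_self, pow_zero, mul_one] at h2
    rw [← h2, hm, coeff_natDegree, hF.leadingCoeff, map_one]
  set G : Polynomial (PowerSeries k) := ∑ i ∈ Finset.range (m + 1), monomial i (b i) with hGd
  have hGc : ∀ i, G.coeff i = if i ≤ m then b i else 0 := by
    intro i
    rw [hGd, finsetSum_coeff]
    simp only [coeff_monomial]
    rw [Finset.sum_ite_eq']
    simp only [Finset.mem_range, Nat.lt_succ_iff]
  have hGle : G.natDegree ≤ m := by
    rw [natDegree_le_iff_coeff_eq_zero]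
    intro i hi
    rw [hGc, if_neg (by omega)]
  have hGm : G.coeff m = 1 := by rw [hGc, if_pos le_rfl, hbm]
  have hGdeg : G.natDegree = m := by
    refine le_antisymm hGle (le_natDegree_of_ne_zero ?_)
    rw [hGm]
    exact one_ne_zero
  have hGmon : G.Monic := monic_of_natDegree_le_of_coeff_eq_one m hGle hGm
  refine ⟨N, hN, p, G, hGmon, hGdeg, ?_, ?_, i₀, hi1, ?_⟩
  · ext1 i
    rw [coeff_scaleRoots, hGdeg, coeff_map, hGc]
    by_cases hi : i ≤ m
    · rw [if_pos hi]
      exact (hb i hi).symm
    · rw [if_neg hi, zero_mul, coeff_eq_zero_of_natDegree_lt (by omega), map_zero]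
  · intro i hi
    rw [hGc]
    split_ifs with h2
    · exact hb0 i h2 hi
    · rfl
  · rw [hGc, if_pos hi1.le]
    intro h2
    have h3 := hb i₀ hi1.le
    have h4 := hord i₀ hi2
    rw [h3, ← pow_mul] at h4
    have h5 : (PowerSeries.X : PowerSeries k) ^ (p * (m - i₀) + 1) ∣
        b i₀ * PowerSeries.X ^ (p * (m - i₀)) := by
      rw [pow_succ, mul_comm (b i₀)]
      exact mul_dvd_mul_left _ (PowerSeries.X_dvd_iff.2 h2)
    have h6 : PowerSeries.coeff (p * (m - i₀)) (b i₀ * PowerSeries.X ^ (p * (m - i₀))) = 0 :=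
      PowerSeries.X_pow_dvd_iff.1 h5 _ (Nat.lt_succ_self _)
    have h7 : (b i₀ * PowerSeries.X ^ (p * (m - i₀)) : PowerSeries k) ≠ 0 := by
      intro h
      rw [h, PowerSeries.order_zero] at h4
      exact ENat.top_ne_natCast _ h4
    have h8 := PowerSeries.coeff_order h7
    rw [h4] at h8
    apply h8
    have e : (((N * (F.coeff i₀).order.toNat : ℕ) : ℕ∞)).toNat = p * (m - i₀) := by
      rw [ENat.toNat_natCast, mul_comm]
    rw [e]
    exact h6

/-- the coefficient after the leading one of a translate -/
private theorem puiseux_next {R : Type} [CommRing R] {F : Polynomial R} (hF : F.Monic)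
    (hm : F.natDegree ≠ 0) (r : R) :
    (F.comp (X + C r)).coeff (F.natDegree - 1) = F.coeff (F.natDegree - 1) +
      (F.natDegree : R) * r := by
  set m := F.natDegree with hmd
  have h1 : (F.comp (X + C r)).coeff (m - 1) = (hasseDeriv (m - 1) F).eval r := by
    rw [← taylor_coeff, taylor_apply]
  have h2 : (hasseDeriv (m - 1) F).natDegree < 2 := by
    have h3 := natDegree_hasseDeriv_le F (m - 1)
    omega
  rw [h1, eval_eq_sum_range' h2, Finset.sum_range_succ, Finset.sum_range_one, hasseDeriv_coeff,
    hasseDeriv_coeff]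
  have e1 : 1 + (m - 1) = m := by omega
  have e2 : m.choose (m - 1) = m := by
    rw [Nat.choose_symm_of_eq_add (show m = (m - 1) + 1 by omega), Nat.choose_one_right]
  rw [zero_add, Nat.choose_self, e1, e2, hmd, coeff_natDegree, hF.leadingCoeff]
  simp

end puiseux

/-- Newton-Puiseux: a monic polynomial over `k⟦η⟧` splits over `k⟦η^(1/N)⟧` for some `N`. -/
theorem puiseux_splits {k : Type} [Field k] [IsAlgClosed k] [CharZero k]
    (F : Polynomial (PowerSeries k)) (hF : F.Monic) :
    ∃ (N : ℕ) (hN : N ≠ 0),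
      (F.map (PowerSeries.expand N hN : PowerSeries k →ₐ[k] PowerSeries k).toRingHom).Splits := by
  change puiseux_PS F
  induction hn : F.natDegree using Nat.strong_induction_on generalizing F with
  | _ m ih =>
    by_cases hm : m ≤ 1
    · exact puiseux_of_splits (Splits.of_natDegree_le_one_of_monic (hn ▸ hm) hF)
    have hmk : (m : k) ≠ 0 := by exact_mod_cast (by omega : m ≠ 0)
    set b : PowerSeries k := -(PowerSeries.C ((m : k)⁻¹) * F.coeff (m - 1)) with hb
    apply puiseux_of_comp b
    set F' := F.comp (X + C b) with hF'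
    have hF'm : F'.Monic := hF.comp (monic_X_add_C b) (by rw [natDegree_X_add_C]; exact one_ne_zero)
    have hF'd : F'.natDegree = m := by
      rw [hF', natDegree_comp, natDegree_X_add_C, mul_one, hn]
    have hF'c : F'.coeff (m - 1) = 0 := by
      have h1 := puiseux_next hF (by omega) b
      rw [hn] at h1
      rw [hF', h1, hb]
      have h2 : (m : PowerSeries k) = PowerSeries.C (m : k) := by simp
      rw [h2, mul_neg, ← mul_assoc, ← map_mul, mul_inv_cancel₀ hmk, map_one, one_mul,
        add_neg_cancel]
    by_cases h0 : ∃ i < F'.natDegree, F'.coeff i ≠ 0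
    · obtain ⟨N, hN, p, G, hGm, hGd, hsc, hz, i₀, hi₀, hne⟩ := puiseux_slope hF'm h0
      apply puiseux_of_expand N hN
      rw [← hsc]
      apply puiseux_of_scale hGm
      rw [hF'd] at hGd hi₀
      set G₀ : Polynomial k := G.map (PowerSeries.constantCoeff (R := k)) with hG₀
      have hG₀m : G₀.Monic := hGm.map _
      have hG₀d : G₀.natDegree = m := by rw [hG₀, hGm.natDegree_map, hGd]
      have hG₀c : G₀.coeff (m - 1) = 0 := by
        rw [hG₀, coeff_map, hz _ hF'c, map_zero]
      obtain ⟨c, hc⟩ := IsAlgClosed.exists_root G₀ (by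
        rw [degree_eq_natDegree hG₀m.ne_zero, hG₀d]
        exact_mod_cast (by omega : m ≠ 0))
      apply puiseux_of_comp (PowerSeries.C c)
      set G' := G.comp (X + C (PowerSeries.C c)) with hG'
      have hG'm : G'.Monic :=
        hGm.comp (monic_X_add_C _) (by rw [natDegree_X_add_C]; exact one_ne_zero)
      have hG'd : G'.natDegree = m := by
        rw [hG', natDegree_comp, natDegree_X_add_C, mul_one, hGd]
      have hmap : G'.map (PowerSeries.constantCoeff (R := k)) = G₀.comp (X + C c) := by
        rw [hG', Polynomial.map_comp, Polynomial.map_add, map_X, map_C,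
          PowerSeries.constantCoeff_C]
      have hcoef : ∀ i, PowerSeries.constantCoeff (G'.coeff i) = (G₀.comp (X + C c)).coeff i := by
        intro i
        rw [← hmap, coeff_map]
      obtain ⟨H, Q, hHm, hQm, hHQ, hHd, hQd⟩ := puiseux_factor hG'm
        (by
          rw [hcoef, coeff_zero_eq_eval_zero, eval_comp]
          simpa using hc)
        (by
          rw [hG'd]
          by_contra hcon
          push Not at hcon
          have h1 : G₀.comp (X + C c) = X ^ m := by
            ext i
            rw [← hcoef, coeff_X_pow]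
            split_ifs with hi
            · rw [hi, ← hG'd, coeff_natDegree, hG'm.leadingCoeff, map_one]
            · rcases lt_or_gt_of_ne hi with hi | hi
              · exact hcon i hi
              · rw [coeff_eq_zero_of_natDegree_lt (by omega), map_zero]
          have h2 := puiseux_next hG₀m (by omega) c
          rw [hG₀d, h1, coeff_X_pow, if_neg (by omega), hG₀c, zero_add] at h2
          have hc0 : c = 0 := by
            rcases mul_eq_zero.1 h2.symm with h3 | h3
            · exact absurd h3 hmk
            · exact h3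
          rw [hc0, C_0, add_zero, comp_X] at h1
          apply hne
          have h3 : G₀.coeff i₀ = PowerSeries.constantCoeff (G.coeff i₀) := by
            rw [hG₀, coeff_map]
          rw [← h3, h1, coeff_X_pow, if_neg (by omega)])
      rw [hG'd] at hHd hQd
      rw [hHQ]
      exact puiseux_mul (ih _ hHd H hHm rfl) (ih _ hQd Q hQm rfl)
    · push Not at h0
      have h1 : F' = X ^ m := by
        ext i
        rw [coeff_X_pow]
        split_ifs with hi
        · rw [hi, ← hF'd, coeff_natDegree, hF'm.leadingCoeff]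
        · rcases lt_or_gt_of_ne hi with hi | hi
          · exact congrArg _ (h0 i (by omega))
          · rw [coeff_eq_zero_of_natDegree_lt (by omega)]
      rw [h1]
      exact puiseux_of_splits (Splits.X_pow m)

end Pool.Agent.Helper38.EQ
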