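import Pool.Agent.Helper38.EQ.AlgMain

/-! Strata of small codimension. -/

namespace Pool.Agent.Helper38.EQ

open MvPowerSeries

section

variable {n : ℕ} {K : Type} [Field K]

/-- A Zariski stratification of the affine hypersurface `V : f = 0`. -/
structure ZariskiStratification (B : BasisClass) (f : MvPolynomial (Fin n) K) where
  /-- the last index -/
  N : ℕ
  /-- the strata -/
  E : Fin (N + 1) → Set (Fin n → K)
  /-- the ideals of the closures of the strata -/
  P : Fin (N + 1) → Ideal (MvPolynomial (Fin n) K)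
  /-- `P i` is the ideal of the Zariski closure of `E i` -/
  P_eq : ∀ i, P i = MvPolynomial.vanishingIdeal K (E i)
  /-- `E 0` is the set of simple points of `V` -/
  E_zero : E 0 = {Q | MvPolynomial.eval Q f = 0 ∧
    ∃ j, MvPolynomial.eval Q (MvPolynomial.pderiv j f) ≠ 0}
  /-- the strata cover `V` ... -/
  cover : ⋃ i, E i = {Q | MvPolynomial.eval Q f = 0}
  /-- ... and are disjoint -/
  disj : ∀ i j, i ≠ j → Disjoint (E i) (E j)
  /-- (1) the closure of `E i` is irreducible -/
  prime : ∀ i, i ≠ 0 → (P i).IsPrime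
  /-- (1) `E i` is the set of the points of its closure at which `V` is equisingular along it -/
  eqs : ∀ i, i ≠ 0 → E i = {Q | Q ∈ MvPolynomial.zeroLocus K (P i) ∧ EquisingularAt B f Q (P i)}
  /-- (2) the frontier of a stratum is a union of strata -/
  frontier : ∀ i j, (E j ∩ (MvPolynomial.zeroLocus K (P i) \ E i)).Nonempty →
    E j ⊆ MvPolynomial.zeroLocus K (P i) \ E i
  /-- (2) the closure of `E j` is an irreducible component of the frontier of some stratum -/
  component : ∀ j, j ≠ 0 → ∃ i, P j ∈
    (MvPolynomial.vanishingIdeal K (MvPolynomial.zeroLocus K (P i) \ E i)).minimalPrimes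

theorem singIdeal_eq (f : MvPowerSeries (Fin n) K) : singIdeal f = multIdeal f 2 := by
  apply le_antisymm
  · rw [singIdeal, Ideal.span_le]
    rintro g (rfl | ⟨i, rfl⟩)
    · exact Ideal.subset_span ⟨[], by simp, rfl⟩
    · exact Ideal.subset_span ⟨[i], by simp, rfl⟩
  · rw [multIdeal, Ideal.span_le]
    rintro g ⟨l, hl, rfl⟩
    match l with
    | [] => exact Ideal.subset_span (Set.mem_union_left _ rfl)
    | [i] => exact Ideal.subset_span (Set.mem_union_right _ ⟨i, rfl⟩)
    | _ :: _ :: _ => simp at hl

/-- If only one critical variety is needed for `M`, then `V` is equisingular along every subvariety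
of the singular locus. -/
theorem eqLen_one_transfer {B : BasisClass} [CharZero K] (f : MvPowerSeries (Fin n) K)
    (I J : Ideal (MvPowerSeries (Fin n) K)) (h : EqLen B 1 n K f I) (hJ : singIdeal f ≤ J)
    (hJ1 : J ≠ ⊤) : Equisingular B n K f J := by
  refine ⟨1, ?_⟩
  cases h with
  | step k n K f I hI x hx hB σ hσ F U hF g hg h =>
    refine EqLen.step 0 n K f J hJ x hx hB σ hσ F U hF g hg ?_
    have hC' : CharZero (GenField n K) :=
      charZero_of_injective_algebraMap (algebraMap K (GenField n K)).injective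
    generalize hI' : (Ideal.comap (PowerSeries.C (R := MvPowerSeries (Fin n) (GenField n K)))
          (Ideal.map σ (Ideal.map (ext K (GenField n K)) I).radical)) = I' at h
    have h12 : g ∈ IsLocalRing.maximalIdeal (MvPowerSeries (Fin n) (GenField n K)) ∧
        g ∉ IsLocalRing.maximalIdeal (MvPowerSeries (Fin n) (GenField n K)) ^ 2 := by
      clear hF hg hB hx hσ
      cases h with
      | simple n K f I hI h1 h2 => exact ⟨h1, h2⟩
    refine EqLen.simple n (GenField n K) g _ ?_ h12.1 h12.2
    rw [singIdeal_eq, multIdeal_eq_top g 2 h12.2, top_le_iff]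
    intro h3
    rw [Ideal.eq_top_iff_one, Ideal.mem_comap, map_one] at h3
    have h4 : (1 : MvPowerSeries (Fin (n + 1)) (GenField n K)) ∈
        (Ideal.map (ext K (GenField n K)) J).radical := by
      rw [← mem_map_algEquiv σ, map_one]; exact h3
    have h5 := (Ideal.eq_top_iff_one _).mpr h4
    rw [Ideal.radical_eq_top] at h5
    exact ext_ne_top J hJ1 h5

theorem mem_pointIdeal_iff (Q : Fin n → K) (h : MvPolynomial (Fin n) K) :
    h ∈ pointIdeal Q ↔ MvPolynomial.eval Q h = 0 := Iff.rfl

theorem le_pointIdeal_iff (P : Ideal (MvPolynomial (Fin n) K)) (Q : Fin n → K) :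
    P ≤ pointIdeal Q ↔ Q ∈ MvPolynomial.zeroLocus K P := by
  constructor
  · intro h p hp
    have := h hp
    rw [mem_pointIdeal_iff] at this
    simpa [MvPolynomial.aeval_eq_eval] using this
  · intro h p hp
    rw [mem_pointIdeal_iff]
    have := h p hp
    simpa [MvPolynomial.aeval_eq_eval] using this

theorem isSimplePoint_pointIdeal (Q : Fin n → K) : IsSimplePoint (pointIdeal Q) Q := by
  unfold IsSimplePoint
  rw [IsLocalRing.eq_maximalIdeal (I := Ideal.map (algebraMap (MvPolynomial (Fin n) K)
    (Localization.AtPrime (pointIdeal Q))) (pointIdeal Q))]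
  · letI : Field (Localization.AtPrime (pointIdeal Q) ⧸
      IsLocalRing.maximalIdeal (Localization.AtPrime (pointIdeal Q))) :=
      Ideal.Quotient.field _
    infer_instance
  · rw [Localization.AtPrime.map_eq_maximalIdeal]
    infer_instance

theorem full_chain [IsAlgClosed K] [CharZero K] {B : BasisClass} {k : ℕ}
    {f : MvPolynomial (Fin n) K} {Q : Fin n → K} {P : Ideal (MvPolynomial (Fin n) K)}
    [P.IsPrime] (hP : P ≤ pointIdeal Q) (hf : f ∈ P)
    (hk : EqLen B k n K (taylorAt Q f) ((P.map (taylorAt Q)).radical))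
    (hh : P.height ≤ k + 1) : IsSimplePoint P Q := by
  obtain ⟨L, iF, iC, iA, A, b, hA, hs, hb, hm⟩ := alg_claimC hP hf hk
  have hbp : b.IsPrime := smoothIdeal_isPrime A b hs
  have hbh : b.height = (k + 1 : ℕ) := by rw [smoothIdeal_height A b hs, hA]
  have hne : P.map (extAt L Q) ≠ ⊤ := by
    intro h
    have h1 := (Ideal.radical_eq_top.mpr h)
    rw [map_extAt] at h
    have h2 : P.map (taylorAt Q) ≠ ⊤ := fun h3 =>
      radical_map_ne_top hP (Ideal.radical_eq_top.mpr h3)
    exact ext_ne_top _ h2 h
  obtain ⟨q, hq⟩ := Ideal.nonempty_minimalPrimes hne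
  have hqp : q.IsPrime := hq.1.1
  have hqh : q.height = P.height := height_minimalPrimes Q P hP q hq
  have hbq : b ≤ q := hb.trans (hqp.radical_le_iff.mpr hq.1.2)
  have hfin : b.FiniteHeight := ⟨Or.inr (by rw [hbh]; exact ENat.natCast_ne_top _)⟩
  have hbeq : b = q := Ideal.eq_of_le_of_height_le b hbq (by
    rw [hqh, hbh]
    exact_mod_cast hh)
  exact alg_finish hP A b hs hb (by rw [hbeq]; exact hq.1.2)

theorem strata_main [IsAlgClosed K] [CharZero K] {B : BasisClass}
    {f : MvPolynomial (Fin n) K} (S : ZariskiStratification B f) (α : Fin (S.N + 1)) (hα : α ≠ 0)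
    (Q : Fin n → K) (hQ : Q ∈ S.E α) :
    (∀ m, f ∈ pointIdeal Q ^ m → polyMultIdeal f m ≤ S.P α) ∧
    ((S.P α).height ≤ 3 → IsSimplePoint (S.P α) Q) ∧
    (n ≤ 4 → IsSimplePoint (S.P α) Q) ∧
    (∀ μ, S.P α ∈ (polyMultIdeal f μ).minimalPrimes → IsSimplePoint (S.P α) Q) ∧
    (∀ k, EqLen B k n K (taylorAt Q f) (((S.P α).map (taylorAt Q)).radical) →
      (S.P α).height ≤ k + 1 → IsSimplePoint (S.P α) Q) := by
  have hprime : (S.P α).IsPrime := S.prime α hα
  have hmem := hQ
  rw [S.eqs α hα] at hmem
  obtain ⟨hQz, heq⟩ := hmem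
  have hP : S.P α ≤ pointIdeal Q := (le_pointIdeal_iff _ _).mpr hQz
  -- the points of `E α` are singular points of `V`
  have hE : ∀ R ∈ S.E α, MvPolynomial.eval R f = 0 ∧
      ∀ j, MvPolynomial.eval R (MvPolynomial.pderiv j f) = 0 := by
    intro R hR
    have h1 : R ∈ ⋃ i, S.E i := Set.mem_iUnion.mpr ⟨α, hR⟩
    rw [S.cover] at h1
    refine ⟨h1, fun j => ?_⟩
    by_contra hcon
    have h2 : R ∈ S.E 0 := by rw [S.E_zero]; exact ⟨h1, j, hcon⟩
    exact (Set.disjoint_left.mp (S.disj α 0 hα)) hR h2
  have hfP : f ∈ S.P α := by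
    rw [S.P_eq α]
    intro R hR
    simpa [MvPolynomial.aeval_eq_eval] using (hE R hR).1
  have hsing : polyMultIdeal f 2 ≤ S.P α := by
    rw [polyMultIdeal, Ideal.span_le]
    rintro g ⟨l, hl, rfl⟩
    match l with
    | [] => exact hfP
    | [i] =>
      show MvPolynomial.pderiv i f ∈ S.P α
      rw [S.P_eq α]
      intro R hR
      simpa [MvPolynomial.aeval_eq_eval] using (hE R hR).2 i
    | _ :: _ :: _ => simp at hl
  obtain ⟨hmul, hcomp⟩ := alg_main hP hfP heq
  have hfull : ∀ k, EqLen B k n K (taylorAt Q f) (((S.P α).map (taylorAt Q)).radical) →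
      (S.P α).height ≤ k + 1 → IsSimplePoint (S.P α) Q :=
    fun k hk hh => full_chain hP hfP hk hh
  have hsingF : singIdeal (taylorAt Q f) ≤ ((S.P α).map (taylorAt Q)).radical := by
    rw [singIdeal_eq, ← polyMultIdeal_map]
    exact (Ideal.map_mono hsing).trans Ideal.le_radical
  have hcodim : (S.P α).height ≤ 3 → IsSimplePoint (S.P α) Q := by
    intro hh
    obtain ⟨k, hk⟩ := heq
    rcases Nat.lt_or_ge k 2 with hk2 | hk2
    · -- only one critical variety: `M` is a component of the singular locus
      have hk1 : k = 1 := by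
        rcases Nat.eq_zero_or_pos k with h0 | h0
        · exfalso
          subst h0
          generalize hg : taylorAt Q f = g at hk hsingF
          generalize hI : ((S.P α).map (taylorAt Q)).radical = I at hk hsingF
          cases hk with
          | simple n K f I hI h1 h2 => exact hI hsingF
        · omega
      subst hk1
      obtain ⟨p, hp, hpP⟩ := Ideal.exists_minimalPrimes_le hsing
      have hpp : p.IsPrime := hp.1.1
      -- `p` is the ideal of the closure of a stratum
      obtain ⟨β, hβ0, hβ⟩ : ∃ β, β ≠ 0 ∧ S.P β = p := by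
        have h1 : ∀ R ∈ MvPolynomial.zeroLocus K p, ∃ β, β ≠ 0 ∧ R ∈ S.E β := by
          intro R hR
          have hRp : p ≤ pointIdeal R := (le_pointIdeal_iff p R).mpr hR
          have hsR : polyMultIdeal f 2 ≤ pointIdeal R := hp.1.2.trans hRp
          have hfR : MvPolynomial.eval R f = 0 :=
            hsR (Ideal.subset_span ⟨[], by simp, rfl⟩)
          have hdR : ∀ j, MvPolynomial.eval R (MvPolynomial.pderiv j f) = 0 := fun j =>
            hsR (Ideal.subset_span ⟨[j], by simp, rfl⟩)
          have h2 : R ∈ ⋃ i, S.E i := by rw [S.cover]; exact hfR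
          obtain ⟨β, hβ⟩ := Set.mem_iUnion.mp h2
          refine ⟨β, ?_, hβ⟩
          rintro rfl
          rw [S.E_zero] at hβ
          obtain ⟨-, j, hj⟩ := hβ
          exact hj (hdR j)
        have h2 : (Finset.univ.filter (fun β : Fin (S.N + 1) => β ≠ 0)).inf S.P ≤ p := by
          intro h hh
          have h3 : h ∈ MvPolynomial.vanishingIdeal K (MvPolynomial.zeroLocus K p) := by
            intro R hR
            obtain ⟨β, hβ0, hβ⟩ := h1 R hR
            have h4 : h ∈ S.P β :=
              (Finset.inf_le (f := S.P) (Finset.mem_filter.mpr ⟨Finset.mem_univ β, hβ0⟩)) hh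
            rw [S.P_eq β] at h4
            exact h4 R hβ
          rwa [MvPolynomial.IsPrime.vanishingIdeal_zeroLocus] at h3
        obtain ⟨β, hβ, hβp⟩ := (Ideal.IsPrime.inf_le' hpp).mp h2
        have hβ0 : β ≠ 0 := (Finset.mem_filter.mp hβ).2
        refine ⟨β, hβ0, ?_⟩
        have h5 : polyMultIdeal f 2 ≤ S.P β := by
          have hEβ : ∀ R ∈ S.E β, MvPolynomial.eval R f = 0 ∧
              ∀ j, MvPolynomial.eval R (MvPolynomial.pderiv j f) = 0 := by
            intro R hR
            have h1 : R ∈ ⋃ i, S.E i := Set.mem_iUnion.mpr ⟨β, hR⟩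
            rw [S.cover] at h1
            refine ⟨h1, fun j => ?_⟩
            by_contra hcon
            have h2 : R ∈ S.E 0 := by rw [S.E_zero]; exact ⟨h1, j, hcon⟩
            exact (Set.disjoint_left.mp (S.disj β 0 hβ0)) hR h2
          rw [polyMultIdeal, Ideal.span_le]
          rintro g ⟨l, hl, rfl⟩
          match l with
          | [] =>
            show f ∈ S.P β
            rw [S.P_eq β]
            intro R hR
            simpa [MvPolynomial.aeval_eq_eval] using (hEβ R hR).1
          | [i] =>
            show MvPolynomial.pderiv i f ∈ S.P β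
            rw [S.P_eq β]
            intro R hR
            simpa [MvPolynomial.aeval_eq_eval] using (hEβ R hR).2 i
          | _ :: _ :: _ => simp at hl
        have hβprime : (S.P β).IsPrime := S.prime β hβ0
        exact le_antisymm hβp (hp.2 ⟨hβprime, h5⟩ hβp)
      -- `V` is equisingular at `Q` along `V(p)`
      have hpQ : p ≤ pointIdeal Q := hpP.trans hP
      have hEqp : EquisingularAt B f Q p := by
        apply eqLen_one_transfer _ _ _ hk
        · rw [singIdeal_eq, ← polyMultIdeal_map]
          exact (Ideal.map_mono hp.1.2).trans Ideal.le_radical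
        · exact radical_map_ne_top hpQ
      have hQβ : Q ∈ S.E β := by
        rw [S.eqs β hβ0, hβ]
        exact ⟨(le_pointIdeal_iff p Q).mp hpQ, hEqp⟩
      have hαβ : α = β := by
        by_contra hne
        exact (Set.disjoint_left.mp (S.disj α β hne)) hQ hQβ
      apply hcomp 2
      rw [hαβ, hβ]
      exact hp
    · apply hfull k hk
      refine hh.trans ?_
      have : (3 : ℕ) ≤ k + 1 := by omega
      exact_mod_cast this
  refine ⟨hmul, hcodim, ?_, hcomp, hfull⟩
  intro hn
  by_cases hne : S.P α = pointIdeal Q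
  · rw [hne]
    exact isSimplePoint_pointIdeal Q
  · apply hcodim
    have h1 : S.P α < pointIdeal Q := lt_of_le_of_ne hP hne
    have h2 := Ideal.height_add_one_le_of_lt_of_isPrime h1
    rw [height_pointIdeal] at h2
    have h3 : ((n : ℕ∞)) ≤ 4 := by exact_mod_cast hn
    have h4 : (S.P α).height + 1 ≤ 3 + 1 := h2.trans (h3.trans (by norm_num))
    exact (ENat.add_le_add_iff_right ENat.one_ne_top).mp h4

end

end Pool.Agent.Helper38.EQ
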