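import Pool.Agent.Helper38.EQ.ClaimC
import Pool.Agent.Helper38.EQ.Strata

/-! The inductive step with explicit data; chains of length two. -/

namespace Pool.Agent.Helper38.EQ

open MvPowerSeries

/-- The inductive step with all its data. -/
theorem refined_step {n : ℕ} {K L1 L2 : Type} [Field K] [CharZero K] [Field L1]
    [Algebra K L1] [Field L2] [IsAlgClosed L2] [Algebra L1 L2] [Algebra K L2]
    (hKM : algebraMap K L2 = (algebraMap L1 L2).comp (algebraMap K L1))
    (f : MvPowerSeries (Fin (n + 1)) K) (I : Ideal (MvPowerSeries (Fin (n + 1)) K))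
    (hI : singIdeal f ≤ I)
    (σ : MvPowerSeries (Fin (n + 1)) L1 ≃ₐ[L1]
      PowerSeries (MvPowerSeries (Fin n) L1))
    (F : Polynomial (MvPowerSeries (Fin n) L1))
    (U : PowerSeries (MvPowerSeries (Fin n) L1))
    (hF : (σ (ext K L1 f)).IsWeierstrassFactorization F U)
    (g : MvPowerSeries (Fin n) L1)
    (hg : Ideal.span {g} = (Ideal.span {F.discr}).radical) (hg0 : g ≠ 0)
    (hI1 : I ≠ ⊤)
    (hdegree : ∀ m, f ∈ IsLocalRing.maximalIdeal (MvPowerSeries (Fin (n + 1)) K) ^ m →
      f ∉ IsLocalRing.maximalIdeal (MvPowerSeries (Fin (n + 1)) K) ^ (m + 1) → F.natDegree = m)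
    (A' : Finset (Fin n)) (b' : Ideal (MvPowerSeries (Fin n) L2)) (hsm : SmoothIdeal A' b')
    (hble : b' ≤ ((Ideal.comap (PowerSeries.C (R := MvPowerSeries (Fin n) L1))
          (Ideal.map σ (Ideal.map (ext K L1) I).radical)).map (ext L1 L2)).radical)
    (hmul : ∀ m, g ∈ IsLocalRing.maximalIdeal (MvPowerSeries (Fin n) L1) ^ m →
          ext L1 L2 g ∈ b' ^ m) :
    ∃ (σ2 : MvPowerSeries (Fin (n + 1)) L2 ≃ₐ[L2] PowerSeries (MvPowerSeries (Fin n) L2))
      (U2 : PowerSeries (MvPowerSeries (Fin n) L2)) (r : MvPowerSeries (Fin n) L2)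
      (A : Finset (Fin (n + 1))) (b : Ideal (MvPowerSeries (Fin (n + 1)) L2)) (N : ℕ),
      (∀ h, σ2 (ext L1 L2 h) = PowerSeries.map (ext L1 L2) (σ h)) ∧
      (σ2 (ext K L2 f)).IsWeierstrassFactorization (F.map (ext (n := n) L1 L2)) U2 ∧
      0 < F.natDegree ∧
      (F.map (ext (n := n) L1 L2)).discr ∣ (ext L1 L2 g) ^ N ∧
      (F.map (ext (n := n) L1 L2)).discr ∈ Ideal.span {ext L1 L2 g} ∧
      r ∈ IsLocalRing.maximalIdeal (MvPowerSeries (Fin n) L2) ∧
      A.card = A'.card + 1 ∧ SmoothIdeal A b ∧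
      b.map σ2 = Ideal.span {PowerSeries.X - PowerSeries.C r} ⊔ b'.map PowerSeries.C ∧
      (∀ j ≤ F.natDegree, (Polynomial.taylor r (F.map (ext (n := n) L1 L2))).coeff
        (F.natDegree - j) ∈ b' ^ j) ∧
      b ≤ (I.map (ext K L2)).radical ∧
      ∀ m, f ∈ IsLocalRing.maximalIdeal (MvPowerSeries (Fin (n + 1)) K) ^ m →
        ext K L2 f ∈ b ^ m := by
  set J1 := Ideal.map σ (Ideal.map (ext K L1) I).radical with hJ1
  have hJ1rad : ∀ z k, z ^ k ∈ J1 → z ∈ J1 := fun z k hz => map_algEquiv_radical σ _ z k hz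
  have hfI : f ∈ I := hI (Ideal.subset_span (Set.mem_union_left _ rfl))
  have hIle : ∀ z, z ∈ Ideal.map (ext K L1) I → σ z ∈ J1 := fun z hz => by
    rw [hJ1, mem_map_algEquiv]; exact Ideal.le_radical hz
  have hJ1ne : J1 ≠ ⊤ := by
    intro h
    have h1 : (1 : MvPowerSeries (Fin (n + 1)) L1) ∈ (Ideal.map (ext K L1) I).radical := by
      rw [← mem_map_algEquiv σ, ← hJ1, h]; trivial
    have h2 := (Ideal.eq_top_iff_one _).mpr h1
    rw [Ideal.radical_eq_top] at h2
    exact ext_ne_top I hI1 h2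
  have heq : σ (ext K L1 f) = F * U := hF.eq_mul
  have hU : IsUnit U := hF.isUnit
  have hFmonic : F.Monic := hF.isDistinguishedAt.monic
  -- `F ∈ J1`
  have hFJ : (F : PowerSeries (MvPowerSeries (Fin n) L1)) ∈ J1 := by
    have h1 := hIle _ (Ideal.mem_map_of_mem (ext K L1) hfI)
    rw [heq] at h1
    exact (Ideal.mul_unit_mem_iff_mem _ hU).mp h1
  -- its derivative as well
  have hF'J : (F.derivative : PowerSeries (MvPowerSeries (Fin n) L1)) ∈ J1 := by
    have h1 := deriv_mem_map σ f I hI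
    have h2 : Ideal.map σ (Ideal.map (ext K L1) I) ≤ J1 :=
      Ideal.map_mono Ideal.le_radical
    have h3 := h2 h1
    rw [heq, Derivation.leibniz, smul_eq_mul, smul_eq_mul] at h3
    have h4 : U * PowerSeries.derivative (MvPowerSeries (Fin n) L1)
        (F : PowerSeries (MvPowerSeries (Fin n) L1)) ∈ J1 := by
      have h5 := J1.sub_mem h3 (J1.mul_mem_right
        (PowerSeries.derivative (MvPowerSeries (Fin n) L1) U) hFJ)
      rwa [add_sub_cancel_left] at h5
    have h6 := (Ideal.unit_mul_mem_iff_mem _ hU).mp h4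
    rwa [PowerSeries.derivative_coe] at h6
  have hpos : 0 < F.natDegree := by
    rcases Nat.eq_zero_or_pos F.natDegree with h | h
    · exfalso
      have h1 : F = 1 := hFmonic.natDegree_eq_zero.mp h
      rw [h1, Polynomial.coe_one] at hFJ
      exact hJ1ne ((Ideal.eq_top_iff_one _).mpr hFJ)
    · exact h
  have hDJ : PowerSeries.C F.discr ∈ J1 := C_discr_mem F hFmonic hpos J1 hFJ hF'J
  have hgrad : g ∈ (Ideal.span {F.discr}).radical := by
    rw [← hg]; exact Ideal.mem_span_singleton_self g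
  obtain ⟨N, hN⟩ := hgrad
  rw [Ideal.mem_span_singleton] at hN
  have hgI : g ∈ Ideal.comap (PowerSeries.C (R := MvPowerSeries (Fin n) L1)) J1 := by
    rw [Ideal.mem_comap]
    apply hJ1rad _ N
    rw [← map_pow]
    obtain ⟨c, hc⟩ := hN
    rw [hc, map_mul]
    exact J1.mul_mem_right _ hDJ
  have hI'ne : Ideal.comap (PowerSeries.C (R := MvPowerSeries (Fin n) L1)) J1 ≠ ⊤ := by
    intro h
    apply hJ1ne
    rw [Ideal.eq_top_iff_one] at h ⊢
    rw [Ideal.mem_comap, map_one] at h
    exact h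
  have : CharZero L2 := charZero_of_injective_algebraMap (algebraMap K L2).injective
  have hcomp : ∀ h : MvPowerSeries (Fin (n + 1)) K, ext K L2 h = ext L1 L2 (ext K L1 h) :=
    fun h => ext_comp hKM h
  obtain ⟨σ2, hσ2⟩ := exists_baseChange' (L := L2) σ
  set F2 := F.map (ext (n := n) L1 L2) with hF2
  have hF2m : F2.Monic := hFmonic.map _
  have hF2d : F2.natDegree = F.natDegree := hFmonic.natDegree_map _
  have hσ2f : σ2 (ext K L2 f) = (F2 : PowerSeries (MvPowerSeries (Fin n) L2)) *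
      PowerSeries.map (ext (n := n) L1 L2) U := by
    rw [hcomp, hσ2, heq, map_mul]
    congr 1
    rw [hF2]
    ext i
    simp
  have hU2 : IsUnit (PowerSeries.map (ext (n := n) L1 L2) U) := hU.map _
  -- orders
  have hf0 : f ≠ 0 := by
    rintro rfl
    rw [map_zero, map_zero] at heq
    have h2 : (F : PowerSeries (MvPowerSeries (Fin n) L1)) = 0 :=
      (hU.mul_left_eq_zero).mp heq.symm
    exact hFmonic.ne_zero (by exact_mod_cast h2)
  obtain ⟨m, hm1, hm2⟩ := exists_order f hf0
  have hdeg : F.natDegree = m := hdegree m hm1 hm2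
  have hco : ∀ j ≤ F.natDegree, F.coeff (F.natDegree - j) ∈
      IsLocalRing.maximalIdeal (MvPowerSeries (Fin n) L1) ^ j := by
    apply coeff_mem_pow F U hU
    rw [← heq, hdeg]
    exact (algEquiv_mem_maximalIdeal_pow (σ.trans (finSuccEquiv L1 n).symm).toRingEquiv m
      (ext K L1 f)).mpr ((ext_mem_pow f m).mpr hm1)
  have hco2 : ∀ j ≤ F2.natDegree, F2.coeff (F2.natDegree - j) ∈
      IsLocalRing.maximalIdeal (MvPowerSeries (Fin n) L2) ^ j := by
    intro j hj
    rw [hF2d] at hj ⊢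
    rw [hF2, Polynomial.coeff_map]
    exact (ext_mem_pow _ j).mpr (hco j hj)
  have hg2 : ext L1 L2 g ≠ 0 := by
    intro h
    apply hg0
    ext α
    have := congrArg (coeff α) h
    rw [coeff_ext] at this
    simpa using this
  have hdisc2 : F2.discr = ext L1 L2 F.discr := by
    rw [hF2, discr_map _ F hFmonic hpos]
  have hN2 : F2.discr ∣ (ext L1 L2 g) ^ N := by
    rw [hdisc2, ← map_pow]
    exact map_dvd _ hN
  have hmul2 : ∀ m', ext L1 L2 g ∈ IsLocalRing.maximalIdeal (MvPowerSeries (Fin n) L2) ^ m' →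
      ext L1 L2 g ∈ b' ^ m' := fun m' hm' => hmul m' ((ext_mem_pow g m').mp hm')
  -- the Tschirnhausen shift
  obtain ⟨r, hr⟩ : ∃ r : MvPowerSeries (Fin n) L2,
      (F2.natDegree : MvPowerSeries (Fin n) L2) * r = - F2.coeff (F2.natDegree - 1) := by
    have hc : (F2.natDegree : L2) ≠ 0 := by
      rw [hF2d]; exact_mod_cast hpos.ne'
    refine ⟨C ((F2.natDegree : L2)⁻¹) * (- F2.coeff (F2.natDegree - 1)), ?_⟩
    rw [← mul_assoc, ← map_natCast (C (σ := Fin n) (R := L2)), ← map_mul, mul_inv_cancel₀ hc,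
      map_one, one_mul]
  have hrm : r ∈ IsLocalRing.maximalIdeal (MvPowerSeries (Fin n) L2) := by
    have h1 := hco2 1 (by rw [hF2d]; exact hpos)
    rw [pow_one, mem_maximalIdeal_iff_constantCoeff] at h1
    rw [mem_maximalIdeal_iff_constantCoeff]
    have := congrArg (constantCoeff (σ := Fin n) (R := L2)) hr
    rw [map_mul, map_neg, h1, neg_zero, map_natCast] at this
    rcases mul_eq_zero.mp this with h | h
    · exact absurd h (by rw [hF2d]; exact_mod_cast hpos.ne')
    · exact h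
  have hkey := key_smooth A' b' hsm F2 hF2m (by rw [hF2d]; exact hpos) hco2
    (ext L1 L2 g) hg2 N hN2 hmul2 r hr
  obtain ⟨A, b, hAc, hAs, hbσ⟩ := lift_smooth A' b' hsm r hrm σ2
  -- the section lies in `J2`
  set J2 := Ideal.map σ2 (Ideal.map (ext K L2) I).radical with hJ2
  have hJ2rad : ∀ z k, z ^ k ∈ J2 → z ∈ J2 := fun z k hz => map_algEquiv_radical σ2 _ z k hz
  have hJ12 : ∀ z ∈ J1, PowerSeries.map (ext (n := n) L1 L2) z ∈ J2 := by
    intro z hz
    obtain ⟨w, rfl⟩ := σ.surjective z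
    rw [hJ1, mem_map_algEquiv] at hz
    obtain ⟨e, he⟩ := hz
    rw [← hσ2, hJ2, mem_map_algEquiv]
    refine ⟨e, ?_⟩
    rw [← map_pow]
    have h1 := Ideal.mem_map_of_mem (ext L1 L2) he
    rw [Ideal.map_map] at h1
    have h2 : (ext (n := n + 1) L1 L2).comp (ext K L1) = ext K L2 := by
      apply RingHom.ext
      intro h
      exact (hcomp h).symm
    rw [h2] at h1
    exact h1
  have hb'J2 : b'.map (PowerSeries.C (R := MvPowerSeries (Fin n) L2)) ≤ J2 := by
    rw [Ideal.map_le_iff_le_comap]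
    intro h hh
    obtain ⟨e, he⟩ := hble hh
    rw [Ideal.mem_comap]
    apply hJ2rad _ e
    rw [← map_pow]
    have h1 : Ideal.map (ext L1 L2) (Ideal.comap
        (PowerSeries.C (R := MvPowerSeries (Fin n) L1)) J1) ≤
        Ideal.comap (PowerSeries.C (R := MvPowerSeries (Fin n) L2)) J2 := by
      rw [Ideal.map_le_iff_le_comap]
      intro w hw
      rw [Ideal.mem_comap] at hw
      rw [Ideal.mem_comap, Ideal.mem_comap]
      have := hJ12 _ hw
      rwa [PowerSeries.map_C] at this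
    exact h1 he
  have hF2J2 : (F2 : PowerSeries (MvPowerSeries (Fin n) L2)) ∈ J2 := by
    have h1 : σ2 (ext K L2 f) ∈ J2 := by
      rw [hJ2, mem_map_algEquiv]
      exact Ideal.le_radical (Ideal.mem_map_of_mem _ hfI)
    rw [hσ2f] at h1
    exact (Ideal.mul_unit_mem_iff_mem _ hU2).mp h1
  have hζ : PowerSeries.X - PowerSeries.C r ∈ J2 := by
    apply hJ2rad _ F2.natDegree
    have h1 := Polynomial.sum_taylor_eq F2 r
    rw [Polynomial.sum_over_range _ (by simp), Polynomial.natDegree_taylor,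
      Finset.sum_range_succ] at h1
    have hlead : (Polynomial.taylor r F2).coeff F2.natDegree = 1 := by
      rw [Polynomial.coeff_taylor_natDegree]; exact hF2m
    rw [hlead, Polynomial.C_1, one_mul] at h1
    have h2 := congrArg (fun P : Polynomial (MvPowerSeries (Fin n) L2) =>
      Polynomial.coeToPowerSeries.ringHom P) h1
    simp only [map_add, map_sum, map_mul, map_pow, map_sub,
      Polynomial.coeToPowerSeries.ringHom_apply, Polynomial.coe_C, Polynomial.coe_X] at h2
    have h3 : (PowerSeries.X - PowerSeries.C r) ^ F2.natDegree =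
        (F2 : PowerSeries (MvPowerSeries (Fin n) L2)) -
        ∑ i ∈ Finset.range F2.natDegree, PowerSeries.C ((Polynomial.taylor r F2).coeff i) *
          (PowerSeries.X - PowerSeries.C r) ^ i := by
      rw [← h2]; ring
    rw [h3]
    refine J2.sub_mem hF2J2 (Ideal.sum_mem _ fun i hi => J2.mul_mem_right _ ?_)
    have hi' : i < F2.natDegree := Finset.mem_range.mp hi
    have h4 := hkey (F2.natDegree - i) (Nat.sub_le _ _)
    rw [Nat.sub_sub_self hi'.le] at h4
    exact hb'J2 (Ideal.mem_map_of_mem _ (Ideal.pow_le_self (by omega) h4))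
  have hdist : F2.IsDistinguishedAt
      (IsLocalRing.maximalIdeal (MvPowerSeries (Fin n) L2)) := by
    refine ⟨⟨fun {i} hi => ?_⟩, hF2m⟩
    have h5 := hco2 (F2.natDegree - i) (Nat.sub_le _ _)
    rw [Nat.sub_sub_self hi.le] at h5
    exact Ideal.pow_le_self (by omega) h5
  have hdg : F2.discr ∈ Ideal.span {ext L1 L2 g} := by
    have h5 : F.discr ∈ Ideal.span {g} := by
      rw [hg]; exact Ideal.le_radical (Ideal.mem_span_singleton_self _)
    rw [Ideal.mem_span_singleton] at h5 ⊢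
    rw [hdisc2]
    exact map_dvd _ h5
  refine ⟨σ2, PowerSeries.map (ext (n := n) L1 L2) U, r, A, b, N, hσ2,
    ⟨hdist, hU2, hσ2f⟩, hpos, hN2, hdg, hrm, hAc, hAs, hbσ, ?_, ?_, ?_⟩
  · intro j hj
    have h5 := hkey j (by rw [hF2d]; exact hj)
    rwa [hF2d] at h5
  · intro h hh
    have h1 : σ2 h ∈ J2 := by
      have h2 := Ideal.mem_map_of_mem σ2 hh
      rw [hbσ] at h2
      exact (sup_le (by
        rw [Ideal.span_le]
        rintro _ rfl
        exact hζ) hb'J2) h2
    rw [hJ2, mem_map_algEquiv] at h1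
    exact h1
  · intro m' hm'
    have hmm : m' ≤ m := by
      by_contra hcon
      push Not at hcon
      exact hm2 (Ideal.pow_le_pow_right hcon hm')
    have h1 : ext K L2 f ∈ b ^ m := by
      rw [← mem_map_algEquiv σ2]
      have h2 : Ideal.map σ2 (b ^ m) = (Ideal.map σ2 b) ^ m := Ideal.map_pow _ _ _
      rw [h2, hσ2f]
      refine Ideal.mul_mem_right _ _ ?_
      have h3 := coe_mem_pow_of_taylor F2 r b' (Ideal.map σ2 b)
        (by rw [hbσ]; exact le_sup_right)
        (by rw [hbσ]; exact Ideal.mem_sup_left (Ideal.subset_span rfl)) hkey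
      rw [hF2d, hdeg] at h3
      exact h3
    exact Ideal.pow_le_pow_right hmm h1

end Pool.Agent.Helper38.EQ
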