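import Pool.Agent.Helper38.EQ.Defs

/-!
# EQ-P5 (slices)

The ring homomorphism `X i ↦ v i * ξ` for `i ∈ A`, `X i ↦ t_i` for `i ∉ A`, from
`K⟦X_1..X_n⟧` to `K⟦t_1..t_n⟧⟦ξ⟧`.  Construction: substitute in `MvPowerSeries (Option (Fin n)) K`
(`MvPowerSeries.subst`, `substAlgHom`) and then use `MvPowerSeries.optionEquivLeft`; or define it
by the formula and check multiplicativity directly.
-/

namespace Pool.Agent.Helper38.EQ

open MvPowerSeries

/-- the slice map as a function -/
private noncomputable def slF {n : ℕ} {K : Type} [Field K] (A : Finset (Fin n)) (v : Fin n → K)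
    (h : MvPowerSeries (Fin n) K) : PowerSeries (MvPowerSeries (Fin n) K) :=
  PowerSeries.mk fun l => (fun β => if ∀ i ∈ A, β i = 0 then
    ∑ γ ∈ A.finsuppAntidiag l, coeff (β + γ) h * ∏ i ∈ A, v i ^ γ i else 0 :
      MvPowerSeries (Fin n) K)

private theorem coeff_slF {n : ℕ} {K : Type} [Field K] (A : Finset (Fin n)) (v : Fin n → K)
    (h : MvPowerSeries (Fin n) K) (l : ℕ) (β : Fin n →₀ ℕ) :
    coeff β (PowerSeries.coeff l (slF A v h)) = if ∀ i ∈ A, β i = 0 then
      ∑ γ ∈ A.finsuppAntidiag l, coeff (β + γ) h * ∏ i ∈ A, v i ^ γ i else 0 := by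
  rw [slF, PowerSeries.coeff_mk]
  rfl

private theorem slF_ext {n : ℕ} {K : Type} [Field K]
    {f g : PowerSeries (MvPowerSeries (Fin n) K)}
    (h : ∀ l β, coeff β (PowerSeries.coeff l f) = coeff β (PowerSeries.coeff l g)) : f = g := by
  ext l β
  exact h l β

private noncomputable def slIn {n : ℕ} (A : Finset (Fin n)) (p : Fin n →₀ ℕ) : Fin n →₀ ℕ :=
  Finsupp.equivFunOnFinite.symm fun i => if i ∈ A then p i else 0

private noncomputable def slOut {n : ℕ} (A : Finset (Fin n)) (p : Fin n →₀ ℕ) : Fin n →₀ ℕ :=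
  Finsupp.equivFunOnFinite.symm fun i => if i ∈ A then 0 else p i

private theorem slIn_pos {n : ℕ} {A : Finset (Fin n)} (p : Fin n →₀ ℕ) {i : Fin n} (hi : i ∈ A) :
    slIn A p i = p i := by simp [slIn, hi]

private theorem slIn_neg {n : ℕ} {A : Finset (Fin n)} (p : Fin n →₀ ℕ) {i : Fin n} (hi : i ∉ A) :
    slIn A p i = 0 := by simp [slIn, hi]

private theorem slOut_pos {n : ℕ} {A : Finset (Fin n)} (p : Fin n →₀ ℕ) {i : Fin n}
    (hi : i ∈ A) : slOut A p i = 0 := by simp [slOut, hi]

private theorem slOut_neg {n : ℕ} {A : Finset (Fin n)} (p : Fin n →₀ ℕ) {i : Fin n}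
    (hi : i ∉ A) : slOut A p i = p i := by simp [slOut, hi]

private theorem slIn_support {n : ℕ} (A : Finset (Fin n)) (p : Fin n →₀ ℕ) :
    (slIn A p).support ⊆ A := by
  intro i hi
  by_contra h
  exact (Finsupp.mem_support_iff.1 hi) (slIn_neg p h)

private theorem slOut_add_slIn {n : ℕ} (A : Finset (Fin n)) (p : Fin n →₀ ℕ) :
    slOut A p + slIn A p = p := by
  ext i
  rw [Finsupp.add_apply]
  by_cases hi : i ∈ A
  · rw [slOut_pos p hi, slIn_pos p hi, zero_add]
  · rw [slOut_neg p hi, slIn_neg p hi, add_zero]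

private theorem slF_mul {n : ℕ} {K : Type} [Field K] (A : Finset (Fin n)) (v : Fin n → K)
    (h h' : MvPowerSeries (Fin n) K) : slF A v (h * h') = slF A v h * slF A v h' := by
  classical
  apply slF_ext
  intro l β
  rw [coeff_slF, PowerSeries.coeff_mul]
  rw [map_sum]
  simp_rw [coeff_mul, coeff_slF]
  by_cases hβ : ∀ i ∈ A, β i = 0
  · rw [if_pos hβ]
    have hz : ∀ b ∈ Finset.HasAntidiagonal.antidiagonal β, (∀ i ∈ A, b.1 i = 0) ∧ (∀ i ∈ A, b.2 i = 0) := by
      intro b hb
      rw [Finset.HasAntidiagonal.mem_antidiagonal] at hb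
      constructor <;> intro i hi <;>
      · have := hβ i hi
        rw [← hb, Finsupp.add_apply] at this
        omega
    have hR : (∑ a ∈ Finset.HasAntidiagonal.antidiagonal l, ∑ b ∈ Finset.HasAntidiagonal.antidiagonal β,
        (if ∀ i ∈ A, b.1 i = 0 then
          ∑ γ ∈ A.finsuppAntidiag a.1, coeff (b.1 + γ) h * ∏ i ∈ A, v i ^ γ i else 0) *
        (if ∀ i ∈ A, b.2 i = 0 then
          ∑ γ ∈ A.finsuppAntidiag a.2, coeff (b.2 + γ) h' * ∏ i ∈ A, v i ^ γ i else 0)) =
        ∑ z ∈ (Finset.HasAntidiagonal.antidiagonal l).sigma (fun a => (Finset.HasAntidiagonal.antidiagonal β) ×ˢ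
          (A.finsuppAntidiag a.1 ×ˢ A.finsuppAntidiag a.2)),
          (coeff (z.2.1.1 + z.2.2.1) h * ∏ i ∈ A, v i ^ z.2.2.1 i) *
          (coeff (z.2.1.2 + z.2.2.2) h' * ∏ i ∈ A, v i ^ z.2.2.2 i) := by
      rw [Finset.sum_sigma]
      refine Finset.sum_congr rfl fun a _ => ?_
      rw [Finset.sum_product]
      refine Finset.sum_congr rfl fun b hb => ?_
      rw [if_pos (hz b hb).1, if_pos (hz b hb).2, Finset.sum_mul_sum, Finset.sum_product]
    rw [hR]
    simp_rw [Finset.sum_mul]
    rw [Finset.sum_sigma']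
    refine Finset.sum_nbij'
      (i := fun x => ⟨(∑ i ∈ A, x.2.1 i, ∑ i ∈ A, x.2.2 i),
        ((slOut A x.2.1, slOut A x.2.2), (slIn A x.2.1, slIn A x.2.2))⟩)
      (j := fun z => ⟨z.2.2.1 + z.2.2.2, (z.2.1.1 + z.2.2.1, z.2.1.2 + z.2.2.2)⟩)
      ?_ ?_ ?_ ?_ ?_
    · rintro ⟨γ, p, q⟩ hx
      simp only [Finset.mem_sigma, Finset.mem_finsuppAntidiag, Finset.HasAntidiagonal.mem_antidiagonal,
        Finset.mem_product] at hx ⊢
      obtain ⟨⟨h1, h2⟩, h3⟩ := hx
      have h4 : ∀ i, p i + q i = β i + γ i := fun i => by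
        have := DFunLike.congr_fun h3 i
        simpa using this
      have h5 : ∀ i, i ∉ A → γ i = 0 := fun i hi => by
        by_contra hne
        exact hi (h2 (Finsupp.mem_support_iff.2 hne))
      refine ⟨?_, ?_, ⟨?_, ?_⟩, ?_, ?_⟩
      · rw [← Finset.sum_add_distrib, ← h1]
        refine Finset.sum_congr rfl fun i hi => ?_
        rw [h4 i, hβ i hi, zero_add]
      · ext i
        rw [Finsupp.add_apply]
        by_cases hi : i ∈ A
        · rw [slOut_pos _ hi, slOut_pos _ hi, hβ i hi]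
        · rw [slOut_neg _ hi, slOut_neg _ hi, h4 i, h5 i hi, add_zero]
      · exact Finset.sum_congr rfl fun i hi => slIn_pos _ hi
      · exact slIn_support A _
      · exact Finset.sum_congr rfl fun i hi => slIn_pos _ hi
      · exact slIn_support A _
    · rintro ⟨⟨a1, a2⟩, ⟨b1, b2⟩, γ1, γ2⟩ hx
      simp only [Finset.mem_sigma, Finset.mem_finsuppAntidiag, Finset.HasAntidiagonal.mem_antidiagonal,
        Finset.mem_product] at hx ⊢
      obtain ⟨h1, h2, ⟨h3, h4⟩, h5, h6⟩ := hx
      refine ⟨⟨?_, ?_⟩, ?_⟩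
      · rw [← h1, ← h3, ← h5, ← Finset.sum_add_distrib]
        rfl
      · exact (Finsupp.support_add).trans (Finset.union_subset h4 h6)
      · rw [← h2]
        abel
    · rintro ⟨γ, p, q⟩ hx
      simp only [Finset.mem_sigma, Finset.mem_finsuppAntidiag, Finset.HasAntidiagonal.mem_antidiagonal] at hx
      obtain ⟨⟨h1, h2⟩, h3⟩ := hx
      have h4 : ∀ i, p i + q i = β i + γ i := fun i => by
        have := DFunLike.congr_fun h3 i
        simpa using this
      have h5 : ∀ i, i ∉ A → γ i = 0 := fun i hi => by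
        by_contra hne
        exact hi (h2 (Finsupp.mem_support_iff.2 hne))
      have h7 : slIn A p + slIn A q = γ := by
        ext i
        rw [Finsupp.add_apply]
        by_cases hi : i ∈ A
        · rw [slIn_pos _ hi, slIn_pos _ hi, h4 i, hβ i hi, zero_add]
        · rw [slIn_neg _ hi, slIn_neg _ hi, h5 i hi]
      simp only [slOut_add_slIn, h7]
    · rintro ⟨⟨a1, a2⟩, ⟨b1, b2⟩, γ1, γ2⟩ hx
      simp only [Finset.mem_sigma, Finset.mem_finsuppAntidiag, Finset.HasAntidiagonal.mem_antidiagonal,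
        Finset.mem_product] at hx
      obtain ⟨h1, h2, ⟨h3, h4⟩, h5, h6⟩ := hx
      have hb := hz (b1, b2) (Finset.HasAntidiagonal.mem_antidiagonal.2 h2)
      have h7 : ∀ i, i ∉ A → γ1 i = 0 := fun i hi => by
        by_contra hne
        exact hi (h4 (Finsupp.mem_support_iff.2 hne))
      have h8 : ∀ i, i ∉ A → γ2 i = 0 := fun i hi => by
        by_contra hne
        exact hi (h6 (Finsupp.mem_support_iff.2 hne))
      have e1 : ∀ b γ : Fin n →₀ ℕ, (∀ i ∈ A, b i = 0) → (∀ i, i ∉ A → γ i = 0) →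
          slOut A (b + γ) = b ∧ slIn A (b + γ) = γ := by
        intro b γ hb hγ
        constructor
        · ext i
          by_cases hi : i ∈ A
          · rw [slOut_pos _ hi, hb i hi]
          · rw [slOut_neg _ hi, Finsupp.add_apply, hγ i hi, add_zero]
        · ext i
          by_cases hi : i ∈ A
          · rw [slIn_pos _ hi, Finsupp.add_apply, hb i hi, zero_add]
          · rw [slIn_neg _ hi, hγ i hi]
      have e2 : ∑ i ∈ A, (b1 + γ1) i = a1 := by
        rw [← h3]
        refine Finset.sum_congr rfl fun i hi => ?_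
        rw [Finsupp.add_apply, hb.1 i hi, zero_add]
      have e3 : ∑ i ∈ A, (b2 + γ2) i = a2 := by
        rw [← h5]
        refine Finset.sum_congr rfl fun i hi => ?_
        rw [Finsupp.add_apply, hb.2 i hi, zero_add]
      simp only [(e1 b1 γ1 hb.1 h7).1, (e1 b1 γ1 hb.1 h7).2, (e1 b2 γ2 hb.2 h8).1,
        (e1 b2 γ2 hb.2 h8).2, e2, e3]
    · rintro ⟨γ, p, q⟩ hx
      simp only [Finset.mem_sigma, Finset.mem_finsuppAntidiag, Finset.HasAntidiagonal.mem_antidiagonal] at hx
      obtain ⟨⟨h1, h2⟩, h3⟩ := hx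
      have h4 : ∀ i, p i + q i = β i + γ i := fun i => by
        have := DFunLike.congr_fun h3 i
        simpa using this
      have h8 : ∏ i ∈ A, v i ^ γ i = (∏ i ∈ A, v i ^ (slIn A p) i) *
          ∏ i ∈ A, v i ^ (slIn A q) i := by
        rw [← Finset.prod_mul_distrib]
        refine Finset.prod_congr rfl fun i hi => ?_
        rw [slIn_pos _ hi, slIn_pos _ hi, ← pow_add, h4 i, hβ i hi, zero_add]
      simp only [slOut_add_slIn, h8]
      ring
  · rw [if_neg hβ]
    symm
    refine Finset.sum_eq_zero fun a _ => Finset.sum_eq_zero fun b hb => ?_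
    rw [Finset.HasAntidiagonal.mem_antidiagonal] at hb
    by_cases h1 : ∀ i ∈ A, b.1 i = 0
    · by_cases h2 : ∀ i ∈ A, b.2 i = 0
      · exfalso
        apply hβ
        intro i hi
        rw [← hb, Finsupp.add_apply, h1 i hi, h2 i hi]
      · rw [if_neg h2, mul_zero]
    · rw [if_neg h1, zero_mul]

theorem exists_slice {n : ℕ} {K : Type} [Field K] (A : Finset (Fin n)) (v : Fin n → K) :
    ∃ ε : MvPowerSeries (Fin n) K →+* PowerSeries (MvPowerSeries (Fin n) K),
      ∀ (h : MvPowerSeries (Fin n) K) (l : ℕ) (β : Fin n →₀ ℕ),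
        coeff β (PowerSeries.coeff l (ε h)) =
          if ∀ i ∈ A, β i = 0 then
            ∑ γ ∈ A.finsuppAntidiag l, coeff (β + γ) h * ∏ i ∈ A, v i ^ γ i
          else 0 := by
  classical
  refine ⟨{ toFun := slF A v, map_one' := ?_, map_mul' := slF_mul A v, map_zero' := ?_,
            map_add' := ?_ }, fun h l β => coeff_slF A v h l β⟩
  · apply slF_ext
    intro l β
    rw [coeff_slF, PowerSeries.coeff_one]
    by_cases hl : l = 0
    · subst hl
      rw [if_pos rfl, Finset.finsuppAntidiag_zero, Finset.sum_singleton, add_zero]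
      simp only [Finsupp.coe_zero, Pi.zero_apply, pow_zero, Finset.prod_const_one, mul_one]
      rw [coeff_one]
      by_cases hβ : β = 0
      · subst hβ
        simp
      · simp [hβ]
    · rw [if_neg hl]
      split_ifs with hβ
      · rw [map_zero]
        refine Finset.sum_eq_zero fun γ hγ => ?_
        rw [coeff_one, if_neg, zero_mul]
        intro h0
        rw [Finset.mem_finsuppAntidiag] at hγ
        apply hl
        rw [← hγ.1]
        refine Finset.sum_eq_zero fun i _ => ?_
        have := DFunLike.congr_fun h0 i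
        rw [Finsupp.add_apply] at this
        have h2 : β i + γ i = 0 := this
        omega
      · rw [map_zero]
  · apply slF_ext
    intro l β
    rw [coeff_slF]
    simp
  · intro f g
    apply slF_ext
    intro l β
    rw [map_add, map_add, coeff_slF, coeff_slF, coeff_slF]
    split_ifs with hβ
    · rw [← Finset.sum_add_distrib]
      refine Finset.sum_congr rfl fun γ _ => ?_
      rw [map_add, add_mul]
    · rw [add_zero]

end Pool.Agent.Helper38.EQ
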