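import Pool.Agent.Helper38.EQ.Orders

/-! Smooth germs. -/

namespace Pool.Agent.Helper38.EQ

open MvPowerSeries

/-- A smooth germ: in suitable coordinates, a coordinate subspace. -/
def SmoothIdeal {n : ℕ} {K : Type} [Field K] (A : Finset (Fin n))
    (b : Ideal (MvPowerSeries (Fin n) K)) : Prop :=
  ∃ τ : MvPowerSeries (Fin n) K ≃ₐ[K] MvPowerSeries (Fin n) K, b = (coordIdeal K A).map τ

end Pool.Agent.Helper38.EQ
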