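import Pool.Agent.Helper38.EQ.Len
import Pool.Agent.Helper38.EQ.Deriv
import Pool.Agent.Helper38.EQ.BaseChange
import Pool.Agent.Helper38.EQ.Transversal
import Pool.Agent.Helper38.EQ.WeiOrder

/-! Preparations for the inductive step. -/

namespace Pool.Agent.Helper38.EQ

open MvPowerSeries

theorem coeff_ext {n : ℕ} {K L : Type} [Field K] [Field L] [Algebra K L]
    (h : MvPowerSeries (Fin n) K) (α : Fin n →₀ ℕ) :
    coeff α (ext K L h) = algebraMap K L (coeff α h) := by
  simp [ext]

theorem ext_mem_pow {n : ℕ} {K L : Type} [Field K] [Field L] [Algebra K L]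
    (h : MvPowerSeries (Fin n) K) (m : ℕ) :
    ext K L h ∈ IsLocalRing.maximalIdeal (MvPowerSeries (Fin n) L) ^ m ↔
      h ∈ IsLocalRing.maximalIdeal (MvPowerSeries (Fin n) K) ^ m := by
  rw [mem_maximalIdeal_pow_iff, mem_maximalIdeal_pow_iff]
  refine forall_congr' fun α => imp_congr_right fun _ => ?_
  rw [coeff_ext]
  exact map_eq_zero (algebraMap K L)

theorem ext_ne_top {n : ℕ} {K L : Type} [Field K] [Field L] [Algebra K L]
    (I : Ideal (MvPowerSeries (Fin n) K)) (hI : I ≠ ⊤) : I.map (ext K L) ≠ ⊤ := by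
  intro h
  have h1 : I.map (ext K L) ≤ IsLocalRing.maximalIdeal (MvPowerSeries (Fin n) L) := by
    rw [Ideal.map_le_iff_le_comap]
    intro x hx
    have hx' := IsLocalRing.le_maximalIdeal hI hx
    rw [Ideal.mem_comap]
    have := (ext_mem_pow (L := L) x 1).mpr (by simpa using hx')
    simpa using this
  rw [h, top_le_iff] at h1
  exact (Ideal.IsPrime.ne_top inferInstance) h1

theorem ext_comp {n : ℕ} {K L M : Type} [Field K] [Field L] [Field M] [Algebra K L]
    [Algebra L M] [Algebra K M] (hKM : algebraMap K M = (algebraMap L M).comp (algebraMap K L))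
    (h : MvPowerSeries (Fin n) K) : ext K M h = ext L M (ext K L h) := by
  ext α
  rw [coeff_ext, coeff_ext, coeff_ext, hKM]; rfl

/-- The discriminant is in the ideal generated by `F` and its derivative. -/
theorem C_discr_mem {R : Type} [CommRing R] (F : Polynomial R) (hF : F.Monic)
    (hpos : 0 < F.natDegree) (J : Ideal (PowerSeries R))
    (h1 : (F : PowerSeries R) ∈ J) (h2 : (F.derivative : PowerSeries R) ∈ J) :
    PowerSeries.C F.discr ∈ J := by
  obtain ⟨p, q, -, -, hpq⟩ := Polynomial.exists_mul_add_mul_eq_C_resultant F F.derivative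
    (m := F.natDegree) (n := F.natDegree - 1) le_rfl (Polynomial.natDegree_derivative_le F)
    (Or.inl hpos.ne')
  have h3 : PowerSeries.C (F.resultant F.derivative F.natDegree (F.natDegree - 1)) ∈ J := by
    have h4 := congrArg (fun P : Polynomial R => (P : PowerSeries R)) hpq
    simp only [Polynomial.coe_add, Polynomial.coe_mul, Polynomial.coe_C] at h4
    rw [← h4]
    exact J.add_mem (J.mul_mem_right _ h1) (J.mul_mem_right _ h2)
  rw [discr_resultant F hF hpos, map_mul]
  exact J.mul_mem_left _ h3

end Pool.Agent.Helper38.EQ
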