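import Pool.Agent.Helper38.EQ.StrataTwo

/-!
The definitions of equisingularity and of the stratification in the form used in the final
statement (in small pieces), and their equivalence with those of `Defs.lean`.
-/

namespace Pool.Agent.Helper38.EQ

open MvPowerSeries

/-- The field `K(u)`, where `u = (u_{ij})` is an `n × (n+1)` matrix of indeterminates. -/
def RatField (n : ℕ) (K : Type) [Field K] : Type :=
  FractionRing (MvPolynomial (Fin n × Fin (n + 1)) K)

noncomputable instance RatField.field (n : ℕ) (K : Type) [Field K] : Field (RatField n K) :=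
  (inferInstance : Field (FractionRing (MvPolynomial (Fin n × Fin (n + 1)) K)))

noncomputable instance RatField.algebra (n : ℕ) (K : Type) [Field K] : Algebra K (RatField n K) :=
  (inferInstance : Algebra K (FractionRing (MvPolynomial (Fin n × Fin (n + 1)) K)))

/-- The inclusion of the polynomials in the `u_{ij}` in `K(u)`. -/
noncomputable def toRat (n : ℕ) (K : Type) [Field K] :
    MvPolynomial (Fin n × Fin (n + 1)) K →+* RatField n K :=
  algebraMap (MvPolynomial (Fin n × Fin (n + 1)) K)
    (FractionRing (MvPolynomial (Fin n × Fin (n + 1)) K))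

/-- The algebraic closure of `K(u)`. -/
def GF (n : ℕ) (K : Type) [Field K] : Type := AlgebraicClosure (RatField n K)

noncomputable instance GF.field (n : ℕ) (K : Type) [Field K] : Field (GF n K) :=
  (inferInstance : Field (AlgebraicClosure (RatField n K)))

noncomputable instance GF.algebraRat (n : ℕ) (K : Type) [Field K] :
    Algebra (RatField n K) (GF n K) :=
  (inferInstance : Algebra (RatField n K) (AlgebraicClosure (RatField n K)))

noncomputable instance GF.algebra (n : ℕ) (K : Type) [Field K] : Algebra K (GF n K) :=
  (inferInstance : Algebra K (AlgebraicClosure (RatField n K)))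

/-- The indeterminate `u_{ij}`, as an element of the algebraic closure of `K(u)`. -/
noncomputable def genericU (n : ℕ) (K : Type) [Field K] (i : Fin n) (j : Fin (n + 1)) : GF n K :=
  algebraMap (RatField n K) (GF n K) (toRat n K (MvPolynomial.X (i, j)))

section

variable {n : ℕ} {K L : Type} [Field K] [Field L] [Algebra K L]

/-- The linear form `∑ u_j x_j` in the power series `x_j`. -/
noncomputable def linForm (u : Fin n → L) (x : Fin n → MvPowerSeries (Fin n) K) :
    MvPowerSeries (Fin n) L :=
  ∑ j, C (u j) * ext K L (x j)

/-- `x` is a basis: a set of generators of the maximal ideal of the ring of power series. -/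
def IsBasis (x : Fin n → MvPowerSeries (Fin n) K) : Prop :=
  Ideal.span (Set.range x) = IsLocalRing.maximalIdeal (MvPowerSeries (Fin n) K)

/-- Coordinates `(y, z)`: an isomorphism of the ring of power series in `n + 1` variables with
the ring of power series in `z` with coefficients the power series in `y_1, …, y_n`. -/
structure Coord (n : ℕ) (L : Type) [Field L] where
  /-- the isomorphism -/
  equiv : MvPowerSeries (Fin (n + 1)) L ≃ₐ[L] PowerSeries (MvPowerSeries (Fin n) L)

/-- The expansion of a power series in the coordinates `(y, z)`. -/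
noncomputable def Coord.app (σ : Coord n L) (h : MvPowerSeries (Fin (n + 1)) L) :
    PowerSeries (MvPowerSeries (Fin n) L) := σ.equiv h

/-- The ideal of the image of the zero locus of `I` under the projection `(y, z) ↦ y`. -/
noncomputable def Coord.image (σ : Coord n L) (I : Ideal (MvPowerSeries (Fin (n + 1)) L)) :
    Ideal (MvPowerSeries (Fin n) L) :=
  Ideal.comap (PowerSeries.C (R := MvPowerSeries (Fin n) L)) (Ideal.map σ.equiv I)

/-- `F` is the Weierstrass polynomial of `φ`: monic, distinguished, and `φ` is `F` times a unit. -/
def IsWPoly (φ : PowerSeries (MvPowerSeries (Fin n) L))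
    (F : Polynomial (MvPowerSeries (Fin n) L)) : Prop :=
  ∃ U, φ.IsWeierstrassFactorization F U

/-- `g = 0` is the reduced discriminant locus of `F`. -/
def IsReducedDiscr (F : Polynomial (MvPowerSeries (Fin n) L)) (g : MvPowerSeries (Fin n) L) :
    Prop :=
  Ideal.span {g} = (Ideal.span {F.discr}).radical

/-- `Δ : g = 0` is the critical variety of the projection of `V : f = 0` with the local parameters
`y_i = ∑ u_{ij} x_j`, and `I'` is the ideal of the image of the subvariety with ideal `I`. -/
def IsCritical (u : Fin n → Fin (n + 1) → L)
    (x : Fin (n + 1) → MvPowerSeries (Fin (n + 1)) K)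
    (f : MvPowerSeries (Fin (n + 1)) K) (I : Ideal (MvPowerSeries (Fin (n + 1)) K))
    (g : MvPowerSeries (Fin n) L) (I' : Ideal (MvPowerSeries (Fin n) L)) : Prop :=
  ∃ (σ : Coord n L) (F : Polynomial (MvPowerSeries (Fin n) L)),
    (∀ i, σ.app (linForm (u i) x) = PowerSeries.C (X i)) ∧
    IsWPoly (σ.app (ext K L f)) F ∧ IsReducedDiscr F g ∧
    I' = σ.image (Ideal.map (ext K L) I).radical

end

/-- Zariski equisingularity of the hypersurface germ `V : f = 0` at the origin `Q` along the
subvariety `M` with (radical) ideal `I`, by a recursion that runs through `k` critical varieties.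

* `simple`: `M` is not contained in the singular locus of `V`, and `Q` is a simple point of `V`.
* `step`: `M` is contained in the singular locus; `x` is a basis (in the admissible class `B`);
  `Δ : g = 0` is the critical variety of the generic projection with local parameters
  `x_i^u = ∑ u_{ij} x_j`, over the algebraic closure of `K(u)`, and `Δ` is equisingular at the
  image of `Q` along the image of `M` (with ideal `I'`). -/
inductive EqChain (B : BasisClass) :
    ℕ → ∀ (n : ℕ) (K : Type) [Field K], MvPowerSeries (Fin n) K →
      Ideal (MvPowerSeries (Fin n) K) → Prop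
  | simple (n : ℕ) (K : Type) [Field K] (f : MvPowerSeries (Fin n) K)
      (I : Ideal (MvPowerSeries (Fin n) K))
      (hI : ¬ singIdeal f ≤ I)
      (h1 : f ∈ IsLocalRing.maximalIdeal (MvPowerSeries (Fin n) K))
      (h2 : f ∉ IsLocalRing.maximalIdeal (MvPowerSeries (Fin n) K) ^ 2) :
      EqChain B 0 n K f I
  | step (k : ℕ) (n : ℕ) (K : Type) [Field K] (f : MvPowerSeries (Fin (n + 1)) K)
      (I : Ideal (MvPowerSeries (Fin (n + 1)) K))
      (hI : singIdeal f ≤ I)
      (x : Fin (n + 1) → MvPowerSeries (Fin (n + 1)) K)
      (hx : IsBasis x)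
      (hB : B (n + 1) K f x)
      (g : MvPowerSeries (Fin n) (GF n K)) (I' : Ideal (MvPowerSeries (Fin n) (GF n K)))
      (hc : IsCritical (genericU n K) x f I g I')
      (h : EqChain B k n (GF n K) g I') :
      EqChain B (k + 1) (n + 1) K f I

section

variable {n : ℕ} {K : Type} [Field K]

/-- The local ring of affine space at the point `Q`. -/
def LocalRingAt (Q : Fin n → K) : Type := Localization.AtPrime (pointIdeal Q)

noncomputable instance LocalRingAt.commRing (Q : Fin n → K) : CommRing (LocalRingAt Q) :=
  (inferInstance : CommRing (Localization.AtPrime (pointIdeal Q)))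

/-- The canonical homomorphism to the local ring. -/
noncomputable def toLocal (Q : Fin n → K) : MvPolynomial (Fin n) K →+* LocalRingAt Q :=
  algebraMap (MvPolynomial (Fin n) K) (Localization.AtPrime (pointIdeal Q))

/-- `Q` is a simple point of `M = V(P)`: the local ring of `M` at `Q` is regular. -/
def IsSimple (P : Ideal (MvPolynomial (Fin n) K)) (Q : Fin n → K) : Prop :=
  IsRegularLocalRing (LocalRingAt Q ⧸ P.map (toLocal Q))

/-- `V : f = 0` is equisingular at `Q` along `M = V(P)`, with a recursion that runs through `k`
critical varieties. -/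
def EqAlong (B : BasisClass) (k : ℕ) (f : MvPolynomial (Fin n) K)
    (Q : Fin n → K) (P : Ideal (MvPolynomial (Fin n) K)) : Prop :=
  EqChain B k n K (taylorAt Q f) ((P.map (taylorAt Q)).radical)

/-- `Q` is a singular point of `V : f = 0`. -/
def IsSing (f : MvPolynomial (Fin n) K) (Q : Fin n → K) : Prop :=
  MvPolynomial.eval Q f = 0 ∧ ∀ j, MvPolynomial.eval Q (MvPolynomial.pderiv j f) = 0

/-- The points of `V : f = 0`. -/
def points (f : MvPolynomial (Fin n) K) : Set (Fin n → K) := {Q | MvPolynomial.eval Q f = 0}

/-- The ideal of the Zariski closure of a set of points. -/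
noncomputable abbrev idealOf (E : Set (Fin n → K)) : Ideal (MvPolynomial (Fin n) K) :=
  MvPolynomial.vanishingIdeal K E

/-- The Zariski closure of a set of points. -/
noncomputable def closureOf (E : Set (Fin n → K)) : Set (Fin n → K) :=
  MvPolynomial.zeroLocus K (idealOf E)

/-- The multiplicity of `V : f = 0` at `Q` is at least `m`. -/
def MultGe (f : MvPolynomial (Fin n) K) (m : ℕ) (Q : Fin n → K) : Prop :=
  f ∈ pointIdeal Q ^ m

/-- `V(P)` is an irreducible component of the Zariski closed set `E`. -/
def IsComponent (P : Ideal (MvPolynomial (Fin n) K)) (E : Set (Fin n → K)) : Prop :=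
  P ∈ (idealOf E).minimalPrimes

/-- A Zariski stratification of the affine hypersurface `V : f = 0`. -/
structure Stratification (B : BasisClass) (f : MvPolynomial (Fin n) K) where
  /-- the last index -/
  N : ℕ
  /-- the strata -/
  E : Fin (N + 1) → Set (Fin n → K)
  /-- `E 0` is the set of simple points of `V` -/
  E_zero : E 0 = {Q | Q ∈ points f ∧ ¬ IsSing f Q}
  /-- the strata cover `V` ... -/
  cover : ⋃ i, E i = points f
  /-- ... and are disjoint -/
  disj : ∀ i j, i ≠ j → Disjoint (E i) (E j)
  /-- (1) the closure of `E i` is irreducible -/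
  prime : ∀ i, i ≠ 0 → (idealOf (E i)).IsPrime
  /-- (1) `E i` is the set of the points of its closure at which `V` is equisingular along it -/
  eqs : ∀ i, i ≠ 0 → E i = {Q | Q ∈ closureOf (E i) ∧ ∃ k, EqAlong B k f Q (idealOf (E i))}
  /-- (2) the frontier of a stratum is a union of strata -/
  frontier : ∀ i j, (E j ∩ (closureOf (E i) \ E i)).Nonempty → E j ⊆ closureOf (E i) \ E i
  /-- (2) the closure of `E j` is an irreducible component of the frontier of some stratum -/
  component : ∀ j, j ≠ 0 → ∃ i, IsComponent (idealOf (E j)) (closureOf (E i) \ E i)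

end

end Pool.Agent.Helper38.EQ
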