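import Pool.Agent.Helper38.EQ.Two
import Pool.Agent.Helper38.EQ.Strata

/-! Strata with a chain of two critical varieties. -/

namespace Pool.Agent.Helper38.EQ

open MvPowerSeries

section

variable {n : ℕ} {K : Type} [Field K]

/-- The points of a stratum other than the first are singular points of `V`. -/
theorem ZariskiStratification.sing {B : BasisClass} {f : MvPolynomial (Fin n) K}
    (S : ZariskiStratification B f) (β : Fin (S.N + 1)) (hβ0 : β ≠ 0) :
    polyMultIdeal f 2 ≤ S.P β := by
  have hEβ : ∀ R ∈ S.E β, MvPolynomial.eval R f = 0 ∧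
      ∀ j, MvPolynomial.eval R (MvPolynomial.pderiv j f) = 0 := by
    intro R hR
    have h1 : R ∈ ⋃ i, S.E i := Set.mem_iUnion.mpr ⟨β, hR⟩
    rw [S.cover] at h1
    refine ⟨h1, fun j => ?_⟩
    by_contra hcon
    have h2 : R ∈ S.E 0 := by rw [S.E_zero]; exact ⟨h1, j, hcon⟩
    exact (Set.disjoint_left.mp (S.disj β 0 hβ0)) hR h2
  rw [polyMultIdeal, Ideal.span_le]
  rintro g ⟨l, hl, rfl⟩
  match l with
  | [] =>
    show f ∈ S.P β
    rw [S.P_eq β]
    intro R hR
    simpa [MvPolynomial.aeval_eq_eval] using (hEβ R hR).1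
  | [i] =>
    show MvPolynomial.pderiv i f ∈ S.P β
    rw [S.P_eq β]
    intro R hR
    simpa [MvPolynomial.aeval_eq_eval] using (hEβ R hR).2 i
  | _ :: _ :: _ => simp at hl

/-- A prime ideal of singular points is the ideal of its trace on a suitable stratum. -/
theorem ZariskiStratification.exists_trace [IsAlgClosed K] {B : BasisClass}
    {f : MvPolynomial (Fin n) K}
    (S : ZariskiStratification B f) (p : Ideal (MvPolynomial (Fin n) K)) [p.IsPrime]
    (hp : polyMultIdeal f 2 ≤ p) :
    ∃ β, β ≠ 0 ∧ S.P β ≤ p ∧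
      MvPolynomial.vanishingIdeal K (S.E β ∩ MvPolynomial.zeroLocus K p) = p := by
  have h1 : ∀ R ∈ MvPolynomial.zeroLocus K p, ∃ β, β ≠ 0 ∧ R ∈ S.E β := by
    intro R hR
    have hRp : p ≤ pointIdeal R := (le_pointIdeal_iff p R).mpr hR
    have hsR : polyMultIdeal f 2 ≤ pointIdeal R := hp.trans hRp
    have hfR : MvPolynomial.eval R f = 0 :=
      hsR (Ideal.subset_span ⟨[], by simp, rfl⟩)
    have hdR : ∀ j, MvPolynomial.eval R (MvPolynomial.pderiv j f) = 0 := fun j =>
      hsR (Ideal.subset_span ⟨[j], by simp, rfl⟩)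
    have h2 : R ∈ ⋃ i, S.E i := by rw [S.cover]; exact hfR
    obtain ⟨β, hβ⟩ := Set.mem_iUnion.mp h2
    refine ⟨β, ?_, hβ⟩
    rintro rfl
    rw [S.E_zero] at hβ
    obtain ⟨-, j, hj⟩ := hβ
    exact hj (hdR j)
  have h2 : (Finset.univ.filter (fun β : Fin (S.N + 1) => β ≠ 0)).inf
      (fun β => MvPolynomial.vanishingIdeal K (S.E β ∩ MvPolynomial.zeroLocus K p)) ≤ p := by
    intro h hh
    have h3 : h ∈ MvPolynomial.vanishingIdeal K (MvPolynomial.zeroLocus K p) := by
      intro R hR
      obtain ⟨β, hβ0, hβ⟩ := h1 R hR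
      have h4 : h ∈ MvPolynomial.vanishingIdeal K (S.E β ∩ MvPolynomial.zeroLocus K p) :=
        (Finset.inf_le (f := fun β => MvPolynomial.vanishingIdeal K
          (S.E β ∩ MvPolynomial.zeroLocus K p))
          (Finset.mem_filter.mpr ⟨Finset.mem_univ β, hβ0⟩)) hh
      exact h4 R ⟨hβ, hR⟩
    rwa [MvPolynomial.IsPrime.vanishingIdeal_zeroLocus] at h3
  obtain ⟨β, hβ, hβp⟩ := (Ideal.IsPrime.inf_le' (inferInstance : p.IsPrime)).mp h2
  have hβ0 : β ≠ 0 := (Finset.mem_filter.mp hβ).2
  refine ⟨β, hβ0, ?_, le_antisymm hβp ?_⟩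
  · refine le_trans ?_ hβp
    rw [S.P_eq β]
    intro h hh R hR
    exact hh R hR.1
  · intro h hh R hR
    exact hR.2 h hh

theorem strata_two [IsAlgClosed K] [CharZero K] {B : BasisClass}
    {f : MvPolynomial (Fin n) K} (S : ZariskiStratification B f) (α : Fin (S.N + 1)) (hα : α ≠ 0)
    (Q : Fin n → K) (hQ : Q ∈ S.E α)
    (hk : EqLen B 2 n K (taylorAt Q f) (((S.P α).map (taylorAt Q)).radical)) :
    IsSimplePoint (S.P α) Q := by
  have hprime : (S.P α).IsPrime := S.prime α hα
  have hmem := hQ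
  rw [S.eqs α hα] at hmem
  obtain ⟨hQz, -⟩ := hmem
  have hP : S.P α ≤ pointIdeal Q := (le_pointIdeal_iff _ _).mpr hQz
  match n, f, S, α, hα, Q, hQ, hk, hprime, hQz, hP with
  | 0, f, S, α, hα, Q, hQ, hk, _, _, _ => 
    exact absurd hk (by intro h; generalize hg : taylorAt Q f = g at h; cases h)
  | n + 1, f, S, α, hα, Q, hQ, hk, hprime, hQz, hP =>
    obtain ⟨p, hp, hpP, hph, hps, hpk, hp2, hpm, hkey⟩ := two_local hP hk
    have hpQ : p ≤ pointIdeal Q := hpP.trans hP
    obtain ⟨β, hβ0, hβp, hβ⟩ := S.exists_trace p hp2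
    have hβprime : (S.P β).IsPrime := S.prime β hβ0
    have hβsing := S.sing β hβ0
    rcases hβp.eq_or_lt with heq | hlt
    · -- the closure of a stratum
      have hQβ : Q ∈ S.E β := by
        rw [S.eqs β hβ0, heq]
        exact ⟨(le_pointIdeal_iff p Q).mp hpQ, ⟨2, hpk⟩⟩
      have hαβ : α = β := by
        by_contra hne
        exact (Set.disjoint_left.mp (S.disj α β hne)) hQ hQβ
      rw [hαβ, heq]
      exact hps
    · exfalso
      -- a point `R` of `E β` in `V(p)`
      have hne : (S.E β ∩ MvPolynomial.zeroLocus K p).Nonempty := by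
        rw [Set.nonempty_iff_ne_empty]
        intro h
        rw [h] at hβ
        apply hp.ne_top
        rw [← hβ, Ideal.eq_top_iff_one]
        intro x hx
        exact absurd hx (Set.notMem_empty x)
      obtain ⟨R, hRβ, hRp⟩ := hne
      have hpR : p ≤ pointIdeal R := (le_pointIdeal_iff p R).mpr hRp
      have hmemR := hRβ
      rw [S.eqs β hβ0] at hmemR
      obtain ⟨hRz, k, hkR⟩ := hmemR
      have hβR : S.P β ≤ pointIdeal R := (le_pointIdeal_iff _ _).mpr hRz
      have hfβ : f ∈ S.P β := hβsing (Ideal.subset_span ⟨[], by simp, rfl⟩)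
      have hsR : singIdeal (taylorAt R f) ≤ ((S.P β).map (taylorAt R)).radical := by
        rw [singIdeal_eq, ← polyMultIdeal_map]
        exact (Ideal.map_mono hβsing).trans Ideal.le_radical
      -- the height of the ideal of `E β`
      have hβh : (S.P β).height + 1 ≤ 3 := by
        rw [← hph]
        exact Ideal.height_add_one_le_of_lt_of_isPrime hlt
      have hmulR := (alg_main hβR hfβ ⟨k, hkR⟩).1
      have hk1 : k ≤ 1 := by
        obtain ⟨L, iF, iC, iA, A, b, hA, hs, hb, -⟩ := alg_claimC hβR hfβ hkR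
        have hbp : b.IsPrime := smoothIdeal_isPrime A b hs
        have hbh : b.height = (k + 1 : ℕ) := by rw [smoothIdeal_height A b hs, hA]
        have hne : (S.P β).map (extAt L R) ≠ ⊤ := by
          intro h
          rw [map_extAt] at h
          have h2 : (S.P β).map (taylorAt R) ≠ ⊤ := fun h3 =>
            radical_map_ne_top hβR (Ideal.radical_eq_top.mpr h3)
          exact ext_ne_top _ h2 h
        obtain ⟨q, hq⟩ := Ideal.nonempty_minimalPrimes hne
        have hqp : q.IsPrime := hq.1.1
        have hqh : q.height = (S.P β).height := height_minimalPrimes R (S.P β) hβR q hq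
        have hbq : b ≤ q := hb.trans (hqp.radical_le_iff.mpr hq.1.2)
        have h1 : b.height ≤ q.height := Ideal.height_mono hbq
        rw [hbh, hqh] at h1
        have h2 : (((k + 1 : ℕ) : ℕ∞)) + 1 ≤ 3 := (add_le_add_left h1 1).trans hβh
        have h3 : k + 1 + 1 ≤ 3 := by exact_mod_cast h2
        omega
      -- the multiplicity at `R` is that at `Q`
      obtain ⟨m, hm1, hm2⟩ := exists_order (taylorAt Q f) hk.ne_zero
      have hm1' : f ∈ pointIdeal Q ^ m := (taylorAt_mem_pow Q m f).mp hm1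
      have hm2' : f ∉ pointIdeal Q ^ (m + 1) := fun h =>
        hm2 ((taylorAt_mem_pow Q (m + 1) f).mpr h)
      have hmR1 : f ∈ pointIdeal R ^ m :=
        mem_pow_of_polyMultIdeal_le R f m ((hpm m hm1').trans hpR)
      have hmR2 : f ∉ pointIdeal R ^ (m + 1) := fun h =>
        hm2' (mem_pow_of_polyMultIdeal_le Q f (m + 1) ((hmulR (m + 1) h).trans (hβp.trans hpQ)))
      have hmR1' := (taylorAt_mem_pow R m f).mpr hmR1
      have hmR2' : taylorAt R f ∉
          IsLocalRing.maximalIdeal (MvPowerSeries (Fin (n + 1)) K) ^ (m + 1) := fun h =>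
        hmR2 ((taylorAt_mem_pow R (m + 1) f).mp h)
      have hkey' := fun M iM iA σ' F' U' h1 h2 g' N' => 
        hkey R m hpR hm1' hm2' M iM iA σ' F' U' h1 h2 g' N'
      have hk01 : k = 0 ∨ k = 1 := by omega
      rcases hk01 with rfl | rfl
      · generalize hg : taylorAt R f = g at hkR hsR
        generalize hI : ((S.P β).map (taylorAt R)).radical = I at hkR hsR
        cases hkR with
        | simple n K f I hI h1 h2 => exact hI hsR
      · have hext : ∀ (M : Type) (iM : Field M) (iA : Algebra K M),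
            extAt M R f = ext K M (taylorAt R f) := fun _ _ _ => rfl
        simp only [hext] at hkey'
        generalize hg : taylorAt R f = φ at hkR hkey' hmR1' hmR2'
        generalize hI : ((S.P β).map (taylorAt R)).radical = I at hkR
        clear hsR hmulR hkey hpk hpm hmR1 hmR2 hm1 hm2 hm1' hm2' hk hg hI hext
        cases hkR with
        | step k n K f I hI x hx hB σ hσ F U hF g hg h =>
          have hC' : CharZero (GenField n K) :=
            charZero_of_injective_algebraMap (algebraMap K (GenField n K)).injective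
          have h12 : g ∉ IsLocalRing.maximalIdeal (MvPowerSeries (Fin n) (GenField n K)) ^ 2 := by
            generalize (Ideal.comap (PowerSeries.C (R := MvPowerSeries (Fin n) (GenField n K)))
              (Ideal.map σ (Ideal.map (ext K (GenField n K)) I).radical)) = I' at h
            clear hF hg hB hx hσ
            cases h with
            | simple n K f I hI h1 h2 => exact h2
          have hgr : g ∈ (Ideal.span {F.discr}).radical := by
            rw [← hg]; exact Ideal.mem_span_singleton_self g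
          obtain ⟨N, hN⟩ := hgr
          refine hkey' (GenField n K) inferInstance inferInstance σ F U hF
            (natDegree_eq_order φ x hx σ hσ F U hF m hmR1' hmR2') g N
            (Ideal.mem_span_singleton.mp hN) ?_
          rw [singIdeal_eq, multIdeal_eq_top g 2 h12]

theorem zero_chain {B : BasisClass}
    {f : MvPolynomial (Fin n) K} (S : ZariskiStratification B f) (α : Fin (S.N + 1)) (hα : α ≠ 0)
    (Q : Fin n → K)
    (hk : EqLen B 0 n K (taylorAt Q f) (((S.P α).map (taylorAt Q)).radical)) : False := by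
  have hsR : singIdeal (taylorAt Q f) ≤ ((S.P α).map (taylorAt Q)).radical := by
    rw [singIdeal_eq, ← polyMultIdeal_map]
    exact (Ideal.map_mono (S.sing α hα)).trans Ideal.le_radical
  generalize hg : taylorAt Q f = g at hk hsR
  generalize hI : ((S.P α).map (taylorAt Q)).radical = I at hk hsR
  cases hk with
  | simple n K f I hI h1 h2 => exact hI hsR

theorem one_chain [IsAlgClosed K] [CharZero K] {B : BasisClass}
    {f : MvPolynomial (Fin n) K} (S : ZariskiStratification B f) (α : Fin (S.N + 1)) (hα : α ≠ 0)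
    (Q : Fin n → K) (hQ : Q ∈ S.E α)
    (hk : EqLen B 1 n K (taylorAt Q f) (((S.P α).map (taylorAt Q)).radical)) :
    IsSimplePoint (S.P α) Q := by
  have hprime : (S.P α).IsPrime := S.prime α hα
  have hmem := hQ
  rw [S.eqs α hα] at hmem
  obtain ⟨hQz, -⟩ := hmem
  have hP : S.P α ≤ pointIdeal Q := (le_pointIdeal_iff _ _).mpr hQz
  have hsing := S.sing α hα
  have hfα : f ∈ S.P α := hsing (Ideal.subset_span ⟨[], by simp, rfl⟩)
  obtain ⟨p, hp, hpP⟩ := Ideal.exists_minimalPrimes_le hsing
  have hpp : p.IsPrime := hp.1.1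
  obtain ⟨β, hβ0, hβp, -⟩ := S.exists_trace p hp.1.2
  have hβprime : (S.P β).IsPrime := S.prime β hβ0
  have hβ : S.P β = p := le_antisymm hβp (hp.2 ⟨hβprime, S.sing β hβ0⟩ hβp)
  have hpQ : p ≤ pointIdeal Q := hpP.trans hP
  have hEqp : EquisingularAt B f Q p := by
    apply eqLen_one_transfer _ _ _ hk
    · rw [singIdeal_eq, ← polyMultIdeal_map]
      exact (Ideal.map_mono hp.1.2).trans Ideal.le_radical
    · exact radical_map_ne_top hpQ
  have hQβ : Q ∈ S.E β := by
    rw [S.eqs β hβ0, hβ]
    exact ⟨(le_pointIdeal_iff p Q).mp hpQ, hEqp⟩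
  have hαβ : α = β := by
    by_contra hne
    exact (Set.disjoint_left.mp (S.disj α β hne)) hQ hQβ
  apply (alg_main hP hfα ⟨1, hk⟩).2 2
  rw [hαβ, hβ]
  exact hp

/-- The main theorem. -/
theorem strata_final [IsAlgClosed K] [CharZero K] {B : BasisClass}
    {f : MvPolynomial (Fin n) K} (S : ZariskiStratification B f) (α : Fin (S.N + 1)) (hα : α ≠ 0)
    (Q : Fin n → K) (hQ : Q ∈ S.E α) :
    (∀ m, f ∈ pointIdeal Q ^ m → polyMultIdeal f m ≤ S.P α) ∧
    ((S.P α).height ≤ 4 → IsSimplePoint (S.P α) Q) ∧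
    (n ≤ 5 → IsSimplePoint (S.P α) Q) ∧
    (∀ μ, S.P α ∈ (polyMultIdeal f μ).minimalPrimes → IsSimplePoint (S.P α) Q) ∧
    (∀ k, EqLen B k n K (taylorAt Q f) (((S.P α).map (taylorAt Q)).radical) →
      k ≤ 2 ∨ (S.P α).height ≤ k + 1 → IsSimplePoint (S.P α) Q) := by
  have hmain := strata_main S α hα Q hQ
  obtain ⟨h1, h2, h3, h4, h5⟩ := hmain
  have hprime : (S.P α).IsPrime := S.prime α hα
  have hmem := hQ
  rw [S.eqs α hα] at hmem
  obtain ⟨hQz, heq⟩ := hmem
  have hP : S.P α ≤ pointIdeal Q := (le_pointIdeal_iff _ _).mpr hQz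
  have hlen : ∀ k, EqLen B k n K (taylorAt Q f) (((S.P α).map (taylorAt Q)).radical) →
      k ≤ 2 ∨ (S.P α).height ≤ k + 1 → IsSimplePoint (S.P α) Q := by
    rintro k hk (hk2 | hh)
    · have hk' : k = 0 ∨ k = 1 ∨ k = 2 := by omega
      rcases hk' with rfl | rfl | rfl
      · exact (zero_chain S α hα Q hk).elim
      · exact one_chain S α hα Q hQ hk
      · exact strata_two S α hα Q hQ hk
    · exact h5 k hk hh
  have h4' : (S.P α).height ≤ 4 → IsSimplePoint (S.P α) Q := by
    intro hh
    obtain ⟨k, hk⟩ := heq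
    apply hlen k hk
    rcases Nat.lt_or_ge k 3 with hk3 | hk3
    · left; omega
    · right
      refine hh.trans ?_
      have : (4 : ℕ) ≤ k + 1 := by omega
      exact_mod_cast this
  refine ⟨h1, h4', ?_, h4, hlen⟩
  intro hn
  by_cases hne : S.P α = pointIdeal Q
  · rw [hne]
    exact isSimplePoint_pointIdeal Q
  · apply h4'
    have h1 : S.P α < pointIdeal Q := lt_of_le_of_ne hP hne
    have h2 := Ideal.height_add_one_le_of_lt_of_isPrime h1
    rw [height_pointIdeal] at h2
    have h3 : ((n : ℕ∞)) ≤ 5 := by exact_mod_cast hn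
    have h4 : (S.P α).height + 1 ≤ 4 + 1 := h2.trans (h3.trans (by norm_num))
    exact (ENat.add_le_add_iff_right ENat.one_ne_top).mp h4

end

end Pool.Agent.Helper38.EQ
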