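import Pool.Agent.Helper38.EQ.Descent
import Pool.Agent.Helper38.EQ.InvFun
import Pool.Agent.Helper38.EQ.Deriv

/-!
# EQ-Z3a (Taylor expansion at a point with values in a field)

`exists_taylor`: define the coefficient of `E h` at `α` as `ev (H_α h)` where `H_α h` is the Hasse
derivative, `coeff β (H_α h) = ∏_i (β i + α i).choose (α i) * coeff (β + α) h`.  Multiplicativity is
`H_α (g h) = ∑_{α' + α'' = α} H_α' g * H_α'' h` (Vandermonde), or obtain
`h ↦ h(X + T)` by substitution into `MvPowerSeries (Fin N ⊕ Fin N) L` and regroup.  Another way: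
in characteristic 0, `H_α = (1/α!) ∂^α` and the Leibniz rule.

`taylor_unique`: `Δ = φ₁ - φ₂`; show `Δ h ∈ max^N` for all `h` by induction on `N`: the constant
coefficient of `Δ h` vanishes and `∂_i (Δ h) = Δ (∂_i h) ∈ max^N`, so `Δ h ∈ max^(N+1)` in
characteristic 0.

-/

namespace Pool.Agent.Helper38.EQ

open MvPowerSeries

private theorem Taylor_len {n : ℕ} {K : Type} [Field K] (l : List (Fin n)) (i : Fin n)
    (f : MvPowerSeries (Fin n) K) : iterD (l ++ [i]) f = iterD l (pderiv K i f) := by
  simp [iterD, List.foldr_append]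

private theorem Taylor_add {n : ℕ} {K : Type} [Field K] (l : List (Fin n))
    (f g : MvPowerSeries (Fin n) K) : iterD l (f + g) = iterD l f + iterD l g := by
  induction l with
  | nil => rfl
  | cons i l ih =>
    show pderiv K i (iterD l (f + g)) = pderiv K i (iterD l f) + pderiv K i (iterD l g)
    rw [ih, map_add]

private theorem Taylor_zero {n : ℕ} {K : Type} [Field K] (l : List (Fin n)) :
    iterD l (0 : MvPowerSeries (Fin n) K) = 0 := by
  induction l with
  | nil => rfl
  | cons i l ih =>
    show pderiv K i (iterD l (0 : MvPowerSeries (Fin n) K)) = 0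
    rw [ih, map_zero]

/-- Hasse derivatives, as additive maps. -/
private noncomputable def Taylor_H {n : ℕ} {K : Type} [Field K] (α : Fin n →₀ ℕ) :
    MvPowerSeries (Fin n) K →+ MvPowerSeries (Fin n) K where
  toFun h := fun β => ((∏ j, (β j + α j).choose (α j) : ℕ) : K) * coeff (β + α) h
  map_zero' := by
    funext β
    show ((∏ j, (β j + α j).choose (α j) : ℕ) : K) * coeff (β + α) (0 : MvPowerSeries (Fin n) K)
      = (0 : K)
    rw [map_zero, mul_zero]
  map_add' f g := by
    funext β
    show ((∏ j, (β j + α j).choose (α j) : ℕ) : K) * coeff (β + α) (f + g) =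
      ((∏ j, (β j + α j).choose (α j) : ℕ) : K) * coeff (β + α) f +
      ((∏ j, (β j + α j).choose (α j) : ℕ) : K) * coeff (β + α) g
    rw [map_add, mul_add]

private theorem Taylor_coeff_H {n : ℕ} {K : Type} [Field K] (α β : Fin n →₀ ℕ)
    (h : MvPowerSeries (Fin n) K) :
    coeff β (Taylor_H α h) = ((∏ j, (β j + α j).choose (α j) : ℕ) : K) * coeff (β + α) h := rfl

private theorem Taylor_H_zero {n : ℕ} {K : Type} [Field K] (h : MvPowerSeries (Fin n) K) :
    Taylor_H 0 h = h := by
  ext β
  rw [Taylor_coeff_H]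
  simp

private theorem Taylor_H_pderiv {n : ℕ} {K : Type} [Field K] (α : Fin n →₀ ℕ) (i : Fin n)
    (h : MvPowerSeries (Fin n) K) :
    Taylor_H α (pderiv K i h) =
      ((α i + 1 : ℕ) : MvPowerSeries (Fin n) K) * Taylor_H (α + Finsupp.single i 1) h := by
  classical
  ext β
  have h1 : ((α i + 1 : ℕ) : MvPowerSeries (Fin n) K) = C ((α i + 1 : ℕ) : K) := by
    rw [map_natCast]
  rw [h1, coeff_C_mul, Taylor_coeff_H, Taylor_coeff_H, coeff_pderiv, add_assoc]
  have h2 : (∏ j, (β j + α j).choose (α j)) * (β i + α i + 1) =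
      (α i + 1) * ∏ j, (β j + (α + Finsupp.single i 1 : Fin n →₀ ℕ) j).choose
        ((α + Finsupp.single i 1 : Fin n →₀ ℕ) j) := by
    rw [← Finset.mul_prod_erase _ _ (Finset.mem_univ i),
      ← Finset.mul_prod_erase (Finset.univ : Finset (Fin n))
        (fun j => (β j + (α + Finsupp.single i 1 : Fin n →₀ ℕ) j).choose
        ((α + Finsupp.single i 1 : Fin n →₀ ℕ) j)) (Finset.mem_univ i)]
    have h3 : ∏ j ∈ Finset.univ.erase i, (β j + (α + Finsupp.single i 1 : Fin n →₀ ℕ) j).choose
        ((α + Finsupp.single i 1 : Fin n →₀ ℕ) j) =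
        ∏ j ∈ Finset.univ.erase i, (β j + α j).choose (α j) := by
      refine Finset.prod_congr rfl fun j hj => ?_
      have hji : i ≠ j := fun h => (Finset.ne_of_mem_erase hj) h.symm
      rw [Finsupp.add_apply, Finsupp.single_apply, if_neg hji, add_zero]
    rw [h3, Finsupp.add_apply, Finsupp.single_apply, if_pos rfl]
    have h4 := Nat.add_one_mul_choose_eq (β i + α i) (α i)
    have h5 : (β i + α i).choose (α i) * (β i + α i + 1) =
        (α i + 1) * (β i + (α i + 1)).choose (α i + 1) := by
      rw [mul_comm (α i + 1), ← add_assoc, mul_comm]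
      exact h4
    calc (β i + α i).choose (α i) * (∏ j ∈ Finset.univ.erase i, (β j + α j).choose (α j)) *
        (β i + α i + 1) = ((β i + α i).choose (α i) * (β i + α i + 1)) *
          ∏ j ∈ Finset.univ.erase i, (β j + α j).choose (α j) := by ring
      _ = _ := by rw [h5]; ring
  have h6 : (((∏ j, (β j + α j).choose (α j)) * (β i + α i + 1) : ℕ) : K) =
      (((α i + 1) * ∏ j, (β j + (α + Finsupp.single i 1 : Fin n →₀ ℕ) j).choose
        ((α + Finsupp.single i 1 : Fin n →₀ ℕ) j) : ℕ) : K) := by rw [h2]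
  rw [Nat.cast_mul, Nat.cast_mul] at h6
  have h7 : (((β + α) i : ℕ) : K) + 1 = ((β i + α i + 1 : ℕ) : K) := by
    rw [Finsupp.add_apply]
    push_cast
    ring
  rw [h7]
  linear_combination (coeff (β + (α + Finsupp.single i 1)) h) * h6

/-- EQ-Z3a -/
theorem eq_of_iterD {N : ℕ} {Λ : Type} [Field Λ] [CharZero Λ]
    (a b : MvPowerSeries (Fin N) Λ)
    (h : ∀ l : List (Fin N), constantCoeff (iterD l a) = constantCoeff (iterD l b)) : a = b := by
  ext α
  obtain ⟨l, c, _, hc, hlc⟩ := Descent_exists_iterD (K := Λ) _ α rfl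
  have h1 := h l
  rw [hlc, hlc] at h1
  exact mul_left_cancel₀ hc h1

/-- EQ-Z3a -/
theorem mem_pow_of_iterD {N : ℕ} {Λ : Type} [Field Λ] [CharZero Λ]
    (a : MvPowerSeries (Fin N) Λ) (m : ℕ)
    (h : ∀ l : List (Fin N), l.length < m → constantCoeff (iterD l a) = 0) :
    a ∈ IsLocalRing.maximalIdeal (MvPowerSeries (Fin N) Λ) ^ m := by
  rw [mem_maximalIdeal_pow_iff]
  intro α hα
  obtain ⟨l, c, hl, hc, hlc⟩ := Descent_exists_iterD (K := Λ) _ α rfl
  have h1 := h l (by omega)
  rw [hlc] at h1
  exact (mul_eq_zero.1 h1).resolve_left hc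

/-- EQ-Z3a -/
theorem exists_taylor {N : ℕ} {L Λ : Type} [Field L] [Field Λ] [CharZero L] [CharZero Λ]
    (ev : MvPowerSeries (Fin N) L →+* Λ) :
    ∃ E : MvPowerSeries (Fin N) L →+* MvPowerSeries (Fin N) Λ,
      (∀ h, constantCoeff (E h) = ev h) ∧ ∀ i h, E (pderiv L i h) = pderiv Λ i (E h) := by
  classical
  let E : MvPowerSeries (Fin N) L →+ MvPowerSeries (Fin N) Λ :=
    { toFun := fun h => fun α => ev (Taylor_H α h)
      map_zero' := by
        funext α
        show ev (Taylor_H α 0) = 0
        rw [map_zero, map_zero]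
      map_add' := fun f g => by
        funext α
        show ev (Taylor_H α (f + g)) = ev (Taylor_H α f) + ev (Taylor_H α g)
        rw [map_add, map_add] }
  have hE : ∀ α h, coeff α (E h) = ev (Taylor_H α h) := fun α h => rfl
  have h0 : ∀ h, constantCoeff (E h) = ev h := by
    intro h
    rw [← coeff_zero_eq_constantCoeff_apply, hE, Taylor_H_zero]
  have hd : ∀ i h, E (pderiv L i h) = pderiv Λ i (E h) := by
    intro i h
    ext α
    rw [hE, coeff_pderiv, hE, Taylor_H_pderiv, map_mul, map_natCast]
    push_cast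
    ring
  have hone : E 1 = 1 := by
    refine eq_of_iterD _ _ fun l => ?_
    induction l using List.reverseRecOn with
    | nil =>
      show constantCoeff (E 1) = constantCoeff (1 : MvPowerSeries (Fin N) Λ)
      rw [h0, map_one, map_one]
    | append_singleton l i _ =>
      rw [Taylor_len, Taylor_len, ← hd, Derivation.map_one_eq_zero, Derivation.map_one_eq_zero,
        map_zero, Taylor_zero]
  have hmul0 : ∀ (l : List (Fin N)) (f g : MvPowerSeries (Fin N) L),
      constantCoeff (iterD l (E (f * g))) = constantCoeff (iterD l (E f * E g)) := by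
    intro l
    induction l using List.reverseRecOn with
    | nil =>
      intro f g
      show constantCoeff (E (f * g)) = constantCoeff (E f * E g)
      rw [h0, map_mul, map_mul, h0, h0]
    | append_singleton l i ih =>
      intro f g
      rw [Taylor_len, Taylor_len, ← hd, Derivation.leibniz, Derivation.leibniz, smul_eq_mul,
        smul_eq_mul, smul_eq_mul, smul_eq_mul, map_add, Taylor_add, Taylor_add, map_add, map_add,
        ih, ih, hd, hd]
  let E' : MvPowerSeries (Fin N) L →+* MvPowerSeries (Fin N) Λ :=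
    { E with
      map_one' := hone
      map_mul' := fun f g => eq_of_iterD _ _ fun l => hmul0 l f g }
  exact ⟨E', h0, hd⟩

end Pool.Agent.Helper38.EQ
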