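import Pool.Agent.Helper38.EQ.LenTwo
import Pool.Agent.Helper38.EQ.Am
import Pool.Agent.Helper38.EQ.NonSD

/-! Chains of length two at a point of an affine hypersurface. -/

namespace Pool.Agent.Helper38.EQ

open MvPowerSeries

theorem contract_minimalPrimes {n : ℕ} {K : Type} (L : Type) [Field K] [Field L] [Algebra K L]
    (Q : Fin n → K) (P : Ideal (MvPolynomial (Fin n) K)) [P.IsPrime]
    (q : Ideal (MvPowerSeries (Fin n) L))
    (hq : q ∈ (P.map (extAt L Q)).minimalPrimes) : q.comap (extAt L Q) = P := by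
  let _ := (extAt L Q).toAlgebra
  have hfl : Module.Flat (MvPolynomial (Fin n) K) (MvPowerSeries (Fin n) L) :=
    taylorAt_flat (L := L) Q
  have hqp : q.IsPrime := hq.1.1
  have hPq : P ≤ q.under (MvPolynomial (Fin n) K) := by
    rw [Ideal.under_def, ← Ideal.map_le_iff_le_comap]
    exact hq.1.2
  have : (q.under (MvPolynomial (Fin n) K)).IsPrime := inferInstance
  have : q.LiesOver (q.under (MvPolynomial (Fin n) K)) := ⟨rfl⟩
  obtain ⟨q', hq'q, hq'p, hq'o⟩ :=
    Ideal.exists_ideal_le_liesOver_of_le (p := P) (q := q.under (MvPolynomial (Fin n) K)) q hPq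
  have h1 : P.map (extAt L Q) ≤ q' := by
    rw [Ideal.map_le_iff_le_comap]
    exact le_of_eq hq'o.over
  have h2 : q' = q := le_antisymm hq'q (hq.2 ⟨hq'p, h1⟩ hq'q)
  subst h2
  exact hq'o.over.symm

theorem multIdeal_extAt_le {n : ℕ} {K L : Type} [Field K] [Field L] [Algebra K L]
    (Q : Fin n → K) (f : MvPolynomial (Fin n) K) (m : ℕ) (q : Ideal (MvPowerSeries (Fin n) L))
    (h : polyMultIdeal f m ≤ q.comap (extAt L Q)) : multIdeal (extAt L Q f) m ≤ q := by
  rw [multIdeal, Ideal.span_le]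
  rintro _ ⟨l, hl, rfl⟩
  rw [iterD_extAt]
  exact h (Ideal.subset_span ⟨l, hl, rfl⟩)

theorem mem_pow_of_polyMultIdeal_le {n : ℕ} {K : Type} [Field K] [CharZero K]
    (Q : Fin n → K) (f : MvPolynomial (Fin n) K) (μ : ℕ)
    (h : polyMultIdeal f μ ≤ pointIdeal Q) : f ∈ pointIdeal Q ^ μ := by
  by_contra hcon
  rw [← taylorAt_mem_pow] at hcon
  have h1 := multIdeal_eq_top _ μ hcon
  rw [← polyMultIdeal_map] at h1
  have h2 : (polyMultIdeal f μ).map (taylorAt Q) ≤
      IsLocalRing.maximalIdeal (MvPowerSeries (Fin n) K) := by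
    rw [← map_pointIdeal Q]
    exact Ideal.map_mono h
  rw [h1, top_le_iff] at h2
  exact (Ideal.IsPrime.ne_top inferInstance) h2

theorem X_sub_C_mem_of_taylor {R : Type} [CommRing R] (F : Polynomial R) (hF : F.Monic)
    (r : R) (b' : Ideal R) (p : Ideal (PowerSeries R)) [p.IsPrime]
    (hb : b'.map PowerSeries.C ≤ p) (hFp : (F : PowerSeries R) ∈ p)
    (h : ∀ j ≤ F.natDegree, (Polynomial.taylor r F).coeff (F.natDegree - j) ∈ b' ^ j) :
    PowerSeries.X - PowerSeries.C r ∈ p := by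
  have h1 := Polynomial.sum_taylor_eq F r
  rw [Polynomial.sum_over_range _ (by simp), Polynomial.natDegree_taylor] at h1
  have h2 : (F : PowerSeries R) =
      ∑ i ∈ Finset.range (F.natDegree + 1), PowerSeries.C ((Polynomial.taylor r F).coeff i) *
        (PowerSeries.X - PowerSeries.C r) ^ i := by
    conv_lhs => rw [← h1]
    have h3 := map_sum (Polynomial.coeToPowerSeries.ringHom
      (R := R)) (fun i => Polynomial.C ((Polynomial.taylor r F).coeff i) *
        (Polynomial.X - Polynomial.C r) ^ i) (Finset.range (F.natDegree + 1))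
    rw [Polynomial.coeToPowerSeries.ringHom_apply] at h3
    rw [h3]
    refine Finset.sum_congr rfl fun i _ => ?_
    rw [map_mul, map_pow, map_sub]
    simp [Polynomial.coeToPowerSeries.ringHom_apply]
  have hlead : (Polynomial.taylor r F).coeff F.natDegree = 1 := by
    rw [Polynomial.coeff_taylor_natDegree]; exact hF
  rw [Finset.sum_range_succ, hlead, map_one, one_mul] at h2
  have h3 : ∑ i ∈ Finset.range F.natDegree, PowerSeries.C ((Polynomial.taylor r F).coeff i) *
        (PowerSeries.X - PowerSeries.C r) ^ i ∈ p := by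
    refine Ideal.sum_mem _ fun i hi => ?_
    have hi' : i < F.natDegree := Finset.mem_range.mp hi
    have h4 := h (F.natDegree - i) (Nat.sub_le _ _)
    rw [Nat.sub_sub_self hi'.le] at h4
    have h5 : (Polynomial.taylor r F).coeff i ∈ b' :=
      Ideal.pow_le_self (by omega) h4
    exact Ideal.mul_mem_right _ _ (hb (Ideal.mem_map_of_mem _ h5))
  have h4 : (PowerSeries.X - PowerSeries.C r) ^ F.natDegree ∈ p := by
    have h5 : (PowerSeries.X - PowerSeries.C r) ^ F.natDegree = (F : PowerSeries R) -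
        ∑ i ∈ Finset.range F.natDegree, PowerSeries.C ((Polynomial.taylor r F).coeff i) *
        (PowerSeries.X - PowerSeries.C r) ^ i := by
      rw [h2]; ring
    rw [h5]
    exact p.sub_mem hFp h3
  exact Ideal.IsPrime.mem_of_pow_mem inferInstance _ h4

theorem two_local {n : ℕ} {K : Type} [Field K] [IsAlgClosed K] [CharZero K] {B : BasisClass}
    {f : MvPolynomial (Fin (n + 1)) K} {Q : Fin (n + 1) → K}
    {P : Ideal (MvPolynomial (Fin (n + 1)) K)} [P.IsPrime]
    (hP : P ≤ pointIdeal Q)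
    (hk : EqLen B 2 (n + 1) K (taylorAt Q f) ((P.map (taylorAt Q)).radical)) :
    ∃ P₁ : Ideal (MvPolynomial (Fin (n + 1)) K), P₁.IsPrime ∧ P₁ ≤ P ∧ P₁.height = 3 ∧
      IsSimplePoint P₁ Q ∧
      EqLen B 2 (n + 1) K (taylorAt Q f) ((P₁.map (taylorAt Q)).radical) ∧
      polyMultIdeal f 2 ≤ P₁ ∧
      (∀ m, f ∈ pointIdeal Q ^ m → polyMultIdeal f m ≤ P₁) ∧
      (∀ (R : Fin (n + 1) → K) (m : ℕ), P₁ ≤ pointIdeal R → f ∈ pointIdeal Q ^ m →
        f ∉ pointIdeal Q ^ (m + 1) →
        ∀ (M : Type) (_ : Field M) (_ : Algebra K M)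
          (σ' : MvPowerSeries (Fin (n + 1)) M ≃ₐ[M] PowerSeries (MvPowerSeries (Fin n) M))
          (F' : Polynomial (MvPowerSeries (Fin n) M))
          (U' : PowerSeries (MvPowerSeries (Fin n) M)),
          (σ' (extAt M R f)).IsWeierstrassFactorization F' U' → F'.natDegree = m →
          ∀ (g' : MvPowerSeries (Fin n) M) (N' : ℕ), F'.discr ∣ g' ^ N' →
          singIdeal g' ≠ ⊤) := by
  obtain ⟨L, iF, iC, iA, σ, F, U, g, N, r, A', b', A, b, hF, hdeg, hd1, hd2, hr, hA', hs', hsle,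
    hrad, hA, hs, hbmap, htay, hbI, hmul, htrans⟩ :=
    len_two_data (taylorAt Q f) _ hk (radical_map_ne_top hP)
  have hbp : b.IsPrime := smoothIdeal_isPrime A b hs
  have hbh : b.height = (3 : ℕ) := by rw [smoothIdeal_height A b hs, hA]
  have hsingI := hk.singIdeal_le
  -- the multiplicity
  obtain ⟨m, hm1, hm2⟩ := exists_order (taylorAt Q f) hk.ne_zero
  have hfm : F.natDegree = m := hdeg m hm1 hm2
  have hm2' : 2 ≤ m := by
    by_contra hcon
    have h1 : taylorAt Q f ∉ IsLocalRing.maximalIdeal (MvPowerSeries (Fin (n + 1)) K) ^ 2 :=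
      fun h => hm2 (Ideal.pow_le_pow_right (by omega) h)
    have h2 := multIdeal_eq_top _ 2 h1
    rw [← singIdeal_eq] at h2
    exact radical_map_ne_top hP (top_le_iff.mp (h2 ▸ hsingI))
  have hbI' : b ≤ (P.map (extAt L Q)).radical := by
    refine hbI.trans ?_
    rw [map_extAt]
    have h1 := Ideal.map_radical_le (f := ext (n := n + 1) K L) (I := P.map (taylorAt Q))
    exact (Ideal.radical_mono h1).trans (by rw [Ideal.radical_idem])
  set P₁ := b.comap (extAt L Q) with hP₁
  have hP₁p : P₁.IsPrime := Ideal.comap_isPrime _ _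
  have hP₁P : P₁ ≤ P := alg_contract hP b hbI'
  have hmulP : ∀ m, f ∈ pointIdeal Q ^ m → polyMultIdeal f m ≤ P₁ := by
    intro m hm'
    rw [hP₁, ← Ideal.map_le_iff_le_comap, map_extAt, polyMultIdeal_map]
    exact ext_multIdeal b _ m (hmul m ((taylorAt_mem_pow Q m f).mpr hm'))
  have hfQ1 : f ∈ pointIdeal Q ^ m := (taylorAt_mem_pow Q m f).mp hm1
  have hfQ2 : f ∉ pointIdeal Q ^ (m + 1) := fun h => hm2 ((taylorAt_mem_pow Q (m + 1) f).mpr h)
  have hsing : polyMultIdeal f 2 ≤ P₁ := by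
    refine le_trans ?_ (hmulP m hfQ1)
    rw [polyMultIdeal, polyMultIdeal]
    apply Ideal.span_mono
    rintro _ ⟨l, hl, rfl⟩
    exact ⟨l, by omega, rfl⟩
  have hfP₁ : f ∈ P₁ := hsing (Ideal.subset_span ⟨[], by simp, rfl⟩)
  have hP₁Q : P₁ ≤ pointIdeal Q := hP₁P.trans hP
  -- no point of `V(P₁)` of multiplicity `m` has a smooth discriminant
  have hkey : ∀ (R : Fin (n + 1) → K) (M : Type) (_ : Field M) (_ : Algebra K M)
      (σ' : MvPowerSeries (Fin (n + 1)) M ≃ₐ[M] PowerSeries (MvPowerSeries (Fin n) M))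
      (F' : Polynomial (MvPowerSeries (Fin n) M))
      (U' : PowerSeries (MvPowerSeries (Fin n) M)),
      (σ' (extAt M R f)).IsWeierstrassFactorization F' U' → F'.natDegree = m →
      ∀ (r : Ideal (MvPowerSeries (Fin (n + 1)) M)), r ∈ (P₁.map (extAt M R)).minimalPrimes →
      ∀ (g' : MvPowerSeries (Fin n) M) (N' : ℕ), F'.discr ∣ g' ^ N' →
      singIdeal g' ≤ (r.map σ').comap (PowerSeries.C (R := MvPowerSeries (Fin n) M)) := by
    intro R M iM iAM σ' F' U' hF' hd' r' hr' g' N' hg'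
    by_contra hsd
    have hrp : r'.IsPrime := hr'.1.1
    have hrc : r'.comap (extAt M R) = P₁ := contract_minimalPrimes M R P₁ r' hr'
    obtain ⟨Λ, iΛ, iΛ0, Ey, hEy, hker, ξ, hξ1, hξ2, hξ3⟩ := am f m hm2' Q R σ F U hF hfm b
      (multIdeal_extAt_le Q f m b (hmulP m hfQ1)) σ' F' U' hF' hd' r'
      (multIdeal_extAt_le R f m r' (by rw [hrc]; exact hmulP m hfQ1))
      (by rw [hrc]) g' N' hg' hsd
    have hL0 : CharZero L := charZero_of_injective_algebraMap (algebraMap K L).injective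
    refine non_sd Ey hEy A' (by omega) b' hs' ?_ g F.discr hd2 hsle hrad ξ hξ1 hξ2 hξ3
    intro h
    rw [hker, Ideal.mem_comap, hbmap]
    exact C_mem_lift_iff b' _ hr h
  -- every minimal prime of the extension of `P₁` contains `b`
  have hmin : ∀ q ∈ (P₁.map (extAt L Q)).minimalPrimes, b ≤ q := by
    intro q hq
    have hqp : q.IsPrime := hq.1.1
    have h1 := hkey Q L iF iA σ F U hF hfm q hq g N hd1
    have hqσ : (q.map σ).IsPrime := Ideal.map_isPrime_of_equiv σ
    have h2 : b' ≤ (q.map σ).comap (PowerSeries.C (R := MvPowerSeries (Fin n) L)) := by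
      refine hrad.trans ?_
      rw [(Ideal.comap_isPrime (PowerSeries.C (R := MvPowerSeries (Fin n) L))
        (q.map σ)).radical_le_iff]
      exact h1
    have h3 : b'.map PowerSeries.C ≤ q.map σ := Ideal.map_le_iff_le_comap.mpr h2
    have hfq : extAt L Q f ∈ q := hq.1.2 (Ideal.mem_map_of_mem _ hfP₁)
    have hFq : (F : PowerSeries (MvPowerSeries (Fin n) L)) ∈ q.map σ := by
      have h4 : σ (extAt L Q f) ∈ q.map σ := Ideal.mem_map_of_mem σ hfq
      rw [show σ (extAt L Q f) = F * U from hF.eq_mul] at h4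
      exact (Ideal.mul_unit_mem_iff_mem _ hF.isUnit).mp h4
    have h4 := X_sub_C_mem_of_taylor F hF.isDistinguishedAt.monic r b' (q.map σ) h3 hFq htay
    have h5 : b.map σ ≤ q.map σ := by
      rw [hbmap]
      refine sup_le ?_ h3
      rw [Ideal.span_le]
      rintro _ rfl
      exact h4
    intro z hz
    rw [← mem_map_algEquiv σ]
    exact h5 (Ideal.mem_map_of_mem σ hz)
  have hle : P₁.map (extAt L Q) ≤ b := Ideal.map_comap_le
  have hb₁ : b ≤ (P₁.map (extAt L Q)).radical := by
    rw [← Ideal.sInf_minimalPrimes]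
    exact le_sInf hmin
  have hbmin : b ∈ (P₁.map (extAt L Q)).minimalPrimes := by
    obtain ⟨q, hq, hqb⟩ := Ideal.exists_minimalPrimes_le hle
    rwa [le_antisymm (hmin q hq) hqb]
  refine ⟨P₁, hP₁p, hP₁P, ?_, alg_finish hP₁Q A b hs hb₁ hle, ?_, hsing, hmulP, ?_⟩
  · rw [← height_minimalPrimes Q P₁ hP₁Q b hbmin, hbh]
    rfl
  · apply htrans
    · rw [singIdeal_eq, ← polyMultIdeal_map]
      exact (Ideal.map_mono hsing).trans Ideal.le_radical
    · exact radical_map_ne_top hP₁Q
    · refine hb₁.trans (Ideal.radical_mono ?_)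
      rw [map_extAt]
      exact Ideal.map_mono Ideal.le_radical
  · intro R m' hR hm1' hm2'' M iM iAM σ' F' U' hF' hd' g' N' hg' htop
    have hmm : m' = m := by
      rcases lt_trichotomy m' m with h | h | h
      · exact absurd (Ideal.pow_le_pow_right (by omega) hfQ1) hm2''
      · exact h
      · exact absurd (Ideal.pow_le_pow_right (by omega) hm1') hfQ2
    subst hmm
    have hne : P₁.map (extAt M R) ≠ ⊤ := by
      intro h
      rw [map_extAt] at h
      have h2 : P₁.map (taylorAt R) ≠ ⊤ := fun h3 =>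
        radical_map_ne_top hR (Ideal.radical_eq_top.mpr h3)
      exact ext_ne_top _ h2 h
    obtain ⟨q, hq⟩ := Ideal.nonempty_minimalPrimes hne
    have hqp : q.IsPrime := hq.1.1
    have h1 := hkey R M iM iAM σ' F' U' hF' hd' q hq g' N' hg'
    rw [htop, top_le_iff] at h1
    have hqσ : (q.map σ').IsPrime := Ideal.map_isPrime_of_equiv σ'
    exact (Ideal.comap_isPrime (PowerSeries.C (R := MvPowerSeries (Fin n) M))
        (q.map σ')).ne_top h1

end Pool.Agent.Helper38.EQ
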