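import Pool.Agent.Helper38.EQ.Puiseux

/-!
# EQ-P2 (two specialisations)

Let `m = F.natDegree`; `m = 0` and `m = 1` are trivial, so let `m ≥ 2`.
For a polynomial `G` over `k⟦η⟧` let `G_η` be the polynomial whose coefficients are the
derivatives `d/dη` of the coefficients of `G` and `G_w = G.derivative`.

**Lemma P.** Let `k` be algebraically closed of characteristic 0, `G` monic of degree `m ≥ 1` over
`k⟦η⟧`, `D = resultant G_w G (m-1) m ≠ 0`, `R = resultant G_w G_η (m-1) (m-1)`, `P = G(0; w)`, and
let `c` be the number (with multiplicity) of roots `s` of `P'` with `P(s) = 0`.  Then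
(a) `ord D ≤ ord R + c` (in `ℕ∞`);
(b) if `P = w^m` then `ord D = ord R + (m - 1)`.
Proof.  Apply `puiseux_splits` to `G_w / m` (monic): for some `N ≥ 1` the polynomial
`G_w(σ^N; w)` is `m ∏_{l<m-1} (w - s_l)` with `s_l ∈ k⟦σ⟧`.  Let `E : k⟦η⟧ → k⟦σ⟧`, `η ↦ σ^N`
(`PowerSeries.expand`).  By `resultant_map_map` and `resultant_eq_prod_eval`,
`E D = m^m ∏ h_l` and `E R = m^(m-1) ∏ r_l` with `h_l = (E G)(s_l)`, `r_l = (E G_η)(s_l)`.
Chain rule in `k⟦σ⟧` with the Euler derivation `θ = σ d/dσ` (note `θ (E a) = N σ^N E(a')`):
`θ h_l = N σ^N r_l + (E G_w)(s_l) θ s_l = N σ^N r_l`.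
In `k⟦σ⟧`, `ord (θ h) ≥ ord h`, with equality if `0 < ord h < ∞`.
`D ≠ 0` gives `h_l ≠ 0`.  So `ord r_l + N ≥ ord h_l` always, with equality if `ord h_l > 0`.
If `ord h_l = 0` use `ord r_l ≥ 0 = ord h_l`.  Now `ord h_l > 0` iff `P(s_l(0)) = 0`, and the
`s_l(0)` are the roots of `P'` with multiplicity (`P' = m ∏ (w - s_l(0))`).  Summing over `l`:
`N ord D = ∑ ord h_l ≤ ∑ ord r_l + N c = N ord R + N c`, and if `P = w^m` all `s_l(0) = 0`, all
`ord h_l > 0` and equality holds everywhere with `c = m - 1`.

**Conclusion.** `R := resultant F_w F_η (m-1) (m-1) ∈ κ⟦η⟧` maps to the corresponding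
resultants `R^ρ`, `R^ι` over `K` and `Ω`; the discriminant is up to sign
`resultant F F_w m (m-1)` (`Polynomial.resultant_deriv`, `resultant_comm`), so the images of
`D = ± F.discr` over `K` and `Ω` both have order exactly `e` (`ρ(U(0)) ≠ 0`, and
`ι(U(0)) ≠ 0` by injectivity).
Lemma P (b) over `K`: `ord R^ρ = e - (m-1)`.  The coefficient of `R` at `η^(e-(m-1))` is mapped
by `ρ` to something non zero, so it is non zero, so its image under the injective `ι` is non zero:
`ord R^ι ≤ e - (m-1)`.  Lemma P (a) over `Ω`: `e ≤ ord R^ι + c ≤ e - (m-1) + c`, so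
`c ≥ m - 1`: every root of `P'` is a root of `P`, where `P = F^ι(0; w)`.
In characteristic 0 over an algebraically closed field a monic `P` of degree `m` such that all
roots of `P'` are roots of `P` is `(w - c)^m`: if `ρ_1,…,ρ_k` are the distinct roots with
multiplicities `m_i` then the `ρ_i` account for `∑ (m_i - 1) = m - k` roots of `P'`, so
`m - 1 ≤ m - k`, `k ≤ 1`.
-/

namespace Pool.Agent.Helper38.EQ

open Polynomial in
/-- The polynomial of the derivatives of the coefficients. -/
private noncomputable def TwoSpec_dc {κ : Type} [CommRing κ] (F : Polynomial (PowerSeries κ)) :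
    Polynomial (PowerSeries κ) :=
  ∑ n ∈ F.support, Polynomial.monomial n (PowerSeries.derivative κ (F.coeff n))

private theorem TwoSpec_dc_coeff {κ : Type} [CommRing κ] (F : Polynomial (PowerSeries κ)) (n : ℕ) :
    (TwoSpec_dc F).coeff n = PowerSeries.derivative κ (F.coeff n) := by
  classical
  unfold TwoSpec_dc
  rw [Polynomial.finsetSum_coeff]
  simp only [Polynomial.coeff_monomial]
  rw [Finset.sum_ite_eq']
  split_ifs with h
  · rfl
  · rw [Polynomial.notMem_support_iff.mp h, map_zero]

private theorem TwoSpec_dc_add {κ : Type} [CommRing κ] (F G : Polynomial (PowerSeries κ)) :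
    TwoSpec_dc (F + G) = TwoSpec_dc F + TwoSpec_dc G := by
  ext n : 1
  rw [Polynomial.coeff_add, TwoSpec_dc_coeff, TwoSpec_dc_coeff, TwoSpec_dc_coeff,
    Polynomial.coeff_add, map_add]

private theorem TwoSpec_dc_monomial {κ : Type} [CommRing κ] (n : ℕ) (a : PowerSeries κ) :
    TwoSpec_dc (Polynomial.monomial n a) =
      Polynomial.monomial n (PowerSeries.derivative κ a) := by
  classical
  ext i : 1
  rw [TwoSpec_dc_coeff, Polynomial.coeff_monomial, Polynomial.coeff_monomial]
  split_ifs with h
  · rfl
  · rw [map_zero]

private theorem TwoSpec_deriv_map {κ K : Type} [CommRing κ] [CommRing K] (ρ : κ →+* K)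
    (a : PowerSeries κ) : PowerSeries.derivative K (PowerSeries.map ρ a) =
      PowerSeries.map ρ (PowerSeries.derivative κ a) := by
  ext n
  rw [PowerSeries.coeff_derivative, PowerSeries.coeff_map, PowerSeries.coeff_map,
    PowerSeries.coeff_derivative, map_mul, map_add, map_natCast, map_one]

private theorem TwoSpec_dc_map {κ K : Type} [CommRing κ] [CommRing K] (ρ : κ →+* K)
    (F : Polynomial (PowerSeries κ)) :
    TwoSpec_dc (F.map (PowerSeries.map ρ)) = (TwoSpec_dc F).map (PowerSeries.map ρ) := by
  ext n : 1
  rw [TwoSpec_dc_coeff, Polynomial.coeff_map, Polynomial.coeff_map, TwoSpec_dc_coeff,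
    TwoSpec_deriv_map]

private theorem TwoSpec_dc_natDegree {κ : Type} [CommRing κ]
    (F : Polynomial (PowerSeries κ)) (hF : F.Monic) :
    (TwoSpec_dc F).natDegree ≤ F.natDegree - 1 := by
  rw [Polynomial.natDegree_le_iff_coeff_eq_zero]
  intro n hn
  rw [TwoSpec_dc_coeff]
  rcases Nat.lt_or_ge F.natDegree n with h | h
  · rw [Polynomial.coeff_eq_zero_of_natDegree_lt h, map_zero]
  · have h2 : n = F.natDegree := by omega
    subst h2
    rw [hF.coeff_natDegree]
    exact PowerSeries.derivative_one

/-- The Euler derivation. -/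
private theorem TwoSpec_coeff_euler {k : Type} [CommRing k] (h : PowerSeries k) (n : ℕ) :
    PowerSeries.coeff n (PowerSeries.X * PowerSeries.derivative k h) =
      (n : k) * PowerSeries.coeff n h := by
  cases n with
  | zero => simp
  | succ n =>
    rw [PowerSeries.coeff_succ_X_mul, PowerSeries.coeff_derivative]
    push_cast
    ring

private theorem TwoSpec_order_euler {k : Type} [Field k] [CharZero k] (h : PowerSeries k)
    (h0 : PowerSeries.constantCoeff h = 0) :
    (PowerSeries.X * PowerSeries.derivative k h).order = h.order := by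
  apply le_antisymm
  · apply PowerSeries.le_order
    intro i hi
    have h1 := PowerSeries.coeff_of_lt_order i hi
    rw [TwoSpec_coeff_euler] at h1
    rcases Nat.eq_zero_or_pos i with hi0 | hi0
    · subst hi0
      rw [PowerSeries.coeff_zero_eq_constantCoeff_apply]
      exact h0
    · rcases mul_eq_zero.mp h1 with h2 | h2
      · exfalso
        have : i = 0 := by exact_mod_cast h2
        omega
      · exact h2
  · apply PowerSeries.le_order
    intro i hi
    rw [TwoSpec_coeff_euler, PowerSeries.coeff_of_lt_order i hi, mul_zero]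

/-- Euler derivation of an expanded series. -/
private theorem TwoSpec_euler_expand {k : Type} [Field k] (N : ℕ) (hN : N ≠ 0)
    (a : PowerSeries k) :
    PowerSeries.X * PowerSeries.derivative k (PowerSeries.expand N hN a) =
      (N : PowerSeries k) * PowerSeries.X ^ N *
        PowerSeries.expand N hN (PowerSeries.derivative k a) := by
  have h1 : (N : PowerSeries k) * PowerSeries.X ^ N *
        PowerSeries.expand N hN (PowerSeries.derivative k a) =
      (N : PowerSeries k) *
        PowerSeries.expand N hN (PowerSeries.X * PowerSeries.derivative k a) := by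
    rw [map_mul, PowerSeries.expand_X, mul_assoc]
  rw [h1]
  ext n
  rw [TwoSpec_coeff_euler]
  have h2 : (N : PowerSeries k) = PowerSeries.C (N : k) := by rw [map_natCast]
  rw [h2, PowerSeries.coeff_C_mul]
  by_cases hd : N ∣ n
  · obtain ⟨q, rfl⟩ := hd
    rw [PowerSeries.coeff_expand_mul, PowerSeries.coeff_expand_mul, TwoSpec_coeff_euler]
    push_cast
    ring
  · rw [PowerSeries.coeff_expand_of_not_dvd N hN _ hd,
      PowerSeries.coeff_expand_of_not_dvd N hN _ hd]
    ring

/-- Chain rule. -/
private theorem TwoSpec_chain {k : Type} [Field k] (N : ℕ) (hN : N ≠ 0)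
    (G : Polynomial (PowerSeries k)) (s : PowerSeries k) :
    PowerSeries.X * PowerSeries.derivative k
      ((G.map (PowerSeries.expand N hN : PowerSeries k →ₐ[k] PowerSeries k).toRingHom).eval s) =
    (N : PowerSeries k) * PowerSeries.X ^ N *
      ((TwoSpec_dc G).map
        (PowerSeries.expand N hN : PowerSeries k →ₐ[k] PowerSeries k).toRingHom).eval s +
    (G.derivative.map
        (PowerSeries.expand N hN : PowerSeries k →ₐ[k] PowerSeries k).toRingHom).eval s *
      (PowerSeries.X * PowerSeries.derivative k s) := by
  induction G using Polynomial.induction_on' with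
  | add p q hp hq =>
    rw [TwoSpec_dc_add, Polynomial.map_add, Polynomial.map_add, Polynomial.derivative_add,
      Polynomial.map_add, Polynomial.eval_add, Polynomial.eval_add, Polynomial.eval_add,
      map_add, mul_add, hp, hq]
    ring
  | monomial n a =>
    rw [TwoSpec_dc_monomial, Polynomial.derivative_monomial, Polynomial.map_monomial,
      Polynomial.map_monomial, Polynomial.map_monomial, Polynomial.eval_monomial,
      Polynomial.eval_monomial, Polynomial.eval_monomial, Derivation.leibniz]
    have h1 := TwoSpec_euler_expand N hN a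
    have h2 : (PowerSeries.expand N hN : PowerSeries k →ₐ[k] PowerSeries k).toRingHom a =
      PowerSeries.expand N hN a := rfl
    have h3 : (PowerSeries.expand N hN : PowerSeries k →ₐ[k] PowerSeries k).toRingHom
      (PowerSeries.derivative k a) = PowerSeries.expand N hN (PowerSeries.derivative k a) := rfl
    have h4 : (PowerSeries.expand N hN : PowerSeries k →ₐ[k] PowerSeries k).toRingHom
      (a * (n : PowerSeries k)) = PowerSeries.expand N hN a * (n : PowerSeries k) := by
      rw [map_mul, map_natCast]
      rfl
    rw [h2, h3, h4, Derivation.leibniz_pow]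
    simp only [smul_eq_mul, nsmul_eq_mul]
    linear_combination (s ^ n) * h1

private theorem TwoSpec_root_rel {k : Type} [Field k] [CharZero k] (N : ℕ) (hN : N ≠ 0)
    (h r : PowerSeries k)
    (hr : PowerSeries.X * PowerSeries.derivative k h =
      (N : PowerSeries k) * PowerSeries.X ^ N * r)
    (h0 : PowerSeries.constantCoeff h = 0) : h.order = r.order + N := by
  rw [← TwoSpec_order_euler h h0, hr, PowerSeries.order_mul, PowerSeries.order_mul,
    PowerSeries.order_X_pow]
  have h1 : (N : PowerSeries k).order = 0 := by
    apply PowerSeries.order_zero_of_unit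
    have h2 : (N : PowerSeries k) = PowerSeries.C (N : k) := by rw [map_natCast]
    rw [h2]
    exact (IsUnit.mk0 (N : k) (Nat.cast_ne_zero.mpr hN)).map PowerSeries.C
  rw [h1, zero_add, add_comm]

private theorem TwoSpec_prod_le {k : Type} [Field k]
    [DecidableEq k] (N : ℕ)
    (h r : PowerSeries k → PowerSeries k)
    (s : Multiset (PowerSeries k))
    (hs : ∀ x ∈ s, PowerSeries.constantCoeff (h x) = 0 → (h x).order = (r x).order + N) :
    (s.map h).prod.order ≤ (s.map r).prod.order +
      ((N * s.countP (fun x => PowerSeries.constantCoeff (h x) = 0) : ℕ) : ℕ∞) := by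
  induction s using Multiset.induction_on with
  | empty => simp
  | cons a s ih =>
    have ih' := ih (fun x hx => hs x (Multiset.mem_cons_of_mem hx))
    rw [Multiset.map_cons, Multiset.map_cons, Multiset.prod_cons, Multiset.prod_cons,
      PowerSeries.order_mul, PowerSeries.order_mul]
    by_cases h0 : PowerSeries.constantCoeff (h a) = 0
    · rw [Multiset.countP_cons_of_pos (p := fun x => PowerSeries.constantCoeff (h x) = 0) s h0,
        hs a (Multiset.mem_cons_self a s) h0]
      have h1 : ((N * (s.countP (fun x => PowerSeries.constantCoeff (h x) = 0) + 1) : ℕ) : ℕ∞) =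
        ((N * s.countP (fun x => PowerSeries.constantCoeff (h x) = 0) : ℕ) : ℕ∞) + (N : ℕ∞) := by
        rw [Nat.mul_add, Nat.cast_add, Nat.mul_one]
      rw [h1]
      calc (r a).order + (N : ℕ∞) + (s.map h).prod.order
          ≤ (r a).order + (N : ℕ∞) + ((s.map r).prod.order +
            ((N * s.countP (fun x => PowerSeries.constantCoeff (h x) = 0) : ℕ) : ℕ∞)) := by
            gcongr
        _ = _ := by ring
    · rw [Multiset.countP_cons_of_neg (p := fun x => PowerSeries.constantCoeff (h x) = 0) s h0]
      have h2 : (h a).order = 0 := by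
        apply PowerSeries.order_zero_of_unit
        rw [PowerSeries.isUnit_iff_constantCoeff]
        exact IsUnit.mk0 _ h0
      rw [h2, zero_add]
      calc (s.map h).prod.order ≤ (s.map r).prod.order +
            ((N * s.countP (fun x => PowerSeries.constantCoeff (h x) = 0) : ℕ) : ℕ∞) := ih'
        _ ≤ (r a).order + (s.map r).prod.order +
            ((N * s.countP (fun x => PowerSeries.constantCoeff (h x) = 0) : ℕ) : ℕ∞) := by
            rw [add_assoc]
            exact le_add_self

private theorem TwoSpec_prod_eq {k : Type} [Field k] (N : ℕ)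
    (h r : PowerSeries k → PowerSeries k)
    (s : Multiset (PowerSeries k))
    (hs : ∀ x ∈ s, (h x).order = (r x).order + N) :
    (s.map h).prod.order = (s.map r).prod.order + ((N * Multiset.card s : ℕ) : ℕ∞) := by
  induction s using Multiset.induction_on with
  | empty => simp
  | cons a s ih =>
    have ih' := ih (fun x hx => hs x (Multiset.mem_cons_of_mem hx))
    rw [Multiset.map_cons, Multiset.map_cons, Multiset.prod_cons, Multiset.prod_cons,
      PowerSeries.order_mul, PowerSeries.order_mul, Multiset.card_cons,
      hs a (Multiset.mem_cons_self a s), ih', Nat.mul_add, Nat.cast_add, Nat.mul_one]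
    ring

/-- The data coming from the Newton-Puiseux theorem. -/
private theorem TwoSpec_data {k : Type} [Field k] [IsAlgClosed k] [CharZero k]
    (G : Polynomial (PowerSeries k)) (hG : G.Monic) (hm : 1 ≤ G.natDegree) :
    ∃ (N : ℕ) (_ : N ≠ 0) (s : Multiset (PowerSeries k)) (h r : PowerSeries k → PowerSeries k),
      (∀ x ∈ s, PowerSeries.X * PowerSeries.derivative k (h x) =
        (N : PowerSeries k) * PowerSeries.X ^ N * r x) ∧
      N • (Polynomial.resultant G.derivative G (G.natDegree - 1) G.natDegree).order =
        (s.map h).prod.order ∧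
      N • (Polynomial.resultant G.derivative (TwoSpec_dc G) (G.natDegree - 1)
        (G.natDegree - 1)).order = (s.map r).prod.order ∧
      s.map (PowerSeries.constantCoeff (R := k)) =
        (G.map (PowerSeries.constantCoeff (R := k))).derivative.roots ∧
      (∀ x ∈ s, PowerSeries.constantCoeff (h x) =
        (G.map (PowerSeries.constantCoeff (R := k))).eval (PowerSeries.constantCoeff x)) ∧
      Multiset.card s = G.natDegree - 1 := by
  set m := G.natDegree with hmdef
  have hmk : (m : k) ≠ 0 := Nat.cast_ne_zero.mpr (by omega)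
  -- the normalised derivative
  have hminv : PowerSeries.C ((m : k)⁻¹) * (m : PowerSeries k) = 1 := by
    have h2 : (m : PowerSeries k) = PowerSeries.C (m : k) := by rw [map_natCast]
    rw [h2, ← map_mul, inv_mul_cancel₀ hmk, map_one]
  have hmps : (m : PowerSeries k) ≠ 0 := by
    intro h0
    rw [h0, mul_zero] at hminv
    exact zero_ne_one hminv
  have hcoef : G.derivative.coeff (m - 1) = (m : PowerSeries k) := by
    rw [Polynomial.coeff_derivative, Nat.sub_add_cancel hm, hmdef, hG.coeff_natDegree, one_mul,
      ← hmdef]
    have : ((m - 1 : ℕ) : PowerSeries k) + 1 = ((m - 1 + 1 : ℕ) : PowerSeries k) := by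
      push_cast
      ring
    rw [this, Nat.sub_add_cancel hm]
  have hdeg : G.derivative.natDegree = m - 1 := by
    apply le_antisymm
    · rw [hmdef]
      exact Polynomial.natDegree_derivative_le G
    · apply Polynomial.le_natDegree_of_ne_zero
      rw [hcoef]
      exact hmps
  have hlead : G.derivative.leadingCoeff = (m : PowerSeries k) := by
    rw [Polynomial.leadingCoeff, hdeg, hcoef]
  have hmonic : (Polynomial.C (PowerSeries.C ((m : k)⁻¹)) * G.derivative).Monic := by
    apply Polynomial.monic_C_mul_of_mul_leadingCoeff_eq_one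
    rw [hlead, hminv]
  obtain ⟨N, hN, hsp⟩ := puiseux_splits _ hmonic
  set E : PowerSeries k →+* PowerSeries k :=
    (PowerSeries.expand N hN : PowerSeries k →ₐ[k] PowerSeries k).toRingHom with hE
  have hEm : E (m : PowerSeries k) = (m : PowerSeries k) := by rw [map_natCast]
  have hmap : (G.derivative).map E = Polynomial.C (m : PowerSeries k) *
      (Polynomial.C (PowerSeries.C ((m : k)⁻¹)) * G.derivative).map E := by
    rw [Polynomial.map_mul, Polynomial.map_C, ← mul_assoc, ← Polynomial.C_mul]
    have : (m : PowerSeries k) * E (PowerSeries.C ((m : k)⁻¹)) = 1 := by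
      rw [← hEm, ← map_mul, mul_comm, hminv, map_one]
    rw [this, Polynomial.C_1, one_mul]
  have hsplit : (G.derivative.map E).Splits := by
    rw [hmap]
    exact hsp.C_mul _
  have hlead' : (G.derivative.map E).leadingCoeff = (m : PowerSeries k) := by
    rw [Polynomial.leadingCoeff_map_of_leadingCoeff_ne_zero, hlead, hEm]
    rw [hlead, hEm]
    exact hmps
  have hdeg' : (G.derivative.map E).natDegree = m - 1 := by
    rw [Polynomial.natDegree_map_of_leadingCoeff_ne_zero, hdeg]
    rw [hlead, hEm]
    exact hmps
  have hEord : ∀ a : PowerSeries k, (E a).order = N • a.order := fun a =>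
    PowerSeries.order_expand N hN a
  have hEconst : ∀ a : PowerSeries k, PowerSeries.constantCoeff (E a) =
      PowerSeries.constantCoeff a := fun a => PowerSeries.constantCoeff_expand N hN a
  have hmord : ∀ n : ℕ, ((m : PowerSeries k) ^ n).order = 0 := by
    intro n
    apply PowerSeries.order_zero_of_unit
    exact (IsUnit.of_mul_eq_one _ (by rw [mul_comm]; exact hminv)).pow n
  refine ⟨N, hN, (G.derivative.map E).roots, fun x => (G.map E).eval x,
    fun x => ((TwoSpec_dc G).map E).eval x, ?_, ?_, ?_, ?_, ?_, ?_⟩
  · intro x hx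
    have h1 := TwoSpec_chain N hN G x
    have h2 : (G.derivative.map E).eval x = 0 := Polynomial.isRoot_of_mem_roots hx
    rw [← hE] at h1
    rw [h1, h2, zero_mul, add_zero]
  · rw [← hEord, ← Polynomial.resultant_map_map]
    have h1 := Polynomial.resultant_eq_prod_eval (G.derivative.map E) (G.map E) m
      (by rw [hmdef]; exact Polynomial.natDegree_map_le) hsplit
    rw [hdeg'] at h1
    rw [h1, PowerSeries.order_mul, hlead', hmord, zero_add]
  · rw [← hEord, ← Polynomial.resultant_map_map]
    have h1 := Polynomial.resultant_eq_prod_eval (G.derivative.map E) ((TwoSpec_dc G).map E)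
      (m - 1) (le_trans Polynomial.natDegree_map_le (TwoSpec_dc_natDegree G hG)) hsplit
    rw [hdeg'] at h1
    rw [h1, PowerSeries.order_mul, hlead', hmord, zero_add]
  · have h1 : (G.map (PowerSeries.constantCoeff (R := k))).derivative =
        (G.derivative.map E).map (PowerSeries.constantCoeff (R := k)) := by
      rw [Polynomial.derivative_map]
      ext n
      rw [Polynomial.coeff_map, Polynomial.coeff_map, Polynomial.coeff_map, hEconst]
    rw [h1]
    symm
    apply hsplit.roots_map_of_ne_zero
    intro h0
    have h2 := congrArg (fun p => Polynomial.coeff p (m - 1)) h0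
    simp only [Polynomial.coeff_map, Polynomial.coeff_zero] at h2
    rw [hcoef, hEconst, map_natCast] at h2
    exact hmk h2
  · intro x _
    have h1 : (G.map (PowerSeries.constantCoeff (R := k))) =
        (G.map E).map (PowerSeries.constantCoeff (R := k)) := by
      ext n
      rw [Polynomial.coeff_map, Polynomial.coeff_map, Polynomial.coeff_map, hEconst]
    rw [h1, Polynomial.eval_map, Polynomial.eval₂_hom]
  · rw [← hdeg']
    exact hsplit.natDegree_eq_card_roots.symm

/-- Lemma P (a). -/
private theorem TwoSpec_lemmaPa {k : Type} [Field k] [IsAlgClosed k] [CharZero k]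
    [DecidableEq k]
    (G : Polynomial (PowerSeries k)) (hG : G.Monic) (hm : 1 ≤ G.natDegree) (e t : ℕ)
    (hD : (Polynomial.resultant G.derivative G (G.natDegree - 1) G.natDegree).order = e)
    (hR : (Polynomial.resultant G.derivative (TwoSpec_dc G) (G.natDegree - 1)
        (G.natDegree - 1)).order ≤ t) :
    e ≤ t + (G.map (PowerSeries.constantCoeff (R := k))).derivative.roots.countP
      (fun x => (G.map (PowerSeries.constantCoeff (R := k))).eval x = 0) := by
  obtain ⟨N, hN, s, h, r, hrel, hDD, hRR, hroots, hconst, hcard⟩ := TwoSpec_data G hG hm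
  have h1 := TwoSpec_prod_le N h r s (fun x hx h0 => TwoSpec_root_rel N hN _ _ (hrel x hx) h0)
  have h2 : s.countP (fun x => PowerSeries.constantCoeff (h x) = 0) =
      (G.map (PowerSeries.constantCoeff (R := k))).derivative.roots.countP
      (fun x => (G.map (PowerSeries.constantCoeff (R := k))).eval x = 0) := by
    rw [← hroots, Multiset.countP_map]
    rw [Multiset.countP_eq_card_filter]
    congr 1
    apply Multiset.filter_congr
    intro x hx
    rw [hconst x hx]
  rw [h2, ← hDD, ← hRR, hD] at h1
  set c := (G.map (PowerSeries.constantCoeff (R := k))).derivative.roots.countP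
      (fun x => (G.map (PowerSeries.constantCoeff (R := k))).eval x = 0)
  have h3 : N • (e : ℕ∞) ≤ N • (t : ℕ∞) + ((N * c : ℕ) : ℕ∞) := by
    refine le_trans h1 ?_
    gcongr
  have h4 : ((N * e : ℕ) : ℕ∞) ≤ ((N * t + N * c : ℕ) : ℕ∞) := by
    push_cast
    simpa [nsmul_eq_mul] using h3
  have h5 : N * e ≤ N * t + N * c := by exact_mod_cast h4
  rw [← Nat.mul_add] at h5
  exact Nat.le_of_mul_le_mul_left h5 (Nat.pos_of_ne_zero hN)

/-- Lemma P (b). -/
private theorem TwoSpec_lemmaPb {k : Type} [Field k] [IsAlgClosed k] [CharZero k]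
    (G : Polynomial (PowerSeries k)) (hG : G.Monic) (hm : 1 ≤ G.natDegree) (e : ℕ)
    (hD : (Polynomial.resultant G.derivative G (G.natDegree - 1) G.natDegree).order = e)
    (h0 : G.map (PowerSeries.constantCoeff (R := k)) = Polynomial.X ^ G.natDegree) :
    ∃ t : ℕ, e = t + (G.natDegree - 1) ∧
      (Polynomial.resultant G.derivative (TwoSpec_dc G) (G.natDegree - 1)
        (G.natDegree - 1)).order = t := by
  obtain ⟨N, hN, s, h, r, hrel, hDD, hRR, hroots, hconst, hcard⟩ := TwoSpec_data G hG hm
  have hz : ∀ x ∈ s, PowerSeries.constantCoeff (h x) = 0 := by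
    intro x hx
    rw [hconst x hx, h0, Polynomial.eval_pow, Polynomial.eval_X]
    have h1 : PowerSeries.constantCoeff x ∈
        (G.map (PowerSeries.constantCoeff (R := k))).derivative.roots := by
      rw [← hroots]
      exact Multiset.mem_map_of_mem _ hx
    have h2 := Polynomial.isRoot_of_mem_roots h1
    rw [h0, Polynomial.derivative_X_pow, Polynomial.IsRoot.def, Polynomial.eval_mul,
      Polynomial.eval_C, Polynomial.eval_pow, Polynomial.eval_X] at h2
    rcases mul_eq_zero.mp h2 with h3 | h3
    · exfalso
      have : G.natDegree = 0 := by exact_mod_cast h3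
      omega
    · have h4 := eq_zero_of_pow_eq_zero h3
      rw [h4, zero_pow (by omega)]
  have h1 := TwoSpec_prod_eq N h r s
    (fun x hx => TwoSpec_root_rel N hN _ _ (hrel x hx) (hz x hx))
  rw [← hDD, ← hRR, hD, hcard] at h1
  have hfin : (Polynomial.resultant G.derivative (TwoSpec_dc G) (G.natDegree - 1)
        (G.natDegree - 1)).order ≠ ⊤ := by
    intro htop
    rw [htop] at h1
    have h2 : N • (⊤ : ℕ∞) = ⊤ := by
      rw [nsmul_eq_mul]
      exact ENat.mul_top (by exact_mod_cast hN)
    rw [h2, top_add, nsmul_eq_mul] at h1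
    have h3 : ((N * e : ℕ) : ℕ∞) = ⊤ := by
      push_cast
      exact h1
    exact ENat.natCast_ne_top _ h3
  obtain ⟨t, ht⟩ := ENat.ne_top_iff_exists.mp hfin
  refine ⟨t, ?_, ht.symm⟩
  rw [← ht] at h1
  have h4 : ((N * e : ℕ) : ℕ∞) = ((N * t + N * (G.natDegree - 1) : ℕ) : ℕ∞) := by
    rw [nsmul_eq_mul, nsmul_eq_mul] at h1
    rw [Nat.cast_add, Nat.cast_mul, Nat.cast_mul N t]
    exact h1
  have h5 : N * e = N * t + N * (G.natDegree - 1) := by exact_mod_cast h4
  rw [← Nat.mul_add] at h5
  exact Nat.eq_of_mul_eq_mul_left (Nat.pos_of_ne_zero hN) h5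

/-- A monic polynomial all of whose critical points are roots is a power. -/
private theorem TwoSpec_power {k : Type} [Field k] [IsAlgClosed k] [CharZero k]
    (P : Polynomial k) (hP : P.Monic) (hm : 2 ≤ P.natDegree)
    (hroot : ∀ x ∈ P.derivative.roots, P.eval x = 0) :
    ∃ c : k, P = (Polynomial.X - Polynomial.C c) ^ P.natDegree := by
  classical
  set m := P.natDegree with hmdef
  have hPsp : P.Splits := IsAlgClosed.splits P
  have hdsp : P.derivative.Splits := IsAlgClosed.splits _
  have hdeg : P.derivative.natDegree = m - 1 := by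
    rw [hmdef]
    exact Polynomial.natDegree_derivative P
  have hcardP : Multiset.card P.roots = m := hPsp.natDegree_eq_card_roots.symm
  have hcardd : Multiset.card P.derivative.roots = m - 1 := by
    rw [← hdeg]
    exact hdsp.natDegree_eq_card_roots.symm
  have hP0 : P ≠ 0 := hP.ne_zero
  -- multiplicities
  have hmult : ∀ x ∈ P.derivative.roots,
      P.derivative.roots.count x + 1 = P.roots.count x := by
    intro x hx
    have hx0 : P.IsRoot x := hroot x hx
    rw [Polynomial.count_roots, Polynomial.count_roots,
      Polynomial.derivative_rootMultiplicity_of_root hx0]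
    have : 0 < P.rootMultiplicity x := (Polynomial.rootMultiplicity_pos hP0).mpr hx0
    omega
  have hle : P.derivative.roots + P.derivative.roots.toFinset.val ≤ P.roots := by
    rw [Multiset.le_iff_count]
    intro a
    rw [Multiset.count_add]
    by_cases ha : a ∈ P.derivative.roots
    · rw [← hmult a ha]
      have h1 : Multiset.count a P.derivative.roots.toFinset.val ≤ 1 :=
        Multiset.nodup_iff_count_le_one.mp P.derivative.roots.toFinset.nodup a
      omega
    · rw [Multiset.count_eq_zero_of_notMem ha]
      have h2 : a ∉ P.derivative.roots.toFinset.val := by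
        intro h3
        exact ha (Multiset.mem_toFinset.mp h3)
      rw [Multiset.count_eq_zero_of_notMem h2]
      exact Nat.zero_le _
  have hcard := Multiset.card_le_card hle
  rw [Multiset.card_add, hcardd, hcardP, Finset.card_val] at hcard
  have hT : P.derivative.roots.toFinset.card ≤ 1 := by omega
  have hpos : 0 < Multiset.card P.derivative.roots := by omega
  obtain ⟨c, hc⟩ := Multiset.card_pos_iff_exists_mem.mp hpos
  have hall : ∀ x ∈ P.derivative.roots, x = c := by
    intro x hx
    exact Finset.card_le_one.mp hT x (Multiset.mem_toFinset.mpr hx) c (Multiset.mem_toFinset.mpr hc)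
  have hcount : P.derivative.roots.count c = m - 1 := by
    rw [← hcardd]
    exact Multiset.count_eq_card.mpr (fun x hx => (hall x hx).symm)
  have hcountP : P.roots.count c = m := by
    rw [← hmult c hc, hcount]
    omega
  have hrep : P.roots = Multiset.replicate m c := by
    rw [Multiset.eq_replicate]
    refine ⟨hcardP, ?_⟩
    have h1 : P.roots.count c = Multiset.card P.roots := by rw [hcountP, hcardP]
    intro b hb
    exact (Multiset.count_eq_card.mp h1 b hb).symm
  refine ⟨c, ?_⟩
  have h1 := hPsp.eq_prod_roots_of_monic hP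
  rw [hrep, Multiset.map_replicate, Multiset.prod_replicate] at h1
  exact h1

/-- The order of the discriminant after a specialisation. -/
private theorem TwoSpec_disc_order {κ K : Type} [CommRing κ] [Nontrivial κ] [Field K]
    (ρ : κ →+* K) (F : Polynomial (PowerSeries κ)) (hF : F.Monic) (hm : 1 ≤ F.natDegree)
    (e : ℕ) (U : PowerSeries κ) (hD : F.discr = PowerSeries.X ^ e * U)
    (hU : ρ (PowerSeries.constantCoeff U) ≠ 0) :
    (Polynomial.resultant (F.map (PowerSeries.map ρ)).derivative (F.map (PowerSeries.map ρ))
      ((F.map (PowerSeries.map ρ)).natDegree - 1) (F.map (PowerSeries.map ρ)).natDegree).order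
      = e := by
  have hdeg : (F.map (PowerSeries.map ρ)).natDegree = F.natDegree := hF.natDegree_map _
  rw [hdeg, Polynomial.derivative_map, Polynomial.resultant_map_map,
    Polynomial.resultant_comm, Polynomial.resultant_deriv
      (Polynomial.natDegree_pos_iff_degree_pos.mp hm), hF.leadingCoeff, hD]
  simp only [map_mul, map_pow, map_neg, map_one, mul_one, PowerSeries.map_X]
  rw [PowerSeries.order_mul, PowerSeries.order_mul, PowerSeries.order_mul,
    PowerSeries.order_X_pow]
  have h1 : ∀ n : ℕ, (((-1 : PowerSeries K)) ^ n).order = 0 := fun n =>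
    PowerSeries.order_zero_of_unit (isUnit_one.neg.pow n)
  have h2 : (PowerSeries.map ρ U).order = 0 := by
    apply PowerSeries.order_zero_of_unit
    rw [PowerSeries.isUnit_iff_constantCoeff]
    apply IsUnit.mk0
    rw [← PowerSeries.coeff_zero_eq_constantCoeff_apply, PowerSeries.coeff_map,
      PowerSeries.coeff_zero_eq_constantCoeff_apply]
    exact hU
  rw [h1, h1, h2]
  simp

/-- If the discriminant is `η^e` times a series which is non zero at both specialisations and all
roots vanish at `η = 0` over `K`, then over `Ω` there is only one root at `η = 0`. -/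
theorem two_spec {κ K Ω : Type} [CommRing κ] [Field K] [IsAlgClosed K] [CharZero K]
    [Field Ω] [IsAlgClosed Ω] [CharZero Ω] (ρ : κ →+* K) (ι : κ →+* Ω)
    (hι : Function.Injective ι) (F : Polynomial (PowerSeries κ)) (hF : F.Monic)
    (e : ℕ) (U : PowerSeries κ) (hD : F.discr = PowerSeries.X ^ e * U)
    (hU : ρ (PowerSeries.constantCoeff U) ≠ 0)
    (h0 : (F.map (PowerSeries.map ρ)).map (PowerSeries.constantCoeff (R := K)) =
      Polynomial.X ^ F.natDegree) :
    ∃ c : Ω, (F.map (PowerSeries.map ι)).map (PowerSeries.constantCoeff (R := Ω)) =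
      (Polynomial.X - Polynomial.C c) ^ F.natDegree := by
  have : Nontrivial κ := ⟨⟨0, 1, fun h => by
    have h1 := congrArg ι h
    rw [map_zero, map_one] at h1
    exact zero_ne_one h1⟩⟩
  rcases Nat.lt_or_ge F.natDegree 2 with hm | hm
  · -- degree at most one
    rcases Nat.eq_zero_or_pos F.natDegree with h1 | h1
    · refine ⟨0, ?_⟩
      have h2 : F = 1 := hF.natDegree_eq_zero.mp h1
      rw [h1, h2, Polynomial.map_one, Polynomial.map_one, pow_zero]
    · have h2 : F.natDegree = 1 := by omega
      have h3 : F = Polynomial.X + Polynomial.C (F.coeff 0) := hF.eq_X_add_C h2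
      refine ⟨-(PowerSeries.constantCoeff (PowerSeries.map ι (F.coeff 0))), ?_⟩
      rw [h2, pow_one]
      conv_lhs => rw [h3]
      rw [Polynomial.map_add, Polynomial.map_add, Polynomial.map_X, Polynomial.map_X,
        Polynomial.map_C, Polynomial.map_C, map_neg, sub_neg_eq_add]
  · classical
    have hρdeg : (F.map (PowerSeries.map ρ)).natDegree = F.natDegree := hF.natDegree_map _
    have hιdeg : (F.map (PowerSeries.map ι)).natDegree = F.natDegree := hF.natDegree_map _
    have hρmonic : (F.map (PowerSeries.map ρ)).Monic := hF.map _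
    have hιmonic : (F.map (PowerSeries.map ι)).Monic := hF.map _
    have hU' : PowerSeries.constantCoeff U ≠ 0 := by
      intro h1
      rw [h1, map_zero] at hU
      exact hU rfl
    have hU2 : ι (PowerSeries.constantCoeff U) ≠ 0 := by
      intro h1
      exact hU' (hι (by rw [h1, map_zero]))
    have hDρ := TwoSpec_disc_order ρ F hF (by omega) e U hD hU
    have hDι := TwoSpec_disc_order ι F hF (by omega) e U hD hU2
    obtain ⟨t, hte, ht⟩ := TwoSpec_lemmaPb (F.map (PowerSeries.map ρ)) hρmonic
      (by rw [hρdeg]; omega) e hDρ (by rw [h0, hρdeg])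
    -- transfer of the nonvanishing coefficient
    have hRρ : Polynomial.resultant (F.map (PowerSeries.map ρ)).derivative
        (TwoSpec_dc (F.map (PowerSeries.map ρ))) (F.natDegree - 1) (F.natDegree - 1) =
        PowerSeries.map ρ (Polynomial.resultant F.derivative (TwoSpec_dc F)
          (F.natDegree - 1) (F.natDegree - 1)) := by
      rw [TwoSpec_dc_map, Polynomial.derivative_map, Polynomial.resultant_map_map]
    have hRι : Polynomial.resultant (F.map (PowerSeries.map ι)).derivative
        (TwoSpec_dc (F.map (PowerSeries.map ι))) (F.natDegree - 1) (F.natDegree - 1) =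
        PowerSeries.map ι (Polynomial.resultant F.derivative (TwoSpec_dc F)
          (F.natDegree - 1) (F.natDegree - 1)) := by
      rw [TwoSpec_dc_map, Polynomial.derivative_map, Polynomial.resultant_map_map]
    rw [hρdeg, hRρ] at ht
    have hc1 := (PowerSeries.order_eq_nat.mp ht).1
    rw [PowerSeries.coeff_map] at hc1
    have hc2 : PowerSeries.coeff t (Polynomial.resultant F.derivative (TwoSpec_dc F)
          (F.natDegree - 1) (F.natDegree - 1)) ≠ 0 := by
      intro h1
      rw [h1, map_zero] at hc1
      exact hc1 rfl
    have hc3 : PowerSeries.coeff t (PowerSeries.map ι (Polynomial.resultant F.derivative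
        (TwoSpec_dc F) (F.natDegree - 1) (F.natDegree - 1))) ≠ 0 := by
      rw [PowerSeries.coeff_map]
      intro h1
      exact hc2 (hι (by rw [h1, map_zero]))
    have hle := PowerSeries.order_le t hc3
    rw [← hRι] at hle
    have hPa := TwoSpec_lemmaPa (F.map (PowerSeries.map ι)) hιmonic (by rw [hιdeg]; omega) e t
      hDι (by rw [hιdeg]; exact hle)
    set P := (F.map (PowerSeries.map ι)).map (PowerSeries.constantCoeff (R := Ω)) with hPdef
    have hPmonic : P.Monic := hιmonic.map _
    have hPdeg : P.natDegree = F.natDegree := by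
      rw [hPdef, hιmonic.natDegree_map, hιdeg]
    have hdd : P.derivative.natDegree = F.natDegree - 1 := by
      rw [← hPdeg]
      exact Polynomial.natDegree_derivative P
    have hcardd : Multiset.card P.derivative.roots = F.natDegree - 1 := by
      rw [← hdd]
      exact (IsAlgClosed.splits P.derivative).natDegree_eq_card_roots.symm
    have hcnt : P.derivative.roots.countP (fun x => P.eval x = 0) =
        Multiset.card P.derivative.roots := by
      apply le_antisymm (Multiset.countP_le_card _ _)
      rw [hcardd]
      rw [hρdeg] at hte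
      omega
    have hall : ∀ x ∈ P.derivative.roots, P.eval x = 0 := by
      intro x hx
      exact Multiset.countP_eq_card.mp hcnt x hx
    obtain ⟨c, hc⟩ := TwoSpec_power P hPmonic (by omega) hall
    refine ⟨c, ?_⟩
    rw [← hPdeg]
    exact hc

end Pool.Agent.Helper38.EQ
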